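/-
SCV basics, part A: holomorphic functions (Fréchet differentiable over ℂ on an open subset of a
normed space): Cauchy estimates, locally uniform limits, smoothness.
-/
import Mathlib

set_option autoImplicit false

open Set Metric Filter Topology

namespace SCV

variable {E F : Type*} [NormedAddCommGroup E] [NormedSpace ℂ E]
  [NormedAddCommGroup F] [NormedSpace ℂ F]

/-- Cauchy estimate for the Fréchet derivative. -/
theorem norm_fderiv_le {f : E → F} {c : E} {R C : ℝ} (hR : 0 < R)
    (hd : DifferentiableOn ℂ f (ball c R)) (hC : ∀ z ∈ ball c R, ‖f z‖ ≤ C) :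
    ‖fderiv ℂ f c‖ ≤ 2 * C / R := by
  refine Complex.norm_fderiv_le_div_of_mapsTo_ball hd (fun z hz => ?_) hR
  rw [mem_closedBall, dist_eq_norm]
  calc ‖f z - f c‖ ≤ ‖f z‖ + ‖f c‖ := norm_sub_le _ _
    _ ≤ C + C := add_le_add (hC z hz) (hC c (mem_ball_self hR))
    _ = 2 * C := by ring

/-- Second order Taylor estimate. -/
theorem norm_taylor_le {f : E → F} {c z : E} {R C : ℝ} (hR : 0 < R)
    (hd : DifferentiableOn ℂ f (ball c R)) (hC : ∀ z ∈ ball c R, ‖f z‖ ≤ C)
    (hz : z ∈ ball c R) :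
    ‖f z - f c - fderiv ℂ f c (z - c)‖ ≤ 4 * C * (‖z - c‖ / R) ^ 2 := by
  have hC0 : 0 ≤ C := (norm_nonneg _).trans (hC c (mem_ball_self hR))
  set g : E → F := fun w => f w - f c - fderiv ℂ f c (w - c) with hg
  have hgd : DifferentiableOn ℂ g (ball c R) := by
    refine (hd.sub_const _).sub ?_
    exact ((fderiv ℂ f c).differentiable.comp (differentiable_id.sub_const c)).differentiableOn
  have hgc : g c = 0 := by simp [hg]
  have hmaps : MapsTo g (ball c R) (closedBall (g c) (4 * C)) := by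
    intro w hw
    rw [hgc, mem_closedBall, dist_zero_right]
    have h1 : ‖fderiv ℂ f c (w - c)‖ ≤ 2 * C := by
      calc ‖fderiv ℂ f c (w - c)‖ ≤ ‖fderiv ℂ f c‖ * ‖w - c‖ := (fderiv ℂ f c).le_opNorm _
        _ ≤ (2 * C / R) * R := by
            refine mul_le_mul (norm_fderiv_le hR hd hC) ?_ (norm_nonneg _) (by positivity)
            rw [mem_ball, dist_eq_norm] at hw; exact hw.le
        _ = 2 * C := by field_simp
    calc ‖g w‖ ≤ ‖f w - f c‖ + ‖fderiv ℂ f c (w - c)‖ := norm_sub_le _ _
      _ ≤ (‖f w‖ + ‖f c‖) + 2 * C := add_le_add (norm_sub_le _ _) h1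
      _ ≤ (C + C) + 2 * C := by
          have := hC w hw; have := hC c (mem_ball_self hR); linarith
      _ = 4 * C := by ring
  have hlo : (g · - g c) =o[𝓝 c] (fun w ↦ ‖w - c‖ ^ 1) := by
    have h1 : HasFDerivAt f (fderiv ℂ f c) c :=
      (hd.differentiableAt (isOpen_ball.mem_nhds (mem_ball_self hR))).hasFDerivAt
    have h2 := h1.isLittleO
    simp only [hgc, sub_zero, pow_one]
    exact h2.norm_right
  have := Complex.dist_le_mul_div_pow_of_mapsTo_ball_of_isLittleO (n := 1) hgd hmaps hlo hz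
  rw [hgc, dist_zero_right, dist_eq_norm] at this
  exact this

/-- Locally uniform limits of holomorphic maps are holomorphic and derivatives converge. -/
theorem tendstoLocallyUniformlyOn_fderiv [CompleteSpace F] [ProperSpace E] {U : Set E}
    (hU : IsOpen U) {f : ℕ → E → F} {g : E → F} (hf : ∀ n, DifferentiableOn ℂ (f n) U)
    (h : TendstoLocallyUniformlyOn f g atTop U) :
    DifferentiableOn ℂ g U ∧
      TendstoLocallyUniformlyOn (fun n => fderiv ℂ (f n)) (fderiv ℂ g) atTop U := by
  -- uniform Cauchy property of the derivatives near each point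
  have key : ∀ x ∈ U, ∃ ρ > 0, ball x ρ ⊆ U ∧
      UniformCauchySeqOn (fun n => fderiv ℂ (f n)) atTop (ball x ρ) := by
    intro x hx
    obtain ⟨ρ, hρ, hρU⟩ : ∃ ρ > 0, closedBall x (2 * ρ) ⊆ U := by
      obtain ⟨ε, hε, hεU⟩ := Metric.isOpen_iff.mp hU x hx
      refine ⟨ε / 4, by positivity, (closedBall_subset_ball (by linarith)).trans hεU⟩
    have hunif : TendstoUniformlyOn f g atTop (closedBall x (2 * ρ)) :=
      (tendstoLocallyUniformlyOn_iff_forall_isCompact hU).mp h _ hρU
        (isCompact_closedBall x (2 * ρ))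
    refine ⟨ρ, hρ, ((ball_subset_ball (by linarith)).trans ball_subset_closedBall).trans hρU, ?_⟩
    rw [Metric.uniformCauchySeqOn_iff]
    intro ε hε
    have hc := hunif.uniformCauchySeqOn
    rw [Metric.uniformCauchySeqOn_iff] at hc
    obtain ⟨N, hN⟩ := hc (ε * ρ / 4) (by positivity)
    refine ⟨N, fun m hm n hn z hz => ?_⟩
    have hsub : ball z ρ ⊆ closedBall x (2 * ρ) := by
      intro w hw
      rw [mem_ball] at hw hz
      rw [mem_closedBall]
      calc dist w x ≤ dist w z + dist z x := dist_triangle _ _ _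
        _ ≤ 2 * ρ := by linarith
    have hdm : DifferentiableAt ℂ (f m) z :=
      (hf m).differentiableAt (hU.mem_nhds (hρU (hsub (mem_ball_self hρ))))
    have hdn : DifferentiableAt ℂ (f n) z :=
      (hf n).differentiableAt (hU.mem_nhds (hρU (hsub (mem_ball_self hρ))))
    have hdiff : DifferentiableOn ℂ (fun w => f m w - f n w) (ball z ρ) :=
      ((hf m).mono (hsub.trans hρU)).sub ((hf n).mono (hsub.trans hρU))
    have hb : ∀ w ∈ ball z ρ, ‖f m w - f n w‖ ≤ ε * ρ / 4 := by
      intro w hw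
      rw [← dist_eq_norm]
      exact (hN m hm n hn w (hsub hw)).le
    have h1 := norm_fderiv_le hρ hdiff hb
    have h2 : fderiv ℂ (fun w => f m w - f n w) z = fderiv ℂ (f m) z - fderiv ℂ (f n) z :=
      fderiv_fun_sub hdm hdn
    rw [h2] at h1
    rw [dist_eq_norm]
    calc ‖fderiv ℂ (f m) z - fderiv ℂ (f n) z‖ ≤ 2 * (ε * ρ / 4) / ρ := h1
      _ = ε / 2 := by field_simp; ring
      _ < ε := by linarith
  -- the pointwise limit of the derivatives
  have hlim : ∀ x ∈ U, ∃ L : E →L[ℂ] F, Tendsto (fun n => fderiv ℂ (f n) x) atTop (𝓝 L) := by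
    intro x hx
    obtain ⟨ρ, hρ, -, hc⟩ := key x hx
    exact cauchySeq_tendsto_of_complete (hc.cauchySeq (mem_ball_self hρ))
  choose! g' hg' using hlim
  have hloc : TendstoLocallyUniformlyOn (fun n => fderiv ℂ (f n)) g' atTop U := by
    intro u hu x hx
    obtain ⟨ρ, hρ, hρU, hc⟩ := key x hx
    have := hc.tendstoUniformlyOn_of_tendsto (fun z hz => hg' z (hρU hz))
    exact ⟨ball x ρ, mem_nhdsWithin_of_mem_nhds (ball_mem_nhds x hρ), this u hu⟩
  have hder : ∀ x ∈ U, HasFDerivAt g (g' x) x := by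
    intro x hx
    exact hasFDerivAt_of_tendstoLocallyUniformlyOn (f := f) hU hloc
      (fun n z hz => ((hf n).differentiableAt (hU.mem_nhds hz)).hasFDerivAt)
      (fun z hz => h.tendsto_at hz) hx
  refine ⟨fun x hx => (hder x hx).differentiableAt.differentiableWithinAt, ?_⟩
  exact hloc.congr_right (fun x hx => (hder x hx).fderiv.symm)

/-- For a holomorphic map, every directional derivative is holomorphic. -/
theorem differentiableOn_fderiv_apply [CompleteSpace F] [ProperSpace E] {U : Set E}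
    (hU : IsOpen U) {f : E → F} (hf : DifferentiableOn ℂ f U) (v : E) :
    DifferentiableOn ℂ (fun z => fderiv ℂ f z v) U := by
  intro x hx
  -- work on a small ball
  obtain ⟨ρ, hρ, hρU⟩ : ∃ ρ > 0, closedBall x (4 * ρ) ⊆ U := by
    obtain ⟨ε, hε, hεU⟩ := Metric.isOpen_iff.mp hU x hx
    refine ⟨ε / 8, by positivity, (closedBall_subset_ball (by linarith)).trans hεU⟩
  obtain ⟨C, hC⟩ : ∃ C, ∀ z ∈ closedBall x (4 * ρ), ‖f z‖ ≤ C :=
    (isCompact_closedBall x (4 * ρ)).exists_bound_of_continuousOn (hf.continuousOn.mono hρU)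
  have hC0 : 0 ≤ C := (norm_nonneg _).trans (hC x (mem_closedBall_self (by positivity)))
  -- difference quotients
  set t : ℕ → ℂ := fun n => ((ρ / ((‖v‖ + 1) * (n + 1)) : ℝ) : ℂ) with ht
  have htpos : ∀ n : ℕ, 0 < ρ / ((‖v‖ + 1) * (n + 1)) := fun n => by positivity
  have htne : ∀ n, t n ≠ 0 := fun n => by
    simp only [ht]; exact Complex.ofReal_ne_zero.mpr (htpos n).ne'
  have htn : ∀ n, ‖t n‖ = ρ / ((‖v‖ + 1) * (n + 1)) := fun n => by
    rw [ht]; simp only [Complex.norm_real]; exact abs_of_pos (htpos n)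
  have htv : ∀ n, ‖t n • v‖ ≤ ρ / (n + 1) := by
    intro n
    rw [norm_smul, htn]
    have h1 : ‖v‖ / (‖v‖ + 1) ≤ 1 := by
      rw [div_le_one (by positivity)]; linarith
    calc ρ / ((‖v‖ + 1) * (n + 1)) * ‖v‖ = (ρ / (n + 1)) * (‖v‖ / (‖v‖ + 1)) := by
          field_simp
      _ ≤ (ρ / (n + 1)) * 1 := by gcongr
      _ = ρ / (n + 1) := mul_one _
  have htv' : ∀ n, ‖t n • v‖ ≤ ρ := fun n => (htv n).trans (by
    rw [div_le_iff₀ (by positivity)]
    have : (0 : ℝ) ≤ n := Nat.cast_nonneg n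
    nlinarith)
  set q : ℕ → E → F := fun n z => (t n)⁻¹ • (f (z + t n • v) - f z) with hq
  have hqd : ∀ n, DifferentiableOn ℂ (q n) (ball x (2 * ρ)) := by
    intro n
    refine DifferentiableOn.const_smul ?_ _
    refine DifferentiableOn.sub ?_ (hf.mono ?_)
    · refine hf.comp ((differentiable_id.add_const _).differentiableOn) ?_
      intro z hz
      apply hρU
      rw [mem_ball, dist_eq_norm] at hz
      rw [mem_closedBall, dist_eq_norm]
      calc ‖id z + t n • v - x‖ = ‖(z - x) + t n • v‖ := by simp only [id]; congr 1; abel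
        _ ≤ ‖z - x‖ + ‖t n • v‖ := norm_add_le _ _
        _ ≤ 4 * ρ := by linarith [htv' n]
    · exact ((ball_subset_ball (by linarith)).trans ball_subset_closedBall).trans hρU
  have hconv : TendstoLocallyUniformlyOn q (fun z => fderiv ℂ f z v) atTop (ball x (2 * ρ)) := by
    apply TendstoUniformlyOn.tendstoLocallyUniformlyOn
    rw [Metric.tendstoUniformlyOn_iff]
    intro ε hε
    have hlim : Tendsto (fun n : ℕ => (4 * C * (‖v‖ + 1) / ρ) * (1 / ((n : ℝ) + 1))) atTop (𝓝 0) := by
      have := (tendsto_one_div_add_atTop_nhds_zero_nat (𝕜 := ℝ)).const_mul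
        (4 * C * (‖v‖ + 1) / ρ)
      simpa using this
    filter_upwards [hlim.eventually (gt_mem_nhds hε)] with n hn z hz
    have hsub : ball z (2 * ρ) ⊆ closedBall x (4 * ρ) := by
      intro w hw
      rw [mem_ball] at hw hz
      rw [mem_closedBall]
      calc dist w x ≤ dist w z + dist z x := dist_triangle _ _ _
        _ ≤ 4 * ρ := by linarith
    have hmem : z + t n • v ∈ ball z (2 * ρ) := by
      rw [mem_ball, dist_eq_norm]
      have : z + t n • v - z = t n • v := by abel
      rw [this]; linarith [htv' n]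
    have h1 := norm_taylor_le (by positivity) (hf.mono (hsub.trans hρU))
      (fun w hw => hC w (hsub hw)) hmem
    have h2 : z + t n • v - z = t n • v := by abel
    rw [h2] at h1
    rw [dist_comm, dist_eq_norm]
    have h3 : q n z - fderiv ℂ f z v
        = (t n)⁻¹ • (f (z + t n • v) - f z - fderiv ℂ f z (t n • v)) := by
      rw [hq, smul_sub (t n)⁻¹ (f (z + t n • v) - f z), map_smul, smul_smul,
        inv_mul_cancel₀ (htne n), one_smul]
    rw [h3, norm_smul, norm_inv]
    have h4 : ‖t n • v‖ / (2 * ρ) ≤ (‖t n‖ * (‖v‖ + 1)) / (2 * ρ) := by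
      rw [norm_smul]; gcongr; linarith
    have htn0 : 0 < ‖t n‖ := norm_pos_iff.mpr (htne n)
    calc ‖t n‖⁻¹ * ‖f (z + t n • v) - f z - fderiv ℂ f z (t n • v)‖
        ≤ ‖t n‖⁻¹ * (4 * C * (‖t n • v‖ / (2 * ρ)) ^ 2) := by gcongr
      _ ≤ ‖t n‖⁻¹ * (4 * C * ((‖t n‖ * (‖v‖ + 1)) / (2 * ρ)) ^ 2) := by gcongr
      _ = C * (‖v‖ + 1) ^ 2 * ‖t n‖ / ρ ^ 2 := by field_simp; ring
      _ = (C * (‖v‖ + 1) / ρ) * (1 / ((n : ℝ) + 1)) := by
          rw [htn]; field_simp
      _ ≤ (4 * C * (‖v‖ + 1) / ρ) * (1 / ((n : ℝ) + 1)) := by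
          gcongr
          have : 0 ≤ C * (‖v‖ + 1) := by positivity
          nlinarith
      _ < ε := hn
  have := (tendstoLocallyUniformlyOn_fderiv isOpen_ball hqd hconv).1
  exact (this.differentiableAt (isOpen_ball.mem_nhds (mem_ball_self (by positivity)))).differentiableWithinAt

/-- Holomorphic maps on open subsets of finite-dimensional spaces are smooth. -/
theorem contDiffOn_of_differentiableOn [CompleteSpace F] [FiniteDimensional ℂ E] {U : Set E}
    (hU : IsOpen U) {f : E → F} (hf : DifferentiableOn ℂ f U) {n : ℕ∞} : ContDiffOn ℂ n f U := by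
  have : ProperSpace E := FiniteDimensional.proper ℂ E
  have main : ∀ (m : ℕ) (f : E → F), DifferentiableOn ℂ f U → ContDiffOn ℂ m f U := by
    intro m
    induction m with
    | zero => intro f hf; exact contDiffOn_zero.mpr hf.continuousOn
    | succ m ih =>
      intro f hf
      rw [show ((m + 1 : ℕ) : WithTop ℕ∞) = (m : WithTop ℕ∞) + 1 by push_cast; rfl,
        contDiffOn_succ_iff_fderiv_of_isOpen hU]
      refine ⟨hf, by simp, ?_⟩
      rw [contDiffOn_clm_apply]
      intro v
      exact ih _ (differentiableOn_fderiv_apply hU hf v)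
  rcases n with _ | n
  · exact contDiffOn_infty.mpr (fun m => main m f hf)
  · exact main n f hf

theorem contDiffAt_of_differentiableOn [CompleteSpace F] [FiniteDimensional ℂ E] {U : Set E}
    (hU : IsOpen U) {f : E → F} (hf : DifferentiableOn ℂ f U) {z : E} (hz : z ∈ U) {n : ℕ∞} :
    ContDiffAt ℂ n f z :=
  (contDiffOn_of_differentiableOn hU hf).contDiffAt (hU.mem_nhds hz)

end SCV
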