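import Pool.Agent.Work.MP_0e9e72_an.Frame

/-!
# Block D, part 1: existence of a frame
-/

set_option autoImplicit false

open Complex Metric Set Filter Topology
open scoped ContDiff

namespace Pool.Agent.Sqz
namespace BlockD

section
variable {E : Type*} [NormedAddCommGroup E] [NormedSpace ℂ E] [FiniteDimensional ℂ E]

/-- the complex-linear functional with real part `ℓ`. -/
theorem exists_complex_functional (ℓ : E →L[ℝ] ℝ) :
    ∃ L : E →L[ℂ] ℂ, (∀ z, ℓ z = (L z).re) ∧ ∀ z, L z = (ℓ z : ℂ) - I * (ℓ (I • z) : ℂ) := by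
  let L : E →ₗ[ℂ] ℂ :=
    { toFun := fun z => (ℓ z : ℂ) - I * (ℓ (I • z) : ℂ)
      map_add' := by
        intro x y
        simp only [smul_add, map_add, ofReal_add]
        ring
      map_smul' := by
        intro c x
        have h : ∀ y : E, ℓ (c • y) = c.re * ℓ y + c.im * ℓ (I • y) := by
          intro y
          have : c • y = c.re • y + c.im • (I • y) := by
            conv_lhs => rw [← Complex.re_add_im c]
            rw [add_smul, mul_smul, Complex.coe_smul, Complex.coe_smul]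
          rw [this, map_add, map_smul, map_smul]
          rfl
        have h2 : ℓ (I • (I • x)) = -ℓ x := by
          rw [smul_smul, I_mul_I, neg_one_smul, map_neg]
        rw [smul_comm I c x, h, h, h2]
        simp only [RingHom.id_apply, smul_eq_mul]
        conv_rhs => rw [← Complex.re_add_im c]
        push_cast
        linear_combination ((c.im : ℂ) * (ℓ (I • x) : ℂ)) * I_mul_I }
  refine ⟨LinearMap.toContinuousLinearMap L, fun z => ?_, fun z => rfl⟩
  show ℓ z = ((ℓ z : ℂ) - I * (ℓ (I • z) : ℂ)).re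
  simp

theorem exists_frame (ℓ : E →L[ℝ] ℝ) (hℓ : ℓ ≠ 0) (W : Submodule ℂ E)
    (hdim : Module.finrank ℂ E - 2 ≤ Module.finrank ℂ W)
    (hW : ∀ v ∈ W, ℓ v = 0 ∧ ℓ (I • v) = 0) (v : E) (hvW : v ∉ W) (hv1 : ℓ v = 0)
    (hv2 : ℓ (I • v) = 0) :
    ∃ Φ : Frame E, Φ.e1 = v ∧ (∀ z, ℓ z = (Φ.pw z).re) ∧ ∀ z, Φ.PW z ∈ W := by
  obtain ⟨L, hL, hL'⟩ := exists_complex_functional ℓ
  have hLv : L v = 0 := by rw [hL', hv1, hv2]; simp
  have hLW : ∀ w ∈ W, L w = 0 := by
    intro w hw
    rw [hL', (hW w hw).1, (hW w hw).2]; simp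
  have hL0 : ∃ n0, L n0 = 1 := by
    have : ∃ y, L y ≠ 0 := by
      by_contra hcon
      push Not at hcon
      apply hℓ
      ext z
      rw [hL, hcon]
      simp
    obtain ⟨y, hy⟩ := this
    exact ⟨(L y)⁻¹ • y, by rw [map_smul, smul_eq_mul, inv_mul_cancel₀ hy]⟩
  obtain ⟨n0, hn0⟩ := hL0
  -- the functional `p1`
  have hvH : v ∉ W ⊔ Submodule.span ℂ {n0} := by
    intro h
    obtain ⟨w, hw, y, hy, hwy⟩ := Submodule.mem_sup.1 h
    obtain ⟨c, rfl⟩ := Submodule.mem_span_singleton.1 hy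
    have h1 := congrArg L hwy
    rw [map_add, hLW w hw, map_smul, hn0, hLv, smul_eq_mul, mul_one, zero_add] at h1
    apply hvW
    rw [← hwy, h1, zero_smul, add_zero]
    exact hw
  obtain ⟨f, hfv, hfH⟩ := Submodule.exists_le_ker_of_notMem hvH
  let p1 : E →L[ℂ] ℂ := LinearMap.toContinuousLinearMap ((f v)⁻¹ • f)
  have hp1 : ∀ z, p1 z = (f v)⁻¹ * f z := fun z => rfl
  have hp1v : p1 v = 1 := by rw [hp1, inv_mul_cancel₀ hfv]
  have hp1W : ∀ w ∈ W, p1 w = 0 := by
    intro w hw
    have : f w = 0 := LinearMap.mem_ker.1 (hfH (Submodule.mem_sup_left hw))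
    rw [hp1, this, mul_zero]
  have hp1n : p1 n0 = 0 := by
    have : f n0 = 0 := LinearMap.mem_ker.1 (hfH (Submodule.mem_sup_right
      (Submodule.mem_span_singleton_self n0)))
    rw [hp1, this, mul_zero]
  -- dimension count
  have hker : W ⊔ Submodule.span ℂ {v} = LinearMap.ker (L : E →ₗ[ℂ] ℂ) := by
    apply Submodule.eq_of_le_of_finrank_le
    · apply sup_le
      · intro w hw; exact LinearMap.mem_ker.2 (hLW w hw)
      · rw [Submodule.span_singleton_le_iff_mem]
        exact LinearMap.mem_ker.2 hLv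
    · have h1 : Module.finrank ℂ (LinearMap.ker (L : E →ₗ[ℂ] ℂ)) + 1 = Module.finrank ℂ E := by
        have h2 := LinearMap.finrank_range_add_finrank_ker (L : E →ₗ[ℂ] ℂ)
        have h3 : LinearMap.range (L : E →ₗ[ℂ] ℂ) = ⊤ := by
          rw [LinearMap.range_eq_top]
          intro c
          exact ⟨c • n0, by
            show L (c • n0) = c
            rw [map_smul, hn0, smul_eq_mul, mul_one]⟩
        rw [h3, finrank_top, Module.finrank_self] at h2
        omega
      have hv0 : v ≠ 0 := fun h => hvW (h ▸ W.zero_mem)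
      have h4 : 0 < Module.finrank ℂ (LinearMap.ker (L : E →ₗ[ℂ] ℂ)) := by
        rw [Module.finrank_pos_iff_exists_ne_zero]
        exact ⟨⟨v, LinearMap.mem_ker.2 hLv⟩, fun h => hv0 (congrArg Subtype.val h)⟩
      have h5 : Module.finrank ℂ W + 1 ≤
          Module.finrank ℂ (W ⊔ Submodule.span ℂ {v} : Submodule ℂ E) := by
        have hlt : W < W ⊔ Submodule.span ℂ {v} := by
          refine lt_of_le_of_ne le_sup_left fun h => hvW ?_
          rw [h]
          exact Submodule.mem_sup_right (Submodule.mem_span_singleton_self v)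
        exact Submodule.finrank_lt_finrank_of_lt hlt
      omega
  let PW : E →L[ℂ] E := ContinuousLinearMap.id ℂ E - p1.smulRight v - L.smulRight n0
  have hPW : ∀ z, PW z = z - p1 z • v - L z • n0 := fun z => rfl
  have hp1PW : ∀ z, p1 (PW z) = 0 := by
    intro z
    rw [hPW, map_sub, map_sub, map_smul, map_smul, hp1v, hp1n]
    simp
  have hLPW : ∀ z, L (PW z) = 0 := by
    intro z
    rw [hPW, map_sub, map_sub, map_smul, map_smul, hLv, hn0]
    simp
  refine ⟨⟨v, n0, p1, L, PW, ?_, hp1v, hp1n, hp1PW, hLv, hn0, hLPW, ?_, ?_, ?_⟩, rfl, hL, ?_⟩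
  · intro z; rw [hPW]; abel
  · rw [hPW, hp1v, hLv]; simp
  · rw [hPW, hp1n, hn0]; simp
  · intro z
    rw [hPW (PW z), hp1PW, hLPW]; simp
  · intro z
    have h1 : PW z ∈ W ⊔ Submodule.span ℂ {v} := by
      rw [hker]; exact LinearMap.mem_ker.2 (hLPW z)
    obtain ⟨w, hw, y, hy, hwy⟩ := Submodule.mem_sup.1 h1
    obtain ⟨c, rfl⟩ := Submodule.mem_span_singleton.1 hy
    have h2 := congrArg p1 hwy
    rw [map_add, hp1W w hw, map_smul, hp1v, hp1PW, smul_eq_mul, mul_one, zero_add] at h2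
    show PW z ∈ W
    rw [← hwy, h2, zero_smul, add_zero]
    exact hw

end

end BlockD
end Pool.Agent.Sqz
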