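import Pool.Agent.Work.MP_0e9e72_an.Frame

/-!
# Block D, part 2: the polynomial automorphism
-/

set_option autoImplicit false

open Complex Metric Set Filter Topology
open scoped ContDiff

namespace Pool.Agent.Sqz
namespace BlockD

section
variable {E : Type*} [NormedAddCommGroup E] [NormedSpace ℂ E]

/-- the automorphism built from the curve `U`. -/
noncomputable def Psi (Φ : Frame E) (U : ℂ → E × (E →L[ℂ] ℂ)) (z : E) : E :=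
  z + Φ.PW (U (Φ.p1 z)).1 + (Φ.pw (U (Φ.p1 z)).1 + (U (Φ.p1 z)).2 (Φ.PW z)) • Φ.ew

/-- its inverse. -/
noncomputable def PsiInv (Φ : Frame E) (U : ℂ → E × (E →L[ℂ] ℂ)) (y : E) : E :=
  y - Φ.PW (U (Φ.p1 y)).1 -
    (Φ.pw (U (Φ.p1 y)).1 + (U (Φ.p1 y)).2 (Φ.PW y - Φ.PW (U (Φ.p1 y)).1)) • Φ.ew

variable (Φ : Frame E) (U : ℂ → E × (E →L[ℂ] ℂ))

theorem PsiInv_Psi (z : E) : PsiInv Φ U (Psi Φ U z) = z := by
  have h1 : Φ.p1 (Psi Φ U z) = Φ.p1 z := by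
    simp [Psi, Φ.p1_PW, Φ.p1_ew]
  have h2 : Φ.PW (Psi Φ U z) = Φ.PW z + Φ.PW (U (Φ.p1 z)).1 := by
    simp [Psi, Φ.PW_PW, Φ.PW_ew]
  unfold PsiInv
  rw [h1, h2]
  simp only [add_sub_cancel_right]
  simp only [Psi]
  abel

theorem Psi_PsiInv (y : E) : Psi Φ U (PsiInv Φ U y) = y := by
  have h1 : Φ.p1 (PsiInv Φ U y) = Φ.p1 y := by
    simp [PsiInv, Φ.p1_PW, Φ.p1_ew]
  have h2 : Φ.PW (PsiInv Φ U y) = Φ.PW y - Φ.PW (U (Φ.p1 y)).1 := by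
    simp [PsiInv, Φ.PW_PW, Φ.PW_ew]
  unfold Psi
  rw [h1, h2]
  simp only [PsiInv]
  abel

theorem Psi_zero (h0 : U 0 = 0) : Psi Φ U 0 = 0 := by
  simp [Psi, h0]

theorem PsiInv_zero (h0 : U 0 = 0) : PsiInv Φ U 0 = 0 := by
  simp [PsiInv, h0]

theorem Psi_e1 (h1 : ∀ ζ, Φ.p1 (U ζ).1 = ζ) (ζ : ℂ) : Psi Φ U (ζ • Φ.e1) = (U ζ).1 := by
  have h2 := Φ.decomp (U ζ).1
  rw [h1] at h2
  have h3 : Φ.p1 (ζ • Φ.e1) = ζ := by rw [map_smul, Φ.p1_e1, smul_eq_mul, mul_one]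
  unfold Psi
  rw [h3, map_smul, Φ.PW_e1, smul_zero, map_zero, add_zero, ← h2]

variable {U}

theorem contDiff_Psi (hU : ContDiff ℂ ∞ U) : ContDiff ℂ ∞ (Psi Φ U) := by
  unfold Psi
  have h1 : ContDiff ℂ ∞ (fun z => U (Φ.p1 z)) := hU.comp Φ.p1.contDiff
  have h2 : ContDiff ℂ ∞ (fun z => (U (Φ.p1 z)).1) := contDiff_fst.comp h1
  have h3 : ContDiff ℂ ∞ (fun z => (U (Φ.p1 z)).2) := contDiff_snd.comp h1
  exact (contDiff_id.add (Φ.PW.contDiff.comp h2)).add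
    (((Φ.pw.contDiff.comp h2).add (h3.clm_apply Φ.PW.contDiff)).smul contDiff_const)

theorem contDiff_PsiInv (hU : ContDiff ℂ ∞ U) : ContDiff ℂ ∞ (PsiInv Φ U) := by
  unfold PsiInv
  have h1 : ContDiff ℂ ∞ (fun z => U (Φ.p1 z)) := hU.comp Φ.p1.contDiff
  have h2 : ContDiff ℂ ∞ (fun z => (U (Φ.p1 z)).1) := contDiff_fst.comp h1
  have h3 : ContDiff ℂ ∞ (fun z => (U (Φ.p1 z)).2) := contDiff_snd.comp h1
  have h4 : ContDiff ℂ ∞ (fun z => Φ.PW (U (Φ.p1 z)).1) := Φ.PW.contDiff.comp h2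
  exact (contDiff_id.sub h4).sub
    (((Φ.pw.contDiff.comp h2).add (h3.clm_apply (Φ.PW.contDiff.sub h4))).smul contDiff_const)

theorem fderiv_Psi_zero (hU : ContDiff ℂ ∞ U) (h0 : U 0 = 0) (h1 : (deriv U 0).1 = Φ.e1) (z : E) :
    fderiv ℂ (Psi Φ U) 0 z = z := by
  have hUd : HasFDerivAt U (ContinuousLinearMap.toSpanSingleton ℂ (deriv U 0)) (Φ.p1 (0 : E)) := by
    rw [map_zero]
    exact (hU.differentiable (by simp) 0).hasDerivAt.hasFDerivAt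
  have hc := hUd.comp (0 : E) Φ.p1.hasFDerivAt
  have hc1 := hc.fst
  have hc2 := hc.snd
  have hPW := Φ.PW.hasFDerivAt (x := (0 : E))
  have hid := hasFDerivAt_id (𝕜 := ℂ) (0 : E)
  have hA := Φ.PW.hasFDerivAt.comp (0 : E) hc1
  have hB := Φ.pw.hasFDerivAt.comp (0 : E) hc1
  have hC := hc2.clm_apply hPW
  have hall := ((hid.add hA).add ((hB.add hC).smul_const Φ.ew))
  have hfun : (Psi Φ U) = fun z => z + Φ.PW (U (Φ.p1 z)).1 +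
    (Φ.pw (U (Φ.p1 z)).1 + (U (Φ.p1 z)).2 (Φ.PW z)) • Φ.ew := rfl
  have h2 : fderiv ℂ (Psi Φ U) 0 = _ := hall.fderiv
  rw [h2]
  simp [h0, h1, Φ.PW_e1, Φ.pw_e1]

theorem fderiv_Psi_e1 (hU : ContDiff ℂ ∞ U) (ζ : ℂ) (x : E) :
    fderiv ℂ (Psi Φ U) (ζ • Φ.e1) (Φ.PW x) = Φ.PW x + (U ζ).2 (Φ.PW x) • Φ.ew := by
  have h3 : Φ.p1 (ζ • Φ.e1) = ζ := by rw [map_smul, Φ.p1_e1, smul_eq_mul, mul_one]
  have hd : DifferentiableAt ℂ (Psi Φ U) (ζ • Φ.e1) :=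
    (contDiff_Psi Φ hU).differentiable (by simp) _
  have hl : HasDerivAt (fun t : ℂ => ζ • Φ.e1 + t • Φ.PW x) (Φ.PW x) 0 := by
    simpa using ((hasDerivAt_id (0 : ℂ)).smul_const (Φ.PW x)).const_add (ζ • Φ.e1)
  have hd' : HasFDerivAt (Psi Φ U) (fderiv ℂ (Psi Φ U) (ζ • Φ.e1))
      (ζ • Φ.e1 + (0 : ℂ) • Φ.PW x) := by
    rw [zero_smul, add_zero]; exact hd.hasFDerivAt
  have h4 := hd'.comp_hasDerivAt (0 : ℂ) hl
  have h5 : (Psi Φ U) ∘ (fun t : ℂ => ζ • Φ.e1 + t • Φ.PW x) = fun t : ℂ =>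
      (ζ • Φ.e1 + Φ.PW (U ζ).1 + Φ.pw (U ζ).1 • Φ.ew) +
        t • (Φ.PW x + (U ζ).2 (Φ.PW x) • Φ.ew) := by
    funext t
    have h6 : Φ.p1 (ζ • Φ.e1 + t • Φ.PW x) = ζ := by
      rw [map_add, map_smul Φ.p1 t, Φ.p1_PW, smul_zero, add_zero, h3]
    have h7 : Φ.PW (ζ • Φ.e1 + t • Φ.PW x) = t • Φ.PW x := by
      rw [map_add, map_smul, map_smul, Φ.PW_e1, Φ.PW_PW, smul_zero, zero_add]
    simp only [Function.comp, Psi, h6, h7, map_smul, smul_eq_mul, add_smul, smul_add, mul_smul]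
    abel
  have h8 : HasDerivAt ((Psi Φ U) ∘ (fun t : ℂ => ζ • Φ.e1 + t • Φ.PW x))
      (Φ.PW x + (U ζ).2 (Φ.PW x) • Φ.ew) 0 := by
    rw [h5]
    simpa using ((hasDerivAt_id (0 : ℂ)).smul_const (Φ.PW x + (U ζ).2 (Φ.PW x) • Φ.ew)).const_add
      (ζ • Φ.e1 + Φ.PW (U ζ).1 + Φ.pw (U ζ).1 • Φ.ew)
  exact h4.unique h8

end

end BlockD
end Pool.Agent.Sqz
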