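import Pool.Agent.Work.MP_0e9e72_an.Jets

/-!
# Block D, item (3): the polynomial change of coordinates which kills the pure terms
-/

set_option autoImplicit false

open Complex Metric Set Filter Topology
open scoped ContDiff

namespace Pool.Agent.Sqz

namespace D3

/-! ### polynomial curves with prescribed jets -/
section poly
variable {V : Type*} [NormedAddCommGroup V] [NormedSpace ℂ V]

/-- polynomial curve with jet `x 0, …, x N` at `0` -/
noncomputable def polyc (x : ℕ → V) (N : ℕ) (ζ : ℂ) : V :=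
  ∑ i ∈ Finset.range (N + 1), (ζ ^ i / (i.factorial : ℂ)) • x i

theorem contDiff_polyc (x : ℕ → V) (N : ℕ) : ContDiff ℂ ∞ (polyc x N) := by
  unfold polyc
  exact ContDiff.sum fun i _ => ((contDiff_id.pow i).div_const _).smul contDiff_const

theorem polyc_zero (x : ℕ → V) (N : ℕ) : polyc x N 0 = x 0 := by
  unfold polyc
  rw [Finset.sum_range_succ']
  simp

theorem deriv_polyc (x : ℕ → V) (N : ℕ) :
    deriv (polyc x (N + 1)) = polyc (fun i => x (i + 1)) N := by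
  funext ζ
  have h : HasDerivAt (polyc x (N + 1)) (polyc (fun i => x (i + 1)) N ζ) ζ := by
    have h1 : polyc x (N + 1) = fun ζ =>
        (∑ i ∈ Finset.range (N + 1), (ζ ^ (i + 1) / ((i + 1).factorial : ℂ)) • x (i + 1)) + x 0 := by
      funext ζ
      unfold polyc
      rw [Finset.sum_range_succ' _ (N + 1)]
      simp
    rw [h1]
    refine HasDerivAt.add_const _ ?_
    unfold polyc
    refine HasDerivAt.fun_sum fun i _ => ?_
    have h2 : HasDerivAt (fun ζ : ℂ => ζ ^ (i + 1) / ((i + 1).factorial : ℂ))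
        (((i + 1 : ℕ) : ℂ) * ζ ^ i / ((i + 1).factorial : ℂ)) ζ := by
      simpa using (hasDerivAt_pow (i + 1) ζ).div_const ((i + 1).factorial : ℂ)
    have h3 := h2.smul_const (x (i + 1))
    have h4 : ((i + 1 : ℕ) : ℂ) * ζ ^ i / ((i + 1).factorial : ℂ) = ζ ^ i / (i.factorial : ℂ) := by
      rw [Nat.factorial_succ]
      have : ((i + 1 : ℕ) : ℂ) ≠ 0 := by exact_mod_cast Nat.succ_ne_zero i
      have h5 : (i.factorial : ℂ) ≠ 0 := by exact_mod_cast Nat.factorial_ne_zero i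
      push_cast at this ⊢
      field_simp
    rwa [h4] at h3
  exact h.deriv

theorem iteratedDeriv_polyc (x : ℕ → V) (N i : ℕ) (hi : i ≤ N) :
    iteratedDeriv i (polyc x N) 0 = x i := by
  induction i generalizing x N with
  | zero => rw [iteratedDeriv_zero, polyc_zero]
  | succ i ih =>
    obtain ⟨M, rfl⟩ : ∃ M, N = M + 1 := ⟨N - 1, by omega⟩
    rw [iteratedDeriv_succ', deriv_polyc, ih _ _ (by omega)]

theorem polyc_add (x y : ℕ → V) (N : ℕ) (ζ : ℂ) :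
    polyc (fun i => x i + y i) N ζ = polyc x N ζ + polyc y N ζ := by
  simp [polyc, smul_add, Finset.sum_add_distrib]

theorem polyc_map {W : Type*} [NormedAddCommGroup W] [NormedSpace ℂ W] (L : V →L[ℂ] W)
    (x : ℕ → V) (N : ℕ) (ζ : ℂ) : L (polyc x N ζ) = polyc (fun i => L (x i)) N ζ := by
  simp [polyc, map_sum]

end poly

/-! ### the linear algebra of one step -/

theorem exists_solve {E : Type*} [NormedAddCommGroup E] [NormedSpace ℂ E] [FiniteDimensional ℂ E]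
    (P : E →L[ℂ] E) (B : E →L[ℝ] E →L[ℝ] ℝ)
    (hpos : ∀ x, P x ≠ 0 → 0 < B (P x) (P x) + B (I • P x) (I • P x)) (hP : ∀ z, P (P z) = P z)
    (G : E →L[ℝ] ℂ) :
    ∃ X : E, P X = X ∧ ∃ S : E →L[ℂ] ℂ, ∀ x,
      (1 / 2 : ℂ) * ((B X (P x) : ℂ) - I * (B (I • X) (P x) : ℂ)) + (1 / 2 : ℂ) * S (P x)
        = G (P x) := by
  classical
  have : FiniteDimensional ℝ E := FiniteDimensional.complexToReal E
  let Wr : Submodule ℝ E := LinearMap.range ((P : E →ₗ[ℂ] E).restrictScalars ℝ)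
  have hWI : ∀ x ∈ Wr, I • x ∈ Wr := by
    rintro _ ⟨y, rfl⟩
    exact ⟨I • y, by simp⟩
  have hWP : ∀ x ∈ Wr, P x = x := by
    rintro _ ⟨y, rfl⟩
    simpa using hP y
  let M : Wr →ₗ[ℝ] Module.Dual ℝ Wr := LinearMap.mk₂ ℝ
    (fun X x => B (X : E) (x : E) + B (I • (X : E)) (I • (x : E)))
    (by intro a b c; simp [smul_add]; ring)
    (by intro c a b; simp [smul_comm I c]; ring)
    (by intro a b c; simp [smul_add]; ring)
    (by intro c a b; simp [smul_comm I c]; ring)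
  have hMapp : ∀ X x, M X x = B (X : E) (x : E) + B (I • (X : E)) (I • (x : E)) := fun _ _ => rfl
  have hinj : Function.Injective M := by
    rw [injective_iff_map_eq_zero]
    intro X hX
    by_contra hne
    have h1 : M X X = 0 := by rw [hX]; rfl
    rw [hMapp] at h1
    have h2 : P (X : E) = X := hWP _ X.2
    have h3 : P (X : E) ≠ 0 := by
      rw [h2]; simpa using hne
    have h4 := hpos _ h3
    rw [h2] at h4
    linarith
  have hsurj : Function.Surjective M :=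
    (LinearMap.injective_iff_surjective_of_finrank_eq_finrank
      (Subspace.dual_finrank_eq (K := ℝ) (V := Wr)).symm).1 hinj
  -- the functional
  let ℓE : E →ₗ[ℝ] ℝ :=
    { toFun := fun x => 2 * (G x + I * G (I • x)).re
      map_add' := by intro a b; simp [smul_add, mul_add]; ring
      map_smul' := by intro c a; simp [smul_comm I c, mul_add]; ring }
  let ℓ : Module.Dual ℝ Wr := ℓE.comp Wr.subtype
  obtain ⟨X, hX⟩ := hsurj ℓ
  have hX' : ∀ x ∈ Wr, B (X : E) x + B (I • (X : E)) (I • x) = 2 * (G x + I * G (I • x)).re := by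
    intro x hx
    have := congrArg (fun L : Module.Dual ℝ Wr => L ⟨x, hx⟩) hX
    simpa [hMapp, ℓ, ℓE] using this
  -- the remaining part is complex-linear
  let K : E →L[ℝ] ℂ := (G - (1 / 2 : ℂ) • (ofRealCLM.comp (B (X : E)) -
    I • ofRealCLM.comp (B (I • (X : E))))).comp (P.restrictScalars ℝ)
  have hK : ∀ v, K v = G (P v) - (1 / 2 : ℂ) * ((B (X : E) (P v) : ℂ) -
      I * (B (I • (X : E)) (P v) : ℂ)) := fun v => rfl
  have hKd : ∀ v, dCL K 0 v = (1 / 2 : ℂ) * (K v - I * K (I • v)) := by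
    intro v
    change dC K 0 v = _
    simp only [dC, ContinuousLinearMap.fderiv, smul_eq_mul]
  refine ⟨X, hWP _ X.2, (2 : ℂ) • LinearMap.toContinuousLinearMap (dCL K 0), fun x => ?_⟩
  have hS : ((2 : ℂ) • LinearMap.toContinuousLinearMap (dCL K 0)) (P x) =
      K (P x) - I * K (I • P x) := by
    have : ((2 : ℂ) • LinearMap.toContinuousLinearMap (dCL K 0)) (P x) = 2 * dCL K 0 (P x) := rfl
    rw [this, hKd]
    ring
  rw [hS, hK, hK]
  have hmem : P x ∈ Wr := ⟨x, rfl⟩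
  have hmemI : I • P x ∈ Wr := hWI _ hmem
  have e1 := hX' _ hmem
  have e2 := hX' _ hmemI
  have h6 : I • I • P x = - P x := by rw [smul_smul, I_mul_I]; simp
  rw [h6] at e2
  have h7 : P (I • P x) = I • P x := by rw [map_smul, hP]
  rw [hP, h7]
  simp only [map_neg, mul_neg] at e2
  apply Complex.ext
  · simp at e1 e2 ⊢
    linarith
  · simp at e1 e2 ⊢
    linarith

/-! ### the two functions on `E × E'` whose jets have to be killed -/
section gAB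
variable {E : Type*} [NormedAddCommGroup E] [NormedSpace ℂ E]

/-- the value of `r` -/
noncomputable def gA (r : E → ℝ) (p : E × (E →L[ℂ] ℂ)) : ℂ := (r p.1 : ℂ)

/-- the derivative of `r` along the (moving) copy of `W` -/
noncomputable def gB (Φ : Frame E) (r : E → ℝ) (p : E × (E →L[ℂ] ℂ)) : E →L[ℝ] ℂ :=
  ofRealCLM.comp ((fderiv ℝ r p.1).comp
    ((Φ.PW + (p.2.comp Φ.PW).smulRight Φ.ew).restrictScalars ℝ))

theorem gB_apply (Φ : Frame E) (r : E → ℝ) (p : E × (E →L[ℂ] ℂ)) (x : E) :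
    gB Φ r p x = ((fderiv ℝ r p.1 (Φ.PW x + p.2 (Φ.PW x) • Φ.ew) : ℝ) : ℂ) := rfl

theorem contDiff_gA {r : E → ℝ} (hr : ContDiff ℝ ∞ r) : ContDiff ℝ ∞ (gA r) :=
  ofRealCLM.contDiff.comp (hr.comp contDiff_fst)

theorem contDiff_eval (y : E) : ContDiff ℝ ∞ (fun p : E × (E →L[ℂ] ℂ) => p.2 y) :=
  (((ContinuousLinearMap.apply ℂ ℂ y).restrictScalars ℝ).contDiff).comp contDiff_snd

theorem contDiff_gB [FiniteDimensional ℂ E] (Φ : Frame E) {r : E → ℝ} (hr : ContDiff ℝ ∞ r) :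
    ContDiff ℝ ∞ (gB Φ r) := by
  have : FiniteDimensional ℝ E := FiniteDimensional.complexToReal E
  rw [contDiff_clm_apply_iff]
  intro x
  have h1 : ContDiff ℝ ∞ (fderiv ℝ r) := hr.fderiv_right (m := ∞) (by simp)
  have h2 : ContDiff ℝ ∞ (fun p : E × (E →L[ℂ] ℂ) => fderiv ℝ r p.1) := h1.comp contDiff_fst
  have h3 : ContDiff ℝ ∞ (fun p : E × (E →L[ℂ] ℂ) => Φ.PW x + p.2 (Φ.PW x) • Φ.ew) :=
    contDiff_const.add ((contDiff_eval (Φ.PW x)).smul contDiff_const)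
  exact ofRealCLM.contDiff.comp (h2.clm_apply h3)

theorem dC_gA (Φ : Frame E) {r : E → ℝ} (hr : ContDiff ℝ ∞ r)
    (dr0 : ∀ z, fderiv ℝ r 0 z = (Φ.pw z).re) (p : E × (E →L[ℂ] ℂ)) :
    dC (gA r) 0 p = (1 / 2 : ℂ) * Φ.pw p.1 := by
  have h0 : HasFDerivAt r (fderiv ℝ r 0) ((0 : E × (E →L[ℂ] ℂ)).1) :=
    (hr.differentiable (by simp)).differentiableAt.hasFDerivAt
  have h : HasFDerivAt (gA r) (ofRealCLM.comp ((fderiv ℝ r 0).comp
      (ContinuousLinearMap.fst ℝ E (E →L[ℂ] ℂ)))) 0 :=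
    (ofRealCLM.hasFDerivAt).comp _ (h0.comp _ hasFDerivAt_fst)
  simp only [dC, h.fderiv, ContinuousLinearMap.comp_apply, ContinuousLinearMap.coe_fst',
    Prod.smul_fst, dr0, ofRealCLM_apply, smul_eq_mul, map_smul]
  apply Complex.ext <;> simp

theorem dC_gB [FiniteDimensional ℂ E] (Φ : Frame E) {r : E → ℝ} (hr : ContDiff ℝ ∞ r)
    (dr0 : ∀ z, fderiv ℝ r 0 z = (Φ.pw z).re) (p : E × (E →L[ℂ] ℂ)) (x : E) :
    dC (gB Φ r) 0 p x = (1 / 2 : ℂ) * ((fderiv ℝ (fderiv ℝ r) 0 p.1 (Φ.PW x) : ℂ) -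
      I * (fderiv ℝ (fderiv ℝ r) 0 (I • p.1) (Φ.PW x) : ℂ)) + (1 / 2 : ℂ) * p.2 (Φ.PW x) := by
  have hd : DifferentiableAt ℝ (gB Φ r) 0 :=
    ((contDiff_gB Φ hr).differentiable (by simp)).differentiableAt
  have h1 : ContDiff ℝ ∞ (fderiv ℝ r) := hr.fderiv_right (m := ∞) (by simp)
  have key : ∀ q : E × (E →L[ℂ] ℂ), fderiv ℝ (gB Φ r) 0 q x =
      ((fderiv ℝ (fderiv ℝ r) 0 q.1 (Φ.PW x) + (q.2 (Φ.PW x)).re : ℝ) : ℂ) := by
    intro q
    have e1 : HasFDerivAt (fun p => gB Φ r p x)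
        ((ContinuousLinearMap.apply ℝ ℂ x).comp (fderiv ℝ (gB Φ r) 0)) 0 :=
      ((ContinuousLinearMap.apply ℝ ℂ x).hasFDerivAt).comp _ hd.hasFDerivAt
    have h0 : HasFDerivAt (fderiv ℝ r) (fderiv ℝ (fderiv ℝ r) 0) ((0 : E × (E →L[ℂ] ℂ)).1) :=
      (h1.differentiable (by simp)).differentiableAt.hasFDerivAt
    have e2 : HasFDerivAt (fun p : E × (E →L[ℂ] ℂ) => fderiv ℝ r p.1)
        ((fderiv ℝ (fderiv ℝ r) 0).comp (ContinuousLinearMap.fst ℝ E (E →L[ℂ] ℂ))) 0 :=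
      h0.comp _ hasFDerivAt_fst
    have e3 : HasFDerivAt (fun p : E × (E →L[ℂ] ℂ) => Φ.PW x + p.2 (Φ.PW x) • Φ.ew)
        ((((ContinuousLinearMap.apply ℂ ℂ (Φ.PW x)).restrictScalars ℝ).comp
          (ContinuousLinearMap.snd ℝ E (E →L[ℂ] ℂ))).smulRight Φ.ew) 0 := by
      have e4 : HasFDerivAt (fun p : E × (E →L[ℂ] ℂ) => p.2 (Φ.PW x))
          (((ContinuousLinearMap.apply ℂ ℂ (Φ.PW x)).restrictScalars ℝ).comp
          (ContinuousLinearMap.snd ℝ E (E →L[ℂ] ℂ))) 0 :=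
        (((ContinuousLinearMap.apply ℂ ℂ (Φ.PW x)).restrictScalars ℝ).hasFDerivAt).comp _
          hasFDerivAt_snd
      exact (e4.smul_const Φ.ew).const_add _
    have e5 := (ofRealCLM.hasFDerivAt).comp _ (e2.clm_apply e3)
    have e6 := e1.unique e5
    have e7 := congrArg (fun L : (E × (E →L[ℂ] ℂ)) →L[ℝ] ℂ => L q) e6
    simp only [ContinuousLinearMap.comp_apply, ContinuousLinearMap.apply_apply] at e7
    rw [e7]
    simp [dr0, Φ.pw_ew]
    ring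
  have h2 : dC (gB Φ r) 0 p x = (1 / 2 : ℂ) * (fderiv ℝ (gB Φ r) 0 p x -
      I * fderiv ℝ (gB Φ r) 0 (I • p) x) := rfl
  rw [h2, key, key]
  apply Complex.ext <;> simp <;> ring

end gAB

/-! ### solving order by order -/
section solve
variable {E : Type*} [NormedAddCommGroup E] [NormedSpace ℂ E]

/-- the jets of the curve `(φ, S)` -/
noncomputable def Jet (Φ : Frame E) (X : ℕ → E) (Ω : ℕ → ℂ) (S : ℕ → (E →L[ℂ] ℂ)) (k : ℕ) :
    E × (E →L[ℂ] ℂ) :=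
  ((if k = 1 then Φ.e1 else 0) + X k + Ω k • Φ.ew, S k)

theorem exists_jets [FiniteDimensional ℂ E] (Φ : Frame E) {r : E → ℝ} (hr : ContDiff ℝ ∞ r)
    (dr0 : ∀ z, fderiv ℝ r 0 z = (Φ.pw z).re)
    (levW : ∀ x, Φ.PW x ≠ 0 → 0 < Lev r 0 (Φ.PW x))
    (TA : ∀ k : ℕ, (Fin (k + 1) → E × (E →L[ℂ] ℂ)) → ℂ)
    (TB : ∀ k : ℕ, (Fin (k + 1) → E × (E →L[ℂ] ℂ)) → (E →L[ℝ] ℂ)) (n : ℕ) :
    ∃ (X : ℕ → E) (Ω : ℕ → ℂ) (S : ℕ → (E →L[ℂ] ℂ)), X 0 = 0 ∧ Ω 0 = 0 ∧ S 0 = 0 ∧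
      (∀ k, Φ.PW (X k) = X k) ∧ ∀ k < n,
        (TA k (fun i => Jet Φ X Ω S i) + dC (gA r) 0 (Jet Φ X Ω S (k + 1)) = 0 ∧
        ∀ x, (TB k (fun i => Jet Φ X Ω S i) + dC (gB Φ r) 0 (Jet Φ X Ω S (k + 1))) (Φ.PW x) = 0)
    := by
  classical
  induction n with
  | zero => exact ⟨fun _ => 0, fun _ => 0, fun _ => 0, rfl, rfl, rfl, fun k => by simp,
      fun k hk => absurd hk (by omega)⟩
  | succ n ih =>
    obtain ⟨X, Ω, S, hX0, hΩ0, hS0, hXW, hT⟩ := ih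
    -- the new entries
    let o : ℂ := -2 * TA n (fun i => Jet Φ X Ω S i)
    let B := fderiv ℝ (fderiv ℝ r) 0
    let e : E := (if n + 1 = 1 then Φ.e1 else 0) + o • Φ.ew
    let G : E →L[ℝ] ℂ := -(TB n (fun i => Jet Φ X Ω S i)) -
      (1 / 2 : ℂ) • (ofRealCLM.comp (B e) - I • ofRealCLM.comp (B (I • e)))
    obtain ⟨x', hx', s', hs'⟩ := exists_solve Φ.PW B (fun x hx => levW x hx) Φ.PW_PW G
    let X' := Function.update X (n + 1) x'
    let Ω' := Function.update Ω (n + 1) o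
    let S' := Function.update S (n + 1) s'
    have hlow : ∀ k, k ≤ n → Jet Φ X' Ω' S' k = Jet Φ X Ω S k := by
      intro k hk
      have : k ≠ n + 1 := by omega
      simp [Jet, X', Ω', S', this]
    have hnew : Jet Φ X' Ω' S' (n + 1) = (e + x', s') := by
      simp only [Jet, X', Ω', S', Function.update_self, e]
      congr 1
      abel
    have hfun : ∀ k, k ≤ n → (fun i : Fin (k + 1) => Jet Φ X' Ω' S' i) =
        fun i : Fin (k + 1) => Jet Φ X Ω S i := by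
      intro k hk
      funext i
      exact hlow _ (by omega)
    refine ⟨X', Ω', S', ?_, ?_, ?_, ?_, ?_⟩
    · simp [X', hX0]
    · simp [Ω', hΩ0]
    · simp [S', hS0]
    · intro k
      by_cases hk : k = n + 1
      · subst hk; simpa [X'] using hx'
      · simpa [X', hk] using hXW k
    · intro k hk
      rcases Nat.lt_succ_iff_lt_or_eq.1 hk with hk' | rfl
      · rw [hfun k (by omega), hlow (k + 1) (by omega)]
        exact hT k hk'
      · rw [hfun k le_rfl, hnew]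
        constructor
        · rw [dC_gA Φ hr dr0]
          have h1 : Φ.pw x' = 0 := by rw [← hx', Φ.pw_PW]
          have h2 : Φ.pw e = o := by
            simp only [e, map_add, map_smul, Φ.pw_ew, smul_eq_mul, mul_one]
            split_ifs <;> simp [Φ.pw_e1]
          simp only [map_add, h1, h2, o]
          ring
        · intro x
          rw [add_apply, dC_gB Φ hr dr0]
          have h3 := hs' (Φ.PW x)
          rw [Φ.PW_PW] at h3
          rw [Φ.PW_PW]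
          have h4 : G (Φ.PW x) = -(TB k (fun i => Jet Φ X Ω S i)) (Φ.PW x) -
            (1 / 2 : ℂ) * ((B e (Φ.PW x) : ℂ) - I * (B (I • e) (Φ.PW x) : ℂ)) := rfl
          rw [h4] at h3
          simp only [smul_add, map_add, add_apply, ofReal_add]
          linear_combination h3

end solve

/-! ### `dz` commutes with complex-linear maps -/
section dzmap
variable {F : Type*} [NormedAddCommGroup F] [NormedSpace ℂ F]
variable {F' : Type*} [NormedAddCommGroup F'] [NormedSpace ℂ F']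

theorem contDiff_dz' {f : ℂ → F} (hf : ContDiff ℝ ∞ f) : ContDiff ℝ ∞ (dz f) := by
  have h1 : ContDiff ℝ ∞ (fderiv ℝ f) := hf.fderiv_right (m := ∞) (by simp)
  have h3 : ContDiff ℝ ∞ (fun ζ => fderiv ℝ f ζ 1) := h1.clm_apply contDiff_const
  have h4 : ContDiff ℝ ∞ (fun ζ => fderiv ℝ f ζ I) := h1.clm_apply contDiff_const
  exact (h3.sub (h4.const_smul I)).const_smul (1 / 2 : ℂ)

theorem dz_clm (L : F →L[ℂ] F') {f : ℂ → F} {ζ : ℂ} (hf : DifferentiableAt ℝ f ζ) :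
    dz (fun ζ => L (f ζ)) ζ = L (dz f ζ) := by
  have h : HasFDerivAt (fun ζ => L (f ζ)) ((L.restrictScalars ℝ).comp (fderiv ℝ f ζ)) ζ :=
    ((L.restrictScalars ℝ).hasFDerivAt).comp ζ hf.hasFDerivAt
  simp only [dz, h.fderiv]
  simp

theorem dz_iter_clm (L : F →L[ℂ] F') {f : ℂ → F} (hf : ContDiff ℝ ∞ f) (k : ℕ) :
    dz^[k] (fun ζ => L (f ζ)) = fun ζ => L (dz^[k] f ζ) := by
  induction k generalizing f with
  | zero => rfl
  | succ k ih =>
    rw [Function.iterate_succ_apply, Function.iterate_succ_apply, ← ih (contDiff_dz' hf)]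
    congr 1
    funext ζ
    exact dz_clm L (hf.differentiable (by simp)).differentiableAt

end dzmap

section main
variable {E : Type*} [NormedAddCommGroup E] [NormedSpace ℂ E]

/-- evaluation as a complex-linear map -/
noncomputable def evalC (x : E) : (E →L[ℝ] ℂ) →L[ℂ] ℂ where
  toFun := fun f => f x
  map_add' := fun _ _ => rfl
  map_smul' := fun _ _ => rfl
  cont := (ContinuousLinearMap.apply ℝ ℂ x).continuous

theorem polar_zero [FiniteDimensional ℂ E] (Φ : Frame E) {r : E → ℝ}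
    (levW : ∀ x, Φ.PW x ≠ 0 → 0 < Lev r 0 (Φ.PW x))
    (hpol : ∀ x, fderiv ℝ (fderiv ℝ r) 0 Φ.e1 (Φ.PW x) +
      fderiv ℝ (fderiv ℝ r) 0 (I • Φ.e1) (I • Φ.PW x) = 0)
    {X : E} (hX : Φ.PW X = X) {s : E →L[ℂ] ℂ}
    (h : ∀ x, (1 / 2 : ℂ) * ((fderiv ℝ (fderiv ℝ r) 0 (Φ.e1 + X) (Φ.PW x) : ℂ) -
      I * (fderiv ℝ (fderiv ℝ r) 0 (I • (Φ.e1 + X)) (Φ.PW x) : ℂ)) + (1 / 2 : ℂ) * s (Φ.PW x)
        = 0) : X = 0 := by
  set B := fderiv ℝ (fderiv ℝ r) 0 with hB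
  -- the polar form vanishes
  have hP : ∀ x, B (Φ.e1 + X) (Φ.PW x) + B (I • (Φ.e1 + X)) (I • Φ.PW x) = 0 := by
    intro x
    have e1 := h x
    have e2 := h (I • x)
    simp only [map_smul] at e1 e2
    have r1 := congrArg Complex.re e1
    have r2 := congrArg Complex.im e2
    simp at r1 r2
    simp
    linarith
  by_contra hne
  have h6 : Φ.PW X ≠ 0 := by rwa [hX]
  have h7 := levW X h6
  have h8 := hP X
  have h9 := hpol X
  rw [hX] at h7 h8 h9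
  have h10 : Lev r 0 X = B X X + B (I • X) (I • X) := rfl
  simp only [smul_add, map_add, add_apply] at h8
  linarith

/-- a null direction of a positive semi-definite Levi form is orthogonal to everything -/
theorem polar_of_psd (Φ : Frame E) {r : E → ℝ} (hr : ContDiff ℝ ∞ r) (p : E)
    (psd : ∀ v, Φ.pw v = 0 → 0 ≤ Lev r p v) (lev1 : Lev r p Φ.e1 = 0) (x : E) :
    fderiv ℝ (fderiv ℝ r) p Φ.e1 (Φ.PW x) +
      fderiv ℝ (fderiv ℝ r) p (I • Φ.e1) (I • Φ.PW x) = 0 := by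
  have hsymm : ∀ u v, fderiv ℝ (fderiv ℝ r) p u v = fderiv ℝ (fderiv ℝ r) p v u := by
    intro u v
    have h1 : ContDiffAt ℝ 2 r p := by
      have h2 : ContDiff ℝ ((2 : ℕ) : WithTop ℕ∞) r := contDiff_infty.1 hr 2
      exact_mod_cast h2.contDiffAt
    exact (h1.isSymmSndFDerivAt (by simp)).eq u v
  set B := fderiv ℝ (fderiv ℝ r) p with hB
  have hq : ∀ t : ℝ, 0 ≤ Lev r p (Φ.PW x) +
      t * (2 * (B Φ.e1 (Φ.PW x) + B (I • Φ.e1) (I • Φ.PW x))) := by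
    intro t
    have h1 := psd (Φ.PW x + (t : ℂ) • Φ.e1) (by simp [Φ.pw_PW, Φ.pw_e1])
    have h2 : Lev r p (Φ.PW x + (t : ℂ) • Φ.e1) = Lev r p (Φ.PW x) +
        t * (2 * (B Φ.e1 (Φ.PW x) + B (I • Φ.e1) (I • Φ.PW x))) + t ^ 2 * Lev r p Φ.e1 := by
      have h3 : (t : ℂ) • Φ.e1 = t • Φ.e1 := by simp
      have h4 : I • (t : ℂ) • Φ.e1 = t • (I • Φ.e1) := by
        rw [smul_comm]; simp
      simp only [Lev, smul_add, h4, ← hB]
      rw [h3]
      simp only [map_add, map_smul, add_apply, smul_apply, smul_eq_mul]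
      rw [hsymm (Φ.PW x) Φ.e1, hsymm (I • Φ.PW x) (I • Φ.e1)]
      ring
    rw [h2, lev1] at h1
    linarith
  by_contra hne
  have h5 := hq (-(Lev r p (Φ.PW x) + 1) / (2 * (B Φ.e1 (Φ.PW x) + B (I • Φ.e1) (I • Φ.PW x))))
  rw [div_mul_cancel₀ _ (by simpa using hne)] at h5
  linarith

/-- item (3) at the base point `0` -/
theorem exists_U [FiniteDimensional ℂ E] (Φ : Frame E) {r : E → ℝ}
    (hr : ContDiff ℝ ∞ r) (dr0 : ∀ z, fderiv ℝ r 0 z = (Φ.pw z).re)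
    (levW : ∀ x, Φ.PW x ≠ 0 → 0 < Lev r 0 (Φ.PW x))
    (hpol : ∀ x, fderiv ℝ (fderiv ℝ r) 0 Φ.e1 (Φ.PW x) +
      fderiv ℝ (fderiv ℝ r) 0 (I • Φ.e1) (I • Φ.PW x) = 0) (N : ℕ) :
    ∃ U : ℂ → E × (E →L[ℂ] ℂ), ContDiff ℂ ∞ U ∧ U 0 = 0 ∧ (∀ ζ, Φ.p1 (U ζ).1 = ζ) ∧
      (deriv U 0).1 = Φ.e1 ∧
      (∀ k, 1 ≤ k → k ≤ N → dz^[k] (fun ζ : ℂ => (r (U ζ).1 : ℂ)) 0 = 0) ∧
      (∀ x, ∀ k, 1 ≤ k → k ≤ N → dz^[k] (fun ζ : ℂ =>
        (fderiv ℝ r (U ζ).1 (Φ.PW x + (U ζ).2 (Φ.PW x) • Φ.ew) : ℂ)) 0 = 0) := by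
  classical
  choose TA hTA hTA' using fun k : ℕ => exists_jet (contDiff_gA hr) (k + 1) (Nat.le_add_left 1 k)
  choose TB hTB hTB' using fun k : ℕ =>
    exists_jet (contDiff_gB Φ hr) (k + 1) (Nat.le_add_left 1 k)
  obtain ⟨X, Ω, S, hX0, hΩ0, hS0, hXW, hT⟩ := exists_jets Φ hr dr0 levW TA TB (N + 1)
  let J := Jet Φ X Ω S
  let U : ℂ → E × (E →L[ℂ] ℂ) := polyc J (N + 1)
  have hU : ContDiff ℂ ∞ U := contDiff_polyc _ _
  have hJ0 : J 0 = 0 := by simp [J, Jet, hX0, hΩ0, hS0]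
  have hU0 : U 0 = 0 := by simp only [U, polyc_zero, hJ0]
  have hUi : ∀ i, i ≤ N + 1 → iteratedDeriv i U 0 = J i := fun i hi =>
    iteratedDeriv_polyc J (N + 1) i hi
  have hA : ∀ k < N + 1, dz^[k + 1] (fun ζ => gA r (U ζ)) 0 = 0 := by
    intro k hk
    rw [hTA' k U hU 0, hU0, hUi (k + 1) (by omega)]
    have : (fun i : Fin (k + 1) => iteratedDeriv i U 0) = fun i : Fin (k + 1) => J i := by
      funext i; exact hUi i (by omega)
    rw [this]
    exact (hT k hk).1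
  have hB : ∀ k < N + 1, ∀ x, (dz^[k + 1] (fun ζ => gB Φ r (U ζ)) 0) (Φ.PW x) = 0 := by
    intro k hk x
    rw [hTB' k U hU 0, hU0, hUi (k + 1) (by omega)]
    have : (fun i : Fin (k + 1) => iteratedDeriv i U 0) = fun i : Fin (k + 1) => J i := by
      funext i; exact hUi i (by omega)
    rw [this]
    exact (hT k hk).2 x
  have hp1 : ∀ ζ, Φ.p1 (U ζ).1 = ζ := by
    intro ζ
    have h1 : Φ.p1 (U ζ).1 = polyc (fun i => Φ.p1 (J i).1) (N + 1) ζ :=
      polyc_map (Φ.p1.comp (ContinuousLinearMap.fst ℂ E (E →L[ℂ] ℂ))) J (N + 1) ζ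
    have h2 : (fun i => Φ.p1 (J i).1) = fun i => if i = 1 then (1 : ℂ) else 0 := by
      funext i
      have : Φ.p1 (X i) = 0 := by rw [← hXW i, Φ.p1_PW]
      by_cases hi : i = 1
      · simp [J, Jet, hi, Φ.p1_e1, Φ.p1_ew, hi ▸ this]
      · simp [J, Jet, hi, Φ.p1_ew, this]
    rw [h1, h2]
    simp only [polyc, smul_ite, smul_zero]
    rw [Finset.sum_ite_eq' (Finset.range (N + 1 + 1)) 1]
    simp
  have hd0 := hasDerivAt_iteratedDeriv hU 0 0
  rw [iteratedDeriv_zero, zero_add, hUi 1 (by omega)] at hd0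
  -- order one
  have hΩ1 : Ω 1 = 0 := by
    have h1 := hA 0 (by omega)
    have h2 : dz (fun ζ => gA r (U ζ)) 0 = dC (gA r) (U 0) (J 1) :=
      dC_comp_curve ((contDiff_gA hr).differentiable (by simp)).differentiableAt hd0
    have h3 : dz (fun ζ => gA r (U ζ)) 0 = 0 := h1
    rw [h3, hU0, dC_gA Φ hr dr0] at h2
    have h4 : Φ.pw (J 1).1 = Ω 1 := by
      have : Φ.pw (X 1) = 0 := by rw [← hXW 1, Φ.pw_PW]
      simp [J, Jet, Φ.pw_e1, Φ.pw_ew, this]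
    rw [h4] at h2
    simpa using h2.symm
  have hX1 : X 1 = 0 := by
    have h2 : dz (fun ζ => gB Φ r (U ζ)) 0 = dC (gB Φ r) (U 0) (J 1) :=
      dC_comp_curve ((contDiff_gB Φ hr).differentiable (by simp)).differentiableAt hd0
    rw [hU0] at h2
    refine polar_zero Φ levW hpol (hXW 1) (s := S 1) fun x => ?_
    have h3 := hB 0 (by omega) x
    have h4 : dz^[0 + 1] (fun ζ => gB Φ r (U ζ)) 0 = dz (fun ζ => gB Φ r (U ζ)) 0 := rfl
    rw [h4, h2, dC_gB Φ hr dr0, Φ.PW_PW] at h3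
    have h5 : (J 1).1 = Φ.e1 + X 1 := by simp [J, Jet, hΩ1]
    have h6 : (J 1).2 = S 1 := rfl
    rw [h5, h6] at h3
    exact h3
  refine ⟨U, hU, hU0, hp1, ?_, ?_, ?_⟩
  · rw [hd0.deriv]
    simp [J, Jet, hΩ1, hX1]
  · intro k hk hkN
    obtain ⟨j, rfl⟩ : ∃ j, k = j + 1 := ⟨k - 1, by omega⟩
    exact hA j (by omega)
  · intro x k hk hkN
    obtain ⟨j, rfl⟩ : ∃ j, k = j + 1 := ⟨k - 1, by omega⟩
    have h1 : (fun ζ : ℂ => (fderiv ℝ r (U ζ).1 (Φ.PW x + (U ζ).2 (Φ.PW x) • Φ.ew) : ℂ)) =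
        fun ζ => evalC (Φ.PW x) (gB Φ r (U ζ)) := by
      funext ζ
      change _ = gB Φ r (U ζ) (Φ.PW x)
      rw [gB_apply, Φ.PW_PW]
    have h2 : ContDiff ℝ ∞ (fun ζ => gB Φ r (U ζ)) :=
      (contDiff_gB Φ hr).comp (hU.restrict_scalars ℝ)
    rw [h1, dz_iter_clm _ h2]
    exact hB j (by omega) x

end main

end D3

section
variable {E : Type*} [NormedAddCommGroup E] [NormedSpace ℂ E]

/-- **Block D, item (3)** -/
theorem iD3 [FiniteDimensional ℂ E] (Φ : Frame E) {r : E → ℝ}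
    (hr : ContDiff ℝ ((⊤ : ℕ∞) : WithTop ℕ∞) r) (p : E)
    (hdr : ∀ z, fderiv ℝ r p z = (Φ.pw z).re)
    (hlevW : ∀ x, Φ.PW x ≠ 0 → 0 < Lev r p (Φ.PW x))
    (hpol : ∀ x, fderiv ℝ (fderiv ℝ r) p Φ.e1 (Φ.PW x) +
      fderiv ℝ (fderiv ℝ r) p (I • Φ.e1) (I • Φ.PW x) = 0)
    (N : ℕ) :
    ∃ U : ℂ → E × (E →L[ℂ] ℂ), ContDiff ℂ ∞ U ∧ U 0 = 0 ∧ (∀ ζ, Φ.p1 (U ζ).1 = ζ) ∧
      (deriv U 0).1 = Φ.e1 ∧
      (∀ k, 1 ≤ k → k ≤ N → dz^[k] (fun ζ : ℂ => (r (p + (U ζ).1) : ℂ)) 0 = 0) ∧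
      (∀ x, ∀ k, 1 ≤ k → k ≤ N → dz^[k] (fun ζ : ℂ =>
        (fderiv ℝ r (p + (U ζ).1) (Φ.PW x + (U ζ).2 (Φ.PW x) • Φ.ew) : ℂ)) 0 = 0) := by
  have h1 : ∀ z, fderiv ℝ (fun z => r (p + z)) z = fderiv ℝ r (p + z) := fun z =>
    fderiv_comp_add_left p
  have h2 : fderiv ℝ (fun z => r (p + z)) = fun z => fderiv ℝ r (p + z) := funext h1
  have h3 : fderiv ℝ (fderiv ℝ (fun z => r (p + z))) 0 = fderiv ℝ (fderiv ℝ r) p := by
    rw [h2, fderiv_comp_add_left p (f := fderiv ℝ r), add_zero]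
  have hr' : ContDiff ℝ ∞ (fun z => r (p + z)) := hr.comp (contDiff_const.add contDiff_id)
  have h4 : ∀ v, Lev (fun z => r (p + z)) 0 v = Lev r p v := by
    intro v
    simp only [Lev, h3]
  obtain ⟨U, hU, hU0, hp1, hd, hA, hB⟩ := D3.exists_U Φ hr' (by simpa [h1] using hdr)
    (by simpa [h4] using hlevW) (by simpa only [h3] using hpol) N
  refine ⟨U, hU, hU0, hp1, hd, hA, ?_⟩
  simpa only [h1] using hB

end

end Pool.Agent.Sqz
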