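import Pool.Agent.Work.MP_0e9e72_an.Frame

/-!
# Block D, part 4: the estimate for the centre points
-/

set_option autoImplicit false

open Complex Metric Set Filter Topology
open scoped ContDiff

namespace Pool.Agent.Sqz
namespace BlockD

section
variable {E : Type*} [NormedAddCommGroup E] [NormedSpace ℝ E]

/-- second order Taylor estimate. -/
theorem taylor2 {r : E → ℝ} (hr : ContDiff ℝ ((⊤ : ℕ∞) : WithTop ℕ∞) r) (p : E) :
    ∃ K > 0, ∃ ρ > 0, ∀ z ∈ ball p ρ, |r z - r p - fderiv ℝ r p (z - p)| ≤ K * ‖z - p‖ ^ 2 := by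
  have h1 : ContDiff ℝ 1 (fderiv ℝ r) :=
    (hr.fderiv_right (m := ∞) (by simp)).of_le (by exact_mod_cast le_top)
  obtain ⟨K, s, hs, hK⟩ := h1.contDiffAt.exists_lipschitzOnWith (x := p)
  obtain ⟨ρ, hρ, hρs⟩ := Metric.mem_nhds_iff.1 hs
  refine ⟨K + 1, by positivity, ρ, hρ, fun z hz => ?_⟩
  have hconv : Convex ℝ (ball p (‖z - p‖ + (ρ - ‖z - p‖) / 2)) := convex_ball _ _
  -- work on the closed ball of radius `‖z-p‖`
  have hzn : ‖z - p‖ < ρ := by simpa [dist_eq_norm] using hz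
  have hb : ∀ x ∈ closedBall p ‖z - p‖, ‖fderiv ℝ r x - fderiv ℝ r p‖ ≤ K * ‖z - p‖ := by
    intro x hx
    have hx' : x ∈ s := hρs (mem_ball.2 (lt_of_le_of_lt (mem_closedBall.1 hx) hzn))
    have hp' : p ∈ s := hρs (mem_ball_self hρ)
    have := hK.dist_le_mul x hx' p hp'
    rw [dist_eq_norm] at this
    refine this.trans ?_
    gcongr
    exact mem_closedBall.1 hx
  have := (convex_closedBall p ‖z - p‖).norm_image_sub_le_of_norm_hasFDerivWithin_le'
    (f := r) (f' := fderiv ℝ r) (φ := fderiv ℝ r p)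
    (fun x _ => (hr.differentiable (by simp) x).hasFDerivAt.hasFDerivWithinAt) hb
    (x := p) (y := z) (mem_closedBall_self (norm_nonneg _))
    (by rw [mem_closedBall, dist_eq_norm])
  rw [Real.norm_eq_abs] at this
  calc |r z - r p - fderiv ℝ r p (z - p)| ≤ K * ‖z - p‖ * ‖z - p‖ := this
    _ ≤ (K + 1) * ‖z - p‖ ^ 2 := by nlinarith [norm_nonneg (z - p), sq_nonneg ‖z - p‖]

/-- distance to the boundary is controlled by the defining function. -/
theorem infDist_le {D U : Set E} {r : E → ℝ} {p : E} (hUo : IsOpen U) (hpU : p ∈ U)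
    (hr : ContDiff ℝ ((⊤ : ℕ∞) : WithTop ℕ∞) r) (hrp : r p = 0) (hdr : fderiv ℝ r p ≠ 0)
    (hDU : D ∩ U = {z | z ∈ U ∧ r z < 0}) :
    ∃ C > 0, ∀ᶠ z in 𝓝 p, z ∈ D → r z < 0 ∧ infDist z (frontier D) ≤ C * (-(r z)) := by
  obtain ⟨n0, hn0⟩ : ∃ n0, fderiv ℝ r p n0 = 1 := by
    have : ∃ y, fderiv ℝ r p y ≠ 0 := by
      by_contra hcon
      push Not at hcon
      exact hdr (by ext z; simpa using hcon z)
    obtain ⟨y, hy⟩ := this
    exact ⟨(fderiv ℝ r p y)⁻¹ • y, by rw [map_smul, smul_eq_mul, inv_mul_cancel₀ hy]⟩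
  have hcont : Continuous (fun z => fderiv ℝ r z n0) :=
    (hr.continuous_fderiv (by simp)).clm_apply continuous_const
  have hev : ∀ᶠ z in 𝓝 p, z ∈ U ∧ 1 / 2 < fderiv ℝ r z n0 := by
    refine (hUo.eventually_mem hpU).and ?_
    exact (hcont.tendsto p).eventually (lt_mem_nhds (by rw [hn0]; norm_num))
  obtain ⟨ρ, hρ, hρs⟩ := Metric.eventually_nhds_iff_ball.1 hev
  have hn0' : 0 < ‖n0‖ := by
    rw [norm_pos_iff]
    rintro rfl
    simp at hn0
  have hrc : Continuous r := hr.continuous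
  have hsmall : ∀ᶠ z in 𝓝 p, |r z| * (2 * ‖n0‖) < ρ / 2 := by
    have : Tendsto (fun z => |r z| * (2 * ‖n0‖)) (𝓝 p) (𝓝 (|r p| * (2 * ‖n0‖))) :=
      (hrc.abs.mul continuous_const).tendsto p
    rw [hrp, abs_zero, zero_mul] at this
    exact this.eventually (gt_mem_nhds (by positivity))
  refine ⟨2 * ‖n0‖, by positivity, ?_⟩
  filter_upwards [hsmall, ball_mem_nhds p (half_pos hρ), hUo.eventually_mem hpU]
    with z hz1 hz2 hzU hzD
  have hrz : r z < 0 := by
    have : z ∈ D ∩ U := ⟨hzD, hzU⟩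
    rw [hDU] at this
    exact this.2
  refine ⟨hrz, ?_⟩
  set t : ℝ := 2 * (-(r z)) with ht
  have htpos : 0 < t := by linarith
  have hseg : ∀ s ∈ Icc (0 : ℝ) t, z + s • n0 ∈ ball p ρ := by
    intro s hs
    rw [mem_ball, dist_eq_norm]
    have h1 : ‖z - p‖ < ρ / 2 := by simpa [dist_eq_norm] using hz2
    have h2 : ‖s • n0‖ ≤ |r z| * (2 * ‖n0‖) := by
      rw [norm_smul, Real.norm_eq_abs, abs_of_nonneg hs.1, abs_of_neg hrz]
      have := hs.2
      nlinarith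
    calc ‖z + s • n0 - p‖ = ‖(z - p) + s • n0‖ := by congr 1; abel
      _ ≤ ‖z - p‖ + ‖s • n0‖ := norm_add_le _ _
      _ < ρ := by linarith
  -- growth along the segment
  have hgrow : r z + 1 / 2 * (t - 0) ≤ r (z + t • n0) := by
    have hder : ∀ s, HasDerivAt (fun s : ℝ => r (z + s • n0)) (fderiv ℝ r (z + s • n0) n0) s := by
      intro s
      have hl : HasDerivAt (fun s : ℝ => z + s • n0) n0 s := by
        simpa using ((hasDerivAt_id s).smul_const n0).const_add z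
      exact (hr.differentiable (by simp) _).hasFDerivAt.comp_hasDerivAt s hl
    have hcv : Convex ℝ (Icc (0 : ℝ) t) := convex_Icc 0 t
    have := hcv.mul_sub_le_image_sub_of_le_deriv (f := fun s : ℝ => r (z + s • n0)) (C := 1 / 2)
      (fun s _ => (hder s).continuousAt.continuousWithinAt)
      (fun s _ => (hder s).differentiableAt.differentiableWithinAt)
      (fun s hs => by
        rw [(hder s).deriv]
        exact (hρs _ (hseg s (interior_subset hs))).2.le)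
      0 ⟨le_refl _, htpos.le⟩ t ⟨htpos.le, le_refl _⟩ htpos.le
    simp only [zero_smul, add_zero] at this
    linarith
  have hend : 0 ≤ r (z + t • n0) := by
    have : r z + 1 / 2 * (t - 0) = 0 := by rw [ht]; ring
    linarith
  have hendU : z + t • n0 ∈ U := (hρs _ (hseg t ⟨htpos.le, le_refl _⟩)).1
  have hendD : z + t • n0 ∉ D := by
    intro h
    have : z + t • n0 ∈ D ∩ U := ⟨h, hendU⟩
    rw [hDU] at this
    exact absurd this.2 (not_lt.2 hend)
  -- the segment meets the frontier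
  have hpre : IsPreconnected (segment ℝ z (z + t • n0)) := (convex_segment _ _).isPreconnected
  have hne : (segment ℝ z (z + t • n0) ∩ frontier D).Nonempty := by
    by_contra hcon
    have hnf : ∀ x ∈ segment ℝ z (z + t • n0), x ∉ frontier D := fun x hx hxf =>
      hcon ⟨x, hx, hxf⟩
    have hsub : segment ℝ z (z + t • n0) ⊆ interior D ∪ (closure D)ᶜ := by
      intro x hx
      by_cases hxc : x ∈ closure D
      · left
        by_contra hxi
        exact hnf x hx ⟨hxc, hxi⟩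
      · right; exact hxc
    have hz : z ∈ interior D := by
      by_contra hxi
      exact hnf z (left_mem_segment ℝ _ _) ⟨subset_closure hzD, hxi⟩
    have he : z + t • n0 ∈ (closure D)ᶜ := by
      intro hxc
      exact hnf _ (right_mem_segment ℝ _ _) ⟨hxc, fun h => hendD (interior_subset h)⟩
    obtain ⟨x, _, hx1, hx2⟩ := hpre _ _ isOpen_interior isClosed_closure.isOpen_compl hsub
      ⟨z, left_mem_segment ℝ _ _, hz⟩ ⟨_, right_mem_segment ℝ _ _, he⟩
    exact hx2 (interior_subset_closure hx1)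
  obtain ⟨x, hx, hxf⟩ := hne
  calc infDist z (frontier D) ≤ dist z x := infDist_le_dist_of_mem hxf
    _ ≤ dist z (z + t • n0) := by
        have h1 := dist_add_dist_of_mem_segment hx
        have h2 : 0 ≤ dist x (z + t • n0) := dist_nonneg
        linarith
    _ = t * ‖n0‖ := by
        rw [dist_self_add_right, norm_smul, Real.norm_eq_abs, abs_of_pos htpos]
    _ = 2 * ‖n0‖ * (-(r z)) := by rw [ht]; ring

theorem centre_estimate {D U : Set E} {r : E → ℝ} {p : E} (hUo : IsOpen U) (hpU : p ∈ U)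
    (hr : ContDiff ℝ ((⊤ : ℕ∞) : WithTop ℕ∞) r) (hrp : r p = 0) (hdr : fderiv ℝ r p ≠ 0)
    (hDU : D ∩ U = {z | z ∈ U ∧ r z < 0})
    (z : ℕ → E) (hzD : ∀ n, z n ∈ D) (hzp : Tendsto z atTop (𝓝 p))
    (hz : ∃ C : ℝ, 0 < C ∧ ∀ᶠ n in atTop,
      ‖z n - p‖ ^ 2 - (fderiv ℝ r p (z n - p)) ^ 2 / ‖fderiv ℝ r p‖ ^ 2
        ≤ C ^ 2 * infDist (z n) (frontier D)) :
    ∃ C > 0, ∀ᶠ n in atTop, ‖z n - p‖ ^ 2 ≤ C * (-(r (z n))) := by
  obtain ⟨C1, hC1, h1⟩ := infDist_le hUo hpU hr hrp hdr hDU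
  obtain ⟨K, hK, ρ, hρ, hT⟩ := taylor2 hr p
  obtain ⟨C, hC, h2⟩ := hz
  set L : ℝ := ‖fderiv ℝ r p‖ ^ 2 with hL
  have hLpos : 0 < L := by
    have : 0 < ‖fderiv ℝ r p‖ := norm_pos_iff.2 hdr
    positivity
  refine ⟨2 * (2 / L + C ^ 2 * C1), by positivity, ?_⟩
  have hsm : ∀ᶠ n in atTop, ‖z n - p‖ ^ 2 * (2 * K ^ 2 / L) < 1 / 2 := by
    have : Tendsto (fun n => ‖z n - p‖ ^ 2 * (2 * K ^ 2 / L)) atTop
        (𝓝 (‖p - p‖ ^ 2 * (2 * K ^ 2 / L))) :=
      (((hzp.sub_const p).norm.pow 2).mul_const _)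
    rw [sub_self, norm_zero] at this
    refine this.eventually (gt_mem_nhds ?_)
    norm_num
  have hsm2 : ∀ᶠ n in atTop, |r (z n)| < 1 := by
    have : Tendsto (fun n => |r (z n)|) atTop (𝓝 |r p|) :=
      (hr.continuous.abs.tendsto p).comp hzp
    rw [hrp, abs_zero] at this
    exact this.eventually (gt_mem_nhds one_pos)
  filter_upwards [h2, hsm, hsm2, hzp.eventually h1, hzp.eventually (ball_mem_nhds p hρ)]
    with n hn1 hn2 hn3 hn4 hn5
  obtain ⟨hneg, hd⟩ := hn4 (hzD n)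
  have hTn := hT (z n) hn5
  rw [hrp, sub_zero] at hTn
  set y := z n - p with hy
  set a := fderiv ℝ r p y with ha
  set s := r (z n) with hs
  have hs' : |s| = -s := abs_of_neg hneg
  have ha1 : |a| ≤ -s + K * ‖y‖ ^ 2 := by
    have : |a| ≤ |s| + |s - a| := by
      have := abs_sub_abs_le_abs_sub a s
      rw [abs_sub_comm] at this
      linarith
    rw [hs'] at this
    linarith
  have ha2 : a ^ 2 ≤ 2 * s ^ 2 + 2 * (K * ‖y‖ ^ 2) ^ 2 := by
    have h0 : 0 ≤ -s + K * ‖y‖ ^ 2 := by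
      have : 0 ≤ K * ‖y‖ ^ 2 := by positivity
      linarith
    have h3 : a ^ 2 ≤ (-s + K * ‖y‖ ^ 2) ^ 2 := by
      rw [← sq_abs a]
      exact pow_le_pow_left₀ (abs_nonneg a) ha1 2
    nlinarith [sq_nonneg (s + K * ‖y‖ ^ 2), sq_nonneg (-s - K * ‖y‖ ^ 2)]
  have hs2 : s ^ 2 ≤ -s := by
    rw [hs'] at hn3
    nlinarith
  have hdiv : a ^ 2 / L ≤ (2 / L) * (-s) + (1 / 2) * ‖y‖ ^ 2 := by
    have h4 : a ^ 2 / L ≤ (2 * (-s) + 2 * (K * ‖y‖ ^ 2) ^ 2) / L := by
      apply div_le_div_of_nonneg_right _ hLpos.le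
      linarith
    have h5 : (2 * (-s) + 2 * (K * ‖y‖ ^ 2) ^ 2) / L =
        (2 / L) * (-s) + (‖y‖ ^ 2 * (2 * K ^ 2 / L)) * ‖y‖ ^ 2 := by
      field_simp
    rw [h5] at h4
    have h6 : (‖y‖ ^ 2 * (2 * K ^ 2 / L)) * ‖y‖ ^ 2 ≤ (1 / 2) * ‖y‖ ^ 2 := by
      apply mul_le_mul_of_nonneg_right hn2.le (by positivity)
    linarith
  have h7 : C ^ 2 * infDist (z n) (frontier D) ≤ C ^ 2 * (C1 * (-s)) := by
    gcongr
  have : ‖y‖ ^ 2 ≤ (2 / L) * (-s) + (1 / 2) * ‖y‖ ^ 2 + C ^ 2 * (C1 * (-s)) := by linarith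
  nlinarith

end

end BlockD
end Pool.Agent.Sqz
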