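import Pool.Agent.Work.MP_0e9e72_an.Jets

/-!
# More calculus of `dz`, `dzb`, `dC`; mixed and pure terms
-/

set_option autoImplicit false

open Complex Metric Set Filter Topology
open scoped ContDiff

namespace Pool.Agent.Sqz

section basic
variable {E : Type*} [NormedAddCommGroup E] [NormedSpace ℂ E]
variable {F : Type*} [NormedAddCommGroup F] [NormedSpace ℂ F]

theorem fderiv_smul_re_im (f : E → F) (z v : E) (c : ℂ) :
    fderiv ℝ f z (c • v) = c.re • fderiv ℝ f z v + c.im • fderiv ℝ f z (I • v) := by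
  have : c • v = c.re • v + c.im • (I • v) := by
    conv_lhs => rw [← Complex.re_add_im c]
    rw [add_smul, mul_smul, Complex.coe_smul, Complex.coe_smul]
  rw [this, map_add, map_smul, map_smul]

end basic

section calc1
variable {X : Type*} [NormedAddCommGroup X] [NormedSpace ℂ X]
variable {Y : Type*} [NormedAddCommGroup Y] [NormedSpace ℂ Y]
variable {F : Type*} [NormedAddCommGroup F] [NormedSpace ℂ F]

/-- chain rule with an inner holomorphic map. -/
theorem dC_comp {g : Y → F} {h : X → Y} {x : X} (hg : DifferentiableAt ℝ g (h x))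
    (hh : DifferentiableAt ℂ h x) (v : X) :
    dC (fun y => g (h y)) x v = dC g (h x) (fderiv ℂ h x v) := by
  have h1 : HasFDerivAt h ((fderiv ℂ h x).restrictScalars ℝ) x := hh.hasFDerivAt.restrictScalars ℝ
  have h2 : fderiv ℝ (fun y => g (h y)) x = (fderiv ℝ g (h x)).comp
      ((fderiv ℂ h x).restrictScalars ℝ) :=
    (hg.hasFDerivAt.comp x h1).fderiv
  simp only [dC, h2, ContinuousLinearMap.comp_apply, ContinuousLinearMap.coe_restrictScalars',
    map_smul]

theorem dz_comp {g : X → F} {U : ℂ → X} {ζ : ℂ} (hg : DifferentiableAt ℝ g (U ζ))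
    (hU : DifferentiableAt ℂ U ζ) : dz (fun y => g (U y)) ζ = dC g (U ζ) (deriv U ζ) := by
  rw [dz_eq_dC, dC_comp hg hU]
  rfl

/-- `dC` of a complex-linear map. -/
theorem dC_clm (L : X →L[ℂ] F) (x v : X) : dC L x v = L v := by
  have : fderiv ℝ (L : X → F) x = L.restrictScalars ℝ :=
    (L.restrictScalars ℝ).hasFDerivAt.fderiv
  simp only [dC, this, ContinuousLinearMap.coe_restrictScalars', map_smul, smul_smul, I_mul_I,
    neg_one_smul, sub_neg_eq_add]
  rw [← two_smul ℂ (L v), smul_smul]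
  norm_num

/-- post-composition with a complex-linear map. -/
theorem dC_clm_comp (L : F →L[ℂ] Y) {g : X → F} {x : X} (hg : DifferentiableAt ℝ g x) (v : X) :
    dC (fun y => L (g y)) x v = L (dC g x v) := by
  have h2 : fderiv ℝ (fun y => L (g y)) x = (L.restrictScalars ℝ).comp (fderiv ℝ g x) :=
    ((L.restrictScalars ℝ).hasFDerivAt.comp x hg.hasFDerivAt).fderiv
  simp only [dC, h2, ContinuousLinearMap.comp_apply, ContinuousLinearMap.coe_restrictScalars',
    map_smul, map_sub]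

theorem contDiff_dz {f : ℂ → F} (hf : ContDiff ℝ ∞ f) : ContDiff ℝ ∞ (dz f) := by
  have h1 : ContDiff ℝ ∞ (fderiv ℝ f) := hf.fderiv_right (by simp)
  unfold dz
  exact ((h1.clm_apply contDiff_const).sub ((h1.clm_apply contDiff_const).const_smul I)).const_smul
    (1/2 : ℂ)

theorem contDiff_dzb {f : ℂ → F} (hf : ContDiff ℝ ∞ f) : ContDiff ℝ ∞ (dzb f) := by
  have h1 : ContDiff ℝ ∞ (fderiv ℝ f) := hf.fderiv_right (by simp)
  unfold dzb
  exact ((h1.clm_apply contDiff_const).add ((h1.clm_apply contDiff_const).const_smul I)).const_smul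
    (1/2 : ℂ)

theorem contDiff_dz_iter {f : ℂ → F} (hf : ContDiff ℝ ∞ f) (k : ℕ) : ContDiff ℝ ∞ (dz^[k] f) := by
  induction k with
  | zero => exact hf
  | succ k ih => rw [Function.iterate_succ_apply']; exact contDiff_dz ih

theorem contDiff_dzb_iter {f : ℂ → F} (hf : ContDiff ℝ ∞ f) (k : ℕ) :
    ContDiff ℝ ∞ (dzb^[k] f) := by
  induction k with
  | zero => exact hf
  | succ k ih => rw [Function.iterate_succ_apply']; exact contDiff_dzb ih

theorem dz_clm_iter (L : F →L[ℂ] Y) {f : ℂ → F} (hf : ContDiff ℝ ∞ f) (k : ℕ) :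
    dz^[k] (fun ζ => L (f ζ)) = fun ζ => L (dz^[k] f ζ) := by
  induction k with
  | zero => rfl
  | succ k ih =>
    rw [Function.iterate_succ_apply', ih, Function.iterate_succ_apply']
    funext ζ
    rw [dz_eq_dC, dC_clm_comp L ((contDiff_dz_iter hf k).differentiable (by simp) ζ), dz_eq_dC]

end calc1


section wirtinger
variable {F : Type*} [NormedAddCommGroup F] [NormedSpace ℂ F]

theorem fderiv_eq_dz_dzb (f : ℂ → F) (ζ v : ℂ) :
    fderiv ℝ f ζ v = v • dz f ζ + (starRingEnd ℂ v) • dzb f ζ := by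
  have h := fderiv_smul_re_im f ζ 1 v
  simp only [smul_eq_mul, mul_one] at h
  rw [h, ← Complex.coe_smul, ← Complex.coe_smul]
  unfold dz dzb
  have h1 : v = (v.re : ℂ) + (v.im : ℂ) * I := (Complex.re_add_im v).symm
  have h2 : starRingEnd ℂ v = (v.re : ℂ) - (v.im : ℂ) * I := by
    apply Complex.ext <;> simp
  conv_rhs => rw [h2]
  conv_rhs => rw [h1]
  simp only [add_re, ofReal_re, mul_re, I_re, mul_zero, ofReal_im, I_im, mul_one, sub_self,
    add_zero, add_im, mul_im, zero_add]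
  generalize (v.re : ℂ) = x
  generalize (v.im : ℂ) = y
  generalize fderiv ℝ f ζ 1 = a
  generalize fderiv ℝ f ζ I = b
  have hI : I * I = -1 := I_mul_I
  simp only [smul_add, smul_sub, smul_smul]
  have e1 : (x + y * I) * (1 / 2) = (1/2) * x + (1/2) * (y * I) := by ring
  have e2 : (x - y * I) * (1 / 2) = (1/2) * x - (1/2) * (y * I) := by ring
  have e3 : (x + y * I) * (1 / 2 * I) = (1/2) * (x * I) - (1/2) * y := by
    linear_combination (y * (1/2)) * hI
  have e4 : (x - y * I) * (1 / 2 * I) = (1/2) * (x * I) + (1/2) * y := by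
    linear_combination (-y * (1/2)) * hI
  have e5 : x = (1/2) * x + (1/2) * x := by ring
  have e6 : y = (1/2) * y + (1/2) * y := by ring
  rw [e1, e2, e3, e4]
  conv_lhs => rw [e5, e6]
  simp only [add_smul, sub_smul]
  abel

theorem fderiv_apply_contDiff {f : ℂ → F} (hf : ContDiff ℝ ∞ f) (v : ℂ) :
    ContDiff ℝ ∞ (fun ζ => fderiv ℝ f ζ v) :=
  (hf.fderiv_right (m := ∞) (by simp)).clm_apply contDiff_const

theorem fderiv_fderiv_apply {f : ℂ → F} (hf : ContDiff ℝ ∞ f) (ζ v w : ℂ) :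
    fderiv ℝ (fun ζ => fderiv ℝ f ζ v) ζ w = fderiv ℝ (fderiv ℝ f) ζ w v := by
  have h1 : DifferentiableAt ℝ (fderiv ℝ f) ζ :=
    (hf.fderiv_right (m := ∞) (by simp)).differentiable (by simp) ζ
  have := h1.hasFDerivAt.clm_apply (hasFDerivAt_const v ζ)
  rw [this.fderiv]
  simp

theorem fderiv_symm {f : ℂ → F} (hf : ContDiff ℝ ∞ f) (ζ v w : ℂ) :
    fderiv ℝ (fderiv ℝ f) ζ w v = fderiv ℝ (fderiv ℝ f) ζ v w := by
  have h := (hf.contDiffAt (x := ζ)).isSymmSndFDerivAt
    (by rw [minSmoothness_of_isRCLikeNormedField]; exact ENat.LEInfty.out)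
  exact h w v

theorem dz_dzb_comm {f : ℂ → F} (hf : ContDiff ℝ ∞ f) : dz (dzb f) = dzb (dz f) := by
  funext ζ
  have hd : ∀ v : ℂ, DifferentiableAt ℝ (fun ζ => fderiv ℝ f ζ v) ζ := fun v =>
    (fderiv_apply_contDiff hf v).differentiable (by simp) ζ
  have hdzb : ∀ w, fderiv ℝ (dzb f) ζ w =
      (1 / 2 : ℂ) • (fderiv ℝ (fderiv ℝ f) ζ w 1 + I • fderiv ℝ (fderiv ℝ f) ζ w I) := by
    intro w
    have H : fderiv ℝ (dzb f) ζ = _ :=
      (((hd 1).hasFDerivAt.add ((hd I).hasFDerivAt.const_smul I)).const_smul (1/2:ℂ)).fderiv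
    rw [H]
    simp only [FunLike.coe_smul, Pi.smul_apply, add_apply,
      fderiv_fderiv_apply hf]
  have hdz : ∀ w, fderiv ℝ (dz f) ζ w =
      (1 / 2 : ℂ) • (fderiv ℝ (fderiv ℝ f) ζ w 1 - I • fderiv ℝ (fderiv ℝ f) ζ w I) := by
    intro w
    have H : fderiv ℝ (dz f) ζ = _ :=
      (((hd 1).hasFDerivAt.sub ((hd I).hasFDerivAt.const_smul I)).const_smul (1/2:ℂ)).fderiv
    rw [H]
    simp only [FunLike.coe_smul, Pi.smul_apply, sub_apply,
      fderiv_fderiv_apply hf]
  conv_lhs => unfold dz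
  conv_rhs => unfold dzb
  rw [hdzb, hdzb, hdz, hdz, fderiv_symm hf ζ 1 I]
  generalize fderiv ℝ (fderiv ℝ f) ζ 1 1 = a
  generalize fderiv ℝ (fderiv ℝ f) ζ 1 I = b
  generalize fderiv ℝ (fderiv ℝ f) ζ I I = c
  simp only [smul_add, smul_sub, smul_smul]
  have e1 : 1 / 2 * (I * (1 / 2)) = 1 / 2 * (1 / 2 * I) := by ring
  rw [e1]
  abel

theorem dz_iter_dzb {f : ℂ → F} (hf : ContDiff ℝ ∞ f) (l : ℕ) :
    dzb^[l] (dz f) = dz (dzb^[l] f) := by
  induction l with
  | zero => rfl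
  | succ l ih =>
    rw [Function.iterate_succ_apply', ih, ← dz_dzb_comm (contDiff_dzb_iter hf l),
      Function.iterate_succ_apply']

/-- if all Wirtinger derivatives of order `n` vanish then so does the `n`-th derivative. -/
theorem iteratedFDeriv_eq_zero_of_dz {ζ : ℂ} (n : ℕ) : ∀ f : ℂ → F, ContDiff ℝ ∞ f →
    (∀ j l, j + l = n → dz^[j] (dzb^[l] f) ζ = 0) → iteratedFDeriv ℝ n f ζ = 0 := by
  induction n with
  | zero =>
    intro f _ h
    have := h 0 0 rfl
    simp only [Function.iterate_zero, id_eq] at this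
    ext m
    simp [this]
  | succ n ih =>
    intro f hf h
    have h1 : iteratedFDeriv ℝ n (dz f) ζ = 0 := by
      refine ih (dz f) (contDiff_dz hf) fun j l hjl => ?_
      rw [dz_iter_dzb hf, ← Function.iterate_succ_apply]
      exact h (j + 1) l (by omega)
    have h2 : iteratedFDeriv ℝ n (dzb f) ζ = 0 := by
      refine ih (dzb f) (contDiff_dzb hf) fun j l hjl => ?_
      rw [← Function.iterate_succ_apply]
      exact h j (l + 1) (by omega)
    ext m
    rw [iteratedFDeriv_succ_apply_right]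
    have hc : iteratedFDeriv ℝ n (fun y => fderiv ℝ f y) ζ (Fin.init m) (m (Fin.last n)) =
        iteratedFDeriv ℝ n (fun y => fderiv ℝ f y (m (Fin.last n))) ζ (Fin.init m) := by
      exact (iteratedFDeriv_clm_apply_const_apply (𝕜 := ℝ) (hf.fderiv_right (m := ∞) (by simp))
        (by exact_mod_cast le_top)).symm
    rw [hc]
    have hfun : (fun y => fderiv ℝ f y (m (Fin.last n))) = fun y =>
        (m (Fin.last n)) • dz f y + (starRingEnd ℂ (m (Fin.last n))) • dzb f y := by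
      funext y; exact fderiv_eq_dz_dzb f y _
    rw [hfun]
    have hz1 : ContDiffAt ℝ n (dz f) ζ := ((contDiff_dz hf).of_le (by exact_mod_cast le_top)).contDiffAt
    have hz2 : ContDiffAt ℝ n (dzb f) ζ :=
      ((contDiff_dzb hf).of_le (by exact_mod_cast le_top)).contDiffAt
    have h3 := iteratedFDeriv_add_apply (𝕜 := ℝ) (i := n) (x := ζ)
      (f := (m (Fin.last n)) • dz f) (g := (starRingEnd ℂ (m (Fin.last n))) • dzb f)
      (hz1.const_smul _) (hz2.const_smul _)
    rw [iteratedFDeriv_const_smul_apply hz1, iteratedFDeriv_const_smul_apply hz2, h1, h2] at h3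
    simp only [smul_zero, add_zero] at h3
    have h4 : (fun y => (m (Fin.last n)) • dz f y + (starRingEnd ℂ (m (Fin.last n))) • dzb f y) =
      (m (Fin.last n)) • dz f + (starRingEnd ℂ (m (Fin.last n))) • dzb f := rfl
    rw [h4, h3]
    rfl

end wirtinger


section conj

theorem fderiv_conj_comp {f : ℂ → ℂ} {ζ : ℂ} (hf : DifferentiableAt ℝ f ζ) (v : ℂ) :
    fderiv ℝ (fun ζ => starRingEnd ℂ (f ζ)) ζ v = starRingEnd ℂ (fderiv ℝ f ζ v) := by
  have h : HasFDerivAt (fun ζ => starRingEnd ℂ (f ζ))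
      ((conjCLE : ℂ →L[ℝ] ℂ).comp (fderiv ℝ f ζ)) ζ :=
    (conjCLE : ℂ →L[ℝ] ℂ).hasFDerivAt.comp ζ hf.hasFDerivAt
  rw [h.fderiv]
  simp

theorem dzb_conj {f : ℂ → ℂ} (hf : ContDiff ℝ ∞ f) :
    dzb (fun ζ => starRingEnd ℂ (f ζ)) = fun ζ => starRingEnd ℂ (dz f ζ) := by
  funext ζ
  unfold dzb dz
  rw [fderiv_conj_comp (hf.differentiable (by simp) ζ),
    fderiv_conj_comp (hf.differentiable (by simp) ζ)]
  have h2 : (starRingEnd ℂ) 2 = 2 := Complex.conj_ofNat 2
  simp [h2]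

theorem dzb_iter_conj {f : ℂ → ℂ} (hf : ContDiff ℝ ∞ f) (k : ℕ) :
    dzb^[k] (fun ζ => starRingEnd ℂ (f ζ)) = fun ζ => starRingEnd ℂ (dz^[k] f ζ) := by
  induction k with
  | zero => rfl
  | succ k ih =>
    rw [Function.iterate_succ_apply', ih, dzb_conj (contDiff_dz_iter hf k)]
    funext ζ
    rw [Function.iterate_succ_apply']

theorem dzb_iter_ofReal {f : ℂ → ℝ} (hf : ContDiff ℝ ∞ f) (k : ℕ) (ζ : ℂ) :
    dzb^[k] (fun ζ => (f ζ : ℂ)) ζ = starRingEnd ℂ (dz^[k] (fun ζ => (f ζ : ℂ)) ζ) := by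
  have h := dzb_iter_conj (f := fun ζ => (f ζ : ℂ)) (ofRealCLM.contDiff.comp hf) k
  simp only [conj_ofReal] at h
  rw [h]

/-- A nonzero real derivative of order `k ≥ 1`, all pure terms of order `k` being zero, gives a
mixed term. -/
theorem exists_mixed {f : ℂ → ℝ} (hf : ContDiff ℝ ∞ f) {ζ : ℂ} {k : ℕ}
    (hk : iteratedFDeriv ℝ k f ζ ≠ 0) (hpure : dz^[k] (fun ζ => (f ζ : ℂ)) ζ = 0) :
    ∃ j l, 1 ≤ j ∧ 1 ≤ l ∧ j + l = k ∧ dz^[j] (dzb^[l] (fun ζ => (f ζ : ℂ))) ζ ≠ 0 := by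
  by_contra hcon
  push Not at hcon
  have hfc : ContDiff ℝ ∞ (fun ζ => (f ζ : ℂ)) := ofRealCLM.contDiff.comp hf
  have h0 : iteratedFDeriv ℝ k (fun ζ => (f ζ : ℂ)) ζ = 0 := by
    refine iteratedFDeriv_eq_zero_of_dz k _ hfc fun j l hjl => ?_
    rcases Nat.eq_zero_or_pos j with rfl | hj
    · have hl : l = k := by omega
      subst hl
      simp only [Function.iterate_zero, id_eq]
      rw [dzb_iter_ofReal hf, hpure, map_zero]
    rcases Nat.eq_zero_or_pos l with rfl | hl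
    · have hl : j = k := by omega
      subst hl
      simpa using hpure
    exact hcon j l hj hl hjl
  apply hk
  ext m
  have h1 : iteratedFDeriv ℝ k (fun ζ => (f ζ : ℂ)) ζ m = (iteratedFDeriv ℝ k f ζ m : ℂ) := by
    have := ContinuousLinearMap.iteratedFDeriv_comp_left (𝕜 := ℝ) ofRealCLM (f := f) (x := ζ)
      (n := ∞) (i := k) hf.contDiffAt (by exact_mod_cast le_top)
    have h2 := congrArg (fun M => M m) this
    exact h2
  rw [h0] at h1
  have h3 : (iteratedFDeriv ℝ k f ζ m : ℂ) = 0 := by rw [← h1]; rfl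
  exact_mod_cast h3

end conj

end Pool.Agent.Sqz
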