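import Pool.Agent.Work.MP_0e9e72_an.Frame
import Pool.Agent.Work.MP_0e9e72_an.Wirt

/-!
# Block D, part 5: consequences of finite type, Levi form bounds
-/

set_option autoImplicit false

open Complex Metric Set Filter Topology
open scoped ContDiff

namespace Pool.Agent.Sqz
namespace BlockD

section
variable {E : Type*} [NormedAddCommGroup E] [NormedSpace ℂ E]

/-- the finite type condition with constant `M`. -/
def FT (r : E → ℝ) (p : E) (M : ℕ) : Prop :=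
  ∀ γ : ℂ → E, ∀ ε : ℝ, 0 < ε → DifferentiableOn ℂ γ (ball 0 ε) → γ 0 = p →
      ∀ m : ℕ, 1 ≤ m → iteratedDeriv m γ 0 ≠ 0 → (∀ j, 1 ≤ j → j < m → iteratedDeriv j γ 0 = 0) →
      ∃ k : ℕ, k ≤ M * m ∧ iteratedFDeriv ℝ k (r ∘ γ) 0 ≠ 0

theorem nodisc_of_type [CompleteSpace E] {r : E → ℝ} {p : E} {M : ℕ} (hft : FT r p M)
    (γ : ℂ → E) (hγ : AnalyticAt ℂ γ 0) (h0 : γ 0 = p) (hr : ∀ᶠ ζ in 𝓝 (0 : ℂ), r (γ ζ) = 0) :
    ∀ᶠ ζ in 𝓝 (0 : ℂ), γ ζ = p := by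
  obtain ⟨ε, hε, hεs⟩ := Metric.eventually_nhds_iff_ball.1 hγ.eventually_analyticAt
  have hd : DifferentiableOn ℂ γ (ball 0 ε) := fun z hz =>
    (hεs z hz).differentiableAt.differentiableWithinAt
  by_cases hall : ∀ m, 1 ≤ m → iteratedDeriv m γ 0 = 0
  · refine Metric.eventually_nhds_iff_ball.2 ⟨ε, hε, fun z hz => ?_⟩
    have hs := Complex.hasSum_taylorSeries_on_ball hd hz
    have hs2 : HasSum (fun n : ℕ => ((n.factorial : ℂ))⁻¹ • (z - 0) ^ n • iteratedDeriv n γ 0)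
        (((Nat.factorial 0 : ℂ))⁻¹ • (z - 0) ^ 0 • iteratedDeriv 0 γ 0) := by
      apply hasSum_single 0
      intro n hn
      rw [hall n (Nat.one_le_iff_ne_zero.2 hn), smul_zero, smul_zero]
    have := hs.unique hs2
    simpa [h0] using this
  · push Not at hall
    have hex : ∃ m, 1 ≤ m ∧ iteratedDeriv m γ 0 ≠ 0 := hall
    classical
    have hm := Nat.find_spec hex
    obtain ⟨k, -, hk⟩ := hft γ ε hε hd h0 (Nat.find hex) hm.1 hm.2 (fun j hj1 hj2 => by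
      by_contra hne
      exact Nat.find_min hex hj2 ⟨hj1, hne⟩)
    exfalso
    apply hk
    have he : (r ∘ γ) =ᶠ[𝓝 0] (fun _ => (0 : ℝ)) := hr
    have h1 := (he.iteratedFDeriv ℝ k).eq_of_nhds
    rw [h1]
    exact congrFun (iteratedFDeriv_fun_zero) 0

theorem mixed_of_type {r : E → ℝ} (hr : ContDiff ℝ ∞ r) {p : E} (hrp : r p = 0) {M N : ℕ}
    (hMN : M ≤ N) (hft : FT r p M) {γ : ℂ → E} (hγ : ContDiff ℂ ∞ γ) (h0 : γ 0 = p)
    (h1 : deriv γ 0 ≠ 0)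
    (hpure : ∀ k, 1 ≤ k → k ≤ N → dz^[k] (fun ζ : ℂ => (r (γ ζ) : ℂ)) 0 = 0) :
    ∃ j k, 1 ≤ j ∧ 1 ≤ k ∧ j + k ≤ N ∧ dz^[j] (dzb^[k] (fun ζ : ℂ => (r (γ ζ) : ℂ))) 0 ≠ 0 := by
  obtain ⟨k, hkM, hk⟩ := hft γ 1 one_pos (hγ.differentiable (by simp)).differentiableOn h0 1 le_rfl
    (by rwa [iteratedDeriv_one]) (fun j hj1 hj2 => by omega)
  rw [mul_one] at hkM
  have hk1 : 1 ≤ k := by
    rcases Nat.eq_zero_or_pos k with rfl | h
    · exfalso
      apply hk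
      ext m
      simp [h0, hrp]
    · exact h
  have hf : ContDiff ℝ ∞ (fun ζ => r (γ ζ)) := hr.comp (hγ.restrict_scalars ℝ)
  obtain ⟨j, l, hj, hl, hjl, hne⟩ := exists_mixed (f := fun ζ => r (γ ζ)) hf (ζ := 0) (k := k) hk
    (hpure k hk1 (hkM.trans hMN))
  exact ⟨j, l, hj, hl, by omega, hne⟩

theorem Lev_smul_real (r : E → ℝ) (z v : E) (t : ℝ) : Lev r z (t • v) = t ^ 2 * Lev r z v := by
  unfold Lev
  rw [smul_comm I t v]
  simp only [map_smul, FunLike.coe_smul, Pi.smul_apply, smul_eq_mul]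
  ring

theorem continuous_Lev (r : E → ℝ) (z : E) : Continuous (fun v => Lev r z v) := by
  unfold Lev
  have h1 : Continuous (fun v : E => I • v) := continuous_const_smul I
  exact (((fderiv ℝ (fderiv ℝ r) z).continuous.clm_apply continuous_id).add
    (((fderiv ℝ (fderiv ℝ r) z).continuous.comp h1).clm_apply h1))

theorem lev_lower [FiniteDimensional ℂ E] (Φ : Frame E) (r : E → ℝ) (p : E)
    (h : ∀ x, Φ.PW x ≠ 0 → 0 < Lev r p (Φ.PW x)) :
    ∃ c > 0, ∀ x, c * ‖Φ.PW x‖ ^ 2 ≤ Lev r p (Φ.PW x) := by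
  have : ProperSpace E := FiniteDimensional.proper ℂ E
  let S : Set E := {v | ‖v‖ = 1 ∧ Φ.PW v = v}
  have hS : IsCompact S := by
    have h1 : S = sphere (0 : E) 1 ∩ {v | Φ.PW v = v} := by
      ext v; simp [S]
    rw [h1]
    exact (isCompact_sphere 0 1).inter_right (isClosed_eq Φ.PW.continuous continuous_id)
  have hLev0 : Lev r p 0 = 0 := by simp [Lev]
  have key : ∀ c : ℝ, (∀ v ∈ S, c ≤ Lev r p v) → ∀ x, c * ‖Φ.PW x‖ ^ 2 ≤ Lev r p (Φ.PW x) := by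
    intro c hc x
    by_cases hx : Φ.PW x = 0
    · rw [hx, norm_zero, hLev0]; simp
    · have hn : 0 < ‖Φ.PW x‖ := norm_pos_iff.2 hx
      have h2 : ‖Φ.PW x‖⁻¹ • Φ.PW x ∈ S := by
        refine ⟨?_, ?_⟩
        · rw [norm_smul, norm_inv, norm_norm, inv_mul_cancel₀ hn.ne']
        · rw [← Complex.coe_smul, map_smul, Φ.PW_PW]
      have h3 := hc _ h2
      rw [Lev_smul_real, inv_pow] at h3
      rw [mul_comm]
      have hn2 : 0 < ‖Φ.PW x‖ ^ 2 := by positivity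
      calc ‖Φ.PW x‖ ^ 2 * c ≤ ‖Φ.PW x‖ ^ 2 * ((‖Φ.PW x‖ ^ 2)⁻¹ * Lev r p (Φ.PW x)) := by gcongr
        _ = Lev r p (Φ.PW x) := by rw [← mul_assoc, mul_inv_cancel₀ hn2.ne', one_mul]
  rcases S.eq_empty_or_nonempty with hemp | hne
  · refine ⟨1, one_pos, key 1 fun v hv => ?_⟩
    rw [hemp] at hv
    exact absurd hv (Set.notMem_empty v)
  · obtain ⟨v0, hv0, hmin⟩ := hS.exists_isMinOn hne (continuous_Lev r p).continuousOn
    refine ⟨Lev r p v0, ?_, key _ fun v hv => hmin hv⟩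
    have : 0 < Lev r p (Φ.PW v0) := by
      apply h
      rw [hv0.2]
      intro h0
      have := hv0.1
      rw [h0, norm_zero] at this
      norm_num at this
    rwa [hv0.2] at this

end

end BlockD
end Pool.Agent.Sqz
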