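import Pool.Agent.Work.MP_0e9e72_an.C1
import Pool.Agent.Work.MP_0e9e72_an.D1
import Pool.Agent.Work.MP_0e9e72_an.D2
import Pool.Agent.Work.MP_0e9e72_an.D3
import Pool.Agent.Work.MP_0e9e72_an.D4
import Pool.Agent.Work.MP_0e9e72_an.D5

/-!
# Block D: reduction of the frozen statement to the normalised situation
-/

set_option autoImplicit false

open Complex Metric Set Filter Topology
open scoped ContDiff

namespace Pool.Agent.Sqz

namespace BlockD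

theorem nf_solve {E : Type*} [NormedAddCommGroup E] [NormedSpace ℂ E] [FiniteDimensional ℂ E]
    (Φ : Frame E) {r : E → ℝ}
    (hr : ContDiff ℝ ∞ r) (dr0 : ∀ z, fderiv ℝ r 0 z = (Φ.pw z).re)
    (levW : ∀ x, Φ.PW x ≠ 0 → 0 < Lev r 0 (Φ.PW x))
    (psd : ∀ v, Φ.pw v = 0 → 0 ≤ Lev r 0 v) (lev1 : Lev r 0 Φ.e1 = 0) (N : ℕ) :
    ∃ Ψ Ψi : E → E, ContDiff ℂ ∞ Ψ ∧ ContDiff ℂ ∞ Ψi ∧ (∀ z, Ψ (Ψi z) = z) ∧
      (∀ z, Ψi (Ψ z) = z) ∧ Ψ 0 = 0 ∧ Ψi 0 = 0 ∧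
      fderiv ℂ Ψ 0 = ContinuousLinearMap.id ℂ E ∧
      (∀ k, 1 ≤ k → k ≤ N → dz^[k] (fun ζ : ℂ => (r (Ψ (ζ • Φ.e1)) : ℂ)) 0 = 0) ∧
      (∀ x, ∀ k, 1 ≤ k → k ≤ N →
        dz^[k] (fun ζ : ℂ => (fderiv ℝ (fun z => r (Ψ z)) (ζ • Φ.e1) (Φ.PW x) : ℂ)) 0 = 0) := by
  obtain ⟨U, hU, hU0, hp1, hd, hA, hB⟩ := iD3 Φ hr 0 dr0 levW
    (D3.polar_of_psd Φ hr 0 psd lev1) N
  simp only [zero_add] at hA hB
  refine ⟨Psi Φ U, PsiInv Φ U, contDiff_Psi Φ hU, contDiff_PsiInv Φ hU, Psi_PsiInv Φ U,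
    PsiInv_Psi Φ U, Psi_zero Φ U hU0, PsiInv_zero Φ U hU0, ?_, ?_, ?_⟩
  · ext z
    exact fderiv_Psi_zero Φ hU hU0 hd z
  · intro k hk1 hk2
    have h1 : (fun ζ : ℂ => (r (Psi Φ U (ζ • Φ.e1)) : ℂ)) = fun ζ => (r (U ζ).1 : ℂ) := by
      funext ζ; rw [Psi_e1 Φ U hp1]
    rw [h1]
    exact hA k hk1 hk2
  · intro x k hk1 hk2
    have h1 : (fun ζ : ℂ => (fderiv ℝ (fun z => r (Psi Φ U z)) (ζ • Φ.e1) (Φ.PW x) : ℂ)) =
        fun ζ => (fderiv ℝ r (U ζ).1 (Φ.PW x + (U ζ).2 (Φ.PW x) • Φ.ew) : ℂ) := by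
      funext ζ
      rw [LeviC.fderiv_comp_hol (r := r) (g := Psi Φ U) (hr.differentiable (by simp) _)
        ((contDiff_Psi Φ hU).differentiable (by simp) _)]
      rw [ContinuousLinearMap.comp_apply, ContinuousLinearMap.coe_restrictScalars',
        fderiv_Psi_e1 Φ hU, Psi_e1 Φ U hp1]
    rw [h1]
    exact hB x k hk1 hk2

end BlockD

open BlockD

section
variable {E : Type} [NormedAddCommGroup E] [InnerProductSpace ℂ E] [FiniteDimensional ℂ E]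

/-- Block D: reduction of the frozen statement to the normalised situation. -/
theorem iD (D : Set E) (hDo : IsOpen D) (hDb : Bornology.IsBounded D) (p : E)
    (hp : p ∈ frontier D)
    (U : Set E) (r : E → ℝ) (hUo : IsOpen U) (hpU : p ∈ U)
    (hr : ContDiff ℝ ((⊤ : ℕ∞) : WithTop ℕ∞) r) (hdr : ∀ z ∈ U, fderiv ℝ r z ≠ 0)
    (hDU : D ∩ U = {z | z ∈ U ∧ r z < 0})
    (hW : ∃ W : Submodule ℂ E, Module.finrank ℂ E - 2 ≤ Module.finrank ℂ W ∧
      ∀ v ∈ W, v ≠ 0 → fderiv ℝ r p v = 0 ∧ fderiv ℝ r p (I • v) = 0 ∧ 0 < Lev r p v)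
    (hpsc : ∀ q ∈ U, r q = 0 → ∀ v, fderiv ℝ r q v = 0 → fderiv ℝ r q (I • v) = 0 →
      0 ≤ Lev r q v)
    (hft : ∃ M : ℕ, ∀ γ : ℂ → E, ∀ ε : ℝ, 0 < ε → DifferentiableOn ℂ γ (ball 0 ε) → γ 0 = p →
      ∀ m : ℕ, 1 ≤ m → iteratedDeriv m γ 0 ≠ 0 → (∀ j, 1 ≤ j → j < m → iteratedDeriv j γ 0 = 0) →
      ∃ k : ℕ, k ≤ M * m ∧ iteratedFDeriv ℝ k (r ∘ γ) 0 ≠ 0)
    (z : ℕ → E) (hzD : ∀ n, z n ∈ D) (hzp : Tendsto z atTop (𝓝 p))
    (hz : ∃ C : ℝ, 0 < C ∧ ∀ᶠ n in atTop,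
      ‖z n - p‖ ^ 2 - (fderiv ℝ r p (z n - p)) ^ 2 / ‖fderiv ℝ r p‖ ^ 2
        ≤ C ^ 2 * infDist (z n) (frontier D))
    (hF : ∀ ε : ℝ, 0 < ε → ∀ᶠ n in atTop, ∃ F : E → E, DifferentiableOn ℂ F D ∧ InjOn F D ∧
      MapsTo F D (ball 0 1) ∧ F (z n) = 0 ∧ ball 0 (1 - ε) ⊆ F '' D)
    (v : E) (hv : v ≠ 0) (hv1 : fderiv ℝ r p v = 0) (hv2 : fderiv ℝ r p (I • v) = 0)
    (hv3 : Lev r p v ≤ 0) :
    ∃ (Φ : Frame E) (D' : Set E) (r' : E → ℝ) (U' : Set E) (N : ℕ) (b : ℕ → E),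
      NormalForm Φ D' r' U' N ∧ (∀ n, b n ∈ D') ∧ Tendsto b atTop (𝓝 0) ∧
      (∃ C : ℝ, ∀ᶠ n in atTop, ‖b n‖ ^ 2 ≤ C * (-(r' (b n)))) ∧
      (∀ ε : ℝ, 0 < ε → ∀ᶠ n in atTop, ∃ F : E → E, DifferentiableOn ℂ F D' ∧ InjOn F D' ∧
        MapsTo F D' (ball 0 1) ∧ F (b n) = 0 ∧ ball 0 (1 - ε) ⊆ F '' D') := by
  -- `r p = 0`
  have hpD : p ∉ D := by
    have := hp.2
    rwa [hDo.interior_eq] at this
  have hrp : r p = 0 := by
    apply le_antisymm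
    · have hcl : p ∈ closure (D ∩ U) := by
        have h1 : p ∈ closure D := hp.1
        rw [mem_closure_iff_nhds] at h1 ⊢
        intro t ht
        obtain ⟨x, hx1, hx2⟩ := h1 (t ∩ U) (inter_mem ht (hUo.mem_nhds hpU))
        exact ⟨x, hx1.1, hx2, hx1.2⟩
      have h2 : D ∩ U ⊆ {z | r z ≤ 0} := by
        rw [hDU]; intro x hx; exact hx.2.le
      exact (closure_minimal h2 (isClosed_le hr.continuous continuous_const)) hcl
    · by_contra hlt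
      push Not at hlt
      have : p ∈ D ∩ U := by rw [hDU]; exact ⟨hpU, hlt⟩
      exact hpD this.1
  have hdrp : fderiv ℝ r p ≠ 0 := hdr p hpU
  obtain ⟨W, hWd, hW⟩ := hW
  have hLv : Lev r p v = 0 := le_antisymm hv3 (hpsc p hpU hrp v hv1 hv2)
  have hvW : v ∉ W := fun h => by
    have := (hW v h hv).2.2
    linarith
  obtain ⟨Φ, hΦ1, hΦl, hΦW⟩ := exists_frame (fderiv ℝ r p) hdrp W hWd (fun w hw => by
    by_cases h0 : w = 0
    · subst h0; simp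
    · exact ⟨(hW w hw h0).1, (hW w hw h0).2.1⟩) v hvW hv1 hv2
  obtain ⟨M, hft⟩ := hft
  have hft' : FT r p M := hft
  -- translate to the origin
  set r₀ : E → ℝ := fun z => r (p + z) with hr₀def
  have hr₀ : ContDiff ℝ ∞ r₀ := hr.comp (contDiff_const.add contDiff_id)
  have hfr₀ : ∀ z, fderiv ℝ r₀ z = fderiv ℝ r (p + z) := fun z => fderiv_comp_add_left p
  have hLev₀ : ∀ z v, Lev r₀ z v = Lev r (p + z) v := by
    intro z v
    have h1 : fderiv ℝ r₀ = fun z => fderiv ℝ r (p + z) := funext hfr₀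
    unfold Lev
    rw [h1]
    have h2 : fderiv ℝ (fun z => fderiv ℝ r (p + z)) z = fderiv ℝ (fderiv ℝ r) (p + z) :=
      fderiv_comp_add_left p
    rw [h2]
  have hpw0 : ∀ v, Φ.pw v = 0 → fderiv ℝ r p v = 0 ∧ fderiv ℝ r p (I • v) = 0 := by
    intro v hv
    refine ⟨by rw [hΦl, hv]; rfl, by rw [hΦl, map_smul, hv, smul_zero]; rfl⟩
  obtain ⟨Ψ, Ψi, hΨ, hΨi, hΨΨi, hΨiΨ, hΨ0, hΨi0, hdΨ, hA, hB⟩ := nf_solve Φ hr₀
    (fun z => by rw [hfr₀, add_zero, hΦl])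
    (fun x hx => by
      rw [hLev₀, add_zero]
      exact (hW _ (hΦW x) hx).2.2)
    (fun v hv => by
      rw [hLev₀, add_zero]
      exact hpsc p hpU hrp v (hpw0 v hv).1 (hpw0 v hv).2)
    (by rw [hLev₀, add_zero, hΦ1, hLv]) (max M 3)
  have hΨc : Continuous Ψ := hΨ.continuous
  have hΨd : Differentiable ℂ Ψ := hΨ.differentiable (by simp)
  set r' : E → ℝ := fun z => r₀ (Ψ z) with hr'def
  have hr's : ContDiff ℝ ∞ r' := hr₀.comp (hΨ.restrict_scalars ℝ)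
  have hr'val : ∀ z, r' z = r (p + Ψ z) := fun z => rfl
  have hfr' : ∀ z v, fderiv ℝ r' z v = fderiv ℝ r (p + Ψ z) (fderiv ℂ Ψ z v) := by
    intro z v
    have h1 := LeviC.fderiv_comp_hol (r := r₀) (g := Ψ) (z := z) (hr₀.differentiable (by simp) _)
      (hΨd z)
    have h2 := congrArg (fun L => L v) h1
    simp only [hfr₀] at h2
    exact h2
  have hLev' : ∀ z v, Lev r' z v = Lev r (p + Ψ z) (fderiv ℂ Ψ z v) := by
    intro z v
    have h1 := iC1 (r := r₀) (g := Ψ) (z := z) (v := v)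
      ((hr₀.of_le ENat.LEInfty.out).contDiffAt)
      ((hΨ.of_le ENat.LEInfty.out).contDiffAt)
    rw [hr'def, h1, hLev₀]
  have hd0 : ∀ v, fderiv ℂ Ψ 0 v = v := by
    intro v; rw [hdΨ]; rfl
  set D' : Set E := {z | p + Ψ z ∈ D} with hD'
  set U' : Set E := {z | p + Ψ z ∈ U} with hU'
  have hcont : Continuous (fun z => p + Ψ z) := continuous_const.add hΨc
  refine ⟨Φ, D', r', U', max M 3, fun n => Ψi (z n - p), ?_, ?_, ?_, ?_, ?_⟩
  · refine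
    { openD := hDo.preimage hcont
      bddD := ?_
      openU := hUo.preimage hcont
      zeroU := by show p + Ψ 0 ∈ U; rw [hΨ0, add_zero]; exact hpU
      smooth := hr's
      defn := ?_
      r0 := by rw [hr'val, hΨ0, add_zero, hrp]
      dr0 := fun z => by rw [hfr', hd0, hΨ0, add_zero, hΦl]
      psc := ?_
      levW := ?_
      lev1 := by rw [hLev', hd0, hΨ0, add_zero, hΦ1, hLv]
      hN := le_max_right _ _
      pureA := hA
      pureB := hB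
      mixed := ?_
      nodisc := ?_ }
    · -- boundedness
      have : ProperSpace E := FiniteDimensional.proper ℂ E
      obtain ⟨R, hR⟩ := hDb.subset_closedBall (p : E)
      have hcpt : IsCompact (Ψi '' closedBall (0 : E) R) :=
        (isCompact_closedBall 0 R).image hΨi.continuous
      refine hcpt.isBounded.subset fun x hx => ?_
      refine ⟨Ψ x, ?_, hΨiΨ x⟩
      have := hR hx
      rw [mem_closedBall, dist_eq_norm, add_sub_cancel_left] at this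
      rwa [mem_closedBall, dist_zero_right]
    · ext x
      have := Set.ext_iff.1 hDU (p + Ψ x)
      exact this
    · intro q hq hrq v hv1 hv2
      rw [hfr'] at hv1 hv2
      rw [map_smul] at hv2
      rw [hLev']
      exact hpsc _ hq hrq _ hv1 hv2
    · obtain ⟨c, hc, h⟩ := lev_lower Φ r p (fun x hx => (hW _ (hΦW x) hx).2.2)
      exact ⟨c, hc, fun x => by rw [hLev', hd0, hΨ0, add_zero]; exact h x⟩
    · -- mixed
      have hγ : ContDiff ℂ ∞ (fun ζ : ℂ => p + Ψ (ζ • Φ.e1)) :=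
        contDiff_const.add (hΨ.comp (contDiff_id.smul contDiff_const))
      have hγd : deriv (fun ζ : ℂ => p + Ψ (ζ • Φ.e1)) 0 = Φ.e1 := by
        have h1 : HasDerivAt (fun ζ : ℂ => ζ • Φ.e1) Φ.e1 0 := by
          simpa using (hasDerivAt_id (0 : ℂ)).smul_const Φ.e1
        have h2 : HasFDerivAt Ψ (ContinuousLinearMap.id ℂ E) ((0 : ℂ) • Φ.e1) := by
          rw [zero_smul, ← hdΨ]; exact (hΨd 0).hasFDerivAt
        have h3 := (h2.comp_hasDerivAt (0 : ℂ) h1).const_add p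
        exact h3.deriv
      exact mixed_of_type hr hrp (le_max_left _ _) hft' hγ (by simp [hΨ0])
        (by rw [hγd, hΦ1]; exact hv) (fun k hk1 hk2 => hA k hk1 hk2)
    · -- nodisc
      intro γ hγ hγ0 hrγ
      have hcomp : AnalyticAt ℂ (fun ζ => p + Ψ (γ ζ)) 0 := by
        obtain ⟨ε, hε, hεs⟩ := Metric.eventually_nhds_iff_ball.1 hγ.eventually_analyticAt
        have hd : DifferentiableOn ℂ (fun ζ => p + Ψ (γ ζ)) (ball 0 ε) := fun z hz =>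
          ((hΨd (γ z)).comp z (hεs z hz).differentiableAt).const_add p |>.differentiableWithinAt
        exact hd.analyticAt (ball_mem_nhds 0 hε)
      have h1 := nodisc_of_type hft' (fun ζ => p + Ψ (γ ζ)) hcomp (by simp [hγ0, hΨ0]) hrγ
      filter_upwards [h1] with ζ hζ
      have h2 : Ψ (γ ζ) = 0 := by simpa using hζ
      rw [← hΨiΨ (γ ζ), h2, hΨi0]
  · intro n
    show p + Ψ (Ψi (z n - p)) ∈ D
    rw [hΨΨi, add_sub_cancel]
    exact hzD n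
  · have h1 : Tendsto (fun n => z n - p) atTop (𝓝 0) := by
      simpa using hzp.sub_const p
    have h2 := (hΨi.continuous.tendsto 0).comp h1
    rw [hΨi0] at h2
    exact h2
  · obtain ⟨C, hC, hCz⟩ := centre_estimate hUo hpU hr hrp hdrp hDU z hzD hzp hz
    have hlip : ∃ C1 > 0, ∀ᶠ y in 𝓝 (0 : E), ‖Ψi y‖ ≤ C1 * ‖y‖ := by
      have h1 : (fun y => Ψi y - Ψi 0) =O[𝓝 0] fun y => y - 0 :=
        (hΨi.differentiable (by simp) (0 : E)).hasFDerivAt.isBigO_sub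
      obtain ⟨C1, hC1, h2⟩ := h1.exists_pos
      refine ⟨C1, hC1, ?_⟩
      filter_upwards [h2.bound] with y hy
      simpa [hΨi0] using hy
    obtain ⟨C1, hC1, hlip⟩ := hlip
    have h1 : Tendsto (fun n => z n - p) atTop (𝓝 0) := by
      simpa using hzp.sub_const p
    refine ⟨C1 ^ 2 * C, ?_⟩
    filter_upwards [hCz, h1.eventually hlip] with n hn1 hn2
    have h3 : r' (Ψi (z n - p)) = r (z n) := by
      rw [hr'val, hΨΨi, add_sub_cancel]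
    rw [h3]
    calc ‖Ψi (z n - p)‖ ^ 2 ≤ (C1 * ‖z n - p‖) ^ 2 := pow_le_pow_left₀ (norm_nonneg _) hn2 2
      _ = C1 ^ 2 * ‖z n - p‖ ^ 2 := by ring
      _ ≤ C1 ^ 2 * (C * (-(r (z n)))) := by gcongr
      _ = C1 ^ 2 * C * (-(r (z n))) := by ring
  · intro ε hε
    filter_upwards [hF ε hε] with n hn
    obtain ⟨F, hFd, hFi, hFm, hF0, hFb⟩ := hn
    refine ⟨fun x => F (p + Ψ x), ?_, ?_, ?_, ?_, ?_⟩
    · exact hFd.comp ((hΨd.const_add p).differentiableOn) (fun x hx => hx)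
    · intro x hx y hy hxy
      have h1 := hFi hx hy hxy
      have h2 : Ψ x = Ψ y := add_left_cancel h1
      rw [← hΨiΨ x, h2, hΨiΨ]
    · intro x hx
      exact hFm hx
    · show F (p + Ψ (Ψi (z n - p))) = 0
      rw [hΨΨi, add_sub_cancel, hF0]
    · intro y hy
      obtain ⟨x, hx, hxy⟩ := hFb hy
      refine ⟨Ψi (x - p), ?_, ?_⟩
      · show p + Ψ (Ψi (x - p)) ∈ D
        rw [hΨΨi, add_sub_cancel]
        exact hx
      · show F (p + Ψ (Ψi (x - p))) = y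
        rw [hΨΨi, add_sub_cancel, hxy]

end

end Pool.Agent.Sqz
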