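import Pool.Agent.Work.MP_0e9e72_an.EDefs
import Pool.Agent.Work.MP_0e9e72_an.D3

/-!
# Block E: the shear at `b` (e1_shear) and joint smoothness (e2_Af)
-/

set_option autoImplicit false

open Complex Metric Set Filter Topology
open scoped ContDiff

namespace Pool.Agent.Sqz

namespace E1

/-- a globally smooth function equal to `z⁻¹` near `1/2` -/
theorem exists_inv : ∃ m : ℂ → ℂ, ContDiff ℝ ∞ m ∧ ∀ z ∈ ball (1 / 2 : ℂ) (1 / 8), m z * z = 1 := by
  let χ : ContDiffBump (1 / 2 : ℂ) := ⟨1 / 8, 1 / 4, by norm_num, by norm_num⟩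
  refine ⟨fun z => ((χ z : ℝ) : ℂ) * z⁻¹, ?_, ?_⟩
  · rw [contDiff_iff_contDiffAt]
    intro z
    have hχ : ContDiffAt ℝ ∞ (fun z => ((χ z : ℝ) : ℂ)) z :=
      ofRealCLM.contDiff.contDiffAt.comp z χ.contDiffAt
    by_cases hz : z = 0
    · have h1 : (fun z => ((χ z : ℝ) : ℂ) * z⁻¹) =ᶠ[𝓝 z] fun _ => 0 := by
        have h2 : ∀ᶠ y in 𝓝 z, y ∈ ball (0 : ℂ) (1 / 4) := by
          rw [hz]; exact ball_mem_nhds _ (by norm_num)
        filter_upwards [h2] with y hy
        have h3 : χ y = 0 := by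
          apply χ.zero_of_le_dist
          change (1 / 4 : ℝ) ≤ dist y (1 / 2)
          have h4 : dist (1 / 2 : ℂ) 0 = 1 / 2 := by simp
          have h5 := dist_triangle (1 / 2 : ℂ) y 0
          rw [mem_ball] at hy
          rw [h4, dist_comm (1 / 2 : ℂ) y] at h5
          linarith
        rw [h3]; simp
      exact contDiffAt_const.congr_of_eventuallyEq h1
    · exact hχ.mul (contDiffAt_inv ℝ hz)
  · intro z hz
    have h1 : χ z = 1 := χ.one_of_mem_closedBall (ball_subset_closedBall hz)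
    have h2 : z ≠ 0 := by
      rintro rfl
      rw [mem_ball] at hz
      have h4 : dist (0 : ℂ) (1 / 2) = 1 / 2 := by simp
      rw [h4] at hz
      norm_num at hz
    simp only [h1]
    simp [h2]

section
variable {E : Type*} [NormedAddCommGroup E] [NormedSpace ℂ E]

/-- jets of the sheared curve -/
noncomputable def Jt (Φ : Frame E) (b : E) (o : ℕ → ℂ) (k : ℕ) : E :=
  (if k = 0 then b else 0) + (if k = 1 then Φ.e1 else 0) + (if k = 0 then 0 else o k) • Φ.ew

theorem crv_eq (Φ : Frame E) (b : E) (o : ℕ → ℂ) {N : ℕ} (hN : 1 ≤ N) :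
    Crv Φ b (shear N o) = D3.polyc (Jt Φ b o) N := by
  funext ζ
  unfold Crv shear D3.polyc Jt
  simp only [smul_add, Finset.sum_add_distrib]
  congr 1
  · congr 1
    · simp only [smul_ite, smul_zero]
      rw [Finset.sum_ite_eq' (Finset.range (N + 1)) 0]
      simp
    · simp only [smul_ite, smul_zero]
      rw [Finset.sum_ite_eq' (Finset.range (N + 1)) 1]
      simp
      intro h
      omega
  · rw [Finset.sum_range_succ' _ N]
    simp only [Nat.add_eq_zero_iff, one_ne_zero, and_false, if_false, if_true, zero_smul, smul_zero,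
      add_zero]
    rw [Finset.sum_smul]
    have : Finset.Icc 1 N = (Finset.range N).image (fun i => i + 1) := by
      ext x
      simp only [Finset.mem_Icc, Finset.mem_image, Finset.mem_range]
      constructor
      · rintro ⟨h1, h2⟩; exact ⟨x - 1, by omega, by omega⟩
      · rintro ⟨i, hi, rfl⟩; omega
    rw [this, Finset.sum_image (by intro a _ b _ h; simpa using h)]
    refine Finset.sum_congr rfl fun i _ => ?_
    rw [mul_smul]

theorem contDiff_gr {r : E → ℝ} (hr : ContDiff ℝ ∞ r) : ContDiff ℝ ∞ (fun u : E => (r u : ℂ)) :=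
  ofRealCLM.contDiff.comp hr

theorem dC_gr (Φ : Frame E) {r : E → ℝ} (hr : ContDiff ℝ ∞ r)
    (dr0 : ∀ z, fderiv ℝ r 0 z = (Φ.pw z).re) (v : E) :
    dC (fun u : E => (r u : ℂ)) 0 v = (1 / 2 : ℂ) * Φ.pw v := by
  have h0 : HasFDerivAt r (fderiv ℝ r 0) (0 : E) :=
    (hr.differentiable (by simp)).differentiableAt.hasFDerivAt
  have h : HasFDerivAt (fun u : E => (r u : ℂ)) (ofRealCLM.comp (fderiv ℝ r 0)) 0 :=
    (ofRealCLM.hasFDerivAt).comp _ h0
  simp only [dC, h.fderiv, ContinuousLinearMap.comp_apply, dr0, ofRealCLM_apply, smul_eq_mul,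
    map_smul]
  apply Complex.ext <;> simp

theorem exists_om [FiniteDimensional ℂ E] (Φ : Frame E) {r : E → ℝ} (hr : ContDiff ℝ ∞ r)
    (dr0 : ∀ z, fderiv ℝ r 0 z = (Φ.pw z).re)
    (T : ∀ k : ℕ, (Fin (k + 1) → E) → ℂ) (hT : ∀ k, ContDiff ℝ ∞ (T k))
    (N : ℕ) (hT0 : ∀ k < N, T k (fun i => Jt Φ 0 (fun _ => 0) i) +
      dC (fun u : E => (r u : ℂ)) 0 (Jt Φ 0 (fun _ => 0) (k + 1)) = 0) :
    ∃ ρ : ℝ, 0 < ρ ∧ ∀ n ≤ N, ∃ om : E → ℕ → ℂ, (∀ k, ContDiff ℝ ∞ (fun b => om b k)) ∧
      (∀ k, om 0 k = 0) ∧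
      ∀ b, ‖b‖ < ρ → ∀ k < n, T k (fun i => Jt Φ b (om b) i) +
        dC (fun u : E => (r u : ℂ)) b (Jt Φ b (om b) (k + 1)) = 0 := by
  classical
  obtain ⟨m, hm, hm1⟩ := exists_inv
  set g : E → ℂ := fun u : E => (r u : ℂ) with hg
  have cg : ContDiff ℝ ∞ g := contDiff_gr hr
  have hdC : ContDiff ℝ ∞ (fun p : E × E => dC g p.1 p.2) := ContDiff.dC cg
  have hs : ContDiff ℝ ∞ (fun b : E => dC g b Φ.ew) :=
    hdC.comp (contDiff_id.prodMk contDiff_const)
  have hs1 : ContDiff ℝ ∞ (fun b : E => dC g b Φ.e1) :=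
    hdC.comp (contDiff_id.prodMk contDiff_const)
  have hs0 : dC g 0 Φ.ew = 1 / 2 := by
    rw [hg, dC_gr Φ hr dr0, Φ.pw_ew]; simp
  have hnear : ∀ᶠ b in 𝓝 (0 : E), dC g b Φ.ew ∈ ball (1 / 2 : ℂ) (1 / 8) := by
    have h1 : Tendsto (fun b : E => dC g b Φ.ew) (𝓝 0) (𝓝 (1 / 2 : ℂ)) := by
      have := hs.continuous.tendsto 0
      rwa [hs0] at this
    exact h1.eventually (ball_mem_nhds _ (by norm_num))
  obtain ⟨ρ, hρ, hρ'⟩ := Metric.eventually_nhds_iff.1 hnear
  refine ⟨ρ, hρ, ?_⟩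
  intro n
  induction n with
  | zero =>
    intro _
    exact ⟨fun _ _ => 0, fun _ => contDiff_const, fun _ => rfl, fun _ _ _ hk => absurd hk (by omega)⟩
  | succ n ih =>
    intro hn
    obtain ⟨om, hom, hom0, homT⟩ := ih (by omega)
    -- the jets depend smoothly on `b`
    have hJ : ∀ k, ContDiff ℝ ∞ (fun b => Jt Φ b (om b) k) := by
      intro k
      unfold Jt
      refine (ContDiff.add ?_ contDiff_const).add ?_
      · split_ifs
        · exact contDiff_id
        · exact contDiff_const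
      · split_ifs
        · exact contDiff_const
        · exact (hom k).smul contDiff_const
    let new : E → ℂ := fun b => -(T n (fun i => Jt Φ b (om b) i) +
      (if n = 0 then dC g b Φ.e1 else 0)) * m (dC g b Φ.ew)
    have hnew : ContDiff ℝ ∞ new := by
      have h1 : ContDiff ℝ ∞ (fun b => T n (fun i : Fin (n + 1) => Jt Φ b (om b) i)) :=
        (hT n).comp (contDiff_pi.2 fun i => hJ i)
      have h2 : ContDiff ℝ ∞ (fun b : E => if n = 0 then dC g b Φ.e1 else 0) := by
        split_ifs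
        · exact hs1
        · exact contDiff_const
      exact ((h1.add h2).neg).mul (hm.comp hs)
    let om' : E → ℕ → ℂ := fun b => Function.update (om b) (n + 1) (new b)
    have hlow : ∀ b, ∀ k, k ≤ n → Jt Φ b (om' b) k = Jt Φ b (om b) k := by
      intro b k hk
      have : k ≠ n + 1 := by omega
      simp [Jt, om', this]
    have hnewJ : ∀ b, Jt Φ b (om' b) (n + 1) = (if n = 0 then Φ.e1 else 0) + new b • Φ.ew := by
      intro b
      simp [Jt, om']
    have hfun : ∀ b, ∀ k, k ≤ n → (fun i : Fin (k + 1) => Jt Φ b (om' b) i) =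
        fun i : Fin (k + 1) => Jt Φ b (om b) i := by
      intro b k hk
      funext i
      exact hlow b _ (by omega)
    have hom00 : om 0 = fun _ => 0 := funext hom0
    refine ⟨om', ?_, ?_, ?_⟩
    · intro k
      by_cases hk : k = n + 1
      · subst hk
        have : (fun b => om' b (n + 1)) = new := by funext b; simp [om']
        rw [this]; exact hnew
      · have : (fun b => om' b k) = fun b => om b k := by funext b; simp [om', hk]
        rw [this]; exact hom k
    · intro k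
      by_cases hk : k = n + 1
      · subst hk
        have h1 := hT0 n (by omega)
        have h2 : om' 0 (n + 1) = new 0 := by simp [om']
        rw [h2]
        have h3 : T n (fun i => Jt Φ 0 (om 0) i) + (if n = 0 then dC g 0 Φ.e1 else 0) = 0 := by
          rw [hom00]
          have h4 : Jt Φ 0 (fun _ => 0) (n + 1) = if n = 0 then Φ.e1 else 0 := by
            simp [Jt]
          rw [h4] at h1
          by_cases h5 : n = 0
          · simp only [h5, if_true] at h1 ⊢
            exact h1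
          · simp only [h5, if_false, dC_zero_right] at h1 ⊢
            exact h1
        simp only [new]
        rw [h3]
        simp
      · simp [om', hk, hom0]
    · intro b hb k hk
      rcases Nat.lt_succ_iff_lt_or_eq.1 hk with hk' | rfl
      · rw [hfun b k (by omega), hlow b (k + 1) (by omega)]
        exact homT b hb k hk'
      · rw [hfun b k le_rfl, hnewJ, dC_add_right, dC_smul_right]
        have h6 : m (dC g b Φ.ew) * dC g b Φ.ew = 1 :=
          hm1 _ (hρ' (by simpa [dist_eq_norm] using hb))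
        have h7 : dC g b (if k = 0 then Φ.e1 else 0) = if k = 0 then dC g b Φ.e1 else 0 := by
          split_ifs
          · rfl
          · exact dC_zero_right _ _
        rw [h7, smul_eq_mul]
        simp only [new]
        rw [mul_assoc, h6]
        ring

end

end E1

section
variable {E : Type} [NormedAddCommGroup E] [InnerProductSpace ℂ E] [FiniteDimensional ℂ E]
variable {Φ : Frame E} {D : Set E} {r : E → ℝ} {U : Set E} {N : ℕ}

/-- E1: the shear. -/
theorem e1_shear (hNF : NormalForm Φ D r U N) :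
    ∃ (om : E → ℕ → ℂ) (ρ : ℝ), 0 < ρ ∧ (∀ k, ContDiff ℝ ∞ (fun b => om b k)) ∧ (∀ k, om 0 k = 0) ∧
      ∀ b, ‖b‖ < ρ → ∀ k, 1 ≤ k → k ≤ N → dz^[k] (Af Φ r b (shear N (om b))) 0 = 0 := by
  have hN : 1 ≤ N := by have := hNF.hN; omega
  have hr : ContDiff ℝ ∞ r := hNF.smooth
  choose T hT hT' using fun k : ℕ => exists_jet (E1.contDiff_gr hr) (k + 1) (Nat.le_add_left 1 k)
  have key : ∀ b o, ∀ k < N, dz^[k + 1] (Af Φ r b (shear N o)) 0 =
      T k (fun i => E1.Jt Φ b o i) + dC (fun u : E => (r u : ℂ)) b (E1.Jt Φ b o (k + 1)) := by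
    intro b o k hk
    have h1 : Af Φ r b (shear N o) = fun ζ => (r (D3.polyc (E1.Jt Φ b o) N ζ) : ℂ) := by
      funext ζ
      unfold Af
      rw [E1.crv_eq Φ b o hN]
    rw [h1]
    have h2 := hT' k (D3.polyc (E1.Jt Φ b o) N) (D3.contDiff_polyc _ _) 0
    rw [h2, D3.iteratedDeriv_polyc _ _ _ (by omega : k + 1 ≤ N), D3.polyc_zero]
    have h3 : (fun i : Fin (k + 1) => iteratedDeriv i (D3.polyc (E1.Jt Φ b o) N) 0) =
        fun i : Fin (k + 1) => E1.Jt Φ b o i := by
      funext i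
      exact D3.iteratedDeriv_polyc _ _ _ (by omega)
    have h4 : E1.Jt Φ b o 0 = b := by simp [E1.Jt]
    rw [h3, h4]
  have hT0 : ∀ k < N, T k (fun i => E1.Jt Φ 0 (fun _ => 0) i) +
      dC (fun u : E => (r u : ℂ)) 0 (E1.Jt Φ 0 (fun _ => 0) (k + 1)) = 0 := by
    intro k hk
    rw [← key 0 (fun _ => 0) k hk]
    have h1 : Af Φ r 0 (shear N (fun _ => 0)) = fun ζ : ℂ => (r (ζ • Φ.e1) : ℂ) := by
      funext ζ
      simp [Af, Crv, shear]
    rw [h1]
    exact hNF.pureA (k + 1) (by omega) (by omega)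
  obtain ⟨ρ, hρ, hom⟩ := E1.exists_om Φ hr hNF.dr0 T hT N hT0
  obtain ⟨om, h1, h2, h3⟩ := hom N le_rfl
  refine ⟨om, ρ, hρ, h1, h2, ?_⟩
  intro b hb k hk hkN
  obtain ⟨j, rfl⟩ : ∃ j, k = j + 1 := ⟨k - 1, by omega⟩
  rw [key b (om b) j (by omega)]
  exact h3 b hb j (by omega)

theorem e2_Af (hr : ContDiff ℝ ((⊤ : ℕ∞) : WithTop ℕ∞) r) {om : E → ℕ → ℂ}
    (hom : ∀ k, ContDiff ℝ ∞ (fun b => om b k)) :
    ContDiff ℝ ∞ (fun p : E × ℂ => Af Φ r p.1 (shear N (om p.1)) p.2) ∧
    ContDiff ℝ ∞ (fun p : E × ℂ => Bf Φ r p.1 (shear N (om p.1)) p.2) := by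
  have hsh : ContDiff ℝ ∞ (fun p : E × ℂ => shear N (om p.1) p.2) := by
    unfold shear
    refine ContDiff.sum fun k _ => ?_
    exact ((contDiff_snd.pow k).div_const _).mul ((hom k).comp contDiff_fst)
  have hc : ContDiff ℝ ∞ (fun p : E × ℂ => Crv Φ p.1 (shear N (om p.1)) p.2) := by
    unfold Crv
    exact (contDiff_fst.add (contDiff_snd.smul contDiff_const)).add (hsh.smul contDiff_const)
  refine ⟨ofRealCLM.contDiff.comp (hr.comp hc), ?_⟩
  have h1 : ContDiff ℝ ∞ (fderiv ℝ r) := hr.fderiv_right (m := ∞) (by simp)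
  have h2 : ContDiff ℝ ∞ (fun p : E × ℂ => fderiv ℝ r (Crv Φ p.1 (shear N (om p.1)) p.2)) :=
    h1.comp hc
  exact contDiff_const.clm_comp (h2.clm_comp contDiff_const)

end

end Pool.Agent.Sqz
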