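import Pool.Agent.Work.MP_0e9e72_an.Defs

/-!
# Wirtinger calculus and jets of `g ∘ U` for holomorphic curves `U`
-/

set_option autoImplicit false

open Complex Metric Set Filter Topology
open scoped ContDiff

namespace Pool.Agent.Sqz

section
variable {X : Type*} [NormedAddCommGroup X] [NormedSpace ℂ X]
variable {F : Type*} [NormedAddCommGroup F] [NormedSpace ℂ F]

theorem dC_add_right (f : X → F) (z u v : X) : dC f z (u + v) = dC f z u + dC f z v := by
  simp only [dC, smul_add, map_add, smul_sub]
  abel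

theorem dC_zero_right (f : X → F) (z : X) : dC f z 0 = 0 := by
  simp [dC]

theorem dC_real_smul (f : X → F) (z v : X) (c : ℝ) : dC f z ((c : ℂ) • v) = (c : ℂ) • dC f z v := by
  have h1 : ∀ w : X, fderiv ℝ f z ((c : ℂ) • w) = (c : ℂ) • fderiv ℝ f z w := by
    intro w
    have : ((c : ℂ) • w) = c • w := by simp
    rw [this, map_smul]; simp
  have h2 : I • ((c : ℂ) • v) = (c : ℂ) • (I • v) := by rw [smul_comm]
  simp only [dC]
  rw [h2, h1, h1, smul_comm I (c : ℂ), ← smul_sub, smul_comm]

theorem dC_I_smul (f : X → F) (z v : X) : dC f z (I • v) = I • dC f z v := by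
  simp only [dC, smul_smul, I_mul_I, neg_smul, one_smul, map_neg, smul_neg, sub_neg_eq_add,
    smul_sub, smul_add]
  have h1 : I * ((1 / 2 : ℂ) * I) = -(1/2) := by
    rw [mul_comm (1/2 : ℂ) I, ← mul_assoc, I_mul_I]; ring
  rw [h1, mul_comm I (1 / 2 : ℂ)]
  simp only [neg_smul, sub_neg_eq_add]
  abel

theorem dC_smul_right (f : X → F) (z v : X) (c : ℂ) : dC f z (c • v) = c • dC f z v := by
  have hc : c = (c.re : ℂ) + I * (c.im : ℂ) := by
    rw [mul_comm]; exact (re_add_im c).symm
  conv_lhs => rw [hc]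
  rw [add_smul, mul_smul, dC_add_right, dC_real_smul, dC_I_smul, dC_real_smul]
  conv_rhs => rw [hc]
  rw [add_smul, mul_smul]

/-- `dC f z` as a complex-linear map -/
noncomputable def dCL (f : X → F) (z : X) : X →ₗ[ℂ] F where
  toFun := dC f z
  map_add' := dC_add_right f z
  map_smul' := fun c v => dC_smul_right f z v c

theorem dz_eq_dC (f : ℂ → F) (ζ : ℂ) : dz f ζ = dC f ζ 1 := by
  simp [dz, dC]

theorem dC_comp_curve {f : X → F} {U : ℂ → X} {U' : X} {ζ : ℂ}
    (hf : DifferentiableAt ℝ f (U ζ)) (hU : HasDerivAt U U' ζ) :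
    dz (fun ζ => f (U ζ)) ζ = dC f (U ζ) U' := by
  have h1 : HasFDerivAt U ((ContinuousLinearMap.smulRight (1 : ℂ →L[ℂ] ℂ) U').restrictScalars ℝ) ζ :=
    hU.hasFDerivAt.restrictScalars ℝ
  have h2 := hf.hasFDerivAt.comp ζ h1
  have h3 : fderiv ℝ (fun ζ => f (U ζ)) ζ = (fderiv ℝ f (U ζ)).comp
      ((ContinuousLinearMap.smulRight (1 : ℂ →L[ℂ] ℂ) U').restrictScalars ℝ) := h2.fderiv
  simp [dz, dC, h3]

theorem ContDiff.dC {f : X → F} (hf : ContDiff ℝ ∞ f) :
    ContDiff ℝ ∞ (fun p : X × X => dC f p.1 p.2) := by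
  have h1 : ContDiff ℝ ∞ (fderiv ℝ f) := hf.fderiv_right (m := ∞) (by simp)
  have h2 : ContDiff ℝ ∞ (fun p : X × X => fderiv ℝ f p.1) := h1.comp contDiff_fst
  have hI : ContDiff ℝ ∞ (fun p : X × X => I • p.2) := contDiff_snd.const_smul I
  have h3 : ContDiff ℝ ∞ (fun p : X × X => fderiv ℝ f p.1 p.2) := h2.clm_apply contDiff_snd
  have h4 : ContDiff ℝ ∞ (fun p : X × X => fderiv ℝ f p.1 (I • p.2)) := h2.clm_apply hI
  exact (h3.sub (h4.const_smul I)).const_smul (1 / 2 : ℂ)

theorem hasDerivAt_iteratedDeriv {U : ℂ → X} (hU : ContDiff ℂ ∞ U) (i : ℕ) (ζ : ℂ) :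
    HasDerivAt (iteratedDeriv i U) (iteratedDeriv (i + 1) U ζ) ζ := by
  rw [iteratedDeriv_succ]
  apply DifferentiableAt.hasDerivAt
  have h : ContDiff ℂ ((1 : ℕ) : WithTop ℕ∞) (deriv^[i] U) :=
    ContDiff.iterate_deriv' 1 i (hU.of_le (by exact_mod_cast le_top))
  rw [iteratedDeriv_eq_iterate]
  exact (h.differentiable (by norm_num)).differentiableAt

/-- **Jets of `g ∘ U`**: `∂^k (g∘U) = T_k(U,…,U^{(k-1)}) + ∂g(U) U^{(k)}`. -/
theorem exists_jet {g : X → F} (hg : ContDiff ℝ ∞ g) (k : ℕ) (hk : 1 ≤ k) :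
    ∃ T : (Fin k → X) → F, ContDiff ℝ ∞ T ∧ ∀ U : ℂ → X, ContDiff ℂ ∞ U → ∀ ζ : ℂ,
      dz^[k] (fun ζ => g (U ζ)) ζ =
        T (fun i => iteratedDeriv i U ζ) + dC g (U ζ) (iteratedDeriv k U ζ) := by
  induction k, hk using Nat.le_induction with
  | base =>
    refine ⟨fun _ => 0, contDiff_const, fun U hU ζ => ?_⟩
    have h0 := hasDerivAt_iteratedDeriv hU 0 ζ
    rw [iteratedDeriv_zero] at h0
    simp only [Function.iterate_one, zero_add]
    exact dC_comp_curve (hg.differentiable (by simp)).differentiableAt h0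
  | succ k hk ih =>
    obtain ⟨T, hT, hTU⟩ := ih
    let G : X × X → F := fun p => dC g p.1 p.2
    have hG : ContDiff ℝ ∞ G := ContDiff.dC hg
    -- restriction to the first `k` entries and shift
    let res : (Fin (k + 1) → X) → (Fin k → X) := fun u i => u i.castSucc
    let shf : (Fin (k + 1) → X) → (Fin k → X) := fun u i => u i.succ
    have hres : ContDiff ℝ ∞ res := contDiff_pi.2 fun i => contDiff_apply ℝ X _
    have hshf : ContDiff ℝ ∞ shf := contDiff_pi.2 fun i => contDiff_apply ℝ X _
    refine ⟨fun u => dC T (res u) (shf u) +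
      dC G (u 0, u (Fin.last k)) (u ⟨1, by omega⟩, 0), ?_, ?_⟩
    · apply ContDiff.add
      · exact (ContDiff.dC hT).comp (hres.prodMk hshf)
      · exact (ContDiff.dC hG).comp
          (((contDiff_apply ℝ X 0).prodMk (contDiff_apply ℝ X (Fin.last k))).prodMk
            ((contDiff_apply ℝ X _).prodMk contDiff_const))
    · intro U hU ζ
      rw [Function.iterate_succ_apply']
      have h1 : dz^[k] (fun ζ => g (U ζ)) = fun ζ =>
          T (fun i => iteratedDeriv i U ζ) + dC g (U ζ) (iteratedDeriv k U ζ) := by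
        funext ζ'; exact hTU U hU ζ'
      rw [h1]
      let J : ℂ → (Fin k → X) := fun ζ i => iteratedDeriv i U ζ
      have hJ : HasDerivAt J (fun i => iteratedDeriv (i + 1) U ζ) ζ := by
        rw [hasDerivAt_pi]
        intro i
        exact hasDerivAt_iteratedDeriv hU i ζ
      let V : ℂ → X × X := fun ζ => (U ζ, iteratedDeriv k U ζ)
      have h0 := hasDerivAt_iteratedDeriv hU 0 ζ
      rw [iteratedDeriv_zero] at h0
      have hV : HasDerivAt V (iteratedDeriv 1 U ζ, iteratedDeriv (k + 1) U ζ) ζ :=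
        h0.prodMk (hasDerivAt_iteratedDeriv hU k ζ)
      have hTd : DifferentiableAt ℝ T (J ζ) := (hT.differentiable (by simp)).differentiableAt
      have hGd : DifferentiableAt ℝ G (V ζ) := (hG.differentiable (by simp)).differentiableAt
      have e1 := dC_comp_curve hTd hJ
      have e2 := dC_comp_curve hGd hV
      have hdz : dz (fun ζ => T (fun i => iteratedDeriv i U ζ) +
          dC g (U ζ) (iteratedDeriv k U ζ)) ζ = dz (fun ζ => T (J ζ)) ζ + dz (fun ζ => G (V ζ)) ζ := by
        have a1 : DifferentiableAt ℝ (fun ζ => T (J ζ)) ζ :=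
          hTd.comp ζ ((hJ.differentiableAt).restrictScalars ℝ)
        have a2 : DifferentiableAt ℝ (fun ζ => G (V ζ)) ζ :=
          hGd.comp ζ ((hV.differentiableAt).restrictScalars ℝ)
        simp only [dz]
        have a3 : (fun ζ => T (fun i => iteratedDeriv i U ζ) + dC g (U ζ) (iteratedDeriv k U ζ)) =
          (fun ζ => T (J ζ)) + (fun ζ => G (V ζ)) := rfl
        rw [a3, fderiv_add a1 a2]
        simp only [add_apply, smul_add, smul_sub]
        abel
      rw [hdz, e1, e2]
      -- split the second term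
      have hsplit : ((iteratedDeriv 1 U ζ, iteratedDeriv (k + 1) U ζ) : X × X) =
          (iteratedDeriv 1 U ζ, 0) + (0, iteratedDeriv (k + 1) U ζ) := by simp
      rw [hsplit, dC_add_right]
      have hlast : dC G (V ζ) (0, iteratedDeriv (k + 1) U ζ) =
          dC g (U ζ) (iteratedDeriv (k + 1) U ζ) := by
        -- `G` is linear in the second variable
        have hfd : ∀ w : X, fderiv ℝ G (V ζ) (0, w) = dC g (U ζ) w := by
          intro w
          have hl : HasFDerivAt (fun s : ℝ => G (U ζ, iteratedDeriv k U ζ + s • w))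
              ((fderiv ℝ G (V ζ)).comp (ContinuousLinearMap.smulRight (1 : ℝ →L[ℝ] ℝ) (0, w))) 0 := by
            have hin : HasFDerivAt (fun s : ℝ => (U ζ, iteratedDeriv k U ζ + s • w))
                (ContinuousLinearMap.smulRight (1 : ℝ →L[ℝ] ℝ) ((0, w) : X × X)) 0 := by
              have : HasDerivAt (fun s : ℝ => (U ζ, iteratedDeriv k U ζ + s • w))
                  ((0, w) : X × X) 0 := by
                apply HasDerivAt.prodMk (hasDerivAt_const _ _)
                simpa using ((hasDerivAt_id (0 : ℝ)).smul_const w).const_add (iteratedDeriv k U ζ)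
              exact this.hasFDerivAt
            have hG0 : HasFDerivAt G (fderiv ℝ G (V ζ)) (U ζ, iteratedDeriv k U ζ + (0 : ℝ) • w) := by
              simpa using hGd.hasFDerivAt
            exact hG0.comp (0 : ℝ) hin
          have hl2 : HasDerivAt (fun s : ℝ => G (U ζ, iteratedDeriv k U ζ + s • w))
              (dC g (U ζ) w) 0 := by
            have : (fun s : ℝ => G (U ζ, iteratedDeriv k U ζ + s • w)) =
                fun s : ℝ => dC g (U ζ) (iteratedDeriv k U ζ) + s • dC g (U ζ) w := by
              funext s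
              simp only [G]
              rw [dC_add_right]
              congr 1
              have := dC_real_smul g (U ζ) w s
              simpa using this
            rw [this]
            simpa using ((hasDerivAt_id (0 : ℝ)).smul_const (dC g (U ζ) w)).const_add
              (dC g (U ζ) (iteratedDeriv k U ζ))
          have := hl.unique hl2.hasFDerivAt
          have h3 := congrArg (fun L : ℝ →L[ℝ] F => L 1) this
          simpa using h3
        simp only [dC]
        have hI : I • ((0, iteratedDeriv (k + 1) U ζ) : X × X) =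
            (0, I • iteratedDeriv (k + 1) U ζ) := by simp
        rw [hI, hfd, hfd]
        rw [dC_I_smul, smul_smul, I_mul_I]
        simp only [neg_smul, one_smul, sub_neg_eq_add]
        rw [← two_smul ℂ, smul_smul]
        simp [dC]
      rw [hlast]
      simp only [V, J, res, shf]
      simp [add_assoc]

end

end Pool.Agent.Sqz
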