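import Pool.Agent.Work.MP_0e9e72_an.EDefs
import Pool.Agent.Work.MP_0e9e72_an.Jets

/-! # MP_0e9e72_an, block E4: choice of the scale, Lagrange multiplier estimate -/

set_option autoImplicit false

open Complex Metric Set Filter Topology
open scoped ContDiff

namespace Pool.Agent.Sqz

/-- E4: choice of the scale `τ`. -/
theorem e4_tau {J : Type*} [Fintype J] (m : J → ℕ) (N : ℕ) (hm : ∀ j, 1 ≤ m j ∧ m j ≤ N)
    (s : ℕ → J → ℝ) (hs : ∀ n j, 0 ≤ s n j) (δ : ℕ → ℝ) (hδ : ∀ n, 0 < δ n)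
    (hδ0 : Tendsto δ atTop (𝓝 0)) (j0 : J) (c : ℝ) (hc : 0 < c)
    (hj0 : ∀ᶠ n in atTop, c / δ n ≤ s n j0) :
    ∃ τ : ℕ → ℝ, (∀ n, 0 < τ n) ∧ Tendsto τ atTop (𝓝 0) ∧
      (∀ᶠ n in atTop, ∑ j, s n j * τ n ^ m j = 1) ∧
      Tendsto (fun n => τ n ^ (N + 1) / δ n) atTop (𝓝 0) := by
  have key : ∀ n, c / δ n ≤ s n j0 → ∃ t : ℝ, 0 < t ∧ ∑ j, s n j * t ^ m j = 1 := by
    intro n hn
    set P : ℝ → ℝ := fun t => ∑ j, s n j * t ^ m j with hP
    have hcont : Continuous P := by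
      rw [hP]; exact continuous_finsetSum _ fun j _ => (continuous_pow _).const_mul _ |>.congr
        fun t => rfl
    have hP0 : P 0 = 0 := by
      simp only [hP]
      refine Finset.sum_eq_zero fun j _ => ?_
      rw [zero_pow (by have := (hm j).1; omega), mul_zero]
    have hcd : 0 < c / δ n := div_pos hc (hδ n)
    set T : ℝ := 1 + δ n / c with hT
    have hT1 : 1 ≤ T := by
      have : 0 < δ n / c := div_pos (hδ n) hc
      linarith
    have hPT : 1 ≤ P T := by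
      have h1 : s n j0 * T ^ m j0 ≤ P T := by
        simp only [hP]
        exact Finset.single_le_sum (f := fun j => s n j * T ^ m j)
          (fun j _ => mul_nonneg (hs n j) (by positivity)) (Finset.mem_univ j0)
      have h2 : T ≤ T ^ m j0 := le_self_pow₀ hT1 (by have := (hm j0).1; omega)
      have h3 : (c / δ n) * T ≤ s n j0 * T ^ m j0 :=
        mul_le_mul hn h2 (by linarith) (hs n j0)
      have h4 : (c / δ n) * T = c / δ n + 1 := by
        rw [hT]; have := (hδ n).ne'; field_simp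
      linarith
    obtain ⟨t, ht, hPt⟩ := intermediate_value_Icc (by linarith : (0 : ℝ) ≤ T)
      hcont.continuousOn (show (1 : ℝ) ∈ Icc (P 0) (P T) from ⟨by rw [hP0]; norm_num, hPT⟩)
    refine ⟨t, lt_of_le_of_ne ht.1 ?_, hPt⟩
    rintro rfl
    rw [hP0] at hPt
    norm_num at hPt
  classical
  refine ⟨fun n => if h : c / δ n ≤ s n j0 then (key n h).choose else 1, fun n => ?_, ?_, ?_, ?_⟩
  · dsimp only
    split_ifs with h
    · exact (key n h).choose_spec.1
    · exact one_pos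
  all_goals
    have hτpos : ∀ n, 0 < (if h : c / δ n ≤ s n j0 then (key n h).choose else 1 : ℝ) := by
      intro n
      split_ifs with h
      · exact (key n h).choose_spec.1
      · exact one_pos
    have hsum : ∀ᶠ n in atTop,
        ∑ j, s n j * (if h : c / δ n ≤ s n j0 then (key n h).choose else 1 : ℝ) ^ m j = 1 := by
      filter_upwards [hj0] with n hn
      rw [dif_pos hn]
      exact (key n hn).choose_spec.2
    obtain ⟨τ, hτ⟩ : ∃ τ : ℕ → ℝ,
        τ = fun n => (if h : c / δ n ≤ s n j0 then (key n h).choose else 1 : ℝ) := ⟨_, rfl⟩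
    have hpos : ∀ n, 0 < τ n := fun n => by rw [hτ]; exact hτpos n
    have hs1 : ∀ᶠ n in atTop, ∑ j, s n j * τ n ^ m j = 1 := by rw [hτ]; exact hsum
    have hpow : ∀ᶠ n in atTop, τ n ^ m j0 ≤ δ n / c := by
      filter_upwards [hs1, hj0] with n h1 h2
      have h3 : s n j0 * τ n ^ m j0 ≤ 1 := by
        rw [← h1]
        exact Finset.single_le_sum (f := fun j => s n j * τ n ^ m j)
          (fun j _ => mul_nonneg (hs n j) (pow_nonneg (hpos n).le _)) (Finset.mem_univ j0)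
      have h4 : c / δ n * τ n ^ m j0 ≤ 1 :=
        (mul_le_mul_of_nonneg_right h2 (pow_nonneg (hpos n).le _)).trans h3
      rw [le_div_iff₀ hc]
      have := (hδ n)
      rw [div_mul_eq_mul_div, div_le_one this] at h4
      linarith
    have hlim : Tendsto τ atTop (𝓝 0) := by
      rw [Metric.tendsto_atTop']
      intro ε hε
      have h1 : ∀ᶠ n in atTop, δ n / c < ε ^ m j0 := by
        have h2 : Tendsto (fun n => δ n / c) atTop (𝓝 0) := by simpa using hδ0.div_const c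
        exact h2.eventually_lt_const (by positivity)
      obtain ⟨n0, hn0⟩ := eventually_atTop.1 (hpow.and h1)
      refine ⟨n0, fun n hn => ?_⟩
      have h3 := hn0 n hn.le
      rw [Real.dist_eq, sub_zero, abs_of_pos (hpos n)]
      exact lt_of_pow_lt_pow_left₀ _ hε.le (h3.1.trans_lt h3.2)
    have e1 : (fun n => (if h : c / δ n ≤ s n j0 then (key n h).choose else 1 : ℝ)) = τ := hτ.symm
  · rw [e1]; exact hlim
  · exact hsum
  · have e2 : ∀ n, (if h : c / δ n ≤ s n j0 then (key n h).choose else 1 : ℝ) = τ n :=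
      fun n => by rw [hτ]
    simp only [e2]
    have hm1 := (hm j0).1
    have hm2 := (hm j0).2
    have h5 : Tendsto (fun n => τ n ^ (N + 1 - m j0) / c) atTop (𝓝 0) := by
      have := (hlim.pow (N + 1 - m j0)).div_const c
      rwa [zero_pow (by omega), zero_div] at this
    refine squeeze_zero' (Eventually.of_forall fun n =>
      div_nonneg (pow_nonneg (hpos n).le _) (hδ n).le) ?_ h5
    filter_upwards [hpow] with n hn
    have h6 : τ n ^ (N + 1) = τ n ^ (N + 1 - m j0) * τ n ^ m j0 := by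
      rw [← pow_add]; congr 1; omega
    rw [h6, div_le_iff₀ (hδ n)]
    calc τ n ^ (N + 1 - m j0) * τ n ^ m j0
        ≤ τ n ^ (N + 1 - m j0) * (δ n / c) :=
          mul_le_mul_of_nonneg_left hn (pow_nonneg (hpos n).le _)
      _ = τ n ^ (N + 1 - m j0) / c * δ n := by ring

namespace LagE4

theorem quad_bound {E : Type*} [NormedAddCommGroup E] [NormedSpace ℝ E] {f : E → ℝ}
    (hf : ContDiffAt ℝ 2 f 0) :
    ∃ C : ℝ, 0 ≤ C ∧ ∀ᶠ z in 𝓝 (0 : E), |f z - f 0 - fderiv ℝ f 0 z| ≤ C * ‖z‖ ^ 2 := by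
  have h1 : ContDiffAt ℝ 1 (fderiv ℝ f) 0 := hf.fderiv_right (m := 1) (by norm_num)
  obtain ⟨K, t, ht, hK⟩ := h1.exists_lipschitzOnWith
  have h2 : ∀ᶠ z in 𝓝 (0 : E), DifferentiableAt ℝ f z := by
    filter_upwards [hf.eventually (by simp)] with z hz
    exact hz.differentiableAt (by norm_num)
  obtain ⟨ρ, hρ, hball⟩ := Metric.mem_nhds_iff.1 (inter_mem ht h2)
  refine ⟨K, K.2, ?_⟩
  filter_upwards [Metric.ball_mem_nhds (0 : E) hρ] with z hz
  rw [mem_ball_zero_iff] at hz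
  have hsub : closedBall (0 : E) ‖z‖ ⊆ ball 0 ρ := closedBall_subset_ball hz
  have h3 : ‖(fun y => f y - fderiv ℝ f 0 y) z - (fun y => f y - fderiv ℝ f 0 y) 0‖
      ≤ (K * ‖z‖) * ‖z - 0‖ := by
    refine Convex.norm_image_sub_le_of_norm_hasFDerivWithin_le (𝕜 := ℝ)
      (f := fun y => f y - fderiv ℝ f 0 y) (s := closedBall (0 : E) ‖z‖) (C := K * ‖z‖)
      (f' := fun y => fderiv ℝ f y - fderiv ℝ f 0) ?_ ?_ (convex_closedBall (0 : E) ‖z‖) ?_ ?_
    · intro y hy
      have hy2 : DifferentiableAt ℝ f y := (hball (hsub hy)).2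
      exact (hy2.hasFDerivAt.sub (fderiv ℝ f 0).hasFDerivAt).hasFDerivWithinAt
    · intro y hy
      have h4 := hK.norm_sub_le (hball (hsub hy)).1 (mem_of_mem_nhds ht)
      refine h4.trans ?_
      rw [sub_zero]
      exact mul_le_mul_of_nonneg_left (mem_closedBall_zero_iff.1 hy) K.2
    · exact mem_closedBall_self (norm_nonneg _)
    · simp
  simp only [map_zero, sub_zero, Real.norm_eq_abs] at h3
  calc |f z - f 0 - fderiv ℝ f 0 z| = |f z - fderiv ℝ f 0 z - f 0| := by congr 1; ring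
    _ ≤ K * ‖z‖ * ‖z‖ := h3
    _ = K * ‖z‖ ^ 2 := by ring

end LagE4

/-- E4': the Lagrange multiplier estimate: the Levi form in the tangential direction
`e1 - (dC r b e1/dC r b ew) ew` is `O(δ)` along a paraboloidal sequence. -/
theorem e4_lagrange {E : Type*} [NormedAddCommGroup E] [InnerProductSpace ℂ E]
    [FiniteDimensional ℂ E] {Φ : Frame E} {D : Set E} {r : E → ℝ} {U : Set E} {N : ℕ}
    (hNF : NormalForm Φ D r U N) (b : ℕ → E) (hb0 : Tendsto b atTop (𝓝 0))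
    (hb : ∃ C : ℝ, ∀ᶠ n in atTop, ‖b n‖ ^ 2 ≤ C * (-(r (b n)))) :
    ∃ C : ℝ, ∀ᶠ n in atTop,
      |Lev r (b n) (Φ.e1 - (dC (fun z => (r z : ℂ)) (b n) Φ.e1 / dC (fun z => (r z : ℂ)) (b n) Φ.ew)
        • Φ.ew)| ≤ C * (-(r (b n))) := by
  have : CompleteSpace E := FiniteDimensional.complete ℂ E
  have hr : ContDiff ℝ ∞ r := hNF.smooth
  obtain ⟨rC, hrC⟩ : ∃ rC : E → ℂ, rC = fun z => (r z : ℂ) := ⟨_, rfl⟩
  have hrCs : ContDiff ℝ ∞ rC := by rw [hrC]; exact Complex.ofRealCLM.contDiff.comp hr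
  have hdr : ∀ z v, dC rC z v = (1 / 2 : ℂ) * ((fderiv ℝ r z v : ℂ) - I * (fderiv ℝ r z (I • v) : ℂ)) := by
    intro z v
    have h1 : fderiv ℝ rC z = Complex.ofRealCLM.comp (fderiv ℝ r z) := by
      rw [hrC]
      exact (Complex.ofRealCLM.hasFDerivAt.comp z
        (hr.differentiable (by simp) z).hasFDerivAt).fderiv
    simp only [dC, h1, ContinuousLinearMap.comp_apply, Complex.ofRealCLM_apply, smul_eq_mul]
  -- the tangential field
  obtain ⟨V, hV⟩ : ∃ V : E → E, V = fun z => Φ.e1 - (dC rC z Φ.e1 / dC rC z Φ.ew) • Φ.ew :=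
    ⟨_, rfl⟩
  have hw0 : dC rC 0 Φ.ew = 1 / 2 := by
    rw [hdr, hNF.dr0, hNF.dr0, map_smul, Φ.pw_ew]; simp
  have h10 : dC rC 0 Φ.e1 = 0 := by
    rw [hdr, hNF.dr0, hNF.dr0, map_smul, Φ.pw_e1]; simp
  have hV0 : V 0 = Φ.e1 := by rw [hV]; simp [h10]
  have hne : ∀ᶠ z in 𝓝 (0 : E), dC rC z Φ.ew ≠ 0 := by
    have hc : Continuous (fun z => dC rC z Φ.ew) :=
      (ContDiff.dC hrCs).continuous.comp (continuous_id.prodMk continuous_const)
    have : ∀ᶠ z in 𝓝 (0 : E), dC rC z Φ.ew ∈ ({0} : Set ℂ)ᶜ :=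
      hc.continuousAt.eventually_mem (isOpen_compl_singleton.mem_nhds (by
        rw [hw0]; simp))
    exact this
  have hVs : ContDiffAt ℝ ∞ V 0 := by
    rw [hV]
    have a1 : ContDiff ℝ ∞ (fun z => dC rC z Φ.e1) :=
      (ContDiff.dC hrCs).comp (contDiff_id.prodMk contDiff_const)
    have a2 : ContDiff ℝ ∞ (fun z => dC rC z Φ.ew) :=
      (ContDiff.dC hrCs).comp (contDiff_id.prodMk contDiff_const)
    refine contDiffAt_const.sub (ContDiffAt.smul ?_ contDiffAt_const)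
    have a3 : ContDiffAt ℝ ∞ (fun z => (dC rC z Φ.ew)⁻¹) 0 :=
      a2.contDiffAt.inv (by rw [hw0]; norm_num)
    exact a1.contDiffAt.mul a3
  obtain ⟨F, hF⟩ : ∃ F : E → ℝ, F = fun z => Lev r z (V z) := ⟨_, rfl⟩
  have hFs : ContDiffAt ℝ ∞ F 0 := by
    rw [hF]
    have h1 : ContDiff ℝ ∞ (fderiv ℝ r) := hr.fderiv_right (by simp)
    have h2 : ContDiff ℝ ∞ (fderiv ℝ (fderiv ℝ r)) := h1.fderiv_right (by simp)
    unfold Lev
    have hI : ContDiffAt ℝ ∞ (fun z => I • V z) 0 := hVs.const_smul I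
    exact ((h2.contDiffAt.clm_apply hVs).clm_apply hVs).add
      ((h2.contDiffAt.clm_apply hI).clm_apply hI)
  have hF0 : F 0 = 0 := by rw [hF]; simp only [hV0]; exact hNF.lev1
  -- minimum on the hypersurface
  have hmin : IsLocalExtrOn F {z | r z = r 0} 0 := by
    left
    have hU : ∀ᶠ z in 𝓝 (0 : E), z ∈ U := hNF.openU.mem_nhds hNF.zeroU
    have h1 : ∀ᶠ z in 𝓝[{z | r z = r 0}] (0 : E), z ∈ U ∧ dC rC z Φ.ew ≠ 0 :=
      (hU.and hne).filter_mono nhdsWithin_le_nhds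
    filter_upwards [h1, self_mem_nhdsWithin] with z hz hz0
    rw [hF0, hF]
    have hrz : r z = 0 := by
      have : r z = r 0 := hz0
      rw [this, hNF.r0]
    have ht : dC rC z (V z) = 0 := by
      have e1 : dC rC z (V z) = dC rC z Φ.e1 - (dC rC z Φ.e1 / dC rC z Φ.ew) * dC rC z Φ.ew := by
        rw [hV]
        simp only
        rw [sub_eq_add_neg, ← neg_smul, dC_add_right, dC_smul_right, smul_eq_mul]
        ring
      rw [e1, div_mul_cancel₀ _ hz.2, sub_self]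
    rw [hdr] at ht
    have ht2 : (fderiv ℝ r z (V z) : ℂ) - I * (fderiv ℝ r z (I • V z) : ℂ) = 0 := by
      rcases mul_eq_zero.1 ht with h | h
      · norm_num at h
      · exact h
    have hre := congrArg Complex.re ht2
    have him := congrArg Complex.im ht2
    simp at hre him
    exact hNF.psc z hz.1 hrz (V z) hre him
  have hstr : HasStrictFDerivAt r (fderiv ℝ r 0) 0 := hr.contDiffAt.hasStrictFDerivAt (by simp)
  have hstF : HasStrictFDerivAt F (fderiv ℝ F 0) 0 := hFs.hasStrictFDerivAt (by simp)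
  obtain ⟨α, β, hne2, hab⟩ := hmin.exists_multipliers_of_hasStrictFDerivAt_1d hstr hstF
  have hβ : β ≠ 0 := by
    rintro rfl
    have h1 := congrArg (fun L : E →L[ℝ] ℝ => L Φ.ew) hab
    simp only [zero_smul, add_zero, smul_apply, hNF.dr0, Φ.pw_ew,
      smul_eq_mul, Complex.one_re, mul_one, zero_apply] at h1
    exact hne2 (by rw [h1]; rfl)
  have hdF : ∀ z, fderiv ℝ F 0 z = -(α / β) * fderiv ℝ r 0 z := by
    intro z
    have h1 := congrArg (fun L : E →L[ℝ] ℝ => L z) hab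
    simp only [add_apply, smul_apply, smul_eq_mul,
      zero_apply] at h1
    field_simp
    linarith
  obtain ⟨C1, hC1, hq1⟩ := LagE4.quad_bound (hFs.of_le (WithTop.coe_le_coe.mpr (le_top : (2:ℕ∞) ≤ ⊤)) :
    ContDiffAt ℝ 2 F 0)
  obtain ⟨C2, hC2, hq2⟩ := LagE4.quad_bound (hr.contDiffAt.of_le (WithTop.coe_le_coe.mpr (le_top : (2:ℕ∞) ≤ ⊤)) :
    ContDiffAt ℝ 2 r 0)
  obtain ⟨C, hC⟩ := hb
  obtain ⟨A, hA⟩ : ∃ A : ℝ, A = |α / β| := ⟨_, rfl⟩
  have hA0 : 0 ≤ A := by rw [hA]; exact abs_nonneg _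
  have hmain : ∀ᶠ n in atTop, ‖b n‖ ^ 2 ≤ C * (-(r (b n))) ∧
      |Lev r (b n) (Φ.e1 - (dC (fun z => (r z : ℂ)) (b n) Φ.e1 /
        dC (fun z => (r z : ℂ)) (b n) Φ.ew) • Φ.ew)| ≤
        C1 * ‖b n‖ ^ 2 + A * (|-(r (b n))| + C2 * ‖b n‖ ^ 2) ∧ (b n = 0 → r (b n) = 0) := by
   filter_upwards [hC, hb0.eventually hq1, hb0.eventually hq2] with n h1 h2 h3
   refine ⟨h1, ?_, fun h => by rw [h, hNF.r0]⟩
   have hgoal : Lev r (b n) (Φ.e1 - (dC (fun z => (r z : ℂ)) (b n) Φ.e1 /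
       dC (fun z => (r z : ℂ)) (b n) Φ.ew) • Φ.ew) = F (b n) := by rw [hF, hV, hrC]
   rw [hgoal]
   rw [hF0, sub_zero, hdF] at h2
   rw [hNF.r0, sub_zero] at h3
   obtain ⟨δ, hδ⟩ : ∃ δ : ℝ, δ = -(r (b n)) := ⟨_, rfl⟩
   have hrb : r (b n) = -δ := by rw [hδ]; ring
   rw [hrb] at h3
   rw [← hδ]
   obtain ⟨X, hX⟩ : ∃ X : ℝ, X = ‖b n‖ ^ 2 := ⟨_, rfl⟩
   obtain ⟨L, hL⟩ : ∃ L : ℝ, L = fderiv ℝ r 0 (b n) := ⟨_, rfl⟩
   rw [← hX] at h2 h3 ⊢
   rw [← hL] at h2 h3
   have hX0 : 0 ≤ X := by rw [hX]; positivity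
   have hL1 : |L| ≤ |δ| + C2 * X := by
     have : L = -(-δ - L) + (-δ) := by ring
     calc |L| = |-(-δ - L) + (-δ)| := by rw [← this]
       _ ≤ |-(-δ - L)| + |-δ| := abs_add_le _ _
       _ ≤ C2 * X + |δ| := by rw [abs_neg, abs_neg]; linarith
       _ = |δ| + C2 * X := by ring
   have hFb : |F (b n)| ≤ C1 * X + A * |L| := by
     have : F (b n) = (F (b n) - -(α / β) * L) + -(α / β) * L := by ring
     calc |F (b n)| = |(F (b n) - -(α / β) * L) + -(α / β) * L| := by rw [← this]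
       _ ≤ |F (b n) - -(α / β) * L| + |-(α / β) * L| := abs_add_le _ _
       _ ≤ C1 * X + A * |L| := by rw [abs_mul, abs_neg, ← hA]; linarith
   calc |F (b n)| ≤ C1 * X + A * |L| := hFb
     _ ≤ C1 * X + A * (|δ| + C2 * X) := by
       have := mul_le_mul_of_nonneg_left hL1 hA0
       linarith
  have hgen : ∀ (C' : ℝ) (s : ℝ), 0 ≤ C' → (∀ᶠ n in atTop, |-(r (b n))| = s * -(r (b n))) →
      (∀ᶠ n in atTop, ‖b n‖ ^ 2 ≤ C' * |-(r (b n))|) → ∃ K : ℝ, ∀ᶠ n in atTop,
        |Lev r (b n) (Φ.e1 - (dC (fun z => (r z : ℂ)) (b n) Φ.e1 /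
        dC (fun z => (r z : ℂ)) (b n) Φ.ew) • Φ.ew)| ≤ K * (-(r (b n))) := by
    intro C' s hC' hs hX
    refine ⟨(C1 * C' + A * (1 + C2 * C')) * s, ?_⟩
    filter_upwards [hmain, hs, hX] with n h1 h2 h3
    refine h1.2.1.trans ?_
    rw [mul_assoc, ← h2]
    have e1 := mul_le_mul_of_nonneg_left h3 hC1
    have e2 := mul_le_mul_of_nonneg_left (mul_le_mul_of_nonneg_left h3 hC2) hA0
    nlinarith
  rcases lt_trichotomy C 0 with hneg | hzero | hpos
  · refine hgen (-C) (-1) (by linarith) ?_ ?_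
    · filter_upwards [hC] with n hn
      have : -(r (b n)) ≤ 0 := by
        by_contra hcon
        push Not at hcon
        nlinarith [sq_nonneg ‖b n‖]
      rw [abs_of_nonpos this]; ring
    · filter_upwards [hC] with n hn
      have : -(r (b n)) ≤ 0 := by
        by_contra hcon
        push Not at hcon
        nlinarith [sq_nonneg ‖b n‖]
      rw [abs_of_nonpos this]; linarith
  · refine hgen 0 1 le_rfl ?_ ?_
    · filter_upwards [hmain] with n hn
      have h1 := hn.1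
      rw [hzero, zero_mul] at h1
      have h2 : b n = 0 := by
        have : ‖b n‖ ^ 2 = 0 := le_antisymm h1 (sq_nonneg _)
        simpa using this
      rw [hn.2.2 h2]; simp
    · filter_upwards [hmain] with n hn
      have h1 := hn.1
      rw [hzero, zero_mul] at h1
      simpa using h1
  · refine hgen C 1 hpos.le ?_ ?_
    · filter_upwards [hC] with n hn
      have : 0 ≤ -(r (b n)) := by
        by_contra hcon
        push Not at hcon
        nlinarith [sq_nonneg ‖b n‖]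
      rw [abs_of_nonneg this]; ring
    · filter_upwards [hC] with n hn
      exact hn.trans (mul_le_mul_of_nonneg_left (le_abs_self _) hpos.le)

end Pool.Agent.Sqz
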