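import Pool.Agent.Work.MP_0e9e72_an.E5b
import Pool.Agent.Work.MP_0e9e72_an.E1
import Pool.Agent.Work.MP_0e9e72_an.E4

/-!
# MP_0e9e72_an, block E5: the choice of shear and scale gives a `C²` limit
-/

set_option autoImplicit false

open Complex Metric Set Filter Topology
open scoped ContDiff

namespace Pool.Agent.Sqz
namespace E5

variable {E : Type} [NormedAddCommGroup E] [InnerProductSpace ℂ E] [FiniteDimensional ℂ E]
variable {Φ : Frame E} {D : Set E} {r : E → ℝ} {U : Set E} {N : ℕ}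

/-- families -/
noncomputable def HA (Φ : Frame E) (r : E → ℝ) (N : ℕ) (om : E → ℕ → ℂ) (p : ℂ × E) : ℂ :=
  Af Φ r p.2 (shear N (om p.2)) p.1

noncomputable def HB (Φ : Frame E) (r : E → ℝ) (N : ℕ) (om : E → ℕ → ℂ) (p : ℂ × E) : E →L[ℝ] ℂ :=
  Bf Φ r p.2 (shear N (om p.2)) p.1

/-- mixed indices -/
abbrev Mix (N : ℕ) : Type :=
  {p : Fin (N + 1) × Fin (N + 1) // 1 ≤ (p.1 : ℕ) ∧ 1 ≤ (p.2 : ℕ) ∧ (p.1 : ℕ) + (p.2 : ℕ) ≤ N}

/-- coefficients -/
noncomputable def cA (Φ : Frame E) (r : E → ℝ) (N : ℕ) (om : E → ℕ → ℂ) (i j : ℕ) (b : E) : ℂ :=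
  dz^[i] (dzb^[j] (fun ζ => HA Φ r N om (ζ, b))) 0

noncomputable def cB (Φ : Frame E) (r : E → ℝ) (N : ℕ) (om : E → ℕ → ℂ) (i j : ℕ) (b : E) :
    E →L[ℝ] ℂ :=
  dz^[i] (dzb^[j] (fun ζ => HB Φ r N om (ζ, b))) 0

/-- facts about the coefficients. -/
theorem coeff_facts (hNF : NormalForm Φ D r U N) {om : E → ℕ → ℂ} {ρ : ℝ}
    (homs : ∀ k, ContDiff ℝ ∞ (fun b => om b k)) (hom0 : ∀ k, om 0 k = 0)
    (hpure : ∀ b, ‖b‖ < ρ → ∀ k, 1 ≤ k → k ≤ N → dz^[k] (Af Φ r b (shear N (om b))) 0 = 0) :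
    ContDiff ℝ ∞ (HA Φ r N om) ∧ ContDiff ℝ ∞ (HB Φ r N om) ∧
    (∀ b, cA Φ r N om 0 0 b = (r b : ℂ)) ∧
    (∀ b, ‖b‖ < ρ → ∀ i j, 1 ≤ i + j → i + j ≤ N → (i = 0 ∨ j = 0) → cA Φ r N om i j b = 0) ∧
    (∃ i j, 1 ≤ i ∧ 1 ≤ j ∧ i + j ≤ N ∧ cA Φ r N om i j 0 ≠ 0) ∧
    (∀ i j, i + j ≤ N → (i = 0 ∨ j = 0) → cB Φ r N om i j 0 = 0) := by
  have hr := hNF.smooth
  obtain ⟨hAs, hBs⟩ := e2_Af (Φ := Φ) (N := N) hr homs
  have hHA : ContDiff ℝ ∞ (HA Φ r N om) := hAs.comp (contDiff_snd.prodMk contDiff_fst)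
  have hHB : ContDiff ℝ ∞ (HB Φ r N om) := hBs.comp (contDiff_snd.prodMk contDiff_fst)
  have hA0 : (fun ζ : ℂ => HA Φ r N om (ζ, 0)) = fun ζ => (r (ζ • Φ.e1) : ℂ) := by
    funext ζ
    simp [HA, Af, Crv, shear_zero' hom0]
  have hB0 : ∀ x, (fun ζ : ℂ => evL x (HB Φ r N om (ζ, 0))) =
      fun ζ => (fderiv ℝ r (ζ • Φ.e1) (Φ.PW x) : ℂ) := by
    intro x
    funext ζ
    simp [HB, Bf, Crv, shear_zero' hom0]
  have hline : ContDiff ℝ ∞ (fun ζ : ℂ => ζ • Φ.e1) :=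
    (contDiff_id.smul contDiff_const : ContDiff ℂ ∞ (fun ζ : ℂ => ζ • Φ.e1)).restrict_scalars ℝ
  refine ⟨hHA, hHB, ?_, ?_, ?_, ?_⟩
  · intro b
    simp only [cA, HA, Af, Function.iterate_zero, id_eq]
    rw [crv_zero b (shear_zero (om b))]
  · intro b hb i j h1 hN hij
    rcases hij with rfl | rfl
    · simp only [cA, Function.iterate_zero, id_eq]
      have h2 : ContDiff ℝ ∞ (fun ζ => r (Crv Φ b (shear N (om b)) ζ)) :=
        hr.comp ((contDiff_crv b (contDiff_shear (om b))).restrict_scalars ℝ)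
      have h3 := dzb_iter_ofReal h2 j 0
      have h4 : (fun ζ : ℂ => HA Φ r N om (ζ, b)) =
          fun ζ => ((r (Crv Φ b (shear N (om b)) ζ) : ℝ) : ℂ) := rfl
      rw [h4, h3]
      have h5 := hpure b hb j (by omega) (by omega)
      have h6 : dz^[j] (fun ζ => ((r (Crv Φ b (shear N (om b)) ζ) : ℝ) : ℂ)) 0 = 0 := h5
      rw [h6, map_zero]
    · exact hpure b hb i (by omega) (by omega)
  · obtain ⟨j, k, hj, hk, hjk, hne⟩ := hNF.mixed
    refine ⟨j, k, hj, hk, hjk, ?_⟩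
    simp only [cA]
    rw [hA0]
    exact hne
  · intro i j hN hij
    ext x
    have h1 : ContDiff ℝ ∞ (fun ζ => HB Φ r N om (ζ, 0)) :=
      hHB.comp (contDiff_id.prodMk contDiff_const)
    have h2 := wirt_clm (evL x) h1 i j 0
    rw [evL_apply] at h2
    simp only [cB, zero_apply]
    rw [← h2, hB0 x]
    have h3 : ContDiff ℝ ∞ (fun ζ : ℂ => fderiv ℝ r (ζ • Φ.e1) (Φ.PW x)) := by
      have h4 : ContDiff ℝ ∞ (fderiv ℝ r) := hr.fderiv_right (by simp)
      exact (h4.comp hline).clm_apply contDiff_const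
    rcases hij with rfl | rfl
    · simp only [Function.iterate_zero, id_eq]
      rw [dzb_iter_ofReal h3 j 0]
      rcases Nat.eq_zero_or_pos j with rfl | hj
      · simp [hNF.dr0, Φ.pw_PW]
      · rw [hNF.pureB x j hj (by omega), map_zero]
    · rcases Nat.eq_zero_or_pos i with rfl | hi
      · simp [hNF.dr0, Φ.pw_PW]
      · exact hNF.pureB x i hi (by omega)

/-- sequences in the good tail together with the scales. -/
theorem choose_scale (hNF : NormalForm Φ D r U N) {om : E → ℕ → ℂ} {ρ : ℝ} (hρ : 0 < ρ)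
    (homs : ∀ k, ContDiff ℝ ∞ (fun b => om b k)) (hom0 : ∀ k, om 0 k = 0)
    (hpure : ∀ b, ‖b‖ < ρ → ∀ k, 1 ≤ k → k ≤ N → dz^[k] (Af Φ r b (shear N (om b))) 0 = 0)
    (b : ℕ → E) (hbD : ∀ n, b n ∈ D) (hb0 : Tendsto b atTop (𝓝 0))
    {Cb : ℝ} (hb : ∀ᶠ n in atTop, ‖b n‖ ^ 2 ≤ Cb * (-(r (b n)))) :
    ∃ (m : ℕ) (τ : ℕ → ℝ), (∀ n, 0 < τ n) ∧ Tendsto τ atTop (𝓝 0) ∧ (∀ n, τ n ≤ 1) ∧
      (∀ n, ‖b (n + m)‖ < ρ ∧ ‖b (n + m)‖ ≤ 1 ∧ 0 < -(r (b (n + m))) ∧
        ‖b (n + m)‖ ^ 2 ≤ Cb * (-(r (b (n + m))))) ∧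
      (∀ n, ∑ p : Mix N, (‖cA Φ r N om p.1.1 p.1.2 (b (n + m))‖ / (-(r (b (n + m)))) +
        ‖cB Φ r N om p.1.1 p.1.2 (b (n + m))‖ / Real.sqrt (-(r (b (n + m))))) *
        τ n ^ ((p.1.1 : ℕ) + (p.1.2 : ℕ)) = 1) ∧
      Tendsto (fun n => τ n ^ (N + 1) / (-(r (b (n + m))))) atTop (𝓝 0) := by
  obtain ⟨hHA, hHB, -, -, ⟨i0, j0, hi0, hj0, hij0, hne⟩, -⟩ := coeff_facts hNF homs hom0 hpure
  have hr := hNF.smooth
  -- first tail
  have hrb : Tendsto (fun n => -(r (b n))) atTop (𝓝 0) := by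
    have h1 : Tendsto (fun n => r (b n)) atTop (𝓝 (r 0)) := hr.continuous.continuousAt.tendsto.comp hb0
    rw [hNF.r0] at h1
    simpa using h1.neg
  have hgood : ∀ᶠ n in atTop, ‖b n‖ < ρ ∧ ‖b n‖ ≤ 1 ∧ 0 < -(r (b n)) ∧
      ‖b n‖ ^ 2 ≤ Cb * (-(r (b n))) := by
    have h1 : ∀ᶠ n in atTop, ‖b n‖ < ρ := by
      have := hb0.norm
      rw [norm_zero] at this
      exact this.eventually_lt_const hρ
    have h2 : ∀ᶠ n in atTop, ‖b n‖ < 1 := by
      have := hb0.norm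
      rw [norm_zero] at this
      exact this.eventually_lt_const one_pos
    have h3 : ∀ᶠ n in atTop, b n ∈ U := hb0.eventually_mem (hNF.openU.mem_nhds hNF.zeroU)
    filter_upwards [h1, h2, h3, hb] with n a1 a2 a3 a4
    refine ⟨a1, a2.le, ?_, a4⟩
    have h5 : b n ∈ D ∩ U := ⟨hbD n, a3⟩
    rw [hNF.defn] at h5
    linarith [h5.2]
  obtain ⟨n0, hn0⟩ := eventually_atTop.mp hgood
  set b1 : ℕ → E := fun n => b (n + n0) with hb1
  have hb1good : ∀ n, ‖b1 n‖ < ρ ∧ ‖b1 n‖ ≤ 1 ∧ 0 < -(r (b1 n)) ∧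
      ‖b1 n‖ ^ 2 ≤ Cb * (-(r (b1 n))) := fun n => hn0 _ (by omega)
  have hb10 : Tendsto b1 atTop (𝓝 0) := hb0.comp (tendsto_add_atTop_nat n0)
  have hδ10 : Tendsto (fun n => -(r (b1 n))) atTop (𝓝 0) := hrb.comp (tendsto_add_atTop_nat n0)
  -- apply e4_tau
  have hcAs : ContDiff ℝ ∞ (cA Φ r N om i0 j0) := contDiff_wirt_param hHA i0 j0
  set p0 : Mix N := ⟨(⟨i0, by omega⟩, ⟨j0, by omega⟩), hi0, hj0, hij0⟩ with hp0
  have hc : 0 < ‖cA Φ r N om i0 j0 0‖ / 2 := by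
    have : 0 < ‖cA Φ r N om i0 j0 0‖ := norm_pos_iff.mpr hne
    positivity
  obtain ⟨τ, hτ, hτ0, hτsum, hτhigh⟩ := e4_tau (J := Mix N)
    (fun p => (p.1.1 : ℕ) + (p.1.2 : ℕ)) N (fun p => ⟨by have := p.2.1; omega, p.2.2.2⟩)
    (fun n p => ‖cA Φ r N om p.1.1 p.1.2 (b1 n)‖ / (-(r (b1 n))) +
        ‖cB Φ r N om p.1.1 p.1.2 (b1 n)‖ / Real.sqrt (-(r (b1 n))))
    (fun n p => by
      have := (hb1good n).2.2.1
      positivity)
    (fun n => -(r (b1 n))) (fun n => (hb1good n).2.2.1) hδ10 p0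
    (‖cA Φ r N om i0 j0 0‖ / 2) hc (by
      have h1 : Tendsto (fun n => ‖cA Φ r N om i0 j0 (b1 n)‖) atTop
          (𝓝 ‖cA Φ r N om i0 j0 0‖) :=
        (hcAs.continuous.continuousAt.tendsto.comp hb10).norm
      have h2 := h1.eventually_const_lt (show ‖cA Φ r N om i0 j0 0‖ / 2 < ‖cA Φ r N om i0 j0 0‖ by
        linarith)
      filter_upwards [h2] with n hn
      have h3 := (hb1good n).2.2.1
      have h4 : ‖cA Φ r N om i0 j0 0‖ / 2 / (-(r (b1 n))) ≤
          ‖cA Φ r N om i0 j0 (b1 n)‖ / (-(r (b1 n))) := by gcongr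
      have h5 : 0 ≤ ‖cB Φ r N om i0 j0 (b1 n)‖ / Real.sqrt (-(r (b1 n))) := by positivity
      simp only [hp0]
      linarith)
  -- second tail
  have hev : ∀ᶠ n in atTop, τ n < 1 := hτ0.eventually_lt_const one_pos
  obtain ⟨n1, hn1⟩ := eventually_atTop.mp (hev.and hτsum)
  refine ⟨n1 + n0, fun n => τ (n + n1), fun n => hτ _, hτ0.comp (tendsto_add_atTop_nat n1),
    fun n => (hn1 _ (by omega)).1.le, fun n => ?_, fun n => ?_, ?_⟩
  · have := hb1good (n + n1)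
    simp only [hb1] at this
    rw [← add_assoc]
    exact this
  · have := (hn1 (n + n1) (by omega)).2
    simp only [hb1] at this
    rw [← add_assoc]
    exact this
  · have := hτhigh.comp (tendsto_add_atTop_nat n1)
    simp only [hb1] at this
    have h2 : (fun n => τ (n + n1) ^ (N + 1) / (-(r (b (n + (n1 + n0)))))) =
        (fun n => τ n ^ (N + 1) / (-(r (b (n + n0))))) ∘ fun n => n + n1 := by
      funext n
      simp only [Function.comp_apply, add_assoc]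
    rw [h2]
    exact this

/-- uniform bound for the pure coefficients of `B`. -/
theorem pure_bound (hNF : NormalForm Φ D r U N) {om : E → ℕ → ℂ} {ρ : ℝ}
    (homs : ∀ k, ContDiff ℝ ∞ (fun b => om b k)) (hom0 : ∀ k, om 0 k = 0)
    (hpure : ∀ b, ‖b‖ < ρ → ∀ k, 1 ≤ k → k ≤ N → dz^[k] (Af Φ r b (shear N (om b))) 0 = 0) :
    ∃ L : ℝ, 0 ≤ L ∧ ∀ i j, i + j ≤ N → (i = 0 ∨ j = 0) → ∀ b : E, ‖b‖ ≤ 1 →
      ‖cB Φ r N om i j b‖ ≤ L * ‖b‖ := by
  obtain ⟨-, hHB, -, -, -, hB⟩ := coeff_facts hNF homs hom0 hpure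
  have : ProperSpace E := FiniteDimensional.proper ℂ E
  have h1 : ∀ i j : ℕ, ∃ L : ℝ, 0 ≤ L ∧ (i + j ≤ N → (i = 0 ∨ j = 0) → ∀ b : E, ‖b‖ ≤ 1 →
      ‖cB Φ r N om i j b‖ ≤ L * ‖b‖) := by
    intro i j
    by_cases h : i + j ≤ N ∧ (i = 0 ∨ j = 0)
    · obtain ⟨L, hL0, hL⟩ := smooth_vanish_bound (contDiff_wirt_param hHB i j) (hB i j h.1 h.2)
      exact ⟨L, hL0, fun _ _ => hL⟩
    · exact ⟨0, le_rfl, fun h2 h3 => absurd ⟨h2, h3⟩ h⟩
  choose L hL0 hL using h1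
  refine ⟨∑ i ∈ Finset.range (N + 1), ∑ j ∈ Finset.range (N + 1), L i j,
    Finset.sum_nonneg fun i _ => Finset.sum_nonneg fun j _ => hL0 i j, fun i j hij h b hb => ?_⟩
  refine (hL i j hij h b hb).trans ?_
  gcongr
  calc L i j ≤ ∑ j ∈ Finset.range (N + 1), L i j :=
        Finset.single_le_sum (f := fun j => L i j) (fun j _ => hL0 i j)
          (Finset.mem_range.mpr (by omega))
    _ ≤ _ := Finset.single_le_sum (f := fun i => ∑ j ∈ Finset.range (N + 1), L i j)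
          (fun i _ => Finset.sum_nonneg fun j _ => hL0 i j) (Finset.mem_range.mpr (by omega))

theorem tendsto_zero_of_im {f : ℕ → ℂ} {a : ℂ} (hf : Tendsto (fun n => f n - a) atTop (𝓝 0))
    (him : ∀ n, (f n).im = 0) : a.im = 0 := by
  have h1 : Tendsto (fun n => (f n - a).im) atTop (𝓝 0) := by
    have := (Complex.continuous_im.tendsto (0 : ℂ)).comp hf
    rw [Complex.zero_im] at this
    exact this
  have h2 : (fun n => (f n - a).im) = fun _ => -a.im := by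
    funext n; simp [him n]
  rw [h2] at h1
  have := tendsto_nhds_unique h1 tendsto_const_nhds
  linarith

end E5

open E5 in
theorem e5_sclim {E : Type} [NormedAddCommGroup E] [InnerProductSpace ℂ E] [FiniteDimensional ℂ E]
    {Φ : Frame E} {D : Set E} {r : E → ℝ} {U : Set E} {N : ℕ} (hNF : NormalForm Φ D r U N)
    (b : ℕ → E) (hbD : ∀ n, b n ∈ D) (hb0 : Tendsto b atTop (𝓝 0))
    (hb : ∃ C : ℝ, ∀ᶠ n in atTop, ‖b n‖ ^ 2 ≤ C * (-(r (b n)))) :
    ∃ (φ : ℕ → ℕ) (τ : ℕ → ℝ) (w : ℕ → ℂ → ℂ) (h : ℂ → ℝ) (q : ℂ → E →L[ℝ] ℝ),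
      StrictMono φ ∧ ScLim Φ r (b ∘ φ) τ w h q := by
  have hproper : ProperSpace E := FiniteDimensional.proper ℂ E
  have hr := hNF.smooth
  have hr' : ContDiff ℝ ∞ r := hr
  obtain ⟨om, ρ, hρ, homs, hom0, hpure⟩ := e1_shear hNF
  obtain ⟨Cb, hCb⟩ := hb
  obtain ⟨hHA, hHB, hA00, hApure, -, -⟩ := coeff_facts hNF homs hom0 hpure
  obtain ⟨LB, hLB0, hLB⟩ := pure_bound hNF homs hom0 hpure
  obtain ⟨m, τ, hτ, hτ0, hτ1, hgood, hsum, hhigh⟩ :=
    choose_scale hNF hρ homs hom0 hpure b hbD hb0 hCb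
  set b1 : ℕ → E := fun n => b (n + m) with hb1
  set δ : ℕ → ℝ := fun n => -(r (b1 n)) with hδ
  have hδpos : ∀ n, 0 < δ n := fun n => (hgood n).2.2.1
  have hb10 : Tendsto b1 atTop (𝓝 0) := hb0.comp (tendsto_add_atTop_nat m)
  have hδ0 : Tendsto δ atTop (𝓝 0) := by
    have h1 : Tendsto (fun n => r (b1 n)) atTop (𝓝 (r 0)) :=
      hr.continuous.continuousAt.tendsto.comp hb10
    rw [hNF.r0] at h1
    simpa using h1.neg
  -- each term of the sum is at most one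
  have hterm : ∀ n i j, 1 ≤ i → 1 ≤ j → i + j ≤ N →
      (‖cA Φ r N om i j (b1 n)‖ / δ n + ‖cB Φ r N om i j (b1 n)‖ / Real.sqrt (δ n)) *
        τ n ^ (i + j) ≤ 1 := by
    intro n i j hi hj hij
    rw [← hsum n]
    have hnn : ∀ p ∈ (Finset.univ : Finset (Mix N)), 0 ≤
        (‖cA Φ r N om p.1.1 p.1.2 (b (n + m))‖ / (-(r (b (n + m)))) +
        ‖cB Φ r N om p.1.1 p.1.2 (b (n + m))‖ / Real.sqrt (-(r (b (n + m))))) *
        τ n ^ ((p.1.1 : ℕ) + (p.1.2 : ℕ)) := by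
      intro p _
      have h1 := hδpos n
      have h2 := (hτ n).le
      simp only [hδ, hb1] at h1
      positivity
    exact Finset.single_le_sum hnn
      (Finset.mem_univ (⟨(⟨i, by omega⟩, ⟨j, by omega⟩), hi, hj, hij⟩ : Mix N))
  -- limit for A
  obtain ⟨φA, α, hφA, hα, hnullA, htopA⟩ := limit_family (F := ℂ) hHA N b1 hb10 τ
    (fun n => (δ n)⁻¹) hτ hτ0 (fun n => inv_pos.mpr (hδpos n))
    (by
      refine hhigh.congr fun n => ?_
      rw [div_eq_mul_inv, mul_comm])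
    ⟨1, fun n i j hij => by
      change ‖cA Φ r N om i j (b1 n)‖ * _ ≤ 1
      rcases Nat.eq_zero_or_pos (i + j) with h0 | h0
      · have hi : i = 0 := by omega
        have hj : j = 0 := by omega
        subst hi hj
        rw [hA00, Complex.norm_real, Real.norm_eq_abs]
        have h1 : |r (b1 n)| = δ n := by
          rw [← abs_neg, abs_of_pos (hδpos n)]
        rw [h1, add_zero, pow_zero, mul_one, mul_inv_cancel₀ (hδpos n).ne']
      · by_cases h : i = 0 ∨ j = 0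
        · rw [hApure _ (hgood n).1 i j h0 hij h, norm_zero, zero_mul]
          exact zero_le_one
        · push Not at h
          have h2 := hterm n i j (by omega) (by omega) hij
          have h3 : 0 ≤ ‖cB Φ r N om i j (b1 n)‖ / Real.sqrt (δ n) * τ n ^ (i + j) := by
            have := (hτ n).le
            positivity
          rw [add_mul] at h2
          have h4 : ‖cA Φ r N om i j (b1 n)‖ * ((δ n)⁻¹ * τ n ^ (i + j)) =
              ‖cA Φ r N om i j (b1 n)‖ / δ n * τ n ^ (i + j) := by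
            rw [div_eq_mul_inv]; ring
          rw [h4]
          linarith⟩
  -- limit for B
  have hbsq : ∀ n, ‖b1 n‖ / Real.sqrt (δ n) ≤ |Cb| + 1 := by
    intro n
    have h1 := (hgood n).2.2.2
    have h2 : 0 < Real.sqrt (δ n) := Real.sqrt_pos.mpr (hδpos n)
    rw [div_le_iff₀ h2]
    have h3 : ‖b1 n‖ ^ 2 ≤ ((|Cb| + 1) * Real.sqrt (δ n)) ^ 2 := by
      rw [mul_pow, Real.sq_sqrt (hδpos n).le]
      have h4 : ‖b1 n‖ ^ 2 ≤ Cb * δ n := h1
      have h5 : Cb ≤ (|Cb| + 1) ^ 2 := by nlinarith [le_abs_self Cb, abs_nonneg Cb]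
      have := (hδpos n).le
      nlinarith
    exact (pow_le_pow_iff_left₀ (norm_nonneg _) (by positivity) two_ne_zero).mp h3
  obtain ⟨φB, β, hφB, hβ, hnullB, htopB⟩ := limit_family (F := E →L[ℝ] ℂ) hHB N
    (fun n => b1 (φA n)) (hb10.comp hφA.tendsto_atTop) (fun n => τ (φA n))
    (fun n => (Real.sqrt (δ (φA n)))⁻¹) (fun n => hτ _) (hτ0.comp hφA.tendsto_atTop)
    (fun n => inv_pos.mpr (Real.sqrt_pos.mpr (hδpos _)))
    (by
      have h1 : Tendsto (fun n => τ n ^ (N + 1) / δ n * Real.sqrt (δ n)) atTop (𝓝 0) := by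
        have h2 : Tendsto (fun n => Real.sqrt (δ n)) atTop (𝓝 0) := by
          have := (Real.continuous_sqrt.tendsto 0).comp hδ0
          rwa [Real.sqrt_zero] at this
        have := hhigh.mul h2
        rw [mul_zero] at this
        exact this
      refine (h1.comp hφA.tendsto_atTop).congr fun n => ?_
      simp only [Function.comp_apply]
      have h3 := hδpos (φA n)
      have h4 : 0 < Real.sqrt (δ (φA n)) := Real.sqrt_pos.mpr h3
      have h5 : Real.sqrt (δ (φA n)) * Real.sqrt (δ (φA n)) = δ (φA n) :=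
        Real.mul_self_sqrt h3.le
      rw [div_mul_eq_mul_div, div_eq_iff h3.ne']
      calc τ (φA n) ^ (N + 1) * Real.sqrt (δ (φA n))
          = τ (φA n) ^ (N + 1) * ((Real.sqrt (δ (φA n)))⁻¹ *
            (Real.sqrt (δ (φA n)) * Real.sqrt (δ (φA n)))) := by
            field_simp
        _ = _ := by rw [h5]; ring)
    ⟨1 + LB * (|Cb| + 1), fun n i j hij => by
      change ‖cB Φ r N om i j (b1 (φA n))‖ * _ ≤ _
      have hτn := (hτ (φA n)).le
      have hsq : 0 < Real.sqrt (δ (φA n)) := Real.sqrt_pos.mpr (hδpos _)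
      have hpow : τ (φA n) ^ (i + j) ≤ 1 := pow_le_one₀ hτn (hτ1 _)
      by_cases h : i = 0 ∨ j = 0
      · have h1 := hLB i j hij h (b1 (φA n)) (hgood _).2.1
        have h2 : ‖cB Φ r N om i j (b1 (φA n))‖ *
            ((Real.sqrt (δ (φA n)))⁻¹ * τ (φA n) ^ (i + j)) ≤
            (LB * ‖b1 (φA n)‖) * ((Real.sqrt (δ (φA n)))⁻¹ * 1) := by
          gcongr
        have h3 : (LB * ‖b1 (φA n)‖) * ((Real.sqrt (δ (φA n)))⁻¹ * 1) =
            LB * (‖b1 (φA n)‖ / Real.sqrt (δ (φA n))) := by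
          rw [div_eq_mul_inv]; ring
        have h4 : LB * (‖b1 (φA n)‖ / Real.sqrt (δ (φA n))) ≤ LB * (|Cb| + 1) := by
          gcongr
          exact hbsq _
        linarith
      · push Not at h
        have h2 := hterm (φA n) i j (by omega) (by omega) hij
        have h3 : 0 ≤ ‖cA Φ r N om i j (b1 (φA n))‖ / δ (φA n) * τ (φA n) ^ (i + j) := by
          have := hδpos (φA n)
          positivity
        rw [add_mul] at h2
        have h4 : ‖cB Φ r N om i j (b1 (φA n))‖ * ((Real.sqrt (δ (φA n)))⁻¹ * τ (φA n) ^ (i + j)) =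
            ‖cB Φ r N om i j (b1 (φA n))‖ / Real.sqrt (δ (φA n)) * τ (φA n) ^ (i + j) := by
          rw [div_eq_mul_inv]; ring
        have h5 : 0 ≤ LB * (|Cb| + 1) := by positivity
        rw [h4]
        linarith⟩
  -- the common subsequence
  set ψ : ℕ → ℕ := fun n => φA (φB n) with hψ
  have hψmono : StrictMono ψ := hφA.comp hφB
  have hnullA' : Null (N + 1) (fun n ζ => (((δ (ψ n))⁻¹ : ℝ) : ℂ) •
      HA Φ r N om ((τ (ψ n) : ℂ) * ζ, b1 (ψ n)) - α ζ) := hnullA.subseq hφB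
  have hnullB' : Null (N + 1) (fun n ζ => (((Real.sqrt (δ (ψ n)))⁻¹ : ℝ) : ℂ) •
      HB Φ r N om ((τ (ψ n) : ℂ) * ζ, b1 (ψ n)) - β ζ) := hnullB
  have hAsm : ∀ n, ContDiff ℝ ∞ (fun ζ => (((δ n)⁻¹ : ℝ) : ℂ) •
      HA Φ r N om ((τ n : ℂ) * ζ, b1 n)) := fun n => by
    have h1 : ContDiff ℝ ∞ (fun ζ : ℂ => (((τ n : ℂ) * ζ, b1 n) : ℂ × E)) := by fun_prop
    exact (hHA.comp h1).const_smul _
  have hBsm : ∀ n, ContDiff ℝ ∞ (fun ζ => (((Real.sqrt (δ n))⁻¹ : ℝ) : ℂ) •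
      HB Φ r N om ((τ n : ℂ) * ζ, b1 n)) := fun n => by
    have h1 : ContDiff ℝ ∞ (fun ζ : ℂ => (((τ n : ℂ) * ζ, b1 n) : ℂ × E)) := by fun_prop
    exact (hHB.comp h1).const_smul _
  -- limits of coefficients
  have hlimA : ∀ i j, i + j ≤ N → Tendsto (fun n => (((δ (ψ n))⁻¹ * τ (ψ n) ^ (i + j) : ℝ) : ℂ) •
      cA Φ r N om i j (b1 (ψ n))) atTop (𝓝 (dz^[i] (dzb^[j] α) 0)) := fun i j hij =>
    tendsto_wirt (s := fun n => (δ n)⁻¹) hHA hα hnullA' (by omega)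
  have hlimB : ∀ i j, i + j ≤ N →
      Tendsto (fun n => (((Real.sqrt (δ (ψ n)))⁻¹ * τ (ψ n) ^ (i + j) : ℝ) : ℂ) •
      cB Φ r N om i j (b1 (ψ n))) atTop (𝓝 (dz^[i] (dzb^[j] β) 0)) := fun i j hij =>
    tendsto_wirt (s := fun n => (Real.sqrt (δ n))⁻¹) (p := b1) (τ := τ) hHB hβ hnullB' (by omega)
  -- values of HA
  have hHAval : ∀ n ζ, (((δ n)⁻¹ : ℝ) : ℂ) • HA Φ r N om ((τ n : ℂ) * ζ, b1 n) =
      ((r (Crv Φ (b1 n) (shear N (om (b1 n))) ((τ n : ℂ) * ζ)) / δ n : ℝ) : ℂ) := by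
    intro n ζ
    simp only [HA, Af, smul_eq_mul]
    push_cast
    rw [div_eq_mul_inv, mul_comm]
  have hHBval : ∀ n ζ, (((Real.sqrt (δ n))⁻¹ : ℝ) : ℂ) • HB Φ r N om ((τ n : ℂ) * ζ, b1 n) =
      Complex.ofRealCLM.comp ((Real.sqrt (δ n))⁻¹ •
        ((fderiv ℝ r (Crv Φ (b1 n) (shear N (om (b1 n))) ((τ n : ℂ) * ζ))).comp
          (Φ.PW.restrictScalars ℝ))) := by
    intro n ζ
    ext x
    simp only [HB, Bf, FunLike.coe_smul, Pi.smul_apply, ContinuousLinearMap.comp_apply,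
      Complex.ofRealCLM_apply, smul_eq_mul, Complex.ofReal_mul]
  -- reality
  have hαim : ∀ ζ, (α ζ).im = 0 := by
    intro ζ
    refine tendsto_zero_of_im (hnullA'.tendsto ζ) fun n => ?_
    rw [hHAval]
    exact Complex.ofReal_im _
  have hβim : ∀ ζ x, (β ζ x).im = 0 := by
    intro ζ x
    have h1 : Tendsto (fun n => ((((Real.sqrt (δ (ψ n)))⁻¹ : ℝ) : ℂ) •
        HB Φ r N om ((τ (ψ n) : ℂ) * ζ, b1 (ψ n))) x - β ζ x) atTop (𝓝 0) := by
      have h2 := ((ContinuousLinearMap.apply ℝ ℂ x).continuous.tendsto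
        (0 : E →L[ℝ] ℂ)).comp (hnullB'.tendsto ζ)
      rw [map_zero] at h2
      exact h2
    refine tendsto_zero_of_im h1 fun n => ?_
    rw [hHBval]
    exact Complex.ofReal_im _
  set h : ℂ → ℝ := fun ζ => (α ζ).re + 1 with hh
  set q : ℂ → E →L[ℝ] ℝ := fun ζ => Complex.reCLM.comp (β ζ) with hq
  have hhα : (fun ζ => (h ζ : ℂ)) = fun ζ => α ζ + 1 := by
    funext ζ
    apply Complex.ext
    · simp [hh]
    · simp [hαim ζ]
  have hqβ : (fun ζ => Complex.ofRealCLM.comp (q ζ)) = β := by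
    funext ζ
    ext x
    apply Complex.ext
    · simp [hq]
    · simp [hβim ζ x]
  have hhsm : ContDiff ℝ ∞ h := (Complex.reCLM.contDiff.comp hα).add contDiff_const
  have hqsm : ContDiff ℝ ∞ q :=
    ((ContinuousLinearMap.compL ℝ E ℂ ℝ Complex.reCLM).contDiff).comp hβ
  have hvanA := wirt_zero_of_top hα htopA
  have hvanB := wirt_zero_of_top hβ htopB
  have hN := hNF.hN
  have hα0 : α 0 = -1 := by
    have h1 := hlimA 0 0 (by omega)
    simp only [Function.iterate_zero, id_eq] at h1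
    have h2 : (fun n => (((δ (ψ n))⁻¹ * τ (ψ n) ^ (0 + 0) : ℝ) : ℂ) •
        cA Φ r N om 0 0 (b1 (ψ n))) = fun _ => (-1 : ℂ) := by
      funext n
      rw [hA00, smul_eq_mul, ← Complex.ofReal_mul, add_zero, pow_zero, mul_one]
      have h3 := (hδpos (ψ n)).ne'
      have h4 : (δ (ψ n))⁻¹ * r (b1 (ψ n)) = -1 := by
        have h5 : r (b1 (ψ n)) = -δ (ψ n) := by simp [hδ]
        rw [h5]; field_simp
      rw [h4]; simp
    rw [h2] at h1
    exact (tendsto_nhds_unique h1 tendsto_const_nhds)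
  refine ⟨fun n => ψ n + m, fun n => τ (ψ n), fun n => shear N (om (b1 (ψ n))), h, q,
    fun x y hxy => by have := hψmono hxy; simpa using this, ?_⟩
  have hbψ : (b ∘ fun n => ψ n + m) = fun n => b1 (ψ n) := rfl
  rw [hbψ]
  refine
    { δpos := fun n => hδpos _
      b0 := hb10.comp hψmono.tendsto_atTop
      τpos := fun n => hτ _
      τ0 := hτ0.comp hψmono.tendsto_atTop
      wsm := fun n => contDiff_shear _
      w0 := fun n => shear_zero _
      wlim := ?_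
      hsm := hhsm
      qsm := hqsm
      convA := ?_
      convB := ?_
      hpoly := ?_
      hpure := ?_
      h11 := ?_
      qpoly := ?_
      qpure := ?_
      qPW := ?_
      nz := ?_ }
  · -- wlim
    intro ε hε
    have h1 := null_of_param (V := ℂ) (contDiff_shear_joint (N := N) homs)
      (hb10.comp hψmono.tendsto_atTop) 1
    have h2 : (fun (n : ℕ) (ζ : ℂ) => shear N (om (b1 (ψ n))) ζ - shear N (om 0) ζ) =
        fun n => shear N (om (b1 (ψ n))) := by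
      funext n ζ
      rw [shear_zero' hom0, sub_zero]
    have h3 : Null 1 (fun n => shear N (om (b1 (ψ n)))) := by
      rw [← h2]; exact h1
    filter_upwards [h3 0 (by norm_num) 1 ε hε, h3 1 le_rfl 1 ε hε] with n hn0 hn1 ζ hζ
    have h4 := hn0 ζ hζ
    have h5 := hn1 ζ hζ
    rw [norm_iteratedFDeriv_zero] at h4
    rw [norm_iteratedFDeriv_one] at h5
    refine ⟨h4, ?_⟩
    have h6 : DifferentiableAt ℂ (shear N (om (b1 (ψ n)))) ζ :=
      (contDiff_shear _).differentiable (by simp) ζ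
    have h7 : deriv (shear N (om (b1 (ψ n)))) ζ = fderiv ℝ (shear N (om (b1 (ψ n)))) ζ 1 := by
      rw [(h6.hasFDerivAt.restrictScalars ℝ).fderiv]
      simp
    rw [h7]
    refine (ContinuousLinearMap.le_opNorm _ _).trans ?_
    rw [norm_one, mul_one]
    exact h5
  · -- convA
    have h1 : ∀ n, ContDiff ℝ ∞ (fun ζ => r (Crv Φ (b1 (ψ n)) (shear N (om (b1 (ψ n))))
        ((τ (ψ n) : ℂ) * ζ)) / δ (ψ n)) := fun n => by
      have h2 : (fun ζ => r (Crv Φ (b1 (ψ n)) (shear N (om (b1 (ψ n))))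
        ((τ (ψ n) : ℂ) * ζ)) / δ (ψ n)) = fun ζ => Complex.reCLM ((((δ (ψ n))⁻¹ : ℝ) : ℂ) •
          HA Φ r N om ((τ (ψ n) : ℂ) * ζ, b1 (ψ n))) := by
        funext ζ
        rw [hHAval]; simp
      rw [h2]
      exact Complex.reCLM.contDiff.comp (hAsm _)
    refine convC2_of_null h1 (contDiff_const.add hhsm) ?_
    have h3 := (Null.clm_comp (K := N + 1) hnullA' (fun n => (hAsm _).sub hα) Complex.reCLM)
    have h4 : (fun (n : ℕ) (ζ : ℂ) => r (Crv Φ (b1 (ψ n)) (shear N (om (b1 (ψ n))))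
        ((τ (ψ n) : ℂ) * ζ)) / δ (ψ n) - (-1 + h ζ)) = fun n ζ =>
        Complex.reCLM ((((δ (ψ n))⁻¹ : ℝ) : ℂ) •
          HA Φ r N om ((τ (ψ n) : ℂ) * ζ, b1 (ψ n)) - α ζ) := by
      funext n ζ
      rw [hHAval]
      simp [hh]
    rw [h4]
    exact fun k hk => h3 k (by omega)
  · -- convB
    set L := ContinuousLinearMap.compL ℝ E ℂ ℝ Complex.reCLM with hL
    have hLv : ∀ n ζ, L ((((Real.sqrt (δ (ψ n)))⁻¹ : ℝ) : ℂ) •
          HB Φ r N om ((τ (ψ n) : ℂ) * ζ, b1 (ψ n))) = (Real.sqrt (δ (ψ n)))⁻¹ •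
        ((fderiv ℝ r (Crv Φ (b1 (ψ n)) (shear N (om (b1 (ψ n)))) ((τ (ψ n) : ℂ) * ζ))).comp
          (Φ.PW.restrictScalars ℝ)) := by
      intro n ζ
      rw [hHBval]
      ext x
      simp [hL]
    have h1 : ∀ n, ContDiff ℝ ∞ (fun ζ => (Real.sqrt (δ (ψ n)))⁻¹ •
        ((fderiv ℝ r (Crv Φ (b1 (ψ n)) (shear N (om (b1 (ψ n)))) ((τ (ψ n) : ℂ) * ζ))).comp
          (Φ.PW.restrictScalars ℝ))) := fun n => by
      simp only [← hLv]
      exact L.contDiff.comp (hBsm _)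
    refine convC2_of_null h1 hqsm ?_
    have h3 := (Null.clm_comp (K := N + 1) hnullB' (fun n => (hBsm _).sub hβ) L)
    have h4 : (fun (n : ℕ) (ζ : ℂ) => (Real.sqrt (δ (ψ n)))⁻¹ •
        ((fderiv ℝ r (Crv Φ (b1 (ψ n)) (shear N (om (b1 (ψ n)))) ((τ (ψ n) : ℂ) * ζ))).comp
          (Φ.PW.restrictScalars ℝ)) - q ζ) = fun n ζ =>
        L ((((Real.sqrt (δ (ψ n)))⁻¹ : ℝ) : ℂ) •
          HB Φ r N om ((τ (ψ n) : ℂ) * ζ, b1 (ψ n)) - β ζ) := by
      funext n ζ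
      rw [map_sub, hLv]
      rfl
    rw [h4]
    exact fun k hk => h3 k (by omega)
  · -- hpoly
    refine ⟨N, fun i j hij ζ => ?_⟩
    rw [hhα, wirt_add_const hα 1 (by omega)]
    exact hvanA i j hij ζ
  · -- hpure
    intro i
    rcases Nat.eq_zero_or_pos i with rfl | hi
    · simp only [Function.iterate_zero, id_eq]
      simp [hh, hα0]
    · have h1 := wirt_add_const hα 1 (i := i) (j := 0) (by omega) 0
      simp only [Function.iterate_zero, id_eq] at h1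
      rw [hhα, h1]
      by_cases hiN : i ≤ N
      · have h2 := hlimA i 0 (by omega)
        simp only [Function.iterate_zero, id_eq] at h2
        have h3 : (fun n => (((δ (ψ n))⁻¹ * τ (ψ n) ^ (i + 0) : ℝ) : ℂ) •
            cA Φ r N om i 0 (b1 (ψ n))) = fun _ => (0 : ℂ) := by
          funext n
          rw [hApure _ (hgood _).1 i 0 (by omega) (by omega) (Or.inr rfl), smul_zero]
        rw [h3] at h2
        exact tendsto_nhds_unique h2 tendsto_const_nhds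
      · exact hvanA i 0 (by omega) 0
  · -- h11
    have h1 := wirt_add_const hα 1 (i := 1) (j := 1) (by omega) 0
    simp only [Function.iterate_one] at h1
    rw [hhα, h1]
    have h2 := hlimA 1 1 (by omega)
    simp only [Function.iterate_one] at h2
    -- the coefficient is `O(δ)`
    obtain ⟨C, hC⟩ := e4_lagrange hNF (fun n => b1 (ψ n)) (hb10.comp hψmono.tendsto_atTop)
      ⟨Cb, Eventually.of_forall fun n => (hgood _).2.2.2⟩
    have hden : ∀ᶠ n in atTop, dC (fun z => (r z : ℂ)) (b1 (ψ n)) Φ.ew ≠ 0 := by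
      have h3 : Continuous (fun z => dC (fun z => (r z : ℂ)) z Φ.ew) := by
        have hrc : ContDiff ℝ ∞ (fun z => (r z : ℂ)) := ofRealCLM.contDiff.comp hr
        have h4 : ContDiff ℝ ∞ (fderiv ℝ (fun z => (r z : ℂ))) := hrc.fderiv_right (by simp)
        unfold dC
        exact (((h4.clm_apply contDiff_const).sub
          ((h4.clm_apply contDiff_const).const_smul I)).const_smul (1/2 : ℂ)).continuous
      have h5 : dC (fun z => (r z : ℂ)) 0 Φ.ew ≠ 0 := by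
        have h6 : fderiv ℝ (fun z => (r z : ℂ)) 0 = ofRealCLM.comp (fderiv ℝ r 0) :=
          (ofRealCLM.hasFDerivAt.comp (0 : E)
            (hr.differentiable (by simp) (0 : E)).hasFDerivAt).fderiv
        simp only [dC, h6, ContinuousLinearMap.comp_apply, hNF.dr0, map_smul, Φ.pw_ew]
        simp
      have h7 := (h3.tendsto 0).comp (hb10.comp hψmono.tendsto_atTop)
      exact h7.eventually_ne h5
    have hbound : ∀ᶠ n in atTop, ‖(((δ (ψ n))⁻¹ * τ (ψ n) ^ (1 + 1) : ℝ) : ℂ) •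
        cA Φ r N om 1 1 (b1 (ψ n))‖ ≤ (|C| / 4) * τ (ψ n) ^ 2 := by
      filter_upwards [hC, hden] with n hn1 hn2
      have h3 := lev_crv (Φ := Φ) hr' (b1 (ψ n)) (contDiff_shear (N := N) (om (b1 (ψ n))))
        (shear_zero _)
      have h4 := dz_crv (Φ := Φ) hr' (b1 (ψ n)) (contDiff_shear (N := N) (om (b1 (ψ n))))
        (shear_zero _)
      have h5 : dz (Af Φ r (b1 (ψ n)) (shear N (om (b1 (ψ n))))) 0 = 0 := by
        have := hpure _ (hgood (ψ n)).1 1 le_rfl (by omega)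
        simpa using this
      rw [h5] at h4
      have h6 : deriv (shear N (om (b1 (ψ n)))) 0 = -(dC (fun z => (r z : ℂ)) (b1 (ψ n)) Φ.e1 /
          dC (fun z => (r z : ℂ)) (b1 (ψ n)) Φ.ew) := by
        rw [smul_eq_mul] at h4
        field_simp
        linear_combination -h4
      rw [h6, neg_smul, ← sub_eq_add_neg] at h3
      have h7 : cA Φ r N om 1 1 (b1 (ψ n)) =
          dz (dzb (Af Φ r (b1 (ψ n)) (shear N (om (b1 (ψ n)))))) 0 := rfl
      have h8 : ‖cA Φ r N om 1 1 (b1 (ψ n))‖ ≤ |C| / 4 * δ (ψ n) := by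
        have h9 : ‖(4 : ℂ) * cA Φ r N om 1 1 (b1 (ψ n))‖ ≤ C * δ (ψ n) := by
          rw [h7, h3, Complex.norm_real, Real.norm_eq_abs]
          exact hn1
        rw [norm_mul] at h9
        have h10 : ‖(4 : ℂ)‖ = 4 := by norm_num
        rw [h10] at h9
        have h11 : C * δ (ψ n) ≤ |C| * δ (ψ n) := by
          have := (hδpos (ψ n)).le
          gcongr
          exact le_abs_self C
        linarith
      have hδn := hδpos (ψ n)
      have hτn := (hτ (ψ n)).le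
      rw [norm_smul, Complex.norm_real, Real.norm_eq_abs, abs_of_nonneg (by positivity)]
      calc (δ (ψ n))⁻¹ * τ (ψ n) ^ (1 + 1) * ‖cA Φ r N om 1 1 (b1 (ψ n))‖
          ≤ (δ (ψ n))⁻¹ * τ (ψ n) ^ (1 + 1) * (|C| / 4 * δ (ψ n)) := by gcongr
        _ = (|C| / 4) * τ (ψ n) ^ 2 := by
            field_simp
            ring
    have hlim0 : Tendsto (fun n => (|C| / 4) * τ (ψ n) ^ 2) atTop (𝓝 0) := by
      have h3 := ((hτ0.comp hψmono.tendsto_atTop).pow 2).const_mul (|C| / 4)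
      simpa using h3
    have h3 := squeeze_zero_norm' hbound hlim0
    exact tendsto_nhds_unique h2 h3
  · -- qpoly
    refine ⟨N, fun i j hij ζ => ?_⟩
    rw [hqβ]
    exact hvanB i j hij ζ
  · -- qpure
    intro i hi
    rw [hqβ]
    by_cases hiN : i ≤ N
    · have h2 := hlimB i 0 (by omega)
      simp only [Function.iterate_zero, id_eq] at h2
      have hbound : ∀ n, ‖(((Real.sqrt (δ (ψ n)))⁻¹ * τ (ψ n) ^ (i + 0) : ℝ) : ℂ) •
          cB Φ r N om i 0 (b1 (ψ n))‖ ≤ (LB * (|Cb| + 1)) * τ (ψ n) ^ i := by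
        intro n
        have h3 := hLB i 0 (by omega) (Or.inr rfl) (b1 (ψ n)) (hgood _).2.1
        have hτn := (hτ (ψ n)).le
        have hsq : 0 < Real.sqrt (δ (ψ n)) := Real.sqrt_pos.mpr (hδpos _)
        rw [norm_smul, Complex.norm_real, Real.norm_eq_abs, abs_of_nonneg (by positivity)]
        calc (Real.sqrt (δ (ψ n)))⁻¹ * τ (ψ n) ^ (i + 0) * ‖cB Φ r N om i 0 (b1 (ψ n))‖
            ≤ (Real.sqrt (δ (ψ n)))⁻¹ * τ (ψ n) ^ (i + 0) * (LB * ‖b1 (ψ n)‖) := by gcongr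
          _ = LB * (‖b1 (ψ n)‖ / Real.sqrt (δ (ψ n))) * τ (ψ n) ^ i := by
              rw [div_eq_mul_inv, add_zero]; ring
          _ ≤ LB * (|Cb| + 1) * τ (ψ n) ^ i := by
              gcongr
              exact hbsq _
      have hlim0 : Tendsto (fun n => (LB * (|Cb| + 1)) * τ (ψ n) ^ i) atTop (𝓝 0) := by
        have h3 := ((hτ0.comp hψmono.tendsto_atTop).pow i).const_mul (LB * (|Cb| + 1))
        rw [zero_pow (by omega), mul_zero] at h3
        exact h3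
      have h3 := squeeze_zero_norm hbound hlim0
      exact tendsto_nhds_unique h2 h3
    · exact hvanB i 0 (by omega) 0
  · -- qPW
    intro ζ x
    have h1 := hnullB'.tendsto ζ
    have h2 : ∀ y : E, Tendsto (fun n => ((((Real.sqrt (δ (ψ n)))⁻¹ : ℝ) : ℂ) •
        HB Φ r N om ((τ (ψ n) : ℂ) * ζ, b1 (ψ n))) y) atTop (𝓝 (β ζ y)) := by
      intro y
      have h3 := ((ContinuousLinearMap.apply ℝ ℂ y).continuous.tendsto
        (0 : E →L[ℝ] ℂ)).comp h1
      rw [map_zero] at h3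
      have h4 := h3.add_const (β ζ y)
      rw [zero_add] at h4
      refine h4.congr fun n => ?_
      simp
    have h3 : β ζ (Φ.PW x) = β ζ x := by
      refine tendsto_nhds_unique (h2 (Φ.PW x)) ((h2 x).congr fun n => ?_)
      simp [HB, Bf, Φ.PW_PW]
    simp only [hq, ContinuousLinearMap.comp_apply, h3]
  · -- nz
    by_contra hcon
    push Not at hcon
    obtain ⟨hcon1, hcon2⟩ := hcon
    have hαc : α = fun _ => (-1 : ℂ) := by
      funext ζ
      have h1 := hcon1 ζ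
      have h2 := congrFun hhα ζ
      simp only [h1, Complex.ofReal_zero] at h2
      linear_combination -h2
    have hβc : β = fun _ => β 0 := by
      funext ζ
      have h1 : Complex.ofRealCLM.comp (q ζ) = β ζ := congrFun hqβ ζ
      have h2 : Complex.ofRealCLM.comp (q 0) = β 0 := congrFun hqβ 0
      rw [← h1, ← h2, hcon2 ζ]
    have hsumlim : Tendsto (fun n => ∑ p : Mix N,
        (‖(((δ (ψ n))⁻¹ * τ (ψ n) ^ ((p.1.1 : ℕ) + (p.1.2 : ℕ)) : ℝ) : ℂ) •
          cA Φ r N om p.1.1 p.1.2 (b1 (ψ n))‖ +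
        ‖(((Real.sqrt (δ (ψ n)))⁻¹ * τ (ψ n) ^ ((p.1.1 : ℕ) + (p.1.2 : ℕ)) : ℝ) : ℂ) •
          cB Φ r N om p.1.1 p.1.2 (b1 (ψ n))‖)) atTop (𝓝 (∑ _p : Mix N, (0 : ℝ))) := by
      refine tendsto_finset_sum _ fun p _ => ?_
      have h1 := (hlimA p.1.1 p.1.2 p.2.2.2).norm
      have h2 := (hlimB p.1.1 p.1.2 p.2.2.2).norm
      rw [hαc, wirt_const _ _ _ (by have := p.2.1; omega), norm_zero] at h1
      rw [hβc, wirt_const _ _ _ (by have := p.2.1; omega), norm_zero] at h2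
      have h3 := h1.add h2
      rwa [add_zero] at h3
    have hone : ∀ n, ∑ p : Mix N,
        (‖(((δ (ψ n))⁻¹ * τ (ψ n) ^ ((p.1.1 : ℕ) + (p.1.2 : ℕ)) : ℝ) : ℂ) •
          cA Φ r N om p.1.1 p.1.2 (b1 (ψ n))‖ +
        ‖(((Real.sqrt (δ (ψ n)))⁻¹ * τ (ψ n) ^ ((p.1.1 : ℕ) + (p.1.2 : ℕ)) : ℝ) : ℂ) •
          cB Φ r N om p.1.1 p.1.2 (b1 (ψ n))‖) = 1 := by
      intro n
      rw [← hsum (ψ n)]
      refine Finset.sum_congr rfl fun p _ => ?_
      have hδn := hδpos (ψ n)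
      have hτn := (hτ (ψ n)).le
      have hsq : 0 < Real.sqrt (δ (ψ n)) := Real.sqrt_pos.mpr hδn
      rw [norm_smul, norm_smul, Complex.norm_real, Complex.norm_real, Real.norm_eq_abs,
        Real.norm_eq_abs, abs_of_nonneg (by positivity), abs_of_nonneg (by positivity)]
      change _ = (‖cA Φ r N om p.1.1 p.1.2 (b1 (ψ n))‖ / δ (ψ n) +
        ‖cB Φ r N om p.1.1 p.1.2 (b1 (ψ n))‖ / Real.sqrt (δ (ψ n))) * _
      rw [div_eq_mul_inv, div_eq_mul_inv]
      ring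
    simp only [hone, Finset.sum_const_zero] at hsumlim
    have := tendsto_nhds_unique hsumlim tendsto_const_nhds
    norm_num at this

end Pool.Agent.Sqz
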