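import Pool.Agent.Work.MP_0e9e72_an.C1

/-!
# MP_0e9e72_an, block C: Levi form calculus and the Diederich-Fornaess function
-/

set_option autoImplicit false

open Complex Metric Set Filter Topology
open scoped ContDiff

namespace Pool.Agent.Sqz

section cl
variable {E : Type*} [NormedAddCommGroup E] [NormedSpace ℂ E]

namespace LeviC

/-- complex-linear functional attached to a real one -/
noncomputable def cl (L : E →L[ℝ] ℝ) (x : E) : ℂ := (L x : ℂ) - I * (L (I • x) : ℂ)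

theorem cl_smul (L : E →L[ℝ] ℝ) (c : ℂ) (x : E) : cl L (c • x) = c * cl L x := by
  have h1 : c • x = (c.re : ℝ) • x + (c.im : ℝ) • (I • x) := by
    conv_lhs => rw [← Complex.re_add_im c]
    rw [add_smul, mul_smul]
    simp
  have h2 : I • (c • x) = (c.re : ℝ) • (I • x) - (c.im : ℝ) • x := by
    conv_lhs => rw [← Complex.re_add_im c]
    rw [add_smul, smul_add, mul_smul, smul_comm I (c.im : ℂ), smul_smul I I, I_mul_I,
      smul_comm I (c.re : ℂ)]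
    simp [sub_eq_add_neg]
  have e1 : L (c • x) = c.re * L x + c.im * L (I • x) := by
    rw [h1, map_add]; simp only [map_smul, smul_eq_mul]
  have e2 : L (I • (c • x)) = c.re * L (I • x) - c.im * L x := by
    rw [h2, map_sub]; simp only [map_smul, smul_eq_mul]
  unfold cl
  rw [e2, e1]
  apply Complex.ext
  · simp
  · simp; ring

theorem cl_sub_apply (L : E →L[ℝ] ℝ) (x y : E) : cl L (x - y) = cl L x - cl L y := by
  unfold cl
  rw [smul_sub, map_sub, map_sub]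
  push_cast
  ring

theorem cl_re (L : E →L[ℝ] ℝ) (x : E) : (cl L x).re = L x := by simp [cl]

theorem cl_im (L : E →L[ℝ] ℝ) (x : E) : (cl L x).im = -L (I • x) := by simp [cl]

theorem norm_cl_le (L : E →L[ℝ] ℝ) (x : E) : ‖cl L x‖ ≤ 2 * ‖L‖ * ‖x‖ := by
  have h1 : ‖L x‖ ≤ ‖L‖ * ‖x‖ := L.le_opNorm x
  have h2 : ‖L (I • x)‖ ≤ ‖L‖ * ‖x‖ := by
    have := L.le_opNorm (I • x)
    rwa [norm_smul, norm_I, one_mul] at this
  unfold cl
  refine (norm_sub_le _ _).trans ?_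
  rw [norm_mul, norm_I, one_mul, Complex.norm_real, Complex.norm_real]
  linarith

theorem norm_cl_sub_le (L L' : E →L[ℝ] ℝ) (x : E) : ‖cl L x - cl L' x‖ ≤ 2 * ‖L - L'‖ * ‖x‖ := by
  have : cl L x - cl L' x = cl (L - L') x := by
    unfold cl
    rw [sub_apply, sub_apply]
    push_cast
    ring
  rw [this]; exact norm_cl_le _ _

theorem norm_cl_eq (r : E → ℝ) (z v : E) : ‖cl (fderiv ℝ r z) v‖ = Real.sqrt (Nm r z v) := by
  rw [← Real.sqrt_sq (norm_nonneg _), ← Complex.normSq_eq_norm_sq, Complex.normSq_apply,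
    cl_re, cl_im]
  congr 1
  unfold Nm
  ring

/-- Perturbation estimate for `B v v + B (I v) (I v)`. -/
theorem quad_perturb (B : E →L[ℝ] E →L[ℝ] ℝ) (y x : E) :
    |(B (y + x) (y + x) + B (I • (y + x)) (I • (y + x))) - (B y y + B (I • y) (I • y))|
      ≤ ‖B‖ * (4 * ‖y‖ * ‖x‖ + 2 * ‖x‖ ^ 2) := by
  have hb : ∀ a b : E, |B a b| ≤ ‖B‖ * ‖a‖ * ‖b‖ := fun a b => B.le_opNorm₂ a b
  have hI : ∀ a : E, ‖I • a‖ = ‖a‖ := fun a => by rw [norm_smul, norm_I, one_mul]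
  have e1 : (B (y + x) (y + x) + B (I • (y + x)) (I • (y + x))) - (B y y + B (I • y) (I • y))
      = (B y x + B x y + B x x) +
        (B (I • y) (I • x) + B (I • x) (I • y) + B (I • x) (I • x)) := by
    rw [smul_add]
    simp only [map_add, add_apply]
    ring
  rw [e1]
  have h1 := hb y x
  have h2 := hb x y
  have h3 := hb x x
  have h4 := hb (I • y) (I • x)
  have h5 := hb (I • x) (I • y)
  have h6 := hb (I • x) (I • x)
  rw [hI, hI] at h4 h5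
  rw [hI] at h6
  calc |(B y x + B x y + B x x) + (B (I • y) (I • x) + B (I • x) (I • y) + B (I • x) (I • x))|
      ≤ (|B y x| + |B x y| + |B x x|)
        + (|B (I • y) (I • x)| + |B (I • x) (I • y)| + |B (I • x) (I • x)|) := by
        refine (abs_add_le _ _).trans (add_le_add ?_ ?_)
        · exact (abs_add_le _ _).trans (add_le_add (abs_add_le _ _) le_rfl)
        · exact (abs_add_le _ _).trans (add_le_add (abs_add_le _ _) le_rfl)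
    _ ≤ (‖B‖ * ‖y‖ * ‖x‖ + ‖B‖ * ‖x‖ * ‖y‖ + ‖B‖ * ‖x‖ * ‖x‖)
        + (‖B‖ * ‖y‖ * ‖x‖ + ‖B‖ * ‖x‖ * ‖y‖ + ‖B‖ * ‖x‖ * ‖x‖) := by
        gcongr
    _ = ‖B‖ * (4 * ‖y‖ * ‖x‖ + 2 * ‖x‖ ^ 2) := by ring

end LeviC

open LeviC in
theorem iC2 {r : E → ℝ} (hr : ContDiff ℝ ((⊤ : ℕ∞) : WithTop ℕ∞) r) (h0 : r 0 = 0)
    (hd : fderiv ℝ r 0 ≠ 0) {U : Set E} (hU : IsOpen U) (h0U : (0 : E) ∈ U)
    (hpsc : ∀ q ∈ U, r q = 0 → ∀ v, fderiv ℝ r q v = 0 → fderiv ℝ r q (I • v) = 0 →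
      0 ≤ Lev r q v) :
    ∃ C > 0, ∃ ρ > 0, ∀ z ∈ ball (0 : E) ρ, ∀ v,
      -(C * (|r z| * ‖v‖ ^ 2 + Real.sqrt (Nm r z v) * ‖v‖)) ≤ Lev r z v := by
  obtain ⟨n, hn⟩ : ∃ n, fderiv ℝ r 0 n = 1 := by
    obtain ⟨m, hm⟩ : ∃ m, fderiv ℝ r 0 m ≠ 0 := by
      by_contra h; push Not at h; exact hd (ContinuousLinearMap.ext h)
    exact ⟨(fderiv ℝ r 0 m)⁻¹ • m, by rw [map_smul, smul_eq_mul, inv_mul_cancel₀ hm]⟩
  have hr1 : ContDiff ℝ ((⊤ : ℕ∞) : WithTop ℕ∞) (fderiv ℝ r) := hr.fderiv_right (by simp)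
  have hr2 : ContDiff ℝ ((⊤ : ℕ∞) : WithTop ℕ∞) (fderiv ℝ (fderiv ℝ r)) :=
    hr1.fderiv_right (by simp)
  have hone : (1 : WithTop ℕ∞) ≤ ((⊤ : ℕ∞) : WithTop ℕ∞) :=
    WithTop.coe_le_coe.mpr (le_top : (1 : ℕ∞) ≤ ⊤)
  obtain ⟨L1, t1, ht1, hL1⟩ := (hr1.of_le hone).contDiffAt.exists_lipschitzOnWith (x := (0 : E))
  obtain ⟨L2, t2, ht2, hL2⟩ := (hr2.of_le hone).contDiffAt.exists_lipschitzOnWith (x := (0 : E))
  obtain ⟨M, hM⟩ : ∃ M, M = ‖fderiv ℝ r 0‖ + 1 := ⟨_, rfl⟩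
  obtain ⟨M2, hM2⟩ : ∃ M2, M2 = ‖fderiv ℝ (fderiv ℝ r) 0‖ + 1 := ⟨_, rfl⟩
  have hM0 : 0 < M := by rw [hM]; positivity
  have hM20 : 0 < M2 := by rw [hM2]; positivity
  have ev1 : ∀ᶠ y in 𝓝 (0 : E), 1 / 2 ≤ fderiv ℝ r y n := by
    have hc : ContinuousAt (fun y => fderiv ℝ r y n) 0 :=
      (hr1.continuous.clm_apply continuous_const).continuousAt
    have : (1 / 2 : ℝ) < (fun y => fderiv ℝ r y n) 0 := by simp only [hn]; norm_num
    filter_upwards [hc.eventually (lt_mem_nhds this)] with y hy using hy.le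
  have ev2 : ∀ᶠ y in 𝓝 (0 : E), ‖fderiv ℝ r y‖ ≤ M := by
    have hc : ContinuousAt (fun y => ‖fderiv ℝ r y‖) 0 := (hr1.continuous.norm).continuousAt
    have : (fun y => ‖fderiv ℝ r y‖) 0 < M := by simp only [hM]; linarith
    filter_upwards [hc.eventually (gt_mem_nhds this)] with y hy using hy.le
  have ev3 : ∀ᶠ y in 𝓝 (0 : E), ‖fderiv ℝ (fderiv ℝ r) y‖ ≤ M2 := by
    have hpos : (0 : ℝ) < 1 / ((L2 : ℝ) + 1) := by positivity
    filter_upwards [ht2, ball_mem_nhds (0 : E) hpos] with y hyt hyb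
    have h1 : ‖fderiv ℝ (fderiv ℝ r) y - fderiv ℝ (fderiv ℝ r) 0‖ ≤ L2 * ‖y - 0‖ := by
      have := hL2.dist_le_mul y hyt 0 (mem_of_mem_nhds ht2)
      rwa [dist_eq_norm, dist_eq_norm] at this
    rw [mem_ball, dist_zero_right, lt_div_iff₀ (by positivity)] at hyb
    rw [sub_zero] at h1
    have h2 : (L2 : ℝ) * ‖y‖ ≤ 1 := by linarith [norm_nonneg y]
    have h3 : fderiv ℝ (fderiv ℝ r) y
        = fderiv ℝ (fderiv ℝ r) 0 + (fderiv ℝ (fderiv ℝ r) y - fderiv ℝ (fderiv ℝ r) 0) := by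
      abel
    have h4 : ∀ A B : E →L[ℝ] E →L[ℝ] ℝ, ‖A + B‖ ≤ ‖A‖ + ‖B‖ := fun A B => norm_add_le A B
    rw [h3, hM2]
    refine (h4 _ _).trans ?_
    linarith
  obtain ⟨ρ0, hρ0, hall⟩ := Metric.eventually_nhds_iff_ball.mp
    (((ev1.and ev2).and ev3).and
      ((Filter.Eventually.and (show ∀ᶠ y in 𝓝 (0 : E), y ∈ t1 from ht1)
        (show ∀ᶠ y in 𝓝 (0 : E), y ∈ t2 from ht2)).and (hU.mem_nhds h0U)))
  -- smallness of `r`
  have ev4 : ∀ᶠ z in 𝓝 (0 : E), 2 * |r z| * (‖n‖ + 1) < ρ0 / 2 := by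
    have hc : ContinuousAt (fun z => 2 * |r z| * (‖n‖ + 1)) 0 :=
      ((continuous_const.mul (hr.continuous.abs)).mul continuous_const).continuousAt
    have : (fun z => 2 * |r z| * (‖n‖ + 1)) 0 < ρ0 / 2 := by simp [h0, hρ0]
    exact hc.eventually (gt_mem_nhds this)
  obtain ⟨ρ1, hρ1, hall1⟩ := Metric.eventually_nhds_iff_ball.mp ev4
  obtain ⟨nn, hnn⟩ : ∃ nn, nn = ‖n‖ := ⟨_, rfl⟩
  have hnn0 : 0 ≤ nn := by rw [hnn]; exact norm_nonneg n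
  obtain ⟨C1, hC1⟩ : ∃ C1, C1 = M2 * (4 + 24 * M * nn) * (2 * nn) := ⟨_, rfl⟩
  have hC10 : 0 ≤ C1 := by rw [hC1]; positivity
  obtain ⟨C, hC⟩ : ∃ C, C = 4 * (L2 : ℝ) * nn + 4 * C1 * (L1 : ℝ) * nn + C1 + 1 := ⟨_, rfl⟩
  refine ⟨C, by rw [hC]; positivity, min (ρ0 / 2) ρ1, lt_min (by positivity) hρ1, ?_⟩
  intro z hz v
  have hz0 : ‖z‖ < ρ0 / 2 := by
    rw [mem_ball, dist_zero_right] at hz; exact hz.trans_le (min_le_left _ _)
  have hz1 : 2 * |r z| * (‖n‖ + 1) < ρ0 / 2 := hall1 z (ball_subset_ball (min_le_right _ _) hz)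
  -- points on the segment
  have hseg : ∀ t : ℝ, |t| ≤ 2 * |r z| → z + t • n ∈ ball (0 : E) ρ0 := by
    intro t ht
    rw [mem_ball, dist_zero_right]
    calc ‖z + t • n‖ ≤ ‖z‖ + ‖t • n‖ := norm_add_le _ _
      _ = ‖z‖ + |t| * ‖n‖ := by rw [norm_smul, Real.norm_eq_abs]
      _ ≤ ‖z‖ + 2 * |r z| * ‖n‖ := by gcongr
      _ ≤ ‖z‖ + 2 * |r z| * (‖n‖ + 1) := by gcongr; linarith
      _ < ρ0 := by linarith
  have hφd : ∀ t : ℝ, HasDerivAt (fun t : ℝ => r (z + t • n)) (fderiv ℝ r (z + t • n) n) t := by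
    intro t
    have h1 : HasDerivAt (fun t : ℝ => z + t • n) n t := by
      simpa using ((hasDerivAt_id t).smul_const n).const_add z
    exact ((hr.differentiable (by simp)) (z + t • n)).hasFDerivAt.comp_hasDerivAt t h1
  have hφc : Continuous (fun t : ℝ => r (z + t • n)) :=
    hr.continuous.comp (by fun_prop)
  obtain ⟨T, hT⟩ : ∃ T, T = 2 * |r z| := ⟨_, rfl⟩
  have hT0 : 0 ≤ T := by rw [hT]; positivity
  have hinc : ∀ s t : ℝ, -T ≤ s → s ≤ t → t ≤ T →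
      1 / 2 * (t - s) ≤ r (z + t • n) - r (z + s • n) := by
    intro s t hs hst ht
    refine (convex_Icc (-T) T).mul_sub_le_image_sub_of_le_deriv hφc.continuousOn
      (fun x hx => ((hφd x).differentiableAt).differentiableWithinAt) ?_ s
      ⟨hs, hst.trans ht⟩ t ⟨hs.trans hst, ht⟩ hst
    intro x hx
    rw [interior_Icc] at hx
    rw [(hφd x).deriv]
    exact (hall _ (hseg x (by rw [← hT, abs_le]; exact ⟨hx.1.le, hx.2.le⟩))).1.1.1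
  obtain ⟨t, htT, htr⟩ : ∃ t : ℝ, |t| ≤ T ∧ r (z + t • n) = 0 := by
    have h1 := hinc 0 T (by linarith) hT0 le_rfl
    have h2 := hinc (-T) 0 le_rfl (by linarith) hT0
    simp only [zero_smul, add_zero, sub_zero] at h1 h2
    have hup : 0 ≤ r (z + T • n) := by
      have := neg_abs_le (r z); rw [hT] at h1 ⊢; linarith
    have hlo : r (z + (-T) • n) ≤ 0 := by
      have := le_abs_self (r z); rw [hT] at h2 ⊢; linarith
    obtain ⟨t, ht, ht0⟩ := intermediate_value_Icc (by linarith : -T ≤ T) hφc.continuousOn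
      ⟨hlo, hup⟩
    exact ⟨t, abs_le.mpr ht, ht0⟩
  obtain ⟨q, hq⟩ : ∃ q, q = z + t • n := ⟨_, rfl⟩
  have hqb : q ∈ ball (0 : E) ρ0 := by rw [hq]; exact hseg t (by rw [← hT]; exact htT)
  have hzb : z ∈ ball (0 : E) ρ0 := by rw [mem_ball, dist_zero_right]; linarith
  obtain ⟨⟨⟨hq1, hq2⟩, hq3⟩, ⟨hqt1, hqt2⟩, hqU⟩ := hall q hqb
  obtain ⟨-, ⟨hzt1, hzt2⟩, -⟩ := hall z hzb
  have hrq : r q = 0 := by rw [hq]; exact htr
  have hzq : ‖z - q‖ ≤ 2 * |r z| * nn := by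
    have : z - q = -(t • n) := by rw [hq]; abel
    rw [this, norm_neg, norm_smul, Real.norm_eq_abs, hnn, ← hT]
    gcongr
  -- the tangential part
  set a := cl (fderiv ℝ r q) n with ha
  have han : 1 / 2 ≤ ‖a‖ := by
    have h1 : a.re = fderiv ℝ r q n := cl_re _ _
    have h2 : |a.re| ≤ ‖a‖ := Complex.abs_re_le_norm a
    rw [h1] at h2
    exact hq1.trans ((le_abs_self _).trans h2)
  have ha0 : a ≠ 0 := by
    intro h; rw [h, norm_zero] at han; linarith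
  obtain ⟨S, hS⟩ : ∃ S, S = ‖cl (fderiv ℝ r q) v‖ := ⟨_, rfl⟩
  have hS0 : 0 ≤ S := by rw [hS]; exact norm_nonneg _
  set lam := cl (fderiv ℝ r q) v / a with hlam
  have hlamn : ‖lam‖ ≤ 2 * S := by
    rw [hlam, norm_div, ← hS, div_le_iff₀ (by linarith)]
    calc S = 2 * S * (1 / 2) := by ring
      _ ≤ 2 * S * ‖a‖ := mul_le_mul_of_nonneg_left han (by linarith)
  set x := lam • n with hx
  set y := v - x with hy
  have hcy : cl (fderiv ℝ r q) y = 0 := by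
    rw [hy, cl_sub_apply, hx, cl_smul, ← ha, hlam, div_mul_cancel₀ _ ha0, sub_self]
  have hy1 : fderiv ℝ r q y = 0 := by rw [← cl_re, hcy]; rfl
  have hy2 : fderiv ℝ r q (I • y) = 0 := by
    have h1 := cl_im (fderiv ℝ r q) y
    rw [hcy] at h1
    simp only [zero_im] at h1
    linarith
  have hLy : 0 ≤ Lev r q y := hpsc q hqU hrq y hy1 hy2
  have hvy : v = y + x := by rw [hy]; abel
  have hxn : ‖x‖ ≤ 2 * S * nn := by
    rw [hx, norm_smul, hnn]; gcongr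
  have hSv : S ≤ 2 * M * ‖v‖ := by
    rw [hS]
    refine (norm_cl_le _ _).trans ?_
    gcongr
  have hyn : ‖y‖ ≤ ‖v‖ + ‖x‖ := by rw [hy]; exact norm_sub_le _ _
  have hvn : 0 ≤ ‖v‖ := norm_nonneg v
  have hxn0 : 0 ≤ ‖x‖ := norm_nonneg x
  have hpert : |Lev r q v - Lev r q y| ≤ C1 * (S * ‖v‖) := by
    have h1 := quad_perturb (fderiv ℝ (fderiv ℝ r) q) y x
    rw [← hvy] at h1
    have h2 : ‖fderiv ℝ (fderiv ℝ r) q‖ * (4 * ‖y‖ * ‖x‖ + 2 * ‖x‖ ^ 2)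
        ≤ M2 * (4 * (‖v‖ + ‖x‖) * ‖x‖ + 2 * ‖x‖ ^ 2) := by gcongr
    have h3 : ‖x‖ ≤ 4 * M * nn * ‖v‖ := by
      calc ‖x‖ ≤ 2 * S * nn := hxn
        _ ≤ 2 * (2 * M * ‖v‖) * nn := by gcongr
        _ = 4 * M * nn * ‖v‖ := by ring
    have h4 : 4 * (‖v‖ + ‖x‖) * ‖x‖ + 2 * ‖x‖ ^ 2 ≤ (4 + 24 * M * nn) * ‖v‖ * ‖x‖ := by
      have h5 : 6 * ‖x‖ * ‖x‖ ≤ 6 * (4 * M * nn * ‖v‖) * ‖x‖ := by gcongr
      have h5' : 4 * (‖v‖ + ‖x‖) * ‖x‖ + 2 * ‖x‖ ^ 2 = 4 * ‖v‖ * ‖x‖ + 6 * ‖x‖ * ‖x‖ := by ring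
      have h5'' : (4 + 24 * M * nn) * ‖v‖ * ‖x‖
          = 4 * ‖v‖ * ‖x‖ + 6 * (4 * M * nn * ‖v‖) * ‖x‖ := by ring
      rw [h5', h5'']
      exact add_le_add le_rfl h5
    have h6 : (4 + 24 * M * nn) * ‖v‖ * ‖x‖ ≤ (4 + 24 * M * nn) * ‖v‖ * (2 * S * nn) := by
      gcongr
    calc |Lev r q v - Lev r q y| ≤ _ := h1
      _ ≤ M2 * (4 * (‖v‖ + ‖x‖) * ‖x‖ + 2 * ‖x‖ ^ 2) := h2
      _ ≤ M2 * ((4 + 24 * M * nn) * ‖v‖ * (2 * S * nn)) := by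
          gcongr; exact h4.trans h6
      _ = C1 * (S * ‖v‖) := by rw [hC1]; ring
  have hSz : S ≤ Real.sqrt (Nm r z v) + 4 * (L1 : ℝ) * nn * |r z| * ‖v‖ := by
    have h1 : ‖fderiv ℝ r q - fderiv ℝ r z‖ ≤ L1 * ‖q - z‖ := by
      have := hL1.dist_le_mul q hqt1 z hzt1
      rwa [dist_eq_norm, dist_eq_norm] at this
    have h2 := norm_cl_sub_le (fderiv ℝ r q) (fderiv ℝ r z) v
    have h3 : S ≤ ‖cl (fderiv ℝ r z) v‖ + ‖cl (fderiv ℝ r q) v - cl (fderiv ℝ r z) v‖ := by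
      rw [hS]
      have := norm_add_le (cl (fderiv ℝ r z) v) (cl (fderiv ℝ r q) v - cl (fderiv ℝ r z) v)
      simpa using this
    rw [norm_cl_eq r z v] at h3
    have h4 : ‖q - z‖ ≤ 2 * |r z| * nn := by rw [norm_sub_rev]; exact hzq
    have h5 : 2 * ‖fderiv ℝ r q - fderiv ℝ r z‖ * ‖v‖ ≤ 2 * (L1 * (2 * |r z| * nn)) * ‖v‖ := by
      have : ‖fderiv ℝ r q - fderiv ℝ r z‖ ≤ L1 * (2 * |r z| * nn) :=
        h1.trans (mul_le_mul_of_nonneg_left h4 L1.coe_nonneg)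
      gcongr
    calc S ≤ _ := h3
      _ ≤ Real.sqrt (Nm r z v) + 2 * (L1 * (2 * |r z| * nn)) * ‖v‖ := by linarith
      _ = _ := by ring
  have hzL : |Lev r z v - Lev r q v| ≤ 4 * (L2 : ℝ) * nn * |r z| * ‖v‖ ^ 2 := by
    have h1 : ‖fderiv ℝ (fderiv ℝ r) z - fderiv ℝ (fderiv ℝ r) q‖ ≤ L2 * ‖z - q‖ := by
      have := hL2.dist_le_mul z hzt2 q hqt2
      rwa [dist_eq_norm, dist_eq_norm] at this
    have h2 : ‖fderiv ℝ (fderiv ℝ r) z - fderiv ℝ (fderiv ℝ r) q‖ ≤ L2 * (2 * |r z| * nn) :=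
      h1.trans (mul_le_mul_of_nonneg_left hzq L2.coe_nonneg)
    have h3 : Lev r z v - Lev r q v
        = (fderiv ℝ (fderiv ℝ r) z - fderiv ℝ (fderiv ℝ r) q) v v
          + (fderiv ℝ (fderiv ℝ r) z - fderiv ℝ (fderiv ℝ r) q) (I • v) (I • v) := by
      unfold Lev
      simp only [sub_apply]
      ring
    have h4 := (fderiv ℝ (fderiv ℝ r) z - fderiv ℝ (fderiv ℝ r) q).le_opNorm₂ v v
    have h5 := (fderiv ℝ (fderiv ℝ r) z - fderiv ℝ (fderiv ℝ r) q).le_opNorm₂ (I • v) (I • v)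
    rw [norm_smul, norm_I, one_mul] at h5
    rw [Real.norm_eq_abs] at h4 h5
    rw [h3]
    calc _ ≤ _ := abs_add_le _ _
      _ ≤ 2 * ‖fderiv ℝ (fderiv ℝ r) z - fderiv ℝ (fderiv ℝ r) q‖ * ‖v‖ * ‖v‖ := by linarith
      _ ≤ 2 * (L2 * (2 * |r z| * nn)) * ‖v‖ * ‖v‖ := by gcongr
      _ = _ := by ring
  have e1 := (abs_le.mp hpert).1
  have e2 := (abs_le.mp hzL).1
  have e3 : C1 * (S * ‖v‖) ≤ C1 * ((Real.sqrt (Nm r z v) + 4 * (L1 : ℝ) * nn * |r z| * ‖v‖) * ‖v‖) :=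
    by gcongr
  have e4 : C * (|r z| * ‖v‖ ^ 2 + Real.sqrt (Nm r z v) * ‖v‖)
      = 4 * (L2 : ℝ) * nn * |r z| * ‖v‖ ^ 2
        + C1 * ((Real.sqrt (Nm r z v) + 4 * (L1 : ℝ) * nn * |r z| * ‖v‖) * ‖v‖)
        + ((C1 + 1) * (|r z| * ‖v‖ ^ 2)
          + (4 * (L2 : ℝ) * nn + 4 * C1 * (L1 : ℝ) * nn + 1)
            * (Real.sqrt (Nm r z v) * ‖v‖)) := by
    rw [hC]; ring
  have e5 : 0 ≤ (C1 + 1) * (|r z| * ‖v‖ ^ 2)
          + (4 * (L2 : ℝ) * nn + 4 * C1 * (L1 : ℝ) * nn + 1)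
            * (Real.sqrt (Nm r z v) * ‖v‖) := by positivity
  linarith

end cl


end Pool.Agent.Sqz
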