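import Pool.Agent.Work.MP_0e9e72_an.E6c

/-! # Block E6: sequential limits, Levi form -/

set_option autoImplicit false
set_option linter.unusedSectionVars false

open Complex Metric Set Filter Topology
open scoped ContDiff

namespace Pool.Agent.Sqz

theorem E6.tendsto_fderiv_apply {E W : Type*} [NormedAddCommGroup E] [NormedSpace ℂ E]
    [NormedAddCommGroup W] [NormedSpace ℝ W] {H : E → W}
    (hH : ContDiff ℝ ∞ H) {P x : ℕ → E} {x' : E} (hP : Tendsto P atTop (𝓝 0))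
    (hx : Tendsto x atTop (𝓝 x')) :
    Tendsto (fun n => fderiv ℝ H (P n) (x n)) atTop (𝓝 (fderiv ℝ H 0 x')) := by
  have hr3 : Continuous (fderiv ℝ H) := hH.continuous_fderiv (by simp)
  exact tendsto_clm ((hr3.tendsto 0).comp hP) hx

section
variable {E : Type} [NormedAddCommGroup E] [InnerProductSpace ℂ E] [FiniteDimensional ℂ E]
variable {Φ : Frame E} {D : Set E} {r : E → ℝ} {U : Set E} {N : ℕ}
variable {b : ℕ → E} {τ : ℕ → ℝ} {w : ℕ → ℂ → ℂ} {h : ℂ → ℝ} {q : ℂ → E →L[ℝ] ℝ}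

namespace E6

/-- polarised Levi form of a bilinear form -/
noncomputable def QQ (B : E →L[ℝ] E →L[ℝ] ℝ) (u v : E) : ℝ := B u v + B (I • u) (I • v)

theorem QQ_sub (B B' : E →L[ℝ] E →L[ℝ] ℝ) (u v : E) :
    QQ (B - B') u v = QQ B u v - QQ B' u v := by
  simp only [QQ, sub_apply]; ring

theorem QQ_le (B : E →L[ℝ] E →L[ℝ] ℝ) (u v : E) : |QQ B u v| ≤ 2 * ‖B‖ * ‖u‖ * ‖v‖ := by
  have h1 : |B u v| ≤ ‖B‖ * ‖u‖ * ‖v‖ := B.le_opNorm₂ u v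
  have h2 : |B (I • u) (I • v)| ≤ ‖B‖ * ‖u‖ * ‖v‖ := by
    have := B.le_opNorm₂ (I • u) (I • v)
    rw [norm_smul, norm_smul, Complex.norm_I, one_mul, one_mul] at this
    exact this
  calc |QQ B u v| ≤ |B u v| + |B (I • u) (I • v)| := abs_add_le _ _
    _ ≤ _ := by linarith

theorem tendsto_QQ {B : ℕ → E →L[ℝ] E →L[ℝ] ℝ} {B' : E →L[ℝ] E →L[ℝ] ℝ} {u v : ℕ → E} {u' v' : E}
    (hB : Tendsto B atTop (𝓝 B')) (hu : Tendsto u atTop (𝓝 u')) (hv : Tendsto v atTop (𝓝 v')) :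
    Tendsto (fun n => QQ (B n) (u n) (v n)) atTop (𝓝 (QQ B' u' v')) := by
  unfold QQ
  exact (tendsto_clm (tendsto_clm hB hu) hv).add
    (tendsto_clm (tendsto_clm hB (hu.const_smul I)) (hv.const_smul I))

/-- algebra for the Levi form -/
theorem lev_identity (B : E →L[ℝ] E →L[ℝ] ℝ) (T3 : E →L[ℝ] E →L[ℝ] E →L[ℝ] ℝ)
    (B' : E →L[ℝ] E →L[ℝ] ℝ) (hB' : ∀ u v, B' u v = B' v u)
    (Φ : Frame E) (z v u1 : E) {s : ℝ} (hs : 0 < s) :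
    QQ B' (u1 + s • YY Φ s v) (u1 + s • YY Φ s v) / s ^ 2 =
      QQ B u1 u1 / s ^ 2 + s⁻¹ * QQ (T3 (Φ.PW z)) u1 u1 + QQ (T3 (Φ.pw z • Φ.ew)) u1 u1 +
      2 * (s⁻¹ * QQ B u1 (Φ.PW v) + QQ B u1 (Φ.pw v • Φ.ew)) + QQ B' (YY Φ s v) (YY Φ s v) +
      QQ (B' - B - T3 (s • YY Φ s z)) u1 u1 / s ^ 2 + 2 * (s⁻¹ * QQ (B' - B) u1 (YY Φ s v)) := by
  have h1 : QQ B' (u1 + s • YY Φ s v) (u1 + s • YY Φ s v) =
      QQ B' u1 u1 + 2 * s * QQ B' u1 (YY Φ s v) + s ^ 2 * QQ B' (YY Φ s v) (YY Φ s v) := by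
    simp only [QQ, smul_add, smul_comm I s, map_add, map_smul, add_apply, smul_apply, smul_eq_mul]
    rw [hB' (YY Φ s v) u1, hB' (I • YY Φ s v) (I • u1)]
    ring
  have h2 : QQ B u1 (YY Φ s v) = QQ B u1 (Φ.PW v) + s * QQ B u1 (Φ.pw v • Φ.ew) := by
    rw [YY_eq]
    simp only [QQ, smul_add, smul_comm I s, map_add, map_smul, smul_eq_mul]
    ring
  have h3 : QQ (T3 (s • YY Φ s z)) u1 u1 =
      s * QQ (T3 (Φ.PW z)) u1 u1 + s ^ 2 * QQ (T3 (Φ.pw z • Φ.ew)) u1 u1 := by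
    rw [YY_eq]
    simp only [QQ, smul_add, map_add, map_smul, add_apply, smul_apply, smul_eq_mul]
    ring
  rw [h1, QQ_sub, QQ_sub, QQ_sub, h3, h2]
  field_simp
  ring

theorem lev_core (hNF : NormalForm Φ D r U N) (S : ScLim Φ r b τ w h q)
    (z v : ℕ → E) (z' v' : E) (hz : Tendsto z atTop (𝓝 z')) (hv : Tendsto v atTop (𝓝 v')) :
    Tendsto (fun n => Lev r (Theta Φ (b n) (τ n) (-(r (b n))) (w n) (z n))
        (fderiv ℂ (Theta Φ (b n) (τ n) (-(r (b n))) (w n)) (z n) (v n)) / (-(r (b n)))) atTop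
      (𝓝 (‖Φ.p1 v'‖ ^ 2 * (Lev h (Φ.p1 z') 1 + Lev (fun ζ => q ζ z') (Φ.p1 z') 1)
        + 2 * (fderiv ℝ q (Φ.p1 z') (Φ.p1 v') v' + fderiv ℝ q (Φ.p1 z') (I * Φ.p1 v') (I • v'))
        + Lev r 0 (Φ.PW v'))) := by
  have hr : ContDiff ℝ ∞ r := hNF.smooth
  have hr1 : ContDiff ℝ ∞ (fderiv ℝ r) := hr.fderiv_right (by simp)
  have hr2 : ContDiff ℝ ∞ (fderiv ℝ (fderiv ℝ r)) := hr1.fderiv_right (by simp)
  set s : ℕ → ℝ := fun n => Real.sqrt (-(r (b n))) with hs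
  have hspos : ∀ n, 0 < s n := fun n => Real.sqrt_pos.2 (S.δpos n)
  have hsq : ∀ n, -(r (b n)) = s n ^ 2 := fun n => (Real.sq_sqrt (S.δpos n).le).symm
  set P : ℕ → E := fun n => PP Φ (b n) (τ n) (w n) (z n) with hPdef
  set u1 : ℕ → E := fun n => ((τ n : ℂ) * Φ.p1 (v n)) • TT Φ (τ n) (w n) (z n) with hu1def
  have hΘ : ∀ n, Theta Φ (b n) (τ n) (-(r (b n))) (w n) (z n) =
      P n + s n • YY Φ (s n) (z n) := fun n => Theta_eq _ (hsq n) (hspos n).le (z n)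
  have hdΘ : ∀ n, fderiv ℂ (Theta Φ (b n) (τ n) (-(r (b n))) (w n)) (z n) (v n) =
      u1 n + s n • YY Φ (s n) (v n) := fun n =>
    fderiv_Theta (S.wsm n) _ (hsq n) (hspos n).le (z n) (v n)
  have hP : Tendsto P atTop (𝓝 0) := lim_PP S hz
  have hY := lim_YY hNF S hz
  have hYv := lim_YY hNF S hv
  have hsY := lim_sY hNF S hz
  have hs0 := lim_s hNF S
  have hu1 : Tendsto u1 atTop (𝓝 0) := lim_u1 S hz hv
  have hζ : Tendsto (fun n => Φ.p1 (z n)) atTop (𝓝 (Φ.p1 z')) := (Φ.p1.continuous.tendsto _).comp hz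
  have hv1 : Tendsto (fun n => Φ.p1 (v n)) atTop (𝓝 (Φ.p1 v')) := (Φ.p1.continuous.tendsto _).comp hv
  have hIv1 : Tendsto (fun n => I * Φ.p1 (v n)) atTop (𝓝 (I * Φ.p1 v')) := hv1.const_mul I
  have hpwz : Tendsto (fun n => Φ.pw (z n) • Φ.ew) atTop (𝓝 (Φ.pw z' • Φ.ew)) :=
    ((Φ.pw.continuous.tendsto _).comp hz).smul_const Φ.ew
  have hpwv : Tendsto (fun n => Φ.pw (v n) • Φ.ew) atTop (𝓝 (Φ.pw v' • Φ.ew)) :=
    ((Φ.pw.continuous.tendsto _).comp hv).smul_const Φ.ew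
  have hD2 : Tendsto (fun n => fderiv ℝ (fderiv ℝ r) (P n)) atTop
      (𝓝 (fderiv ℝ (fderiv ℝ r) 0)) := (hr2.continuous.tendsto 0).comp hP
  have hPY : Tendsto (fun n => P n + s n • YY Φ (s n) (z n)) atTop (𝓝 0) := by
    have := hP.add hsY
    simpa only [add_zero] using this
  have hD2' : Tendsto (fun n => fderiv ℝ (fderiv ℝ r) (P n + s n • YY Φ (s n) (z n))) atTop
      (𝓝 (fderiv ℝ (fderiv ℝ r) 0)) := (hr2.continuous.tendsto 0).comp hPY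
  -- convergence of the one-variable data
  have hA2 : Tendsto (fun n => QQ (fderiv ℝ (fderiv ℝ r) (P n)) (u1 n) (u1 n) / s n ^ 2) atTop
      (𝓝 (‖Φ.p1 v'‖ ^ 2 * Lev h (Φ.p1 z') 1)) := by
    have h1 := (S.convA id (fun n => Φ.p1 (z n)) _ strictMono_id hζ).2.2
    have h2 := (tendsto_clm (tendsto_clm h1 hv1) hv1).add
      (tendsto_clm (tendsto_clm h1 hIv1) hIv1)
    have h3 : fderiv ℝ (fun ζ => -1 + h ζ) = fderiv ℝ h := by
      funext ζ; exact fderiv_const_add _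
    rw [h3] at h2
    have h4 : fderiv ℝ (fderiv ℝ h) (Φ.p1 z') (Φ.p1 v') (Φ.p1 v') +
        fderiv ℝ (fderiv ℝ h) (Φ.p1 z') (I * Φ.p1 v') (I * Φ.p1 v') =
        ‖Φ.p1 v'‖ ^ 2 * Lev h (Φ.p1 z') 1 := by
      rw [← Lev_one_var S.hsm]; rfl
    rw [h4] at h2
    refine Tendsto.congr (fun n => ?_) h2
    rw [← hsq n]
    exact Lev_A hr (S.wsm n) (-(r (b n))) (z n) (Φ.p1 (v n))
  have hBsm : ∀ n, ContDiff ℝ ∞ (fun ζ : ℂ => (s n)⁻¹ •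
      ((fderiv ℝ r (Crv Φ (b n) (w n) ((τ n : ℂ) * ζ))).comp (Φ.PW.restrictScalars ℝ))) := by
    intro n
    have e1 : ContDiff ℝ ∞ (fun ζ : ℂ => Crv Φ (b n) (w n) ((τ n : ℂ) * ζ)) :=
      (contDiff_gam (S.wsm n)).restrict_scalars ℝ
    exact ((hr1.comp e1).clm_comp contDiff_const).const_smul _
  have hB2 : Tendsto (fun n => (s n)⁻¹ *
      QQ (fderiv ℝ (fderiv ℝ (fderiv ℝ r)) (P n) (Φ.PW (z n))) (u1 n) (u1 n)) atTop
      (𝓝 (‖Φ.p1 v'‖ ^ 2 * Lev (fun ζ => q ζ z') (Φ.p1 z') 1)) := by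
    have h1 := (S.convB id (fun n => Φ.p1 (z n)) _ strictMono_id hζ).2.2
    have h2 := (tendsto_clm (tendsto_clm (tendsto_clm h1 hv1) hv1) hz).add
      (tendsto_clm (tendsto_clm (tendsto_clm h1 hIv1) hIv1) hz)
    have h4 : fderiv ℝ (fderiv ℝ q) (Φ.p1 z') (Φ.p1 v') (Φ.p1 v') z' +
        fderiv ℝ (fderiv ℝ q) (Φ.p1 z') (I * Φ.p1 v') (I * Φ.p1 v') z' =
        ‖Φ.p1 v'‖ ^ 2 * Lev (fun ζ => q ζ z') (Φ.p1 z') 1 := by
      rw [← Lev_apply S.qsm, Lev_one_var (S.qsm.clm_apply contDiff_const)]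
    rw [h4] at h2
    refine Tendsto.congr (fun n => ?_) h2
    have h5 := Lev_B (b := b n) (τ := τ n) hr (S.wsm n) (s n) (z n) (z n) (Φ.p1 (v n)) (Φ := Φ)
    have h6 := Lev_apply (hBsm n) (z n) (Φ.p1 (z n)) (Φ.p1 (v n))
    exact h6.symm.trans h5
  have hB1 : Tendsto (fun n => (s n)⁻¹ * QQ (fderiv ℝ (fderiv ℝ r) (P n)) (u1 n) (Φ.PW (v n)))
      atTop (𝓝 (fderiv ℝ q (Φ.p1 z') (Φ.p1 v') v' +
        fderiv ℝ q (Φ.p1 z') (I * Φ.p1 v') (I • v'))) := by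
    have h1 := (S.convB id (fun n => Φ.p1 (z n)) _ strictMono_id hζ).2.1
    have h2 := (tendsto_clm (tendsto_clm h1 hv1) hv).add
      (tendsto_clm (tendsto_clm h1 hIv1) (hv.const_smul I))
    refine Tendsto.congr (fun n => ?_) h2
    have e1 := fderiv_B (b := b n) (τ := τ n) hr (S.wsm n) (s n) (z n) (v n) (Φ.p1 (v n)) (Φ := Φ)
    have e2 := fderiv_B (b := b n) (τ := τ n) hr (S.wsm n) (s n) (z n) (I • v n)
      (I * Φ.p1 (v n)) (Φ := Φ)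
    have e3 : ((τ n : ℂ) * (I * Φ.p1 (v n))) • TT Φ (τ n) (w n) (z n) = I • u1 n := by
      rw [hu1def, smul_smul]; congr 1; ring
    rw [e3, Φ.PW.map_smul I (v n)] at e2
    refine (congrArg₂ (· + ·) e1 e2).trans ?_
    simp only [QQ, mul_add]
    rfl
  have hX1 : Tendsto (fun n => QQ (fderiv ℝ (fderiv ℝ (fderiv ℝ r)) (P n) (Φ.pw (z n) • Φ.ew))
      (u1 n) (u1 n)) atTop (𝓝 0) := by
    have h1 := tendsto_fderiv_apply hr2 hP hpwz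
    have h2 := tendsto_QQ h1 hu1 hu1
    simpa [QQ] using h2
  have hX2 : Tendsto (fun n => QQ (fderiv ℝ (fderiv ℝ r) (P n)) (u1 n) (Φ.pw (v n) • Φ.ew)) atTop
      (𝓝 0) := by
    have := tendsto_QQ hD2 hu1 hpwv
    simpa [QQ] using this
  have hYY : Tendsto (fun n => QQ (fderiv ℝ (fderiv ℝ r) (P n + s n • YY Φ (s n) (z n)))
      (YY Φ (s n) (v n)) (YY Φ (s n) (v n))) atTop (𝓝 (Lev r 0 (Φ.PW v'))) := by
    have := tendsto_QQ hD2' hYv hYv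
    exact this
  -- error terms
  obtain ⟨C, hC, ρ, hρ, hT⟩ := taylor_bounds hr2
  have hPs : ∀ᶠ n in atTop, ‖P n‖ < ρ := by
    have := hP.norm
    rw [norm_zero] at this
    exact this.eventually_lt_const hρ
  have hYs : ∀ᶠ n in atTop, ‖s n • YY Φ (s n) (z n)‖ < ρ := by
    have := hsY.norm
    rw [norm_zero] at this
    exact this.eventually_lt_const hρ
  have hE1 : Tendsto (fun n => QQ (fderiv ℝ (fderiv ℝ r) (P n + s n • YY Φ (s n) (z n)) -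
      fderiv ℝ (fderiv ℝ r) (P n) -
      fderiv ℝ (fderiv ℝ (fderiv ℝ r)) (P n) (s n • YY Φ (s n) (z n))) (u1 n) (u1 n) / s n ^ 2)
      atTop (𝓝 0) := by
    have hbound : Tendsto (fun n => 2 * C * (‖YY Φ (s n) (z n)‖ ^ 2 * (‖u1 n‖ * ‖u1 n‖)))
        atTop (𝓝 0) := by
      have := ((hY.norm.pow 2).mul (hu1.norm.mul hu1.norm)).const_mul (2 * C)
      simpa using this
    refine squeeze_zero_norm' ?_ hbound
    filter_upwards [hPs, hYs] with n h1 h2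
    have h3 := (hT _ _ h1 h2).2
    have hs2 : 0 < s n ^ 2 := pow_pos (hspos n) 2
    rw [norm_div, Real.norm_of_nonneg hs2.le, div_le_iff₀ hs2, Real.norm_eq_abs]
    refine (QQ_le _ _ _).trans ?_
    calc 2 * ‖fderiv ℝ (fderiv ℝ r) (P n + s n • YY Φ (s n) (z n)) -
      fderiv ℝ (fderiv ℝ r) (P n) -
      fderiv ℝ (fderiv ℝ (fderiv ℝ r)) (P n) (s n • YY Φ (s n) (z n))‖ * ‖u1 n‖ * ‖u1 n‖
        ≤ 2 * (C * ‖s n • YY Φ (s n) (z n)‖ ^ 2) * ‖u1 n‖ * ‖u1 n‖ := by gcongr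
      _ = _ := by
          rw [norm_smul, Real.norm_of_nonneg (hspos n).le]; ring
  have hE2 : Tendsto (fun n => (s n)⁻¹ *
      QQ (fderiv ℝ (fderiv ℝ r) (P n + s n • YY Φ (s n) (z n)) - fderiv ℝ (fderiv ℝ r) (P n))
        (u1 n) (YY Φ (s n) (v n))) atTop (𝓝 0) := by
    have hbound : Tendsto (fun n => 2 * C * (‖YY Φ (s n) (z n)‖ * (‖u1 n‖ *
        ‖YY Φ (s n) (v n)‖))) atTop (𝓝 0) := by
      have := (hY.norm.mul (hu1.norm.mul hYv.norm)).const_mul (2 * C)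
      simpa using this
    refine squeeze_zero_norm' ?_ hbound
    filter_upwards [hPs, hYs] with n h1 h2
    have h3 := (hT _ _ h1 h2).1
    rw [norm_mul, norm_inv, Real.norm_of_nonneg (hspos n).le, inv_mul_le_iff₀ (hspos n),
      Real.norm_eq_abs]
    refine (QQ_le _ _ _).trans ?_
    calc 2 * ‖fderiv ℝ (fderiv ℝ r) (P n + s n • YY Φ (s n) (z n)) -
      fderiv ℝ (fderiv ℝ r) (P n)‖ * ‖u1 n‖ * ‖YY Φ (s n) (v n)‖
        ≤ 2 * (C * ‖s n • YY Φ (s n) (z n)‖) * ‖u1 n‖ * ‖YY Φ (s n) (v n)‖ := by gcongr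
      _ = _ := by
          rw [norm_smul, Real.norm_of_nonneg (hspos n).le]; ring
  have hM := (((((hA2.add hB2).add hX1).add ((hB1.add hX2).const_mul 2)).add hYY).add hE1).add
    (hE2.const_mul 2)
  simp only [add_zero, mul_zero] at hM
  have hlim : ‖Φ.p1 v'‖ ^ 2 * Lev h (Φ.p1 z') 1 +
      ‖Φ.p1 v'‖ ^ 2 * Lev (fun ζ => q ζ z') (Φ.p1 z') 1 +
      2 * (fderiv ℝ q (Φ.p1 z') (Φ.p1 v') v' + fderiv ℝ q (Φ.p1 z') (I * Φ.p1 v') (I • v')) +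
      Lev r 0 (Φ.PW v') =
      ‖Φ.p1 v'‖ ^ 2 * (Lev h (Φ.p1 z') 1 + Lev (fun ζ => q ζ z') (Φ.p1 z') 1)
        + 2 * (fderiv ℝ q (Φ.p1 z') (Φ.p1 v') v' + fderiv ℝ q (Φ.p1 z') (I * Φ.p1 v') (I • v'))
        + Lev r 0 (Φ.PW v') := by ring
  rw [hlim] at hM
  refine hM.congr fun n => ?_
  have key := lev_identity (fderiv ℝ (fderiv ℝ r) (P n))
    (fderiv ℝ (fderiv ℝ (fderiv ℝ r)) (P n))
    (fderiv ℝ (fderiv ℝ r) (P n + s n • YY Φ (s n) (z n)))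
    (fun u v => sym2 hr _ u v) Φ (z n) (v n) (u1 n) (hspos n)
  rw [← key, hdΘ n, hΘ n, hsq n]
  rfl

end E6

/-- E6: sequential limits (value). -/
theorem e6_value (hNF : NormalForm Φ D r U N) (S : ScLim Φ r b τ w h q) (φ : ℕ → ℕ)
    (hφ : StrictMono φ) (z : ℕ → E) (z' : E) (hz : Tendsto z atTop (𝓝 z')) :
    Tendsto (fun n => Theta Φ (b (φ n)) (τ (φ n)) (-(r (b (φ n)))) (w (φ n)) (z n)) atTop (𝓝 0) ∧
    Tendsto (fun n => r (Theta Φ (b (φ n)) (τ (φ n)) (-(r (b (φ n)))) (w (φ n)) (z n)) /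
      (-(r (b (φ n))))) atTop
      (𝓝 (-1 + h (Φ.p1 z') + q (Φ.p1 z') z' + 1 / 2 * fderiv ℝ (fderiv ℝ r) 0 (Φ.PW z') (Φ.PW z')
        + (Φ.pw z').re)) :=
  E6.value_core hNF (S.subseq hφ) z z' hz

/-- E6: sequential limits (first derivative). -/
theorem e6_deriv (hNF : NormalForm Φ D r U N) (S : ScLim Φ r b τ w h q) (φ : ℕ → ℕ)
    (hφ : StrictMono φ) (z v : ℕ → E) (z' v' : E) (hz : Tendsto z atTop (𝓝 z'))
    (hv : Tendsto v atTop (𝓝 v')) :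
    Tendsto (fun n => fderiv ℝ r
        (Theta Φ (b (φ n)) (τ (φ n)) (-(r (b (φ n)))) (w (φ n)) (z n))
        (fderiv ℂ (Theta Φ (b (φ n)) (τ (φ n)) (-(r (b (φ n)))) (w (φ n))) (z n) (v n)) /
      (-(r (b (φ n))))) atTop
      (𝓝 (fderiv ℝ h (Φ.p1 z') (Φ.p1 v') + fderiv ℝ q (Φ.p1 z') (Φ.p1 v') z' + q (Φ.p1 z') v'
        + fderiv ℝ (fderiv ℝ r) 0 (Φ.PW z') (Φ.PW v') + (Φ.pw v').re)) :=
  (E6.deriv_core hNF (S.subseq hφ) z v z' v' hz hv).2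

/-- E6: sequential limits (Levi form). -/
theorem e6_lev (hNF : NormalForm Φ D r U N) (S : ScLim Φ r b τ w h q) (φ : ℕ → ℕ)
    (hφ : StrictMono φ) (z v : ℕ → E) (z' v' : E) (hz : Tendsto z atTop (𝓝 z'))
    (hv : Tendsto v atTop (𝓝 v')) :
    Tendsto (fun n => fderiv ℂ (Theta Φ (b (φ n)) (τ (φ n)) (-(r (b (φ n)))) (w (φ n))) (z n) (v n))
      atTop (𝓝 0) ∧
    Tendsto (fun n => Lev r
        (Theta Φ (b (φ n)) (τ (φ n)) (-(r (b (φ n)))) (w (φ n)) (z n))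
        (fderiv ℂ (Theta Φ (b (φ n)) (τ (φ n)) (-(r (b (φ n)))) (w (φ n))) (z n) (v n)) /
      (-(r (b (φ n))))) atTop
      (𝓝 (‖Φ.p1 v'‖ ^ 2 * (Lev h (Φ.p1 z') 1 + Lev (fun ζ => q ζ z') (Φ.p1 z') 1)
        + 2 * (fderiv ℝ q (Φ.p1 z') (Φ.p1 v') v' + fderiv ℝ q (Φ.p1 z') (I * Φ.p1 v') (I • v'))
        + Lev r 0 (Φ.PW v'))) :=
  ⟨(E6.deriv_core hNF (S.subseq hφ) z v z' v' hz hv).1,
    E6.lev_core hNF (S.subseq hφ) z v z' v' hz hv⟩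

end

end Pool.Agent.Sqz
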