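import Pool.Agent.Work.MP_0e9e72_an.Defs

/-!
# MP_0e9e72_an, block E, part 1: analysis tools

* smoothness of parametric integrals,
* second order Taylor formula,
* `Null K f`: all derivatives of order `≤ K` of the sequence `f n` tend to `0` locally uniformly,
* compactness for sequences with `D^(N+1) → 0` and bounded derivatives at `0`.
-/

set_option autoImplicit false

open Complex Metric Set Filter Topology
open scoped ContDiff

namespace Pool.Agent.Sqz

universe u

section param
variable {X : Type u} [NormedAddCommGroup X] [NormedSpace ℝ X] [FiniteDimensional ℝ X]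

theorem contDiff_integral_aux (n : ℕ) : ∀ (F : Type u) [NormedAddCommGroup F]
    [NormedSpace ℝ F] [CompleteSpace F] (k : X × ℝ → F), ContDiff ℝ ∞ k →
    ContDiff ℝ n (fun x => ∫ s in (0 : ℝ)..1, k (x, s)) := by
  have : ProperSpace X := FiniteDimensional.proper ℝ X
  induction n with
  | zero =>
    intro F _ _ _ k hk
    rw [Nat.cast_zero, contDiff_zero]
    refine intervalIntegral.continuous_parametric_intervalIntegral_of_continuous' ?_ 0 1
    exact hk.continuous
  | succ n ih =>
    intro F _ _ _ k hk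
    have hk1 : ContDiff ℝ ∞ (fderiv ℝ k) := hk.fderiv_right (by simp)
    set k' : X × ℝ → (X →L[ℝ] F) := fun p => (fderiv ℝ k p).comp (ContinuousLinearMap.inl ℝ X ℝ)
      with hk'
    have hk'c : ContDiff ℝ ∞ k' := hk1.clm_comp contDiff_const
    rw [Nat.cast_add, Nat.cast_one, contDiff_succ_iff_hasFDerivAt]
    refine ⟨fun x => ∫ s in (0 : ℝ)..1, k' (x, s), ih (X →L[ℝ] F) k' hk'c, fun x₀ => ?_⟩
    have hcomp : IsCompact (closedBall x₀ 1 ×ˢ Icc (0 : ℝ) 1) :=
      (isCompact_closedBall x₀ 1).prod isCompact_Icc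
    obtain ⟨C, hC⟩ := hcomp.exists_bound_of_continuousOn hk'c.continuous.continuousOn
    refine intervalIntegral.hasFDerivAt_integral_of_dominated_of_fderiv_le
      (F := fun x s => k (x, s)) (F' := fun x s => k' (x, s)) (bound := fun _ => C)
      (s := closedBall x₀ 1) (closedBall_mem_nhds x₀ one_pos) ?_ ?_ ?_ ?_ ?_ ?_
    · refine Eventually.of_forall fun x => ?_
      exact (hk.continuous.comp (by fun_prop : Continuous fun s : ℝ => (x, s))).aestronglyMeasurable
    · exact (hk.continuous.comp (by fun_prop : Continuous fun s : ℝ => (x₀, s))).intervalIntegrable _ _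
    · exact (hk'c.continuous.comp
        (by fun_prop : Continuous fun s : ℝ => (x₀, s))).aestronglyMeasurable
    · refine Eventually.of_forall fun s hs x hx => ?_
      refine hC (x, s) ⟨hx, ?_⟩
      rw [uIoc_of_le zero_le_one] at hs
      exact Ioc_subset_Icc_self hs
    · exact intervalIntegrable_const
    · refine Eventually.of_forall fun s _ x _ => ?_
      have h1 : HasFDerivAt k (fderiv ℝ k (x, s)) (x, s) :=
        (hk.differentiable (by simp) (x, s)).hasFDerivAt
      have h2 : HasFDerivAt (fun x : X => (x, s)) (ContinuousLinearMap.inl ℝ X ℝ) x :=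
        hasFDerivAt_prodMk_left x s
      exact h1.comp x h2

theorem contDiff_integral {F : Type u} [NormedAddCommGroup F]
    [NormedSpace ℝ F] [CompleteSpace F] {k : X × ℝ → F} (hk : ContDiff ℝ ∞ k) :
    ContDiff ℝ ∞ (fun x => ∫ s in (0 : ℝ)..1, k (x, s)) :=
  contDiff_infty.mpr fun n => contDiff_integral_aux n F k hk

end param

section taylor
variable {E : Type*} [NormedAddCommGroup E] [NormedSpace ℝ E]

theorem taylor2 {r : E → ℝ} (hr : ContDiff ℝ ∞ r) (c y : E) :
    r (c + y) = r c + fderiv ℝ r c y +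
      ∫ s in (0 : ℝ)..1, (1 - s) * fderiv ℝ (fderiv ℝ r) (c + s • y) y y := by
  have hr1 : ContDiff ℝ ∞ (fderiv ℝ r) := hr.fderiv_right (by simp)
  have hr2 : ContDiff ℝ ∞ (fderiv ℝ (fderiv ℝ r)) := hr1.fderiv_right (by simp)
  have hline : ∀ s : ℝ, HasDerivAt (fun s : ℝ => c + s • y) y s := fun s => by
    simpa using ((hasDerivAt_id s).smul_const y).const_add c
  have h1 : ∀ s : ℝ, HasDerivAt (fun s : ℝ => r (c + s • y)) (fderiv ℝ r (c + s • y) y) s :=
    fun s => (hr.differentiable (by simp) _).hasFDerivAt.comp_hasDerivAt s (hline s)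
  have h2 : ∀ s : ℝ, HasDerivAt (fun s : ℝ => fderiv ℝ r (c + s • y) y)
      (fderiv ℝ (fderiv ℝ r) (c + s • y) y y) s := by
    intro s
    have h := (hr1.differentiable (by simp) _).hasFDerivAt.comp_hasDerivAt s (hline s)
    simpa using h.clm_apply (hasDerivAt_const s y)
  have h3 : ∀ s : ℝ, HasDerivAt (fun s : ℝ => r (c + s • y) + (1 - s) * fderiv ℝ r (c + s • y) y)
      ((1 - s) * fderiv ℝ (fderiv ℝ r) (c + s • y) y y) s := by
    intro s
    have h4 : HasDerivAt (fun s : ℝ => 1 - s) (-1) s := by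
      simpa using (hasDerivAt_id s).const_sub 1
    have h5 := (h1 s).add (h4.mul (h2 s))
    refine h5.congr_deriv ?_
    ring
  have hcont : Continuous fun s : ℝ => (1 - s) * fderiv ℝ (fderiv ℝ r) (c + s • y) y y := by
    have := hr2.continuous
    fun_prop
  have h6 := intervalIntegral.integral_eq_sub_of_hasDerivAt (a := 0) (b := 1)
    (fun s _ => h3 s) (hcont.intervalIntegrable _ _)
  rw [h6]
  simp

end taylor

/-! ### Null sequences in `C^K_loc` -/

section null
variable {V : Type*} [NormedAddCommGroup V] [NormedSpace ℝ V]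
variable {F : Type*} [NormedAddCommGroup F] [NormedSpace ℝ F]

/-- all derivatives of order `≤ K` of the sequence `f n` tend to `0` locally uniformly. -/
def Null (K : ℕ) (f : ℕ → V → F) : Prop :=
  ∀ k ≤ K, ∀ R ε : ℝ, 0 < ε → ∀ᶠ n in atTop, ∀ z, ‖z‖ ≤ R → ‖iteratedFDeriv ℝ k (f n) z‖ ≤ ε

theorem Null.add {K : ℕ} {f g : ℕ → V → F} (hf : Null K f) (hg : Null K g)
    (hf' : ∀ n, ContDiff ℝ ∞ (f n)) (hg' : ∀ n, ContDiff ℝ ∞ (g n)) :
    Null K (fun n z => f n z + g n z) := by
  intro k hk R ε hε
  filter_upwards [hf k hk R (ε / 2) (by positivity), hg k hk R (ε / 2) (by positivity)]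
    with n h1 h2 z hz
  have h3 : iteratedFDeriv ℝ k (fun z => f n z + g n z) z =
      iteratedFDeriv ℝ k (f n) z + iteratedFDeriv ℝ k (g n) z :=
    iteratedFDeriv_add_apply ((hf' n).of_le (by exact_mod_cast le_top)).contDiffAt
      ((hg' n).of_le (by exact_mod_cast le_top)).contDiffAt
  rw [h3]
  have := norm_add_le (iteratedFDeriv ℝ k (f n) z) (iteratedFDeriv ℝ k (g n) z)
  linarith [h1 z hz, h2 z hz]

theorem Null.comp_clm {V' : Type*} [NormedAddCommGroup V'] [NormedSpace ℝ V'] {K : ℕ}
    {f : ℕ → V → F} (hf : Null K f) (hf' : ∀ n, ContDiff ℝ ∞ (f n)) (L : V' →L[ℝ] V) :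
    Null K (fun n z => f n (L z)) := by
  intro k hk R ε hε
  have hpos : 0 < (‖L‖ + 1) ^ k := by positivity
  filter_upwards [hf k hk (‖L‖ * R) (ε / (‖L‖ + 1) ^ k) (by positivity)] with n h1 z hz
  have h2 : iteratedFDeriv ℝ k (fun z => f n (L z)) z =
      (iteratedFDeriv ℝ k (f n) (L z)).compContinuousLinearMap fun _ => L :=
    L.iteratedFDeriv_comp_right (hf' n) z (by exact_mod_cast le_top)
  rw [h2]
  have h3 := ContinuousMultilinearMap.norm_compContinuousLinearMap_le
    (iteratedFDeriv ℝ k (f n) (L z)) (fun _ => L)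
  refine h3.trans ?_
  simp only [Finset.prod_const, Finset.card_univ, Fintype.card_fin]
  have h4 : ‖L z‖ ≤ ‖L‖ * R := (L.le_opNorm z).trans (by gcongr)
  have h5 : ‖L‖ ^ k ≤ (‖L‖ + 1) ^ k := by gcongr; linarith
  calc ‖iteratedFDeriv ℝ k (f n) (L z)‖ * ‖L‖ ^ k
      ≤ (ε / (‖L‖ + 1) ^ k) * (‖L‖ + 1) ^ k := by
        gcongr
        exact h1 _ h4
    _ = ε := by field_simp

theorem Null.bilin {G H : Type*} [NormedAddCommGroup G] [NormedSpace ℝ G] [NormedAddCommGroup H]
    [NormedSpace ℝ H] [ProperSpace V] {K : ℕ} {f : ℕ → V → F} (hf : Null K f)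
    (hf' : ∀ n, ContDiff ℝ ∞ (f n)) {g : V → G} (hg : ContDiff ℝ ∞ g) (B : F →L[ℝ] G →L[ℝ] H) :
    Null K (fun n z => B (f n z) (g z)) := by
  intro k hk R ε hε
  -- bound for the derivatives of `g`
  obtain ⟨M, hM0, hM⟩ : ∃ M : ℝ, 0 ≤ M ∧ ∀ i ≤ k, ∀ z, ‖z‖ ≤ R → ‖iteratedFDeriv ℝ i g z‖ ≤ M := by
    have h1 : ∀ i : ℕ, ∃ M : ℝ, ∀ z ∈ closedBall (0 : V) R, ‖iteratedFDeriv ℝ i g z‖ ≤ M := by
      intro i
      exact (isCompact_closedBall (0 : V) R).exists_bound_of_continuousOn
        (hg.continuous_iteratedFDeriv (by exact_mod_cast le_top)).continuousOn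
    choose M hM using h1
    refine ⟨∑ i ∈ Finset.range (k + 1), |M i|, by positivity, fun i hi z hz => ?_⟩
    refine (hM i z (by simpa using hz)).trans ((le_abs_self _).trans ?_)
    exact Finset.single_le_sum (f := fun i => |M i|) (fun _ _ => abs_nonneg _)
      (Finset.mem_range.mpr (by omega))
  set c : ℝ := ‖B‖ * (∑ i ∈ Finset.range (k + 1), (k.choose i : ℝ) * M) + 1 with hc
  have hcpos : 0 < c := by positivity
  have hall : ∀ᶠ n in atTop, ∀ i ∈ Finset.range (k + 1), ∀ z, ‖z‖ ≤ R →
      ‖iteratedFDeriv ℝ i (f n) z‖ ≤ ε / c := by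
    rw [Filter.eventually_all_finset]
    intro i hi
    rw [Finset.mem_range] at hi
    exact hf i (by omega) R (ε / c) (by positivity)
  filter_upwards [hall] with n hn z hz
  have h1 := B.norm_iteratedFDeriv_le_of_bilinear (hf' n) hg z (n := k)
    (by exact_mod_cast le_top)
  refine h1.trans ?_
  calc ‖B‖ * ∑ i ∈ Finset.range (k + 1), (k.choose i : ℝ) * ‖iteratedFDeriv ℝ i (f n) z‖ *
        ‖iteratedFDeriv ℝ (k - i) g z‖
      ≤ ‖B‖ * ∑ i ∈ Finset.range (k + 1), (k.choose i : ℝ) * (ε / c) * M := by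
        gcongr with i hi
        · exact hn i hi z hz
        · exact hM _ (by omega) z hz
    _ = (‖B‖ * (∑ i ∈ Finset.range (k + 1), (k.choose i : ℝ) * M)) * (ε / c) := by
        rw [mul_assoc, Finset.sum_mul]
        congr 1
        apply Finset.sum_congr rfl
        intro i _
        ring
    _ ≤ c * (ε / c) := by
        gcongr
        rw [hc]; linarith
    _ = ε := by field_simp

/-- a jointly smooth family converges in `C^∞_loc` when the parameter converges. -/
theorem null_of_param {P : Type*} [NormedAddCommGroup P] [NormedSpace ℝ P] [ProperSpace V]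
    {H : V × P → F} (hH : ContDiff ℝ ∞ H) {p : ℕ → P} {p0 : P} (hp : Tendsto p atTop (𝓝 p0))
    (K : ℕ) : Null K (fun n z => H (z, p n) - H (z, p0)) := by
  intro k _ R ε hε
  -- derivatives of the partial maps
  have hpart : ∀ q : P, ∀ z : V, iteratedFDeriv ℝ k (fun z => H (z, q)) z =
      (iteratedFDeriv ℝ k H (z, q)).compContinuousLinearMap
        fun _ => ContinuousLinearMap.inl ℝ V P := by
    intro q z
    have h1 : (fun z => H (z, q)) = (fun y => H (y + (0, q))) ∘ (ContinuousLinearMap.inl ℝ V P) := by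
      funext z; simp
    have h2 : ContDiff ℝ ∞ (fun y : V × P => H (y + (0, q))) :=
      hH.comp (contDiff_id.add contDiff_const)
    rw [h1, (ContinuousLinearMap.inl ℝ V P).iteratedFDeriv_comp_right h2 z
      (by exact_mod_cast le_top), iteratedFDeriv_comp_add_right]
    simp
  have hsm : ∀ q : P, ContDiff ℝ ∞ (fun z => H (z, q)) := fun q =>
    hH.comp (contDiff_id.prodMk contDiff_const)
  have hcont : Continuous fun y : V × P => (iteratedFDeriv ℝ k H y).compContinuousLinearMap
      fun _ => ContinuousLinearMap.inl ℝ V P := by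
    have h1 : Continuous (iteratedFDeriv ℝ k H) :=
      hH.continuous_iteratedFDeriv (by exact_mod_cast le_top)
    exact (ContinuousMultilinearMap.compContinuousLinearMapL (F := F)
      (fun _ : Fin k => ContinuousLinearMap.inl ℝ V P)).continuous.comp h1
  have hev : ∀ᶠ q in 𝓝 p0, ∀ z ∈ closedBall (0 : V) R,
      ‖((iteratedFDeriv ℝ k H (z, q)).compContinuousLinearMap
        fun _ => ContinuousLinearMap.inl ℝ V P) - ((iteratedFDeriv ℝ k H (z, p0)).compContinuousLinearMap
        fun _ => ContinuousLinearMap.inl ℝ V P)‖ < ε := by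
    apply (isCompact_closedBall (0 : V) R).eventually_forall_of_forall_eventually
    intro z _
    have h1 : Continuous fun y : P × V => ‖((iteratedFDeriv ℝ k H (y.2, y.1)).compContinuousLinearMap
        fun _ => ContinuousLinearMap.inl ℝ V P) - ((iteratedFDeriv ℝ k H (y.2, p0)).compContinuousLinearMap
        fun _ => ContinuousLinearMap.inl ℝ V P)‖ :=
      ((hcont.comp (by fun_prop : Continuous fun y : P × V => (y.2, y.1))).sub
        (hcont.comp (by fun_prop : Continuous fun y : P × V => (y.2, p0)))).norm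
    refine h1.continuousAt.eventually_lt continuousAt_const ?_
    simpa using hε
  filter_upwards [hp.eventually hev] with n hn z hz
  have h1 : iteratedFDeriv ℝ k (fun z => H (z, p n) - H (z, p0)) z =
      iteratedFDeriv ℝ k (fun z => H (z, p n)) z - iteratedFDeriv ℝ k (fun z => H (z, p0)) z := by
    exact iteratedFDeriv_sub_apply ((hsm (p n)).of_le (by exact_mod_cast le_top)).contDiffAt
      ((hsm p0).of_le (by exact_mod_cast le_top)).contDiffAt
  rw [h1, hpart, hpart]
  exact (hn z (by simpa using hz)).le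

end null

/-! ### Compactness -/

section compactness
variable {V : Type u} [NormedAddCommGroup V] [NormedSpace ℝ V] [FiniteDimensional ℝ V]

theorem Null.subseq {F : Type*} [NormedAddCommGroup F] [NormedSpace ℝ F] {K : ℕ} {f : ℕ → V → F}
    (hf : Null K f) {φ : ℕ → ℕ} (hφ : StrictMono φ) : Null K (fun n => f (φ n)) := by
  intro k hk R ε hε
  exact hφ.tendsto_atTop.eventually (hf k hk R ε hε)

/-- If `D f n → 0` in `C^K_loc` and `f n 0 → 0` then `f n → 0` in `C^(K+1)_loc`. -/
theorem null_succ {F : Type*} [NormedAddCommGroup F] [NormedSpace ℝ F] {K : ℕ} {f : ℕ → V → F}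
    (hf : ∀ n, ContDiff ℝ ∞ (f n)) (h0 : Tendsto (fun n => f n 0) atTop (𝓝 0))
    (hd : Null K (fun n => fderiv ℝ (f n))) : Null (K + 1) f := by
  intro k hk R ε hε
  rcases Nat.eq_zero_or_pos k with hk0 | hk0
  · subst hk0
    have h1 := hd 0 (Nat.zero_le _) R (ε / (2 * (|R| + 1))) (by positivity)
    have h2 : ∀ᶠ n in atTop, ‖f n 0‖ < ε / 2 := by
      have := h0.norm
      rw [norm_zero] at this
      exact this.eventually_lt_const (by positivity)
    filter_upwards [h1, h2] with n hn1 hn2 z hz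
    rw [norm_iteratedFDeriv_zero]
    have hbd : ∀ x ∈ closedBall (0 : V) R, ‖fderiv ℝ (f n) x‖ ≤ ε / (2 * (|R| + 1)) := by
      intro x hx
      have := hn1 x (by simpa using hx)
      rwa [norm_iteratedFDeriv_zero] at this
    have hR : 0 ≤ R := (norm_nonneg z).trans hz
    have h3 := (convex_closedBall (0 : V) R).norm_image_sub_le_of_norm_fderiv_le (𝕜 := ℝ)
      (f := f n) (fun x _ => (hf n).differentiable (by simp) x) hbd
      (mem_closedBall_self hR) (by simpa using hz : z ∈ closedBall (0 : V) R)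
    rw [sub_zero] at h3
    have h4 : ‖f n z‖ ≤ ‖f n z - f n 0‖ + ‖f n 0‖ := by
      have := norm_add_le (f n z - f n 0) (f n 0)
      simpa using this
    have h5 : ε / (2 * (|R| + 1)) * ‖z‖ ≤ ε / 2 := by
      have h6 : ‖z‖ ≤ |R| + 1 := by linarith [le_abs_self R]
      calc ε / (2 * (|R| + 1)) * ‖z‖ ≤ ε / (2 * (|R| + 1)) * (|R| + 1) := by gcongr
        _ = ε / 2 := by field_simp
    linarith
  · obtain ⟨j, rfl⟩ := Nat.exists_eq_add_of_le' hk0
    filter_upwards [hd j (by omega) R ε hε] with n hn z hz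
    rw [← norm_iteratedFDeriv_fderiv]
    exact hn z hz

/-- **Compactness.** -/
theorem compactness (N : ℕ) : ∀ (F : Type u) [NormedAddCommGroup F] [NormedSpace ℝ F]
    [FiniteDimensional ℝ F] (f : ℕ → V → F), (∀ n, ContDiff ℝ ∞ (f n)) →
    (∀ k ≤ N, ∃ C : ℝ, ∀ n, ‖iteratedFDeriv ℝ k (f n) 0‖ ≤ C) →
    (∀ R ε : ℝ, 0 < ε → ∀ᶠ n in atTop, ∀ z, ‖z‖ ≤ R →
      ‖iteratedFDeriv ℝ (N + 1) (f n) z‖ ≤ ε) →
    ∃ (φ : ℕ → ℕ) (g : V → F), StrictMono φ ∧ ContDiff ℝ ∞ g ∧
      Null (N + 1) (fun n z => f (φ n) z - g z) := by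
  have hproper : ProperSpace V := FiniteDimensional.proper ℝ V
  induction N with
  | zero =>
    intro F _ _ _ f hf hb htop
    have : ProperSpace F := FiniteDimensional.proper ℝ F
    obtain ⟨C, hC⟩ := hb 0 le_rfl
    have h1 : ∀ n, f n 0 ∈ closedBall (0 : F) C := fun n => by
      have := hC n
      rw [norm_iteratedFDeriv_zero] at this
      simpa using this
    obtain ⟨c, -, φ, hφ, hlim⟩ := (isCompact_closedBall (0 : F) C).tendsto_subseq h1
    refine ⟨φ, fun _ => c, hφ, contDiff_const, ?_⟩
    refine null_succ (fun n => (hf _).sub contDiff_const) ?_ ?_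
    · have := hlim.sub_const c
      simpa using this
    · intro k hk R ε hε
      have hk0 : k = 0 := by omega
      subst hk0
      filter_upwards [hφ.tendsto_atTop.eventually (htop R ε hε)] with n hn z hz
      have h2 : fderiv ℝ (fun z => f (φ n) z - c) = fderiv ℝ (f (φ n)) := by
        funext x; rw [fderiv_sub_const]
      rw [h2, norm_iteratedFDeriv_fderiv]
      exact hn z hz
  | succ N ih =>
    intro F _ _ _ f hf hb htop
    have : ProperSpace F := FiniteDimensional.proper ℝ F
    have : CompleteSpace F := FiniteDimensional.complete ℝ F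
    obtain ⟨φ1, g1, hφ1, hg1, hnull1⟩ := ih (V →L[ℝ] F) (fun n => fderiv ℝ (f n))
      (fun n => (hf n).fderiv_right (by simp))
      (fun k hk => by
        obtain ⟨C, hC⟩ := hb (k + 1) (by omega)
        exact ⟨C, fun n => by rw [norm_iteratedFDeriv_fderiv]; exact hC n⟩)
      (fun R ε hε => by
        filter_upwards [htop R ε hε] with n hn z hz
        rw [norm_iteratedFDeriv_fderiv]
        exact hn z hz)
    obtain ⟨C, hC⟩ := hb 0 (Nat.zero_le _)
    have h1 : ∀ n, f (φ1 n) 0 ∈ closedBall (0 : F) C := fun n => by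
      have := hC (φ1 n)
      rw [norm_iteratedFDeriv_zero] at this
      simpa using this
    obtain ⟨c, -, φ2, hφ2, hlim⟩ := (isCompact_closedBall (0 : F) C).tendsto_subseq h1
    set φ : ℕ → ℕ := fun n => φ1 (φ2 n) with hφ
    have hφmono : StrictMono φ := hφ1.comp hφ2
    have hnull2 : Null (N + 1) (fun n z => fderiv ℝ (f (φ n)) z - g1 z) := hnull1.subseq hφ2
    -- uniform convergence of the derivatives on balls
    have hunif : ∀ R : ℝ, TendstoUniformlyOn (fun n => fderiv ℝ (f (φ n))) g1 atTop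
        (ball (0 : V) R) := by
      intro R
      rw [Metric.tendstoUniformlyOn_iff]
      intro ε hε
      filter_upwards [hnull2 0 (Nat.zero_le _) R (ε / 2) (by positivity)] with n hn z hz
      have := hn z (by have := mem_ball_zero_iff.mp hz; exact this.le)
      rw [norm_iteratedFDeriv_zero] at this
      rw [dist_comm, dist_eq_norm]
      linarith
    have hcauchy : ∀ R : ℝ, UniformCauchySeqOn (fun n => f (φ n)) atTop (ball (0 : V) R) := by
      intro R
      refine uniformCauchySeqOn_ball_of_fderiv (𝕜 := ℝ) (hunif R).uniformCauchySeqOn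
        (fun n y _ => ((hf (φ n)).differentiable (by simp) y).hasFDerivAt) ?_
      exact hlim.cauchy_map
    have hptw : ∀ z : V, ∃ y : F, Tendsto (fun n => f (φ n) z) atTop (𝓝 y) := by
      intro z
      apply cauchySeq_tendsto_of_complete
      have h2 := hcauchy (‖z‖ + 1)
      exact h2.cauchySeq (by rw [mem_ball_zero_iff]; linarith)
    choose g hg using hptw
    have hgd : ∀ z : V, HasFDerivAt g (g1 z) z := by
      intro z
      refine hasFDerivAt_of_tendstoUniformlyOn (𝕜 := ℝ) (f := fun n => f (φ n))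
        (s := ball (0 : V) (‖z‖ + 1)) isOpen_ball (hunif _)
        (fun n y _ => ((hf (φ n)).differentiable (by simp) y).hasFDerivAt)
        (fun y _ => hg y) ?_
      rw [mem_ball_zero_iff]; linarith
    have hgf : fderiv ℝ g = g1 := funext fun z => (hgd z).fderiv
    have hgs : ContDiff ℝ ∞ g := by
      rw [contDiff_infty_iff_fderiv]
      exact ⟨fun z => (hgd z).differentiableAt, by rw [hgf]; exact hg1⟩
    refine ⟨φ, g, hφmono, hgs, ?_⟩
    refine null_succ (fun n => (hf _).sub hgs) ?_ ?_
    · have := (hg 0).sub_const (g 0)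
      simpa using this
    · have h3 : (fun n => fderiv ℝ (fun z => f (φ n) z - g z)) =
          fun n z => fderiv ℝ (f (φ n)) z - g1 z := by
        funext n z
        rw [fderiv_fun_sub ((hf _).differentiable (by simp) z) (hgd z).differentiableAt, hgf]
      rw [h3]
      exact hnull2

end compactness

end Pool.Agent.Sqz
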