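import Pool.Agent.Work.MP_0e9e72_an.Wirt
import Pool.Agent.Work.MP_0e9e72_an.ScaleA

/-!
# MP_0e9e72_an, block E, part 2: Wirtinger tools
-/

set_option autoImplicit false

open Complex Metric Set Filter Topology
open scoped ContDiff

namespace Pool.Agent.Sqz

section wirt
variable {F : Type*} [NormedAddCommGroup F] [NormedSpace ℂ F]

/-- quantitative version of `iteratedFDeriv_eq_zero_of_dz`. -/
theorem norm_iteratedFDeriv_le_of_dz {ζ : ℂ} {C : ℝ} (n : ℕ) : ∀ f : ℂ → F, ContDiff ℝ ∞ f →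
    (∀ j l, j + l = n → ‖dz^[j] (dzb^[l] f) ζ‖ ≤ C) → ‖iteratedFDeriv ℝ n f ζ‖ ≤ 2 ^ n * C := by
  induction n with
  | zero =>
    intro f _ h
    have := h 0 0 rfl
    simpa using this
  | succ n ih =>
    intro f hf h
    have h1 : ‖iteratedFDeriv ℝ n (dz f) ζ‖ ≤ 2 ^ n * C := by
      refine ih (dz f) (contDiff_dz hf) fun j l hjl => ?_
      rw [dz_iter_dzb hf, ← Function.iterate_succ_apply]
      exact h (j + 1) l (by omega)
    have h2 : ‖iteratedFDeriv ℝ n (dzb f) ζ‖ ≤ 2 ^ n * C := by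
      refine ih (dzb f) (contDiff_dzb hf) fun j l hjl => ?_
      rw [← Function.iterate_succ_apply]
      exact h j (l + 1) (by omega)
    have hC : 0 ≤ 2 ^ n * C := (norm_nonneg _).trans h1
    refine ContinuousMultilinearMap.opNorm_le_bound (by rw [pow_succ]; nlinarith) fun m => ?_
    rw [iteratedFDeriv_succ_apply_right]
    have hc : iteratedFDeriv ℝ n (fun y => fderiv ℝ f y) ζ (Fin.init m) (m (Fin.last n)) =
        iteratedFDeriv ℝ n (fun y => fderiv ℝ f y (m (Fin.last n))) ζ (Fin.init m) := by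
      exact (iteratedFDeriv_clm_apply_const_apply (𝕜 := ℝ) (hf.fderiv_right (m := ∞) (by simp))
        (by exact_mod_cast le_top)).symm
    rw [hc]
    have hfun : (fun y => fderiv ℝ f y (m (Fin.last n))) = fun y =>
        (m (Fin.last n)) • dz f y + (starRingEnd ℂ (m (Fin.last n))) • dzb f y := by
      funext y; exact fderiv_eq_dz_dzb f y _
    rw [hfun]
    have hz1 : ContDiffAt ℝ n (dz f) ζ :=
      ((contDiff_dz hf).of_le (by exact_mod_cast le_top)).contDiffAt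
    have hz2 : ContDiffAt ℝ n (dzb f) ζ :=
      ((contDiff_dzb hf).of_le (by exact_mod_cast le_top)).contDiffAt
    have h3 := iteratedFDeriv_add_apply (𝕜 := ℝ) (i := n) (x := ζ)
      (f := (m (Fin.last n)) • dz f) (g := (starRingEnd ℂ (m (Fin.last n))) • dzb f)
      (hz1.const_smul _) (hz2.const_smul _)
    rw [iteratedFDeriv_const_smul_apply hz1, iteratedFDeriv_const_smul_apply hz2] at h3
    have h4 : (fun y => (m (Fin.last n)) • dz f y + (starRingEnd ℂ (m (Fin.last n))) • dzb f y) =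
      (m (Fin.last n)) • dz f + (starRingEnd ℂ (m (Fin.last n))) • dzb f := rfl
    rw [h4, h3]
    have h5 : ‖(m (Fin.last n)) • iteratedFDeriv ℝ n (dz f) ζ +
        (starRingEnd ℂ (m (Fin.last n))) • iteratedFDeriv ℝ n (dzb f) ζ‖ ≤
        ‖m (Fin.last n)‖ * (2 ^ (n + 1) * C) := by
      refine (norm_add_le _ _).trans ?_
      rw [norm_smul, norm_smul, RCLike.norm_conj, pow_succ]
      have := norm_nonneg (m (Fin.last n))
      nlinarith
    refine (ContinuousMultilinearMap.le_opNorm _ _).trans ?_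
    have h6 : ∏ i, ‖m i‖ = (∏ i, ‖Fin.init m i‖) * ‖m (Fin.last n)‖ := by
      rw [Fin.prod_univ_castSucc]
      rfl
    rw [h6]
    calc _ ≤ ‖m (Fin.last n)‖ * (2 ^ (n + 1) * C) * ∏ i, ‖Fin.init m i‖ := by
          gcongr
      _ = _ := by ring

/-- jointly smooth families have jointly smooth Wirtinger derivatives. -/
theorem contDiff_dz_param {P : Type*} [NormedAddCommGroup P] [NormedSpace ℝ P] {H : ℂ × P → F}
    (hH : ContDiff ℝ ∞ H) : ContDiff ℝ ∞ (fun p : ℂ × P => dz (fun ζ => H (ζ, p.2)) p.1) := by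
  have h1 : ContDiff ℝ ∞ (fderiv ℝ H) := hH.fderiv_right (by simp)
  have h2 : ∀ p : ℂ × P, ∀ v : ℂ, fderiv ℝ (fun ζ => H (ζ, p.2)) p.1 v = fderiv ℝ H p (v, 0) := by
    intro p v
    have h3 : HasFDerivAt H (fderiv ℝ H p) (p.1, p.2) :=
      (hH.differentiable (by simp) p).hasFDerivAt
    have h4 : HasFDerivAt (fun ζ => H (ζ, p.2)) ((fderiv ℝ H p).comp
        (ContinuousLinearMap.inl ℝ ℂ P)) p.1 := h3.comp p.1 (hasFDerivAt_prodMk_left p.1 p.2)
    rw [h4.fderiv]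
    simp
  unfold dz
  simp only [h2]
  exact ((h1.clm_apply contDiff_const).sub ((h1.clm_apply contDiff_const).const_smul I)).const_smul
    (1/2 : ℂ)

theorem contDiff_dzb_param {P : Type*} [NormedAddCommGroup P] [NormedSpace ℝ P] {H : ℂ × P → F}
    (hH : ContDiff ℝ ∞ H) : ContDiff ℝ ∞ (fun p : ℂ × P => dzb (fun ζ => H (ζ, p.2)) p.1) := by
  have h1 : ContDiff ℝ ∞ (fderiv ℝ H) := hH.fderiv_right (by simp)
  have h2 : ∀ p : ℂ × P, ∀ v : ℂ, fderiv ℝ (fun ζ => H (ζ, p.2)) p.1 v = fderiv ℝ H p (v, 0) := by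
    intro p v
    have h3 : HasFDerivAt H (fderiv ℝ H p) (p.1, p.2) :=
      (hH.differentiable (by simp) p).hasFDerivAt
    have h4 : HasFDerivAt (fun ζ => H (ζ, p.2)) ((fderiv ℝ H p).comp
        (ContinuousLinearMap.inl ℝ ℂ P)) p.1 := h3.comp p.1 (hasFDerivAt_prodMk_left p.1 p.2)
    rw [h4.fderiv]
    simp
  unfold dzb
  simp only [h2]
  exact ((h1.clm_apply contDiff_const).add ((h1.clm_apply contDiff_const).const_smul I)).const_smul
    (1/2 : ℂ)

theorem contDiff_dz_iter_param {P : Type*} [NormedAddCommGroup P] [NormedSpace ℝ P]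
    {H : ℂ × P → F} (hH : ContDiff ℝ ∞ H) (j : ℕ) :
    ContDiff ℝ ∞ (fun p : ℂ × P => dz^[j] (fun ζ => H (ζ, p.2)) p.1) := by
  induction j with
  | zero => exact hH
  | succ j ih =>
    simp only [Function.iterate_succ_apply']
    exact contDiff_dz_param (H := fun p : ℂ × P => dz^[j] (fun ζ => H (ζ, p.2)) p.1) ih

theorem contDiff_dzb_iter_param {P : Type*} [NormedAddCommGroup P] [NormedSpace ℝ P]
    {H : ℂ × P → F} (hH : ContDiff ℝ ∞ H) (l : ℕ) :
    ContDiff ℝ ∞ (fun p : ℂ × P => dzb^[l] (fun ζ => H (ζ, p.2)) p.1) := by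
  induction l with
  | zero => exact hH
  | succ l ih =>
    simp only [Function.iterate_succ_apply']
    exact contDiff_dzb_param (H := fun p : ℂ × P => dzb^[l] (fun ζ => H (ζ, p.2)) p.1) ih

/-- mixed Wirtinger derivatives of a jointly smooth family at `ζ = 0` are smooth in the
parameter. -/
theorem contDiff_wirt_param {P : Type*} [NormedAddCommGroup P] [NormedSpace ℝ P]
    {H : ℂ × P → F} (hH : ContDiff ℝ ∞ H) (j l : ℕ) :
    ContDiff ℝ ∞ (fun q : P => dz^[j] (dzb^[l] (fun ζ => H (ζ, q))) 0) := by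
  have h1 := contDiff_dz_iter_param (contDiff_dzb_iter_param hH l) j
  exact h1.comp (contDiff_const.prodMk contDiff_id : ContDiff ℝ ∞ (fun q : P => ((0 : ℂ), q)))

/-! scaling -/

theorem fderiv_comp_real_mul {f : ℂ → F} (hf : Differentiable ℝ f) (t : ℝ) (ζ v : ℂ) :
    fderiv ℝ (fun ζ => f ((t : ℂ) * ζ)) ζ v = t • fderiv ℝ f ((t : ℂ) * ζ) v := by
  have h1 : HasFDerivAt (fun ζ : ℂ => (t : ℂ) * ζ) (t • ContinuousLinearMap.id ℝ ℂ) ζ := by
    have := (hasFDerivAt_id (𝕜 := ℝ) ζ).const_smul t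
    refine this.congr_of_eventuallyEq (Eventually.of_forall fun x => ?_)
    simp
  have h2 := (hf ((t : ℂ) * ζ)).hasFDerivAt.comp ζ h1
  have h3 : fderiv ℝ (fun ζ => f ((t : ℂ) * ζ)) ζ = _ := h2.fderiv
  rw [h3]
  simp

theorem dz_comp_real_mul {f : ℂ → F} (hf : Differentiable ℝ f) (t : ℝ) :
    dz (fun ζ => f ((t : ℂ) * ζ)) = fun ζ => (t : ℂ) • dz f ((t : ℂ) * ζ) := by
  funext ζ
  unfold dz
  rw [fderiv_comp_real_mul hf, fderiv_comp_real_mul hf, ← Complex.coe_smul, ← Complex.coe_smul,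
    smul_comm I, ← smul_sub, smul_comm (1 / 2 : ℂ)]

theorem dzb_comp_real_mul {f : ℂ → F} (hf : Differentiable ℝ f) (t : ℝ) :
    dzb (fun ζ => f ((t : ℂ) * ζ)) = fun ζ => (t : ℂ) • dzb f ((t : ℂ) * ζ) := by
  funext ζ
  unfold dzb
  rw [fderiv_comp_real_mul hf, fderiv_comp_real_mul hf, ← Complex.coe_smul, ← Complex.coe_smul,
    smul_comm I, ← smul_add, smul_comm (1 / 2 : ℂ)]

theorem dz_const_smul {f : ℂ → F} (hf : Differentiable ℝ f) (c : ℂ) :
    dz (fun ζ => c • f ζ) = fun ζ => c • dz f ζ := by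
  funext ζ
  unfold dz
  rw [fderiv_fun_const_smul (hf ζ)]
  simp only [FunLike.coe_smul, Pi.smul_apply]
  rw [smul_comm I c, ← smul_sub, smul_comm c]

theorem dzb_const_smul {f : ℂ → F} (hf : Differentiable ℝ f) (c : ℂ) :
    dzb (fun ζ => c • f ζ) = fun ζ => c • dzb f ζ := by
  funext ζ
  unfold dzb
  rw [fderiv_fun_const_smul (hf ζ)]
  simp only [FunLike.coe_smul, Pi.smul_apply]
  rw [smul_comm I c, ← smul_add, smul_comm c]

theorem dz_iter_scale {f : ℂ → F} (hf : ContDiff ℝ ∞ f) (t : ℝ) (c : ℂ) (j : ℕ) :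
    dz^[j] (fun ζ => c • f ((t : ℂ) * ζ)) =
      fun ζ => (c * (t : ℂ) ^ j) • dz^[j] f ((t : ℂ) * ζ) := by
  induction j with
  | zero => simp
  | succ j ih =>
    rw [Function.iterate_succ_apply', ih, Function.iterate_succ_apply']
    have h1 : ContDiff ℝ ∞ (dz^[j] f) := contDiff_dz_iter hf j
    have h2 : Differentiable ℝ (fun ζ => dz^[j] f ((t : ℂ) * ζ)) :=
      (h1.comp (by fun_prop : ContDiff ℝ ∞ fun ζ : ℂ => (t : ℂ) * ζ)).differentiable (by simp)
    rw [dz_const_smul h2, dz_comp_real_mul (h1.differentiable (by simp))]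
    funext ζ
    rw [smul_smul, pow_succ, mul_assoc]

theorem dzb_iter_scale {f : ℂ → F} (hf : ContDiff ℝ ∞ f) (t : ℝ) (c : ℂ) (j : ℕ) :
    dzb^[j] (fun ζ => c • f ((t : ℂ) * ζ)) =
      fun ζ => (c * (t : ℂ) ^ j) • dzb^[j] f ((t : ℂ) * ζ) := by
  induction j with
  | zero => simp
  | succ j ih =>
    rw [Function.iterate_succ_apply', ih, Function.iterate_succ_apply']
    have h1 : ContDiff ℝ ∞ (dzb^[j] f) := contDiff_dzb_iter hf j
    have h2 : Differentiable ℝ (fun ζ => dzb^[j] f ((t : ℂ) * ζ)) :=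
      (h1.comp (by fun_prop : ContDiff ℝ ∞ fun ζ : ℂ => (t : ℂ) * ζ)).differentiable (by simp)
    rw [dzb_const_smul h2, dzb_comp_real_mul (h1.differentiable (by simp))]
    funext ζ
    rw [smul_smul, pow_succ, mul_assoc]

theorem wirt_scale {f : ℂ → F} (hf : ContDiff ℝ ∞ f) (t : ℝ) (c : ℂ) (j l : ℕ) :
    dz^[j] (dzb^[l] (fun ζ => c • f ((t : ℂ) * ζ))) 0 =
      (c * (t : ℂ) ^ (j + l)) • dz^[j] (dzb^[l] f) 0 := by
  rw [dzb_iter_scale hf, dz_iter_scale (contDiff_dzb_iter hf l)]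
  simp only [mul_zero]
  rw [mul_assoc, ← pow_add, add_comm l j]

/-! null sequences -/

theorem Null.fderiv {V : Type*} [NormedAddCommGroup V] [NormedSpace ℝ V] {G : Type*}
    [NormedAddCommGroup G] [NormedSpace ℝ G] {K : ℕ} {f : ℕ → V → G} (hf : Null (K + 1) f) :
    Null K (fun n => fderiv ℝ (f n)) := by
  intro k hk R ε hε
  filter_upwards [hf (k + 1) (by omega) R ε hε] with n hn z hz
  rw [norm_iteratedFDeriv_fderiv]
  exact hn z hz

theorem Null.clm_comp {V : Type*} [NormedAddCommGroup V] [NormedSpace ℝ V] {G G' : Type*}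
    [NormedAddCommGroup G] [NormedSpace ℝ G] [NormedAddCommGroup G'] [NormedSpace ℝ G'] {K : ℕ}
    {f : ℕ → V → G} (hf : Null K f) (hf' : ∀ n, ContDiff ℝ ∞ (f n)) (L : G →L[ℝ] G') :
    Null K (fun n z => L (f n z)) := by
  intro k hk R ε hε
  filter_upwards [hf k hk R (ε / (‖L‖ + 1)) (by positivity)] with n hn z hz
  have h1 : iteratedFDeriv ℝ k (fun z => L (f n z)) z =
      L.compContinuousMultilinearMap (iteratedFDeriv ℝ k (f n) z) :=
    L.iteratedFDeriv_comp_left (hf' n).contDiffAt (by exact_mod_cast le_top)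
  rw [h1]
  refine (ContinuousLinearMap.norm_compContinuousMultilinearMap_le _ _).trans ?_
  calc ‖L‖ * ‖iteratedFDeriv ℝ k (f n) z‖ ≤ (‖L‖ + 1) * (ε / (‖L‖ + 1)) := by
        gcongr
        · linarith
        · exact hn z hz
    _ = ε := by field_simp

theorem Null.dz {K : ℕ} {f : ℕ → ℂ → F} (hf : Null (K + 1) f) (hf' : ∀ n, ContDiff ℝ ∞ (f n)) :
    Null K (fun n => dz (f n)) := by
  set L : (ℂ →L[ℝ] F) →L[ℝ] F := (1 / 2 : ℂ) • (ContinuousLinearMap.apply ℝ F (1 : ℂ) -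
    I • ContinuousLinearMap.apply ℝ F I) with hL
  have h1 := (hf.fderiv).clm_comp (fun n => (hf' n).fderiv_right (by simp)) L
  exact h1

theorem Null.dzb {K : ℕ} {f : ℕ → ℂ → F} (hf : Null (K + 1) f) (hf' : ∀ n, ContDiff ℝ ∞ (f n)) :
    Null K (fun n => dzb (f n)) := by
  set L : (ℂ →L[ℝ] F) →L[ℝ] F := (1 / 2 : ℂ) • (ContinuousLinearMap.apply ℝ F (1 : ℂ) +
    I • ContinuousLinearMap.apply ℝ F I) with hL
  have h1 := (hf.fderiv).clm_comp (fun n => (hf' n).fderiv_right (by simp)) L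
  exact h1

theorem Null.tendsto {V : Type*} [NormedAddCommGroup V] [NormedSpace ℝ V] {G : Type*}
    [NormedAddCommGroup G] [NormedSpace ℝ G] {K : ℕ} {f : ℕ → V → G} (hf : Null K f) (z : V) :
    Tendsto (fun n => f n z) atTop (𝓝 0) := by
  rw [Metric.tendsto_nhds]
  intro ε hε
  filter_upwards [hf 0 (Nat.zero_le _) ‖z‖ (ε / 2) (by positivity)] with n hn
  have := hn z le_rfl
  rw [norm_iteratedFDeriv_zero] at this
  rw [dist_zero_right]
  linarith

theorem Null.wirt {j l : ℕ} : ∀ {f : ℕ → ℂ → F}, Null (j + l) f → (∀ n, ContDiff ℝ ∞ (f n)) →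
    Tendsto (fun n => Pool.Agent.Sqz.dz^[j] (Pool.Agent.Sqz.dzb^[l] (f n)) 0) atTop (𝓝 0) := by
  induction l with
  | zero =>
    induction j with
    | zero => intro f hf _; exact hf.tendsto 0
    | succ j ih =>
      intro f hf hf'
      simp only [Function.iterate_zero, id_eq] at ih ⊢
      have h1 := ih (f := fun n => Pool.Agent.Sqz.dz (f n))
        (Null.dz (K := j) (by simpa using hf) hf') (fun n => contDiff_dz (hf' n))
      simpa only [Function.iterate_succ_apply] using h1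
  | succ l ih =>
    intro f hf hf'
    have h1 := ih (f := fun n => Pool.Agent.Sqz.dzb (f n))
      (Null.dzb (K := j + l) hf hf') (fun n => contDiff_dzb (hf' n))
    simpa only [Function.iterate_succ_apply] using h1

end wirt

theorem nat_lt_infty (k : ℕ) : ((k : ℕ) : WithTop ℕ∞) < ∞ := by
  exact_mod_cast WithTop.coe_lt_top (k : ℕ)

theorem nat_le_infty (k : ℕ) : ((k : ℕ) : WithTop ℕ∞) ≤ ∞ := (nat_lt_infty k).le

section poly
variable {V : Type*} [NormedAddCommGroup V] [NormedSpace ℝ V]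
variable {G : Type*} [NormedAddCommGroup G] [NormedSpace ℝ G]

/-- a function with `D^(N+1) f = 0` and `D^k f (0) = 0` for `1 ≤ k ≤ N` has `D f = 0`. -/
theorem fderiv_eq_zero_of_top {N : ℕ} {f : V → G} (hf : ContDiff ℝ ∞ f)
    (htop : ∀ z, iteratedFDeriv ℝ (N + 1) f z = 0)
    (h0 : ∀ k, 1 ≤ k → k ≤ N → iteratedFDeriv ℝ k f 0 = 0) (z : V) : fderiv ℝ f z = 0 := by
  have key : ∀ m, m ≤ N → ∀ z, iteratedFDeriv ℝ (N + 1 - m) f z = 0 := by
    intro m
    induction m with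
    | zero => intro _ z; exact htop z
    | succ m ih =>
      intro hm z
      have h1 := ih (by omega)
      have h2 : N + 1 - m = (N + 1 - (m + 1)) + 1 := by omega
      have h3 : ∀ z, fderiv ℝ (iteratedFDeriv ℝ (N + 1 - (m + 1)) f) z = 0 := by
        intro z
        have h4 := norm_fderiv_iteratedFDeriv (𝕜 := ℝ) (f := f) (x := z) (n := N + 1 - (m + 1))
        rw [← h2, h1, norm_zero] at h4
        ext1 v
        have h5 := (fderiv ℝ (iteratedFDeriv ℝ (N + 1 - (m + 1)) f) z).le_opNorm v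
        rw [h4, zero_mul] at h5
        exact norm_le_zero_iff.mp h5
      have h5 : Differentiable ℝ (iteratedFDeriv ℝ (N + 1 - (m + 1)) f) :=
        hf.differentiable_iteratedFDeriv (nat_lt_infty _)
      rw [is_const_of_fderiv_eq_zero h5 h3 z 0]
      exact h0 _ (by omega) (by omega)
  have h1 := key N le_rfl z
  rw [Nat.add_sub_cancel_left] at h1
  have h2 : ‖fderiv ℝ f z‖ = 0 := by
    rw [← norm_iteratedFDeriv_one (𝕜 := ℝ), h1, norm_zero]
  exact norm_eq_zero.mp h2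

theorem cubic_step [ProperSpace V] {M : ℝ} (hM0 : 0 ≤ M) (g : V → G) (k : ℕ)
    (hg : Differentiable ℝ g) (hg0 : g 0 = 0)
    (hgb : ∀ z, ‖z‖ ≤ 1 → ‖fderiv ℝ g z‖ ≤ M * ‖z‖ ^ k) :
    ∀ z, ‖z‖ ≤ 1 → ‖g z‖ ≤ M * ‖z‖ ^ (k + 1) := by
  intro z hz
  have h3 := (convex_closedBall (0 : V) ‖z‖).norm_image_sub_le_of_norm_fderiv_le (𝕜 := ℝ)
    (f := g) (C := M * ‖z‖ ^ k) (fun x _ => hg x) (fun x hx => by
      have hx' : ‖x‖ ≤ ‖z‖ := by simpa using hx
      refine (hgb x (hx'.trans hz)).trans ?_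
      gcongr)
    (mem_closedBall_self (norm_nonneg z)) (by simp : z ∈ closedBall (0 : V) ‖z‖)
  rw [hg0, sub_zero, sub_zero] at h3
  rw [pow_succ, ← mul_assoc]
  exact h3

/-- cubic estimate. -/
theorem cubic_bound [ProperSpace V] {f : V → G} (hf : ContDiff ℝ ∞ f) (h0 : f 0 = 0)
    (h1 : iteratedFDeriv ℝ 1 f 0 = 0) (h2 : iteratedFDeriv ℝ 2 f 0 = 0) :
    ∃ C : ℝ, 0 ≤ C ∧ ∀ z, ‖z‖ ≤ 1 → ‖f z‖ ≤ C * ‖z‖ ^ 3 := by
  -- bound of the third derivative
  obtain ⟨M, hM⟩ := (isCompact_closedBall (0 : V) 1).exists_bound_of_continuousOn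
    (hf.continuous_iteratedFDeriv (m := 3) (nat_le_infty 3)).continuousOn
  have hM0 : 0 ≤ M := (norm_nonneg _).trans (hM 0 (mem_closedBall_self zero_le_one))
  have hd2 : ∀ z, ‖z‖ ≤ 1 → ‖iteratedFDeriv ℝ 2 f z‖ ≤ M * ‖z‖ ^ 1 := by
    refine cubic_step hM0 (iteratedFDeriv ℝ 2 f) 0
      (hf.differentiable_iteratedFDeriv (nat_lt_infty 2)) h2 ?_
    intro z hz
    rw [norm_fderiv_iteratedFDeriv, pow_zero, mul_one]
    exact hM z (by simpa using hz)
  have hd1 : ∀ z, ‖z‖ ≤ 1 → ‖iteratedFDeriv ℝ 1 f z‖ ≤ M * ‖z‖ ^ 2 := by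
    refine cubic_step hM0 (iteratedFDeriv ℝ 1 f) 1
      (hf.differentiable_iteratedFDeriv (nat_lt_infty 1)) h1 ?_
    intro z hz
    rw [norm_fderiv_iteratedFDeriv]
    exact hd2 z hz
  refine ⟨M, hM0, ?_⟩
  refine cubic_step hM0 f 2 (hf.differentiable (by simp)) h0 ?_
  intro z hz
  rw [← norm_iteratedFDeriv_one (𝕜 := ℝ)]
  exact hd1 z hz

end poly

section lap

theorem fderiv_fderiv_apply' {V G : Type*} [NormedAddCommGroup V] [NormedSpace ℝ V]
    [NormedAddCommGroup G] [NormedSpace ℝ G] {f : V → G} (hf : ContDiff ℝ ∞ f) (ζ v w : V) :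
    fderiv ℝ (fun ζ => fderiv ℝ f ζ v) ζ w = fderiv ℝ (fderiv ℝ f) ζ w v := by
  have h1 : DifferentiableAt ℝ (fderiv ℝ f) ζ :=
    (hf.fderiv_right (m := ∞) (by simp)).differentiable (by simp) ζ
  have := h1.hasFDerivAt.clm_apply (hasFDerivAt_const v ζ)
  rw [this.fderiv]
  simp

theorem fderiv_symm' {V G : Type*} [NormedAddCommGroup V] [NormedSpace ℝ V]
    [NormedAddCommGroup G] [NormedSpace ℝ G] {f : V → G} (hf : ContDiff ℝ ∞ f) (ζ v w : V) :
    fderiv ℝ (fderiv ℝ f) ζ w v = fderiv ℝ (fderiv ℝ f) ζ v w := by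
  have h := (hf.contDiffAt (x := ζ)).isSymmSndFDerivAt
    (by rw [minSmoothness_of_isRCLikeNormedField]; exact ENat.LEInfty.out)
  exact h w v

/-- `Lev f ζ 1` is `4 ∂∂̄ f`. -/
theorem lev_one_eq {f : ℂ → ℝ} (hf : ContDiff ℝ ∞ f) (ζ : ℂ) :
    ((Lev f ζ 1 : ℝ) : ℂ) = 4 * dz (dzb (fun ζ => (f ζ : ℂ))) ζ := by
  have hfc : ContDiff ℝ ∞ (fun ζ => (f ζ : ℂ)) := ofRealCLM.contDiff.comp hf
  have hd : ∀ v : ℂ, DifferentiableAt ℝ (fun ζ => fderiv ℝ (fun ζ => (f ζ : ℂ)) ζ v) ζ := fun v =>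
    (fderiv_apply_contDiff hfc v).differentiable (by simp) ζ
  have hdzb : ∀ w, fderiv ℝ (dzb (fun ζ => (f ζ : ℂ))) ζ w =
      (1 / 2 : ℂ) • (fderiv ℝ (fderiv ℝ (fun ζ => (f ζ : ℂ))) ζ w 1 +
        I • fderiv ℝ (fderiv ℝ (fun ζ => (f ζ : ℂ))) ζ w I) := by
    intro w
    have H : fderiv ℝ (dzb (fun ζ => (f ζ : ℂ))) ζ = _ :=
      (((hd 1).hasFDerivAt.add ((hd I).hasFDerivAt.const_smul I)).const_smul (1/2:ℂ)).fderiv
    rw [H]
    simp only [FunLike.coe_smul, Pi.smul_apply, add_apply,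
      fderiv_fderiv_apply hfc]
  have hre : ∀ v w : ℂ, fderiv ℝ (fderiv ℝ (fun ζ => (f ζ : ℂ))) ζ v w =
      ((fderiv ℝ (fderiv ℝ f) ζ v w : ℝ) : ℂ) := by
    intro v w
    rw [← fderiv_fderiv_apply hfc, ← fderiv_fderiv_apply' hf]
    have h1 : (fun ζ => fderiv ℝ (fun ζ => (f ζ : ℂ)) ζ w) = fun ζ => ((fderiv ℝ f ζ w : ℝ) : ℂ) := by
      funext x
      have : fderiv ℝ (fun ζ => (f ζ : ℂ)) x = ofRealCLM.comp (fderiv ℝ f x) :=
        (ofRealCLM.hasFDerivAt.comp x (hf.differentiable (by simp) x).hasFDerivAt).fderiv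
      rw [this]; rfl
    rw [h1]
    have h2 : fderiv ℝ (fun ζ => ((fderiv ℝ f ζ w : ℝ) : ℂ)) ζ =
        ofRealCLM.comp (fderiv ℝ (fun ζ => fderiv ℝ f ζ w) ζ) := by
      have h3 : DifferentiableAt ℝ (fun ζ => fderiv ℝ f ζ w) ζ :=
        (((hf.fderiv_right (m := ∞) (by simp)).clm_apply contDiff_const).differentiable (by simp)) ζ
      exact (ofRealCLM.hasFDerivAt.comp ζ h3.hasFDerivAt).fderiv
    rw [h2]; rfl
  unfold dz
  rw [hdzb, hdzb, hre, hre, hre, hre]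
  unfold Lev
  have hsym := fderiv_symm' hf ζ 1 I
  rw [hsym]
  simp only [smul_eq_mul, mul_one, ofReal_add]
  ring_nf
  simp only [I_sq]
  ring

end lap

end Pool.Agent.Sqz
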