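import Pool.Agent.Work.MP_0e9e72_an.EDefs
import Pool.Agent.Work.MP_0e9e72_an.ScaleB
import Pool.Agent.Work.MP_0e9e72_an.C2
import Pool.Agent.Work.MP_0e9e72_an.E6d

/-!
# MP_0e9e72_an, block E7: the scaled limit

`q` is constant, `Lev h ≥ 0` with strict inequality at points arbitrarily near `0`, and `h` vanishes
to third order at `0`.
-/

set_option autoImplicit false

open Complex Metric Set Filter Topology
open scoped ContDiff

namespace Pool.Agent.Sqz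

namespace E7

section poly
variable {F : Type*} [NormedAddCommGroup F] [NormedSpace ℂ F]

/-- Wirtinger derivatives of order `> N` vanish: the `(N+1)`-st derivative vanishes. -/
theorem top_zero {f : ℂ → F} (hf : ContDiff ℝ ∞ f) {N : ℕ}
    (htop : ∀ i j, N < i + j → ∀ ζ, dz^[i] (dzb^[j] f) ζ = 0) (ζ : ℂ) :
    iteratedFDeriv ℝ (N + 1) f ζ = 0 :=
  iteratedFDeriv_eq_zero_of_dz (N + 1) f hf fun j l hjl => htop j l (by omega) ζ

/-- a polynomial vanishing near `0` vanishes. -/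
theorem eq_zero_of_near {f : ℂ → F} (hf : ContDiff ℝ ∞ f) {N : ℕ}
    (htop : ∀ i j, N < i + j → ∀ ζ, dz^[i] (dzb^[j] f) ζ = 0) (h0 : ∀ᶠ ζ in 𝓝 (0 : ℂ), f ζ = 0)
    (ζ : ℂ) : f ζ = 0 := by
  have h1 : ∀ k, iteratedFDeriv ℝ k f 0 = 0 := by
    intro k
    have h2 : f =ᶠ[𝓝 0] fun _ => (0 : F) := h0
    rw [(h2.iteratedFDeriv ℝ k).self_of_nhds]
    rw [iteratedFDeriv_fun_zero (𝕜 := ℝ) (E := ℂ) (F := F) (n := k)]
    rfl
  have h3 := fderiv_eq_zero_of_top hf (top_zero hf htop) (fun k _ _ => h1 k)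
  rw [is_const_of_fderiv_eq_zero (hf.differentiable (by simp)) h3 ζ 0]
  exact h0.self_of_nhds

/-- a real polynomial without pure terms of order `≥ 1` whose Laplacian vanishes is constant. -/
theorem const_of_harmonic {g : ℂ → ℝ} (hg : ContDiff ℝ ∞ g)
    (hpure : ∀ i, 1 ≤ i → dz^[i] (fun ζ => (g ζ : ℂ)) 0 = 0)
    (htop : ∃ N : ℕ, ∀ i j, N < i + j → ∀ ζ, dz^[i] (dzb^[j] (fun ζ => (g ζ : ℂ))) ζ = 0)
    (hlev : ∀ ζ, Lev g ζ 1 = 0) (ζ : ℂ) : g ζ = g 0 := by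
  obtain ⟨N, hN⟩ := htop
  have hgc : ContDiff ℝ ∞ (fun ζ => (g ζ : ℂ)) := ofRealCLM.contDiff.comp hg
  have h11 : dz (dzb (fun ζ => (g ζ : ℂ))) = 0 := by
    funext x
    have := lev_one_eq hg x
    rw [hlev x] at this
    simpa using this.symm
  have hz : ∀ i j, dz^[i] (dzb^[j] (0 : ℂ → ℂ)) = 0 := by
    have hb : dzb (0 : ℂ → ℂ) = 0 := by
      funext x; simp [dzb]
    have hd : dz (0 : ℂ → ℂ) = 0 := by
      funext x; simp [dz]
    intro i j
    have h1 : dzb^[j] (0 : ℂ → ℂ) = 0 := Function.iterate_fixed hb j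
    rw [h1]
    exact Function.iterate_fixed hd i
  have hlow : ∀ k, 1 ≤ k → iteratedFDeriv ℝ k (fun ζ => (g ζ : ℂ)) 0 = 0 := by
    intro k hk
    refine iteratedFDeriv_eq_zero_of_dz k _ hgc fun j l hjl => ?_
    rcases Nat.eq_zero_or_pos j with rfl | hj
    · have hl : l = k := by omega
      subst hl
      simp only [Function.iterate_zero, id_eq]
      rw [dzb_iter_ofReal hg, hpure l hk, map_zero]
    rcases Nat.eq_zero_or_pos l with rfl | hl
    · have hl : j = k := by omega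
      subst hl
      simpa using hpure j hk
    obtain ⟨j', rfl⟩ : ∃ j', j = j' + 1 := ⟨j - 1, by omega⟩
    obtain ⟨l', rfl⟩ : ∃ l', l = l' + 1 := ⟨l - 1, by omega⟩
    rw [Function.iterate_succ_apply, ← dz_iter_dzb hgc, Function.iterate_succ_apply,
      ← dz_dzb_comm hgc, h11, hz]
    rfl
  have h3 := fderiv_eq_zero_of_top hgc (top_zero hgc hN) (fun k hk _ => hlow k hk)
  have h4 := is_const_of_fderiv_eq_zero (hgc.differentiable (by simp)) h3 ζ 0
  exact_mod_cast h4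

end poly

section limit
variable {E : Type} [NormedAddCommGroup E] [InnerProductSpace ℂ E] [FiniteDimensional ℂ E]
variable {Φ : Frame E} {D : Set E} {r : E → ℝ} {U : Set E} {N : ℕ}
variable {b : ℕ → E} {τ : ℕ → ℝ} {w : ℕ → ℂ → ℂ} {h : ℂ → ℝ} {q : ℂ → E →L[ℝ] ℝ}

theorem q_e1 (S : ScLim Φ r b τ w h q) (ζ c : ℂ) : q ζ (c • Φ.e1) = 0 := by
  rw [← S.qPW, map_smul, Φ.PW_e1, smul_zero, map_zero]

theorem dq_e1 (S : ScLim Φ r b τ w h q) (ζ u c : ℂ) : fderiv ℝ q ζ u (c • Φ.e1) = 0 := by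
  have h1 : HasFDerivAt (fun ζ => q ζ (c • Φ.e1))
      ((ContinuousLinearMap.apply ℝ ℝ (c • Φ.e1)).comp (fderiv ℝ q ζ)) ζ :=
    (ContinuousLinearMap.apply ℝ ℝ (c • Φ.e1)).hasFDerivAt.comp ζ
      (S.qsm.differentiable (by simp) ζ).hasFDerivAt
  have h2 : (fun ζ => q ζ (c • Φ.e1)) = fun _ => (0 : ℝ) := by
    funext x; exact q_e1 S x c
  rw [h2] at h1
  have h3 := h1.unique (hasFDerivAt_const (0 : ℝ) ζ)
  have h4 := congrArg (fun L => L u) h3
  simpa using h4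

/-- the limit of the Levi form inequality. -/
theorem lim_ineq (hNF : NormalForm Φ D r U N) (S : ScLim Φ r b τ w h q) (z' : E) :
    0 ≤ Lev h (Φ.p1 z') 1 + Lev (fun ζ => q ζ z') (Φ.p1 z') 1 := by
  have hd : fderiv ℝ r 0 ≠ 0 := by
    intro h0
    have := hNF.dr0 Φ.ew
    rw [h0, Φ.pw_ew] at this
    simp at this
  obtain ⟨C, hC, ρ, hρ, hlev⟩ := iC2 hNF.smooth hNF.r0 hd hNF.openU hNF.zeroU hNF.psc
  have hval := e6_value hNF S id strictMono_id (fun _ => z') z' tendsto_const_nhds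
  have hder1 := e6_deriv hNF S id strictMono_id (fun _ => z') (fun _ => Φ.e1) z' Φ.e1
    tendsto_const_nhds tendsto_const_nhds
  have hder2 := e6_deriv hNF S id strictMono_id (fun _ => z') (fun _ => I • Φ.e1) z' (I • Φ.e1)
    tendsto_const_nhds tendsto_const_nhds
  have hl := e6_lev hNF S id strictMono_id (fun _ => z') (fun _ => Φ.e1) z' Φ.e1
    tendsto_const_nhds tendsto_const_nhds
  simp only [id_eq] at hval hder1 hder2 hl
  obtain ⟨hv0, hv1⟩ := hval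
  obtain ⟨hV0, hlv⟩ := hl
  set Θ : ℕ → E := fun n => Theta Φ (b n) (τ n) (-(r (b n))) (w n) z' with hΘ
  set V : ℕ → E := fun n => fderiv ℂ (Theta Φ (b n) (τ n) (-(r (b n))) (w n)) z' Φ.e1 with hV
  have hIV : ∀ n, fderiv ℂ (Theta Φ (b n) (τ n) (-(r (b n))) (w n)) z' (I • Φ.e1) = I • V n := by
    intro n
    rw [map_smul]
  simp only [hIV] at hder2
  -- the simplified limit
  have hlim : ‖Φ.p1 Φ.e1‖ ^ 2 * (Lev h (Φ.p1 z') 1 + Lev (fun ζ => q ζ z') (Φ.p1 z') 1)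
        + 2 * (fderiv ℝ q (Φ.p1 z') (Φ.p1 Φ.e1) Φ.e1 +
          fderiv ℝ q (Φ.p1 z') (I * Φ.p1 Φ.e1) (I • Φ.e1))
        + Lev r 0 (Φ.PW Φ.e1) = Lev h (Φ.p1 z') 1 + Lev (fun ζ => q ζ z') (Φ.p1 z') 1 := by
    have e1 : fderiv ℝ q (Φ.p1 z') (Φ.p1 Φ.e1) Φ.e1 = 0 := by
      have := dq_e1 S (Φ.p1 z') (Φ.p1 Φ.e1) 1
      rwa [one_smul] at this
    have e2 : fderiv ℝ q (Φ.p1 z') (I * Φ.p1 Φ.e1) (I • Φ.e1) = 0 := dq_e1 S _ _ _
    have e3 : Lev r 0 (Φ.PW Φ.e1) = 0 := by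
      rw [Φ.PW_e1]; simp [Lev]
    rw [e1, e2, e3, Φ.p1_e1]
    simp
  rw [hlim] at hlv
  -- lower bound
  have hnorm : Tendsto (fun n => ‖V n‖) atTop (𝓝 0) := by
    have := hV0.norm
    rwa [norm_zero] at this
  have hlow : Tendsto (fun n => -(C * (|r (Θ n) / (-(r (b n)))| * ‖V n‖ ^ 2 +
      Real.sqrt ((fderiv ℝ r (Θ n) (V n) / (-(r (b n)))) ^ 2 +
        (fderiv ℝ r (Θ n) (I • V n) / (-(r (b n)))) ^ 2) * ‖V n‖))) atTop (𝓝 0) := by
    have h1 := (hv1.abs).mul (hnorm.pow 2)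
    have h2 := ((((hder1.pow 2).add (hder2.pow 2)).sqrt).mul hnorm)
    have h3 := ((h1.add h2).const_mul C).neg
    simpa using h3
  have hev : ∀ᶠ n in atTop, Θ n ∈ ball (0 : E) ρ := hv0.eventually (ball_mem_nhds 0 hρ)
  refine le_of_tendsto_of_tendsto hlow hlv ?_
  filter_upwards [hev] with n hn
  have hδ := S.δpos n
  have h1 := hlev (Θ n) hn (V n)
  have h2 := div_le_div_of_nonneg_right h1 hδ.le
  refine le_trans (le_of_eq ?_) h2
  have h3 : Real.sqrt (Nm r (Θ n) (V n)) / (-(r (b n))) =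
      Real.sqrt ((fderiv ℝ r (Θ n) (V n) / (-(r (b n)))) ^ 2 +
        (fderiv ℝ r (Θ n) (I • V n) / (-(r (b n)))) ^ 2) := by
    rw [div_pow, div_pow, ← add_div, Real.sqrt_div' _ (sq_nonneg _), Real.sqrt_sq hδ.le]
    rfl
  rw [← h3, abs_div, abs_of_pos hδ]
  ring

end limit

end E7

open E7 in
/-- E7: `q` constant, `Lev h ≥ 0`, generic point, cubic bound. -/
theorem e7_limit {E : Type} [NormedAddCommGroup E] [InnerProductSpace ℂ E] [FiniteDimensional ℂ E]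
    {Φ : Frame E} {D : Set E} {r : E → ℝ} {U : Set E} {N : ℕ}
    {b : ℕ → E} {τ : ℕ → ℝ} {w : ℕ → ℂ → ℂ} {h : ℂ → ℝ} {q : ℂ → E →L[ℝ] ℝ}
    (hNF : NormalForm Φ D r U N) (S : ScLim Φ r b τ w h q) :
    (∀ ζ, q ζ = q 0) ∧ (∀ ζ, 0 ≤ Lev h ζ 1) ∧ (∀ ε : ℝ, 0 < ε → ∃ ζ, ‖ζ‖ < ε ∧ 0 < Lev h ζ 1) ∧
      ∃ C : ℝ, ∀ ζ : ℂ, ‖ζ‖ ≤ 1 → |h ζ| ≤ C * ‖ζ‖ ^ 3 := by
  have hqx : ∀ x : E, ContDiff ℝ ∞ (fun ζ => q ζ x) := fun x => S.qsm.clm_apply contDiff_const
  -- positivity for all `x`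
  have key : ∀ (ζ : ℂ) (x : E) (t : ℝ), 0 ≤ Lev h ζ 1 + t * Lev (fun ζ => q ζ x) ζ 1 := by
    intro ζ x t
    have h1 := lim_ineq hNF S (ζ • Φ.e1 + (t : ℂ) • Φ.PW x)
    have h2 : Φ.p1 (ζ • Φ.e1 + (t : ℂ) • Φ.PW x) = ζ := by
      rw [map_add, map_smul, map_smul, Φ.p1_e1, Φ.p1_PW]; simp
    have h3 : (fun ζ' => q ζ' (ζ • Φ.e1 + (t : ℂ) • Φ.PW x)) = fun ζ' => t * q ζ' x := by
      funext ζ'
      rw [map_add, q_e1 S, zero_add, Complex.coe_smul, map_smul, S.qPW, smul_eq_mul]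
    rw [h2, h3, LeviC.Lev_const_mul t (((hqx x).of_le (by exact_mod_cast nat_le_infty 2)).contDiffAt)] at h1
    exact h1
  have hq0 : ∀ (x : E) (ζ : ℂ), Lev (fun ζ => q ζ x) ζ 1 = 0 := by
    intro x ζ
    by_contra hne
    have h1 := key ζ x (-(Lev h ζ 1 + 1) / Lev (fun ζ => q ζ x) ζ 1)
    rw [div_mul_cancel₀ _ hne] at h1
    linarith
  have hh0 : ∀ ζ, 0 ≤ Lev h ζ 1 := by
    intro ζ
    have := key ζ 0 0
    simpa using this
  have hhc : ContDiff ℝ ∞ (fun ζ => (h ζ : ℂ)) := ofRealCLM.contDiff.comp S.hsm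
  -- `q` is constant
  have hqc : ∀ ζ, q ζ = q 0 := by
    intro ζ
    ext x
    have hQ : ContDiff ℝ ∞ (fun ζ => Complex.ofRealCLM.comp (q ζ)) := by
      exact contDiff_const.clm_comp S.qsm
    obtain ⟨L, hL⟩ : ∃ L : (E →L[ℝ] ℂ) →L[ℂ] ℂ, ∀ f : E →L[ℝ] ℂ, L f = f x :=
      ⟨LinearMap.mkContinuous
        { toFun := fun f : E →L[ℝ] ℂ => f x
          map_add' := fun _ _ => rfl
          map_smul' := fun _ _ => rfl } ‖x‖ (fun f => by
          rw [mul_comm]; exact f.le_opNorm x), fun f => rfl⟩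
    have hLq : (fun ζ => L (Complex.ofRealCLM.comp (q ζ))) = fun ζ => ((q ζ x : ℝ) : ℂ) := by
      funext ζ'; rw [hL]; rfl
    have hdz : ∀ i, dz^[i] (fun ζ => ((q ζ x : ℝ) : ℂ)) =
        fun ζ => L (dz^[i] (fun ζ => Complex.ofRealCLM.comp (q ζ)) ζ) := by
      intro i
      rw [← hLq]
      exact dz_clm_iter L hQ i
    have hdzb1 : ∀ {f : ℂ → (E →L[ℝ] ℂ)}, ContDiff ℝ ∞ f → dzb (fun ζ => L (f ζ)) =
        fun ζ => L (dzb f ζ) := by
      intro f hf
      funext ζ'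
      have h2 : fderiv ℝ (fun y => L (f y)) ζ' = (L.restrictScalars ℝ).comp (fderiv ℝ f ζ') :=
        ((L.restrictScalars ℝ).hasFDerivAt.comp ζ'
          (hf.differentiable (by simp) ζ').hasFDerivAt).fderiv
      simp only [dzb, h2, ContinuousLinearMap.comp_apply, ContinuousLinearMap.coe_restrictScalars',
        map_smul, map_add]
    have hdzb : ∀ j, dzb^[j] (fun ζ => ((q ζ x : ℝ) : ℂ)) =
        fun ζ => L (dzb^[j] (fun ζ => Complex.ofRealCLM.comp (q ζ)) ζ) := by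
      intro j
      induction j with
      | zero => rw [← hLq]; rfl
      | succ j ih =>
        rw [Function.iterate_succ_apply', ih, hdzb1 (contDiff_dzb_iter hQ j)]
        funext ζ'
        rw [Function.iterate_succ_apply']
    refine const_of_harmonic (hqx x) (fun i hi => ?_) ?_ (hq0 x) ζ
    · rw [hdz i]
      simp only
      rw [S.qpure i hi, map_zero]
    · obtain ⟨N', hN'⟩ := S.qpoly
      refine ⟨N', fun i j hij ζ' => ?_⟩
      rw [hdzb j, dz_clm_iter L (contDiff_dzb_iter hQ j) i]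
      simp only
      rw [hN' i j hij ζ', map_zero]
  refine ⟨hqc, hh0, ?_, ?_⟩
  · -- generic points
    obtain ⟨N', hN'⟩ := S.hpoly
    have hne : ∃ ζ, h ζ ≠ 0 := by
      rcases S.nz with h1 | ⟨ζ, h1⟩
      · exact h1
      · exact absurd (hqc ζ) h1
    obtain ⟨ζ₀, hζ₀⟩ := hne
    have h00 : h 0 = 0 := by
      have := S.hpure 0
      simpa using this
    intro ε hε
    by_contra hcon
    push Not at hcon
    have hnear : ∀ᶠ ζ in 𝓝 (0 : ℂ), dz (dzb (fun ζ => (h ζ : ℂ))) ζ = 0 := by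
      filter_upwards [ball_mem_nhds (0 : ℂ) hε] with ζ hζ
      have h1 : Lev h ζ 1 = 0 := le_antisymm (hcon ζ (by simpa using hζ)) (hh0 ζ)
      have h2 := lev_one_eq S.hsm ζ
      rw [h1] at h2
      simpa using h2.symm
    have hsm2 : ContDiff ℝ ∞ (dz (dzb (fun ζ => (h ζ : ℂ)))) := contDiff_dz (contDiff_dzb hhc)
    have htop2 : ∀ i j, N' < i + j → ∀ ζ,
        dz^[i] (dzb^[j] (dz (dzb (fun ζ => (h ζ : ℂ))))) ζ = 0 := by
      intro i j hij ζ
      rw [dz_iter_dzb (contDiff_dzb hhc), ← Function.iterate_succ_apply,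
        ← Function.iterate_succ_apply]
      exact hN' (i + 1) (j + 1) (by omega) ζ
    have hall := eq_zero_of_near hsm2 htop2 hnear
    have hlev0 : ∀ ζ, Lev h ζ 1 = 0 := by
      intro ζ
      have h2 := lev_one_eq S.hsm ζ
      rw [hall ζ, mul_zero] at h2
      exact_mod_cast h2
    have := const_of_harmonic S.hsm (fun i _ => S.hpure i) ⟨N', hN'⟩ hlev0 ζ₀
    exact hζ₀ (this.trans h00)
  · -- cubic bound
    have h1 : iteratedFDeriv ℝ 1 (fun ζ => (h ζ : ℂ)) 0 = 0 := by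
      refine iteratedFDeriv_eq_zero_of_dz 1 _ hhc fun j l hjl => ?_
      rcases Nat.eq_zero_or_pos j with rfl | hj
      · have hl : l = 1 := by omega
        subst hl
        simp only [Function.iterate_zero, id_eq]
        rw [dzb_iter_ofReal S.hsm, S.hpure, map_zero]
      · have hj1 : j = 1 := by omega
        have hl : l = 0 := by omega
        subst hj1 hl
        exact S.hpure 1
    have h2 : iteratedFDeriv ℝ 2 (fun ζ => (h ζ : ℂ)) 0 = 0 := by
      refine iteratedFDeriv_eq_zero_of_dz 2 _ hhc fun j l hjl => ?_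
      rcases Nat.eq_zero_or_pos j with rfl | hj
      · have hl : l = 2 := by omega
        subst hl
        simp only [Function.iterate_zero, id_eq]
        rw [dzb_iter_ofReal S.hsm, S.hpure, map_zero]
      rcases Nat.eq_zero_or_pos l with rfl | hl
      · have hl : j = 2 := by omega
        subst hl
        exact S.hpure 2
      · have hj1 : j = 1 := by omega
        have hl1 : l = 1 := by omega
        subst hj1 hl1
        exact S.h11
    have h0 : (fun ζ => (h ζ : ℂ)) 0 = 0 := S.hpure 0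
    obtain ⟨C, _, hC⟩ := cubic_bound hhc h0 h1 h2
    refine ⟨C, fun ζ hζ => ?_⟩
    have := hC ζ hζ
    rwa [Complex.norm_real, Real.norm_eq_abs] at this

end Pool.Agent.Sqz
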