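import Pool.Agent.Work.MP_0e9e72_an.E6d

/-! # Block E8: the deduction of `iE` from the sequential limits -/

set_option autoImplicit false
set_option linter.unusedSectionVars false

open Complex Metric Set Filter Topology
open scoped ContDiff

namespace Pool.Agent.Sqz

namespace E8

/-- continuous convergence is uniform on compact sets -/
theorem unif {X : Type*} [MetricSpace X] {K : Set X} (hK : IsCompact K) (Fn : ℕ → X → ℝ)
    (f : X → ℝ) (hf : Continuous f)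
    (h : ∀ φ : ℕ → ℕ, StrictMono φ → ∀ (z : ℕ → X) (z' : X), Tendsto z atTop (𝓝 z') →
      Tendsto (fun n => Fn (φ n) (z n)) atTop (𝓝 (f z'))) {ε : ℝ} (hε : 0 < ε) :
    ∀ᶠ n in atTop, ∀ z ∈ K, |Fn n z - f z| ≤ ε := by
  by_contra hcon
  rw [Filter.not_eventually] at hcon
  obtain ⟨φ, hφ, hP⟩ := Filter.extraction_of_frequently_atTop hcon
  have hy : ∀ n, ∃ z ∈ K, ε < |Fn (φ n) z - f z| := by
    intro n
    have := hP n
    push Not at this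
    exact this
  choose z hzK hz using hy
  obtain ⟨z', hz', ψ, hψ, hlim⟩ := hK.tendsto_subseq hzK
  have h1 := h (φ ∘ ψ) (hφ.comp hψ) (z ∘ ψ) z' hlim
  have h2 : Tendsto (fun n => f ((z ∘ ψ) n)) atTop (𝓝 (f z')) := (hf.tendsto z').comp hlim
  have h3 := (h1.sub h2).abs
  rw [sub_self, abs_zero] at h3
  have h4 := h3.eventually_lt_const hε
  obtain ⟨n, hn⟩ := h4.exists
  have h5 := hz (ψ n)
  simp only [Function.comp] at hn
  linarith

end E8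

section
variable {E : Type} [NormedAddCommGroup E] [InnerProductSpace ℂ E] [FiniteDimensional ℂ E]
variable {Φ : Frame E} {D : Set E} {r : E → ℝ} {U : Set E} {N : ℕ}
variable {b : ℕ → E} {τ : ℕ → ℝ} {w : ℕ → ℂ → ℂ} {h : ℂ → ℝ} {q : ℂ → E →L[ℝ] ℝ}

namespace E8

/-- the limit function -/
noncomputable def rh (Φ : Frame E) (r : E → ℝ) (h : ℂ → ℝ) (q : ℂ → E →L[ℝ] ℝ) (z : E) : ℝ :=
  -1 + h (Φ.p1 z) + q (Φ.p1 z) z + 1 / 2 * fderiv ℝ (fderiv ℝ r) 0 (Φ.PW z) (Φ.PW z)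
        + (Φ.pw z).re

/-- its derivative -/
noncomputable def rh1 (Φ : Frame E) (r : E → ℝ) (h : ℂ → ℝ) (q : ℂ → E →L[ℝ] ℝ) (z v : E) : ℝ :=
  fderiv ℝ h (Φ.p1 z) (Φ.p1 v) + fderiv ℝ q (Φ.p1 z) (Φ.p1 v) z + q (Φ.p1 z) v
        + fderiv ℝ (fderiv ℝ r) 0 (Φ.PW z) (Φ.PW v) + (Φ.pw v).re

/-- its Levi form -/
noncomputable def rh2 (Φ : Frame E) (r : E → ℝ) (h : ℂ → ℝ) (q : ℂ → E →L[ℝ] ℝ) (z v : E) : ℝ :=
  ‖Φ.p1 v‖ ^ 2 * (Lev h (Φ.p1 z) 1 + Lev (fun ζ => q ζ z) (Φ.p1 z) 1)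
        + 2 * (fderiv ℝ q (Φ.p1 z) (Φ.p1 v) v + fderiv ℝ q (Φ.p1 z) (I * Φ.p1 v) (I • v))
        + Lev r 0 (Φ.PW v)

theorem continuous_rh (S : ScLim Φ r b τ w h q) : Continuous (rh Φ r h q) := by
  unfold rh
  have h1 : Continuous (fun z : E => h (Φ.p1 z)) := S.hsm.continuous.comp Φ.p1.continuous
  have h2 : Continuous (fun z : E => q (Φ.p1 z) z) :=
    (S.qsm.continuous.comp Φ.p1.continuous).clm_apply continuous_id
  have h3 : Continuous (fun z : E => fderiv ℝ (fderiv ℝ r) 0 (Φ.PW z) (Φ.PW z)) :=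
    ((fderiv ℝ (fderiv ℝ r) 0).continuous.comp Φ.PW.continuous).clm_apply Φ.PW.continuous
  have h4 : Continuous (fun z : E => (Φ.pw z).re) := Complex.continuous_re.comp Φ.pw.continuous
  exact (((continuous_const.add h1).add h2).add (continuous_const.mul h3)).add h4

/-- the quantity of the generic-point estimate -/
noncomputable def Qg (r : E → ℝ) (T : E → E) (z v : E) : ℝ :=
  Lev r (T z) (fderiv ℂ T z v) / (-(r (T z))) + Nm r (T z) (fderiv ℂ T z v) / (12 * r (T z) ^ 2)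

theorem Qg_smul (r : E → ℝ) (T : E → E) (z v : E) (t : ℝ) :
    Qg r T z (t • v) = t ^ 2 * Qg r T z v := by
  have h1 : fderiv ℂ T z (t • v) = t • fderiv ℂ T z v := by
    rw [← Complex.coe_smul, map_smul, Complex.coe_smul]
  unfold Qg
  rw [h1]
  simp only [Lev, Nm, smul_comm I t, map_smul, smul_apply, smul_eq_mul]
  ring

theorem Qg_lim (hNF : NormalForm Φ D r U N) (S : ScLim Φ r b τ w h q) (φ : ℕ → ℕ)
    (hφ : StrictMono φ) (z v : ℕ → E) (z' v' : E) (hz : Tendsto z atTop (𝓝 z'))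
    (hv : Tendsto v atTop (𝓝 v')) (hne : rh Φ r h q z' ≠ 0) :
    Tendsto (fun n => Qg r (Theta Φ (b (φ n)) (τ (φ n)) (-(r (b (φ n)))) (w (φ n))) (z n) (v n))
      atTop (𝓝 (rh2 Φ r h q z' v' / (-(rh Φ r h q z')) +
        ((rh1 Φ r h q z' v') ^ 2 + (rh1 Φ r h q z' (I • v')) ^ 2) / (12 * rh Φ r h q z' ^ 2))) := by
  have h0 := (e6_value hNF S φ hφ z z' hz).2
  have h1 := e6_deriv hNF S φ hφ z v z' v' hz hv
  have h2 := e6_deriv hNF S φ hφ z (fun n => I • v n) z' (I • v') hz (hv.const_smul I)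
  have h3 := (e6_lev hNF S φ hφ z v z' v' hz hv).2
  have h4 := (h3.div h0.neg (neg_ne_zero.2 hne)).add
    (((h1.pow 2).add (h2.pow 2)).div ((h0.pow 2).const_mul 12)
      (by
        have : rh Φ r h q z' ^ 2 ≠ 0 := pow_ne_zero 2 hne
        exact mul_ne_zero (by norm_num) this))
  refine Tendsto.congr (fun n => ?_) h4
  have hδ : -(r (b (φ n))) ≠ 0 := (S.δpos _).ne'
  have e1 : fderiv ℂ (Theta Φ (b (φ n)) (τ (φ n)) (-(r (b (φ n)))) (w (φ n))) (z n) (I • v n) =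
      I • fderiv ℂ (Theta Φ (b (φ n)) (τ (φ n)) (-(r (b (φ n)))) (w (φ n))) (z n) (v n) :=
    map_smul _ _ _
  simp only [Pi.div_apply]
  rw [e1]
  unfold Qg Nm
  set δ : ℝ := -(r (b (φ n)))
  set T := Theta Φ (b (φ n)) (τ (φ n)) δ (w (φ n))
  congr 1
  · rw [← neg_div, div_div_div_cancel_right₀ hδ]
  · rw [div_pow, div_pow, ← add_div, div_pow, ← mul_div_assoc, div_div_div_cancel_right₀]
    exact pow_ne_zero 2 hδ

end E8

open E8 in
/-- Deduction of `iE` from the limit data. -/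
theorem iE_of_sclim (hNF : NormalForm Φ D r U N) (S : ScLim Φ r b τ w h q)
    (hq : ∀ ζ, q ζ = q 0) (hL : ∀ ζ, 0 ≤ Lev h ζ 1)
    (hgen : ∀ ε : ℝ, 0 < ε → ∃ ζ, ‖ζ‖ < ε ∧ 0 < Lev h ζ 1)
    {C : ℝ} (hC : ∀ ζ : ℂ, ‖ζ‖ ≤ 1 → |h ζ| ≤ C * ‖ζ‖ ^ 3) :
    ∃ (Θ : ℕ → E → E) (a a₁ c : ℝ) (ζ₁ : ℂ),
      (∀ n, Θ n = Theta Φ (b n) (τ n) (-(r (b n))) (w n)) ∧
      (∀ R : ℝ, ∀ ρ : ℝ, 0 < ρ → ∀ᶠ n in atTop, ∀ z, ‖z‖ ≤ R → ‖Θ n z‖ < ρ) ∧
      0 < a ∧ (∀ᶠ n in atTop, ∀ z, ‖z‖ ≤ a → |r (Θ n z) / (-(r (b n))) + 1| ≤ 1 / 2) ∧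
      (∀ R ε : ℝ, 0 < ε → ∀ᶠ n in atTop, ∀ ζ ξ : ℂ, ‖ζ‖ ≤ 1 → ‖ξ‖ ≤ R →
        |r (Θ n (ζ • Φ.e1 + ξ • Φ.ew)) / (-(r (b n))) - (-1 + h ζ + ξ.re)| ≤ ε) ∧
      (∀ ζ : ℂ, ‖ζ‖ ≤ 1 → |h ζ| ≤ C * ‖ζ‖ ^ 3) ∧
      ‖ζ₁‖ * ‖Φ.e1‖ ≤ a / 4 ∧ 0 < a₁ ∧ a₁ ≤ a / 4 ∧ 0 < c ∧
      (∀ᶠ n in atTop, ∀ z, ‖z - ζ₁ • Φ.e1‖ ≤ a₁ → ∀ v,
        c * ‖v‖ ^ 2 ≤ Lev r (Θ n z) (fderiv ℂ (Θ n) z v) / (-(r (Θ n z))) +
          Nm r (Θ n z) (fderiv ℂ (Θ n) z v) / (12 * r (Θ n z) ^ 2)) := by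
  have : ProperSpace E := FiniteDimensional.proper ℂ E
  set Θ : ℕ → E → E := fun n => Theta Φ (b n) (τ n) (-(r (b n))) (w n) with hΘ
  have hcont := continuous_rh S
  have hh0 : h 0 = 0 := by simpa using hC 0 (by simp)
  have hrh0 : rh Φ r h q 0 = -1 := by simp [rh, hh0]
  -- uniform convergence of the values
  have hunif : ∀ R ε : ℝ, 0 < ε → ∀ᶠ n in atTop, ∀ z ∈ closedBall (0 : E) R,
      |r (Θ n z) / (-(r (b n))) - rh Φ r h q z| ≤ ε := by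
    intro R ε hε
    exact unif (isCompact_closedBall 0 R) (fun n z => r (Θ n z) / (-(r (b n)))) _ hcont
      (fun φ hφ z z' hz => (e6_value hNF S φ hφ z z' hz).2) hε
  -- the tube
  obtain ⟨a, ha, has⟩ : ∃ a > 0, ∀ z ∈ closedBall (0 : E) a, |rh Φ r h q z + 1| ≤ 1 / 4 := by
    have h1 : Tendsto (fun z => |rh Φ r h q z + 1|) (𝓝 0) (𝓝 |rh Φ r h q 0 + 1|) :=
      ((hcont.add continuous_const).abs).tendsto 0
    rw [hrh0] at h1
    have h2 : |(-1 : ℝ) + 1| = 0 := by norm_num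
    rw [h2] at h1
    obtain ⟨δ, hδ, hδs⟩ := Metric.eventually_nhds_iff_ball.1
      (h1.eventually_lt_const (show (0 : ℝ) < 1 / 4 by norm_num))
    exact ⟨δ / 2, by positivity, fun z hz => (hδs z (closedBall_subset_ball (by linarith) hz)).le⟩
  -- generic point
  have he1 : 0 < ‖Φ.e1‖ := by
    rw [norm_pos_iff]
    intro h0
    have := Φ.p1_e1
    rw [h0, map_zero] at this
    exact zero_ne_one this
  obtain ⟨ζ₁, hζ₁, hζ₁pos⟩ := hgen (a / (4 * ‖Φ.e1‖)) (by positivity)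
  have hζ₁a : ‖ζ₁‖ * ‖Φ.e1‖ ≤ a / 4 := by
    rw [lt_div_iff₀ (by positivity)] at hζ₁
    linarith
  set z1 : E := ζ₁ • Φ.e1 with hz1
  have hz1n : ‖z1‖ ≤ a / 4 := by rw [hz1, norm_smul]; exact hζ₁a
  have hp1 : Φ.p1 z1 = ζ₁ := by rw [hz1, map_smul, Φ.p1_e1, smul_eq_mul, mul_one]
  have hPWz1 : Φ.PW z1 = 0 := by rw [hz1, map_smul, Φ.PW_e1, smul_zero]
  have hrz1 := abs_le.1 (has z1 (by rw [mem_closedBall_zero_iff]; linarith))
  have hrz1neg : rh Φ r h q z1 < 0 := by linarith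
  -- positivity of the limit quantity at the generic point
  have hpos : ∀ v : E, v ≠ 0 → 0 < rh2 Φ r h q z1 v / (-(rh Φ r h q z1)) +
      ((rh1 Φ r h q z1 v) ^ 2 + (rh1 Φ r h q z1 (I • v)) ^ 2) / (12 * rh Φ r h q z1 ^ 2) := by
    intro v hv
    have hqc : q = fun _ => q 0 := by funext ζ; exact hq ζ
    have hdq : ∀ ζ, fderiv ℝ q ζ = 0 := by
      intro ζ; rw [hqc]; exact fderiv_const_apply _
    have hLq : Lev (fun ζ => q ζ z1) (Φ.p1 z1) 1 = 0 := by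
      have e1 : (fun ζ : ℂ => q ζ z1) = fun _ => q 0 z1 := by funext ζ; rw [hq ζ]
      have e2 : fderiv ℝ (fun _ : ℂ => q 0 z1) = fun _ => 0 := by
        funext ζ; exact fderiv_const_apply _
      simp [Lev, e1, e2]
    have hr2 : rh2 Φ r h q z1 v = ‖Φ.p1 v‖ ^ 2 * Lev h ζ₁ 1 + Lev r 0 (Φ.PW v) := by
      unfold rh2
      rw [hLq, hdq, hp1]
      simp
    obtain ⟨cW, hcW, hlevW⟩ := hNF.levW
    have hW := hlevW v
    have h1 : 0 ≤ ‖Φ.p1 v‖ ^ 2 * Lev h ζ₁ 1 := by positivity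
    have h2 : 0 ≤ cW * ‖Φ.PW v‖ ^ 2 := by positivity
    have h3 : 0 < -(rh Φ r h q z1) := by linarith
    have h4 : 0 < 12 * rh Φ r h q z1 ^ 2 := by
      have h5 : rh Φ r h q z1 ≠ 0 := hrz1neg.ne
      positivity
    by_cases hcase : Φ.p1 v = 0 ∧ Φ.PW v = 0
    · obtain ⟨hc1, hc2⟩ := hcase
      have hvw : v = Φ.pw v • Φ.ew := by
        have := Φ.decomp v
        rw [hc1, hc2, zero_smul, zero_add, zero_add] at this
        exact this
      have hpw : Φ.pw v ≠ 0 := by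
        intro h0
        rw [h0, zero_smul] at hvw
        exact hv hvw
      have hqv : ∀ u : E, Φ.PW u = 0 → q 0 u = 0 := by
        intro u hu
        rw [← S.qPW 0 u, hu, map_zero]
      have e1 : rh1 Φ r h q z1 v = (Φ.pw v).re := by
        unfold rh1
        rw [hdq, hc1, hc2, hq, hqv v hc2]
        simp
      have e2 : rh1 Φ r h q z1 (I • v) = -(Φ.pw v).im := by
        unfold rh1
        have e3 : Φ.PW (I • v) = 0 := by rw [map_smul, hc2, smul_zero]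
        rw [hdq, hq, hqv _ e3, e3]
        simp [hc1]
      have e4 : 0 < (rh1 Φ r h q z1 v) ^ 2 + (rh1 Φ r h q z1 (I • v)) ^ 2 := by
        rw [e1, e2]
        have := Complex.normSq_pos.2 hpw
        rw [Complex.normSq_apply] at this
        nlinarith
      have e5 : 0 ≤ rh2 Φ r h q z1 v := by rw [hr2]; linarith
      exact add_pos_of_nonneg_of_pos (div_nonneg e5 h3.le) (div_pos e4 h4)
    · have e5 : 0 < rh2 Φ r h q z1 v := by
        rw [hr2]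
        rw [not_and_or] at hcase
        rcases hcase with hc | hc
        · have : 0 < ‖Φ.p1 v‖ ^ 2 * Lev h ζ₁ 1 := by
            have := norm_pos_iff.2 hc
            positivity
          linarith
        · have : 0 < cW * ‖Φ.PW v‖ ^ 2 := by
            have := norm_pos_iff.2 hc
            positivity
          linarith
      have e4 : 0 ≤ (rh1 Φ r h q z1 v) ^ 2 + (rh1 Φ r h q z1 (I • v)) ^ 2 := by positivity
      exact add_pos_of_pos_of_nonneg (div_pos e5 h3) (div_nonneg e4 h4.le)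
  -- the generic estimate, by contradiction
  obtain ⟨k, hk⟩ : ∃ k : ℕ, ∀ᶠ n in atTop, ∀ z, ‖z - z1‖ ≤ min (a / 4) (1 / ((k : ℝ) + 1)) →
      ∀ v, 1 / ((k : ℝ) + 1) * ‖v‖ ^ 2 ≤ Qg r (Θ n) z v := by
    by_contra hcon
    push Not at hcon
    have hfreq : ∀ k : ℕ, ∃ᶠ n in atTop, ∃ z v, ‖z - z1‖ ≤ 1 / ((k : ℝ) + 1) ∧ ‖v‖ = 1 ∧
        Qg r (Θ n) z v < 1 / ((k : ℝ) + 1) := by
      intro k
      refine (hcon k).mono fun n hn => ?_
      obtain ⟨z, hz, v, hv⟩ := hn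
      have hv0 : v ≠ 0 := by
        intro h0
        have e1 := Qg_smul r (Θ n) z v 0
        rw [h0] at e1 hv
        simp only [smul_zero] at e1
        rw [e1] at hv
        simp at hv
      have hvp : 0 < ‖v‖ := norm_pos_iff.2 hv0
      refine ⟨z, ‖v‖⁻¹ • v, hz.trans (min_le_right _ _), ?_, ?_⟩
      · rw [norm_smul, norm_inv, norm_norm, inv_mul_cancel₀ hvp.ne']
      · rw [Qg_smul]
        calc ‖v‖⁻¹ ^ 2 * Qg r (Θ n) z v < ‖v‖⁻¹ ^ 2 * (1 / ((k : ℝ) + 1) * ‖v‖ ^ 2) := by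
              apply mul_lt_mul_of_pos_left hv (by positivity)
          _ = 1 / ((k : ℝ) + 1) := by field_simp
    obtain ⟨φ, hφ, hP⟩ := Filter.extraction_forall_of_frequently hfreq
    choose z v hz hv hQ using hP
    obtain ⟨v', hv', ψ, hψ, hvlim⟩ := (isCompact_sphere (0 : E) 1).tendsto_subseq
      (fun n => mem_sphere_zero_iff_norm.2 (hv n))
    have hzlim : Tendsto z atTop (𝓝 z1) := by
      rw [tendsto_iff_norm_sub_tendsto_zero]
      exact squeeze_zero (fun n => norm_nonneg _) hz tendsto_one_div_add_atTop_nhds_zero_nat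
    have hlim := Qg_lim hNF S (φ ∘ ψ) (hφ.comp hψ) (z ∘ ψ) (v ∘ ψ) z1 v'
      (hzlim.comp hψ.tendsto_atTop) hvlim hrz1neg.ne
    have hle : Tendsto (fun n => 1 / (((ψ n : ℕ) : ℝ) + 1)) atTop (𝓝 0) :=
      tendsto_one_div_add_atTop_nhds_zero_nat.comp hψ.tendsto_atTop
    have hcontra := le_of_tendsto_of_tendsto' hlim hle (fun n => (hQ (ψ n)).le)
    have hv'0 : v' ≠ 0 := by
      intro h0
      rw [h0] at hv'
      simp at hv'
    have := hpos v' hv'0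
    linarith
  refine ⟨Θ, a, min (a / 4) (1 / ((k : ℝ) + 1)), 1 / ((k : ℝ) + 1), ζ₁, fun n => rfl, ?_, ha, ?_,
    ?_, hC, hζ₁a, by positivity, min_le_left _ _, by positivity, ?_⟩
  · intro R ρ hρ
    have h1 := unif (isCompact_closedBall (0 : E) R) (fun n z => ‖Θ n z‖) (fun _ => 0)
      continuous_const (fun φ hφ z z' hz => by
        have := (e6_value hNF S φ hφ z z' hz).1.norm
        rw [norm_zero] at this
        exact this) (half_pos hρ)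
    filter_upwards [h1] with n hn z hz
    have := hn z (by rw [mem_closedBall_zero_iff]; exact hz)
    rw [sub_zero, abs_of_nonneg (norm_nonneg _)] at this
    linarith
  · filter_upwards [hunif a (1 / 4) (by norm_num)] with n hn z hz
    have hzm : z ∈ closedBall (0 : E) a := by rw [mem_closedBall_zero_iff]; exact hz
    have h1 := hn z hzm
    have h2 := has z hzm
    calc |r (Θ n z) / (-(r (b n))) + 1| =
        |(r (Θ n z) / (-(r (b n))) - rh Φ r h q z) + (rh Φ r h q z + 1)| := by congr 1; ring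
      _ ≤ |r (Θ n z) / (-(r (b n))) - rh Φ r h q z| + |rh Φ r h q z + 1| := abs_add_le _ _
      _ ≤ 1 / 2 := by linarith
  · intro R ε hε
    filter_upwards [hunif (‖Φ.e1‖ + R * ‖Φ.ew‖) ε hε] with n hn ζ ξ hζ hξ
    have hzm : ζ • Φ.e1 + ξ • Φ.ew ∈ closedBall (0 : E) (‖Φ.e1‖ + R * ‖Φ.ew‖) := by
      rw [mem_closedBall_zero_iff]
      calc ‖ζ • Φ.e1 + ξ • Φ.ew‖ ≤ ‖ζ • Φ.e1‖ + ‖ξ • Φ.ew‖ := norm_add_le _ _
        _ = ‖ζ‖ * ‖Φ.e1‖ + ‖ξ‖ * ‖Φ.ew‖ := by rw [norm_smul, norm_smul]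
        _ ≤ 1 * ‖Φ.e1‖ + R * ‖Φ.ew‖ := by gcongr
        _ = _ := by ring
    have h1 := hn _ hzm
    have h2 : rh Φ r h q (ζ • Φ.e1 + ξ • Φ.ew) = -1 + h ζ + ξ.re := by
      have e1 : Φ.p1 (ζ • Φ.e1 + ξ • Φ.ew) = ζ := by
        rw [map_add, map_smul, map_smul, Φ.p1_e1, Φ.p1_ew]; simp
      have e2 : Φ.PW (ζ • Φ.e1 + ξ • Φ.ew) = 0 := by
        rw [map_add, map_smul, map_smul, Φ.PW_e1, Φ.PW_ew]; simp
      have e3 : Φ.pw (ζ • Φ.e1 + ξ • Φ.ew) = ξ := by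
        rw [map_add, map_smul, map_smul, Φ.pw_e1, Φ.pw_ew]; simp
      unfold rh
      rw [e1, e2, e3, ← S.qPW ζ, e2]
      simp
    rw [h2] at h1
    exact h1
  · exact hk

end

end Pool.Agent.Sqz
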