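import Pool.Agent.Work.MP_0e9e72_an.EndD
import Pool.Agent.Work.MP_0e9e72_an.E7
import Pool.Agent.Work.MP_0e9e72_an.E8
import Pool.Agent.Work.MP_0e9e72_an.E5

set_option autoImplicit false

open Complex Metric Set Filter Topology
open scoped ContDiff

namespace Pool.Agent.Sqz

/-- Block E: the scaling step. `δ n = -(r (b n))`. -/
theorem iE {E : Type} [NormedAddCommGroup E] [InnerProductSpace ℂ E] [FiniteDimensional ℂ E]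
    {Φ : Frame E} {D : Set E} {r : E → ℝ} {U : Set E} {N : ℕ} (hNF : NormalForm Φ D r U N)
    (b : ℕ → E) (hbD : ∀ n, b n ∈ D) (hb0 : Tendsto b atTop (𝓝 0))
    (hb : ∃ C : ℝ, ∀ᶠ n in atTop, ‖b n‖ ^ 2 ≤ C * (-(r (b n)))) :
    ∃ (φ : ℕ → ℕ) (τ : ℕ → ℝ) (w : ℕ → ℂ → ℂ) (Θ : ℕ → E → E) (h : ℂ → ℝ) (C a a₁ c : ℝ) (ζ₁ : ℂ),
      StrictMono φ ∧ (∀ n, 0 < τ n) ∧ Tendsto τ atTop (𝓝 0) ∧
      (∀ n, ContDiff ℂ ∞ (w n)) ∧ (∀ n, w n 0 = 0) ∧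
      (∀ n, Θ n = Theta Φ (b (φ n)) (τ n) (-(r (b (φ n)))) (w n)) ∧
      -- `Θ n → 0` locally uniformly
      (∀ R : ℝ, ∀ ρ : ℝ, 0 < ρ → ∀ᶠ n in atTop, ∀ z, ‖z‖ ≤ R → ‖Θ n z‖ < ρ) ∧
      -- depth in the tube
      0 < a ∧ (∀ᶠ n in atTop, ∀ z, ‖z‖ ≤ a → |r (Θ n z) / (-(r (b (φ n)))) + 1| ≤ 1 / 2) ∧
      -- slices
      (∀ R ε : ℝ, 0 < ε → ∀ᶠ n in atTop, ∀ ζ ξ : ℂ, ‖ζ‖ ≤ 1 → ‖ξ‖ ≤ R →
        |r (Θ n (ζ • Φ.e1 + ξ • Φ.ew)) / (-(r (b (φ n)))) - (-1 + h ζ + ξ.re)| ≤ ε) ∧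
      (∀ ζ : ℂ, ‖ζ‖ ≤ 1 → |h ζ| ≤ C * ‖ζ‖ ^ 3) ∧
      -- generic point
      ‖ζ₁‖ * ‖Φ.e1‖ ≤ a / 4 ∧ 0 < a₁ ∧ a₁ ≤ a / 4 ∧ 0 < c ∧
      (∀ᶠ n in atTop, ∀ z, ‖z - ζ₁ • Φ.e1‖ ≤ a₁ → ∀ v,
        c * ‖v‖ ^ 2 ≤ Lev r (Θ n z) (fderiv ℂ (Θ n) z v) / (-(r (Θ n z))) +
          Nm r (Θ n z) (fderiv ℂ (Θ n) z v) / (12 * r (Θ n z) ^ 2)) := by
  obtain ⟨φ, τ, w, h, q, hφ, S⟩ := e5_sclim hNF b hbD hb0 hb
  obtain ⟨hq, hL, hgen, C, hC⟩ := e7_limit hNF S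
  obtain ⟨Θ, a, a₁, c, ζ₁, hΘ, hsmall, ha, htube, hslice, hcub, h1, h2, h3, h4, hg⟩ :=
    iE_of_sclim hNF S hq hL hgen hC
  exact ⟨φ, τ, w, Θ, h, C, a, a₁, c, ζ₁, hφ, S.τpos, S.τ0, S.wsm, S.w0, hΘ, hsmall, ha, htube,
    hslice, hcub, h1, h2, h3, h4, hg⟩

/-- Block M: the normalised situation is impossible. -/
theorem mainM {E : Type} [NormedAddCommGroup E] [InnerProductSpace ℂ E] [FiniteDimensional ℂ E]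
    {Φ : Frame E} {D : Set E} {r : E → ℝ} {U : Set E} {N : ℕ} (hNF : NormalForm Φ D r U N)
    (b : ℕ → E) (hbD : ∀ n, b n ∈ D) (hb0 : Tendsto b atTop (𝓝 0))
    (hb : ∃ C : ℝ, ∀ᶠ n in atTop, ‖b n‖ ^ 2 ≤ C * (-(r (b n))))
    (hF : ∀ ε : ℝ, 0 < ε → ∀ᶠ n in atTop, ∃ F : E → E, DifferentiableOn ℂ F D ∧ InjOn F D ∧
      MapsTo F D (ball 0 1) ∧ F (b n) = 0 ∧ ball 0 (1 - ε) ⊆ F '' D) : False := by
  obtain ⟨φ, hφ, hP⟩ := Filter.extraction_forall_of_eventually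
    (P := fun k n => ∃ F : E → E, DifferentiableOn ℂ F D ∧ InjOn F D ∧
      MapsTo F D (ball 0 1) ∧ F (b n) = 0 ∧ ball 0 (1 - 1 / ((k : ℝ) + 1)) ⊆ F '' D)
    (fun k => hF (1 / ((k : ℝ) + 1)) (by positivity))
  choose F hFd hFi hFm hFb hFs using hP
  have hG : ∀ n, ∃ g : E → E, IsOpen (F n '' D) ∧ DifferentiableOn ℂ g (F n '' D) ∧
      ∀ z ∈ D, g (F n z) = z := fun n => iA3 hNF.openD (hFd n) (hFi n)
  choose G hGo hGd hGF using hG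
  have S : SqSeq D (b ∘ φ) F G :=
    { hF := hFd
      inj := hFi
      maps := hFm
      Fb := hFb
      surj := hFs
      openFD := hGo
      hG := hGd
      GF := hGF
      bD := fun n => hbD _
      b0 := hb0.comp hφ.tendsto_atTop }
  obtain ⟨Cb, hCb⟩ := hb
  obtain ⟨ψ, τ, w, Θ, h, C, a, a₁, c, ζ₁, hψ, h1, h2, h3, h4, h5, h6, h7, h8, h9, h10, h11, h12,
    h13, h14, h15⟩ := iE hNF (b ∘ φ) S.bD S.b0 ⟨Cb, hφ.tendsto_atTop.eventually hCb⟩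
  have A : Sc Φ r ((b ∘ φ) ∘ ψ) τ w Θ h C a a₁ c ζ₁ :=
    { τpos := h1
      τ0 := h2
      wsm := h3
      w0 := h4
      Θdef := h5
      small := h6
      apos := h7
      tube := h8
      slice := h9
      cubic := h10
      hζ₁ := h11
      a₁pos := h12
      a₁le := h13
      cpos := h14
      generic := h15 }
  exact endgame hNF (S.subseq hψ) A

end Pool.Agent.Sqz
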