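import Pool.Agent.Work.MP_0e9e72_an.PT

/-!
Block B, item 2: comparison of a nonnegative `C²` superharmonic function with the logarithm
on an annulus.
-/

set_option autoImplicit false

open Complex Metric Set Filter Topology

namespace Pool.Agent.Sqz

theorem iB2 {s : ℂ → ℝ} {c : ℂ} {r R m : ℝ} (hr : 0 < r) (hrR : r < R)
    (hs : ∀ z ∈ ball c R, ContDiffAt ℝ 2 s z) (hL : ∀ z ∈ ball c R, Lev s z 1 ≤ 0)
    (hpos : ∀ z ∈ ball c R, 0 ≤ s z) (hm0 : 0 ≤ m) (hm : ∀ z, dist z c = r → m ≤ s z) :
    ∀ z, r ≤ dist z c → dist z c < R →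
      m * (Real.log (R / dist z c) / Real.log (R / r)) ≤ s z := by
  intro z hz1 hz2
  set d : ℝ := dist z c with hd
  have hd0 : 0 < d := hr.trans_le hz1
  have hR0 : 0 < R := hr.trans hrR
  have main : ∀ R', d < R' → R' < R → m * (Real.log (R' / d) / Real.log (R' / r)) ≤ s z := by
    intro R' h1 h2
    have hrR' : r < R' := hz1.trans_lt h1
    have hR'0 : 0 < R' := hr.trans hrR'
    have hlog : 0 < Real.log (R' / r) := Real.log_pos ((one_lt_div hr).2 hrR')
    set K : Set ℂ := closedBall c R' \ ball c r with hK
    have hKc : IsCompact K := (isCompact_closedBall c R').diff isOpen_ball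
    have hKmem : ∀ w ∈ K, r ≤ dist w c ∧ dist w c ≤ R' := by
      intro w hw
      exact ⟨not_lt.1 hw.2, hw.1⟩
    have hKball : ∀ w ∈ K, w ∈ ball c R := fun w hw => (hKmem w hw).2.trans_lt h2
    have hKne : ∀ w ∈ K, w ≠ c := by
      intro w hw h
      have := (hKmem w hw).1
      rw [h, dist_self] at this
      linarith
    set A : ℝ := m / Real.log (R' / r) with hA
    set u : ℂ → ℝ := fun w => (A * Real.log R' - A * Real.log ‖w - c‖) - s w with hu
    have hcl : ∀ w ∈ K, ContDiffAt ℝ 2 (fun w : ℂ => A * Real.log R' - A * Real.log ‖w - c‖) w := by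
      intro w hw
      exact contDiffAt_const.sub (contDiffAt_const.mul (Lev_log_norm (hKne w hw)).1)
    have hcu : ∀ w ∈ K, ContDiffAt ℝ 2 u w := fun w hw => (hcl w hw).sub (hs w (hKball w hw))
    have hle : ∀ w ∈ K, u w ≤ 0 := by
      refine max_principle hKc (fun w hw => (hcu w hw).continuousAt.continuousWithinAt)
        (fun w hw => hcu w (interior_subset hw)) ?_ ?_
      · intro w hw
        have hwK := interior_subset hw
        obtain ⟨l1, l2⟩ := Lev_log_norm (hKne w hwK)
        have e1 : Lev (fun w : ℂ => A * Real.log R' - A * Real.log ‖w - c‖) w 1 = 0 := by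
          rw [Lev_sub contDiffAt_const (contDiffAt_const.mul l1), Lev_const,
            Lev_const_mul _ _ l1, l2]
          ring
        rw [hu, Lev_sub (hcl w hwK) (hs w (hKball w hwK)), e1]
        have := hL w (hKball w hwK)
        linarith
      · intro w hw hwi
        obtain ⟨g1, g2⟩ := hKmem w hw
        have hcase : dist w c = r ∨ dist w c = R' := by
          by_contra hcon
          push Not at hcon
          apply hwi
          rw [mem_interior_iff_mem_nhds]
          have ho : IsOpen (ball c R' \ closedBall c r) := isOpen_ball.sdiff isClosed_closedBall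
          refine mem_of_superset (ho.mem_nhds ⟨lt_of_le_of_ne g2 hcon.2, fun h => ?_⟩) ?_
          · exact hcon.1 (le_antisymm h g1)
          · intro x hx
            exact ⟨ball_subset_closedBall hx.1, fun h => hx.2 (ball_subset_closedBall h)⟩
        rcases hcase with hw1 | hw1
        · have e : u w = m - s w := by
            simp only [hu]
            rw [← dist_eq_norm, hw1, hA, ← mul_sub, ← Real.log_div hR'0.ne' hr.ne']
            field_simp [hlog.ne']
          rw [e]
          linarith [hm w hw1]
        · have e : u w = - s w := by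
            simp only [hu]
            rw [← dist_eq_norm, hw1]
            ring
          rw [e]
          linarith [hpos w (hKball w hw)]
    have hzK : z ∈ K := ⟨le_of_lt h1, not_lt.2 hz1⟩
    have h3 := hle z hzK
    simp only [hu] at h3
    rw [← dist_eq_norm, ← hd, hA, ← mul_sub, ← Real.log_div hR'0.ne' hd0.ne'] at h3
    calc m * (Real.log (R' / d) / Real.log (R' / r))
        = m / Real.log (R' / r) * Real.log (R' / d) := by ring
      _ ≤ s z := by linarith
  have hlim : Tendsto (fun R' : ℝ => m * (Real.log (R' / d) / Real.log (R' / r))) (𝓝[<] R)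
      (𝓝 (m * (Real.log (R / d) / Real.log (R / r)))) := by
    have hlogR : Real.log (R / r) ≠ 0 := (Real.log_pos ((one_lt_div hr).2 hrR)).ne'
    have h1 : ContinuousAt (fun R' : ℝ => Real.log (R' / d)) R :=
      ContinuousAt.log (by fun_prop) (div_pos hR0 hd0).ne'
    have h2 : ContinuousAt (fun R' : ℝ => Real.log (R' / r)) R :=
      ContinuousAt.log (by fun_prop) (div_pos hR0 hr).ne'
    exact ((continuousAt_const.mul (h1.div h2 hlogR)).tendsto).mono_left nhdsWithin_le_nhds
  refine le_of_tendsto hlim ?_
  have : Ioo d R ∈ 𝓝[<] R := Ioo_mem_nhdsLT hz2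
  filter_upwards [this] with R' hR'
  exact main R' hR'.1 hR'.2

end Pool.Agent.Sqz
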