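import Pool.Agent.Work.MP_0e9e72_an.Defs

/-!
Block B, item 3: Montel's theorem for bounded sequences of holomorphic maps on discs `ball 0 (ρ n)`
with `ρ n → 1`.
-/

set_option autoImplicit false

open Complex Metric Set Filter Topology

namespace Pool.Agent.Sqz

theorem iB3 {E : Type*} [NormedAddCommGroup E] [NormedSpace ℂ E] [FiniteDimensional ℂ E]
    (g : ℕ → ℂ → E) (ρ : ℕ → ℝ) (hρ : Tendsto ρ atTop (𝓝 1))
    (hg : ∀ n, DifferentiableOn ℂ (g n) (ball 0 (ρ n))) {M : ℝ}
    (hM : ∀ n, ∀ z ∈ ball (0 : ℂ) (ρ n), ‖g n z‖ ≤ M) :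
    ∃ (φ : ℕ → ℕ) (g' : ℂ → E), StrictMono φ ∧ DifferentiableOn ℂ g' (ball 0 1) ∧
      TendstoLocallyUniformlyOn (fun n => g (φ n)) g' atTop (ball 0 1) := by
  have : CompleteSpace E := FiniteDimensional.complete ℂ E
  have : ProperSpace E := FiniteDimensional.proper ℂ E
  -- start far out
  have hhalf : ∀ᶠ n in atTop, (1 / 2 : ℝ) < ρ n := hρ.eventually_const_lt (by norm_num)
  obtain ⟨N, hN⟩ := eventually_atTop.1 hhalf
  have hM0 : 0 ≤ M := (norm_nonneg _).trans (hM N 0 (mem_ball_self (by linarith [hN N le_rfl])))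
  -- Taylor coefficients
  let a : ℕ → ℕ → E := fun n k => ((k.factorial : ℂ)⁻¹) • iteratedDeriv k (g n) 0
  have ha : ∀ r, 0 < r → ∀ n, r < ρ n → ∀ k, ‖a n k‖ ≤ M / r ^ k := by
    intro r hr n hrn k
    have hcl : closedBall (0 : ℂ) r ⊆ ball 0 (ρ n) := closedBall_subset_ball hrn
    have h1 := Complex.norm_iteratedDeriv_le_of_forall_mem_sphere_norm_le (c := 0) (R := r)
      (C := M) (f := g n) k hr ((hg n).diffContOnCl_ball hcl)
      (fun y hy => hM n y (hcl (sphere_subset_closedBall hy)))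
    have h2 : (0 : ℝ) < k.factorial := by exact_mod_cast Nat.factorial_pos k
    simp only [a, norm_smul, norm_inv, Complex.norm_natCast]
    calc ((k.factorial : ℝ))⁻¹ * ‖iteratedDeriv k (g n) 0‖
        ≤ ((k.factorial : ℝ))⁻¹ * (k.factorial * M / r ^ k) := by gcongr
      _ = M / r ^ k := by field_simp
  have hsum : ∀ n, ∀ w ∈ ball (0 : ℂ) (ρ n), HasSum (fun k => w ^ k • a n k) (g n w) := by
    intro n w hw
    have := Complex.hasSum_taylorSeries_on_ball (hg n) hw
    have e : (fun k => w ^ k • a n k) =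
        fun k : ℕ => ((k.factorial : ℂ)⁻¹) • (w - 0) ^ k • iteratedDeriv k (g n) 0 := by
      funext k
      simp only [a, sub_zero]
      rw [smul_comm]
    rw [e]
    exact this
  let K : Set (ℕ → E) := Set.pi Set.univ fun k => closedBall (0 : E) (M / (1 / 2 : ℝ) ^ k)
  have hK : IsCompact K := isCompact_univ_pi fun k => isCompact_closedBall _ _
  have haK : ∀ n, a (n + N) ∈ K := by
    intro n k _
    rw [mem_closedBall_zero_iff]
    exact ha (1 / 2) (by norm_num) (n + N) (hN _ (Nat.le_add_left _ _)) k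
  obtain ⟨b, -, φ, hφ, hlim⟩ := hK.tendsto_subseq haK
  rw [tendsto_pi_nhds] at hlim
  have hψ : StrictMono fun n => φ n + N := fun i j h => Nat.add_lt_add_right (hφ h) N
  have hρψ : Tendsto (fun n => ρ (φ n + N)) atTop (𝓝 1) := hρ.comp hψ.tendsto_atTop
  have hbb : ∀ r, 0 < r → r < 1 → ∀ k, ‖b k‖ ≤ M / r ^ k := by
    intro r hr hr1 k
    refine le_of_tendsto (hlim k).norm ?_
    filter_upwards [hρψ.eventually_const_lt hr1] with n hn
    exact ha r hr (φ n + N) hn k
  have hbs : ∀ w ∈ ball (0 : ℂ) 1, Summable fun k => w ^ k • b k := by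
    intro w hw
    rw [mem_ball_zero_iff] at hw
    obtain ⟨r, hr1, hr2⟩ := exists_between hw
    have hr0 : 0 < r := lt_of_le_of_lt (norm_nonneg _) hr1
    refine Summable.of_norm_bounded (g := fun k => M * (‖w‖ / r) ^ k) ?_ fun k => ?_
    · exact (summable_geometric_of_lt_one (by positivity) ((div_lt_one hr0).2 hr1)).mul_left M
    · rw [norm_smul, norm_pow, div_pow]
      calc ‖w‖ ^ k * ‖b k‖ ≤ ‖w‖ ^ k * (M / r ^ k) := by
            gcongr
            exact hbb r hr0 hr2 k
        _ = M * (‖w‖ ^ k / r ^ k) := by ring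
  let G : ℂ → E := fun w => ∑' k, w ^ k • b k
  have hunif : TendstoLocallyUniformlyOn (fun n => g (φ n + N)) G atTop (ball 0 1) := by
    rw [Metric.tendstoLocallyUniformlyOn_iff]
    intro ε hε x hx
    have hx' := hx
    rw [mem_ball] at hx'
    obtain ⟨r', hr'1, hr'2⟩ := exists_between hx'
    obtain ⟨r, hr1, hr2⟩ := exists_between hr'2
    have hr'0 : 0 < r' := lt_of_le_of_lt dist_nonneg hr'1
    have hr0 : 0 < r := hr'0.trans hr1
    have hgeo : Summable fun k : ℕ => (M + M) * (r' / r) ^ k :=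
      (summable_geometric_of_lt_one (by positivity) ((div_lt_one hr0).2 hr1)).mul_left _
    have hbd : ∀ n, r < ρ (φ n + N) → ∀ k,
        ‖a (φ n + N) k - b k‖ * r' ^ k ≤ (M + M) * (r' / r) ^ k := by
      intro n hn k
      rw [div_pow]
      calc ‖a (φ n + N) k - b k‖ * r' ^ k ≤ (M / r ^ k + M / r ^ k) * r' ^ k := by
            gcongr
            exact (norm_sub_le _ _).trans
              (add_le_add (ha r hr0 (φ n + N) hn k) (hbb r hr0 hr2 k))
        _ = (M + M) * (r' ^ k / r ^ k) := by ring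
    have hev : ∀ᶠ n in atTop, r < ρ (φ n + N) := hρψ.eventually_const_lt hr2
    have hS : Tendsto (fun n => ∑' k, ‖a (φ n + N) k - b k‖ * r' ^ k) atTop
        (𝓝 (∑' _ : ℕ, (0 : ℝ))) := by
      refine tendsto_tsum_of_dominated_convergence hgeo (fun k => ?_) ?_
      · have h1 : Tendsto (fun n => ‖a (φ n + N) k - b k‖) atTop (𝓝 0) := by
          have := ((hlim k).sub_const (b k)).norm
          simpa using this
        simpa using h1.mul_const (r' ^ k)
      · filter_upwards [hev] with n hn k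
        rw [Real.norm_eq_abs, abs_of_nonneg (by positivity)]
        exact hbd n hn k
    rw [tsum_zero] at hS
    refine ⟨ball 0 r', mem_nhdsWithin_of_mem_nhds (isOpen_ball.mem_nhds hr'1), ?_⟩
    filter_upwards [hS.eventually_lt_const hε, hev] with n hn hrn y hy
    have hyR : y ∈ ball (0 : ℂ) (ρ (φ n + N)) := ball_subset_ball (hr1.trans hrn).le hy
    have hy1 : y ∈ ball (0 : ℂ) 1 := ball_subset_ball hr'2.le hy
    rw [dist_comm, dist_eq_norm]
    refine lt_of_le_of_lt ?_ hn
    have h1 : HasSum (fun k => y ^ k • a (φ n + N) k - y ^ k • b k)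
        (g (φ n + N) y - G y) := (hsum (φ n + N) y hyR).sub (hbs y hy1).hasSum
    have h2 : Summable fun k => ‖a (φ n + N) k - b k‖ * r' ^ k :=
      Summable.of_nonneg_of_le (fun k => by positivity) (hbd n hrn) hgeo
    refine h1.norm_le_of_bounded h2.hasSum fun k => ?_
    rw [← smul_sub, norm_smul, norm_pow, mul_comm]
    rw [mem_ball_zero_iff] at hy
    gcongr
  refine ⟨fun n => φ n + N, G, hψ, ?_, hunif⟩
  -- holomorphy of the limit: locally all but finitely many members are holomorphic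
  intro x hx
  have hx' := hx
  rw [mem_ball_zero_iff] at hx'
  obtain ⟨r, hr1, hr2⟩ := exists_between hx'
  have hsub : ball (0 : ℂ) r ⊆ ball 0 1 := ball_subset_ball hr2.le
  have hd : DifferentiableOn ℂ G (ball 0 r) := by
    refine (hunif.mono hsub).differentiableOn ?_ isOpen_ball
    filter_upwards [hρψ.eventually_const_lt hr2] with n hn
    exact (hg (φ n + N)).mono (ball_subset_ball hn.le)
  exact ((hd x (by rwa [mem_ball_zero_iff])).differentiableAt
    (isOpen_ball.mem_nhds (by rwa [mem_ball_zero_iff]))).differentiableWithinAt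

end Pool.Agent.Sqz
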