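import Pool.Agent.Work.MP_0e9e72_an.PT

/-!
Block B, item 4: Sibony's argument.
-/

set_option autoImplicit false

open Complex Metric Set Filter Topology

namespace Pool.Agent.Sqz

section
variable {E : Type*} [NormedAddCommGroup E] [NormedSpace ℂ E]

/-- chain rule for a real function of a real function -/
theorem Lev_comp_real {k : ℝ → ℝ} {L : E → ℝ} {z : E} (hk : ContDiffAt ℝ 2 k (L z))
    (hL : ContDiffAt ℝ 2 L z) (v : E) :
    Lev (fun y => k (L y)) z v =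
      deriv k (L z) * Lev L z v + deriv (deriv k) (L z) * Nm L z v := by
  have hkd : ∀ᶠ t in 𝓝 (L z), DifferentiableAt ℝ k t := by
    filter_upwards [hk.eventually (by simp)] with y hy
    exact hy.differentiableAt (by norm_num)
  have hLd := eventually_differentiableAt_of_contDiffAt hL
  have hkd' : ∀ᶠ y in 𝓝 z, DifferentiableAt ℝ k (L y) := hL.continuousAt.eventually hkd
  have hfd : fderiv ℝ (fun y => k (L y)) =ᶠ[𝓝 z] fun y => deriv k (L y) • fderiv ℝ L y := by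
    filter_upwards [hLd, hkd'] with y h1 h2
    exact (h2.hasDerivAt.comp_hasFDerivAt y h1.hasFDerivAt).fderiv
  have hk2 : DifferentiableAt ℝ (deriv k) (L z) := by
    have h1 : DifferentiableAt ℝ (fderiv ℝ k) (L z) := differentiableAt_fderiv_of_contDiffAt' hk
    have : deriv k = fun t => fderiv ℝ k t 1 := rfl
    rw [this]
    exact h1.clm_apply (differentiableAt_const _)
  have h3 : HasFDerivAt (fun y => deriv k (L y)) (deriv (deriv k) (L z) • fderiv ℝ L z) z :=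
    hk2.hasDerivAt.comp_hasFDerivAt z hLd.self_of_nhds.hasFDerivAt
  have h4 := (differentiableAt_fderiv_of_contDiffAt hL).hasFDerivAt
  have key : ∀ w : E, fderiv ℝ (fderiv ℝ (fun y => k (L y))) z w w =
      deriv k (L z) * fderiv ℝ (fderiv ℝ L) z w w +
        deriv (deriv k) (L z) * (fderiv ℝ L z w) ^ 2 := by
    intro w
    have h5 : HasFDerivAt (fun y => deriv k (L y) • fderiv ℝ L y) _ z := h3.smul h4
    rw [hfd.fderiv_eq, h5.fderiv]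
    simp
    ring
  simp only [Lev, Nm]
  rw [key v, key (I • v)]
  ring
end

section
variable {E : Type*} [NormedAddCommGroup E] [InnerProductSpace ℂ E]

theorem normSq_line (y v : E) :
    (fun t : ℝ => ‖y + t • v‖ ^ 2) =
      fun t : ℝ => ‖y‖ ^ 2 + t * (2 * (inner ℂ y v).re) + t ^ 2 * ‖v‖ ^ 2 := by
  funext t
  rw [@norm_add_sq ℂ, norm_smul]
  have : inner ℂ y (t • v) = (t : ℂ) * inner ℂ y v := by
    rw [← Complex.coe_smul, inner_smul_right]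
  rw [this, Real.norm_eq_abs, mul_pow, sq_abs]
  simp
  ring

theorem Lev_norm_sq (y v : E) : Lev (fun x : E => ‖x‖ ^ 2) y v = 4 * ‖v‖ ^ 2 ∧
    Nm (fun x : E => ‖x‖ ^ 2) y v = 4 * ‖inner ℂ y v‖ ^ 2 := by
  have hcd : ContDiffAt ℝ 2 (fun x : E => ‖x‖ ^ 2) y := (contDiff_norm_sq ℂ).contDiffAt
  have e : ∀ v : E, fderiv ℝ (fderiv ℝ fun x : E => ‖x‖ ^ 2) y v v = 2 * ‖v‖ ^ 2 ∧
      fderiv ℝ (fun x : E => ‖x‖ ^ 2) y v = 2 * (inner ℂ y v).re := by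
    intro v
    obtain ⟨h1, h2⟩ := deriv_deriv_line hcd v
    rw [normSq_line] at h1 h2
    have hd : ∀ t : ℝ, HasDerivAt
        (fun t : ℝ => ‖y‖ ^ 2 + t * (2 * (inner ℂ y v).re) + t ^ 2 * ‖v‖ ^ 2)
        (2 * (inner ℂ y v).re + 2 * t * ‖v‖ ^ 2) t := by
      intro t
      have h := (((hasDerivAt_id t).mul_const (2 * (inner ℂ y v).re)).const_add
          (‖y‖ ^ 2)).fun_add ((hasDerivAt_pow 2 t).mul_const (‖v‖ ^ 2))
      simpa using h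
    have hd1 : deriv (fun t : ℝ => ‖y‖ ^ 2 + t * (2 * (inner ℂ y v).re) + t ^ 2 * ‖v‖ ^ 2) =
        fun t => 2 * (inner ℂ y v).re + 2 * t * ‖v‖ ^ 2 := by
      funext t
      exact (hd t).deriv
    rw [hd1] at h1 h2
    constructor
    · rw [← h1]
      have : HasDerivAt (fun t : ℝ => 2 * (inner ℂ y v).re + 2 * t * ‖v‖ ^ 2)
          (2 * ‖v‖ ^ 2) 0 := by
        have h := (((hasDerivAt_id (0 : ℝ)).const_mul 2).mul_const (‖v‖ ^ 2)).const_add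
          (2 * (inner ℂ y v).re)
        simpa using h
      exact this.deriv
    · rw [← h2]
      simp
  have hI : ‖I • v‖ = ‖v‖ := by simp [norm_smul]
  have hI2 : (inner ℂ y (I • v)).re = - (inner ℂ y v).im := by
    rw [inner_smul_right]
    simp
  constructor
  · simp only [Lev]
    rw [(e v).1, (e (I • v)).1, hI]
    ring
  · simp only [Nm]
    rw [(e v).2, (e (I • v)).2, hI2, Complex.sq_norm, Complex.normSq_apply]
    ring

theorem Lev_logNormSq {y : E} (hy : y ≠ 0) (v : E) :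
    ContDiffAt ℝ 2 (fun x : E => Real.log (‖x‖ ^ 2)) y ∧
    0 ≤ Lev (fun x : E => Real.log (‖x‖ ^ 2)) y v ∧
    Lev (fun x : E => Real.log (‖x‖ ^ 2)) y v ≤ 4 * ‖v‖ ^ 2 / ‖y‖ ^ 2 ∧
    0 ≤ Nm (fun x : E => Real.log (‖x‖ ^ 2)) y v ∧
    Nm (fun x : E => Real.log (‖x‖ ^ 2)) y v ≤ 4 * ‖v‖ ^ 2 / ‖y‖ ^ 2 := by
  have hcd : ContDiffAt ℝ 2 (fun x : E => ‖x‖ ^ 2) y := (contDiff_norm_sq ℂ).contDiffAt
  have hs : 0 < ‖y‖ ^ 2 := by positivity
  have hlog : ContDiffAt ℝ 2 Real.log (‖y‖ ^ 2) := Real.contDiffAt_log.2 hs.ne'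
  obtain ⟨h1, h2⟩ := Lev_norm_sq y v
  have h3 := Lev_comp_real (k := Real.log) (L := fun x : E => ‖x‖ ^ 2) hlog hcd v
  have hd1 : deriv Real.log (‖y‖ ^ 2) = (‖y‖ ^ 2)⁻¹ := Real.deriv_log _
  have hd2 : deriv (deriv Real.log) (‖y‖ ^ 2) = -((‖y‖ ^ 2) ^ 2)⁻¹ := by
    have : deriv Real.log = fun t : ℝ => t⁻¹ := by
      funext t
      exact Real.deriv_log t
    rw [this, deriv_inv]
  rw [hd1, hd2, h1, h2] at h3
  have hcs : ‖inner ℂ y v‖ ^ 2 ≤ ‖y‖ ^ 2 * ‖v‖ ^ 2 := by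
    have := norm_inner_le_norm (𝕜 := ℂ) y v
    have h0 := norm_nonneg (inner ℂ y v)
    calc ‖inner ℂ y v‖ ^ 2 ≤ (‖y‖ * ‖v‖) ^ 2 := by gcongr
      _ = ‖y‖ ^ 2 * ‖v‖ ^ 2 := by ring
  have hNm : Nm (fun x : E => Real.log (‖x‖ ^ 2)) y v =
      ((‖y‖ ^ 2) ^ 2)⁻¹ * (4 * ‖inner ℂ y v‖ ^ 2) := by
    have hf : fderiv ℝ (fun x : E => Real.log (‖x‖ ^ 2)) y =
        (‖y‖ ^ 2)⁻¹ • fderiv ℝ (fun x : E => ‖x‖ ^ 2) y :=
      (HasFDerivAt.log (hcd.differentiableAt (by norm_num)).hasFDerivAt hs.ne').fderiv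
    rw [← h2]
    simp only [Nm]
    rw [hf]
    simp only [_root_.smul_apply, smul_eq_mul]
    field_simp
  refine ⟨hcd.log hs.ne', ?_, ?_, ?_, ?_⟩
  · rw [h3]
    have : (‖y‖ ^ 2)⁻¹ * (4 * ‖v‖ ^ 2) + -((‖y‖ ^ 2) ^ 2)⁻¹ * (4 * ‖inner ℂ y v‖ ^ 2) =
        4 * (‖y‖ ^ 2 * ‖v‖ ^ 2 - ‖inner ℂ y v‖ ^ 2) / (‖y‖ ^ 2) ^ 2 := by
      field_simp
      ring
    rw [this]
    exact div_nonneg (by linarith) (by positivity)
  · rw [h3]
    have : 0 ≤ ((‖y‖ ^ 2) ^ 2)⁻¹ * (4 * ‖inner ℂ y v‖ ^ 2) := by positivity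
    have e : (‖y‖ ^ 2)⁻¹ * (4 * ‖v‖ ^ 2) = 4 * ‖v‖ ^ 2 / ‖y‖ ^ 2 := by field_simp
    linarith
  · rw [hNm]
    positivity
  · rw [hNm]
    have : 4 * ‖v‖ ^ 2 / ‖y‖ ^ 2 = ((‖y‖ ^ 2) ^ 2)⁻¹ * (4 * (‖y‖ ^ 2 * ‖v‖ ^ 2)) := by
      field_simp
    rw [this]
    gcongr
end

/-! ### maximum principle on annuli -/

theorem annulus_max {c : ℂ} {r₁ r₂ M : ℝ} {u : ℂ → ℝ}
    (h2 : ∀ z, r₁ ≤ dist z c → dist z c ≤ r₂ → ContDiffAt ℝ 2 u z)
    (hL : ∀ z, r₁ ≤ dist z c → dist z c ≤ r₂ → 0 ≤ Lev u z 1)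
    (hb1 : ∀ z, dist z c = r₁ → u z ≤ M) (hb2 : ∀ z, dist z c = r₂ → u z ≤ M) :
    ∀ z, r₁ ≤ dist z c → dist z c ≤ r₂ → u z ≤ M := by
  set K : Set ℂ := closedBall c r₂ \ ball c r₁ with hK
  have hKc : IsCompact K := (isCompact_closedBall c r₂).diff isOpen_ball
  have hKmem : ∀ w ∈ K, r₁ ≤ dist w c ∧ dist w c ≤ r₂ := by
    intro w hw
    exact ⟨not_lt.1 hw.2, hw.1⟩
  have hle : ∀ w ∈ K, u w ≤ M := by
    refine max_principle hKc
      (fun w hw => (h2 w (hKmem w hw).1 (hKmem w hw).2).continuousAt.continuousWithinAt)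
      (fun w hw => h2 w (hKmem w (interior_subset hw)).1 (hKmem w (interior_subset hw)).2)
      (fun w hw => hL w (hKmem w (interior_subset hw)).1 (hKmem w (interior_subset hw)).2) ?_
    intro w hw hwi
    obtain ⟨g1, g2⟩ := hKmem w hw
    have hcase : dist w c = r₁ ∨ dist w c = r₂ := by
      by_contra hcon
      push Not at hcon
      apply hwi
      rw [mem_interior_iff_mem_nhds]
      have ho : IsOpen (ball c r₂ \ closedBall c r₁) := isOpen_ball.sdiff isClosed_closedBall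
      refine mem_of_superset (ho.mem_nhds ⟨lt_of_le_of_ne g2 hcon.2, fun h => ?_⟩) ?_
      · exact hcon.1 (le_antisymm h g1)
      · intro x hx
        exact ⟨ball_subset_closedBall hx.1, fun h => hx.2 (ball_subset_closedBall h)⟩
    rcases hcase with hw1 | hw1
    · exact hb1 w hw1
    · exact hb2 w hw1
  intro z hz1 hz2
  exact hle z ⟨hz2, not_lt.2 hz1⟩

/-! ### the cutoff function -/

/-- equal to `θ` for `θ ≤ θ₀`, constant for `θ ≥ θ₀ + 1` -/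
noncomputable def kf (θ₀ θ : ℝ) : ℝ := θ + Real.smoothTransition (θ - θ₀) * (θ₀ + 1 - θ)

theorem kf_contDiff (θ₀ : ℝ) : ContDiff ℝ 2 (kf θ₀) := by
  have h : ContDiff ℝ 2 Real.smoothTransition := Real.smoothTransition.contDiff (n := 2)
  unfold kf
  exact contDiff_id.add ((h.comp (contDiff_id.sub contDiff_const)).mul
    (contDiff_const.sub contDiff_id))

theorem kf_eq_self {θ₀ θ : ℝ} (h : θ ≤ θ₀) : kf θ₀ θ = θ := by
  unfold kf
  rw [Real.smoothTransition.zero_of_nonpos (by linarith)]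
  ring

theorem kf_eq_const {θ₀ θ : ℝ} (h : θ₀ + 1 ≤ θ) : kf θ₀ θ = θ₀ + 1 := by
  unfold kf
  rw [Real.smoothTransition.one_of_one_le (by linarith)]
  ring

theorem kf_le (θ₀ θ : ℝ) : kf θ₀ θ ≤ θ₀ + 1 := by
  rcases le_total (θ₀ + 1) θ with h | h
  · exact (kf_eq_const h).le
  · unfold kf
    have := Real.smoothTransition.le_one (θ - θ₀)
    nlinarith

theorem kf_deriv_low {θ₀ θ : ℝ} (h : θ < θ₀) :
    deriv (kf θ₀) θ = 1 ∧ deriv (deriv (kf θ₀)) θ = 0 := by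
  have h1 : ∀ θ < θ₀, deriv (kf θ₀) θ = 1 := by
    intro θ h
    have : kf θ₀ =ᶠ[𝓝 θ] id := by
      filter_upwards [Iio_mem_nhds h] with t ht
      exact kf_eq_self (le_of_lt ht)
    rw [this.deriv_eq]
    simp
  refine ⟨h1 θ h, ?_⟩
  have : deriv (kf θ₀) =ᶠ[𝓝 θ] fun _ => (1 : ℝ) := by
    filter_upwards [Iio_mem_nhds h] with t ht
    exact h1 t ht
  rw [this.deriv_eq]
  simp

theorem kf_deriv_high {θ₀ θ : ℝ} (h : θ₀ + 1 < θ) :
    deriv (kf θ₀) θ = 0 ∧ deriv (deriv (kf θ₀)) θ = 0 := by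
  have h1 : ∀ θ, θ₀ + 1 < θ → deriv (kf θ₀) θ = 0 := by
    intro θ h
    have : kf θ₀ =ᶠ[𝓝 θ] fun _ => θ₀ + 1 := by
      filter_upwards [Ioi_mem_nhds h] with t ht
      exact kf_eq_const (le_of_lt ht)
    rw [this.deriv_eq]
    simp
  refine ⟨h1 θ h, ?_⟩
  have : deriv (kf θ₀) =ᶠ[𝓝 θ] fun _ => (0 : ℝ) := by
    filter_upwards [Ioi_mem_nhds h] with t ht
    exact h1 t ht
  rw [this.deriv_eq]
  simp

theorem kf_deriv_mid (θ₀ : ℝ) : ∃ K : ℝ, 0 ≤ K ∧ ∀ θ ∈ Icc θ₀ (θ₀ + 1),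
    |deriv (kf θ₀) θ| + |deriv (deriv (kf θ₀)) θ| ≤ K := by
  have h := kf_contDiff θ₀
  have h1 : ContDiff ℝ 1 (deriv (kf θ₀)) := by
    have : ContDiff ℝ (1 + 1) (kf θ₀) := by
      rw [one_add_one_eq_two]; exact h
    exact (contDiff_succ_iff_deriv.1 this).2.2
  have h2 : Continuous (deriv (deriv (kf θ₀))) := h1.continuous_deriv (by norm_num)
  have hc : Continuous fun θ => |deriv (kf θ₀) θ| + |deriv (deriv (kf θ₀)) θ| :=
    h1.continuous.abs.add h2.abs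
  obtain ⟨K, hK⟩ := (isCompact_Icc (a := θ₀) (b := θ₀ + 1)).bddAbove_image hc.continuousOn
  refine ⟨max K 0, le_max_right _ _, fun θ hθ => le_max_of_le_left ?_⟩
  exact hK (mem_image_of_mem _ hθ)

theorem kf_Lev (θ₀ : ℝ) : ∃ C₁ : ℝ, 0 ≤ C₁ ∧ ∀ {E : Type} [NormedAddCommGroup E]
    [InnerProductSpace ℂ E] (y v : E), y ≠ 0 →
      ContDiffAt ℝ 2 (fun x : E => kf θ₀ (Real.log (‖x‖ ^ 2))) y ∧
      -(C₁ * ‖v‖ ^ 2) ≤ Lev (fun x : E => kf θ₀ (Real.log (‖x‖ ^ 2))) y v ∧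
      (θ₀ + 1 < Real.log (‖y‖ ^ 2) →
        0 ≤ Lev (fun x : E => kf θ₀ (Real.log (‖x‖ ^ 2))) y v) := by
  obtain ⟨K, hK0, hK⟩ := kf_deriv_mid θ₀
  refine ⟨K * (4 * Real.exp (-θ₀)), by positivity, ?_⟩
  intro E _ _ y v hy
  obtain ⟨h1, h2, h3, h4, h5⟩ := Lev_logNormSq hy v
  have hs : 0 < ‖y‖ ^ 2 := by positivity
  have hkc : ContDiffAt ℝ 2 (kf θ₀) (Real.log (‖y‖ ^ 2)) := (kf_contDiff θ₀).contDiffAt
  have hL := Lev_comp_real (k := kf θ₀) (L := fun x : E => Real.log (‖x‖ ^ 2)) hkc h1 v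
  refine ⟨ContDiffAt.comp (g := kf θ₀) y hkc h1, ?_, ?_⟩
  · rw [hL]
    rcases lt_or_ge (Real.log (‖y‖ ^ 2)) θ₀ with hlow | hge
    · obtain ⟨e1, e2⟩ := kf_deriv_low hlow
      rw [e1, e2]
      have : 0 ≤ K * (4 * Real.exp (-θ₀)) * ‖v‖ ^ 2 := by positivity
      linarith
    · rcases lt_or_ge (θ₀ + 1) (Real.log (‖y‖ ^ 2)) with hhigh | hle
      · obtain ⟨e1, e2⟩ := kf_deriv_high hhigh
        rw [e1, e2]
        have : 0 ≤ K * (4 * Real.exp (-θ₀)) * ‖v‖ ^ 2 := by positivity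
        linarith
      · have hk := hK _ ⟨hge, hle⟩
        set p := deriv (kf θ₀) (Real.log (‖y‖ ^ 2))
        set q := deriv (deriv (kf θ₀)) (Real.log (‖y‖ ^ 2))
        set B := 4 * ‖v‖ ^ 2 / ‖y‖ ^ 2 with hB
        have hB0 : 0 ≤ B := by positivity
        have hp : -(|p| * B) ≤ p * Lev (fun x : E => Real.log (‖x‖ ^ 2)) y v := by
          have := neg_abs_le p
          have h6 : |p| * Lev (fun x : E => Real.log (‖x‖ ^ 2)) y v ≤ |p| * B :=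
            mul_le_mul_of_nonneg_left h3 (abs_nonneg _)
          nlinarith
        have hq : -(|q| * B) ≤ q * Nm (fun x : E => Real.log (‖x‖ ^ 2)) y v := by
          have := neg_abs_le q
          have h6 : |q| * Nm (fun x : E => Real.log (‖x‖ ^ 2)) y v ≤ |q| * B :=
            mul_le_mul_of_nonneg_left h5 (abs_nonneg _)
          nlinarith
        have hBle : B ≤ 4 * Real.exp (-θ₀) * ‖v‖ ^ 2 := by
          have h7 : Real.exp θ₀ ≤ ‖y‖ ^ 2 := (Real.le_log_iff_exp_le hs).1 hge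
          have h8 : B ≤ 4 * ‖v‖ ^ 2 / Real.exp θ₀ := by
            rw [hB]
            gcongr
          refine h8.trans (le_of_eq ?_)
          rw [Real.exp_neg]
          field_simp
        have h9 : (|p| + |q|) * B ≤ K * (4 * Real.exp (-θ₀)) * ‖v‖ ^ 2 := by
          calc (|p| + |q|) * B ≤ K * B := by gcongr
            _ ≤ K * (4 * Real.exp (-θ₀) * ‖v‖ ^ 2) := by gcongr
            _ = K * (4 * Real.exp (-θ₀)) * ‖v‖ ^ 2 := by ring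
        linarith
  · intro hhigh
    rw [hL]
    obtain ⟨e1, e2⟩ := kf_deriv_high hhigh
    rw [e1, e2]
    simp

/-- Sibony's argument. `T` = inverse of the scaled coordinates. -/
theorem iB4 {a c m : ℝ} (ha : 0 < a) (hc : 0 < c) :
    ∃ C : ℝ, 0 < C ∧ ∀ {E : Type} [NormedAddCommGroup E] [InnerProductSpace ℂ E]
      [FiniteDimensional ℂ E] (Ω : Set E) (ψ : E → ℝ) (T : E → E) (g : ℂ → E),
      IsOpen Ω → (∀ z ∈ Ω, ContDiffAt ℝ 2 ψ z) → (∀ z ∈ Ω, ψ z < 0) →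
      (∀ z ∈ Ω, ∀ v, 0 ≤ Lev ψ z v) → ContDiff ℂ 2 T →
      (∀ z ∈ Ω, ‖T z‖ < a → ∀ v, c * ‖fderiv ℂ T z v‖ ^ 2 ≤ Lev ψ z v) →
      DifferentiableOn ℂ g (ball 0 1) → MapsTo g (ball 0 1) Ω → 
      (∀ ζ ∈ ball (0 : ℂ) 1, T (g ζ) = 0 → ζ = 0) → T (g 0) = 0 → -m ≤ ψ (g 0) →
      ‖deriv (fun ζ => T (g ζ)) 0‖ ≤ C := by
  set θ₀ : ℝ := Real.log (a ^ 2) - 2 with hθ₀
  obtain ⟨C₁, hC₁, hkf⟩ := kf_Lev θ₀
  set A : ℝ := C₁ / c with hA
  have hA0 : 0 ≤ A := by positivity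
  refine ⟨Real.exp ((θ₀ + 1 + A * m) / 2), Real.exp_pos _, ?_⟩
  intro E _ _ _ Ω ψ T g hΩ hψ2 hψneg hψL hT hTL hg hgΩ hinj hT0 hm
  have : CompleteSpace E := FiniteDimensional.complete ℂ E
  set f : ℂ → E := fun ζ => T (g ζ) with hf
  have hTd : Differentiable ℂ T := hT.differentiable (by norm_num)
  have hfd : DifferentiableOn ℂ f (ball 0 1) := hTd.comp_differentiableOn hg
  have hnhds : ∀ ζ ∈ ball (0 : ℂ) 1, ball (0 : ℂ) 1 ∈ 𝓝 ζ := fun ζ h => isOpen_ball.mem_nhds h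
  have hfc : ∀ ζ ∈ ball (0 : ℂ) 1, ContDiffAt ℂ 2 f ζ := fun ζ h =>
    (hfd.analyticAt (hnhds ζ h)).contDiffAt
  have hgc : ∀ ζ ∈ ball (0 : ℂ) 1, ContDiffAt ℂ 2 g ζ := fun ζ h =>
    (hg.analyticAt (hnhds ζ h)).contDiffAt
  have hf0 : f 0 = 0 := hT0
  have hfne : ∀ ζ ∈ ball (0 : ℂ) 1, ζ ≠ 0 → f ζ ≠ 0 := fun ζ h h1 h2 => h1 (hinj ζ h h2)
  have h0mem : (0 : ℂ) ∈ ball (0 : ℂ) 1 := mem_ball_self one_pos
  set D : ℝ := ‖deriv f 0‖ with hD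
  have hD0 : 0 ≤ D := norm_nonneg _
  -- behaviour at the origin
  have hslope : Tendsto (fun ζ : ℂ => ‖f ζ‖ / ‖ζ‖) (𝓝[≠] 0) (𝓝 D) := by
    have h1 : HasDerivAt f (deriv f 0) 0 := (hfd.differentiableAt (hnhds 0 h0mem)).hasDerivAt
    have h2 := (hasDerivAt_iff_tendsto_slope_zero.1 h1).norm
    refine h2.congr fun ζ => ?_
    rw [zero_add, hf0, sub_zero, norm_smul, norm_inv]
    ring
  -- the basic function
  have hball : ∀ {ζ : ℂ} {r : ℝ}, r < 1 → dist ζ 0 ≤ r → ζ ∈ ball (0 : ℂ) 1 := by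
    intro ζ r h1 h2
    exact lt_of_le_of_lt h2 h1
  have hCD : ∀ κ : ℝ, ∀ ζ ∈ ball (0 : ℂ) 1, ζ ≠ 0 →
      ContDiffAt ℝ 2 (fun ζ : ℂ => kf θ₀ (Real.log (‖f ζ‖ ^ 2)) + A * ψ (g ζ)
        - κ * Real.log ‖ζ - 0‖) ζ ∧
      0 ≤ Lev (fun ζ : ℂ => kf θ₀ (Real.log (‖f ζ‖ ^ 2)) + A * ψ (g ζ)
        - κ * Real.log ‖ζ - 0‖) ζ 1 := by
    intro κ ζ hζ hζ0
    obtain ⟨k1, k2, k3⟩ := hkf (f ζ) (fderiv ℂ f ζ 1) (hfne ζ hζ hζ0)
    have hfcR : ContDiffAt ℝ 2 f ζ := (hfc ζ hζ).restrict_scalars ℝ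
    have hgcR : ContDiffAt ℝ 2 g ζ := (hgc ζ hζ).restrict_scalars ℝ
    have c1 : ContDiffAt ℝ 2 (fun ζ : ℂ => kf θ₀ (Real.log (‖f ζ‖ ^ 2))) ζ :=
      ContDiffAt.comp (g := fun x : E => kf θ₀ (Real.log (‖x‖ ^ 2))) ζ k1 hfcR
    have c2 : ContDiffAt ℝ 2 (fun ζ : ℂ => ψ (g ζ)) ζ :=
      ContDiffAt.comp (g := ψ) ζ (hψ2 (g ζ) (hgΩ hζ)) hgcR
    have c2' : ContDiffAt ℝ 2 (fun ζ : ℂ => A * ψ (g ζ)) ζ := contDiffAt_const.mul c2
    obtain ⟨c3, l3⟩ := Lev_log_norm (c := 0) hζ0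
    have c3' : ContDiffAt ℝ 2 (fun ζ : ℂ => κ * Real.log ‖ζ - 0‖) ζ := contDiffAt_const.mul c3
    refine ⟨(c1.add c2').sub c3', ?_⟩
    have e1 : Lev (fun ζ : ℂ => kf θ₀ (Real.log (‖f ζ‖ ^ 2))) ζ 1 =
        Lev (fun x : E => kf θ₀ (Real.log (‖x‖ ^ 2))) (f ζ) (fderiv ℂ f ζ 1) :=
      Lev_comp (r := fun x : E => kf θ₀ (Real.log (‖x‖ ^ 2))) k1 (hfc ζ hζ)
    have e2 : Lev (fun ζ : ℂ => ψ (g ζ)) ζ 1 = Lev ψ (g ζ) (fderiv ℂ g ζ 1) :=
      Lev_comp (hψ2 (g ζ) (hgΩ hζ)) (hgc ζ hζ)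
    have e3 : fderiv ℂ f ζ 1 = fderiv ℂ T (g ζ) (fderiv ℂ g ζ 1) := by
      have h1 : HasFDerivAt f ((fderiv ℂ T (g ζ)).comp (fderiv ℂ g ζ)) ζ :=
        (hTd (g ζ)).hasFDerivAt.comp ζ (hg.differentiableAt (hnhds ζ hζ)).hasFDerivAt
      rw [h1.fderiv]
      rfl
    rw [Lev_sub (c1.add c2') c3', Lev_add c1 c2', Lev_const_mul _ _ c2, Lev_const_mul _ _ c3,
      l3, e1, e2]
    rcases lt_or_ge (θ₀ + 1) (Real.log (‖f ζ‖ ^ 2)) with hhigh | hlow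
    · have h1 := k3 hhigh
      have h2 := hψL (g ζ) (hgΩ hζ) (fderiv ℂ g ζ 1)
      have h3 := mul_nonneg hA0 h2
      linarith
    · have hlt : ‖T (g ζ)‖ < a := by
        have hpos : 0 < ‖f ζ‖ ^ 2 := by
          have := hfne ζ hζ hζ0
          positivity
        have h1 : Real.log (‖f ζ‖ ^ 2) < Real.log (a ^ 2) := by linarith
        have h2 : ‖f ζ‖ ^ 2 < a ^ 2 := (Real.log_lt_log_iff hpos (by positivity)).1 h1
        exact lt_of_pow_lt_pow_left₀ 2 ha.le h2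
      have h2 := hTL (g ζ) (hgΩ hζ) hlt (fderiv ℂ g ζ 1)
      rw [← e3] at h2
      have h3 : C₁ * ‖fderiv ℂ f ζ 1‖ ^ 2 ≤ A * Lev ψ (g ζ) (fderiv ℂ g ζ 1) := by
        calc C₁ * ‖fderiv ℂ f ζ 1‖ ^ 2 = A * (c * ‖fderiv ℂ f ζ 1‖ ^ 2) := by
              rw [hA]; field_simp
          _ ≤ _ := by gcongr
      linarith
  -- the bound on the punctured disc
  have claim : ∀ ξ ∈ ball (0 : ℂ) 1, ξ ≠ 0 →
      kf θ₀ (Real.log (‖f ξ‖ ^ 2)) + A * ψ (g ξ) - 2 * Real.log ‖ξ‖ ≤ θ₀ + 1 := by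
    intro ξ hξ hξ0
    have hξ1 : ‖ξ‖ < 1 := by simpa using hξ
    have hξpos : 0 < ‖ξ‖ := norm_pos_iff.2 hξ0
    have step : ∀ ε ∈ Ioo (0 : ℝ) 1, ∀ r₂ ∈ Ioo ‖ξ‖ 1,
        kf θ₀ (Real.log (‖f ξ‖ ^ 2)) + A * ψ (g ξ) - (2 * (1 - ε)) * Real.log ‖ξ‖ ≤
          θ₀ + 1 - 2 * Real.log r₂ := by
      intro ε hε r₂ hr₂
      have hr₂0 : 0 < r₂ := hξpos.trans hr₂.1
      have hlogr₂ : Real.log r₂ < 0 := Real.log_neg hr₂0 hr₂.2
      -- near the origin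
      have hev : ∀ᶠ ζ in 𝓝[≠] (0 : ℂ), ‖f ζ‖ / ‖ζ‖ < D + 1 :=
        hslope.eventually_lt_const (by linarith)
      rw [eventually_nhdsWithin_iff, Metric.eventually_nhds_iff] at hev
      obtain ⟨δ, hδ0, hδ⟩ := hev
      -- choice of the inner radius
      set ρ₁ : ℝ := Real.exp (θ₀ / 2) / (D + 1) with hρ₁
      set ρ₂ : ℝ := Real.exp ((θ₀ + 1 - 2 * Real.log (D + 1)) / (2 * ε)) with hρ₂
      have hD1 : 0 < D + 1 := by linarith
      have hρ₁0 : 0 < ρ₁ := by positivity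
      have hρ₂0 : 0 < ρ₂ := Real.exp_pos _
      set r₁ : ℝ := min (min (δ / 2) ‖ξ‖) (min ρ₁ ρ₂) with hr₁
      have hr₁0 : 0 < r₁ := by
        rw [hr₁]
        exact lt_min (lt_min (by linarith) hξpos) (lt_min hρ₁0 hρ₂0)
      have hr₁δ : r₁ < δ := by
        have : r₁ ≤ δ / 2 := (min_le_left _ _).trans (min_le_left _ _)
        linarith
      have hr₁ξ : r₁ ≤ ‖ξ‖ := (min_le_left _ _).trans (min_le_right _ _)
      have hr₁ρ₁ : r₁ ≤ ρ₁ := (min_le_right _ _).trans (min_le_left _ _)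
      have hr₁ρ₂ : r₁ ≤ ρ₂ := (min_le_right _ _).trans (min_le_right _ _)
      have hmem : ∀ z : ℂ, r₁ ≤ dist z 0 → dist z 0 ≤ r₂ → z ∈ ball (0 : ℂ) 1 ∧ z ≠ 0 := by
        intro z h1 h2
        refine ⟨hball hr₂.2 h2, fun h => ?_⟩
        rw [h, dist_self] at h1
        linarith
      have hmax := annulus_max (c := 0) (r₁ := r₁) (r₂ := r₂) (M := θ₀ + 1 - 2 * Real.log r₂)
        (u := fun ζ : ℂ => kf θ₀ (Real.log (‖f ζ‖ ^ 2)) + A * ψ (g ζ)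
          - (2 * (1 - ε)) * Real.log ‖ζ - 0‖)
        (fun z h1 h2 => (hCD _ z (hmem z h1 h2).1 (hmem z h1 h2).2).1)
        (fun z h1 h2 => (hCD _ z (hmem z h1 h2).1 (hmem z h1 h2).2).2)
        (by
          intro z hz
          have hz1 := hmem z hz.ge (hz.le.trans (hr₁ξ.trans hr₂.1.le))
          have hzn : ‖z‖ = r₁ := by simpa using hz
          have hz2 : ‖f z‖ / ‖z‖ < D + 1 := hδ (by rw [hz]; exact hr₁δ) hz1.2
          have hfz : ‖f z‖ ≤ (D + 1) * r₁ := by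
            rw [hzn, div_lt_iff₀ hr₁0] at hz2
            exact hz2.le
          have hfz0 : 0 < ‖f z‖ := norm_pos_iff.2 (hfne z hz1.1 hz1.2)
          have hlogf : Real.log (‖f z‖ ^ 2) ≤ 2 * (Real.log (D + 1) + Real.log r₁) := by
            rw [Real.log_pow, ← Real.log_mul hD1.ne' hr₁0.ne']
            have := Real.log_le_log hfz0 hfz
            push_cast
            linarith
          have hlow : Real.log (‖f z‖ ^ 2) ≤ θ₀ := by
            refine hlogf.trans ?_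
            have h1 : Real.log r₁ ≤ Real.log ρ₁ := Real.log_le_log hr₁0 hr₁ρ₁
            have h2 : Real.log ρ₁ = θ₀ / 2 - Real.log (D + 1) := by
              rw [hρ₁, Real.log_div (Real.exp_pos _).ne' hD1.ne', Real.log_exp]
            linarith
          show kf θ₀ (Real.log (‖f z‖ ^ 2)) + A * ψ (g z)
            - (2 * (1 - ε)) * Real.log ‖z - 0‖ ≤ θ₀ + 1 - 2 * Real.log r₂
          rw [kf_eq_self hlow, sub_zero, hzn]
          have h3 : A * ψ (g z) ≤ 0 := mul_nonpos_of_nonneg_of_nonpos hA0 (hψneg _ (hgΩ hz1.1)).le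
          have h4 : Real.log r₁ ≤ Real.log ρ₂ := Real.log_le_log hr₁0 hr₁ρ₂
          have h5 : Real.log ρ₂ = (θ₀ + 1 - 2 * Real.log (D + 1)) / (2 * ε) := by
            rw [hρ₂, Real.log_exp]
          have h6 : 2 * ε * Real.log r₁ ≤ θ₀ + 1 - 2 * Real.log (D + 1) := by
            have := mul_le_mul_of_nonneg_left (h4.trans h5.le) (by linarith [hε.1] : 0 ≤ 2 * ε)
            rwa [mul_div_cancel₀ _ (by linarith [hε.1] : 2 * ε ≠ 0)] at this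
          linarith)
        (by
          intro z hz
          have hz1 := hmem z (hr₁ξ.trans (hr₂.1.le.trans hz.ge)) hz.le
          have hzn : ‖z‖ = r₂ := by simpa using hz
          show kf θ₀ (Real.log (‖f z‖ ^ 2)) + A * ψ (g z)
            - (2 * (1 - ε)) * Real.log ‖z - 0‖ ≤ θ₀ + 1 - 2 * Real.log r₂
          rw [sub_zero, hzn]
          have h3 : A * ψ (g z) ≤ 0 := mul_nonpos_of_nonneg_of_nonpos hA0 (hψneg _ (hgΩ hz1.1)).le
          have h4 := kf_le θ₀ (Real.log (‖f z‖ ^ 2))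
          have h5 : 2 * ε * Real.log r₂ ≤ 0 :=
            mul_nonpos_of_nonneg_of_nonpos (by linarith [hε.1]) hlogr₂.le
          linarith)
      have hfin := hmax ξ (by simpa using hr₁ξ) (by simpa using hr₂.1.le)
      simpa using hfin
    -- let `r₂ → 1`
    have step2 : ∀ ε ∈ Ioo (0 : ℝ) 1,
        kf θ₀ (Real.log (‖f ξ‖ ^ 2)) + A * ψ (g ξ) - (2 * (1 - ε)) * Real.log ‖ξ‖ ≤
          θ₀ + 1 := by
      intro ε hε
      have hlim : Tendsto (fun r₂ : ℝ => θ₀ + 1 - 2 * Real.log r₂) (𝓝[<] 1)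
          (𝓝 (θ₀ + 1 - 2 * Real.log 1)) := by
        have : ContinuousAt (fun r₂ : ℝ => θ₀ + 1 - 2 * Real.log r₂) 1 :=
          continuousAt_const.sub (continuousAt_const.mul (Real.continuousAt_log one_ne_zero))
        exact this.tendsto.mono_left nhdsWithin_le_nhds
      rw [Real.log_one, mul_zero, sub_zero] at hlim
      refine ge_of_tendsto hlim ?_
      filter_upwards [Ioo_mem_nhdsLT hξ1] with r₂ hr₂
      exact step ε hε r₂ hr₂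
    -- let `ε → 0`
    have hlim : Tendsto (fun ε : ℝ => kf θ₀ (Real.log (‖f ξ‖ ^ 2)) + A * ψ (g ξ)
        - (2 * (1 - ε)) * Real.log ‖ξ‖) (𝓝[>] 0)
        (𝓝 (kf θ₀ (Real.log (‖f ξ‖ ^ 2)) + A * ψ (g ξ) - (2 * (1 - 0)) * Real.log ‖ξ‖)) := by
      have : Continuous (fun ε : ℝ => kf θ₀ (Real.log (‖f ξ‖ ^ 2)) + A * ψ (g ξ)
        - (2 * (1 - ε)) * Real.log ‖ξ‖) := by fun_prop
      exact (this.tendsto 0).mono_left nhdsWithin_le_nhds
    rw [sub_zero, mul_one] at hlim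
    refine le_of_tendsto hlim ?_
    filter_upwards [Ioo_mem_nhdsGT (zero_lt_one' ℝ)] with ε hε
    exact step2 ε hε
  -- conclusion
  rcases hD0.eq_or_lt with hDz | hDpos
  · rw [← hDz]
    exact (Real.exp_pos _).le
  have hlimu : Tendsto (fun ζ : ℂ => Real.log ((‖f ζ‖ / ‖ζ‖) ^ 2) + A * ψ (g ζ)) (𝓝[≠] 0)
      (𝓝 (Real.log (D ^ 2) + A * ψ (g 0))) := by
    have h1 : Tendsto (fun ζ : ℂ => Real.log ((‖f ζ‖ / ‖ζ‖) ^ 2)) (𝓝[≠] 0)
        (𝓝 (Real.log (D ^ 2))) :=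
      (Real.continuousAt_log (by positivity)).tendsto.comp (hslope.pow 2)
    have h2 : ContinuousAt (fun ζ : ℂ => A * ψ (g ζ)) 0 :=
      continuousAt_const.mul (ContinuousAt.comp (g := ψ) (hψ2 (g 0) (hgΩ h0mem)).continuousAt
        (hg.differentiableAt (hnhds 0 h0mem)).continuousAt)
    exact h1.add (h2.tendsto.mono_left nhdsWithin_le_nhds)
  have hfin : Real.log (D ^ 2) + A * ψ (g 0) ≤ θ₀ + 1 := by
    refine le_of_tendsto hlimu ?_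
    have hsmall : ∀ᶠ ζ in 𝓝[≠] (0 : ℂ), Real.log (‖f ζ‖ ^ 2) ≤ θ₀ := by
      have h1 : Tendsto (fun ζ : ℂ => ‖f ζ‖) (𝓝[≠] 0) (𝓝 ‖f 0‖) :=
        ((hfd.differentiableAt (hnhds 0 h0mem)).continuousAt.norm.tendsto).mono_left
          nhdsWithin_le_nhds
      rw [hf0, norm_zero] at h1
      have h2 : ∀ᶠ ζ in 𝓝[≠] (0 : ℂ), ‖f ζ‖ < Real.exp (θ₀ / 2) :=
        h1.eventually_lt_const (Real.exp_pos _)
      have h3 : ∀ᶠ ζ in 𝓝[≠] (0 : ℂ), ζ ∈ ball (0 : ℂ) 1 :=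
        mem_nhdsWithin_of_mem_nhds (hnhds 0 h0mem)
      filter_upwards [h2, h3, self_mem_nhdsWithin] with ζ hζ1 hζ2 hζ3
      have hpos : 0 < ‖f ζ‖ := norm_pos_iff.2 (hfne ζ hζ2 hζ3)
      rw [Real.log_pow]
      have := Real.log_lt_log hpos hζ1
      rw [Real.log_exp] at this
      push_cast
      linarith
    have h3 : ∀ᶠ ζ in 𝓝[≠] (0 : ℂ), ζ ∈ ball (0 : ℂ) 1 :=
      mem_nhdsWithin_of_mem_nhds (hnhds 0 h0mem)
    filter_upwards [hsmall, h3, self_mem_nhdsWithin] with ζ hζ1 hζ2 hζ3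
    have h4 := claim ζ hζ2 hζ3
    rw [kf_eq_self hζ1] at h4
    have hpos : 0 < ‖f ζ‖ := norm_pos_iff.2 (hfne ζ hζ2 hζ3)
    have hζpos : 0 < ‖ζ‖ := norm_pos_iff.2 hζ3
    rw [Real.log_pow, Real.log_div hpos.ne' hζpos.ne']
    rw [Real.log_pow] at h4
    push_cast at h4 ⊢
    linarith
  have h5 : Real.log (D ^ 2) ≤ θ₀ + 1 + A * m := by
    have : A * (-m) ≤ A * ψ (g 0) := by gcongr
    linarith
  rw [Real.log_pow] at h5
  push_cast at h5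
  have h6 : Real.log D ≤ (θ₀ + 1 + A * m) / 2 := by linarith
  exact (Real.log_le_iff_le_exp hDpos).1 h6

end Pool.Agent.Sqz
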