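import Mathlib

/-!
Block B, item 5: the vector valued Parseval inequality in a disc.
-/

set_option autoImplicit false

open Complex Metric Set Filter Topology MeasureTheory

namespace Pool.Agent.Sqz

namespace B5

variable {H : Type*} [NormedAddCommGroup H] [InnerProductSpace ℂ H] [CompleteSpace H]

/-- mean value property -/
theorem mean0 {f : ℂ → H} {c : ℂ} {ρ : ℝ} (hρ : 0 < ρ)
    (hf : DifferentiableOn ℂ f (closedBall c ρ)) :
    (∫ θ in (0 : ℝ)..2 * Real.pi, f (circleMap c ρ θ)) = (2 * Real.pi : ℂ) • f c := by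
  have h := hf.circleIntegral_one_div_sub_center_pow_smul hρ 0
  have h1 : (∮ z in C(c, ρ), (1 / (z - c) ^ (0 + 1)) • f z) =
      (I : ℂ) • ∫ θ in (0 : ℝ)..2 * Real.pi, f (circleMap c ρ θ) := by
    rw [circleIntegral, ← intervalIntegral.integral_smul]
    refine intervalIntegral.integral_congr (fun θ _ => ?_)
    simp only [deriv_circleMap, circleMap_sub_center, zero_add, pow_one, one_div, smul_smul]
    congr 1
    have : circleMap 0 ρ θ ≠ 0 := by simp [circleMap, hρ.ne']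
    field_simp
  rw [h1] at h
  simp only [Nat.factorial_zero, Nat.cast_one, div_one, iteratedDeriv_zero] at h
  have h2 : (I : ℂ) • (∫ θ in (0 : ℝ)..2 * Real.pi, f (circleMap c ρ θ)) =
      I • ((2 * Real.pi : ℂ) • f c) := by
    rw [h, smul_smul]; congr 1; ring
  exact smul_right_injective H I_ne_zero h2

/-- the first Fourier coefficient -/
theorem mean1 {f : ℂ → H} {c : ℂ} {ρ : ℝ} (hρ : 0 < ρ)
    (hf : DifferentiableOn ℂ f (closedBall c ρ)) :
    (∫ θ in (0 : ℝ)..2 * Real.pi, (circleMap 0 ρ θ)⁻¹ • f (circleMap c ρ θ)) =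
      (2 * Real.pi : ℂ) • deriv f c := by
  have h := hf.circleIntegral_one_div_sub_center_pow_smul hρ 1
  have h1 : (∮ z in C(c, ρ), (1 / (z - c) ^ (1 + 1)) • f z) =
      (I : ℂ) • ∫ θ in (0 : ℝ)..2 * Real.pi, (circleMap 0 ρ θ)⁻¹ • f (circleMap c ρ θ) := by
    rw [circleIntegral, ← intervalIntegral.integral_smul]
    refine intervalIntegral.integral_congr (fun θ _ => ?_)
    simp only [deriv_circleMap, circleMap_sub_center, one_div, smul_smul]
    congr 1
    have : circleMap 0 ρ θ ≠ 0 := by simp [circleMap, hρ.ne']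
    field_simp
  rw [h1] at h
  simp only [Nat.factorial_one, Nat.cast_one, div_one, iteratedDeriv_one] at h
  have h2 : (I : ℂ) • (∫ θ in (0 : ℝ)..2 * Real.pi,
      (circleMap 0 ρ θ)⁻¹ • f (circleMap c ρ θ)) = I • ((2 * Real.pi : ℂ) • deriv f c) := by
    rw [h, smul_smul]; congr 1; ring
  exact smul_right_injective H I_ne_zero h2

theorem cont_comp {f : ℂ → H} {c : ℂ} {ρ : ℝ} (hρ : 0 < ρ)
    (hf : DifferentiableOn ℂ f (closedBall c ρ)) :
    Continuous fun θ : ℝ => f (circleMap c ρ θ) := by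
  refine hf.continuousOn.comp_continuous (continuous_circleMap c ρ) (fun θ => ?_)
  exact circleMap_mem_closedBall c hρ.le θ

theorem cont_inv {ρ : ℝ} (hρ : 0 < ρ) : Continuous fun θ : ℝ => (circleMap 0 ρ θ)⁻¹ := by
  refine (continuous_circleMap 0 ρ).inv₀ (fun θ => ?_)
  simp [circleMap, hρ.ne']

/-- the scalar product with the first two terms -/
theorem inner_mean {f : ℂ → H} {c : ℂ} {ρ : ℝ} (hρ : 0 < ρ)
    (hf : DifferentiableOn ℂ f (closedBall c ρ)) :
    (∫ θ in (0 : ℝ)..2 * Real.pi,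
      inner ℂ (f c + circleMap 0 ρ θ • deriv f c) (f (circleMap c ρ θ))) =
      (2 * Real.pi : ℂ) * ((‖f c‖ ^ 2 + ρ ^ 2 * ‖deriv f c‖ ^ 2 : ℝ) : ℂ) := by
  have hconj : ∀ θ : ℝ, (starRingEnd ℂ) (circleMap 0 ρ θ) = (ρ : ℂ) ^ 2 * (circleMap 0 ρ θ)⁻¹ := by
    intro θ
    have h0 : circleMap 0 ρ θ ≠ 0 := by simp [circleMap, hρ.ne']
    have h1 : (starRingEnd ℂ) (circleMap 0 ρ θ) * circleMap 0 ρ θ = (ρ : ℂ) ^ 2 := by
      rw [mul_comm, mul_conj, normSq_eq_norm_sq]
      simp [circleMap, abs_of_pos hρ]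
    rw [eq_mul_inv_iff_mul_eq₀ h0, h1]
  have h1 : ∀ θ : ℝ, inner ℂ (f c + circleMap 0 ρ θ • deriv f c) (f (circleMap c ρ θ)) =
      innerSL ℂ (f c) (f (circleMap c ρ θ)) + (ρ : ℂ) ^ 2 *
        innerSL ℂ (deriv f c) ((circleMap 0 ρ θ)⁻¹ • f (circleMap c ρ θ)) := by
    intro θ
    simp only [innerSL_apply_apply, inner_add_left, inner_smul_left, inner_smul_right, hconj]
    ring
  simp only [h1]
  have hc0 := cont_comp hρ hf
  have hc1 : Continuous fun θ : ℝ => (circleMap 0 ρ θ)⁻¹ • f (circleMap c ρ θ) :=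
    (cont_inv hρ).smul hc0
  rw [intervalIntegral.integral_add, intervalIntegral.integral_const_mul,
    ContinuousLinearMap.intervalIntegral_comp_comm, ContinuousLinearMap.intervalIntegral_comp_comm,
    mean0 hρ hf, mean1 hρ hf]
  · simp only [innerSL_apply_apply, inner_smul_right, inner_self_eq_norm_sq_to_K]
    push_cast
    simp only [coe_algebraMap]
    ring
  · exact hc1.intervalIntegrable _ _
  · exact hc0.intervalIntegrable _ _
  · exact ((innerSL ℂ (f c)).continuous.comp hc0).intervalIntegrable _ _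
  · exact (continuous_const.mul ((innerSL ℂ (deriv f c)).continuous.comp hc1)).intervalIntegrable
      _ _

theorem main {f : ℂ → H} {c : ℂ} {ρ : ℝ} (hρ : 0 < ρ)
    (hf : DifferentiableOn ℂ f (closedBall c ρ)) (hm : ∀ z ∈ closedBall c ρ, ‖f z‖ ≤ 1) :
    ‖f c‖ ^ 2 + ρ ^ 2 * ‖deriv f c‖ ^ 2 ≤ 1 := by
  set M := ‖f c‖ ^ 2 + ρ ^ 2 * ‖deriv f c‖ ^ 2 with hM
  set h : ℂ → H := fun z => f c + (z - c) • deriv f c with hh
  have hhd : Differentiable ℂ h :=
    (differentiable_const _).add ((differentiable_id.sub_const c).smul_const _)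
  have hhc : h c = f c := by simp [hh]
  have hhder : deriv h c = deriv f c := by
    have : HasDerivAt h ((1 : ℂ) • deriv f c) c := by
      have := ((hasDerivAt_id c).sub_const c).smul_const (deriv f c)
      exact this.const_add (f c)
    simpa using this.deriv
  have hhcirc : ∀ θ : ℝ, h (circleMap c ρ θ) = f c + circleMap 0 ρ θ • deriv f c := by
    intro θ
    simp [hh]
  have e1 := inner_mean hρ hf
  have e2 := inner_mean (c := c) hρ (f := h) (hhd.differentiableOn)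
  rw [hhc, hhder] at e2
  simp only [hhcirc] at e2
  have hcf := cont_comp hρ hf
  have hch : Continuous fun θ : ℝ => f c + circleMap 0 ρ θ • deriv f c :=
    continuous_const.add ((continuous_circleMap 0 ρ).smul continuous_const)
  -- real parts
  have hre : ∀ {φ : ℝ → ℂ}, Continuous φ → (∫ θ in (0 : ℝ)..2 * Real.pi, (φ θ).re) =
      (∫ θ in (0 : ℝ)..2 * Real.pi, φ θ).re := by
    intro φ hφ
    have := reCLM.intervalIntegral_comp_comm (hφ.intervalIntegrable (μ := volume) 0 (2 * Real.pi))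
    simpa using this
  have hc1 : Continuous fun θ : ℝ =>
      (inner ℂ (f c + circleMap 0 ρ θ • deriv f c) (f (circleMap c ρ θ)) : ℂ) := hch.inner hcf
  have hc2 : Continuous fun θ : ℝ =>
      (inner ℂ (f c + circleMap 0 ρ θ • deriv f c)
        (f c + circleMap 0 ρ θ • deriv f c) : ℂ) := hch.inner hch
  have r1 : (∫ θ in (0 : ℝ)..2 * Real.pi,
      (inner ℂ (f c + circleMap 0 ρ θ • deriv f c) (f (circleMap c ρ θ)) : ℂ).re) =
      2 * Real.pi * M := by
    rw [hre hc1, e1]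
    have : (2 * Real.pi : ℂ) * ((M : ℝ) : ℂ) = ((2 * Real.pi * M : ℝ) : ℂ) := by push_cast; ring
    rw [this, ofReal_re]
  have r2 : (∫ θ in (0 : ℝ)..2 * Real.pi,
      (inner ℂ (f c + circleMap 0 ρ θ • deriv f c)
        (f c + circleMap 0 ρ θ • deriv f c) : ℂ).re) = 2 * Real.pi * M := by
    rw [hre hc2, e2]
    have : (2 * Real.pi : ℂ) * ((M : ℝ) : ℂ) = ((2 * Real.pi * M : ℝ) : ℂ) := by push_cast; ring
    rw [this, ofReal_re]
  have hpt : ∀ θ : ℝ, 2 * (inner ℂ (f c + circleMap 0 ρ θ • deriv f c)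
      (f (circleMap c ρ θ)) : ℂ).re - (inner ℂ (f c + circleMap 0 ρ θ • deriv f c)
        (f c + circleMap 0 ρ θ • deriv f c) : ℂ).re ≤ 1 := by
    intro θ
    have h1 := norm_sub_sq (𝕜 := ℂ) (f c + circleMap 0 ρ θ • deriv f c) (f (circleMap c ρ θ))
    have h2 : ‖f (circleMap c ρ θ)‖ ≤ 1 := hm _ (circleMap_mem_closedBall c hρ.le θ)
    have h3 : (inner ℂ (f c + circleMap 0 ρ θ • deriv f c)
        (f c + circleMap 0 ρ θ • deriv f c) : ℂ).re = ‖f c + circleMap 0 ρ θ • deriv f c‖ ^ 2 := by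
      have := inner_self_eq_norm_sq (𝕜 := ℂ) (f c + circleMap 0 ρ θ • deriv f c)
      simpa using this
    have h4 := sq_nonneg ‖f c + circleMap 0 ρ θ • deriv f c - f (circleMap c ρ θ)‖
    have h5 : ‖f (circleMap c ρ θ)‖ ^ 2 ≤ 1 := by
      have := norm_nonneg (f (circleMap c ρ θ))
      nlinarith
    simp only [RCLike.re_to_complex] at h1
    rw [h3]
    linarith
  have hcc1 : Continuous fun θ : ℝ =>
      (inner ℂ (f c + circleMap 0 ρ θ • deriv f c) (f (circleMap c ρ θ)) : ℂ).re :=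
    continuous_re.comp hc1
  have hcc2 : Continuous fun θ : ℝ =>
      (inner ℂ (f c + circleMap 0 ρ θ • deriv f c)
        (f c + circleMap 0 ρ θ • deriv f c) : ℂ).re := continuous_re.comp hc2
  have hcc3 : Continuous fun θ : ℝ =>
      2 * (inner ℂ (f c + circleMap 0 ρ θ • deriv f c) (f (circleMap c ρ θ)) : ℂ).re :=
    continuous_const.mul hcc1
  have hint : (∫ θ in (0 : ℝ)..2 * Real.pi, (2 * (inner ℂ (f c + circleMap 0 ρ θ • deriv f c)
      (f (circleMap c ρ θ)) : ℂ).re - (inner ℂ (f c + circleMap 0 ρ θ • deriv f c)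
        (f c + circleMap 0 ρ θ • deriv f c) : ℂ).re)) ≤
      ∫ θ in (0 : ℝ)..2 * Real.pi, (1 : ℝ) := by
    refine intervalIntegral.integral_mono_on (by positivity) ?_ ?_ (fun θ _ => hpt θ)
    · exact (hcc3.sub hcc2).intervalIntegrable _ _
    · exact intervalIntegrable_const
  rw [intervalIntegral.integral_sub (hcc3.intervalIntegrable _ _)
    (hcc2.intervalIntegrable _ _), intervalIntegral.integral_const_mul, r1, r2,
    intervalIntegral.integral_const] at hint
  have hpi := Real.pi_pos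
  simp only [sub_zero, smul_eq_mul, mul_one] at hint
  nlinarith

end B5

theorem iB5 {H : Type*} [NormedAddCommGroup H] [InnerProductSpace ℂ H] [CompleteSpace H]
    {f : ℂ → H} {c : ℂ} {R : ℝ} (hR : 0 < R) (hf : DifferentiableOn ℂ f (ball c R))
    (hm : MapsTo f (ball c R) (ball 0 1)) : ‖f c‖ ^ 2 + R ^ 2 * ‖deriv f c‖ ^ 2 ≤ 1 := by
  have key : ∀ ρ : ℝ, 0 < ρ → ρ < R → ‖f c‖ ^ 2 + ρ ^ 2 * ‖deriv f c‖ ^ 2 ≤ 1 := by
    intro ρ h1 h2
    refine B5.main h1 (hf.mono (closedBall_subset_ball h2)) (fun z hz => ?_)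
    have := hm (closedBall_subset_ball h2 hz)
    rw [mem_ball_zero_iff] at this
    exact this.le
  have hlim : Tendsto (fun ρ : ℝ => ‖f c‖ ^ 2 + ρ ^ 2 * ‖deriv f c‖ ^ 2) (𝓝[<] R)
      (𝓝 (‖f c‖ ^ 2 + R ^ 2 * ‖deriv f c‖ ^ 2)) := by
    have : Continuous fun ρ : ℝ => ‖f c‖ ^ 2 + ρ ^ 2 * ‖deriv f c‖ ^ 2 := by fun_prop
    exact (this.tendsto R).mono_left nhdsWithin_le_nhds
  refine le_of_tendsto hlim ?_
  filter_upwards [Ioo_mem_nhdsLT hR] with ρ hρ
  exact key ρ hρ.1 hρ.2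

end Pool.Agent.Sqz
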