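import Mathlib

/-!
Block B, item 6: a two constants estimate in a square.
-/

set_option autoImplicit false

open Complex Metric Set Filter Topology

namespace Pool.Agent.Sqz

theorem iB6 {H : Type*} [NormedAddCommGroup H] [NormedSpace ℂ H] [CompleteSpace H]
    {f : ℂ → H} {Ω : Set ℂ} (hΩ : IsOpen Ω) (hf : DifferentiableOn ℂ f Ω) {s A B : ℝ} (hs : 0 < s)
    (hsub : ∀ z : ℂ, |z.re| ≤ s → |z.im| ≤ s → z ∈ Ω)
    (hA : ∀ z : ℂ, |z.re| ≤ s → |z.im| ≤ s → ‖f z‖ ≤ A)
    (hB : ∀ z : ℂ, z.re = s → |z.im| ≤ s → ‖f z‖ ≤ B) : ‖f 0‖ ^ 4 ≤ A ^ 3 * B := by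
  have hA0 : 0 ≤ A := (norm_nonneg _).trans (hA 0 (by simp [hs.le]) (by simp [hs.le]))
  have hB0 : 0 ≤ B := (norm_nonneg _).trans (hB (s : ℂ) (by simp) (by simp [hs.le]))
  rcases eq_or_ne (f 0) 0 with h0 | h0
  · rw [h0]; simp; positivity
  obtain ⟨ψ, hψ1, hψ2⟩ := exists_dual_vector ℂ (f 0) (norm_ne_zero_iff.2 h0)
  set g : ℂ → ℂ := fun z => ψ (f z) with hg
  have hgb : ∀ z, ‖g z‖ ≤ ‖f z‖ := by
    intro z
    have := ψ.le_opNorm (f z)
    rwa [hψ1, one_mul] at this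
  have hgd : ∀ z ∈ Ω, DifferentiableAt ℂ g z := by
    intro z hz
    exact ψ.differentiableAt.comp z (hf.differentiableAt (hΩ.mem_nhds hz))
  set G : ℂ → ℂ := fun z => g z * g (I * z) * g (-z) * g (-(I * z)) with hG
  set U : Set ℂ := {z | |z.re| < s ∧ |z.im| < s} with hU
  have hUo : IsOpen U :=
    (isOpen_lt (continuous_abs.comp continuous_re) continuous_const).inter
      (isOpen_lt (continuous_abs.comp continuous_im) continuous_const)
  set Q : Set ℂ := {z | |z.re| ≤ s ∧ |z.im| ≤ s} with hQ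
  have hQc : IsClosed Q :=
    (isClosed_le (continuous_abs.comp continuous_re) continuous_const).inter
      (isClosed_le (continuous_abs.comp continuous_im) continuous_const)
  have hUQ : U ⊆ Q := fun z hz => ⟨hz.1.le, hz.2.le⟩
  have hclos : closure U ⊆ Q := closure_minimal hUQ hQc
  have hQb : Bornology.IsBounded U := by
    refine (isBounded_iff_forall_norm_le).2 ⟨s + s, fun z hz => ?_⟩
    exact (norm_le_abs_re_add_abs_im z).trans (add_le_add hz.1.le hz.2.le)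
  have hrot : ∀ z ∈ Q, I * z ∈ Q := by
    intro z hz
    refine ⟨?_, ?_⟩
    · simp [hz.1, hz.2]
    · simp [hz.1, hz.2]
  have hneg : ∀ z ∈ Q, -z ∈ Q := by
    intro z hz
    refine ⟨?_, ?_⟩
    · simp [hz.1, hz.2]
    · simp [hz.1, hz.2]
  have hQΩ : ∀ z ∈ Q, z ∈ Ω := fun z hz => hsub z hz.1 hz.2
  have hGd : ∀ z ∈ Q, DifferentiableAt ℂ G z := by
    intro z hz
    have h1 := hgd z (hQΩ z hz)
    have h2 : DifferentiableAt ℂ (fun z => g (I * z)) z :=
      (hgd _ (hQΩ _ (hrot z hz))).comp z ((differentiableAt_id).const_mul I)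
    have h3 : DifferentiableAt ℂ (fun z => g (-z)) z :=
      (hgd _ (hQΩ _ (hneg z hz))).comp z differentiableAt_id.fun_neg
    have h4' : DifferentiableAt ℂ (fun z : ℂ => -(I * z)) z :=
      ((differentiableAt_id).const_mul I).fun_neg
    have h4 : DifferentiableAt ℂ (fun z => g (-(I * z))) z :=
      DifferentiableAt.comp (g := g) z (hgd _ (hQΩ _ (hneg _ (hrot z hz)))) h4'
    exact ((h1.mul h2).mul h3).mul h4
  have hdc : DiffContOnCl ℂ G U :=
    ⟨fun z hz => (hGd z (hUQ hz)).differentiableWithinAt,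
      fun z hz => (hGd z (hclos hz)).continuousAt.continuousWithinAt⟩
  have hgA : ∀ z ∈ Q, ‖g z‖ ≤ A := fun z hz => (hgb z).trans (hA z hz.1 hz.2)
  have hprod : ∀ a b c d : ℂ, ‖a‖ ≤ A → ‖b‖ ≤ A → ‖c‖ ≤ A → ‖d‖ ≤ B →
      ‖a‖ * ‖b‖ * ‖c‖ * ‖d‖ ≤ A ^ 3 * B := by
    intro a b c d h1 h2 h3 h4
    have : ‖a‖ * ‖b‖ * ‖c‖ * ‖d‖ ≤ A * A * A * B := by gcongr
    calc _ ≤ _ := this
      _ = A ^ 3 * B := by ring
  have hbd : ∀ z ∈ frontier U, ‖G z‖ ≤ A ^ 3 * B := by
    intro z hz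
    have hzQ : z ∈ Q := hclos (frontier_subset_closure hz)
    have hzU : z ∉ U := by
      rw [frontier, hUo.interior_eq] at hz
      exact hz.2
    have h1 := hgA z hzQ
    have h2 := hgA _ (hrot z hzQ)
    have h3 := hgA _ (hneg z hzQ)
    have h4 := hgA _ (hneg _ (hrot z hzQ))
    have hn : ‖G z‖ = ‖g z‖ * ‖g (I * z)‖ * ‖g (-z)‖ * ‖g (-(I * z))‖ := by
      simp only [hG, norm_mul]
    rw [hn]
    have hcases : z.re = s ∨ z.re = -s ∨ z.im = s ∨ z.im = -s := by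
      by_contra hcon
      push Not at hcon
      apply hzU
      refine ⟨lt_of_le_of_ne hzQ.1 ?_, lt_of_le_of_ne hzQ.2 ?_⟩
      · intro h
        rcases (abs_eq hs.le).1 h with h | h
        · exact hcon.1 h
        · exact hcon.2.1 h
      · intro h
        rcases (abs_eq hs.le).1 h with h | h
        · exact hcon.2.2.1 h
        · exact hcon.2.2.2 h
    rcases hcases with h | h | h | h
    · have h5 : ‖g z‖ ≤ B := (hgb z).trans (hB z h hzQ.2)
      have := hprod _ _ _ _ h2 h3 h4 h5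
      nlinarith [this]
    · have h5 : ‖g (-z)‖ ≤ B := (hgb _).trans (hB (-z) (by simp [h]) (by simpa using hzQ.2))
      have := hprod _ _ _ _ h1 h2 h4 h5
      nlinarith [this]
    · have h5 : ‖g (-(I * z))‖ ≤ B :=
        (hgb _).trans (hB (-(I * z)) (by simp [h]) (by simpa using hzQ.1))
      exact hprod _ _ _ _ h1 h2 h3 h5
    · have h5 : ‖g (I * z)‖ ≤ B :=
        (hgb _).trans (hB (I * z) (by simp [h]) (by simpa using hzQ.1))
      have := hprod _ _ _ _ h1 h3 h4 h5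
      nlinarith [this]
  have h0U : (0 : ℂ) ∈ U := by simp [hU, hs]
  have hfin := Complex.norm_le_of_forall_mem_frontier_norm_le hQb hdc hbd (subset_closure h0U)
  have hG0 : ‖G 0‖ = ‖f 0‖ ^ 4 := by
    have : g 0 = (‖f 0‖ : ℂ) := by simpa [hg] using hψ2
    simp only [hG, mul_zero, neg_zero, this, norm_mul, norm_real, norm_norm]
    ring
  rwa [hG0] at hfin

end Pool.Agent.Sqz
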