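import Mathlib

/-!
Block B, item 7: a Harnack inequality for zero free bounded holomorphic functions in a disc.
-/

set_option autoImplicit false

open Complex Metric Set Filter Topology

namespace Pool.Agent.Sqz

namespace B7

/-- a zero free holomorphic function in a disc has a logarithm -/
theorem exists_log {J : ℂ → ℂ} {a : ℝ} (ha : 0 < a) (hJ : DifferentiableOn ℂ J (ball 0 a))
    (hne : ∀ z ∈ ball (0 : ℂ) a, J z ≠ 0) :
    ∃ L : ℂ → ℂ, DifferentiableOn ℂ L (ball 0 a) ∧ ∀ z ∈ ball (0 : ℂ) a, J z = exp (L z) := by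
  have hJd : DifferentiableOn ℂ (fun z => deriv J z / J z) (ball 0 a) :=
    (hJ.deriv isOpen_ball).div hJ hne
  obtain ⟨L, hL0, hL⟩ := hJd.isExactOn_ball.with_val_at 0 (log (J 0))
  refine ⟨L, fun z hz => (hL z hz).differentiableAt.differentiableWithinAt, fun z hz => ?_⟩
  set q : ℂ → ℂ := fun z => J z * exp (-(L z)) with hq
  have hqd : ∀ z ∈ ball (0 : ℂ) a, HasDerivAt q 0 z := by
    intro z hz
    have h1 : HasDerivAt J (deriv J z) z :=
      (hJ.differentiableAt (isOpen_ball.mem_nhds hz)).hasDerivAt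
    have h2 : HasDerivAt (fun z => exp (-(L z))) (exp (-(L z)) * -(deriv J z / J z)) z :=
      (hL z hz).fun_neg.cexp
    have h3 := h1.mul h2
    have h4 : deriv J z * exp (-(L z)) + J z * (exp (-(L z)) * -(deriv J z / J z)) = 0 := by
      have := hne z hz
      field_simp
      ring
    rw [h4] at h3
    exact h3
  have hconst : q z = q 0 := by
    have h0 : (0 : ℂ) ∈ ball (0 : ℂ) a := mem_ball_self ha
    refine (convex_ball (0 : ℂ) a).is_const_of_fderivWithin_eq_zero (𝕜 := ℂ)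
      (fun w hw => (hqd w hw).differentiableAt.differentiableWithinAt) (fun w hw => ?_) hz h0
    rw [fderivWithin_of_isOpen isOpen_ball hw]
    have := (hqd w hw).hasFDerivAt.fderiv
    rw [this]
    ext
    simp
  have hq0 : q 0 = 1 := by
    have h0 := hne 0 (mem_ball_self ha)
    simp only [hq, hL0, exp_neg, exp_log h0]
    exact mul_inv_cancel₀ h0
  rw [hq0] at hconst
  have h5 : J z * exp (-(L z)) = 1 := hconst
  rw [exp_neg] at h5
  field_simp at h5
  exact h5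

/-- Harnack inequality for the real part -/
theorem harnack {h : ℂ → ℂ} {a : ℝ} (ha : 0 < a) (hh : DifferentiableOn ℂ h (ball 0 a))
    (hpos : ∀ z ∈ ball (0 : ℂ) a, 0 < (h z).re) {z₁ : ℂ} (hz₁ : z₁ ∈ ball (0 : ℂ) a) :
    (h 0).re * (1 - ‖z₁‖ / a) ≤ (h z₁).re * (1 + ‖z₁‖ / a) := by
  have h00 := hpos 0 (mem_ball_self ha)
  set g : ℂ → ℂ := fun z => (h z - h 0) / (h z + (starRingEnd ℂ) (h 0)) with hg
  have hden : ∀ z ∈ ball (0 : ℂ) a, h z + (starRingEnd ℂ) (h 0) ≠ 0 := by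
    intro z hz h0
    have := congrArg re h0
    simp only [add_re, conj_re, zero_re] at this
    have := hpos z hz
    linarith
  have hgd : DifferentiableOn ℂ g (ball 0 a) :=
    (hh.sub_const _).div (hh.add_const _) hden
  have hg0 : g 0 = 0 := by simp [hg]
  have hsq : ∀ z ∈ ball (0 : ℂ) a, ‖h z - h 0‖ ^ 2 ≤ ‖h z + (starRingEnd ℂ) (h 0)‖ ^ 2 := by
    intro z hz
    have := hpos z hz
    rw [← normSq_eq_norm_sq, ← normSq_eq_norm_sq, normSq_apply, normSq_apply]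
    simp only [sub_re, sub_im, add_re, add_im, conj_re, conj_im]
    nlinarith
  have hmaps : MapsTo g (ball 0 a) (closedBall (g 0) 1) := by
    intro z hz
    rw [hg0, mem_closedBall_zero_iff, hg]
    simp only [norm_div]
    rw [div_le_one (norm_pos_iff.2 (hden z hz))]
    exact le_of_sq_le_sq (hsq z hz) (norm_nonneg _)
  have key := Complex.dist_le_div_mul_dist_of_mapsTo_ball hgd hmaps hz₁
  rw [hg0, dist_zero_right, dist_zero_right] at key
  set t := ‖z₁‖ / a with ht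
  have ht0 : 0 ≤ t := by positivity
  have ht1 : t < 1 := by
    rw [ht, div_lt_one ha]
    exact mem_ball_zero_iff.1 hz₁
  have key2 : ‖g z₁‖ ≤ t := by
    calc ‖g z₁‖ ≤ 1 / a * ‖z₁‖ := key
      _ = t := by rw [ht]; ring
  have key3 : ‖h z₁ - h 0‖ ≤ t * ‖h z₁ + (starRingEnd ℂ) (h 0)‖ := by
    simp only [hg, norm_div] at key2
    rwa [div_le_iff₀ (norm_pos_iff.2 (hden z₁ hz₁))] at key2
  have key4 : ‖h z₁ - h 0‖ ^ 2 ≤ t ^ 2 * ‖h z₁ + (starRingEnd ℂ) (h 0)‖ ^ 2 := by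
    rw [← mul_pow]
    exact pow_le_pow_left₀ (norm_nonneg _) key3 2
  rw [← normSq_eq_norm_sq, ← normSq_eq_norm_sq, normSq_apply, normSq_apply] at key4
  simp only [sub_re, sub_im, add_re, add_im, conj_re, conj_im] at key4
  have hz₁p := hpos z₁ hz₁
  have key5 : ((h z₁).re - (h 0).re) ^ 2 ≤ (t * ((h z₁).re + (h 0).re)) ^ 2 := by
    have hx : 0 ≤ (1 - t ^ 2) * ((h z₁).im - (h 0).im) ^ 2 := by
      have : t ^ 2 ≤ 1 := by nlinarith
      have := sq_nonneg ((h z₁).im - (h 0).im)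
      nlinarith
    nlinarith
  have key6 : |(h z₁).re - (h 0).re| ≤ t * ((h z₁).re + (h 0).re) :=
    abs_le_of_sq_le_sq key5 (by positivity)
  have key7 := (abs_le.1 key6).1
  linarith

end B7

theorem iB7 {a r C c : ℝ} (hr : 0 ≤ r) (hra : r < a) (hC : 0 < C) (hc : 0 < c) :
    ∃ c' : ℝ, 0 < c' ∧ ∀ J : ℂ → ℂ, DifferentiableOn ℂ J (ball 0 a) →
      (∀ z ∈ ball (0 : ℂ) a, J z ≠ 0 ∧ ‖J z‖ ≤ C) →
      ∀ z₁ : ℂ, ‖z₁‖ ≤ r → c ≤ ‖J z₁‖ → c' ≤ ‖J 0‖ := by
  have ha : 0 < a := hr.trans_lt hra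
  set t := r / a with ht
  have ht0 : 0 ≤ t := by positivity
  have ht1 : t < 1 := by rwa [ht, div_lt_one ha]
  set K := (1 + t) / (1 - t) with hK
  refine ⟨Real.exp (Real.log (C + 1) - K * (Real.log (C + 1) - Real.log c)), Real.exp_pos _,
    fun J hJ hb z₁ hz₁ hcz => ?_⟩
  have hz₁b : z₁ ∈ ball (0 : ℂ) a := mem_ball_zero_iff.2 (hz₁.trans_lt hra)
  obtain ⟨L, hLd, hL⟩ := B7.exists_log ha hJ (fun z hz => (hb z hz).1)
  have hlog : ∀ z ∈ ball (0 : ℂ) a, (L z).re = Real.log ‖J z‖ := by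
    intro z hz
    rw [hL z hz, norm_exp, Real.log_exp]
  set h : ℂ → ℂ := fun z => (Real.log (C + 1) : ℂ) - L z with hh
  have hhd : DifferentiableOn ℂ h (ball 0 a) := (differentiableOn_const _).sub hLd
  have hhre : ∀ z ∈ ball (0 : ℂ) a, (h z).re = Real.log (C + 1) - Real.log ‖J z‖ := by
    intro z hz
    simp only [hh, sub_re, ofReal_re, hlog z hz]
  have hpos : ∀ z ∈ ball (0 : ℂ) a, 0 < (h z).re := by
    intro z hz
    rw [hhre z hz, sub_pos]
    refine Real.log_lt_log (norm_pos_iff.2 (hb z hz).1) ?_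
    have := (hb z hz).2
    linarith
  have hHar := B7.harnack ha hhd hpos hz₁b
  have h0p := hpos 0 (mem_ball_self ha)
  have h1p := hpos z₁ hz₁b
  set s := ‖z₁‖ / a with hs
  have hst : s ≤ t := by
    rw [hs, ht]
    exact div_le_div_of_nonneg_right hz₁ ha.le
  have hs0 : 0 ≤ s := by positivity
  have h2 : (h 0).re * (1 - t) ≤ (h z₁).re * (1 + t) := by nlinarith
  have h3 : (h 0).re ≤ K * (h z₁).re := by
    rw [hK, div_mul_eq_mul_div, le_div_iff₀ (by linarith)]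
    linarith
  have hK0 : 0 < K := div_pos (by linarith) (by linarith)
  rw [hhre 0 (mem_ball_self ha), hhre z₁ hz₁b] at h3
  have h4 : Real.log c ≤ Real.log ‖J z₁‖ := Real.log_le_log hc hcz
  have hJ0 : 0 < ‖J 0‖ := norm_pos_iff.2 (hb 0 (mem_ball_self ha)).1
  rw [← Real.le_log_iff_exp_le hJ0]
  nlinarith

end Pool.Agent.Sqz
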