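import Pool.Agent.Work.MP_0e9e72_an.C1

/-!
# MP_0e9e72_an, block C: Levi form calculus and the Diederich-Fornaess function
-/

set_option autoImplicit false

open Complex Metric Set Filter Topology
open scoped ContDiff

namespace Pool.Agent.Sqz

section df
variable {E : Type*} [NormedAddCommGroup E] [InnerProductSpace ℂ E]

/-! ### The Diederich-Fornaess function -/

open LeviC in
theorem iC3 {r : E → ℝ} (hr : ContDiff ℝ ((⊤ : ℕ∞) : WithTop ℕ∞) r) {C ρ : ℝ} (hρ : 0 < ρ)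
    (hC : ∀ z ∈ ball (0 : E) ρ, ∀ v,
      -(C * (|r z| * ‖v‖ ^ 2 + Real.sqrt (Nm r z v) * ‖v‖)) ≤ Lev r z v) :
    ∃ K > 0, ∃ ρ' > 0, ρ' ≤ ρ ∧ ∃ c > 0, ∀ z ∈ ball (0 : E) ρ', r z < 0 →
      ContDiffAt ℝ 2 (dfun r K) z ∧ (∀ v, 0 ≤ Lev (dfun r K) z v) ∧
      ∀ v, c * (-(r z)) ^ (5 / 6 : ℝ) * (Lev r z v / (-(r z)) + Nm r z v / (12 * r z ^ 2)) ≤
        Lev (dfun r K) z v := by
  obtain ⟨C1, hC1⟩ : ∃ C1, C1 = |C| := ⟨_, rfl⟩
  have hC10 : 0 ≤ C1 := by rw [hC1]; exact abs_nonneg _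
  obtain ⟨K, hK⟩ : ∃ K, K = C1 + C1 ^ 2 + 1 := ⟨_, rfl⟩
  have hK1 : 1 ≤ K := by rw [hK]; linarith [sq_nonneg C1]
  have hK0 : 0 < K := by linarith
  obtain ⟨ρ', hρ'⟩ : ∃ ρ', ρ' = min ρ (1 / (7 * K)) := ⟨_, rfl⟩
  have hρ'0 : 0 < ρ' := by rw [hρ']; exact lt_min hρ (by positivity)
  refine ⟨K, hK0, ρ', hρ'0, by rw [hρ']; exact min_le_left _ _, 5 / 6 * Real.exp (-K),
    by positivity, ?_⟩
  intro z hz hrz
  have hzρ : z ∈ ball (0 : E) ρ :=
    ball_subset_ball (by rw [hρ']; exact min_le_left _ _) hz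
  have hznorm : ‖z‖ ≤ 1 / (7 * K) := by
    rw [mem_ball, dist_zero_right] at hz
    exact (hz.le).trans (by rw [hρ']; exact min_le_right _ _)
  have hz7 : ‖z‖ * (7 * K) ≤ 1 := by
    rwa [le_div_iff₀ (by positivity)] at hznorm
  have hz1 : ‖z‖ ^ 2 ≤ 1 := by
    have h1 : ‖z‖ ≤ 1 := by
      calc ‖z‖ = ‖z‖ * 1 := (mul_one _).symm
        _ ≤ ‖z‖ * (7 * K) := mul_le_mul_of_nonneg_left (by linarith) (norm_nonneg z)
        _ ≤ 1 := hz7
    exact pow_le_one₀ (norm_nonneg z) h1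
  have hz2 : 110 / 3 * (K * ‖z‖ ^ 2) ≤ 1 := by
    have h1 : (‖z‖ * (7 * K)) ^ 2 ≤ 1 := pow_le_one₀ (by positivity) hz7
    have h2 : 49 * (K * ‖z‖ ^ 2) ≤ (‖z‖ * (7 * K)) ^ 2 := by
      have h3 : (‖z‖ * (7 * K)) ^ 2 = 49 * (K * ‖z‖ ^ 2) * K := by ring
      rw [h3]
      exact le_mul_of_one_le_right (by positivity) hK1
    have h4 : 0 ≤ K * ‖z‖ ^ 2 := by positivity
    linarith
  have hr2 : ContDiffAt ℝ 2 r z := hr.contDiffAt.of_le (WithTop.coe_le_coe.mpr (le_top : (2 : ℕ∞) ≤ ⊤))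
  -- the function `G`
  set G : E → ℝ := fun y => (-1) * Real.log (r y) + K * ‖y‖ ^ 2 with hG
  have hlog2 : ContDiffAt ℝ 2 (fun y => Real.log (r y)) z := hr2.log hrz.ne
  have hns2 : ContDiffAt ℝ 2 (fun y : E => ‖y‖ ^ 2) z := (contDiff_norm_sq ℂ).contDiffAt
  have hGa : ContDiffAt ℝ 2 (fun y => (-1) * Real.log (r y)) z := contDiffAt_const.mul hlog2
  have hGb : ContDiffAt ℝ 2 (fun y : E => K * ‖y‖ ^ 2) z := contDiffAt_const.mul hns2
  have hG2 : ContDiffAt ℝ 2 G z := hGa.add hGb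
  have hneg : ∀ᶠ y in 𝓝 z, r y < 0 := hr2.continuousAt.eventually (gt_mem_nhds hrz)
  have hval : ∀ y, r y < 0 → dfun r K y = -Real.exp (-(5 / 6) * G y) := by
    intro y hy
    unfold dfun
    have h1 : -(r y) * Real.exp (-(K * ‖y‖ ^ 2)) = Real.exp (-(G y)) := by
      have h2 : -(G y) = Real.log (-(r y)) + -(K * ‖y‖ ^ 2) := by
        simp only [hG]; rw [Real.log_neg_eq_log]; ring
      rw [h2, Real.exp_add, Real.exp_log (by linarith)]
    rw [h1, ← Real.exp_mul]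
    congr 2
    ring
  have hdf : dfun r K =ᶠ[𝓝 z] fun y => (fun t => -Real.exp (-(5 / 6) * t)) (G y) := by
    filter_upwards [hneg] with y hy using hval y hy
  have hφ : ContDiff ℝ 2 (fun t : ℝ => -Real.exp (-(5 / 6) * t)) := by fun_prop
  have hφ1 : deriv (fun t : ℝ => -Real.exp (-(5 / 6) * t))
      = fun t => 5 / 6 * Real.exp (-(5 / 6) * t) := by
    funext t
    have h1 : HasDerivAt (fun t : ℝ => -Real.exp (-(5 / 6) * t))
        (-(Real.exp (-(5 / 6) * t) * (-(5 / 6) * 1))) t :=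
      (((hasDerivAt_id t).const_mul (-(5 / 6 : ℝ))).exp).neg
    rw [h1.deriv]; ring
  have hφ2 : deriv (deriv (fun t : ℝ => -Real.exp (-(5 / 6) * t)))
      = fun t => -(25 / 36 * Real.exp (-(5 / 6) * t)) := by
    rw [hφ1]
    funext t
    have h1 : HasDerivAt (fun t : ℝ => 5 / 6 * Real.exp (-(5 / 6) * t))
        (5 / 6 * (Real.exp (-(5 / 6) * t) * (-(5 / 6) * 1))) t :=
      (((hasDerivAt_id t).const_mul (-(5 / 6 : ℝ))).exp).const_mul _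
    rw [h1.deriv]; ring
  have hLev : ∀ v, Lev (dfun r K) z v
      = 5 / 6 * Real.exp (-(5 / 6) * G z) * (Lev G z v - 5 / 6 * Nm G z v) := by
    intro v
    rw [Lev_congr hdf v, Lev_comp_real hG2 hφ.contDiffAt, hφ2, hφ1]
    ring
  -- Levi form of `G`
  have hlog' : deriv Real.log = fun x => x⁻¹ := by funext x; exact Real.deriv_log x
  have hLG : ∀ v, Lev G z v = Lev r z v / (-(r z)) + Nm r z v / r z ^ 2 + 4 * K * ‖v‖ ^ 2 := by
    intro v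
    have h1 : Lev G z v = Lev (fun y => (-1) * Real.log (r y)) z v
        + Lev (fun y : E => K * ‖y‖ ^ 2) z v := Lev_add hGa hGb
    have h2 : Lev (fun y => Real.log (r y)) z v
        = (r z)⁻¹ * Lev r z v + (-(r z ^ 2)⁻¹) * Nm r z v := by
      rw [Lev_comp_real hr2 (Real.contDiffAt_log.mpr hrz.ne), hlog']
      simp
    rw [h1, Lev_const_mul _ hlog2, Lev_const_mul _ hns2, h2, Lev_normsq]
    have : r z ≠ 0 := hrz.ne
    field_simp
    ring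
  have hNG : ∀ v, Nm G z v ≤ 11 / 10 * (Nm r z v / r z ^ 2) + 44 * K ^ 2 * ‖z‖ ^ 2 * ‖v‖ ^ 2 := by
    intro v
    have hdG : ∀ u, fderiv ℝ G z u
        = -(r z)⁻¹ * fderiv ℝ r z u + K * fderiv ℝ (fun y : E => ‖y‖ ^ 2) z u := by
      intro u
      have h1 : HasFDerivAt (fun y => Real.log (r y)) ((r z)⁻¹ • fderiv ℝ r z) z :=
        (hr2.differentiableAt (by simp)).hasFDerivAt.log hrz.ne
      have h2 : HasFDerivAt (fun y : E => ‖y‖ ^ 2) (fderiv ℝ (fun y : E => ‖y‖ ^ 2) z) z :=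
        (hns2.differentiableAt (by simp)).hasFDerivAt
      have h3 := (h1.const_mul (-1)).add (h2.const_mul K)
      have h4 : fderiv ℝ G z = _ := h3.fderiv
      rw [h4]
      simp
    have h5 := Nm_normsq_le z v
    have h6 : Nm G z v ≤ 11 / 10 * (Nm r z v / r z ^ 2)
        + 11 * K ^ 2 * Nm (fun y : E => ‖y‖ ^ 2) z v := by
      unfold Nm
      rw [hdG, hdG]
      have key : ∀ a b : ℝ, (a + b) ^ 2 ≤ 11 / 10 * a ^ 2 + 11 * b ^ 2 := by
        intro a b; linarith [sq_nonneg (a - 10 * b), (by ring : 11 / 10 * a ^ 2 + 11 * b ^ 2 - (a + b) ^ 2 = 1 / 10 * (a - 10 * b) ^ 2)]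
      have k1 := key (-(r z)⁻¹ * fderiv ℝ r z v) (K * fderiv ℝ (fun y : E => ‖y‖ ^ 2) z v)
      have k2 := key (-(r z)⁻¹ * fderiv ℝ r z (I • v))
        (K * fderiv ℝ (fun y : E => ‖y‖ ^ 2) z (I • v))
      have k3 : 11 / 10 * (((fderiv ℝ r z v) ^ 2 + (fderiv ℝ r z (I • v)) ^ 2) / r z ^ 2)
          = 11 / 10 * (-(r z)⁻¹ * fderiv ℝ r z v) ^ 2
            + 11 / 10 * (-(r z)⁻¹ * fderiv ℝ r z (I • v)) ^ 2 := by
        have : r z ≠ 0 := hrz.ne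
        field_simp
      rw [k3]
      linarith
    have h7 : 11 * K ^ 2 * Nm (fun y : E => ‖y‖ ^ 2) z v ≤ 11 * K ^ 2 * (4 * ‖z‖ ^ 2 * ‖v‖ ^ 2) :=
      mul_le_mul_of_nonneg_left h5 (by positivity)
    linarith
  -- the main inequality
  have hmain : ∀ v, Lev r z v / (-(r z)) + Nm r z v / (12 * r z ^ 2) + 3 * K * ‖v‖ ^ 2
      ≤ Lev G z v - 5 / 6 * Nm G z v := by
    intro v
    rw [hLG]
    have h1 := hNG v
    have h2 : Nm r z v / (12 * r z ^ 2) = 1 / 12 * (Nm r z v / r z ^ 2) := by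
      have : r z ≠ 0 := hrz.ne
      field_simp
    have h3 : 5 / 6 * (44 * K ^ 2 * ‖z‖ ^ 2 * ‖v‖ ^ 2) ≤ K * ‖v‖ ^ 2 := by
      have : 5 / 6 * (44 * K ^ 2 * ‖z‖ ^ 2 * ‖v‖ ^ 2)
          = (110 / 3 * (K * ‖z‖ ^ 2)) * (K * ‖v‖ ^ 2) := by ring
      rw [this]
      exact mul_le_of_le_one_left (by positivity) hz2
    rw [h2]
    linarith
  have hnonneg : ∀ v, 0 ≤ Lev r z v / (-(r z)) + Nm r z v / (12 * r z ^ 2)
      + 3 * K * ‖v‖ ^ 2 := by
    intro v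
    have h1 := hC z hzρ v
    obtain ⟨R, hR⟩ : ∃ R, R = -(r z) := ⟨_, rfl⟩
    have hR0 : 0 < R := by rw [hR]; linarith
    obtain ⟨s, hs⟩ : ∃ s, s = Real.sqrt (Nm r z v) := ⟨_, rfl⟩
    have hs0 : 0 ≤ s := by rw [hs]; exact Real.sqrt_nonneg _
    have hs2 : Nm r z v = s ^ 2 := by rw [hs, Real.sq_sqrt (Nm_nonneg _ _ _)]
    have habs : |r z| = R := by rw [hR, abs_of_neg hrz]
    have hw : 0 ≤ ‖v‖ := norm_nonneg v
    rw [habs, ← hs] at h1
    have h2 : -(C1 * (R * ‖v‖ ^ 2 + s * ‖v‖)) ≤ Lev r z v := by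
      refine le_trans ?_ h1
      have : C ≤ C1 := by rw [hC1]; exact le_abs_self C
      have h3 : 0 ≤ R * ‖v‖ ^ 2 + s * ‖v‖ := by positivity
      exact neg_le_neg (mul_le_mul_of_nonneg_right this h3)
    have h4 : -(C1 * (‖v‖ ^ 2 + s / R * ‖v‖)) ≤ Lev r z v / (-(r z)) := by
      rw [← hR, le_div_iff₀ hR0]
      have : -(C1 * (‖v‖ ^ 2 + s / R * ‖v‖)) * R = -(C1 * (R * ‖v‖ ^ 2 + s * ‖v‖)) := by
        field_simp
      rw [this]; exact h2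
    have h5 : Nm r z v / (12 * r z ^ 2) = 1 / 12 * (s / R) ^ 2 := by
      have : r z ^ 2 = R ^ 2 := by rw [hR]; ring
      rw [hs2, this]
      field_simp
    rw [h5]
    have h6 : C1 * (s / R * ‖v‖) ≤ 1 / 12 * (s / R) ^ 2 + 3 * C1 ^ 2 * ‖v‖ ^ 2 := by
      have h6' : 1 / 12 * (s / R) ^ 2 + 3 * C1 ^ 2 * ‖v‖ ^ 2 - C1 * (s / R * ‖v‖)
          = 1 / 12 * (s / R - 6 * C1 * ‖v‖) ^ 2 := by ring
      have h6'' : 0 ≤ 1 / 12 * (s / R - 6 * C1 * ‖v‖) ^ 2 := by positivity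
      linarith
    have h7 : (C1 + 3 * C1 ^ 2) * ‖v‖ ^ 2 ≤ 3 * K * ‖v‖ ^ 2 := by
      refine mul_le_mul_of_nonneg_right ?_ (by positivity)
      rw [hK]; linarith
    have h8 : C1 * (‖v‖ ^ 2 + s / R * ‖v‖) = C1 * ‖v‖ ^ 2 + C1 * (s / R * ‖v‖) := by ring
    have h9 : (C1 + 3 * C1 ^ 2) * ‖v‖ ^ 2 = C1 * ‖v‖ ^ 2 + 3 * C1 ^ 2 * ‖v‖ ^ 2 := by ring
    rw [h8] at h4
    rw [h9] at h7
    linarith
  have hexp : Real.exp (-K) * (-(r z)) ^ (5 / 6 : ℝ) ≤ Real.exp (-(5 / 6) * G z) := by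
    have h1 : Real.exp (-(5 / 6) * G z)
        = (-(r z)) ^ (5 / 6 : ℝ) * Real.exp (-(5 / 6 * (K * ‖z‖ ^ 2))) := by
      rw [Real.rpow_def_of_pos (by linarith), ← Real.exp_add]
      congr 1
      simp only [hG]
      rw [Real.log_neg_eq_log]
      ring
    rw [h1, mul_comm]
    refine mul_le_mul_of_nonneg_left ?_ (Real.rpow_nonneg (by linarith) _)
    rw [Real.exp_le_exp]
    have h5 := mul_le_mul_of_nonneg_left hz1 hK0.le
    have h6 := mul_nonneg hK0.le (sq_nonneg ‖z‖)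
    linarith
  refine ⟨?_, ?_, ?_⟩
  · exact (hφ.contDiffAt.comp z hG2).congr_of_eventuallyEq hdf
  · intro v
    rw [hLev]
    exact mul_nonneg (by positivity) ((hnonneg v).trans (hmain v))
  · intro v
    rw [hLev]
    have h0 := hnonneg v
    have h1 := hmain v
    set X := Lev r z v / (-(r z)) + Nm r z v / (12 * r z ^ 2) with hX
    have hp : 0 ≤ (-(r z)) ^ (5 / 6 : ℝ) := Real.rpow_nonneg (by linarith) _
    rcases le_or_gt 0 X with hX0 | hX0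
    · calc 5 / 6 * Real.exp (-K) * (-(r z)) ^ (5 / 6 : ℝ) * X
          = 5 / 6 * (Real.exp (-K) * (-(r z)) ^ (5 / 6 : ℝ)) * X := by ring
        _ ≤ 5 / 6 * Real.exp (-(5 / 6) * G z) * X := by gcongr
        _ ≤ 5 / 6 * Real.exp (-(5 / 6) * G z) * (Lev G z v - 5 / 6 * Nm G z v) := by
            gcongr
            have : 0 ≤ 3 * K * ‖v‖ ^ 2 := by positivity
            linarith
    · have h2 : 5 / 6 * Real.exp (-K) * (-(r z)) ^ (5 / 6 : ℝ) * X ≤ 0 :=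
        mul_nonpos_of_nonneg_of_nonpos (by positivity) hX0.le
      have h3 : 0 ≤ 5 / 6 * Real.exp (-(5 / 6) * G z) * (Lev G z v - 5 / 6 * Nm G z v) :=
        mul_nonneg (by positivity) (h0.trans h1)
      linarith

end df

end Pool.Agent.Sqz
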