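import Pool.Agent.Work.MP_0e9e72_an.C1
import Pool.Agent.Work.MP_0e9e72_an.C2
import Pool.Agent.Work.MP_0e9e72_an.C3

/-! Block C of MP_0e9e72_an: see C1 (calculus), C2 (iC2), C3 (iC3). -/
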