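import Pool.Agent.Work.MP_0e9e72_an.Defs

/-!
# MP_0e9e72_an, block C: Levi form calculus and the Diederich-Fornaess function
-/

set_option autoImplicit false

open Complex Metric Set Filter Topology
open scoped ContDiff

namespace Pool.Agent.Sqz

section general
variable {E : Type*} [NormedAddCommGroup E] [NormedSpace ℂ E]

namespace LeviC

/-- derivative of a real function composed with a holomorphic map -/
theorem fderiv_comp_hol {E' : Type*} [NormedAddCommGroup E'] [NormedSpace ℂ E'] {r : E → ℝ}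
    {g : E' → E} {z : E'} (hr : DifferentiableAt ℝ r (g z)) (hg : DifferentiableAt ℂ g z) :
    fderiv ℝ (fun y => r (g y)) z
      = (fderiv ℝ r (g z)).comp ((fderiv ℂ g z).restrictScalars ℝ) := by
  have h1 : HasFDerivAt g ((fderiv ℂ g z).restrictScalars ℝ) z :=
    hg.hasFDerivAt.restrictScalars ℝ
  exact (hr.hasFDerivAt.comp z h1).fderiv

end LeviC

open LeviC in
theorem iC1' {E' : Type*} [NormedAddCommGroup E'] [NormedSpace ℂ E'] {r : E → ℝ} {g : E' → E}
    {z v : E'} (hr : DifferentiableAt ℝ r (g z)) (hg : DifferentiableAt ℂ g z) :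
    Nm (fun y => r (g y)) z v = Nm r (g z) (fderiv ℂ g z v) := by
  unfold Nm
  rw [fderiv_comp_hol hr hg]
  simp

open LeviC in
theorem iC1 {E' : Type*} [NormedAddCommGroup E'] [NormedSpace ℂ E'] {r : E → ℝ} {g : E' → E}
    {z v : E'} (hr : ContDiffAt ℝ 2 r (g z)) (hg : ContDiffAt ℂ 2 g z) :
    Lev (fun y => r (g y)) z v = Lev r (g z) (fderiv ℂ g z v) := by
  have hrd : ∀ᶠ y in 𝓝 (g z), DifferentiableAt ℝ r y :=
    (hr.eventually (by simp)).mono fun y hy => hy.differentiableAt (by simp)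
  have hgd : ∀ᶠ y in 𝓝 z, DifferentiableAt ℂ g y :=
    (hg.eventually (by simp)).mono fun y hy => hy.differentiableAt (by simp)
  have hgc : ContinuousAt g z := hg.continuousAt
  have hev : fderiv ℝ (fun y => r (g y)) =ᶠ[𝓝 z]
      fun y => (fderiv ℝ r (g y)).comp ((fderiv ℂ g y).restrictScalars ℝ) := by
    filter_upwards [hgc.eventually hrd, hgd] with y h1 h2 using fderiv_comp_hol h1 h2
  -- derivatives of the two factors
  have hr2 : HasFDerivAt (fderiv ℝ r) (fderiv ℝ (fderiv ℝ r) (g z)) (g z) :=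
    ((hr.fderiv_right (m := 1) (by norm_num)).differentiableAt one_ne_zero).hasFDerivAt
  have hg1 : HasFDerivAt g ((fderiv ℂ g z).restrictScalars ℝ) z :=
    (hg.differentiableAt (by simp)).hasFDerivAt.restrictScalars ℝ
  have hg2 : HasFDerivAt (fderiv ℂ g) (fderiv ℂ (fderiv ℂ g) z) z :=
    ((hg.fderiv_right (m := 1) (by norm_num)).differentiableAt one_ne_zero).hasFDerivAt
  have hc : HasFDerivAt (fun y => fderiv ℝ r (g y))
      ((fderiv ℝ (fderiv ℝ r) (g z)).comp ((fderiv ℂ g z).restrictScalars ℝ)) z :=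
    hr2.comp z hg1
  have hd : HasFDerivAt (fun y => (fderiv ℂ g y).restrictScalars ℝ)
      ((ContinuousLinearMap.restrictScalarsL ℂ E' E ℝ ℝ).comp
        ((fderiv ℂ (fderiv ℂ g) z).restrictScalars ℝ)) z :=
    ((ContinuousLinearMap.restrictScalarsL ℂ E' E ℝ ℝ).hasFDerivAt).comp z
      (hg2.restrictScalars ℝ)
  have hcd := HasFDerivAt.clm_comp hc hd
  have key : ∀ u w : E', fderiv ℝ (fderiv ℝ (fun y => r (g y))) z u w
      = fderiv ℝ (fderiv ℝ r) (g z) (fderiv ℂ g z u) (fderiv ℂ g z w)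
        + fderiv ℝ r (g z) (fderiv ℂ (fderiv ℂ g) z u w) := by
    intro u w
    rw [hev.fderiv_eq, hcd.fderiv]
    simp [add_comm]
  unfold Lev
  rw [key, key]
  have h1 : fderiv ℂ (fderiv ℂ g) z (I • v) (I • v) = -(fderiv ℂ (fderiv ℂ g) z v v) := by
    simp [smul_smul]
  rw [h1, map_neg, map_smul]
  ring

namespace LeviC

theorem fderiv_comp_real {r : E → ℝ} {φ : ℝ → ℝ} {z : E} (hr : DifferentiableAt ℝ r z)
    (hφ : DifferentiableAt ℝ φ (r z)) :
    fderiv ℝ (fun y => φ (r y)) z = deriv φ (r z) • fderiv ℝ r z :=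
  (hφ.hasDerivAt.comp_hasFDerivAt z hr.hasFDerivAt).fderiv

/-- gradient norm of `φ ∘ r` -/
theorem Nm_comp_real {r : E → ℝ} {φ : ℝ → ℝ} {z v : E} (hr : DifferentiableAt ℝ r z)
    (hφ : DifferentiableAt ℝ φ (r z)) :
    Nm (fun y => φ (r y)) z v = (deriv φ (r z)) ^ 2 * Nm r z v := by
  unfold Nm
  rw [fderiv_comp_real hr hφ]
  simp only [smul_apply, smul_eq_mul]
  ring

/-- Levi form of `φ ∘ r` -/
theorem Lev_comp_real {r : E → ℝ} {φ : ℝ → ℝ} {z v : E} (hr : ContDiffAt ℝ 2 r z)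
    (hφ : ContDiffAt ℝ 2 φ (r z)) :
    Lev (fun y => φ (r y)) z v
      = deriv φ (r z) * Lev r z v + deriv (deriv φ) (r z) * Nm r z v := by
  have hrd : ∀ᶠ y in 𝓝 z, DifferentiableAt ℝ r y :=
    (hr.eventually (by simp)).mono fun y hy => hy.differentiableAt (by simp)
  have hφd : ∀ᶠ y in 𝓝 (r z), DifferentiableAt ℝ φ y :=
    (hφ.eventually (by simp)).mono fun y hy => hy.differentiableAt (by simp)
  have hev : fderiv ℝ (fun y => φ (r y)) =ᶠ[𝓝 z]
      fun y => deriv φ (r y) • fderiv ℝ r y := by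
    filter_upwards [hrd, hr.continuousAt.eventually hφd] with y h1 h2 using fderiv_comp_real h1 h2
  have hr2 : HasFDerivAt (fderiv ℝ r) (fderiv ℝ (fderiv ℝ r) z) z :=
    ((hr.fderiv_right (m := 1) (by norm_num)).differentiableAt one_ne_zero).hasFDerivAt
  have hφ2 : HasDerivAt (deriv φ) (deriv (deriv φ) (r z)) (r z) := by
    have h1 : ContDiffAt ℝ 1 (deriv φ) (r z) := by
      have := hφ.fderiv_right (m := 1) (by norm_num)
      exact this.clm_apply contDiffAt_const
    exact (h1.differentiableAt one_ne_zero).hasDerivAt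
  have hc : HasFDerivAt (fun y => deriv φ (r y)) (deriv (deriv φ) (r z) • fderiv ℝ r z) z :=
    hφ2.comp_hasFDerivAt z (hr.differentiableAt (by simp)).hasFDerivAt
  have hcd : HasFDerivAt (fun y => deriv φ (r y) • fderiv ℝ r y)
      (deriv φ (r z) • fderiv ℝ (fderiv ℝ r) z +
        (deriv (deriv φ) (r z) • fderiv ℝ r z).smulRight (fderiv ℝ r z)) z := hc.smul hr2
  have key : ∀ u w : E, fderiv ℝ (fderiv ℝ (fun y => φ (r y))) z u w
      = deriv φ (r z) * fderiv ℝ (fderiv ℝ r) z u w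
        + deriv (deriv φ) (r z) * (fderiv ℝ r z u * fderiv ℝ r z w) := by
    intro u w
    rw [hev.fderiv_eq, hcd.fderiv]
    simp [mul_assoc]
  unfold Lev Nm
  rw [key, key]
  ring

theorem Lev_add {f g : E → ℝ} {z v : E} (hf : ContDiffAt ℝ 2 f z) (hg : ContDiffAt ℝ 2 g z) :
    Lev (fun y => f y + g y) z v = Lev f z v + Lev g z v := by
  have hfd : ∀ᶠ y in 𝓝 z, DifferentiableAt ℝ f y :=
    (hf.eventually (by simp)).mono fun y hy => hy.differentiableAt (by simp)
  have hgd : ∀ᶠ y in 𝓝 z, DifferentiableAt ℝ g y :=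
    (hg.eventually (by simp)).mono fun y hy => hy.differentiableAt (by simp)
  have hev : fderiv ℝ (fun y => f y + g y) =ᶠ[𝓝 z] fun y => fderiv ℝ f y + fderiv ℝ g y := by
    filter_upwards [hfd, hgd] with y h1 h2 using fderiv_fun_add h1 h2
  have hf2 : DifferentiableAt ℝ (fderiv ℝ f) z :=
    (hf.fderiv_right (m := 1) (by norm_num)).differentiableAt one_ne_zero
  have hg2 : DifferentiableAt ℝ (fderiv ℝ g) z :=
    (hg.fderiv_right (m := 1) (by norm_num)).differentiableAt one_ne_zero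
  unfold Lev
  rw [hev.fderiv_eq, fderiv_fun_add hf2 hg2]
  simp only [add_apply]
  ring

theorem Lev_const_mul {f : E → ℝ} {z v : E} (c : ℝ) (hf : ContDiffAt ℝ 2 f z) :
    Lev (fun y => c * f y) z v = c * Lev f z v := by
  have hfd : ∀ᶠ y in 𝓝 z, DifferentiableAt ℝ f y :=
    (hf.eventually (by simp)).mono fun y hy => hy.differentiableAt (by simp)
  have hev : fderiv ℝ (fun y => c * f y) =ᶠ[𝓝 z] fun y => c • fderiv ℝ f y := by
    filter_upwards [hfd] with y h1
    exact fderiv_const_mul h1 c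
  have hf2 : DifferentiableAt ℝ (fderiv ℝ f) z :=
    (hf.fderiv_right (m := 1) (by norm_num)).differentiableAt one_ne_zero
  unfold Lev
  rw [hev.fderiv_eq, fderiv_fun_const_smul hf2]
  simp only [smul_apply, smul_eq_mul]
  ring

theorem Lev_congr {f g : E → ℝ} {z : E} (h : f =ᶠ[𝓝 z] g) (v : E) : Lev f z v = Lev g z v := by
  unfold Lev
  rw [(h.fderiv).fderiv_eq]

theorem Nm_congr {f g : E → ℝ} {z : E} (h : f =ᶠ[𝓝 z] g) (v : E) : Nm f z v = Nm g z v := by
  unfold Nm
  rw [h.fderiv_eq]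

theorem Nm_nonneg (f : E → ℝ) (z v : E) : 0 ≤ Nm f z v := by
  unfold Nm; positivity

end LeviC

end general

section normsq
variable {E : Type*} [NormedAddCommGroup E] [InnerProductSpace ℂ E]

namespace LeviC

theorem hasFDerivAt_normsq (z : E) :
    HasFDerivAt (fun y : E => ‖y‖ ^ 2)
      ((2 : ℝ) • (Complex.reCLM ∘L ((innerSL ℂ z : E →L[ℂ] ℂ).restrictScalars ℝ))) z := by
  have h := (hasFDerivAt_id (𝕜 := ℝ) z).inner ℂ (hasFDerivAt_id z)
  have h2 := Complex.reCLM.hasFDerivAt.comp z h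
  refine (h2.congr_of_eventuallyEq ?_).congr_fderiv ?_
  · refine Eventually.of_forall fun y => ?_
    simp only [Function.comp_apply, Complex.reCLM_apply, id]
    exact (inner_self_eq_norm_sq (𝕜 := ℂ) y).symm
  · ext v
    have h3 : (inner ℂ v z).re = (inner ℂ z v).re := inner_re_symm (𝕜 := ℂ) v z
    simp [h3, two_mul]

theorem fderiv_normsq_apply (z v : E) :
    fderiv ℝ (fun y : E => ‖y‖ ^ 2) z v = 2 * (inner ℂ z v).re := by
  rw [(hasFDerivAt_normsq z).fderiv]; simp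

theorem Nm_normsq_le (z v : E) : Nm (fun y : E => ‖y‖ ^ 2) z v ≤ 4 * ‖z‖ ^ 2 * ‖v‖ ^ 2 := by
  unfold Nm
  rw [fderiv_normsq_apply, fderiv_normsq_apply, inner_smul_right]
  have h1 : (I * inner ℂ z v).re = -(inner ℂ z v).im := by simp
  rw [h1]
  have h2 : (2 * (inner ℂ z v).re) ^ 2 + (2 * -(inner ℂ z v).im) ^ 2 = 4 * ‖inner ℂ z v‖ ^ 2 := by
    rw [← Complex.normSq_eq_norm_sq, Complex.normSq_apply]; ring
  rw [h2]
  have h3 := norm_inner_le_norm (𝕜 := ℂ) z v
  have h4 : ‖inner ℂ z v‖ ^ 2 ≤ (‖z‖ * ‖v‖) ^ 2 := by gcongr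
  nlinarith [h4]

theorem Lev_normsq (z v : E) : Lev (fun y : E => ‖y‖ ^ 2) z v = 4 * ‖v‖ ^ 2 := by
  have h1 : ∀ u w : E, fderiv ℝ (fderiv ℝ (fun y : E => ‖y‖ ^ 2)) z u w = 2 * (inner ℂ u w).re := by
    intro u w
    have h2 : HasFDerivAt (fun y : E => fderiv ℝ (fun y : E => ‖y‖ ^ 2) y w)
        ((2 : ℝ) • (Complex.reCLM ∘L ((innerSL ℂ w : E →L[ℂ] ℂ).restrictScalars ℝ))) z := by
      have h3 : (fun y : E => fderiv ℝ (fun y : E => ‖y‖ ^ 2) y w)
          = fun y : E => ((2 : ℝ) • (Complex.reCLM ∘L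
            ((innerSL ℂ w : E →L[ℂ] ℂ).restrictScalars ℝ))) y := by
        funext y
        rw [fderiv_normsq_apply]
        have : (inner ℂ y w).re = (inner ℂ w y).re := inner_re_symm (𝕜 := ℂ) y w
        simp [this]
      rw [h3]
      exact ContinuousLinearMap.hasFDerivAt _
    have h4 : DifferentiableAt ℝ (fderiv ℝ (fun y : E => ‖y‖ ^ 2)) z :=
      ((contDiff_norm_sq ℂ (n := 2)).contDiffAt.fderiv_right (m := 1) (by norm_num)).differentiableAt
        one_ne_zero
    have h5 := (h4.hasFDerivAt.clm_apply (hasFDerivAt_const w z)).unique h2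
    have h6 := congrArg (fun L : E →L[ℝ] ℝ => L u) h5
    have : (inner ℂ u w).re = (inner ℂ w u).re := inner_re_symm (𝕜 := ℂ) u w
    simpa [this] using h6
  unfold Lev
  rw [h1, h1]
  have h2 : (inner ℂ (I • v) (I • v)).re = (inner ℂ v v).re := by
    rw [inner_smul_left, inner_smul_right]
    simp [← mul_assoc]
  have h3 : (inner ℂ v v).re = ‖v‖ ^ 2 := inner_self_eq_norm_sq (𝕜 := ℂ) v
  rw [h2, h3]; ring

end LeviC

end normsq

end Pool.Agent.Sqz
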