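import Mathlib

/-!
# MP_0e9e72_an (S03821): basic definitions

`Lev r z v` is (four times) the complex Hessian of the real function `r` at `z` in direction `v`,
`Nm r z v = 4 |∂r(z) v|²`, `dC f z v` is the complex-linear part of the real derivative of `f`.
-/

set_option autoImplicit false

open Complex Metric Set Filter Topology
open scoped ContDiff

namespace Pool.Agent.Sqz

section
variable {E : Type*} [NormedAddCommGroup E] [NormedSpace ℂ E]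
variable {F : Type*} [NormedAddCommGroup F] [NormedSpace ℂ F]

/-- Levi form (`4 ∂∂̄`). -/
noncomputable def Lev (r : E → ℝ) (z v : E) : ℝ :=
  fderiv ℝ (fderiv ℝ r) z v v + fderiv ℝ (fderiv ℝ r) z (I • v) (I • v)

/-- `4 |∂ r (v)|²`. -/
noncomputable def Nm (r : E → ℝ) (z v : E) : ℝ :=
  (fderiv ℝ r z v) ^ 2 + (fderiv ℝ r z (I • v)) ^ 2

/-- complex-linear part of the real derivative: `∂ f (z) v`. -/
noncomputable def dC (f : E → F) (z v : E) : F :=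
  (1 / 2 : ℂ) • (fderiv ℝ f z v - I • fderiv ℝ f z (I • v))

/-- Wirtinger derivative `∂/∂z`. -/
noncomputable def dz (f : ℂ → F) (ζ : ℂ) : F :=
  (1 / 2 : ℂ) • (fderiv ℝ f ζ 1 - I • fderiv ℝ f ζ I)

/-- Wirtinger derivative `∂/∂z̄`. -/
noncomputable def dzb (f : ℂ → F) (ζ : ℂ) : F :=
  (1 / 2 : ℂ) • (fderiv ℝ f ζ 1 + I • fderiv ℝ f ζ I)

end

/-- the Diederich-Fornaess function -/
noncomputable def dfun {E : Type*} [NormedAddCommGroup E] (r : E → ℝ) (K : ℝ) (z : E) : ℝ :=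
  -(-(r z) * Real.exp (-(K * ‖z‖ ^ 2))) ^ (5 / 6 : ℝ)


/-- Coordinates `z = p1 z • e1 + PW z + pw z • ew` on `E`. -/
structure Frame (E : Type*) [NormedAddCommGroup E] [NormedSpace ℂ E] where
  e1 : E
  ew : E
  p1 : E →L[ℂ] ℂ
  pw : E →L[ℂ] ℂ
  PW : E →L[ℂ] E
  decomp : ∀ z, z = p1 z • e1 + PW z + pw z • ew
  p1_e1 : p1 e1 = 1
  p1_ew : p1 ew = 0
  p1_PW : ∀ z, p1 (PW z) = 0
  pw_e1 : pw e1 = 0
  pw_ew : pw ew = 1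
  pw_PW : ∀ z, pw (PW z) = 0
  PW_e1 : PW e1 = 0
  PW_ew : PW ew = 0
  PW_PW : ∀ z, PW (PW z) = PW z

/-- Domain data in normal form at `0`. -/
structure NormalForm {E : Type*} [NormedAddCommGroup E] [InnerProductSpace ℂ E]
    (Φ : Frame E) (D : Set E) (r : E → ℝ) (U : Set E) (N : ℕ) : Prop where
  openD : IsOpen D
  bddD : Bornology.IsBounded D
  openU : IsOpen U
  zeroU : (0 : E) ∈ U
  smooth : ContDiff ℝ ((⊤ : ℕ∞) : WithTop ℕ∞) r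
  defn : D ∩ U = {z | z ∈ U ∧ r z < 0}
  r0 : r 0 = 0
  dr0 : ∀ z, fderiv ℝ r 0 z = (Φ.pw z).re
  psc : ∀ q ∈ U, r q = 0 → ∀ v, fderiv ℝ r q v = 0 → fderiv ℝ r q (I • v) = 0 → 0 ≤ Lev r q v
  levW : ∃ c > 0, ∀ x, c * ‖Φ.PW x‖ ^ 2 ≤ Lev r 0 (Φ.PW x)
  lev1 : Lev r 0 Φ.e1 = 0
  hN : 3 ≤ N
  pureA : ∀ k, 1 ≤ k → k ≤ N → dz^[k] (fun ζ : ℂ => (r (ζ • Φ.e1) : ℂ)) 0 = 0
  pureB : ∀ x, ∀ k, 1 ≤ k → k ≤ N →
    dz^[k] (fun ζ : ℂ => (fderiv ℝ r (ζ • Φ.e1) (Φ.PW x) : ℂ)) 0 = 0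
  mixed : ∃ j k, 1 ≤ j ∧ 1 ≤ k ∧ j + k ≤ N ∧
    dz^[j] (dzb^[k] (fun ζ : ℂ => (r (ζ • Φ.e1) : ℂ))) 0 ≠ 0
  nodisc : ∀ γ : ℂ → E, AnalyticAt ℂ γ 0 → γ 0 = 0 → (∀ᶠ ζ in 𝓝 (0 : ℂ), r (γ ζ) = 0) →
    ∀ᶠ ζ in 𝓝 (0 : ℂ), γ ζ = 0


/-- scaled coordinates at `b`: the affine scaling `(τ, √δ, δ)` followed by the shear `w`. -/
noncomputable def Theta {E : Type*} [NormedAddCommGroup E] [NormedSpace ℂ E] (Φ : Frame E) (b : E)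
    (τ δ : ℝ) (w : ℂ → ℂ) (z : E) : E :=
  b + ((τ : ℂ) * Φ.p1 z) • Φ.e1 + ((Real.sqrt δ : ℝ) : ℂ) • Φ.PW z
    + ((δ : ℂ) * Φ.pw z + w ((τ : ℂ) * Φ.p1 z)) • Φ.ew


end Pool.Agent.Sqz
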