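import Pool.Agent.Work.MP_0e9e72_an.Defs

/-! # Block E: definitions -/

set_option autoImplicit false

open Complex Metric Set Filter Topology
open scoped ContDiff

namespace Pool.Agent.Sqz

section
variable {E : Type*} [NormedAddCommGroup E] [NormedSpace ℂ E]

/-- the curve `ζ ↦ b + ζ e1 + w(ζ) ew` -/
noncomputable def Crv (Φ : Frame E) (b : E) (w : ℂ → ℂ) (ζ : ℂ) : E :=
  b + ζ • Φ.e1 + w ζ • Φ.ew

/-- polynomial shear with jet `om` at `0` -/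
noncomputable def shear (N : ℕ) (om : ℕ → ℂ) (ζ : ℂ) : ℂ :=
  ∑ k ∈ Finset.Icc 1 N, (ζ ^ k / (k.factorial : ℂ)) * om k

/-- `r` along the curve, as a complex-valued function -/
noncomputable def Af (Φ : Frame E) (r : E → ℝ) (b : E) (w : ℂ → ℂ) (ζ : ℂ) : ℂ :=
  (r (Crv Φ b w ζ) : ℂ)

/-- derivative of `r` along the curve in the directions `PW x` -/
noncomputable def Bf (Φ : Frame E) (r : E → ℝ) (b : E) (w : ℂ → ℂ) (ζ : ℂ) : E →L[ℝ] ℂ :=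
  Complex.ofRealCLM.comp ((fderiv ℝ r (Crv Φ b w ζ)).comp (Φ.PW.restrictScalars ℝ))

end

/-- `C²` continuous convergence of functions of one complex variable. -/
def ConvC2 {F : Type*} [NormedAddCommGroup F] [NormedSpace ℝ F] (f : ℕ → ℂ → F) (f' : ℂ → F) :
    Prop :=
  ∀ (φ : ℕ → ℕ) (ζ : ℕ → ℂ) (ζ' : ℂ), StrictMono φ → Tendsto ζ atTop (𝓝 ζ') →
    Tendsto (fun n => f (φ n) (ζ n)) atTop (𝓝 (f' ζ')) ∧
    Tendsto (fun n => fderiv ℝ (f (φ n)) (ζ n)) atTop (𝓝 (fderiv ℝ f' ζ')) ∧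
    Tendsto (fun n => fderiv ℝ (fderiv ℝ (f (φ n))) (ζ n)) atTop (𝓝 (fderiv ℝ (fderiv ℝ f') ζ'))

/-- E5: output of the choice of shear and scale: a `C²` limit along a subsequence. -/
structure ScLim {E : Type*} [NormedAddCommGroup E] [InnerProductSpace ℂ E] (Φ : Frame E)
    (r : E → ℝ) (b : ℕ → E) (τ : ℕ → ℝ) (w : ℕ → ℂ → ℂ) (h : ℂ → ℝ) (q : ℂ → E →L[ℝ] ℝ) : Prop where
  δpos : ∀ n, 0 < -(r (b n))
  b0 : Tendsto b atTop (𝓝 0)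
  τpos : ∀ n, 0 < τ n
  τ0 : Tendsto τ atTop (𝓝 0)
  wsm : ∀ n, ContDiff ℂ ∞ (w n)
  w0 : ∀ n, w n 0 = 0
  /-- the shears tend to `0` with their first derivative, uniformly on the unit disc -/
  wlim : ∀ ε : ℝ, 0 < ε → ∀ᶠ n in atTop, ∀ ζ, ‖ζ‖ ≤ 1 → ‖w n ζ‖ ≤ ε ∧ ‖deriv (w n) ζ‖ ≤ ε
  hsm : ContDiff ℝ ∞ h
  qsm : ContDiff ℝ ∞ q
  convA : ConvC2 (fun n ζ => r (Crv Φ (b n) (w n) ((τ n : ℂ) * ζ)) / (-(r (b n)))) (fun ζ => -1 + h ζ)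
  convB : ConvC2 (fun n ζ => (Real.sqrt (-(r (b n))))⁻¹ •
    ((fderiv ℝ r (Crv Φ (b n) (w n) ((τ n : ℂ) * ζ))).comp (Φ.PW.restrictScalars ℝ))) q
  /-- `h` has only mixed terms of total order `3 ≤ · ≤ N` -/
  hpoly : ∃ N : ℕ, ∀ i j, N < i + j → ∀ ζ, dz^[i] (dzb^[j] (fun ζ => (h ζ : ℂ))) ζ = 0
  hpure : ∀ i, dz^[i] (fun ζ => (h ζ : ℂ)) 0 = 0
  h11 : dz (dzb (fun ζ => (h ζ : ℂ))) 0 = 0
  qpoly : ∃ N : ℕ, ∀ i j, N < i + j → ∀ ζ,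
    dz^[i] (dzb^[j] (fun ζ => Complex.ofRealCLM.comp (q ζ))) ζ = 0
  qpure : ∀ i, 1 ≤ i → dz^[i] (fun ζ => Complex.ofRealCLM.comp (q ζ)) 0 = 0
  qPW : ∀ ζ x, q ζ (Φ.PW x) = q ζ x
  nz : (∃ ζ, h ζ ≠ 0) ∨ (∃ ζ, q ζ ≠ q 0)

end Pool.Agent.Sqz
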