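import Pool.Agent.Work.MP_0e9e72_an.ScaleB
import Pool.Agent.Work.MP_0e9e72_an.EDefs

/-!
# MP_0e9e72_an, block E5, part a: limits of scaled families of functions of one variable
-/

set_option autoImplicit false

open Complex Metric Set Filter Topology
open scoped ContDiff

namespace Pool.Agent.Sqz
namespace E5

section a
variable {V : Type*} [NormedAddCommGroup V] [NormedSpace ℝ V]
variable {F : Type*} [NormedAddCommGroup F] [NormedSpace ℝ F]

theorem null_seq {K : ℕ} {f : ℕ → V → F} (hf : Null K f) {φ : ℕ → ℕ} (hφ : StrictMono φ)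
    {z : ℕ → V} {z' : V} (hz : Tendsto z atTop (𝓝 z')) :
    Tendsto (fun n => f (φ n) (z n)) atTop (𝓝 0) := by
  rw [Metric.tendsto_nhds]
  intro ε hε
  have h1 : ∀ᶠ n in atTop, ‖z n‖ < ‖z'‖ + 1 := by
    have := hz.norm
    exact this.eventually_lt_const (by linarith)
  filter_upwards [hφ.tendsto_atTop.eventually
    (hf 0 (Nat.zero_le _) (‖z'‖ + 1) (ε / 2) (by positivity)), h1] with n hn hn1
  have := hn _ hn1.le
  rw [norm_iteratedFDeriv_zero] at this
  rw [dist_zero_right]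
  linarith

theorem convC2_of_null {f : ℕ → ℂ → F} {g : ℂ → F} (hf : ∀ n, ContDiff ℝ ∞ (f n))
    (hg : ContDiff ℝ ∞ g) (h : Null 2 (fun n z => f n z - g z)) : ConvC2 f g := by
  intro φ ζ ζ' hφ hζ
  have hg1 : ContDiff ℝ ∞ (fderiv ℝ g) := hg.fderiv_right (by simp)
  have hg2 : ContDiff ℝ ∞ (fderiv ℝ (fderiv ℝ g)) := hg1.fderiv_right (by simp)
  have hf1 : ∀ n, ContDiff ℝ ∞ (fderiv ℝ (f n)) := fun n => (hf n).fderiv_right (by simp)
  have hd1 : (fun n => fderiv ℝ (fun z => f n z - g z)) = fun n z => fderiv ℝ (f n) z - fderiv ℝ g z := by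
    funext n z
    exact fderiv_fun_sub ((hf n).differentiable (by simp) z) (hg.differentiable (by simp) z)
  have h1 : Null 1 (fun n z => fderiv ℝ (f n) z - fderiv ℝ g z) := by
    rw [← hd1]; exact Null.fderiv h
  have hd2 : (fun n => fderiv ℝ (fun z => fderiv ℝ (f n) z - fderiv ℝ g z)) =
      fun n z => fderiv ℝ (fderiv ℝ (f n)) z - fderiv ℝ (fderiv ℝ g) z := by
    funext n z
    exact fderiv_fun_sub ((hf1 n).differentiable (by simp) z) (hg1.differentiable (by simp) z)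
  have h2 : Null 0 (fun n z => fderiv ℝ (fderiv ℝ (f n)) z - fderiv ℝ (fderiv ℝ g) z) := by
    rw [← hd2]; exact Null.fderiv h1
  refine ⟨?_, ?_, ?_⟩
  · have := (null_seq h hφ hζ).add (hg.continuous.continuousAt.tendsto.comp hζ)
    simp only [Function.comp_apply, sub_add_cancel, zero_add] at this
    exact this
  · have := (null_seq h1 hφ hζ).add (hg1.continuous.continuousAt.tendsto.comp hζ)
    simp only [Function.comp_apply, sub_add_cancel, zero_add] at this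
    exact this
  · have := (null_seq h2 hφ hζ).add (hg2.continuous.continuousAt.tendsto.comp hζ)
    simp only [Function.comp_apply, sub_add_cancel, zero_add] at this
    exact this

/-- local bound of the derivatives of a jointly smooth family. -/
theorem iteratedFDeriv_param_bound {P : Type*} [NormedAddCommGroup P] [NormedSpace ℝ P]
    [ProperSpace V] [ProperSpace P] {H : V × P → F} (hH : ContDiff ℝ ∞ H) (k : ℕ) (R : ℝ) :
    ∃ M : ℝ, 0 ≤ M ∧ ∀ z q, ‖z‖ ≤ R → ‖q‖ ≤ 1 → ‖iteratedFDeriv ℝ k (fun z => H (z, q)) z‖ ≤ M := by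
  obtain ⟨M, hM⟩ := ((isCompact_closedBall (0 : V) R).prod
    (isCompact_closedBall (0 : P) 1)).exists_bound_of_continuousOn
    (hH.continuous_iteratedFDeriv (m := k) (nat_le_infty k)).continuousOn
  refine ⟨|M| * ‖ContinuousLinearMap.inl ℝ V P‖ ^ k, by positivity, fun z q hz hq => ?_⟩
  have h1 : (fun z => H (z, q)) = (fun y => H (y + (0, q))) ∘ (ContinuousLinearMap.inl ℝ V P) := by
    funext z; simp
  have h2 : ContDiff ℝ ∞ (fun y : V × P => H (y + (0, q))) :=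
    hH.comp (contDiff_id.add contDiff_const)
  rw [h1, (ContinuousLinearMap.inl ℝ V P).iteratedFDeriv_comp_right h2 z (nat_le_infty k),
    iteratedFDeriv_comp_add_right]
  refine (ContinuousMultilinearMap.norm_compContinuousLinearMap_le _ _).trans ?_
  simp only [Finset.prod_const, Finset.card_univ, Fintype.card_fin]
  gcongr
  have h3 := hM (z, q) ⟨by simpa using hz, by simpa using hq⟩
  have h4 : ContinuousLinearMap.inl ℝ V P z + (0, q) = (z, q) := by simp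
  rw [h4]
  exact h3.trans (le_abs_self M)

end a

section b
variable {F : Type} [NormedAddCommGroup F] [NormedSpace ℂ F] [FiniteDimensional ℝ F]

theorem dz_sub {f g : ℂ → F} (hf : Differentiable ℝ f) (hg : Differentiable ℝ g) :
    dz (fun ζ => f ζ - g ζ) = fun ζ => dz f ζ - dz g ζ := by
  funext ζ
  unfold dz
  rw [fderiv_fun_sub (hf ζ) (hg ζ), ← smul_sub]
  simp only [sub_apply, smul_sub]
  abel_nf

theorem dzb_sub {f g : ℂ → F} (hf : Differentiable ℝ f) (hg : Differentiable ℝ g) :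
    dzb (fun ζ => f ζ - g ζ) = fun ζ => dzb f ζ - dzb g ζ := by
  funext ζ
  unfold dzb
  rw [fderiv_fun_sub (hf ζ) (hg ζ), ← smul_sub]
  simp only [sub_apply, smul_sub, smul_add]
  abel_nf

theorem dz_iter_sub {f g : ℂ → F} (hf : ContDiff ℝ ∞ f) (hg : ContDiff ℝ ∞ g) (j : ℕ) :
    dz^[j] (fun ζ => f ζ - g ζ) = fun ζ => dz^[j] f ζ - dz^[j] g ζ := by
  induction j with
  | zero => rfl
  | succ j ih =>
    rw [Function.iterate_succ_apply', ih, Function.iterate_succ_apply',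
      Function.iterate_succ_apply',
      dz_sub ((contDiff_dz_iter hf j).differentiable (by simp))
        ((contDiff_dz_iter hg j).differentiable (by simp))]

theorem dzb_iter_sub {f g : ℂ → F} (hf : ContDiff ℝ ∞ f) (hg : ContDiff ℝ ∞ g) (j : ℕ) :
    dzb^[j] (fun ζ => f ζ - g ζ) = fun ζ => dzb^[j] f ζ - dzb^[j] g ζ := by
  induction j with
  | zero => rfl
  | succ j ih =>
    rw [Function.iterate_succ_apply', ih, Function.iterate_succ_apply',
      Function.iterate_succ_apply',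
      dzb_sub ((contDiff_dzb_iter hf j).differentiable (by simp))
        ((contDiff_dzb_iter hg j).differentiable (by simp))]

theorem wirt_sub {f g : ℂ → F} (hf : ContDiff ℝ ∞ f) (hg : ContDiff ℝ ∞ g) (j l : ℕ) (ζ : ℂ) :
    dz^[j] (dzb^[l] (fun ζ => f ζ - g ζ)) ζ =
      dz^[j] (dzb^[l] f) ζ - dz^[j] (dzb^[l] g) ζ := by
  rw [dzb_iter_sub hf hg, dz_iter_sub (contDiff_dzb_iter hf l) (contDiff_dzb_iter hg l)]

theorem norm_iteratedFDeriv_dz_le {f : ℂ → F} (hf : ContDiff ℝ ∞ f) (K : ℕ) (ζ : ℂ)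
    (h : iteratedFDeriv ℝ (K + 1) f ζ = 0) : iteratedFDeriv ℝ K (dz f) ζ = 0 := by
  set L : (ℂ →L[ℝ] F) →L[ℝ] F := (1 / 2 : ℂ) • (ContinuousLinearMap.apply ℝ F (1 : ℂ) -
    I • ContinuousLinearMap.apply ℝ F I) with hL
  have h1 : dz f = fun ζ => L (fderiv ℝ f ζ) := rfl
  have hf1 : ContDiff ℝ ∞ (fderiv ℝ f) := hf.fderiv_right (by simp)
  have h2 : iteratedFDeriv ℝ K (dz f) ζ =
      L.compContinuousMultilinearMap (iteratedFDeriv ℝ K (fderiv ℝ f) ζ) := by
    rw [h1]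
    exact L.iteratedFDeriv_comp_left hf1.contDiffAt (nat_le_infty K)
  have h3 : iteratedFDeriv ℝ K (fderiv ℝ f) ζ = 0 := by
    have := norm_iteratedFDeriv_fderiv (𝕜 := ℝ) (f := f) (x := ζ) (n := K)
    rw [h, norm_zero] at this
    exact norm_eq_zero.mp this
  rw [h2, h3]
  ext m
  simp

theorem norm_iteratedFDeriv_dzb_le {f : ℂ → F} (hf : ContDiff ℝ ∞ f) (K : ℕ) (ζ : ℂ)
    (h : iteratedFDeriv ℝ (K + 1) f ζ = 0) : iteratedFDeriv ℝ K (dzb f) ζ = 0 := by
  set L : (ℂ →L[ℝ] F) →L[ℝ] F := (1 / 2 : ℂ) • (ContinuousLinearMap.apply ℝ F (1 : ℂ) +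
    I • ContinuousLinearMap.apply ℝ F I) with hL
  have h1 : dzb f = fun ζ => L (fderiv ℝ f ζ) := rfl
  have hf1 : ContDiff ℝ ∞ (fderiv ℝ f) := hf.fderiv_right (by simp)
  have h2 : iteratedFDeriv ℝ K (dzb f) ζ =
      L.compContinuousMultilinearMap (iteratedFDeriv ℝ K (fderiv ℝ f) ζ) := by
    rw [h1]
    exact L.iteratedFDeriv_comp_left hf1.contDiffAt (nat_le_infty K)
  have h3 : iteratedFDeriv ℝ K (fderiv ℝ f) ζ = 0 := by
    have := norm_iteratedFDeriv_fderiv (𝕜 := ℝ) (f := f) (x := ζ) (n := K)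
    rw [h, norm_zero] at this
    exact norm_eq_zero.mp this
  rw [h2, h3]
  ext m
  simp

theorem iteratedFDeriv_zero_up {f : ℂ → F} (K : ℕ) (h : ∀ ζ, iteratedFDeriv ℝ K f ζ = 0) :
    ∀ ζ, iteratedFDeriv ℝ (K + 1) f ζ = 0 := by
  intro ζ
  have h2 : iteratedFDeriv ℝ K f = fun _ => 0 := funext h
  ext m
  rw [iteratedFDeriv_succ_apply_left, h2]
  simp

theorem wirt_zero_of_top {f : ℂ → F} {N : ℕ} (hf : ContDiff ℝ ∞ f)
    (h : ∀ ζ, iteratedFDeriv ℝ (N + 1) f ζ = 0) : ∀ i j, N < i + j → ∀ ζ,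
    dz^[i] (dzb^[j] f) ζ = 0 := by
  have hup : ∀ K, ∀ ζ, iteratedFDeriv ℝ (N + 1 + K) f ζ = 0 := by
    intro K
    induction K with
    | zero => exact h
    | succ K ih => exact iteratedFDeriv_zero_up _ ih
  have hall : ∀ K, N < K → ∀ ζ, iteratedFDeriv ℝ K f ζ = 0 := by
    intro K hK
    obtain ⟨m, rfl⟩ := Nat.exists_eq_add_of_lt hK
    have := hup m
    rwa [show N + 1 + m = N + m + 1 by ring] at this
  have hdzb : ∀ j, ∀ K, N < K + j → ∀ ζ, iteratedFDeriv ℝ K (dzb^[j] f) ζ = 0 := by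
    intro j
    induction j with
    | zero => intro K hK; exact hall K hK
    | succ j ih =>
      intro K hK ζ
      rw [Function.iterate_succ_apply']
      exact norm_iteratedFDeriv_dzb_le (contDiff_dzb_iter hf j) K ζ (ih (K + 1) (by omega) ζ)
  have hdz : ∀ i j, ∀ K, N < K + i + j → ∀ ζ, iteratedFDeriv ℝ K (dz^[i] (dzb^[j] f)) ζ = 0 := by
    intro i
    induction i with
    | zero => intro j K hK; exact hdzb j K (by omega)
    | succ i ih =>
      intro j K hK ζ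
      rw [Function.iterate_succ_apply']
      exact norm_iteratedFDeriv_dz_le (contDiff_dz_iter (contDiff_dzb_iter hf j) i) K ζ
        (ih j (K + 1) (by omega) ζ)
  intro i j hij ζ
  have h1 := hdz i j 0 (by omega) ζ
  have h2 : ‖dz^[i] (dzb^[j] f) ζ‖ = 0 := by
    rw [← norm_iteratedFDeriv_zero (𝕜 := ℝ), h1, norm_zero]
  exact norm_eq_zero.mp h2

/-- **limit of a scaled family.** -/
theorem limit_family {P : Type*} [NormedAddCommGroup P] [NormedSpace ℝ P] [ProperSpace P]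
    {H : ℂ × P → F} (hH : ContDiff ℝ ∞ H) (N : ℕ) (p : ℕ → P) (hp : Tendsto p atTop (𝓝 0))
    (τ s : ℕ → ℝ) (hτ : ∀ n, 0 < τ n) (hτ0 : Tendsto τ atTop (𝓝 0)) (hs : ∀ n, 0 < s n)
    (hhigh : Tendsto (fun n => s n * τ n ^ (N + 1)) atTop (𝓝 0))
    (hlow : ∃ C : ℝ, ∀ n, ∀ i j, i + j ≤ N →
      ‖dz^[i] (dzb^[j] (fun ζ => H (ζ, p n))) 0‖ * (s n * τ n ^ (i + j)) ≤ C) :
    ∃ (φ : ℕ → ℕ) (g : ℂ → F), StrictMono φ ∧ ContDiff ℝ ∞ g ∧
      Null (N + 1) (fun n ζ => (s (φ n) : ℂ) • H ((τ (φ n) : ℂ) * ζ, p (φ n)) - g ζ) ∧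
      (∀ ζ, iteratedFDeriv ℝ (N + 1) g ζ = 0) := by
  obtain ⟨C, hC⟩ := hlow
  have hHn : ∀ n, ContDiff ℝ ∞ (fun ζ => H (ζ, p n)) := fun n =>
    hH.comp (contDiff_id.prodMk contDiff_const)
  set f : ℕ → ℂ → F := fun n ζ => (s n : ℂ) • H ((τ n : ℂ) * ζ, p n) with hf
  have hfs : ∀ n, ContDiff ℝ ∞ (f n) := fun n => by
    have h1 : ContDiff ℝ ∞ (fun ζ : ℂ => (((τ n : ℂ) * ζ, p n) : ℂ × P)) := by fun_prop
    exact (hH.comp h1).const_smul (s n : ℂ)
  have htop : ∀ R ε : ℝ, 0 < ε → ∀ᶠ n in atTop, ∀ z, ‖z‖ ≤ R →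
      ‖iteratedFDeriv ℝ (N + 1) (f n) z‖ ≤ ε := by
    intro R ε hε
    obtain ⟨M, hM0, hM⟩ := iteratedFDeriv_param_bound hH (N + 1) R
    have h1 : ∀ᶠ n in atTop, s n * τ n ^ (N + 1) < ε / (M + 1) :=
      hhigh.eventually_lt_const (by positivity)
    have h2 : ∀ᶠ n in atTop, τ n < 1 := hτ0.eventually_lt_const one_pos
    have h3 : ∀ᶠ n in atTop, ‖p n‖ < 1 := by
      have := hp.norm
      rw [norm_zero] at this
      exact this.eventually_lt_const one_pos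
    filter_upwards [h1, h2, h3] with n hn1 hn2 hn3 z hz
    set L : ℂ →L[ℝ] ℂ := (τ n) • ContinuousLinearMap.id ℝ ℂ with hL
    have hfL : f n = (s n) • ((fun ζ => H (ζ, p n)) ∘ L) := by
      funext ζ
      simp only [hf, hL, Pi.smul_apply, Function.comp_apply]
      simp
    have hcomp : ContDiff ℝ ∞ ((fun ζ => H (ζ, p n)) ∘ L) := (hHn n).comp L.contDiff
    rw [hfL, iteratedFDeriv_const_smul_apply
      (hcomp.of_le (nat_le_infty _)).contDiffAt,
      L.iteratedFDeriv_comp_right (hHn n) z (nat_le_infty _), norm_smul]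
    have hLn : ‖L‖ ≤ τ n := by
      rw [hL, norm_smul, Real.norm_eq_abs, abs_of_pos (hτ n)]
      exact mul_le_of_le_one_right (hτ n).le ContinuousLinearMap.norm_id_le
    have h4 := ContinuousMultilinearMap.norm_compContinuousLinearMap_le
      (iteratedFDeriv ℝ (N + 1) (fun ζ => H (ζ, p n)) (L z)) (fun _ => L)
    simp only [Finset.prod_const, Finset.card_univ, Fintype.card_fin] at h4
    have h5 : ‖iteratedFDeriv ℝ (N + 1) (fun ζ => H (ζ, p n)) (L z)‖ ≤ M := by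
      refine hM _ _ ?_ hn3.le
      refine (L.le_opNorm z).trans ?_
      calc ‖L‖ * ‖z‖ ≤ 1 * ‖z‖ := by gcongr; linarith
        _ ≤ R := by linarith
    rw [Real.norm_eq_abs, abs_of_pos (hs n)]
    calc s n * ‖(iteratedFDeriv ℝ (N + 1) (fun ζ => H (ζ, p n)) (L z)).compContinuousLinearMap
          fun _ => L‖ ≤ s n * (M * τ n ^ (N + 1)) := by
          have := (hs n).le
          gcongr
          refine h4.trans ?_
          gcongr
      _ = (s n * τ n ^ (N + 1)) * M := by ring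
      _ ≤ (ε / (M + 1)) * (M + 1) := by
          gcongr
          linarith
      _ = ε := by field_simp
  have hb : ∀ k ≤ N, ∃ C : ℝ, ∀ n, ‖iteratedFDeriv ℝ k (f n) 0‖ ≤ C := by
    intro k hk
    refine ⟨2 ^ k * C, fun n => norm_iteratedFDeriv_le_of_dz k (f n) (hfs n) fun i j hij => ?_⟩
    have h1 := wirt_scale (hHn n) (τ n) (s n : ℂ) i j
    have h2 : (fun ζ => (s n : ℂ) • (fun ζ => H (ζ, p n)) ((τ n : ℂ) * ζ)) = f n := rfl
    rw [h2] at h1
    rw [h1, norm_smul]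
    have h3 : ‖((s n : ℂ) * (τ n : ℂ) ^ (i + j))‖ = s n * τ n ^ (i + j) := by
      rw [norm_mul, norm_pow, Complex.norm_real, Complex.norm_real, Real.norm_eq_abs,
        Real.norm_eq_abs, abs_of_pos (hs n), abs_of_pos (hτ n)]
    rw [h3, mul_comm]
    exact hC n i j (by omega)
  obtain ⟨φ, g, hφ, hg, hnull⟩ := compactness N F f hfs hb htop
  refine ⟨φ, g, hφ, hg, hnull, fun ζ => ?_⟩
  have h1 : ∀ ε : ℝ, 0 < ε → ‖iteratedFDeriv ℝ (N + 1) g ζ‖ ≤ ε := by
    intro ε hε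
    have h2 := hnull (N + 1) le_rfl ‖ζ‖ (ε / 2) (by positivity)
    have h3 := hφ.tendsto_atTop.eventually (htop ‖ζ‖ (ε / 2) (by positivity))
    obtain ⟨n, hn2, hn3⟩ := (h2.and h3).exists
    have h4 := hn2 ζ le_rfl
    have h5 := hn3 ζ le_rfl
    have h6 : iteratedFDeriv ℝ (N + 1) (fun z => f (φ n) z - g z) ζ =
        iteratedFDeriv ℝ (N + 1) (f (φ n)) ζ - iteratedFDeriv ℝ (N + 1) g ζ :=
      iteratedFDeriv_sub_apply ((hfs _).of_le (nat_le_infty _)).contDiffAt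
        (hg.of_le (nat_le_infty _)).contDiffAt
    rw [h6] at h4
    have h7 : ‖iteratedFDeriv ℝ (N + 1) g ζ‖ ≤
        ‖iteratedFDeriv ℝ (N + 1) (f (φ n)) ζ - iteratedFDeriv ℝ (N + 1) g ζ‖ +
        ‖iteratedFDeriv ℝ (N + 1) (f (φ n)) ζ‖ := by
      rw [norm_sub_rev]
      have := norm_add_le (iteratedFDeriv ℝ (N + 1) g ζ - iteratedFDeriv ℝ (N + 1) (f (φ n)) ζ)
        (iteratedFDeriv ℝ (N + 1) (f (φ n)) ζ)
      simpa using this
    linarith
  have h2 : ‖iteratedFDeriv ℝ (N + 1) g ζ‖ ≤ 0 := by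
    by_contra hcon
    push Not at hcon
    have := h1 (‖iteratedFDeriv ℝ (N + 1) g ζ‖ / 2) (by positivity)
    linarith
  exact norm_le_zero_iff.mp h2

/-- limits of the Wirtinger coefficients. -/
theorem tendsto_wirt {P : Type*} [NormedAddCommGroup P] [NormedSpace ℝ P]
    {H : ℂ × P → F} (hH : ContDiff ℝ ∞ H) {N : ℕ} {p : ℕ → P} {τ s : ℕ → ℝ} {φ : ℕ → ℕ} {g : ℂ → F}
    (hg : ContDiff ℝ ∞ g)
    (hnull : Null (N + 1) (fun n ζ => (s (φ n) : ℂ) • H ((τ (φ n) : ℂ) * ζ, p (φ n)) - g ζ))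
    {i j : ℕ} (hij : i + j ≤ N + 1) :
    Tendsto (fun n => ((s (φ n) * τ (φ n) ^ (i + j) : ℝ) : ℂ) •
      dz^[i] (dzb^[j] (fun ζ => H (ζ, p (φ n)))) 0) atTop (𝓝 (dz^[i] (dzb^[j] g) 0)) := by
  have hHn : ∀ n, ContDiff ℝ ∞ (fun ζ => H (ζ, p n)) := fun n =>
    hH.comp (contDiff_id.prodMk contDiff_const)
  have hfs : ∀ n, ContDiff ℝ ∞ (fun ζ => (s n : ℂ) • H ((τ n : ℂ) * ζ, p n)) := fun n => by
    have h1 : ContDiff ℝ ∞ (fun ζ : ℂ => (((τ n : ℂ) * ζ, p n) : ℂ × P)) := by fun_prop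
    exact (hH.comp h1).const_smul (s n : ℂ)
  have hn : Null (i + j) (fun n ζ => (s (φ n) : ℂ) • H ((τ (φ n) : ℂ) * ζ, p (φ n)) - g ζ) :=
    fun k hk => hnull k (by omega)
  have h1 := hn.wirt (fun n => (hfs (φ n)).sub hg)
  have h2 : ∀ n, dz^[i] (dzb^[j] (fun ζ => (s (φ n) : ℂ) • H ((τ (φ n) : ℂ) * ζ, p (φ n)) - g ζ)) 0 =
      ((s (φ n) * τ (φ n) ^ (i + j) : ℝ) : ℂ) • dz^[i] (dzb^[j] (fun ζ => H (ζ, p (φ n)))) 0 -
        dz^[i] (dzb^[j] g) 0 := by
    intro n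
    rw [wirt_sub (hfs (φ n)) hg]
    congr 1
    have h3 := wirt_scale (hHn (φ n)) (τ (φ n)) (s (φ n) : ℂ) i j
    rw [h3]
    congr 1
    push_cast
    ring
  simp only [h2] at h1
  have h3 := h1.add_const (dz^[i] (dzb^[j] g) 0)
  simpa using h3

end b

end E5
end Pool.Agent.Sqz
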