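import Pool.Agent.Work.MP_0e9e72_an.E5a
import Pool.Agent.Work.MP_0e9e72_an.C1

/-!
# MP_0e9e72_an, block E5, part b: preliminaries for the assembly
-/

set_option autoImplicit false

open Complex Metric Set Filter Topology
open scoped ContDiff

namespace Pool.Agent.Sqz
namespace E5

section gen
variable {F : Type} [NormedAddCommGroup F] [NormedSpace ℂ F] [FiniteDimensional ℝ F]
variable {Y : Type} [NormedAddCommGroup Y] [NormedSpace ℂ Y]

theorem dzb_clm (L : F →L[ℂ] Y) {f : ℂ → F} (hf : Differentiable ℝ f) :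
    dzb (fun ζ => L (f ζ)) = fun ζ => L (dzb f ζ) := by
  funext ζ
  have h2 : fderiv ℝ (fun y => L (f y)) ζ = (L.restrictScalars ℝ).comp (fderiv ℝ f ζ) :=
    ((L.restrictScalars ℝ).hasFDerivAt.comp ζ (hf ζ).hasFDerivAt).fderiv
  simp only [dzb, h2, ContinuousLinearMap.comp_apply, ContinuousLinearMap.coe_restrictScalars',
    map_smul, map_add]

theorem dzb_clm_iter (L : F →L[ℂ] Y) {f : ℂ → F} (hf : ContDiff ℝ ∞ f) (k : ℕ) :
    dzb^[k] (fun ζ => L (f ζ)) = fun ζ => L (dzb^[k] f ζ) := by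
  induction k with
  | zero => rfl
  | succ k ih =>
    rw [Function.iterate_succ_apply', ih, Function.iterate_succ_apply',
      dzb_clm L ((contDiff_dzb_iter hf k).differentiable (by simp))]

theorem wirt_clm (L : F →L[ℂ] Y) {f : ℂ → F} (hf : ContDiff ℝ ∞ f) (i j : ℕ) (ζ : ℂ) :
    dz^[i] (dzb^[j] (fun ζ => L (f ζ))) ζ = L (dz^[i] (dzb^[j] f) ζ) := by
  rw [dzb_clm_iter L hf, dz_clm_iter L (contDiff_dzb_iter hf j)]

theorem wirt_const (c : F) : ∀ i j : ℕ, 1 ≤ i + j → ∀ ζ : ℂ,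
    dz^[i] (dzb^[j] (fun _ : ℂ => c)) ζ = 0 := by
  have hz : ∀ c : F, dz (fun _ : ℂ => c) = fun _ => 0 := by
    intro c; funext ζ; simp [dz]
  have hzb : ∀ c : F, dzb (fun _ : ℂ => c) = fun _ => 0 := by
    intro c; funext ζ; simp [dzb]
  have hz0 : ∀ k, dz^[k] (fun _ : ℂ => (0 : F)) = fun _ => 0 := by
    intro k
    induction k with
    | zero => rfl
    | succ k ih => rw [Function.iterate_succ_apply', ih, hz]
  have hzb0 : ∀ k, dzb^[k] (fun _ : ℂ => (0 : F)) = fun _ => 0 := by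
    intro k
    induction k with
    | zero => rfl
    | succ k ih => rw [Function.iterate_succ_apply', ih, hzb]
  intro i j hij ζ
  rcases Nat.eq_zero_or_pos j with rfl | hj
  · obtain ⟨k, rfl⟩ := Nat.exists_eq_add_of_le' (show 1 ≤ i by omega)
    simp only [Function.iterate_zero, id_eq]
    rw [Function.iterate_succ_apply, hz, hz0]
  · obtain ⟨k, rfl⟩ := Nat.exists_eq_add_of_le' hj
    rw [Function.iterate_succ_apply, hzb, hzb0, hz0]

/-- adding a constant does not change the Wirtinger derivatives of positive order. -/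
theorem wirt_add_const {f : ℂ → F} (hf : ContDiff ℝ ∞ f) (c : F) {i j : ℕ} (hij : 1 ≤ i + j)
    (ζ : ℂ) : dz^[i] (dzb^[j] (fun ζ => f ζ + c)) ζ = dz^[i] (dzb^[j] f) ζ := by
  have h1 : (fun ζ => f ζ + c) = fun ζ => f ζ - (fun _ : ℂ => -c) ζ := by
    funext ζ; simp
  rw [h1, wirt_sub hf contDiff_const, wirt_const _ _ _ hij, sub_zero]

/-- a smooth function vanishing at `0` is `O(‖b‖)` on the unit ball. -/
theorem smooth_vanish_bound {V G : Type*} [NormedAddCommGroup V] [NormedSpace ℝ V] [ProperSpace V]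
    [NormedAddCommGroup G] [NormedSpace ℝ G] {g : V → G} (hg : ContDiff ℝ ∞ g) (h0 : g 0 = 0) :
    ∃ L : ℝ, 0 ≤ L ∧ ∀ b, ‖b‖ ≤ 1 → ‖g b‖ ≤ L * ‖b‖ := by
  have hg1 : ContDiff ℝ ∞ (fderiv ℝ g) := hg.fderiv_right (by simp)
  obtain ⟨M, hM⟩ := (isCompact_closedBall (0 : V) 1).exists_bound_of_continuousOn
    hg1.continuous.continuousOn
  have hM0 : 0 ≤ M := (norm_nonneg _).trans (hM 0 (mem_closedBall_self zero_le_one))
  refine ⟨M, hM0, fun b hb => ?_⟩
  have h3 := (convex_closedBall (0 : V) 1).norm_image_sub_le_of_norm_fderiv_le (𝕜 := ℝ)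
    (f := g) (C := M) (fun x _ => hg.differentiable (by simp) x) hM
    (mem_closedBall_self zero_le_one) (by simpa using hb : b ∈ closedBall (0 : V) 1)
  rw [h0, sub_zero, sub_zero] at h3
  exact h3

end gen

section ev
variable {E : Type} [NormedAddCommGroup E] [InnerProductSpace ℂ E] [FiniteDimensional ℂ E]

/-- evaluation at `x`. -/
noncomputable def evL (x : E) : (E →L[ℝ] ℂ) →L[ℂ] ℂ :=
  LinearMap.mkContinuous
    { toFun := fun f => f x
      map_add' := fun f g => rfl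
      map_smul' := fun c f => rfl } ‖x‖ (fun f => by
        have := f.le_opNorm x
        rw [mul_comm] at this
        exact this)

@[simp] theorem evL_apply (x : E) (f : E →L[ℝ] ℂ) : evL x f = f x := rfl

variable {Φ : Frame E} {D : Set E} {r : E → ℝ} {U : Set E} {N : ℕ}

theorem shear_zero (om : ℕ → ℂ) : shear N om 0 = 0 := by
  unfold shear
  refine Finset.sum_eq_zero fun k hk => ?_
  rw [Finset.mem_Icc] at hk
  rw [zero_pow (by omega), zero_div, zero_mul]

theorem shear_zero' {om : ℕ → ℂ} (h : ∀ k, om k = 0) (ζ : ℂ) : shear N om ζ = 0 := by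
  unfold shear
  refine Finset.sum_eq_zero fun k _ => ?_
  rw [h, mul_zero]

theorem contDiff_shear (om : ℕ → ℂ) : ContDiff ℂ ∞ (shear N om) := by
  unfold shear
  refine ContDiff.sum fun k _ => ?_
  exact ((contDiff_id.pow k).div_const _).mul contDiff_const

theorem contDiff_shear_joint {om : E → ℕ → ℂ} (hom : ∀ k, ContDiff ℝ ∞ (fun b => om b k)) :
    ContDiff ℝ ∞ (fun p : ℂ × E => shear N (om p.2) p.1) := by
  unfold shear
  refine ContDiff.sum fun k _ => ?_
  refine (((contDiff_fst.pow k).div_const _)).mul ((hom k).comp contDiff_snd)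

theorem crv_zero (b : E) {w : ℂ → ℂ} (hw : w 0 = 0) : Crv Φ b w 0 = b := by
  simp [Crv, hw]

theorem hasDerivAt_crv (b : E) {w : ℂ → ℂ} (hw : ContDiff ℂ ∞ w) (ζ : ℂ) :
    HasDerivAt (Crv Φ b w) (Φ.e1 + deriv w ζ • Φ.ew) ζ := by
  unfold Crv
  have h1 : HasDerivAt (fun ζ : ℂ => b + ζ • Φ.e1) Φ.e1 ζ := by
    simpa using ((hasDerivAt_id ζ).smul_const Φ.e1).const_add b
  exact h1.add ((hw.differentiable (by simp) ζ).hasDerivAt.smul_const Φ.ew)

theorem contDiff_crv (b : E) {w : ℂ → ℂ} (hw : ContDiff ℂ ∞ w) : ContDiff ℂ ∞ (Crv Φ b w) := by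
  unfold Crv
  exact (contDiff_const.add (contDiff_id.smul contDiff_const)).add (hw.smul contDiff_const)

/-- the `∂∂̄` coefficient of `r` along the curve is a quarter of the Levi form. -/
theorem lev_crv (hr : ContDiff ℝ ∞ r) (b : E) {w : ℂ → ℂ} (hw : ContDiff ℂ ∞ w) (hw0 : w 0 = 0) :
    4 * dz (dzb (Af Φ r b w)) 0 = ((Lev r b (Φ.e1 + deriv w 0 • Φ.ew) : ℝ) : ℂ) := by
  have hc : ContDiff ℂ ∞ (Crv Φ b w) := contDiff_crv b hw
  have hcr : ContDiff ℝ ∞ (Crv Φ b w) := hc.restrict_scalars ℝ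
  have h1 : ContDiff ℝ ∞ (fun ζ => r (Crv Φ b w ζ)) := hr.comp hcr
  have h2 := lev_one_eq h1 0
  have h3 : Lev (fun ζ => r (Crv Φ b w ζ)) 0 1 =
      Lev r (Crv Φ b w 0) (fderiv ℂ (Crv Φ b w) 0 1) :=
    iC1 ((hr.of_le (nat_le_infty 2)).contDiffAt)
      ((hc.of_le (nat_le_infty 2)).contDiffAt)
  have h4 : fderiv ℂ (Crv Φ b w) 0 1 = Φ.e1 + deriv w 0 • Φ.ew := by
    rw [(hasDerivAt_crv b hw 0).hasFDerivAt.fderiv]
    simp
  rw [h4, crv_zero b hw0] at h3
  rw [h3] at h2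
  exact h2.symm

/-- the pure coefficient of order one. -/
theorem dz_crv (hr : ContDiff ℝ ∞ r) (b : E) {w : ℂ → ℂ} (hw : ContDiff ℂ ∞ w) (hw0 : w 0 = 0) :
    dz (Af Φ r b w) 0 = dC (fun z => (r z : ℂ)) b Φ.e1 +
      deriv w 0 • dC (fun z => (r z : ℂ)) b Φ.ew := by
  have hrc : ContDiff ℝ ∞ (fun z => (r z : ℂ)) := ofRealCLM.contDiff.comp hr
  have h1 : dz (Af Φ r b w) 0 = dC (fun z => (r z : ℂ)) (Crv Φ b w 0) (Φ.e1 + deriv w 0 • Φ.ew) := by
    have h2 := hasDerivAt_crv (Φ := Φ) b hw 0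
    have h3 := dz_comp (g := fun z => (r z : ℂ)) (U := Crv Φ b w) (ζ := 0)
      (hrc.differentiable (by simp) _) h2.differentiableAt
    rw [h2.deriv] at h3
    exact h3
  rw [h1, crv_zero b hw0, dC_add_right, dC_smul_right]

end ev

end E5
end Pool.Agent.Sqz
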