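import Pool.Agent.Work.MP_0e9e72_an.Defs

/-!
# The scaled coordinates `Theta` and their inverse
-/

set_option autoImplicit false
set_option linter.unusedSectionVars false

open Complex Metric Set Filter Topology
open scoped ContDiff

namespace Pool.Agent.Sqz

section
variable {E : Type*} [NormedAddCommGroup E] [NormedSpace ℂ E]

/-- inverse of `Theta` -/
noncomputable def ThetaInv (Φ : Frame E) (b : E) (τ δ : ℝ) (w : ℂ → ℂ) (z : E) : E :=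
  (((τ : ℂ)⁻¹) * Φ.p1 (z - b)) • Φ.e1 + (((Real.sqrt δ : ℝ) : ℂ)⁻¹) • Φ.PW (z - b)
    + (((δ : ℂ)⁻¹) * (Φ.pw (z - b) - w (Φ.p1 (z - b)))) • Φ.ew

variable {Φ : Frame E} {b : E} {τ δ : ℝ} {w : ℂ → ℂ}

theorem contDiff_Theta (hw : ContDiff ℂ ∞ w) : ContDiff ℂ ∞ (Theta Φ b τ δ w) := by
  unfold Theta
  have h1 : ContDiff ℂ ∞ (fun z : E => (τ : ℂ) * Φ.p1 z) :=
    contDiff_const.mul Φ.p1.contDiff
  have h2 : ContDiff ℂ ∞ (fun z : E => w ((τ : ℂ) * Φ.p1 z)) := hw.comp h1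
  refine ((contDiff_const.add (h1.smul contDiff_const)).add
    (contDiff_const.smul Φ.PW.contDiff)).add ?_
  exact ((contDiff_const.mul Φ.pw.contDiff).add h2).smul contDiff_const

theorem contDiff_ThetaInv (hw : ContDiff ℂ ∞ w) : ContDiff ℂ ∞ (ThetaInv Φ b τ δ w) := by
  unfold ThetaInv
  have h0 : ContDiff ℂ ∞ (fun z : E => z - b) := contDiff_id.sub contDiff_const
  have h1 : ContDiff ℂ ∞ (fun z : E => Φ.p1 (z - b)) := Φ.p1.contDiff.comp h0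
  have h2 : ContDiff ℂ ∞ (fun z : E => Φ.pw (z - b)) := Φ.pw.contDiff.comp h0
  have h3 : ContDiff ℂ ∞ (fun z : E => Φ.PW (z - b)) := Φ.PW.contDiff.comp h0
  have h4 : ContDiff ℂ ∞ (fun z : E => w (Φ.p1 (z - b))) := hw.comp h1
  exact (((contDiff_const.mul h1).smul contDiff_const).add (contDiff_const.smul h3)).add
    ((contDiff_const.mul (h2.sub h4)).smul contDiff_const)

theorem p1_Theta (z : E) : Φ.p1 (Theta Φ b τ δ w z - b) = (τ : ℂ) * Φ.p1 z := by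
  have : Theta Φ b τ δ w z - b = ((τ : ℂ) * Φ.p1 z) • Φ.e1 + ((Real.sqrt δ : ℝ) : ℂ) • Φ.PW z
    + ((δ : ℂ) * Φ.pw z + w ((τ : ℂ) * Φ.p1 z)) • Φ.ew := by
    unfold Theta; abel
  rw [this]
  simp [Φ.p1_e1, Φ.p1_PW, Φ.p1_ew]

theorem pw_Theta (z : E) : Φ.pw (Theta Φ b τ δ w z - b) =
    (δ : ℂ) * Φ.pw z + w ((τ : ℂ) * Φ.p1 z) := by
  have : Theta Φ b τ δ w z - b = ((τ : ℂ) * Φ.p1 z) • Φ.e1 + ((Real.sqrt δ : ℝ) : ℂ) • Φ.PW z
    + ((δ : ℂ) * Φ.pw z + w ((τ : ℂ) * Φ.p1 z)) • Φ.ew := by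
    unfold Theta; abel
  rw [this]
  simp [Φ.pw_e1, Φ.pw_PW, Φ.pw_ew]

theorem PW_Theta (z : E) : Φ.PW (Theta Φ b τ δ w z - b) =
    ((Real.sqrt δ : ℝ) : ℂ) • Φ.PW z := by
  have : Theta Φ b τ δ w z - b = ((τ : ℂ) * Φ.p1 z) • Φ.e1 + ((Real.sqrt δ : ℝ) : ℂ) • Φ.PW z
    + ((δ : ℂ) * Φ.pw z + w ((τ : ℂ) * Φ.p1 z)) • Φ.ew := by
    unfold Theta; abel
  rw [this]
  simp [Φ.PW_e1, Φ.PW_PW, Φ.PW_ew]

theorem ThetaInv_Theta (hτ : 0 < τ) (hδ : 0 < δ) (z : E) :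
    ThetaInv Φ b τ δ w (Theta Φ b τ δ w z) = z := by
  have hτ' : (τ : ℂ) ≠ 0 := by exact_mod_cast hτ.ne'
  have hδ' : (δ : ℂ) ≠ 0 := by exact_mod_cast hδ.ne'
  have hs' : ((Real.sqrt δ : ℝ) : ℂ) ≠ 0 := by exact_mod_cast (Real.sqrt_pos.2 hδ).ne'
  unfold ThetaInv
  rw [p1_Theta, pw_Theta, PW_Theta, smul_smul, inv_mul_cancel₀ hs', one_smul,
    inv_mul_cancel_left₀ hτ', add_sub_cancel_right, inv_mul_cancel_left₀ hδ']
  exact (Φ.decomp z).symm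

theorem Theta_ThetaInv (hτ : 0 < τ) (hδ : 0 < δ) (z : E) :
    Theta Φ b τ δ w (ThetaInv Φ b τ δ w z) = z := by
  have hτ' : (τ : ℂ) ≠ 0 := by exact_mod_cast hτ.ne'
  have hδ' : (δ : ℂ) ≠ 0 := by exact_mod_cast hδ.ne'
  have hs' : ((Real.sqrt δ : ℝ) : ℂ) ≠ 0 := by exact_mod_cast (Real.sqrt_pos.2 hδ).ne'
  have h1 : Φ.p1 (ThetaInv Φ b τ δ w z) = ((τ : ℂ)⁻¹) * Φ.p1 (z - b) := by
    unfold ThetaInv; simp [Φ.p1_e1, Φ.p1_PW, Φ.p1_ew]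
  have h2 : Φ.pw (ThetaInv Φ b τ δ w z) =
      ((δ : ℂ)⁻¹) * (Φ.pw (z - b) - w (Φ.p1 (z - b))) := by
    unfold ThetaInv; simp [Φ.pw_e1, Φ.pw_PW, Φ.pw_ew]
  have h3 : Φ.PW (ThetaInv Φ b τ δ w z) = (((Real.sqrt δ : ℝ) : ℂ)⁻¹) • Φ.PW (z - b) := by
    unfold ThetaInv; simp [Φ.PW_e1, Φ.PW_PW, Φ.PW_ew]
  unfold Theta
  rw [h1, h2, h3, smul_smul, mul_inv_cancel₀ hs', one_smul, mul_inv_cancel_left₀ hτ',
    mul_inv_cancel_left₀ hδ', sub_add_cancel]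
  have := Φ.decomp (z - b)
  rw [add_assoc, add_assoc, ← add_assoc (Φ.p1 (z - b) • Φ.e1), ← this]
  abel

theorem Theta_zero (hw : w 0 = 0) : Theta Φ b τ δ w 0 = b := by
  simp [Theta, hw]

theorem fderiv_ThetaInv_comp (hτ : 0 < τ) (hδ : 0 < δ) (hw : ContDiff ℂ ∞ w) (z v : E) :
    fderiv ℂ (ThetaInv Φ b τ δ w) (Theta Φ b τ δ w z) (fderiv ℂ (Theta Φ b τ δ w) z v) = v := by
  have h1 : DifferentiableAt ℂ (ThetaInv Φ b τ δ w) (Theta Φ b τ δ w z) :=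
    ((contDiff_ThetaInv hw).differentiable (by simp)).differentiableAt
  have h2 : DifferentiableAt ℂ (Theta Φ b τ δ w) z :=
    ((contDiff_Theta hw).differentiable (by simp)).differentiableAt
  have h3 := (h1.hasFDerivAt.comp z h2.hasFDerivAt)
  have h4 : (ThetaInv Φ b τ δ w ∘ Theta Φ b τ δ w) = id := by
    funext z; exact ThetaInv_Theta hτ hδ z
  rw [h4] at h3
  have h5 := h3.unique (hasFDerivAt_id z)
  have h6 := congrArg (fun L : E →L[ℂ] E => L v) h5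
  simpa using h6

theorem fderiv_Theta_comp (hτ : 0 < τ) (hδ : 0 < δ) (hw : ContDiff ℂ ∞ w) (z v : E) :
    fderiv ℂ (Theta Φ b τ δ w) (ThetaInv Φ b τ δ w z) (fderiv ℂ (ThetaInv Φ b τ δ w) z v) = v := by
  have h1 : DifferentiableAt ℂ (Theta Φ b τ δ w) (ThetaInv Φ b τ δ w z) :=
    ((contDiff_Theta hw).differentiable (by simp)).differentiableAt
  have h2 : DifferentiableAt ℂ (ThetaInv Φ b τ δ w) z :=
    ((contDiff_ThetaInv hw).differentiable (by simp)).differentiableAt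
  have h3 := (h1.hasFDerivAt.comp z h2.hasFDerivAt)
  have h4 : (Theta Φ b τ δ w ∘ ThetaInv Φ b τ δ w) = id := by
    funext z; exact Theta_ThetaInv hτ hδ z
  rw [h4] at h3
  have h5 := h3.unique (hasFDerivAt_id z)
  have h6 := congrArg (fun L : E →L[ℂ] E => L v) h5
  simpa using h6

end

end Pool.Agent.Sqz
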