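import Pool.Agent.Work.MP_0e9e72_an.EDefs
import Pool.Agent.Work.MP_0e9e72_an.C1
import Pool.Agent.Work.MP_0e9e72_an.ThetaMap

/-! # Block E6: sequential limits of the scaled defining function -/

set_option autoImplicit false
set_option linter.unusedSectionVars false

open Complex Metric Set Filter Topology
open scoped ContDiff

namespace Pool.Agent.Sqz

namespace E6

section general
variable {E : Type*} [NormedAddCommGroup E] [NormedSpace ℂ E]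

theorem ev_norm_lt {X V : Type*} [TopologicalSpace X] [NormedAddCommGroup V] {f : X → V}
    (hf : Continuous f) (x0 : X) : ∀ᶠ x in 𝓝 x0, ‖f x‖ < ‖f x0‖ + 1 :=
  (hf.norm.tendsto x0).eventually_lt_const (lt_add_one _)

/-- Lipschitz and Taylor bounds near `0` for a smooth map. -/
theorem taylor_bounds {F : Type*} [NormedAddCommGroup F] [NormedSpace ℝ F] {G : E → F}
    (hG : ContDiff ℝ ∞ G) :
    ∃ C > 0, ∃ ρ > 0, ∀ p y : E, ‖p‖ < ρ → ‖y‖ < ρ → ‖G (p + y) - G p‖ ≤ C * ‖y‖ ∧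
      ‖G (p + y) - G p - fderiv ℝ G p y‖ ≤ C * ‖y‖ ^ 2 := by
  have hG1 : ContDiff ℝ ∞ (fderiv ℝ G) := hG.fderiv_right (by simp)
  have hG2 : ContDiff ℝ ∞ (fderiv ℝ (fderiv ℝ G)) := hG1.fderiv_right (by simp)
  -- bounds on the derivatives near `0`
  have hb1 : ∀ᶠ x in 𝓝 (0 : E), ‖fderiv ℝ G x‖ < ‖fderiv ℝ G 0‖ + 1 := by
    have e1 := hG1.continuous.norm
    exact (e1.tendsto (0 : E)).eventually_lt_const (lt_add_one _)
  have hb2 : ∀ᶠ x in 𝓝 (0 : E), ‖fderiv ℝ (fderiv ℝ G) x‖ < ‖fderiv ℝ (fderiv ℝ G) 0‖ + 1 := by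
    exact ev_norm_lt hG2.continuous 0
  obtain ⟨ρ, hρ, hρs⟩ := Metric.eventually_nhds_iff_ball.1 (hb1.and hb2)
  set C1 : ℝ := ‖fderiv ℝ G 0‖ + 1 with hC1
  set C2 : ℝ := ‖fderiv ℝ (fderiv ℝ G) 0‖ + 1 with hC2
  have hC1p : 0 < C1 := by positivity
  have hC2p : 0 < C2 := by positivity
  refine ⟨C1 + C2, by positivity, ρ / 2, by positivity, fun p y hp hy => ?_⟩
  have hmem : ∀ t ∈ Icc (0 : ℝ) 1, p + t • y ∈ ball (0 : E) ρ := by
    intro t ht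
    rw [mem_ball_zero_iff]
    calc ‖p + t • y‖ ≤ ‖p‖ + ‖t • y‖ := norm_add_le _ _
      _ = ‖p‖ + t * ‖y‖ := by rw [norm_smul, Real.norm_of_nonneg ht.1]
      _ ≤ ‖p‖ + 1 * ‖y‖ := by gcongr; exact ht.2
      _ < ρ := by linarith
  have hpm : p ∈ ball (0 : E) ρ := by rw [mem_ball_zero_iff]; linarith
  have hpy : p + y ∈ ball (0 : E) ρ := by simpa using hmem 1 (by simp)
  have hconv : Convex ℝ (ball (0 : E) ρ) := convex_ball 0 ρ
  have l1 : ∀ x ∈ ball (0 : E) ρ, ∀ x' ∈ ball (0 : E) ρ,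
      ‖fderiv ℝ G x' - fderiv ℝ G x‖ ≤ C2 * ‖x' - x‖ := by
    intro x hx x' hx'
    exact hconv.norm_image_sub_le_of_norm_fderiv_le
      (fun z _ => (hG1.differentiable (by simp)).differentiableAt) (fun z hz => (hρs z hz).2.le)
      hx hx'
  constructor
  · have := hconv.norm_image_sub_le_of_norm_fderiv_le (f := G) (C := C1)
      (fun z _ => (hG.differentiable (by simp)).differentiableAt) (fun z hz => (hρs z hz).1.le)
      hpm hpy
    rw [add_sub_cancel_left] at this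
    calc ‖G (p + y) - G p‖ ≤ C1 * ‖y‖ := this
      _ ≤ _ := by gcongr; linarith
  · -- segment
    have hseg : Convex ℝ (segment ℝ p (p + y)) := convex_segment _ _
    have hsub : segment ℝ p (p + y) ⊆ ball (0 : E) ρ := hconv.segment_subset hpm hpy
    have hbd : ∀ x ∈ segment ℝ p (p + y), ‖fderiv ℝ (fun x => G x - fderiv ℝ G p x) x‖ ≤
        C2 * ‖y‖ := by
      intro x hx
      have e1 : fderiv ℝ (fun x => G x - fderiv ℝ G p x) x = fderiv ℝ G x - fderiv ℝ G p := by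
        have := ((hG.differentiable (by simp)) x).hasFDerivAt.sub (fderiv ℝ G p).hasFDerivAt
        exact this.fderiv
      rw [e1]
      refine (l1 p hpm x (hsub hx)).trans ?_
      have e2 : ‖x - p‖ ≤ ‖y‖ := by
        have := norm_sub_le_of_mem_segment hx
        simpa using this
      gcongr
    have := hseg.norm_image_sub_le_of_norm_fderiv_le (f := fun x => G x - fderiv ℝ G p x)
      (C := C2 * ‖y‖) (fun z _ => ((hG.differentiable (by simp)) z).sub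
        (fderiv ℝ G p).differentiableAt) hbd (left_mem_segment ℝ p (p + y))
      (right_mem_segment ℝ p (p + y))
    have e3 : G (p + y) - fderiv ℝ G p (p + y) - (G p - fderiv ℝ G p p) =
        G (p + y) - G p - fderiv ℝ G p y := by
      rw [map_add]; abel
    rw [e3, add_sub_cancel_left] at this
    calc ‖G (p + y) - G p - fderiv ℝ G p y‖ ≤ C2 * ‖y‖ * ‖y‖ := this
      _ = C2 * ‖y‖ ^ 2 := by ring
      _ ≤ _ := by gcongr; linarith

/-- third order Taylor bound near `0` -/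
theorem taylor3 {r : E → ℝ} (hr : ContDiff ℝ ∞ r) :
    ∃ C > 0, ∃ ρ > 0, ∀ p y : E, ‖p‖ < ρ → ‖y‖ < ρ →
      |r (p + y) - r p - fderiv ℝ r p y - 1 / 2 * fderiv ℝ (fderiv ℝ r) p y y| ≤ C * ‖y‖ ^ 3 := by
  have hr1 : ContDiff ℝ ∞ (fderiv ℝ r) := hr.fderiv_right (by simp)
  obtain ⟨C, hC, ρ, hρ, hT⟩ := taylor_bounds hr1
  refine ⟨C, hC, ρ, hρ, fun p y hp hy => ?_⟩
  have hsym : ∀ u v : E, fderiv ℝ (fderiv ℝ r) p u v = fderiv ℝ (fderiv ℝ r) p v u := by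
    intro u v
    exact second_derivative_symmetric (f := r) (f' := fderiv ℝ r)
      (fun z => ((hr.differentiable (by simp)) z).hasFDerivAt)
      (((hr1.differentiable (by simp)) p).hasFDerivAt) u v
  set B := fderiv ℝ (fderiv ℝ r) p with hB
  set g : E → ℝ := fun x => r (p + x) - r p - fderiv ℝ r p x - 1 / 2 * B x x with hg
  have hgd : ∀ x, HasFDerivAt g (fderiv ℝ r (p + x) - fderiv ℝ r p - B x) x := by
    intro x
    have e1 : HasFDerivAt (fun x => r (p + x)) (fderiv ℝ r (p + x)) x := by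
      have := ((hr.differentiable (by simp)) (p + x)).hasFDerivAt.comp x
        ((hasFDerivAt_id x).const_add p)
      rw [ContinuousLinearMap.comp_id] at this
      exact this
    have e2 : HasFDerivAt (fun x => B x x) (B x + B.flip x) x := by
      have := (B.hasFDerivAt (x := x)).clm_apply (hasFDerivAt_id x)
      simpa using this
    have e3 : B x + B.flip x = (2 : ℝ) • B x := by
      ext u
      simp only [add_apply, ContinuousLinearMap.flip_apply,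
        smul_apply, smul_eq_mul]
      rw [hsym u x]; ring
    rw [e3] at e2
    have e4 := ((e1.sub_const (r p)).sub (fderiv ℝ r p).hasFDerivAt).sub (e2.const_mul (1 / 2))
    refine e4.congr_fderiv ?_
    rw [smul_smul]; norm_num
  have hseg : Convex ℝ (segment ℝ (0 : E) y) := convex_segment _ _
  have hbd : ∀ x ∈ segment ℝ (0 : E) y, ‖fderiv ℝ g x‖ ≤ C * ‖y‖ ^ 2 := by
    intro x hx
    rw [(hgd x).fderiv]
    have e2 : ‖x‖ ≤ ‖y‖ := by
      have := norm_sub_le_of_mem_segment hx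
      simpa using this
    calc ‖fderiv ℝ r (p + x) - fderiv ℝ r p - B x‖ ≤ C * ‖x‖ ^ 2 := (hT p x hp (by linarith)).2
      _ ≤ _ := by gcongr
  have := hseg.norm_image_sub_le_of_norm_fderiv_le (f := g) (C := C * ‖y‖ ^ 2)
    (fun z _ => (hgd z).differentiableAt) hbd (left_mem_segment ℝ 0 y) (right_mem_segment ℝ 0 y)
  have e5 : g 0 = 0 := by simp [hg]
  rw [e5, sub_zero, sub_zero] at this
  calc |g y| ≤ C * ‖y‖ ^ 2 * ‖y‖ := this
    _ = C * ‖y‖ ^ 3 := by ring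

/-- symmetry of the second derivative -/
theorem sym2 {F : Type*} [NormedAddCommGroup F] [NormedSpace ℝ F] {r : E → F}
    (hr : ContDiff ℝ ∞ r) (p u v : E) :
    fderiv ℝ (fderiv ℝ r) p u v = fderiv ℝ (fderiv ℝ r) p v u :=
  second_derivative_symmetric (f := r) (f' := fderiv ℝ r)
    (fun z => ((hr.differentiable (by simp)) z).hasFDerivAt)
    ((((hr.fderiv_right (m := ∞) (by simp)).differentiable (by simp)) p).hasFDerivAt) u v

theorem sym3 {r : E → ℝ} (hr : ContDiff ℝ ∞ r) (p x u v : E) :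
    fderiv ℝ (fderiv ℝ (fderiv ℝ r)) p u v x = fderiv ℝ (fderiv ℝ (fderiv ℝ r)) p x u v := by
  have hr1 : ContDiff ℝ ∞ (fderiv ℝ r) := hr.fderiv_right (by simp)
  have hr2 : ContDiff ℝ ∞ (fderiv ℝ (fderiv ℝ r)) := hr1.fderiv_right (by simp)
  -- differentiate the symmetry of the second derivative
  have h1 : ∀ a b : E, fderiv ℝ (fderiv ℝ (fderiv ℝ r)) p u a b =
      fderiv ℝ (fderiv ℝ (fderiv ℝ r)) p u b a := by
    intro a b
    have e1 : ∀ a b : E, HasFDerivAt (fun p => fderiv ℝ (fderiv ℝ r) p a b)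
        (((fderiv ℝ (fderiv ℝ (fderiv ℝ r)) p).flip a).flip b) p := by
      intro a b
      have := (((hr2.differentiable (by simp)) p).hasFDerivAt.clm_apply
        (hasFDerivAt_const a p)).clm_apply (hasFDerivAt_const b p)
      refine this.congr_fderiv ?_
      ext z
      simp
    have e2 := e1 a b
    have e3 := e1 b a
    have e4 : (fun p => fderiv ℝ (fderiv ℝ r) p a b) = fun p => fderiv ℝ (fderiv ℝ r) p b a := by
      funext p; exact sym2 hr p a b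
    rw [e4] at e2
    have e5 := congrArg (fun L : E →L[ℝ] ℝ => L u) (e2.unique e3)
    simpa using e5
  rw [h1 v x, sym2 hr1 p u x]

/-- The Levi form of a derivative of `r`. -/
theorem Lev_fderiv {r : E → ℝ} (hr : ContDiff ℝ ∞ r) (p x u : E) :
    Lev (fun p => fderiv ℝ r p x) p u =
      fderiv ℝ (fderiv ℝ (fderiv ℝ r)) p x u u +
        fderiv ℝ (fderiv ℝ (fderiv ℝ r)) p x (I • u) (I • u) := by
  have hr1 : ContDiff ℝ ∞ (fderiv ℝ r) := hr.fderiv_right (by simp)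
  have hr2 : ContDiff ℝ ∞ (fderiv ℝ (fderiv ℝ r)) := hr1.fderiv_right (by simp)
  have e1 : fderiv ℝ (fun p => fderiv ℝ r p x) = fun p => (fderiv ℝ (fderiv ℝ r) p).flip x := by
    funext p
    have := ((hr1.differentiable (by simp)) p).hasFDerivAt.clm_apply (hasFDerivAt_const x p)
    rw [this.fderiv]
    ext z; simp
  have e2 : ∀ v : E, fderiv ℝ (fderiv ℝ (fun p => fderiv ℝ r p x)) p v v =
      fderiv ℝ (fderiv ℝ (fderiv ℝ r)) p x v v := by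
    intro v
    rw [e1]
    have e3 : HasFDerivAt (fun p => (fderiv ℝ (fderiv ℝ r) p).flip x)
        (((ContinuousLinearMap.apply ℝ (E →L[ℝ] ℝ) x).comp
          (ContinuousLinearMap.flipₗᵢ ℝ E E ℝ : (E →L[ℝ] E →L[ℝ] ℝ) →L[ℝ] (E →L[ℝ] E →L[ℝ] ℝ))).comp
          (fderiv ℝ (fderiv ℝ (fderiv ℝ r)) p)) p := by
      exact (((ContinuousLinearMap.apply ℝ (E →L[ℝ] ℝ) x).comp
          (ContinuousLinearMap.flipₗᵢ ℝ E E ℝ : (E →L[ℝ] E →L[ℝ] ℝ) →L[ℝ]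
            (E →L[ℝ] E →L[ℝ] ℝ))).hasFDerivAt).comp p
        ((hr2.differentiable (by simp)) p).hasFDerivAt
    rw [e3.fderiv]
    have : (((ContinuousLinearMap.apply ℝ (E →L[ℝ] ℝ) x).comp
          (ContinuousLinearMap.flipₗᵢ ℝ E E ℝ : (E →L[ℝ] E →L[ℝ] ℝ) →L[ℝ] (E →L[ℝ] E →L[ℝ] ℝ))).comp
          (fderiv ℝ (fderiv ℝ (fderiv ℝ r)) p)) v v =
        fderiv ℝ (fderiv ℝ (fderiv ℝ r)) p v v x := rfl
    rw [this, sym3 hr]
  simp only [Lev]
  rw [e2, e2]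

end general

section curve
variable {E : Type*} [NormedAddCommGroup E] [NormedSpace ℂ E]
variable {Φ : Frame E} {r : E → ℝ} {b : E} {τ s : ℝ} {w : ℂ → ℂ}

/-- base point on the curve -/
noncomputable def PP (Φ : Frame E) (b : E) (τ : ℝ) (w : ℂ → ℂ) (z : E) : E :=
  Crv Φ b w ((τ : ℂ) * Φ.p1 z)

/-- tangent vector -/
noncomputable def TT (Φ : Frame E) (τ : ℝ) (w : ℂ → ℂ) (z : E) : E :=
  Φ.e1 + deriv w ((τ : ℂ) * Φ.p1 z) • Φ.ew

/-- transversal displacement -/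
noncomputable def YY (Φ : Frame E) (s : ℝ) (z : E) : E :=
  Φ.PW z + ((s : ℂ) * Φ.pw z) • Φ.ew

theorem Theta_eq (δ : ℝ) (hs : δ = s ^ 2) (hs0 : 0 ≤ s) (z : E) :
    Theta Φ b τ δ w z = PP Φ b τ w z + s • YY Φ s z := by
  have h1 : Real.sqrt δ = s := by rw [hs, Real.sqrt_sq hs0]
  have h2 : (δ : ℂ) = (s : ℂ) * (s : ℂ) := by rw [hs]; push_cast; ring
  unfold Theta PP Crv YY
  rw [h1, h2, ← Complex.coe_smul, smul_add, smul_smul]
  simp only [add_smul, mul_assoc]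
  abel

theorem fderiv_Theta (hw : ContDiff ℂ ∞ w) (δ : ℝ) (hs : δ = s ^ 2) (hs0 : 0 ≤ s) (z v : E) :
    fderiv ℂ (Theta Φ b τ δ w) z v =
      ((τ : ℂ) * Φ.p1 v) • TT Φ τ w z + s • YY Φ s v := by
  have h1 : Real.sqrt δ = s := by rw [hs, Real.sqrt_sq hs0]
  have h2 : (δ : ℂ) = (s : ℂ) * (s : ℂ) := by rw [hs]; push_cast; ring
  have hp : HasFDerivAt (fun z : E => (τ : ℂ) * Φ.p1 z) ((τ : ℂ) • Φ.p1) z :=
    (Φ.p1.hasFDerivAt).const_mul (τ : ℂ)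
  have hq : HasFDerivAt (fun z : E => w ((τ : ℂ) * Φ.p1 z))
      (deriv w ((τ : ℂ) * Φ.p1 z) • ((τ : ℂ) • Φ.p1)) z :=
    (((hw.differentiable (by simp)) _).hasDerivAt).comp_hasFDerivAt z hp
  have e1 : HasFDerivAt (Theta Φ b τ δ w)
      ((((τ : ℂ) • Φ.p1).smulRight Φ.e1 + ((Real.sqrt δ : ℝ) : ℂ) • Φ.PW) +
        (((δ : ℂ) • Φ.pw + deriv w ((τ : ℂ) * Φ.p1 z) • ((τ : ℂ) • Φ.p1)).smulRight Φ.ew)) z := by
    unfold Theta
    exact (((hp.smul_const Φ.e1).const_add b).add (Φ.PW.hasFDerivAt.const_smul _)).add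
      ((((Φ.pw.hasFDerivAt).const_mul (δ : ℂ)).add hq).smul_const Φ.ew)
  rw [e1.fderiv]
  simp only [add_apply, ContinuousLinearMap.smulRight_apply, smul_apply, smul_eq_mul, h1, h2]
  unfold TT YY
  rw [← Complex.coe_smul s, smul_add, smul_add, smul_smul, smul_smul, add_smul]
  have : deriv w ((τ : ℂ) * Φ.p1 z) * ((τ : ℂ) * Φ.p1 v) =
      (τ : ℂ) * Φ.p1 v * deriv w ((τ : ℂ) * Φ.p1 z) := by ring
  rw [this, mul_assoc (s : ℂ) (s : ℂ)]
  abel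

theorem hasDerivAt_gam (hw : ContDiff ℂ ∞ w) (ζ : ℂ) :
    HasDerivAt (fun ζ : ℂ => Crv Φ b w ((τ : ℂ) * ζ))
      ((τ : ℂ) • (Φ.e1 + deriv w ((τ : ℂ) * ζ) • Φ.ew)) ζ := by
  have h1 : HasDerivAt (fun ζ : ℂ => (τ : ℂ) * ζ) (τ : ℂ) ζ := by
    simpa using (hasDerivAt_id ζ).const_mul (τ : ℂ)
  have h2 : HasDerivAt (fun ζ : ℂ => w ((τ : ℂ) * ζ)) (deriv w ((τ : ℂ) * ζ) * (τ : ℂ)) ζ :=
    (((hw.differentiable (by simp)) _).hasDerivAt).comp ζ h1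
  have h3 := ((h1.smul_const Φ.e1).const_add b).add (h2.smul_const Φ.ew)
  refine h3.congr_deriv ?_
  rw [smul_add, smul_smul, mul_comm]

theorem contDiff_gam (hw : ContDiff ℂ ∞ w) :
    ContDiff ℂ ∞ (fun ζ : ℂ => Crv Φ b w ((τ : ℂ) * ζ)) := by
  unfold Crv
  have h1 : ContDiff ℂ ∞ (fun ζ : ℂ => (τ : ℂ) * ζ) := contDiff_const.mul contDiff_id
  exact (contDiff_const.add (h1.smul contDiff_const)).add ((hw.comp h1).smul contDiff_const)

theorem fderiv_gam (hw : ContDiff ℂ ∞ w) (ζ v : ℂ) :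
    fderiv ℂ (fun ζ : ℂ => Crv Φ b w ((τ : ℂ) * ζ)) ζ v =
      ((τ : ℂ) * v) • (Φ.e1 + deriv w ((τ : ℂ) * ζ) • Φ.ew) := by
  rw [(hasDerivAt_gam hw ζ).hasFDerivAt.fderiv]
  simp only [ContinuousLinearMap.toSpanSingleton_apply]
  rw [smul_smul]
  congr 1; ring

/-- derivative of a smooth map along the curve -/
theorem fderiv_along {F : Type*} [NormedAddCommGroup F] [NormedSpace ℝ F] {g : E → F}
    (hg : ContDiff ℝ ∞ g) (hw : ContDiff ℂ ∞ w) (ζ : ℂ) :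
    HasFDerivAt (fun ζ : ℂ => g (Crv Φ b w ((τ : ℂ) * ζ)))
      ((fderiv ℝ g (Crv Φ b w ((τ : ℂ) * ζ))).comp
        ((fderiv ℂ (fun ζ : ℂ => Crv Φ b w ((τ : ℂ) * ζ)) ζ).restrictScalars ℝ)) ζ := by
  have h1 : HasFDerivAt (fun ζ : ℂ => Crv Φ b w ((τ : ℂ) * ζ))
      ((fderiv ℂ (fun ζ : ℂ => Crv Φ b w ((τ : ℂ) * ζ)) ζ).restrictScalars ℝ) ζ :=
    (((contDiff_gam hw).differentiable (by simp)) ζ).hasFDerivAt.restrictScalars ℝ
  exact ((hg.differentiable (by simp)) _).hasFDerivAt.comp ζ h1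

/-- `dA` -/
theorem fderiv_A (hr : ContDiff ℝ ∞ r) (hw : ContDiff ℂ ∞ w) (δ : ℝ) (z : E) (v : ℂ) :
    fderiv ℝ (fun ζ : ℂ => r (Crv Φ b w ((τ : ℂ) * ζ)) / δ) (Φ.p1 z) v =
      fderiv ℝ r (PP Φ b τ w z) (((τ : ℂ) * v) • TT Φ τ w z) / δ := by
  have h1 := fderiv_along (Φ := Φ) (b := b) (τ := τ) hr hw (Φ.p1 z)
  have h2 := h1.mul_const δ⁻¹
  simp only [div_eq_mul_inv]
  rw [h2.fderiv]
  simp only [smul_apply, ContinuousLinearMap.comp_apply, smul_eq_mul,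
    ContinuousLinearMap.coe_restrictScalars']
  rw [fderiv_gam hw]
  unfold PP TT
  ring

theorem Lev_A (hr : ContDiff ℝ ∞ r) (hw : ContDiff ℂ ∞ w) (δ : ℝ) (z : E) (v : ℂ) :
    Lev (fun ζ : ℂ => r (Crv Φ b w ((τ : ℂ) * ζ)) / δ) (Φ.p1 z) v =
      Lev r (PP Φ b τ w z) (((τ : ℂ) * v) • TT Φ τ w z) / δ := by
  have h1 : ContDiff ℝ ∞ (fun p => r p / δ) := hr.div_const δ
  have h2 := iC1 (r := fun p => r p / δ) (g := fun ζ : ℂ => Crv Φ b w ((τ : ℂ) * ζ))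
    (z := Φ.p1 z) (v := v) (h1.contDiffAt.of_le (WithTop.coe_le_coe.2 le_top))
    ((contDiff_gam hw).contDiffAt.of_le (WithTop.coe_le_coe.2 le_top))
  rw [h2, fderiv_gam hw]
  have h3 : (fun p => r p / δ) = δ⁻¹ • r := by funext p; simp [div_eq_inv_mul]
  have h4 : fderiv ℝ (δ⁻¹ • r) = δ⁻¹ • fderiv ℝ r := fderiv_const_smul_field (𝕜 := ℝ) (f := r) δ⁻¹
  have h5 : fderiv ℝ (δ⁻¹ • fderiv ℝ r) = δ⁻¹ • fderiv ℝ (fderiv ℝ r) :=
    fderiv_const_smul_field (𝕜 := ℝ) (f := fderiv ℝ r) δ⁻¹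
  simp only [Lev, h3, h4, h5, Pi.smul_apply, smul_apply, smul_eq_mul]
  unfold PP TT
  ring

theorem fderiv_B (hr : ContDiff ℝ ∞ r) (hw : ContDiff ℂ ∞ w) (s : ℝ) (z x : E) (v : ℂ) :
    fderiv ℝ (fun ζ : ℂ => s⁻¹ • ((fderiv ℝ r (Crv Φ b w ((τ : ℂ) * ζ))).comp
      (Φ.PW.restrictScalars ℝ))) (Φ.p1 z) v x =
      s⁻¹ * fderiv ℝ (fderiv ℝ r) (PP Φ b τ w z) (((τ : ℂ) * v) • TT Φ τ w z) (Φ.PW x) := by
  have hr1 : ContDiff ℝ ∞ (fderiv ℝ r) := hr.fderiv_right (by simp)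
  have h1 := fderiv_along (Φ := Φ) (b := b) (τ := τ) hr1 hw (Φ.p1 z)
  have h2 := (h1.clm_comp (hasFDerivAt_const (Φ.PW.restrictScalars ℝ) (Φ.p1 z))).const_smul s⁻¹
  rw [show (fun ζ : ℂ => s⁻¹ • ((fderiv ℝ r (Crv Φ b w ((τ : ℂ) * ζ))).comp
      (Φ.PW.restrictScalars ℝ))) = s⁻¹ • (fun ζ : ℂ => (fderiv ℝ r (Crv Φ b w ((τ : ℂ) * ζ))).comp
      (Φ.PW.restrictScalars ℝ)) from rfl, h2.fderiv]
  simp
  left
  rw [(hasDerivAt_gam hw (Φ.p1 z)).deriv, smul_smul, mul_comm v (τ : ℂ)]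
  rfl

theorem Lev_B (hr : ContDiff ℝ ∞ r) (hw : ContDiff ℂ ∞ w) (s : ℝ) (z x : E) (v : ℂ) :
    Lev (fun ζ : ℂ => (s⁻¹ • ((fderiv ℝ r (Crv Φ b w ((τ : ℂ) * ζ))).comp
      (Φ.PW.restrictScalars ℝ))) x) (Φ.p1 z) v =
      s⁻¹ * (fderiv ℝ (fderiv ℝ (fderiv ℝ r)) (PP Φ b τ w z) (Φ.PW x)
          (((τ : ℂ) * v) • TT Φ τ w z) (((τ : ℂ) * v) • TT Φ τ w z) +
        fderiv ℝ (fderiv ℝ (fderiv ℝ r)) (PP Φ b τ w z) (Φ.PW x)
          (I • (((τ : ℂ) * v) • TT Φ τ w z)) (I • (((τ : ℂ) * v) • TT Φ τ w z))) := by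
  have hr1 : ContDiff ℝ ∞ (fderiv ℝ r) := hr.fderiv_right (by simp)
  have h0 : ContDiff ℝ ∞ (fun p => fderiv ℝ r p (Φ.PW x)) := hr1.clm_apply contDiff_const
  have h2 := iC1 (r := fun p => fderiv ℝ r p (Φ.PW x)) (g := fun ζ : ℂ => Crv Φ b w ((τ : ℂ) * ζ))
    (z := Φ.p1 z) (v := v) (h0.contDiffAt.of_le (WithTop.coe_le_coe.2 le_top))
    ((contDiff_gam hw).contDiffAt.of_le (WithTop.coe_le_coe.2 le_top))
  have h3 : (fun ζ : ℂ => (s⁻¹ • ((fderiv ℝ r (Crv Φ b w ((τ : ℂ) * ζ))).comp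
      (Φ.PW.restrictScalars ℝ))) x) =
      s⁻¹ • fun ζ : ℂ => fderiv ℝ r (Crv Φ b w ((τ : ℂ) * ζ)) (Φ.PW x) := by
    funext ζ; simp
  set g : ℂ → ℝ := fun ζ : ℂ => fderiv ℝ r (Crv Φ b w ((τ : ℂ) * ζ)) (Φ.PW x) with hg
  have h4 : fderiv ℝ (s⁻¹ • g) = s⁻¹ • fderiv ℝ g := fderiv_const_smul_field (𝕜 := ℝ) (f := g) s⁻¹
  have h5 : fderiv ℝ (s⁻¹ • fderiv ℝ g) = s⁻¹ • fderiv ℝ (fderiv ℝ g) :=
    fderiv_const_smul_field (𝕜 := ℝ) (f := fderiv ℝ g) s⁻¹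
  have h6 : Lev (s⁻¹ • g) (Φ.p1 z) v = s⁻¹ * Lev g (Φ.p1 z) v := by
    simp only [Lev, h4, h5, Pi.smul_apply, smul_apply, smul_eq_mul]
    ring
  rw [h3, h6, h2, fderiv_gam hw, Lev_fderiv hr]
  rfl

end curve

/-- Levi form of a component of an operator valued map, in terms of its second derivative -/
theorem Lev_apply {E : Type*} [NormedAddCommGroup E] [NormedSpace ℂ E] {q : ℂ → E →L[ℝ] ℝ}
    (hq : ContDiff ℝ ∞ q) (x : E) (ζ v : ℂ) :
    Lev (fun ζ => q ζ x) ζ v =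
      fderiv ℝ (fderiv ℝ q) ζ v v x + fderiv ℝ (fderiv ℝ q) ζ (I * v) (I * v) x := by
  have hq1 : ContDiff ℝ ∞ (fderiv ℝ q) := hq.fderiv_right (by simp)
  have e1 : fderiv ℝ (fun ζ => q ζ x) = fun ζ =>
      (ContinuousLinearMap.apply ℝ ℝ x).comp (fderiv ℝ q ζ) := by
    funext ζ
    have := (ContinuousLinearMap.apply ℝ ℝ x).hasFDerivAt.comp ζ
      ((hq.differentiable (by simp)) ζ).hasFDerivAt
    exact this.fderiv
  have e2 : ∀ u : ℂ, fderiv ℝ (fderiv ℝ (fun ζ => q ζ x)) ζ u u =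
      fderiv ℝ (fderiv ℝ q) ζ u u x := by
    intro u
    rw [e1]
    have := (hasFDerivAt_const (ContinuousLinearMap.apply ℝ ℝ x) ζ).clm_comp
      ((hq1.differentiable (by simp)) ζ).hasFDerivAt
    rw [this.fderiv]
    simp
  simp only [Lev]
  rw [e2, e2]
  rfl

/-- one-variable homogeneity of the Levi form -/
theorem Lev_one_var {h : ℂ → ℝ} (hh : ContDiff ℝ ∞ h) (ζ v : ℂ) :
    Lev h ζ v = ‖v‖ ^ 2 * Lev h ζ 1 := by
  have hsym := sym2 hh ζ 1 I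
  have h1 : v = v.re • (1 : ℂ) + v.im • I := by
    simp [Complex.re_add_im]
  have h2 : I • v = v.re • I - v.im • (1 : ℂ) := by
    apply Complex.ext <;> simp
  have h3 : ‖v‖ ^ 2 = v.re ^ 2 + v.im ^ 2 := by
    rw [← Complex.normSq_eq_norm_sq, Complex.normSq_apply]; ring
  have h4 : I • (1 : ℂ) = I := by simp
  simp only [Lev]
  rw [h2, h3, h4]
  conv_lhs => rw [h1]
  simp only [map_add, map_sub, map_smul, add_apply, sub_apply, smul_apply, smul_eq_mul]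
  simp only [add_re, add_im, real_smul, mul_re, mul_im, one_re, one_im, I_re, I_im, ofReal_re,
    ofReal_im]
  rw [← hsym]
  ring

end E6

end Pool.Agent.Sqz
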