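import Pool.Agent.Work.MP_0e9e72_an.E6

/-! # Block E6: sequential limits of the scaled defining function (continued) -/

set_option autoImplicit false
set_option linter.unusedSectionVars false

open Complex Metric Set Filter Topology
open scoped ContDiff

namespace Pool.Agent.Sqz

theorem tendsto_clm {X V W : Type*} [NormedAddCommGroup V] [NormedSpace ℝ V]
    [NormedAddCommGroup W] [NormedSpace ℝ W] {l : Filter X} {f : X → V →L[ℝ] W} {g : X → V}
    {f0 : V →L[ℝ] W} {g0 : V} (hf : Tendsto f l (𝓝 f0)) (hg : Tendsto g l (𝓝 g0)) :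
    Tendsto (fun x => f x (g x)) l (𝓝 (f0 g0)) := by
  have h : Continuous (fun p : (V →L[ℝ] W) × V => p.1 p.2) := continuous_fst.clm_apply continuous_snd
  exact (h.tendsto (f0, g0)).comp (hf.prodMk_nhds hg)

theorem ConvC2.subseq {F : Type*} [NormedAddCommGroup F] [NormedSpace ℝ F] {f : ℕ → ℂ → F}
    {f' : ℂ → F} (h : ConvC2 f f') {φ : ℕ → ℕ} (hφ : StrictMono φ) :
    ConvC2 (fun n => f (φ n)) f' := by
  intro ψ ζ ζ' hψ hζ
  exact h (φ ∘ ψ) ζ ζ' (hφ.comp hψ) hζ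

section
variable {E : Type} [NormedAddCommGroup E] [InnerProductSpace ℂ E] [FiniteDimensional ℂ E]
variable {Φ : Frame E} {D : Set E} {r : E → ℝ} {U : Set E} {N : ℕ}
variable {b : ℕ → E} {τ : ℕ → ℝ} {w : ℕ → ℂ → ℂ} {h : ℂ → ℝ} {q : ℂ → E →L[ℝ] ℝ}

theorem ScLim.subseq (S : ScLim Φ r b τ w h q) {φ : ℕ → ℕ} (hφ : StrictMono φ) :
    ScLim Φ r (b ∘ φ) (τ ∘ φ) (w ∘ φ) h q where
  δpos := fun n => S.δpos _
  b0 := S.b0.comp hφ.tendsto_atTop
  τpos := fun n => S.τpos _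
  τ0 := S.τ0.comp hφ.tendsto_atTop
  wsm := fun n => S.wsm _
  w0 := fun n => S.w0 _
  wlim := fun ε hε => hφ.tendsto_atTop.eventually (S.wlim ε hε)
  hsm := S.hsm
  qsm := S.qsm
  convA := S.convA.subseq hφ
  convB := S.convB.subseq hφ
  hpoly := S.hpoly
  hpure := S.hpure
  h11 := S.h11
  qpoly := S.qpoly
  qpure := S.qpure
  qPW := S.qPW
  nz := S.nz

namespace E6

theorem lim_δ (hNF : NormalForm Φ D r U N) (S : ScLim Φ r b τ w h q) :
    Tendsto (fun n => -(r (b n))) atTop (𝓝 0) := by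
  have h1 : Tendsto (fun n => r (b n)) atTop (𝓝 (r 0)) :=
    (hNF.smooth.continuous.tendsto 0).comp S.b0
  rw [hNF.r0] at h1
  simpa using h1.neg

theorem lim_s (hNF : NormalForm Φ D r U N) (S : ScLim Φ r b τ w h q) :
    Tendsto (fun n => Real.sqrt (-(r (b n)))) atTop (𝓝 0) := by
  have := (Real.continuous_sqrt.tendsto 0).comp (lim_δ hNF S)
  simpa [Function.comp_def] using this

theorem lim_arg (S : ScLim Φ r b τ w h q) {z : ℕ → E} {z' : E} (hz : Tendsto z atTop (𝓝 z')) :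
    Tendsto (fun n => (τ n : ℂ) * Φ.p1 (z n)) atTop (𝓝 0) := by
  have h1 : Tendsto (fun n => (τ n : ℂ)) atTop (𝓝 0) := by
    have := (Complex.continuous_ofReal.tendsto 0).comp S.τ0
    simpa [Function.comp_def] using this
  have h2 : Tendsto (fun n => Φ.p1 (z n)) atTop (𝓝 (Φ.p1 z')) := (Φ.p1.continuous.tendsto _).comp hz
  simpa using h1.mul h2

theorem lim_w (S : ScLim Φ r b τ w h q) {ζ : ℕ → ℂ} (hζ : Tendsto ζ atTop (𝓝 0)) :
    Tendsto (fun n => w n (ζ n)) atTop (𝓝 0) ∧ Tendsto (fun n => deriv (w n) (ζ n)) atTop (𝓝 0) := by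
  have h1 : ∀ᶠ n in atTop, ‖ζ n‖ ≤ 1 := by
    have := hζ.norm
    rw [norm_zero] at this
    exact (this.eventually_lt_const one_pos).mono fun n hn => hn.le
  constructor
  · rw [Metric.tendsto_nhds]
    intro ε hε
    filter_upwards [h1, S.wlim (ε / 2) (by positivity)] with n hn hw
    rw [dist_zero_right]
    have := (hw _ hn).1
    linarith
  · rw [Metric.tendsto_nhds]
    intro ε hε
    filter_upwards [h1, S.wlim (ε / 2) (by positivity)] with n hn hw
    rw [dist_zero_right]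
    have := (hw _ hn).2
    linarith

theorem lim_PP (S : ScLim Φ r b τ w h q) {z : ℕ → E} {z' : E} (hz : Tendsto z atTop (𝓝 z')) :
    Tendsto (fun n => PP Φ (b n) (τ n) (w n) (z n)) atTop (𝓝 0) := by
  have h1 := lim_arg S hz
  have h2 := (lim_w S h1).1
  have := (S.b0.add (h1.smul_const Φ.e1)).add (h2.smul_const Φ.ew)
  simpa [PP, Crv] using this

theorem lim_TT (S : ScLim Φ r b τ w h q) {z : ℕ → E} {z' : E} (hz : Tendsto z atTop (𝓝 z')) :
    Tendsto (fun n => TT Φ (τ n) (w n) (z n)) atTop (𝓝 Φ.e1) := by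
  have h1 := lim_arg S hz
  have h2 := (lim_w S h1).2
  have := (tendsto_const_nhds (x := Φ.e1)).add (h2.smul_const Φ.ew)
  simpa [TT] using this

theorem lim_YY (hNF : NormalForm Φ D r U N) (S : ScLim Φ r b τ w h q) {z : ℕ → E} {z' : E}
    (hz : Tendsto z atTop (𝓝 z')) :
    Tendsto (fun n => YY Φ (Real.sqrt (-(r (b n)))) (z n)) atTop (𝓝 (Φ.PW z')) := by
  have h1 : Tendsto (fun n => ((Real.sqrt (-(r (b n))) : ℝ) : ℂ)) atTop (𝓝 0) := by
    have := (Complex.continuous_ofReal.tendsto 0).comp (lim_s hNF S)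
    simpa [Function.comp_def] using this
  have h2 : Tendsto (fun n => Φ.pw (z n)) atTop (𝓝 (Φ.pw z')) := (Φ.pw.continuous.tendsto _).comp hz
  have h3 : Tendsto (fun n => Φ.PW (z n)) atTop (𝓝 (Φ.PW z')) := (Φ.PW.continuous.tendsto _).comp hz
  have := h3.add ((h1.mul h2).smul_const Φ.ew)
  simpa [YY] using this

/-- `u1` -/
theorem lim_u1 (S : ScLim Φ r b τ w h q) {z v : ℕ → E} {z' v' : E}
    (hz : Tendsto z atTop (𝓝 z')) (hv : Tendsto v atTop (𝓝 v')) :
    Tendsto (fun n => ((τ n : ℂ) * Φ.p1 (v n)) • TT Φ (τ n) (w n) (z n)) atTop (𝓝 0) := by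
  have := (lim_arg S hv).smul (lim_TT S hz)
  simpa using this

theorem lim_sY (hNF : NormalForm Φ D r U N) (S : ScLim Φ r b τ w h q) {z : ℕ → E} {z' : E}
    (hz : Tendsto z atTop (𝓝 z')) :
    Tendsto (fun n => Real.sqrt (-(r (b n))) • YY Φ (Real.sqrt (-(r (b n)))) (z n)) atTop
      (𝓝 0) := by
  have := (lim_s hNF S).smul (lim_YY hNF S hz)
  simpa using this

/-- algebra for the value -/
theorem value_identity (r : E → ℝ) (Φ : Frame E) (P z : E) {s : ℝ} (hs : 0 < s) :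
    (r P + fderiv ℝ r P (s • YY Φ s z) +
      1 / 2 * fderiv ℝ (fderiv ℝ r) P (s • YY Φ s z) (s • YY Φ s z)) / s ^ 2 =
    r P / s ^ 2 + s⁻¹ * fderiv ℝ r P (Φ.PW z) + fderiv ℝ r P (Φ.pw z • Φ.ew) +
      1 / 2 * fderiv ℝ (fderiv ℝ r) P (YY Φ s z) (YY Φ s z) := by
  have h1 : fderiv ℝ r P (YY Φ s z) = fderiv ℝ r P (Φ.PW z) + s * fderiv ℝ r P (Φ.pw z • Φ.ew) := by
    unfold YY
    rw [map_add, mul_smul, Complex.coe_smul, map_smul, smul_eq_mul]
  simp only [map_smul, smul_apply, smul_eq_mul]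
  rw [h1]
  field_simp
  ring

theorem value_core (hNF : NormalForm Φ D r U N) (S : ScLim Φ r b τ w h q)
    (z : ℕ → E) (z' : E) (hz : Tendsto z atTop (𝓝 z')) :
    Tendsto (fun n => Theta Φ (b n) (τ n) (-(r (b n))) (w n) (z n)) atTop (𝓝 0) ∧
    Tendsto (fun n => r (Theta Φ (b n) (τ n) (-(r (b n))) (w n) (z n)) / (-(r (b n)))) atTop
      (𝓝 (-1 + h (Φ.p1 z') + q (Φ.p1 z') z' + 1 / 2 * fderiv ℝ (fderiv ℝ r) 0 (Φ.PW z') (Φ.PW z')
        + (Φ.pw z').re)) := by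
  have hr : ContDiff ℝ ∞ r := hNF.smooth
  have hr1 : ContDiff ℝ ∞ (fderiv ℝ r) := hr.fderiv_right (by simp)
  have hr2 : ContDiff ℝ ∞ (fderiv ℝ (fderiv ℝ r)) := hr1.fderiv_right (by simp)
  set s : ℕ → ℝ := fun n => Real.sqrt (-(r (b n))) with hs
  have hspos : ∀ n, 0 < s n := fun n => Real.sqrt_pos.2 (S.δpos n)
  have hsq : ∀ n, -(r (b n)) = s n ^ 2 := fun n => (Real.sq_sqrt (S.δpos n).le).symm
  have hΘ : ∀ n, Theta Φ (b n) (τ n) (-(r (b n))) (w n) (z n) =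
      PP Φ (b n) (τ n) (w n) (z n) + s n • YY Φ (s n) (z n) := fun n =>
    Theta_eq _ (hsq n) (hspos n).le (z n)
  have hP := lim_PP S hz
  have hY := lim_YY hNF S hz
  have hsY := lim_sY hNF S hz
  have hs0 := lim_s hNF S
  constructor
  · have := hP.add hsY
    simp only [add_zero] at this
    refine this.congr fun n => (hΘ n).symm
  · -- the main term
    have hζ : Tendsto (fun n => Φ.p1 (z n)) atTop (𝓝 (Φ.p1 z')) :=
      (Φ.p1.continuous.tendsto _).comp hz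
    have hA : Tendsto (fun n => r (PP Φ (b n) (τ n) (w n) (z n)) / s n ^ 2) atTop
        (𝓝 (-1 + h (Φ.p1 z'))) := by
      have := (S.convA id (fun n => Φ.p1 (z n)) _ strictMono_id hζ).1
      refine Tendsto.congr (fun n => ?_) this
      rw [← hsq n]; rfl
    have hB : Tendsto (fun n => (s n)⁻¹ • ((fderiv ℝ r (PP Φ (b n) (τ n) (w n) (z n))).comp
        (Φ.PW.restrictScalars ℝ))) atTop (𝓝 (q (Φ.p1 z'))) :=
      (S.convB id (fun n => Φ.p1 (z n)) _ strictMono_id hζ).1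
    have hB' : Tendsto (fun n => (s n)⁻¹ * fderiv ℝ r (PP Φ (b n) (τ n) (w n) (z n)) (Φ.PW (z n)))
        atTop (𝓝 (q (Φ.p1 z') z')) := tendsto_clm hB hz
    have hpw : Tendsto (fun n => Φ.pw (z n) • Φ.ew) atTop (𝓝 (Φ.pw z' • Φ.ew)) :=
      ((Φ.pw.continuous.tendsto _).comp hz).smul_const Φ.ew
    have hD1 : Tendsto (fun n => fderiv ℝ r (PP Φ (b n) (τ n) (w n) (z n))) atTop
        (𝓝 (fderiv ℝ r 0)) := (hr1.continuous.tendsto 0).comp hP
    have hD2 : Tendsto (fun n => fderiv ℝ (fderiv ℝ r) (PP Φ (b n) (τ n) (w n) (z n))) atTop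
        (𝓝 (fderiv ℝ (fderiv ℝ r) 0)) := (hr2.continuous.tendsto 0).comp hP
    have hM := ((hA.add hB').add (tendsto_clm hD1 hpw)).add
      ((tendsto_clm (tendsto_clm hD2 hY) hY).const_mul (1 / 2))
    obtain ⟨C, hC, ρ, hρ, hT⟩ := taylor3 hr
    have hPs : ∀ᶠ n in atTop, ‖PP Φ (b n) (τ n) (w n) (z n)‖ < ρ := by
      have := hP.norm
      rw [norm_zero] at this
      exact this.eventually_lt_const hρ
    have hYs : ∀ᶠ n in atTop, ‖s n • YY Φ (s n) (z n)‖ < ρ := by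
      have := hsY.norm
      rw [norm_zero] at this
      exact this.eventually_lt_const hρ
    -- the difference
    have hdiff : Tendsto (fun n => r (Theta Φ (b n) (τ n) (-(r (b n))) (w n) (z n)) / (-(r (b n))) -
        (r (PP Φ (b n) (τ n) (w n) (z n)) / s n ^ 2 +
          (s n)⁻¹ * fderiv ℝ r (PP Φ (b n) (τ n) (w n) (z n)) (Φ.PW (z n)) +
          fderiv ℝ r (PP Φ (b n) (τ n) (w n) (z n)) (Φ.pw (z n) • Φ.ew) +
          1 / 2 * fderiv ℝ (fderiv ℝ r) (PP Φ (b n) (τ n) (w n) (z n)) (YY Φ (s n) (z n))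
            (YY Φ (s n) (z n)))) atTop (𝓝 0) := by
      have hbound : Tendsto (fun n => C * (s n * ‖YY Φ (s n) (z n)‖ ^ 3)) atTop (𝓝 0) := by
        have := (hs0.mul (hY.norm.pow 3)).const_mul C
        simpa using this
      refine squeeze_zero_norm' ?_ hbound
      filter_upwards [hPs, hYs] with n h1 h2
      have h3 := hT _ _ h1 h2
      have h4 := value_identity r Φ (PP Φ (b n) (τ n) (w n) (z n)) (z n) (hspos n)
      have hs2 : 0 < s n ^ 2 := pow_pos (hspos n) 2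
      rw [← h4, hΘ n, hsq n, ← sub_div, norm_div, Real.norm_eq_abs, Real.norm_of_nonneg hs2.le,
        div_le_iff₀ hs2]
      have h8 : r (PP Φ (b n) (τ n) (w n) (z n) + s n • YY Φ (s n) (z n)) -
          (r (PP Φ (b n) (τ n) (w n) (z n)) +
            fderiv ℝ r (PP Φ (b n) (τ n) (w n) (z n)) (s n • YY Φ (s n) (z n)) +
            1 / 2 * fderiv ℝ (fderiv ℝ r) (PP Φ (b n) (τ n) (w n) (z n)) (s n • YY Φ (s n) (z n))
              (s n • YY Φ (s n) (z n))) =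
          r (PP Φ (b n) (τ n) (w n) (z n) + s n • YY Φ (s n) (z n)) -
            r (PP Φ (b n) (τ n) (w n) (z n)) -
            fderiv ℝ r (PP Φ (b n) (τ n) (w n) (z n)) (s n • YY Φ (s n) (z n)) -
            1 / 2 * fderiv ℝ (fderiv ℝ r) (PP Φ (b n) (τ n) (w n) (z n)) (s n • YY Φ (s n) (z n))
              (s n • YY Φ (s n) (z n)) := by ring
      rw [h8]
      refine h3.trans (le_of_eq ?_)
      rw [norm_smul, Real.norm_of_nonneg (hspos n).le]
      ring
    have hfin := hdiff.add hM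
    simp only [zero_add] at hfin
    have hlim : -1 + h (Φ.p1 z') + q (Φ.p1 z') z' + fderiv ℝ r 0 (Φ.pw z' • Φ.ew) +
        1 / 2 * fderiv ℝ (fderiv ℝ r) 0 (Φ.PW z') (Φ.PW z') =
        -1 + h (Φ.p1 z') + q (Φ.p1 z') z' + 1 / 2 * fderiv ℝ (fderiv ℝ r) 0 (Φ.PW z') (Φ.PW z')
        + (Φ.pw z').re := by
      rw [hNF.dr0, map_smul, Φ.pw_ew, smul_eq_mul, mul_one]; ring
    rw [hlim] at hfin
    refine hfin.congr fun n => ?_
    rw [sub_add_cancel]

end E6

end

end Pool.Agent.Sqz
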