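import Pool.Agent.Work.MP_0e9e72_an.E6b

/-! # Block E6: sequential limits, first derivative -/

set_option autoImplicit false
set_option linter.unusedSectionVars false

open Complex Metric Set Filter Topology
open scoped ContDiff

namespace Pool.Agent.Sqz

section
variable {E : Type} [NormedAddCommGroup E] [InnerProductSpace ℂ E] [FiniteDimensional ℂ E]
variable {Φ : Frame E} {D : Set E} {r : E → ℝ} {U : Set E} {N : ℕ}
variable {b : ℕ → E} {τ : ℕ → ℝ} {w : ℕ → ℂ → ℂ} {h : ℂ → ℝ} {q : ℂ → E →L[ℝ] ℝ}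

namespace E6

theorem YY_eq (Φ : Frame E) (s : ℝ) (z : E) : YY Φ s z = Φ.PW z + s • (Φ.pw z • Φ.ew) := by
  unfold YY
  rw [mul_smul, Complex.coe_smul]

/-- algebra for the derivative -/
theorem deriv_identity (L : E →L[ℝ] ℝ) (B : E →L[ℝ] E →L[ℝ] ℝ) (hB : ∀ u v, B u v = B v u)
    (Φ : Frame E) (z v u1 : E) {s : ℝ} (hs : 0 < s) :
    (L (u1 + s • YY Φ s v) + B (s • YY Φ s z) (u1 + s • YY Φ s v)) / s ^ 2 =
    L u1 / s ^ 2 + (s⁻¹ * B u1 (Φ.PW z) + B u1 (Φ.pw z • Φ.ew)) + s⁻¹ * L (Φ.PW v) +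
      L (Φ.pw v • Φ.ew) + B (YY Φ s z) (YY Φ s v) := by
  have h1 : L (YY Φ s v) = L (Φ.PW v) + s * L (Φ.pw v • Φ.ew) := by
    rw [YY_eq, map_add, map_smul, smul_eq_mul]
  have h2 : B (YY Φ s z) u1 = B u1 (Φ.PW z) + s * B u1 (Φ.pw z • Φ.ew) := by
    rw [hB, YY_eq, map_add, map_smul, smul_eq_mul]
  simp only [map_add, map_smul, smul_apply, smul_eq_mul]
  rw [h1, h2]
  field_simp
  ring

theorem deriv_core (hNF : NormalForm Φ D r U N) (S : ScLim Φ r b τ w h q)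
    (z v : ℕ → E) (z' v' : E) (hz : Tendsto z atTop (𝓝 z')) (hv : Tendsto v atTop (𝓝 v')) :
    Tendsto (fun n => fderiv ℂ (Theta Φ (b n) (τ n) (-(r (b n))) (w n)) (z n) (v n))
      atTop (𝓝 0) ∧
    Tendsto (fun n => fderiv ℝ r (Theta Φ (b n) (τ n) (-(r (b n))) (w n) (z n))
        (fderiv ℂ (Theta Φ (b n) (τ n) (-(r (b n))) (w n)) (z n) (v n)) / (-(r (b n)))) atTop
      (𝓝 (fderiv ℝ h (Φ.p1 z') (Φ.p1 v') + fderiv ℝ q (Φ.p1 z') (Φ.p1 v') z' + q (Φ.p1 z') v'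
        + fderiv ℝ (fderiv ℝ r) 0 (Φ.PW z') (Φ.PW v') + (Φ.pw v').re)) := by
  have hr : ContDiff ℝ ∞ r := hNF.smooth
  have hr1 : ContDiff ℝ ∞ (fderiv ℝ r) := hr.fderiv_right (by simp)
  have hr2 : ContDiff ℝ ∞ (fderiv ℝ (fderiv ℝ r)) := hr1.fderiv_right (by simp)
  set s : ℕ → ℝ := fun n => Real.sqrt (-(r (b n))) with hs
  have hspos : ∀ n, 0 < s n := fun n => Real.sqrt_pos.2 (S.δpos n)
  have hsq : ∀ n, -(r (b n)) = s n ^ 2 := fun n => (Real.sq_sqrt (S.δpos n).le).symm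
  set P : ℕ → E := fun n => PP Φ (b n) (τ n) (w n) (z n) with hPdef
  set u1 : ℕ → E := fun n => ((τ n : ℂ) * Φ.p1 (v n)) • TT Φ (τ n) (w n) (z n) with hu1def
  have hΘ : ∀ n, Theta Φ (b n) (τ n) (-(r (b n))) (w n) (z n) =
      P n + s n • YY Φ (s n) (z n) := fun n => Theta_eq _ (hsq n) (hspos n).le (z n)
  have hdΘ : ∀ n, fderiv ℂ (Theta Φ (b n) (τ n) (-(r (b n))) (w n)) (z n) (v n) =
      u1 n + s n • YY Φ (s n) (v n) := fun n =>
    fderiv_Theta (S.wsm n) _ (hsq n) (hspos n).le (z n) (v n)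
  have hP : Tendsto P atTop (𝓝 0) := lim_PP S hz
  have hY := lim_YY hNF S hz
  have hYv := lim_YY hNF S hv
  have hsY := lim_sY hNF S hz
  have hsYv := lim_sY hNF S hv
  have hs0 := lim_s hNF S
  have hu1 : Tendsto u1 atTop (𝓝 0) := lim_u1 S hz hv
  have hu : Tendsto (fun n => u1 n + s n • YY Φ (s n) (v n)) atTop (𝓝 0) := by
    have := hu1.add hsYv
    simpa only [add_zero] using this
  refine ⟨hu.congr fun n => (hdΘ n).symm, ?_⟩
  have hζ : Tendsto (fun n => Φ.p1 (z n)) atTop (𝓝 (Φ.p1 z')) := (Φ.p1.continuous.tendsto _).comp hz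
  have hv1 : Tendsto (fun n => Φ.p1 (v n)) atTop (𝓝 (Φ.p1 v')) := (Φ.p1.continuous.tendsto _).comp hv
  have hpwz : Tendsto (fun n => Φ.pw (z n) • Φ.ew) atTop (𝓝 (Φ.pw z' • Φ.ew)) :=
    ((Φ.pw.continuous.tendsto _).comp hz).smul_const Φ.ew
  have hpwv : Tendsto (fun n => Φ.pw (v n) • Φ.ew) atTop (𝓝 (Φ.pw v' • Φ.ew)) :=
    ((Φ.pw.continuous.tendsto _).comp hv).smul_const Φ.ew
  have hD1 : Tendsto (fun n => fderiv ℝ r (P n)) atTop (𝓝 (fderiv ℝ r 0)) :=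
    (hr1.continuous.tendsto 0).comp hP
  have hD2 : Tendsto (fun n => fderiv ℝ (fderiv ℝ r) (P n)) atTop
      (𝓝 (fderiv ℝ (fderiv ℝ r) 0)) := (hr2.continuous.tendsto 0).comp hP
  -- convergence of the one-variable data
  have hA1 : Tendsto (fun n => fderiv ℝ r (P n) (u1 n) / s n ^ 2) atTop
      (𝓝 (fderiv ℝ h (Φ.p1 z') (Φ.p1 v'))) := by
    have h1 := (S.convA id (fun n => Φ.p1 (z n)) _ strictMono_id hζ).2.1
    have h2 := tendsto_clm h1 hv1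
    have h3 : fderiv ℝ (fun ζ => -1 + h ζ) (Φ.p1 z') = fderiv ℝ h (Φ.p1 z') := fderiv_const_add _
    rw [h3] at h2
    refine Tendsto.congr (fun n => ?_) h2
    rw [← hsq n]
    exact fderiv_A hr (S.wsm n) (-(r (b n))) (z n) (Φ.p1 (v n))
  have hB0 : Tendsto (fun n => (s n)⁻¹ * fderiv ℝ r (P n) (Φ.PW (v n)))
      atTop (𝓝 (q (Φ.p1 z') v')) := by
    have h1 : Tendsto (fun n => (s n)⁻¹ • ((fderiv ℝ r (P n)).comp
        (Φ.PW.restrictScalars ℝ))) atTop (𝓝 (q (Φ.p1 z'))) :=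
      (S.convB id (fun n => Φ.p1 (z n)) _ strictMono_id hζ).1
    exact tendsto_clm h1 hv
  have hB1 : Tendsto (fun n => (s n)⁻¹ * fderiv ℝ (fderiv ℝ r) (P n) (u1 n) (Φ.PW (z n)))
      atTop (𝓝 (fderiv ℝ q (Φ.p1 z') (Φ.p1 v') z')) := by
    have h1 := (S.convB id (fun n => Φ.p1 (z n)) _ strictMono_id hζ).2.1
    have h2 := tendsto_clm (tendsto_clm h1 hv1) hz
    refine Tendsto.congr (fun n => ?_) h2
    exact fderiv_B hr (S.wsm n) (s n) (z n) (z n) (Φ.p1 (v n))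
  have hX : Tendsto (fun n => fderiv ℝ (fderiv ℝ r) (P n) (u1 n) (Φ.pw (z n) • Φ.ew)) atTop
      (𝓝 0) := by
    have := tendsto_clm (tendsto_clm hD2 hu1) hpwz
    simpa using this
  have hM := (((hA1.add (hB1.add hX)).add hB0).add (tendsto_clm hD1 hpwv)).add
    (tendsto_clm (tendsto_clm hD2 hY) hYv)
  obtain ⟨C, hC, ρ, hρ, hT⟩ := taylor_bounds hr1
  have hPs : ∀ᶠ n in atTop, ‖P n‖ < ρ := by
    have := hP.norm
    rw [norm_zero] at this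
    exact this.eventually_lt_const hρ
  have hYs : ∀ᶠ n in atTop, ‖s n • YY Φ (s n) (z n)‖ < ρ := by
    have := hsY.norm
    rw [norm_zero] at this
    exact this.eventually_lt_const hρ
  have hdiff : Tendsto (fun n => fderiv ℝ r (Theta Φ (b n) (τ n) (-(r (b n))) (w n) (z n))
        (fderiv ℂ (Theta Φ (b n) (τ n) (-(r (b n))) (w n)) (z n) (v n)) / (-(r (b n))) -
      (fderiv ℝ r (P n) (u1 n) / s n ^ 2 +
        ((s n)⁻¹ * fderiv ℝ (fderiv ℝ r) (P n) (u1 n) (Φ.PW (z n)) +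
          fderiv ℝ (fderiv ℝ r) (P n) (u1 n) (Φ.pw (z n) • Φ.ew)) +
        (s n)⁻¹ * fderiv ℝ r (P n) (Φ.PW (v n)) + fderiv ℝ r (P n) (Φ.pw (v n) • Φ.ew) +
        fderiv ℝ (fderiv ℝ r) (P n) (YY Φ (s n) (z n)) (YY Φ (s n) (v n)))) atTop (𝓝 0) := by
    have hbound : Tendsto (fun n => C * (‖YY Φ (s n) (z n)‖ ^ 2 *
        ‖u1 n + s n • YY Φ (s n) (v n)‖)) atTop (𝓝 0) := by
      have := ((hY.norm.pow 2).mul hu.norm).const_mul C
      simpa using this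
    refine squeeze_zero_norm' ?_ hbound
    filter_upwards [hPs, hYs] with n h1 h2
    have h3 := (hT _ _ h1 h2).2
    have h4 := deriv_identity (fderiv ℝ r (P n)) (fderiv ℝ (fderiv ℝ r) (P n))
      (fun u v => sym2 hr (P n) u v) Φ (z n) (v n) (u1 n) (hspos n)
    have hs2 : 0 < s n ^ 2 := pow_pos (hspos n) 2
    rw [← h4, hdΘ n, hΘ n, hsq n, ← sub_div, norm_div, Real.norm_of_nonneg hs2.le,
      div_le_iff₀ hs2]
    set u : E := u1 n + s n • YY Φ (s n) (v n) with hudef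
    have h5 : fderiv ℝ r (P n + s n • YY Φ (s n) (z n)) u -
        (fderiv ℝ r (P n) u + fderiv ℝ (fderiv ℝ r) (P n) (s n • YY Φ (s n) (z n)) u) =
        (fderiv ℝ r (P n + s n • YY Φ (s n) (z n)) - fderiv ℝ r (P n) -
          fderiv ℝ (fderiv ℝ r) (P n) (s n • YY Φ (s n) (z n))) u := by
      simp only [sub_apply]; ring
    rw [h5]
    refine (ContinuousLinearMap.le_opNorm _ _).trans ?_
    calc ‖fderiv ℝ r (P n + s n • YY Φ (s n) (z n)) - fderiv ℝ r (P n) -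
          fderiv ℝ (fderiv ℝ r) (P n) (s n • YY Φ (s n) (z n))‖ * ‖u‖
        ≤ (C * ‖s n • YY Φ (s n) (z n)‖ ^ 2) * ‖u‖ := by gcongr
      _ = C * (‖YY Φ (s n) (z n)‖ ^ 2 * ‖u‖) * s n ^ 2 := by
          rw [norm_smul, Real.norm_of_nonneg (hspos n).le]; ring
  have hfin := hdiff.add hM
  simp only [zero_add, add_zero] at hfin
  have hlim : fderiv ℝ h (Φ.p1 z') (Φ.p1 v') + fderiv ℝ q (Φ.p1 z') (Φ.p1 v') z' +
      q (Φ.p1 z') v' + fderiv ℝ r 0 (Φ.pw v' • Φ.ew) +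
      fderiv ℝ (fderiv ℝ r) 0 (Φ.PW z') (Φ.PW v') =
      fderiv ℝ h (Φ.p1 z') (Φ.p1 v') + fderiv ℝ q (Φ.p1 z') (Φ.p1 v') z' + q (Φ.p1 z') v'
        + fderiv ℝ (fderiv ℝ r) 0 (Φ.PW z') (Φ.PW v') + (Φ.pw v').re := by
    rw [hNF.dr0, map_smul, Φ.pw_ew, smul_eq_mul, mul_one]; ring
  rw [hlim] at hfin
  refine hfin.congr fun n => ?_
  rw [sub_add_cancel]

end E6

end

end Pool.Agent.Sqz
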