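import Pool.Agent.Work.MP_0e9e72_an.LocalB
import Pool.Agent.Work.MP_0e9e72_an.ThetaMap

set_option autoImplicit false
set_option linter.unusedSectionVars false

open Complex Metric Set Filter Topology
open scoped ContDiff

namespace Pool.Agent.Sqz

section
variable {E : Type} [NormedAddCommGroup E] [InnerProductSpace ℂ E] [FiniteDimensional ℂ E]
variable {D : Set E} {b : ℕ → E} {F G : ℕ → E → E}
variable {Φ : Frame E} {r : E → ℝ} {U : Set E} {N : ℕ}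

/-- The output of the scaling step. -/
structure Sc (Φ : Frame E) (r : E → ℝ) (b : ℕ → E) (τ : ℕ → ℝ) (w : ℕ → ℂ → ℂ)
    (Θ : ℕ → E → E) (h : ℂ → ℝ) (C a a₁ c : ℝ) (ζ₁ : ℂ) : Prop where
  τpos : ∀ n, 0 < τ n
  τ0 : Tendsto τ atTop (𝓝 0)
  wsm : ∀ n, ContDiff ℂ ∞ (w n)
  w0 : ∀ n, w n 0 = 0
  Θdef : ∀ n, Θ n = Theta Φ (b n) (τ n) (-(r (b n))) (w n)
  small : ∀ R : ℝ, ∀ ρ : ℝ, 0 < ρ → ∀ᶠ n in atTop, ∀ z, ‖z‖ ≤ R → ‖Θ n z‖ < ρ
  apos : 0 < a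
  tube : ∀ᶠ n in atTop, ∀ z, ‖z‖ ≤ a → |r (Θ n z) / (-(r (b n))) + 1| ≤ 1 / 2
  slice : ∀ R ε : ℝ, 0 < ε → ∀ᶠ n in atTop, ∀ ζ ξ : ℂ, ‖ζ‖ ≤ 1 → ‖ξ‖ ≤ R →
        |r (Θ n (ζ • Φ.e1 + ξ • Φ.ew)) / (-(r (b n))) - (-1 + h ζ + ξ.re)| ≤ ε
  cubic : ∀ ζ : ℂ, ‖ζ‖ ≤ 1 → |h ζ| ≤ C * ‖ζ‖ ^ 3
  hζ₁ : ‖ζ₁‖ * ‖Φ.e1‖ ≤ a / 4
  a₁pos : 0 < a₁
  a₁le : a₁ ≤ a / 4
  cpos : 0 < c
  generic : ∀ᶠ n in atTop, ∀ z, ‖z - ζ₁ • Φ.e1‖ ≤ a₁ → ∀ v,
        c * ‖v‖ ^ 2 ≤ Lev r (Θ n z) (fderiv ℂ (Θ n) z v) / (-(r (Θ n z))) +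
          Nm r (Θ n z) (fderiv ℂ (Θ n) z v) / (12 * r (Θ n z) ^ 2)

variable {τ : ℕ → ℝ} {w : ℕ → ℂ → ℂ} {Θ : ℕ → E → E} {h : ℂ → ℝ} {C a a₁ c : ℝ} {ζ₁ : ℂ}

theorem SqSeq.hasFDerivAt_F (S : SqSeq D b F G) (hD : IsOpen D) {n : ℕ} {z : E} (hz : z ∈ D) :
    HasFDerivAt (F n) (fderiv ℂ (F n) z) z :=
  ((S.hF n).differentiableAt (hD.mem_nhds hz)).hasFDerivAt

theorem SqSeq.hasFDerivAt_G (S : SqSeq D b F G) {n : ℕ} {y : E} (hy : y ∈ F n '' D) :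
    HasFDerivAt (G n) (fderiv ℂ (G n) y) y :=
  ((S.hG n).differentiableAt ((S.openFD n).mem_nhds hy)).hasFDerivAt

theorem SqSeq.fderiv_GF (S : SqSeq D b F G) (hD : IsOpen D) {n : ℕ} {z : E} (hz : z ∈ D) (x : E) :
    fderiv ℂ (G n) (F n z) (fderiv ℂ (F n) z x) = x := by
  have h1 := (S.hasFDerivAt_G (mem_image_of_mem (F n) hz)).comp z (S.hasFDerivAt_F hD hz)
  have h2 : (G n ∘ F n) =ᶠ[𝓝 z] id := by
    filter_upwards [hD.mem_nhds hz] with y hy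
    exact S.GF n y hy
  have h3 := (h1.congr_of_eventuallyEq h2.symm).unique (hasFDerivAt_id z)
  have h6 := congrArg (fun L : E →L[ℂ] E => L x) h3
  simpa using h6

/-- eventually `b n` is in `U` and `r (b n) < 0`. -/
theorem ev_delta (hNF : NormalForm Φ D r U N) (S : SqSeq D b F G) :
    ∀ᶠ n in atTop, 0 < -(r (b n)) := by
  have h1 : ∀ᶠ n in atTop, b n ∈ U := S.b0.eventually (hNF.openU.mem_nhds hNF.zeroU)
  filter_upwards [h1] with n hn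
  have := hNF.neg_of_mem (S.bD n) hn
  linarith

theorem ev_tube (hNF : NormalForm Φ D r U N) (S : SqSeq D b F G)
    (A : Sc Φ r b τ w Θ h C a a₁ c ζ₁) :
    ∀ᶠ n in atTop, ∀ z, ‖z‖ ≤ a → Θ n z ∈ D ∧ -(r (b n)) / 2 ≤ -(r (Θ n z)) ∧
      -(r (Θ n z)) ≤ 3 / 2 * (-(r (b n))) := by
  obtain ⟨ρ2, hρ2, hsub⟩ := Metric.isOpen_iff.1 hNF.openU 0 hNF.zeroU
  filter_upwards [ev_delta hNF S, A.tube, A.small a ρ2 hρ2] with n hδ ht hs z hz
  have h1 := ht z hz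
  have h2 := abs_le.1 h1
  have h3 : r (Θ n z) / (-(r (b n))) * (-(r (b n))) = r (Θ n z) :=
    div_mul_cancel₀ _ hδ.ne'
  have h4 : r (Θ n z) ≤ -(1/2) * (-(r (b n))) := by
    rw [← h3]
    apply mul_le_mul_of_nonneg_right _ hδ.le
    linarith
  have h5 : -(3/2) * (-(r (b n))) ≤ r (Θ n z) := by
    rw [← h3]
    apply mul_le_mul_of_nonneg_right _ hδ.le
    linarith
  have hU : Θ n z ∈ U := hsub (by rw [mem_ball, dist_zero_right]; exact hs z hz)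
  exact ⟨hNF.mem_of_neg hU (by linarith), by linarith, by linarith⟩

theorem Sc.contDiff_Θ (A : Sc Φ r b τ w Θ h C a a₁ c ζ₁) (n : ℕ) : ContDiff ℂ ∞ (Θ n) := by
  rw [A.Θdef n]; exact contDiff_Theta (A.wsm n)

theorem Sc.Θ_zero (A : Sc Φ r b τ w Θ h C a a₁ c ζ₁) (n : ℕ) : Θ n 0 = b n := by
  rw [A.Θdef n]; exact Theta_zero (A.w0 n)

theorem Fh_diff (hNF : NormalForm Φ D r U N) (S : SqSeq D b F G)
    (A : Sc Φ r b τ w Θ h C a a₁ c ζ₁) :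
    ∀ᶠ n in atTop, DifferentiableOn ℂ (fun z => F n (Θ n z)) (ball 0 a) ∧
      MapsTo (fun z => F n (Θ n z)) (ball 0 a) (ball 0 1) ∧ F n (Θ n 0) = 0 := by
  filter_upwards [ev_tube hNF S A] with n hn
  refine ⟨?_, ?_, ?_⟩
  · apply (S.hF n).comp ((A.contDiff_Θ n).differentiable (by simp)).differentiableOn
    intro z hz
    exact (hn z (by simpa using (mem_ball_zero_iff.1 hz).le)).1
  · intro z hz
    exact S.maps n (hn z (by simpa using (mem_ball_zero_iff.1 hz).le)).1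
  · rw [A.Θ_zero, S.Fb]

theorem Fh_schwarz (hNF : NormalForm Φ D r U N) (S : SqSeq D b F G)
    (A : Sc Φ r b τ w Θ h C a a₁ c ζ₁) :
    ∀ᶠ n in atTop, ∀ z, ‖z‖ < a → ‖F n (Θ n z)‖ ≤ ‖z‖ / a := by
  filter_upwards [Fh_diff hNF S A] with n hn z hz
  obtain ⟨h1, h2, h3⟩ := hn
  have h4 : MapsTo (fun z => F n (Θ n z)) (ball 0 a) (closedBall (F n (Θ n 0)) 1) := by
    rw [h3]; exact h2.mono_right ball_subset_closedBall
  have h5 := Complex.dist_le_div_mul_dist_of_mapsTo_ball h1 h4 (mem_ball_zero_iff.2 hz)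
  rw [h3, dist_zero_right, dist_zero_right] at h5
  calc ‖F n (Θ n z)‖ ≤ 1 / a * ‖z‖ := h5
    _ = ‖z‖ / a := by ring

/-- **Step H**: hyperbolicity at the generic point. -/
theorem stepH (hNF : NormalForm Φ D r U N) (S : SqSeq D b F G)
    (A : Sc Φ r b τ w Θ h C a a₁ c ζ₁) :
    ∃ cH > 0, ∀ᶠ n in atTop, ∀ v,
      cH * ‖v‖ ≤ ‖fderiv ℂ (fun z => F n (Θ n z)) (ζ₁ • Φ.e1) v‖ := by
  obtain ⟨K, ρ1, cd, hDF⟩ := hNF.exists_DF
  set c4 : ℝ := cd * c * (1 / 2 : ℝ) ^ (5 / 6 : ℝ) with hc4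
  have hc4pos : 0 < c4 := by
    rw [hc4]
    have := hDF.cpos
    have := A.cpos
    positivity
  obtain ⟨CH, hCH, key⟩ := iB4 (a := a₁) (c := c4) (m := 2) A.a₁pos hc4pos
  refine ⟨1 / (2 * CH), by positivity, ?_⟩
  have hz1norm : ‖ζ₁ • Φ.e1‖ ≤ a / 4 := by rw [norm_smul]; exact A.hζ₁
  have ha := A.apos
  filter_upwards [ev_delta hNF S, ev_tube hNF S A, Fh_diff hNF S A, Fh_schwarz hNF S A,
    A.generic, eventually_ball_subset S (show (3/4 : ℝ) < 1 by norm_num),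
    localization hNF S (show (3/4 : ℝ) < 1 by norm_num) hDF.ρpos] with
    n hδ htube hFh hsch hgen hsurj hloc v
  set δ : ℝ := -(r (b n)) with hδdef
  set z1 : E := ζ₁ • Φ.e1 with hz1
  have hz1a : ‖z1‖ < a := by linarith
  set y1 : E := F n (Θ n z1) with hy1
  have hy1n : ‖y1‖ ≤ 1 / 4 := by
    have := hsch z1 hz1a
    calc ‖y1‖ ≤ ‖z1‖ / a := this
      _ ≤ (a / 4) / a := by gcongr
      _ = 1 / 4 := by field_simp
  have hz1D : Θ n z1 ∈ D := (htube z1 hz1a.le).1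
  have hτ := A.τpos n
  have hw := A.wsm n
  -- abbreviations for `Θ` and its inverse
  set Ti : E → E := ThetaInv Φ (b n) (τ n) δ (w n) with hTi
  have hTiΘ : ∀ z, Ti (Θ n z) = z := by
    intro z; rw [A.Θdef n]; exact ThetaInv_Theta hτ hδ z
  have hΘTi : ∀ z, Θ n (Ti z) = z := by
    intro z; rw [A.Θdef n]; exact Theta_ThetaInv hτ hδ z
  have hTis : ContDiff ℂ ∞ Ti := contDiff_ThetaInv hw
  have hdTi : ∀ z v, fderiv ℂ Ti (Θ n z) (fderiv ℂ (Θ n) z v) = v := by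
    intro z v; rw [A.Θdef n]; exact fderiv_ThetaInv_comp hτ hδ hw z v
  have hdΘ : ∀ z v, fderiv ℂ (Θ n) (Ti z) (fderiv ℂ Ti z v) = v := by
    intro z v; rw [A.Θdef n]; exact fderiv_Theta_comp hτ hδ hw z v
  -- the derivative of `Fh`
  have hFhd : fderiv ℂ (fun z => F n (Θ n z)) z1 =
      (fderiv ℂ (F n) (Θ n z1)).comp (fderiv ℂ (Θ n) z1) := by
    have h1 := S.hasFDerivAt_F hNF.openD (n := n) hz1D
    have h2 : HasFDerivAt (Θ n) (fderiv ℂ (Θ n) z1) z1 :=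
      (((A.contDiff_Θ n).differentiable (by simp)).differentiableAt).hasFDerivAt
    exact (h1.comp z1 h2).fderiv
  set W : E := fderiv ℂ (fun z => F n (Θ n z)) z1 v with hW
  have hW' : W = fderiv ℂ (F n) (Θ n z1) (fderiv ℂ (Θ n) z1 v) := by
    rw [hW, hFhd]; rfl
  have hback : fderiv ℂ Ti (Θ n z1) (fderiv ℂ (G n) y1 W) = v := by
    rw [hW', hy1, S.fderiv_GF hNF.openD hz1D, hdTi]
  by_cases hW0 : W = 0
  · rw [hW0, map_zero, map_zero] at hback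
    rw [← hback]; simp
  have hWpos : 0 < ‖W‖ := norm_pos_iff.2 hW0
  set u : E := ((2 * ‖W‖ : ℝ) : ℂ)⁻¹ • W with hu
  have hun : ‖u‖ = 1 / 2 := by
    rw [hu, norm_smul, norm_inv, Complex.norm_real, Real.norm_of_nonneg (by positivity)]
    field_simp
  set g : ℂ → E := fun ξ => G n (y1 + ξ • u) with hg
  have hline : ∀ ξ ∈ ball (0 : ℂ) 1, ‖y1 + ξ • u‖ ≤ 3 / 4 := by
    intro ξ hξ
    rw [mem_ball_zero_iff] at hξ
    calc ‖y1 + ξ • u‖ ≤ ‖y1‖ + ‖ξ • u‖ := norm_add_le _ _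
      _ = ‖y1‖ + ‖ξ‖ * (1 / 2) := by rw [norm_smul, hun]
      _ ≤ 3 / 4 := by linarith
  have hlineF : ∀ ξ ∈ ball (0 : ℂ) 1, y1 + ξ • u ∈ F n '' D := by
    intro ξ hξ
    exact hsurj (by rw [mem_closedBall, dist_zero_right]; exact hline ξ hξ)
  have hgdiff : DifferentiableOn ℂ g (ball 0 1) := by
    have h1 : DifferentiableOn ℂ (fun ξ : ℂ => y1 + ξ • u) (ball 0 1) :=
      ((differentiable_id.smul_const u).const_add y1).differentiableOn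
    exact (S.hG n).comp h1 hlineF
  -- the psh function
  set B : ℝ := (δ ^ (5 / 6 : ℝ))⁻¹ with hB
  have hδ56 : 0 < δ ^ (5 / 6 : ℝ) := Real.rpow_pos_of_pos hδ _
  have hBpos : 0 < B := by rw [hB]; positivity
  set ψ : E → ℝ := fun z => B * dfun r K z with hψ
  set Ω : Set E := D ∩ ball 0 ρ1 with hΩ
  have hΩr : ∀ z ∈ Ω, r z < 0 := fun z hz => hNF.neg_of_mem hz.1 (hDF.sub hz.2)
  have hg0 : g 0 = Θ n z1 := by
    simp only [hg, zero_smul, add_zero]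
    exact S.GF n _ hz1D
  have hT0 : Ti (g 0) - z1 = 0 := by rw [hg0, hTiΘ, sub_self]
  have hfin := key Ω ψ (fun z => Ti z - z1) g (hNF.openD.inter isOpen_ball)
    (fun z hz => contDiffAt_const.mul (hDF.smooth z hz.2 (hΩr z hz)))
    (fun z hz => mul_neg_of_pos_of_neg hBpos (dfun_neg K (hΩr z hz)))
    (fun z hz v => by
      rw [hψ, Lev_const_mul']
      exact mul_nonneg hBpos.le (hDF.psh z hz.2 (hΩr z hz) v))
    ((hTis.of_le (WithTop.coe_le_coe.2 le_top)).sub contDiff_const)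
    (fun z hz hTz v => by
      have hfd : fderiv ℂ (fun z => Ti z - z1) z = fderiv ℂ Ti z := fderiv_sub_const _
      rw [hfd]
      set zh : E := Ti z with hzh
      set vh : E := fderiv ℂ Ti z v with hvh
      have e1 : Θ n zh = z := hΘTi z
      have e2 : fderiv ℂ (Θ n) zh vh = v := hdΘ z v
      have hgz := hgen zh hTz.le vh
      rw [e1, e2] at hgz
      have hzh_a : ‖zh‖ ≤ a := by
        calc ‖zh‖ = ‖(zh - z1) + z1‖ := by congr 1; abel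
          _ ≤ ‖zh - z1‖ + ‖z1‖ := norm_add_le _ _
          _ ≤ a := by
            have h1 : ‖zh - z1‖ < a₁ := hTz
            have := A.a₁le
            linarith
      have htz := htube zh hzh_a
      rw [e1] at htz
      have hlow := hDF.lower z hz.2 (hΩr z hz) v
      rw [hψ, Lev_const_mul']
      have hrz : 0 < -(r z) := by have := hΩr z hz; linarith
      have hpow : (1 / 2 : ℝ) ^ (5 / 6 : ℝ) ≤ B * (-(r z)) ^ (5 / 6 : ℝ) := by
        have h1 : (δ / 2) ^ (5 / 6 : ℝ) ≤ (-(r z)) ^ (5 / 6 : ℝ) :=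
          Real.rpow_le_rpow (by positivity) htz.2.1 (by norm_num)
        have h2 : (δ / 2) ^ (5 / 6 : ℝ) = δ ^ (5 / 6 : ℝ) * (1 / 2 : ℝ) ^ (5 / 6 : ℝ) := by
          rw [← Real.mul_rpow hδ.le (by norm_num)]; congr 1; ring
        calc (1 / 2 : ℝ) ^ (5 / 6 : ℝ) = B * (δ / 2) ^ (5 / 6 : ℝ) := by
              rw [h2, hB, inv_mul_cancel_left₀ hδ56.ne']
          _ ≤ _ := mul_le_mul_of_nonneg_left h1 hBpos.le
      have hcd := hDF.cpos
      have hc := A.cpos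
      calc c4 * ‖vh‖ ^ 2 = cd * ((1 / 2 : ℝ) ^ (5 / 6 : ℝ)) * (c * ‖vh‖ ^ 2) := by
            rw [hc4]; ring
        _ ≤ cd * (B * (-(r z)) ^ (5 / 6 : ℝ)) * (c * ‖vh‖ ^ 2) := by gcongr
        _ ≤ cd * (B * (-(r z)) ^ (5 / 6 : ℝ)) *
            (Lev r z v / (-(r z)) + Nm r z v / (12 * r z ^ 2)) := by gcongr
        _ = B * (cd * (-(r z)) ^ (5 / 6 : ℝ) *
            (Lev r z v / (-(r z)) + Nm r z v / (12 * r z ^ 2))) := by ring
        _ ≤ B * Lev (dfun r K) z v := mul_le_mul_of_nonneg_left hlow hBpos.le)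
    hgdiff
    (fun ξ hξ => by
      refine ⟨(S.G_mem (hlineF ξ hξ)).1, ?_⟩
      rw [mem_ball_zero_iff]
      exact hloc _ (hline ξ hξ))
    (fun ξ hξ hTξ => by
      have h1 : Ti (g ξ) = z1 := sub_eq_zero.1 hTξ
      have h2 : g ξ = Θ n z1 := by rw [← h1, hΘTi]
      have h3 : y1 + ξ • u = y1 := by
        have h4 := (S.G_mem (hlineF ξ hξ)).2
        have h5 : G n (y1 + ξ • u) = Θ n z1 := h2
        rw [h5] at h4
        exact h4.symm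
      have h6 : ξ • u = 0 := by simpa using h3
      rcases smul_eq_zero.1 h6 with h7 | h7
      · exact h7
      · rw [h7, norm_zero] at hun; norm_num at hun)
    hT0
    (by
      rw [hg0]
      have htz := htube z1 hz1a.le
      have hrz : 0 < -(r (Θ n z1)) := by linarith
      simp only [hψ, dfun]
      have h1 : (-(r (Θ n z1)) * Real.exp (-(K * ‖Θ n z1‖ ^ 2))) ^ (5 / 6 : ℝ) ≤
          (3 / 2 * δ) ^ (5 / 6 : ℝ) := by
        apply Real.rpow_le_rpow (by positivity) _ (by norm_num)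
        calc -(r (Θ n z1)) * Real.exp (-(K * ‖Θ n z1‖ ^ 2)) ≤ -(r (Θ n z1)) * 1 := by
              apply mul_le_mul_of_nonneg_left _ hrz.le
              rw [Real.exp_le_one_iff]
              have := hDF.Kpos
              have : 0 ≤ K * ‖Θ n z1‖ ^ 2 := by positivity
              linarith
          _ ≤ 3 / 2 * δ := by rw [mul_one]; exact htz.2.2
      have h2 : (3 / 2 * δ) ^ (5 / 6 : ℝ) = (3 / 2 : ℝ) ^ (5 / 6 : ℝ) * δ ^ (5 / 6 : ℝ) :=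
        Real.mul_rpow (by norm_num) hδ.le
      have h3 : (3 / 2 : ℝ) ^ (5 / 6 : ℝ) ≤ 2 := by
        calc (3 / 2 : ℝ) ^ (5 / 6 : ℝ) ≤ (3 / 2 : ℝ) ^ (1 : ℝ) :=
              Real.rpow_le_rpow_of_exponent_le (by norm_num) (by norm_num)
          _ ≤ 2 := by norm_num
      have h4 : B * (-(r (Θ n z1)) * Real.exp (-(K * ‖Θ n z1‖ ^ 2))) ^ (5 / 6 : ℝ) ≤ 2 := by
        calc B * (-(r (Θ n z1)) * Real.exp (-(K * ‖Θ n z1‖ ^ 2))) ^ (5 / 6 : ℝ)
            ≤ B * (3 / 2 * δ) ^ (5 / 6 : ℝ) := mul_le_mul_of_nonneg_left h1 hBpos.le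
          _ = (3 / 2 : ℝ) ^ (5 / 6 : ℝ) := by
              rw [h2, hB]; field_simp
          _ ≤ 2 := h3
      rw [mul_neg]
      linarith)
  -- compute the derivative
  have hderiv : HasDerivAt (fun ξ : ℂ => Ti (g ξ) - z1) (((2 * ‖W‖ : ℝ) : ℂ)⁻¹ • v) 0 := by
    have h1 : HasDerivAt (fun ξ : ℂ => y1 + ξ • u) u 0 := by
      simpa using ((hasDerivAt_id (0 : ℂ)).smul_const u).const_add y1
    have hy1F : y1 ∈ F n '' D := mem_image_of_mem _ hz1D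
    have h2 : HasFDerivAt (G n) (fderiv ℂ (G n) y1) (y1 + (0 : ℂ) • u) := by
      simpa using S.hasFDerivAt_G hy1F
    have h3 : HasDerivAt g (fderiv ℂ (G n) y1 u) 0 := h2.comp_hasDerivAt (0 : ℂ) h1
    have h4 : HasFDerivAt Ti (fderiv ℂ Ti (Θ n z1)) (g 0) := by
      rw [hg0]
      exact ((hTis.differentiable (by simp)).differentiableAt).hasFDerivAt
    have h5 : HasDerivAt (fun ξ => Ti (g ξ)) (fderiv ℂ Ti (Θ n z1) (fderiv ℂ (G n) y1 u)) 0 :=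
      h4.comp_hasDerivAt (0 : ℂ) h3
    have h6 : fderiv ℂ Ti (Θ n z1) (fderiv ℂ (G n) y1 u) = ((2 * ‖W‖ : ℝ) : ℂ)⁻¹ • v := by
      rw [hu, map_smul, map_smul, hback]
    rw [h6] at h5
    exact h5.sub_const z1
  rw [hderiv.deriv, norm_smul, norm_inv, Complex.norm_real, Real.norm_of_nonneg (by positivity)]
    at hfin
  have h7 : ‖v‖ ≤ CH * (2 * ‖W‖) := by
    rw [inv_mul_le_iff₀ (by positivity)] at hfin
    linarith
  calc 1 / (2 * CH) * ‖v‖ ≤ 1 / (2 * CH) * (CH * (2 * ‖W‖)) := by gcongr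
    _ = ‖W‖ := by field_simp

end

end Pool.Agent.Sqz
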