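import Pool.Agent.Work.MP_0e9e72_an.EndA
import Pool.Agent.Work.MP_0e9e72_an.B7

set_option autoImplicit false
set_option linter.unusedSectionVars false

open Complex Metric Set Filter Topology
open scoped ContDiff

namespace Pool.Agent.Sqz

section det
variable {E : Type*} [NormedAddCommGroup E] [NormedSpace ℂ E] [FiniteDimensional ℂ E]

theorem differentiable_det : Differentiable ℂ (fun A : E →L[ℂ] E => A.det) := by
  classical
  let B := Module.finBasis ℂ E
  have h : (fun A : E →L[ℂ] E => A.det) = fun A : E →L[ℂ] E =>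
      ∑ σ : Equiv.Perm (Fin (Module.finrank ℂ E)), (Equiv.Perm.sign σ : ℂ) *
        ∏ i, B.coord (σ i) (A (B i)) := by
    funext A
    rw [ContinuousLinearMap.det, ← LinearMap.det_toMatrix B, Matrix.det_apply']
    simp only [LinearMap.toMatrix_apply, Module.Basis.coord_apply,
      ContinuousLinearMap.coe_coe]
  rw [h]
  apply Differentiable.fun_sum
  intro σ _
  apply Differentiable.const_mul
  have hfac : ∀ i, Differentiable ℂ (fun A : E →L[ℂ] E => B.coord (σ i) (A (B i))) := by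
    intro i
    have : Differentiable ℂ (fun A : E →L[ℂ] E => (LinearMap.toContinuousLinearMap
        (B.coord (σ i))) (A (B i))) := by
      apply (ContinuousLinearMap.differentiable _).comp
      exact (ContinuousLinearMap.apply ℂ E (B i)).differentiable
    simpa using this
  intro A
  exact (HasFDerivAt.finsetProd fun i _ => (hfac i A).hasFDerivAt).differentiableAt

theorem continuous_det' : Continuous (fun A : E →L[ℂ] E => A.det) :=
  differentiable_det.continuous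

theorem det_ne_zero_of_inj {A : E →L[ℂ] E} (hA : ∀ v, A v = 0 → v = 0) : A.det ≠ 0 := by
  intro h
  have h1 := LinearMap.bot_lt_ker_of_det_eq_zero (f := (A : E →ₗ[ℂ] E)) h
  apply h1.ne'
  rw [LinearMap.ker_eq_bot']
  exact hA

theorem inj_of_det_ne_zero {A : E →L[ℂ] E} (hA : A.det ≠ 0) (v : E) (hv : A v = 0) : v = 0 := by
  by_contra hne
  apply hA
  have : ¬ IsUnit (LinearMap.det (A : E →ₗ[ℂ] E)) := by
    intro hu
    let e := LinearEquiv.ofIsUnitDet (f := (A : E →ₗ[ℂ] E))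
      (v := Module.finBasis ℂ E) (v' := Module.finBasis ℂ E) (by
        rw [LinearMap.det_toMatrix]; exact hu)
    have he : e v = 0 := hv
    exact hne (by simpa using he)
  rw [isUnit_iff_ne_zero, not_not] at this
  exact this

/-- lower bound for the determinant on a compact set of uniformly injective maps -/
theorem exists_det_lower (M cH : ℝ) (hcH : 0 < cH) :
    ∃ c1 > 0, ∀ A : E →L[ℂ] E, ‖A‖ ≤ M → (∀ v, cH * ‖v‖ ≤ ‖A v‖) → c1 ≤ ‖A.det‖ := by
  have : ProperSpace (E →L[ℂ] E) := FiniteDimensional.proper ℂ _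
  let K : Set (E →L[ℂ] E) := closedBall 0 M ∩ {A | ∀ v, cH * ‖v‖ ≤ ‖A v‖}
  have hK : IsCompact K := by
    apply (isCompact_closedBall (0 : E →L[ℂ] E) M).inter_right
    rw [show {A : E →L[ℂ] E | ∀ v, cH * ‖v‖ ≤ ‖A v‖} = ⋂ v, {A | cH * ‖v‖ ≤ ‖A v‖} by
      ext A; simp]
    apply isClosed_iInter
    intro v
    exact isClosed_le continuous_const ((ContinuousLinearMap.apply ℂ E v).continuous.norm)
  obtain ⟨c1, hc1, h1⟩ := hK.exists_forall_le' (f := fun A : E →L[ℂ] E => ‖A.det‖) (a := 0)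
    (continuous_det'.norm.continuousOn) (by
      intro A hA
      rw [norm_pos_iff]
      apply det_ne_zero_of_inj
      intro v hv
      have := hA.2 v
      rw [hv, norm_zero] at this
      have h2 : ‖v‖ ≤ 0 := by
        by_contra hcon
        push Not at hcon
        have := mul_pos hcH hcon
        linarith
      exact norm_le_zero_iff.1 h2)
  exact ⟨c1, hc1, fun A hA hA2 => h1 A ⟨by simpa using hA, hA2⟩⟩

theorem exists_inj_lower (M c : ℝ) (hc : 0 < c) :
    ∃ c0 > 0, ∀ A : E →L[ℂ] E, ‖A‖ ≤ M → c ≤ ‖A.det‖ → ∀ v, c0 * ‖v‖ ≤ ‖A v‖ := by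
  have : ProperSpace (E →L[ℂ] E) := FiniteDimensional.proper ℂ _
  have : ProperSpace E := FiniteDimensional.proper ℂ _
  let K : Set ((E →L[ℂ] E) × E) := (closedBall 0 M ∩ {A | c ≤ ‖A.det‖}) ×ˢ sphere (0 : E) 1
  have hK : IsCompact K := by
    apply IsCompact.prod _ (isCompact_sphere _ _)
    exact (isCompact_closedBall (0 : E →L[ℂ] E) M).inter_right
      (isClosed_le continuous_const continuous_det'.norm)
  obtain ⟨c0, hc0, h1⟩ := hK.exists_forall_le' (f := fun p : (E →L[ℂ] E) × E => ‖p.1 p.2‖) (a := 0)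
    ((continuous_fst.clm_apply continuous_snd).norm.continuousOn) (by
      rintro ⟨A, v⟩ ⟨hA, hv⟩
      rw [norm_pos_iff]
      intro h0
      have hdet : A.det ≠ 0 := by
        intro h; have := hA.2; simp only [mem_ofPred_eq, h, norm_zero] at this; linarith
      have := inj_of_det_ne_zero hdet v h0
      rw [this] at hv
      simp at hv)
  refine ⟨c0, hc0, fun A hA hA2 v => ?_⟩
  by_cases hv : v = 0
  · simp [hv]
  have hvp : 0 < ‖v‖ := norm_pos_iff.2 hv
  have := h1 (A, ((‖v‖ : ℂ)⁻¹) • v) ⟨⟨by simpa using hA, hA2⟩, by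
    rw [mem_sphere_zero_iff_norm, norm_smul, norm_inv, Complex.norm_real, norm_norm,
      inv_mul_cancel₀ hvp.ne']⟩
  simp only [map_smul, norm_smul, norm_inv, Complex.norm_real, norm_norm] at this
  rw [le_inv_mul_iff₀ hvp] at this
  linarith

end det

theorem differentiableOn_fderiv' {E : Type*} [NormedAddCommGroup E] [NormedSpace ℂ E]
    [FiniteDimensional ℂ E] {F : Type*} [NormedAddCommGroup F] [NormedSpace ℂ F] [CompleteSpace F]
    {f : E → F} {Ω : Set E} (hΩ : IsOpen Ω) (hf : DifferentiableOn ℂ f Ω) :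
    DifferentiableOn ℂ (fderiv ℂ f) Ω := by
  have e1 : ContDiffOn ℂ 2 f Ω := iA1 hΩ hf 2
  have e3 : ContDiffOn ℂ 1 (fderiv ℂ f) Ω := e1.fderiv_of_isOpen hΩ (by norm_num)
  exact e3.differentiableOn (by norm_num)

section
variable {E : Type} [NormedAddCommGroup E] [InnerProductSpace ℂ E] [FiniteDimensional ℂ E]
variable {D : Set E} {b : ℕ → E} {F G : ℕ → E → E}
variable {Φ : Frame E} {r : E → ℝ} {U : Set E} {N : ℕ}
variable {τ : ℕ → ℝ} {w : ℕ → ℂ → ℂ} {Θ : ℕ → E → E} {h : ℂ → ℝ} {C a a₁ c : ℝ} {ζ₁ : ℂ}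

theorem Fh_fderiv_bound (hNF : NormalForm Φ D r U N) (S : SqSeq D b F G)
    (A : Sc Φ r b τ w Θ h C a a₁ c ζ₁) :
    ∀ᶠ n in atTop, ∀ z, ‖z‖ ≤ a / 2 → ‖fderiv ℂ (fun z => F n (Θ n z)) z‖ ≤ 4 / a := by
  filter_upwards [Fh_diff hNF S A] with n hn z hz
  obtain ⟨h1, h2, h3⟩ := hn
  have ha := A.apos
  have hsub : ball z (a / 2) ⊆ ball 0 a := by
    intro y hy
    rw [mem_ball_zero_iff]
    rw [mem_ball, dist_eq_norm] at hy
    calc ‖y‖ = ‖(y - z) + z‖ := by congr 1; abel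
      _ ≤ ‖y - z‖ + ‖z‖ := norm_add_le _ _
      _ < a := by linarith
  have hz0 : z ∈ ball (0 : E) a := by rw [mem_ball_zero_iff]; linarith
  have h4 : MapsTo (fun z => F n (Θ n z)) (ball z (a / 2)) (closedBall (F n (Θ n z)) 2) := by
    intro y hy
    have e1 := mem_ball_zero_iff.1 (h2 (hsub hy))
    have e2 := mem_ball_zero_iff.1 (h2 hz0)
    rw [mem_closedBall, dist_eq_norm]
    calc ‖F n (Θ n y) - F n (Θ n z)‖ ≤ ‖F n (Θ n y)‖ + ‖F n (Θ n z)‖ := norm_sub_le _ _
      _ ≤ 2 := by linarith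
  have h5 := Complex.norm_fderiv_le_div_of_mapsTo_ball (h1.mono hsub) h4 (by linarith)
  calc ‖fderiv ℂ (fun z => F n (Θ n z)) z‖ ≤ 2 / (a / 2) := h5
    _ = 4 / a := by field_simp; norm_num

theorem Frame.e1_pos (Φ : Frame E) : 0 < ‖Φ.e1‖ := by
  rw [norm_pos_iff]
  intro h0
  have := Φ.p1_e1
  rw [h0, map_zero] at this
  exact zero_ne_one this

/-- **Step J**: uniform lower bound of the derivative at the centre. -/
theorem stepJ (hNF : NormalForm Φ D r U N) (S : SqSeq D b F G)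
    (A : Sc Φ r b τ w Θ h C a a₁ c ζ₁) :
    ∃ c0 > 0, ∀ᶠ n in atTop, ∀ v,
      c0 * ‖v‖ ≤ ‖fderiv ℂ (fun z => F n (Θ n z)) 0 v‖ := by
  have ha := A.apos
  have he1 := Φ.e1_pos
  obtain ⟨cH, hcH, hH⟩ := stepH hNF S A
  obtain ⟨c1, hc1, hdet1⟩ := exists_det_lower (E := E) (4 / a) cH hcH
  -- upper bound for the determinant
  obtain ⟨CJ, hCJ⟩ : ∃ CJ : ℝ, ∀ A : E →L[ℂ] E, ‖A‖ ≤ 4 / a → ‖A.det‖ ≤ CJ := by
    have : ProperSpace (E →L[ℂ] E) := FiniteDimensional.proper ℂ _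
    obtain ⟨CJ, h⟩ := (isCompact_closedBall (0 : E →L[ℂ] E) (4 / a)).exists_bound_of_continuousOn
      (f := fun A : E →L[ℂ] E => A.det) continuous_det'.continuousOn
    exact ⟨CJ, fun A hA => h A (by simpa using hA)⟩
  set RJ : ℝ := a / (2 * ‖Φ.e1‖) with hRJ
  have hζ₁R : ‖ζ₁‖ < RJ := by
    rw [hRJ, lt_div_iff₀ (by positivity)]
    have := A.hζ₁
    nlinarith
  obtain ⟨c', hc', hB7⟩ := iB7 (a := RJ) (r := ‖ζ₁‖) (C := |CJ| + 1) (c := c1) (norm_nonneg _) hζ₁R
    (by positivity) hc1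
  obtain ⟨c0, hc0, hinj⟩ := exists_inj_lower (E := E) (4 / a) c' hc'
  refine ⟨c0, hc0, ?_⟩
  filter_upwards [hH, Fh_diff hNF S A, Fh_fderiv_bound hNF S A, ev_tube hNF S A, ev_delta hNF S]
    with n hHn hFh hbd htube hδ v
  obtain ⟨h1, h2, h3⟩ := hFh
  have hτ := A.τpos n
  have hline : ∀ ζ ∈ ball (0 : ℂ) RJ, ‖ζ • Φ.e1‖ < a / 2 := by
    intro ζ hζ
    rw [mem_ball_zero_iff, hRJ, lt_div_iff₀ (by positivity)] at hζ
    rw [norm_smul]
    linarith
  -- bijectivity of the derivative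
  have hinjd : ∀ z, ‖z‖ < a → ∀ v, fderiv ℂ (fun z => F n (Θ n z)) z v = 0 → v = 0 := by
    intro z hz v hv
    have hzD : Θ n z ∈ D := (htube z hz.le).1
    have e1 := S.hasFDerivAt_F hNF.openD (n := n) hzD
    have e2 : HasFDerivAt (Θ n) (fderiv ℂ (Θ n) z) z :=
      (((A.contDiff_Θ n).differentiable (by simp)).differentiableAt).hasFDerivAt
    have e3 : fderiv ℂ (fun z => F n (Θ n z)) z =
      (fderiv ℂ (F n) (Θ n z)).comp (fderiv ℂ (Θ n) z) := (e1.comp z e2).fderiv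
    rw [e3] at hv
    have hv' : fderiv ℂ (F n) (Θ n z) (fderiv ℂ (Θ n) z v) = 0 := hv
    have e4 := S.fderiv_GF (n := n) hNF.openD hzD (fderiv ℂ (Θ n) z v)
    rw [hv', map_zero] at e4
    have e5 : fderiv ℂ (ThetaInv Φ (b n) (τ n) (-(r (b n))) (w n)) (Θ n z)
        (fderiv ℂ (Θ n) z v) = v := by
      rw [A.Θdef n]; exact fderiv_ThetaInv_comp hτ hδ (A.wsm n) z v
    rw [← e4, map_zero] at e5
    exact e5.symm
  set J : ℂ → ℂ := fun ζ => (fderiv ℂ (fun z => F n (Θ n z)) (ζ • Φ.e1)).det with hJ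
  have hJd : DifferentiableOn ℂ J (ball 0 RJ) := by
    have e2 : DifferentiableOn ℂ (fderiv ℂ (fun z => F n (Θ n z))) (ball 0 a) :=
      differentiableOn_fderiv' isOpen_ball h1
    have e4 : DifferentiableOn ℂ (fun ζ : ℂ => ζ • Φ.e1) (ball 0 RJ) :=
      (differentiable_id.smul_const _).differentiableOn
    have e5 := e2.comp e4 (fun ζ hζ => by
      rw [mem_ball_zero_iff]; have := hline ζ hζ; linarith)
    have e6 := (differentiable_det (E := E)).comp_differentiableOn e5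
    exact e6
  have hJ1 : c1 ≤ ‖J ζ₁‖ := by
    apply hdet1 _ (hbd _ _) hHn
    rw [norm_smul]; have := A.hζ₁; linarith
  have hJ0 := hB7 J hJd (fun ζ hζ => by
    constructor
    · apply det_ne_zero_of_inj
      intro v hv
      exact hinjd _ (by have := hline ζ hζ; linarith) v hv
    · have := hCJ _ (hbd _ (hline ζ hζ).le)
      calc ‖J ζ‖ ≤ CJ := this
        _ ≤ |CJ| + 1 := by have := le_abs_self CJ; linarith) ζ₁ le_rfl hJ1
  have hz : (0 : ℂ) • Φ.e1 = 0 := zero_smul _ _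
  apply hinj _ (hbd 0 (by simp; positivity))
  simpa [hJ] using hJ0

end

end Pool.Agent.Sqz
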