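import Pool.Agent.Work.MP_0e9e72_an.EndB

set_option autoImplicit false
set_option linter.unusedSectionVars false

open Complex Metric Set Filter Topology
open scoped ContDiff

namespace Pool.Agent.Sqz

/-- second order Taylor bound -/
theorem taylor_two {E F : Type*} [NormedAddCommGroup E] [NormedSpace ℂ E] [NormedAddCommGroup F]
    [NormedSpace ℂ F] {f : E → F} {R : ℝ} (hf : DifferentiableOn ℂ f (ball 0 R))
    (h1 : ∀ z ∈ ball (0 : E) R, ‖f z‖ ≤ 1) (h0 : f 0 = 0) {z : E} (hz : z ∈ ball (0 : E) R) :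
    ‖f z - fderiv ℂ f 0 z‖ ≤ 2 * (‖z‖ / R) ^ 2 := by
  have hR : 0 < R := nonempty_ball.1 ⟨z, hz⟩
  have h0m : (0 : E) ∈ ball (0 : E) R := mem_ball_self hR
  have hd0 : DifferentiableAt ℂ f 0 := hf.differentiableAt (isOpen_ball.mem_nhds h0m)
  have hfd : ‖fderiv ℂ f 0‖ ≤ 1 / R := by
    apply Complex.norm_fderiv_le_div_of_mapsTo_ball hf _ hR
    intro w hw
    rw [h0, mem_closedBall_zero_iff]
    exact h1 w hw
  set g : E → F := fun z => f z - fderiv ℂ f 0 z with hg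
  have hg0 : g 0 = 0 := by simp [hg, h0]
  have hgd : DifferentiableOn ℂ g (ball 0 R) :=
    hf.sub (fderiv ℂ f 0).differentiable.differentiableOn
  have hgm : MapsTo g (ball 0 R) (closedBall (g 0) 2) := by
    intro w hw
    rw [hg0, mem_closedBall_zero_iff]
    have hw' : ‖w‖ < R := mem_ball_zero_iff.1 hw
    calc ‖g w‖ ≤ ‖f w‖ + ‖fderiv ℂ f 0 w‖ := norm_sub_le _ _
      _ ≤ 1 + ‖fderiv ℂ f 0‖ * ‖w‖ := add_le_add (h1 w hw) (ContinuousLinearMap.le_opNorm _ _)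
      _ ≤ 1 + 1 / R * R := by gcongr
      _ = 2 := by rw [one_div, inv_mul_cancel₀ hR.ne']; norm_num
  have hlo : (fun w => g w - g 0) =o[𝓝 0] (fun w : E => ‖w - 0‖ ^ 1) := by
    have := hd0.hasFDerivAt.isLittleO
    simp only [h0, sub_zero] at this
    simp only [hg, h0, map_zero, sub_zero, pow_one]
    exact this.norm_right
  have := Complex.dist_le_mul_div_pow_of_mapsTo_ball_of_isLittleO (n := 1) hgd hgm hlo hz
  rw [hg0, dist_zero_right, dist_zero_right] at this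
  exact this

section
variable {E : Type} [NormedAddCommGroup E] [InnerProductSpace ℂ E] [FiniteDimensional ℂ E]
variable {D : Set E} {b : ℕ → E} {F G : ℕ → E → E}
variable {Φ : Frame E} {r : E → ℝ} {U : Set E} {N : ℕ}
variable {τ : ℕ → ℝ} {w : ℕ → ℂ → ℂ} {Θ : ℕ → E → E} {h : ℂ → ℝ} {C a a₁ c : ℝ} {ζ₁ : ℂ}

/-- **Step B** -/
theorem stepB (hNF : NormalForm Φ D r U N) (S : SqSeq D b F G)
    (A : Sc Φ r b τ w Θ h C a a₁ c ζ₁) :
    ∃ cB > 0, cB < 1 / 2 ∧ ∀ᶠ n in atTop, ∀ y, ‖y‖ ≤ cB → -(r (b n)) / 2 ≤ -(r (G n y)) := by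
  have ha := A.apos
  obtain ⟨c0, hc0, hJ⟩ := stepJ hNF S A
  set ε : ℝ := min (a / 2) (c0 * a ^ 2 / 4) with hε
  have hεpos : 0 < ε := by rw [hε]; positivity
  have hεa : ε < a := lt_of_le_of_lt (min_le_left _ _) (by linarith)
  have hε2 : ε ≤ c0 * a ^ 2 / 4 := min_le_right _ _
  set cB : ℝ := min (c0 * ε / 4) (1 / 4) with hcB
  have hcBpos : 0 < cB := by rw [hcB]; positivity
  have hcB1 : cB ≤ c0 * ε / 4 := min_le_left _ _
  have hcB2 : cB ≤ 1 / 4 := min_le_right _ _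
  refine ⟨cB, hcBpos, by linarith, ?_⟩
  filter_upwards [hJ, Fh_diff hNF S A, ev_tube hNF S A, ev_delta hNF S,
    eventually_ball_subset S (show (3/4 : ℝ) < 1 by norm_num)] with n hJn hFh htube hδ hsurj y hy
  obtain ⟨h1, h2, h3⟩ := hFh
  have hτ := A.τpos n
  have hw := A.wsm n
  set Ti : E → E := ThetaInv Φ (b n) (τ n) (-(r (b n))) (w n) with hTi
  have hTiΘ : ∀ z, Ti (Θ n z) = z := by
    intro z; rw [A.Θdef n]; exact ThetaInv_Theta hτ hδ z
  have hΘTi : ∀ z, Θ n (Ti z) = z := by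
    intro z; rw [A.Θdef n]; exact Theta_ThetaInv hτ hδ z
  have hTis : ContDiff ℂ ∞ Ti := contDiff_ThetaInv hw
  -- lower bound on the sphere of radius `ε`
  have hsph : ∀ z, ‖z‖ = ε → c0 * ε / 2 ≤ ‖F n (Θ n z)‖ := by
    intro z hz
    have hzm : z ∈ ball (0 : E) a := by rw [mem_ball_zero_iff, hz]; exact hεa
    have e1 := taylor_two h1 (fun w hw => (mem_ball_zero_iff.1 (h2 hw)).le) h3 hzm
    have e2 := hJn z
    have e3 : ‖fderiv ℂ (fun z => F n (Θ n z)) 0 z‖ ≤ ‖F n (Θ n z)‖ +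
        ‖F n (Θ n z) - fderiv ℂ (fun z => F n (Θ n z)) 0 z‖ := by
      calc ‖fderiv ℂ (fun z => F n (Θ n z)) 0 z‖ =
          ‖F n (Θ n z) - (F n (Θ n z) - fderiv ℂ (fun z => F n (Θ n z)) 0 z)‖ := by
            congr 1; abel
        _ ≤ _ := norm_sub_le _ _
    rw [hz] at e1 e2
    have e4 : 2 * (ε / a) ^ 2 ≤ c0 * ε / 2 := by
      rw [div_pow, mul_div_assoc', div_le_iff₀ (by positivity)]
      calc 2 * ε ^ 2 = 2 * ε * ε := by ring
        _ ≤ 2 * ε * (c0 * a ^ 2 / 4) := by gcongr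
        _ = c0 * ε / 2 * a ^ 2 := by ring
    linarith
  -- the path
  have hpath : ContinuousOn (fun t : ℝ => ‖Ti (G n ((t : ℂ) • y))‖) (Icc 0 1) := by
    apply ContinuousOn.norm
    apply hTis.continuous.comp_continuousOn
    apply (S.hG n).continuousOn.comp
    · exact ((continuous_ofReal).smul continuous_const).continuousOn
    · intro t ht
      apply hsurj
      rw [mem_closedBall_zero_iff, norm_smul, Complex.norm_real, Real.norm_of_nonneg ht.1]
      have := ht.2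
      nlinarith [norm_nonneg y]
  have hne : ∀ t ∈ Icc (0 : ℝ) 1, ‖Ti (G n ((t : ℂ) • y))‖ ≠ ε := by
    intro t ht heq
    have e1 := hsph _ heq
    rw [hΘTi] at e1
    have hmem : (t : ℂ) • y ∈ F n '' D := by
      apply hsurj
      rw [mem_closedBall_zero_iff, norm_smul, Complex.norm_real, Real.norm_of_nonneg ht.1]
      have := ht.2
      nlinarith [norm_nonneg y]
    rw [(S.G_mem hmem).2, norm_smul, Complex.norm_real, Real.norm_of_nonneg ht.1] at e1
    have e2 : t * ‖y‖ ≤ cB := by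
      have := ht.2
      nlinarith [norm_nonneg y]
    have e3 : 0 < c0 * ε := by positivity
    linarith
  have h00 : ‖Ti (G n (((0 : ℝ) : ℂ) • y))‖ = 0 := by
    rw [Complex.ofReal_zero, zero_smul, S.G_zero, ← A.Θ_zero n, hTiΘ, norm_zero]
  have hlt : ‖Ti (G n (((1 : ℝ) : ℂ) • y))‖ < ε := by
    by_contra hcon
    push Not at hcon
    have := intermediate_value_Icc (zero_le_one) hpath
    rw [h00] at this
    obtain ⟨t, ht, hte⟩ := this ⟨hεpos.le, hcon⟩
    exact hne t ht hte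
  rw [Complex.ofReal_one, one_smul] at hlt
  have := (htube (Ti (G n y)) (by linarith)).2.1
  rwa [hΘTi] at this

/-- **Step C** -/
theorem stepC (hNF : NormalForm Φ D r U N) (S : SqSeq D b F G)
    (A : Sc Φ r b τ w Θ h C a a₁ c ζ₁) :
    ∃ C3 > 0, ∀ ρ : ℝ, 1 / 2 ≤ ρ → ρ < 1 → ∀ᶠ n in atTop, ∀ y, ‖y‖ < ρ →
      ρ - ‖y‖ ≤ C3 * ((-(r (G n y))) / (-(r (b n)))) ^ (5 / 6 : ℝ) := by
  obtain ⟨K, ρ1, cd, hDF⟩ := hNF.exists_DF
  obtain ⟨cB, hcB, hcB2, hB⟩ := stepB hNF S A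
  set m0 : ℝ := (1 / 2 * Real.exp (-(K * ρ1 ^ 2))) ^ (5 / 6 : ℝ) with hm0
  have hm0pos : 0 < m0 := by rw [hm0]; positivity
  have hlogc : 0 < Real.log (1 / cB) := by
    apply Real.log_pos
    rw [lt_div_iff₀ hcB]; linarith
  refine ⟨max 2 (Real.log (1 / cB) / m0), by positivity, fun ρ hρ1 hρ2 => ?_⟩
  filter_upwards [hB, ev_delta hNF S, eventually_ball_subset S hρ2,
    localization hNF S hρ2 hDF.ρpos] with n hBn hδ hsurj hloc y hy
  set δ : ℝ := -(r (b n)) with hδdef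
  have hy' : y ∈ F n '' D := hsurj (by rw [mem_closedBall_zero_iff]; exact hy.le)
  have hmemD : ∀ x, ‖x‖ ≤ ρ → G n x ∈ D ∧ G n x ∈ ball (0 : E) ρ1 ∧ r (G n x) < 0 := by
    intro x hx
    have e1 : x ∈ F n '' D := hsurj (by rw [mem_closedBall_zero_iff]; exact hx)
    have e2 := (S.G_mem e1).1
    have e3 : G n x ∈ ball (0 : E) ρ1 := by rw [mem_ball_zero_iff]; exact hloc x hx
    exact ⟨e2, e3, hNF.neg_of_mem e2 (hDF.sub e3)⟩
  have hry : 0 < -(r (G n y)) := by have := (hmemD y hy.le).2.2; linarith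
  have hpow0 : 0 < ((-(r (G n y))) / δ) ^ (5 / 6 : ℝ) := Real.rpow_pos_of_pos (by positivity) _
  by_cases hyc : ‖y‖ < cB
  · have e1 := hBn y hyc.le
    have e2 : (1 / 2 : ℝ) ≤ ((-(r (G n y))) / δ) := by
      rw [le_div_iff₀ hδ]; linarith
    have e3 : (1 / 2 : ℝ) ≤ ((-(r (G n y))) / δ) ^ (5 / 6 : ℝ) := by
      calc (1 / 2 : ℝ) = (1 / 2 : ℝ) ^ (1 : ℝ) := by rw [Real.rpow_one]
        _ ≤ (1 / 2 : ℝ) ^ (5 / 6 : ℝ) :=
            Real.rpow_le_rpow_of_exponent_ge (by norm_num) (by norm_num) (by norm_num)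
        _ ≤ _ := Real.rpow_le_rpow (by norm_num) e2 (by norm_num)
    calc ρ - ‖y‖ ≤ 1 := by linarith [norm_nonneg y]
      _ ≤ 2 * ((-(r (G n y))) / δ) ^ (5 / 6 : ℝ) := by linarith
      _ ≤ _ := by gcongr; exact le_max_left _ _
  · push Not at hyc
    have hypos : 0 < ‖y‖ := lt_of_lt_of_le hcB hyc
    set u : E := ((‖y‖ : ℂ)⁻¹) • y with hu
    have hun : ‖u‖ = 1 := by
      simp only [hu, norm_smul, norm_inv, Complex.norm_real, norm_norm]
      exact inv_mul_cancel₀ hypos.ne'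
    set g : ℂ → E := fun ξ => G n (ξ • u) with hg
    have hgd : DifferentiableOn ℂ g (ball 0 ρ) := by
      have h1 : DifferentiableOn ℂ (fun ξ : ℂ => ξ • u) (ball 0 ρ) :=
        (differentiable_id.smul_const u).differentiableOn
      exact (S.hG n).comp h1 (fun ξ hξ => hsurj (by
        rw [mem_closedBall_zero_iff, norm_smul, hun, mul_one]
        exact (mem_ball_zero_iff.1 hξ).le))
    have hgm : ∀ ξ ∈ ball (0 : ℂ) ρ, g ξ ∈ ball (0 : E) ρ1 ∧ r (g ξ) < 0 := by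
      intro ξ hξ
      exact (hmemD (ξ • u) (by
        rw [norm_smul, hun, mul_one]
        exact (mem_ball_zero_iff.1 hξ).le)).2
    have hδ56 : 0 < δ ^ (5 / 6 : ℝ) := Real.rpow_pos_of_pos hδ _
    have hdisc : ∀ ξ ∈ ball (0 : ℂ) ρ, ContDiffAt ℝ 2 (fun ξ => -dfun r K (g ξ)) ξ ∧
        Lev (fun ξ => -dfun r K (g ξ)) ξ 1 ≤ 0 := fun ξ hξ =>
      hDF.disc isOpen_ball hgd (fun ξ hξ => (hgm ξ hξ).1) (fun ξ hξ => (hgm ξ hξ).2) hξ
    have key := iB2 (s := fun ξ => -dfun r K (g ξ)) (c := 0) (r := cB) (R := ρ)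
      (m := m0 * δ ^ (5 / 6 : ℝ)) hcB (by linarith) (fun z hz => (hdisc z hz).1)
      (fun z hz => (hdisc z hz).2)
      (fun z hz => by have := dfun_neg K (hgm z hz).2; linarith) (by positivity)
      (fun z hz => by
        rw [dist_zero_right] at hz
        have hzρ : z ∈ ball (0 : ℂ) ρ := by rw [mem_ball_zero_iff, hz]; linarith
        have e1 := hBn (z • u) (by rw [norm_smul, hun, mul_one, hz])
        have e2 := hgm z hzρ
        have e3 : ‖g z‖ < ρ1 := mem_ball_zero_iff.1 e2.1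
        simp only [dfun, neg_neg]
        rw [hm0, ← Real.mul_rpow (by positivity) hδ.le]
        apply Real.rpow_le_rpow (by positivity) _ (by norm_num)
        have e4 : δ / 2 ≤ -(r (g z)) := e1
        have e5 : Real.exp (-(K * ρ1 ^ 2)) ≤ Real.exp (-(K * ‖g z‖ ^ 2)) := by
          apply Real.exp_le_exp.2
          have := hDF.Kpos
          have : K * ‖g z‖ ^ 2 ≤ K * ρ1 ^ 2 := by gcongr
          linarith
        calc 1 / 2 * Real.exp (-(K * ρ1 ^ 2)) * δ = (δ / 2) * Real.exp (-(K * ρ1 ^ 2)) := by ring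
          _ ≤ -(r (g z)) * Real.exp (-(K * ‖g z‖ ^ 2)) :=
              mul_le_mul e4 e5 (Real.exp_pos _).le (by linarith))
    have hyn : ‖((‖y‖ : ℝ) : ℂ)‖ = ‖y‖ := by rw [Complex.norm_real, norm_norm]
    have k1 := key ((‖y‖ : ℝ) : ℂ) (by rw [dist_zero_right, hyn]; exact hyc)
      (by rw [dist_zero_right, hyn]; exact hy)
    rw [dist_zero_right, hyn] at k1
    have hgy : g ((‖y‖ : ℝ) : ℂ) = G n y := by
      simp only [hg, hu, smul_smul]
      rw [mul_inv_cancel₀, one_smul]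
      exact_mod_cast hypos.ne'
    simp only [hgy] at k1
    have k2 : -dfun r K (G n y) ≤ (-(r (G n y))) ^ (5 / 6 : ℝ) := by
      simp only [dfun, neg_neg]
      apply Real.rpow_le_rpow (by positivity) _ (by norm_num)
      calc -(r (G n y)) * Real.exp (-(K * ‖G n y‖ ^ 2)) ≤ -(r (G n y)) * 1 := by
            apply mul_le_mul_of_nonneg_left _ hry.le
            rw [Real.exp_le_one_iff]
            have := hDF.Kpos
            have : 0 ≤ K * ‖G n y‖ ^ 2 := by positivity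
            linarith
        _ = _ := mul_one _
    have k3 : ((-(r (G n y))) / δ) ^ (5 / 6 : ℝ) = (-(r (G n y))) ^ (5 / 6 : ℝ) / δ ^ (5 / 6 : ℝ) :=
      Real.div_rpow hry.le hδ.le _
    have hlogρ : 0 < Real.log (ρ / cB) := by
      apply Real.log_pos
      rw [lt_div_iff₀ hcB]; linarith
    have hlogle : Real.log (ρ / cB) ≤ Real.log (1 / cB) := by
      apply Real.log_le_log (by positivity)
      gcongr
    have hlogy : ρ - ‖y‖ ≤ Real.log (ρ / ‖y‖) := by
      have e1 := Real.one_sub_inv_le_log_of_pos (show 0 < ρ / ‖y‖ by positivity)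
      rw [inv_div] at e1
      have e2 : ρ - ‖y‖ ≤ 1 - ‖y‖ / ρ := by
        have hρ0 : 0 < ρ := by linarith
        rw [le_sub_iff_add_le, ← le_sub_iff_add_le', div_le_iff₀ hρ0]
        nlinarith [norm_nonneg y]
      linarith
    -- combine
    have k4 : m0 * (Real.log (ρ / ‖y‖) / Real.log (ρ / cB)) ≤
        ((-(r (G n y))) / δ) ^ (5 / 6 : ℝ) := by
      rw [k3, le_div_iff₀ hδ56]
      calc m0 * (Real.log (ρ / ‖y‖) / Real.log (ρ / cB)) * δ ^ (5 / 6 : ℝ)
          = m0 * δ ^ (5 / 6 : ℝ) * (Real.log (ρ / ‖y‖) / Real.log (ρ / cB)) := by ring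
        _ ≤ _ := k1.trans k2
    have k5 : ρ - ‖y‖ ≤ Real.log (1 / cB) / m0 * ((-(r (G n y))) / δ) ^ (5 / 6 : ℝ) := by
      calc ρ - ‖y‖ ≤ Real.log (ρ / ‖y‖) := hlogy
        _ = Real.log (ρ / cB) / m0 * (m0 * (Real.log (ρ / ‖y‖) / Real.log (ρ / cB))) := by
            field_simp
        _ ≤ Real.log (ρ / cB) / m0 * ((-(r (G n y))) / δ) ^ (5 / 6 : ℝ) := by gcongr
        _ ≤ _ := by gcongr
    refine k5.trans ?_
    gcongr
    exact le_max_right _ _

end

end Pool.Agent.Sqz
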