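import Pool.Agent.Work.MP_0e9e72_an.EndC
import Pool.Agent.Work.MP_0e9e72_an.B5
import Pool.Agent.Work.MP_0e9e72_an.B6

set_option autoImplicit false
set_option linter.unusedSectionVars false

open Complex Metric Set Filter Topology
open scoped ContDiff

namespace Pool.Agent.Sqz

section
variable {E : Type} [NormedAddCommGroup E] [InnerProductSpace ℂ E] [FiniteDimensional ℂ E]
variable {D : Set E} {b : ℕ → E} {F G : ℕ → E → E}
variable {Φ : Frame E} {r : E → ℝ} {U : Set E} {N : ℕ}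
variable {τ : ℕ → ℝ} {w : ℕ → ℂ → ℂ} {Θ : ℕ → E → E} {h : ℂ → ℝ} {C a a₁ c : ℝ} {ζ₁ : ℂ}

/-- the key quantitative estimate: for every `t0` the derivative at the centre is small -/
theorem stepD (hNF : NormalForm Φ D r U N) (S : SqSeq D b F G)
    (A : Sc Φ r b τ w Θ h C a a₁ c ζ₁) :
    ∃ M > 0, ∀ t0 : ℝ, 0 < t0 → t0 ≤ 1 / 2 → ∀ᶠ n in atTop,
      ‖fderiv ℂ (fun z => F n (Θ n z)) 0 Φ.e1‖ ^ 4 ≤
        (Real.sqrt (2 * M)) ^ 3 * Real.sqrt (M * t0 ^ (1 / 6 : ℝ)) := by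
  obtain ⟨C3, hC3, hC⟩ := stepC hNF S A
  obtain ⟨ρU, hρU, hsubU⟩ := Metric.isOpen_iff.1 hNF.openU 0 hNF.zeroU
  set c5 : ℝ := 1 / (2 * (|C| + 1)) with hc5
  have hC0 : 0 ≤ |C| := abs_nonneg C
  have hc5pos : 0 < c5 := by rw [hc5]; positivity
  have hc5half : c5 ≤ 1 / 2 := by
    rw [hc5]
    apply one_div_le_one_div_of_le (by norm_num)
    linarith
  have hc5C : |C| * c5 ^ 3 ≤ 1 / 4 := by
    have e1 : |C| * c5 ≤ 1 / 2 := by
      rw [hc5, mul_one_div, div_le_iff₀ (by positivity)]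
      linarith
    have e2 : c5 ^ 2 ≤ 1 / 4 := by nlinarith
    calc |C| * c5 ^ 3 = (|C| * c5) * c5 ^ 2 := by ring
      _ ≤ (1 / 2) * (1 / 4) := by gcongr
      _ ≤ 1 / 4 := by norm_num
  set C4 : ℝ := 2 + 2 * C3 with hC4
  have hC4pos : 0 < C4 := by rw [hC4]; positivity
  refine ⟨2 * C4 / c5 ^ 2, by positivity, fun t0 ht0 ht1 => ?_⟩
  set M : ℝ := 2 * C4 / c5 ^ 2 with hM
  have hMpos : 0 < M := by rw [hM]; positivity
  filter_upwards [hC (1 - t0) (by linarith) (by linarith), ev_delta hNF S,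
    A.slice 2 (t0 / 4) (by positivity), A.small (‖Φ.e1‖ + 2 * ‖Φ.ew‖) ρU hρU]
    with n hCn hδ hslice hsmall
  set δ : ℝ := -(r (b n)) with hδdef
  have hΘc : Continuous (Θ n) := (A.contDiff_Θ n).continuous
  have hΘd : Differentiable ℂ (Θ n) := (A.contDiff_Θ n).differentiable (by simp)
  set Fh : E → E := fun z => F n (Θ n z) with hFh
  set V : Set E := Θ n ⁻¹' D with hV
  have hVo : IsOpen V := hNF.openD.preimage hΘc
  have hFhd : DifferentiableOn ℂ Fh V :=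
    (S.hF n).comp hΘd.differentiableOn (fun z hz => hz)
  have hFhm : ∀ z ∈ V, ‖Fh z‖ < 1 := fun z hz => mem_ball_zero_iff.1 (S.maps n hz)
  -- membership in `V`
  have hinV : ∀ ζ ξ : ℂ, ‖ζ‖ ≤ 1 → ‖ξ‖ ≤ 2 → |h ζ| + t0 / 4 + ξ.re < 1 →
      ζ • Φ.e1 + ξ • Φ.ew ∈ V ∧
        -(r (Θ n (ζ • Φ.e1 + ξ • Φ.ew))) / δ ≤ 1 - ξ.re + |h ζ| + t0 / 4 := by
    intro ζ ξ hζ hξ hlt
    have e1 := abs_le.1 (hslice ζ ξ hζ hξ)
    have e2 := abs_le.1 (le_refl |h ζ|)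
    have e3 : r (Θ n (ζ • Φ.e1 + ξ • Φ.ew)) / δ < 0 := by linarith
    have e4 : r (Θ n (ζ • Φ.e1 + ξ • Φ.ew)) < 0 := by
      by_contra hcon
      push Not at hcon
      have := div_nonneg hcon hδ.le
      linarith
    have e5 : ‖ζ • Φ.e1 + ξ • Φ.ew‖ ≤ ‖Φ.e1‖ + 2 * ‖Φ.ew‖ := by
      calc ‖ζ • Φ.e1 + ξ • Φ.ew‖ ≤ ‖ζ • Φ.e1‖ + ‖ξ • Φ.ew‖ := norm_add_le _ _
        _ = ‖ζ‖ * ‖Φ.e1‖ + ‖ξ‖ * ‖Φ.ew‖ := by rw [norm_smul, norm_smul]
        _ ≤ 1 * ‖Φ.e1‖ + 2 * ‖Φ.ew‖ := by gcongr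
        _ = _ := by ring
    refine ⟨?_, ?_⟩
    · apply hNF.mem_of_neg _ e4
      apply hsubU
      rw [mem_ball_zero_iff]
      exact hsmall _ e5
    · rw [neg_div]; linarith
  have hh0 : h 0 = 0 := by
    have := A.cubic 0 (by simp)
    simpa using this
  -- the one-variable function
  set f : ℂ → E := fun ξ => fderiv ℂ Fh (ξ • Φ.ew) Φ.e1 with hf
  set Ω : Set ℂ := {ξ | ξ • Φ.ew ∈ V} with hΩ
  have hΩo : IsOpen Ω := hVo.preimage (continuous_id.smul continuous_const)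
  have hfd : DifferentiableOn ℂ f Ω := by
    have e1 : DifferentiableOn ℂ (fderiv ℂ Fh) V := differentiableOn_fderiv' hVo hFhd
    have e2 : DifferentiableOn ℂ (fun ξ : ℂ => ξ • Φ.ew) Ω :=
      (differentiable_id.smul_const _).differentiableOn
    have e3 := e1.comp e2 (fun ξ hξ => hξ)
    exact e3.clm_apply (differentiableOn_const _)
  have hsq : ∀ z : ℂ, |z.re| ≤ 1 - t0 → |z.im| ≤ 1 - t0 → ‖z‖ ≤ 2 := by
    intro z h1 h2
    calc ‖z‖ ≤ |z.re| + |z.im| := Complex.norm_le_abs_re_add_abs_im z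
      _ ≤ 2 := by linarith
  have hmain : ∀ z : ℂ, |z.re| ≤ 1 - t0 → |z.im| ≤ 1 - t0 → z ∈ Ω ∧
      ‖f z‖ ^ 2 ≤ M * (1 - z.re) ^ (1 / 6 : ℝ) := by
    intro z h1 h2
    have hz2 := hsq z h1 h2
    set t : ℝ := 1 - z.re with ht
    have htt0 : t0 ≤ t := by have := (abs_le.1 h1).2; rw [ht]; linarith
    have htpos : 0 < t := by linarith
    have ht2 : t ≤ 2 := by have := (abs_le.1 h1).1; rw [ht]; linarith
    have hz0 := hinV 0 z (by simp) hz2 (by rw [hh0, abs_zero]; linarith)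
    rw [zero_smul, zero_add] at hz0
    refine ⟨hz0.1, ?_⟩
    -- the image point
    set y : E := Fh (z • Φ.ew) with hy
    have hy1 : ‖y‖ < 1 := hFhm _ hz0.1
    have hGy : G n y = Θ n (z • Φ.ew) := S.GF n _ hz0.1
    have ht56 : 0 < t ^ (5 / 6 : ℝ) := Real.rpow_pos_of_pos htpos _
    have htle : t ≤ 2 * t ^ (5 / 6 : ℝ) := by
      have e1 : t = t ^ (5 / 6 : ℝ) * t ^ (1 / 6 : ℝ) := by
        rw [← Real.rpow_add htpos]; norm_num
      have e2 : t ^ (1 / 6 : ℝ) ≤ 2 := by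
        calc t ^ (1 / 6 : ℝ) ≤ 2 ^ (1 / 6 : ℝ) := Real.rpow_le_rpow htpos.le ht2 (by norm_num)
          _ ≤ 2 ^ (1 : ℝ) := Real.rpow_le_rpow_of_exponent_le (by norm_num) (by norm_num)
          _ = 2 := Real.rpow_one 2
      calc t = t ^ (5 / 6 : ℝ) * t ^ (1 / 6 : ℝ) := e1
        _ ≤ t ^ (5 / 6 : ℝ) * 2 := by gcongr
        _ = _ := by ring
    have hbd : 1 - ‖y‖ ≤ C4 * t ^ (5 / 6 : ℝ) := by
      by_cases hyρ : ‖y‖ < 1 - t0
      · have e1 := hCn y hyρ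
        rw [hGy] at e1
        have e2 : -(r (Θ n (z • Φ.ew))) / δ ≤ 2 * t := by
          have := hz0.2
          rw [hh0, abs_zero] at this
          linarith
        have e3 : 0 ≤ -(r (Θ n (z • Φ.ew))) / δ := by
          apply div_nonneg _ hδ.le
          have hU : Θ n (z • Φ.ew) ∈ U := by
            apply hsubU
            rw [mem_ball_zero_iff]
            apply hsmall
            rw [norm_smul]
            have := norm_nonneg Φ.e1
            have : ‖z‖ * ‖Φ.ew‖ ≤ 2 * ‖Φ.ew‖ := by gcongr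
            linarith
          have := hNF.neg_of_mem hz0.1 hU
          linarith
        have e4 : (-(r (Θ n (z • Φ.ew))) / δ) ^ (5 / 6 : ℝ) ≤ 2 * t ^ (5 / 6 : ℝ) := by
          calc (-(r (Θ n (z • Φ.ew))) / δ) ^ (5 / 6 : ℝ) ≤ (2 * t) ^ (5 / 6 : ℝ) :=
                Real.rpow_le_rpow e3 e2 (by norm_num)
            _ = 2 ^ (5 / 6 : ℝ) * t ^ (5 / 6 : ℝ) := Real.mul_rpow (by norm_num) htpos.le
            _ ≤ (2 : ℝ) ^ (1 : ℝ) * t ^ (5 / 6 : ℝ) :=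
                mul_le_mul_of_nonneg_right
                  (Real.rpow_le_rpow_of_exponent_le (by norm_num) (by norm_num)) ht56.le
            _ = _ := by rw [Real.rpow_one]
        have e5 : C3 * (-(r (Θ n (z • Φ.ew))) / δ) ^ (5 / 6 : ℝ) ≤
            C3 * (2 * t ^ (5 / 6 : ℝ)) := by gcongr
        calc 1 - ‖y‖ = (1 - t0 - ‖y‖) + t0 := by ring
          _ ≤ C3 * (2 * t ^ (5 / 6 : ℝ)) + 2 * t ^ (5 / 6 : ℝ) := by linarith
          _ = C4 * t ^ (5 / 6 : ℝ) := by rw [hC4]; ring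
      · push Not at hyρ
        calc 1 - ‖y‖ ≤ t := by linarith
          _ ≤ 2 * t ^ (5 / 6 : ℝ) := htle
          _ ≤ C4 * t ^ (5 / 6 : ℝ) := by rw [hC4]; gcongr; linarith
    -- the disc
    set R : ℝ := c5 * t ^ (1 / 3 : ℝ) with hR
    have hRpos : 0 < R := by rw [hR]; positivity
    have hR1 : R ≤ 1 := by
      have e2 : t ^ (1 / 3 : ℝ) ≤ 2 := by
        calc t ^ (1 / 3 : ℝ) ≤ 2 ^ (1 / 3 : ℝ) := Real.rpow_le_rpow htpos.le ht2 (by norm_num)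
          _ ≤ 2 ^ (1 : ℝ) := Real.rpow_le_rpow_of_exponent_le (by norm_num) (by norm_num)
          _ = 2 := Real.rpow_one 2
      calc R ≤ (1 / 2) * 2 := by rw [hR]; gcongr
        _ = 1 := by norm_num
    have hR3 : R ^ 3 = c5 ^ 3 * t := by
      rw [hR, mul_pow]
      congr 1
      rw [← Real.rpow_natCast, ← Real.rpow_mul htpos.le]
      norm_num
    have hdiscV : ∀ ζ ∈ ball (0 : ℂ) R, ζ • Φ.e1 + z • Φ.ew ∈ V := by
      intro ζ hζ
      have hζR : ‖ζ‖ < R := mem_ball_zero_iff.1 hζ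
      have hζ1 : ‖ζ‖ ≤ 1 := by linarith
      have e1 := A.cubic ζ hζ1
      have e2 : C * ‖ζ‖ ^ 3 ≤ t / 4 := by
        calc C * ‖ζ‖ ^ 3 ≤ |C| * R ^ 3 := by
              have := le_abs_self C
              gcongr
          _ = (|C| * c5 ^ 3) * t := by rw [hR3]; ring
          _ ≤ (1 / 4) * t := by gcongr
          _ = t / 4 := by ring
      refine (hinV ζ z hζ1 hz2 ?_).1
      have : z.re = 1 - t := by rw [ht]; ring
      rw [this]; linarith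
    have hgd : DifferentiableOn ℂ (fun ζ : ℂ => Fh (ζ • Φ.e1 + z • Φ.ew)) (ball 0 R) := by
      have e1 : DifferentiableOn ℂ (fun ζ : ℂ => ζ • Φ.e1 + z • Φ.ew) (ball 0 R) :=
        ((differentiable_id.smul_const _).add_const _).differentiableOn
      exact hFhd.comp e1 hdiscV
    have hgm : MapsTo (fun ζ : ℂ => Fh (ζ • Φ.e1 + z • Φ.ew)) (ball 0 R) (ball 0 1) :=
      fun ζ hζ => mem_ball_zero_iff.2 (hFhm _ (hdiscV ζ hζ))
    have hder : deriv (fun ζ : ℂ => Fh (ζ • Φ.e1 + z • Φ.ew)) 0 = f z := by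
      have e1 : HasDerivAt (fun ζ : ℂ => ζ • Φ.e1 + z • Φ.ew) Φ.e1 0 := by
        simpa using ((hasDerivAt_id (0 : ℂ)).smul_const Φ.e1).add_const (z • Φ.ew)
      have e2 : HasFDerivAt Fh (fderiv ℂ Fh (z • Φ.ew)) ((0 : ℂ) • Φ.e1 + z • Φ.ew) := by
        rw [zero_smul, zero_add]
        exact (hFhd.differentiableAt (hVo.mem_nhds hz0.1)).hasFDerivAt
      exact (e2.comp_hasDerivAt (0 : ℂ) e1).deriv
    have k1 := iB5 hRpos hgd hgm
    rw [hder] at k1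
    simp only [zero_smul, zero_add] at k1
    have k2 : R ^ 2 * ‖f z‖ ^ 2 ≤ 2 * (C4 * t ^ (5 / 6 : ℝ)) := by
      have e1 : 1 - ‖y‖ ^ 2 ≤ 2 * (1 - ‖y‖) := by nlinarith [sq_nonneg (1 - ‖y‖)]
      have e2 : ‖y‖ ^ 2 + R ^ 2 * ‖f z‖ ^ 2 ≤ 1 := k1
      linarith
    have hR2 : R ^ 2 = c5 ^ 2 * t ^ (2 / 3 : ℝ) := by
      rw [hR, mul_pow]
      congr 1
      rw [← Real.rpow_natCast, ← Real.rpow_mul htpos.le]
      norm_num
    have ht23 : 0 < t ^ (2 / 3 : ℝ) := Real.rpow_pos_of_pos htpos _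
    have k3 : t ^ (5 / 6 : ℝ) = t ^ (2 / 3 : ℝ) * t ^ (1 / 6 : ℝ) := by
      rw [← Real.rpow_add htpos]; norm_num
    rw [hR2, k3] at k2
    have k4 : t ^ (2 / 3 : ℝ) * (c5 ^ 2 * ‖f z‖ ^ 2) ≤
        t ^ (2 / 3 : ℝ) * (2 * C4 * t ^ (1 / 6 : ℝ)) := by linarith
    have k5 := le_of_mul_le_mul_left k4 ht23
    rw [hM, div_mul_eq_mul_div, le_div_iff₀ (by positivity)]
    linarith
  have hsqrtM : 0 ≤ Real.sqrt (2 * M) := Real.sqrt_nonneg _
  have k := iB6 (f := f) (Ω := Ω) hΩo hfd (s := 1 - t0) (A := Real.sqrt (2 * M))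
    (B := Real.sqrt (M * t0 ^ (1 / 6 : ℝ))) (by linarith)
    (fun z h1 h2 => (hmain z h1 h2).1)
    (fun z h1 h2 => by
      apply Real.le_sqrt_of_sq_le
      refine (hmain z h1 h2).2.trans ?_
      have e0 : 0 ≤ 1 - z.re := by have := (abs_le.1 h1).2; linarith
      have e1 : 1 - z.re ≤ 2 := by have := (abs_le.1 h1).1; linarith
      have e2 : (1 - z.re) ^ (1 / 6 : ℝ) ≤ 2 := by
        calc (1 - z.re) ^ (1 / 6 : ℝ) ≤ 2 ^ (1 / 6 : ℝ) := Real.rpow_le_rpow e0 e1 (by norm_num)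
          _ ≤ 2 ^ (1 : ℝ) := Real.rpow_le_rpow_of_exponent_le (by norm_num) (by norm_num)
          _ = 2 := Real.rpow_one 2
      calc M * (1 - z.re) ^ (1 / 6 : ℝ) ≤ M * 2 := by gcongr
        _ = 2 * M := by ring)
    (fun z h1 h2 => by
      apply Real.le_sqrt_of_sq_le
      have e1 := (hmain z (by rw [h1, abs_of_nonneg (by linarith)]) h2).2
      rw [h1] at e1
      have e2 : 1 - (1 - t0) = t0 := by ring
      rwa [e2] at e1)
  have hf0 : f 0 = fderiv ℂ Fh 0 Φ.e1 := by simp only [hf, zero_smul]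
  rwa [hf0] at k

/-- The endgame. -/
theorem endgame (hNF : NormalForm Φ D r U N) (S : SqSeq D b F G)
    (A : Sc Φ r b τ w Θ h C a a₁ c ζ₁) : False := by
  obtain ⟨c0, hc0, hJ⟩ := stepJ hNF S A
  obtain ⟨M, hM, hD⟩ := stepD hNF S A
  have he1 := Φ.e1_pos
  have hpos : 0 < (c0 * ‖Φ.e1‖) ^ 4 := by positivity
  -- choose `t0`
  have hlim : Tendsto (fun t0 : ℝ => (Real.sqrt (2 * M)) ^ 3 * Real.sqrt (M * t0 ^ (1 / 6 : ℝ)))
      (𝓝[>] 0) (𝓝 0) := by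
    have hcont : Continuous (fun t0 : ℝ => (Real.sqrt (2 * M)) ^ 3 *
        Real.sqrt (M * t0 ^ (1 / 6 : ℝ))) := by
      apply Continuous.mul continuous_const
      apply Real.continuous_sqrt.comp
      apply Continuous.mul continuous_const
      exact Real.continuous_rpow_const (by norm_num)
    have h0 : (Real.sqrt (2 * M)) ^ 3 * Real.sqrt (M * (0 : ℝ) ^ (1 / 6 : ℝ)) = 0 := by
      rw [Real.zero_rpow (by norm_num), mul_zero, Real.sqrt_zero, mul_zero]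
    have := hcont.tendsto 0
    rw [h0] at this
    exact this.mono_left nhdsWithin_le_nhds
  have h1 : ∀ᶠ t0 in 𝓝[>] (0 : ℝ), (Real.sqrt (2 * M)) ^ 3 *
      Real.sqrt (M * t0 ^ (1 / 6 : ℝ)) < (c0 * ‖Φ.e1‖) ^ 4 := hlim.eventually (gt_mem_nhds hpos)
  have h2 : ∀ᶠ t0 in 𝓝[>] (0 : ℝ), t0 < 1 / 2 :=
    nhdsWithin_le_nhds (gt_mem_nhds (by norm_num))
  have h3 : ∀ᶠ t0 in 𝓝[>] (0 : ℝ), 0 < t0 := self_mem_nhdsWithin
  obtain ⟨t0, ht1, ht2, ht3⟩ := (h1.and (h2.and h3)).exists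
  obtain ⟨n, hn1, hn2⟩ := (hJ.and (hD t0 ht3 ht2.le)).exists
  have h4 := hn1 Φ.e1
  have h5 : (c0 * ‖Φ.e1‖) ^ 4 ≤ ‖fderiv ℂ (fun z => F n (Θ n z)) 0 Φ.e1‖ ^ 4 := by gcongr
  linarith

end

end Pool.Agent.Sqz
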