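import Pool.Agent.Work.MP_0e9e72_an.Defs

/-! `Frame`, `NormalForm`, `Theta` are defined in `Defs.lean`. -/
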