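import Pool.Agent.Work.MP_0e9e72_an.Osgood
import Pool.Agent.Work.MP_0e9e72_an.B2
import Pool.Agent.Work.MP_0e9e72_an.B3
import Pool.Agent.Work.MP_0e9e72_an.B4
import Pool.Agent.Work.MP_0e9e72_an.C1
import Pool.Agent.Work.MP_0e9e72_an.C2
import Pool.Agent.Work.MP_0e9e72_an.C3

/-!
# Localisation: `G n → 0` locally uniformly on the unit ball
-/

set_option autoImplicit false
set_option linter.unusedSectionVars false

open Complex Metric Set Filter Topology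
open scoped ContDiff

namespace Pool.Agent.Sqz

section
variable {E : Type} [NormedAddCommGroup E] [InnerProductSpace ℂ E] [FiniteDimensional ℂ E]

/-- A sequence of squeezing maps with their inverses. -/
structure SqSeq (D : Set E) (b : ℕ → E) (F G : ℕ → E → E) : Prop where
  hF : ∀ n, DifferentiableOn ℂ (F n) D
  inj : ∀ n, InjOn (F n) D
  maps : ∀ n, MapsTo (F n) D (ball 0 1)
  Fb : ∀ n, F n (b n) = 0
  surj : ∀ n : ℕ, ball (0 : E) (1 - 1 / ((n : ℝ) + 1)) ⊆ F n '' D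
  openFD : ∀ n, IsOpen (F n '' D)
  hG : ∀ n, DifferentiableOn ℂ (G n) (F n '' D)
  GF : ∀ n, ∀ z ∈ D, G n (F n z) = z
  bD : ∀ n, b n ∈ D
  b0 : Tendsto b atTop (𝓝 0)

variable {D : Set E} {b : ℕ → E} {F G : ℕ → E → E}

theorem SqSeq.G_mem (S : SqSeq D b F G) {n : ℕ} {y : E} (hy : y ∈ F n '' D) :
    G n y ∈ D ∧ F n (G n y) = y := by
  obtain ⟨z, hz, rfl⟩ := hy
  rw [S.GF n z hz]
  exact ⟨hz, rfl⟩

theorem SqSeq.G_zero (S : SqSeq D b F G) (n : ℕ) : G n 0 = b n := by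
  rw [← S.Fb n, S.GF n _ (S.bD n)]

theorem SqSeq.subseq (S : SqSeq D b F G) {φ : ℕ → ℕ} (hφ : StrictMono φ) :
    SqSeq D (b ∘ φ) (F ∘ φ) (G ∘ φ) where
  hF := fun n => S.hF _
  inj := fun n => S.inj _
  maps := fun n => S.maps _
  Fb := fun n => S.Fb _
  surj := fun n => by
    refine Subset.trans (ball_subset_ball ?_) (S.surj (φ n))
    have h1 : (n : ℝ) ≤ (φ n : ℝ) := by exact_mod_cast hφ.id_le n
    have h2 : (0 : ℝ) < (n : ℝ) + 1 := by positivity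
    have : 1 / ((φ n : ℝ) + 1) ≤ 1 / ((n : ℝ) + 1) :=
      one_div_le_one_div_of_le h2 (by linarith)
    linarith
  openFD := fun n => S.openFD _
  hG := fun n => S.hG _
  GF := fun n => S.GF _
  bD := fun n => S.bD _
  b0 := S.b0.comp hφ.tendsto_atTop

theorem eventually_ball_subset (S : SqSeq D b F G) {ρ : ℝ} (hρ : ρ < 1) :
    ∀ᶠ n in atTop, closedBall (0 : E) ρ ⊆ F n '' D := by
  have h1 : Tendsto (fun n : ℕ => 1 - 1 / ((n : ℝ) + 1)) atTop (𝓝 (1 - 0)) :=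
    tendsto_const_nhds.sub tendsto_one_div_add_atTop_nhds_zero_nat
  rw [sub_zero] at h1
  filter_upwards [h1.eventually (lt_mem_nhds hρ)] with n hn
  exact Subset.trans (closedBall_subset_ball hn) (S.surj n)

theorem continuous_dfun {r : E → ℝ} (hr : Continuous r) (K : ℝ) : Continuous (dfun r K) := by
  unfold dfun
  apply Continuous.neg
  apply Continuous.rpow_const
  · fun_prop
  · intro x; right; norm_num

theorem Lev_neg' (f : E → ℝ) (z v : E) : Lev (fun x => -f x) z v = -Lev f z v := by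
  have h : fderiv ℝ (fun x => -f x) = fun x => -fderiv ℝ f x := by
    funext x; exact fderiv_fun_neg
  simp only [Lev, h]
  have h2 : fderiv ℝ (fun x => -fderiv ℝ f x) z = -fderiv ℝ (fderiv ℝ f) z := fderiv_fun_neg
  rw [h2]
  simp only [neg_apply]
  ring

theorem Lev_const_mul' (f : E → ℝ) (a : ℝ) (z v : E) :
    Lev (fun x => a * f x) z v = a * Lev f z v := by
  have h : fderiv ℝ (fun x => a * f x) = a • fderiv ℝ f :=
    fderiv_const_smul_field (𝕜 := ℝ) (f := f) a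
  have h2 : fderiv ℝ (a • fderiv ℝ f) = a • fderiv ℝ (fderiv ℝ f) :=
    fderiv_const_smul_field (𝕜 := ℝ) (f := fderiv ℝ f) a
  simp only [Lev, h, h2, Pi.smul_apply, smul_apply, smul_eq_mul]
  ring

end

section
variable {E : Type} [NormedAddCommGroup E] [InnerProductSpace ℂ E] [FiniteDimensional ℂ E]
variable {D : Set E} {b : ℕ → E} {F G : ℕ → E → E}
variable {Φ : Frame E} {r : E → ℝ} {U : Set E} {N : ℕ}

/-- Diederich–Fornaess data near `0`. -/
structure DF (r : E → ℝ) (U : Set E) (K ρ c : ℝ) : Prop where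
  Kpos : 0 < K
  ρpos : 0 < ρ
  cpos : 0 < c
  sub : ball (0 : E) ρ ⊆ U
  smooth : ∀ z ∈ ball (0 : E) ρ, r z < 0 → ContDiffAt ℝ 2 (dfun r K) z
  psh : ∀ z ∈ ball (0 : E) ρ, r z < 0 → ∀ v, 0 ≤ Lev (dfun r K) z v
  lower : ∀ z ∈ ball (0 : E) ρ, r z < 0 → ∀ v,
    c * (-(r z)) ^ (5 / 6 : ℝ) * (Lev r z v / (-(r z)) + Nm r z v / (12 * r z ^ 2)) ≤
        Lev (dfun r K) z v

theorem NormalForm.exists_DF (hNF : NormalForm Φ D r U N) : ∃ K ρ c, DF r U K ρ c := by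
  have hd : fderiv ℝ r 0 ≠ 0 := by
    intro h
    have := hNF.dr0 Φ.ew
    rw [h, Φ.pw_ew] at this
    simp at this
  obtain ⟨C0, hC0, ρ0, hρ0, hlev⟩ := iC2 hNF.smooth hNF.r0 hd hNF.openU hNF.zeroU hNF.psc
  obtain ⟨K, hK, ρ1, hρ1, hρ1le, c3, hc3, hdf⟩ := iC3 hNF.smooth hρ0 hlev
  obtain ⟨ρ2, hρ2, hsub⟩ := Metric.isOpen_iff.1 hNF.openU 0 hNF.zeroU
  refine ⟨K, min ρ1 ρ2, c3, hK, lt_min hρ1 hρ2, hc3, ?_, ?_, ?_, ?_⟩
  · exact (ball_subset_ball (min_le_right _ _)).trans hsub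
  · intro z hz hrz
    exact (hdf z (ball_subset_ball (min_le_left _ _) hz) hrz).1
  · intro z hz hrz
    exact (hdf z (ball_subset_ball (min_le_left _ _) hz) hrz).2.1
  · intro z hz hrz
    exact (hdf z (ball_subset_ball (min_le_left _ _) hz) hrz).2.2

theorem NormalForm.neg_of_mem (hNF : NormalForm Φ D r U N) {z : E} (hz : z ∈ D) (hU : z ∈ U) :
    r z < 0 := by
  have : z ∈ D ∩ U := ⟨hz, hU⟩
  rw [hNF.defn] at this
  exact this.2

theorem NormalForm.mem_of_neg (hNF : NormalForm Φ D r U N) {z : E} (hU : z ∈ U) (hz : r z < 0) :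
    z ∈ D := by
  have : z ∈ D ∩ U := by rw [hNF.defn]; exact ⟨hU, hz⟩
  exact this.1

theorem dfun_neg {r : E → ℝ} (K : ℝ) {z : E} (hz : r z < 0) : dfun r K z < 0 := by
  unfold dfun
  rw [neg_lt_zero]
  apply Real.rpow_pos_of_pos
  exact mul_pos (by linarith) (Real.exp_pos _)

/-- superharmonicity of `-dfun ∘ g` along a holomorphic disc -/
theorem DF.disc {K ρ c : ℝ} (h : DF r U K ρ c) {g : ℂ → E} {V : Set ℂ} (hV : IsOpen V)
    (hg : DifferentiableOn ℂ g V) (hgb : ∀ ξ ∈ V, g ξ ∈ ball (0 : E) ρ) (hgr : ∀ ξ ∈ V, r (g ξ) < 0)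
    {ξ : ℂ} (hξ : ξ ∈ V) :
    ContDiffAt ℝ 2 (fun ξ => -dfun r K (g ξ)) ξ ∧ Lev (fun ξ => -dfun r K (g ξ)) ξ 1 ≤ 0 := by
  have hga : ContDiffAt ℂ 2 g ξ :=
    (hg.analyticAt (hV.mem_nhds hξ)).contDiffAt
  have h1 : ContDiffAt ℝ 2 (dfun r K) (g ξ) := h.smooth _ (hgb ξ hξ) (hgr ξ hξ)
  constructor
  · exact (h1.comp ξ (hga.restrict_scalars ℝ)).neg
  · rw [Lev_neg' (fun ξ => dfun r K (g ξ)), iC1 h1 hga]
    have := h.psh _ (hgb ξ hξ) (hgr ξ hξ) (fderiv ℂ g ξ 1)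
    linarith

end

end Pool.Agent.Sqz
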