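import Pool.Agent.Work.MP_0e9e72_an.Local

set_option autoImplicit false
set_option linter.unusedSectionVars false

open Complex Metric Set Filter Topology
open scoped ContDiff

namespace Pool.Agent.Sqz

section
variable {E : Type} [NormedAddCommGroup E] [InnerProductSpace ℂ E] [FiniteDimensional ℂ E]
variable {D : Set E} {b : ℕ → E} {F G : ℕ → E → E}
variable {Φ : Frame E} {r : E → ℝ} {U : Set E} {N : ℕ}

/-- The limit of discs in `D` through points tending to `0` has `r = 0` near `0`. -/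
theorem limit_disc_boundary (hNF : NormalForm Φ D r U N) (g : ℕ → ℂ → E) (ρ : ℕ → ℝ)
    (hρ : Tendsto ρ atTop (𝓝 1)) (hg : ∀ n, DifferentiableOn ℂ (g n) (ball 0 (ρ n)))
    (hgD : ∀ n, ∀ z ∈ ball (0 : ℂ) (ρ n), g n z ∈ D) (h0 : Tendsto (fun n => g n 0) atTop (𝓝 0))
    (g' : ℂ → E) (hg' : DifferentiableOn ℂ g' (ball 0 1))
    (hlim : TendstoLocallyUniformlyOn g g' atTop (ball 0 1)) :
    g' 0 = 0 ∧ ∀ᶠ ξ in 𝓝 (0 : ℂ), r (g' ξ) = 0 := by
  have h0mem : (0 : ℂ) ∈ ball (0 : ℂ) 1 := mem_ball_self one_pos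
  have hpt : ∀ ξ ∈ ball (0 : ℂ) 1, Tendsto (fun n => g n ξ) atTop (𝓝 (g' ξ)) :=
    fun ξ hξ => hlim.tendsto_at hξ
  have hg'0 : g' 0 = 0 := tendsto_nhds_unique (hpt 0 h0mem) h0
  refine ⟨hg'0, ?_⟩
  obtain ⟨K, ρ1, c, hDF⟩ := hNF.exists_DF
  have hrc : Continuous r := hNF.smooth.continuous
  have hdc : Continuous (dfun r K) := continuous_dfun hrc K
  have hg'c : ContinuousAt g' 0 := (hg'.differentiableAt (isOpen_ball.mem_nhds h0mem)).continuousAt
  -- radius where `g'` is small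
  obtain ⟨r0, hr0, hr0s⟩ : ∃ r0 > 0, r0 < 1 ∧ ∀ ξ ∈ closedBall (0 : ℂ) r0, ‖g' ξ‖ < ρ1 / 2 := by
    have h1 : ∀ᶠ ξ in 𝓝 (0 : ℂ), ‖g' ξ‖ < ρ1 / 2 := by
      have : Tendsto (fun ξ => ‖g' ξ‖) (𝓝 0) (𝓝 ‖g' 0‖) := hg'c.norm
      rw [hg'0, norm_zero] at this
      exact this.eventually (gt_mem_nhds (by linarith [hDF.ρpos]))
    obtain ⟨δ, hδ, hδs⟩ := Metric.eventually_nhds_iff_ball.1 h1
    refine ⟨min (δ / 2) (1 / 2), by positivity, ?_, ?_⟩
    · exact lt_of_le_of_lt (min_le_right _ _) (by norm_num)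
    · intro ξ hξ
      apply hδs
      rw [mem_closedBall] at hξ
      rw [mem_ball]
      have := min_le_left (δ / 2) (1 / 2 : ℝ)
      linarith
  obtain ⟨hr01, hr0s⟩ := hr0s
  -- uniform convergence on the closed ball
  have hsub : closedBall (0 : ℂ) r0 ⊆ ball 0 1 := closedBall_subset_ball hr01
  have hunif : ∀ ε > 0, ∀ᶠ n in atTop, ∀ ξ ∈ closedBall (0 : ℂ) r0, ‖g n ξ - g' ξ‖ < ε := by
    intro ε hε
    have h1 := (tendstoLocallyUniformlyOn_iff_forall_isCompact isOpen_ball).1 hlim _ hsub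
      (isCompact_closedBall 0 r0)
    have h2 := Metric.tendstoUniformlyOn_iff.1 h1 ε hε
    filter_upwards [h2] with n hn ξ hξ
    rw [← dist_eq_norm, dist_comm]
    exact hn ξ hξ
  -- the good event
  have hgood : ∀ᶠ n in atTop, closedBall (0 : ℂ) r0 ⊆ ball 0 (ρ n) ∧
      ∀ ξ ∈ closedBall (0 : ℂ) r0, g n ξ ∈ ball (0 : E) ρ1 ∧ r (g n ξ) < 0 := by
    filter_upwards [hunif (ρ1 / 2) (by linarith [hDF.ρpos]), hρ.eventually (lt_mem_nhds hr01)]
      with n hn hρn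
    refine ⟨closedBall_subset_ball hρn, fun ξ hξ => ?_⟩
    have h1 := hn ξ hξ
    have h2 := hr0s ξ hξ
    have h3 : ‖g n ξ‖ < ρ1 := by
      calc ‖g n ξ‖ = ‖(g n ξ - g' ξ) + g' ξ‖ := by congr 1; abel
        _ ≤ ‖g n ξ - g' ξ‖ + ‖g' ξ‖ := norm_add_le _ _
        _ < ρ1 := by linarith
    have h4 : g n ξ ∈ ball (0 : E) ρ1 := by simpa using h3
    exact ⟨h4, hNF.neg_of_mem (hgD n ξ (closedBall_subset_ball hρn hξ)) (hDF.sub h4)⟩
  -- main claim
  rw [Metric.eventually_nhds_iff_ball]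
  refine ⟨r0 / 3, by positivity, fun ξ0 hξ0 => ?_⟩
  by_cases hz : ξ0 = 0
  · rw [hz, hg'0, hNF.r0]
  have hξn : ‖ξ0‖ < r0 / 3 := by simpa using hξ0
  have hξpos : 0 < ‖ξ0‖ := norm_pos_iff.2 hz
  have hξcl : ξ0 ∈ closedBall (0 : ℂ) r0 := by
    rw [mem_closedBall, dist_zero_right]; linarith
  by_contra hne
  have hle : r (g' ξ0) ≤ 0 := by
    have h1 : Tendsto (fun n => r (g n ξ0)) atTop (𝓝 (r (g' ξ0))) :=
      (hrc.tendsto _).comp (hpt ξ0 (hsub hξcl))
    refine le_of_tendsto h1 ?_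
    filter_upwards [hgood] with n hn
    exact (hn.2 ξ0 hξcl).2.le
  have hlt : r (g' ξ0) < 0 := lt_of_le_of_ne hle hne
  have hdneg : dfun r K (g' ξ0) < 0 := dfun_neg K hlt
  set m : ℝ := -dfun r K (g' ξ0) / 2 with hm
  have hmpos : 0 < m := by rw [hm]; linarith
  -- a neighbourhood in `E` where `-dfun ≥ m`
  have hev : ∀ᶠ z in 𝓝 (g' ξ0), m < -dfun r K z := by
    have h1 : Tendsto (fun z => -dfun r K z) (𝓝 (g' ξ0)) (𝓝 (-dfun r K (g' ξ0))) :=
      (hdc.neg).tendsto _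
    exact h1.eventually (lt_mem_nhds (by rw [hm]; linarith))
  obtain ⟨η, hη, hηs⟩ := Metric.eventually_nhds_iff_ball.1 hev
  have hcont : ContinuousAt g' ξ0 :=
    (hg'.differentiableAt (isOpen_ball.mem_nhds (hsub hξcl))).continuousAt
  obtain ⟨ε1, hε1, hε1s⟩ := Metric.continuousAt_iff.1 hcont (η / 2) (by positivity)
  set ε0 : ℝ := min (ε1 / 2) (‖ξ0‖ / 2) with hε0
  have hε0pos : 0 < ε0 := by rw [hε0]; positivity
  have hε0a : ε0 < ε1 := lt_of_le_of_lt (min_le_left _ _) (by linarith)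
  have hε0b : ε0 < ‖ξ0‖ := lt_of_le_of_lt (min_le_right _ _) (by linarith)
  set R : ℝ := r0 - ‖ξ0‖ with hR
  have hRξ : ‖ξ0‖ < R := by rw [hR]; linarith
  have hballsub : ball ξ0 R ⊆ closedBall (0 : ℂ) r0 := by
    intro z hz
    rw [mem_ball] at hz
    rw [mem_closedBall, dist_zero_right]
    calc ‖z‖ = ‖(z - ξ0) + ξ0‖ := by congr 1; abel
      _ ≤ ‖z - ξ0‖ + ‖ξ0‖ := norm_add_le _ _
      _ ≤ r0 := by rw [← dist_eq_norm]; linarith
  set L : ℝ := m * (Real.log (R / dist (0 : ℂ) ξ0) / Real.log (R / ε0)) with hL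
  have hLpos : 0 < L := by
    rw [hL]
    apply mul_pos hmpos
    apply div_pos
    · apply Real.log_pos
      rw [dist_zero_left, one_lt_div hξpos]
      exact hRξ
    · apply Real.log_pos
      rw [one_lt_div hε0pos]
      linarith
  have hlow : ∀ᶠ n in atTop, L ≤ -dfun r K (g n 0) := by
    filter_upwards [hgood, hunif (η / 2) (by positivity)] with n hn hn2
    have hV : ∀ z ∈ ball ξ0 R, ContDiffAt ℝ 2 (fun ξ => -dfun r K (g n ξ)) z ∧
        Lev (fun ξ => -dfun r K (g n ξ)) z 1 ≤ 0 := by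
      intro z hz
      have hd : DifferentiableOn ℂ (g n) (ball ξ0 R) :=
        (hg n).mono (hballsub.trans hn.1)
      exact hDF.disc isOpen_ball hd (fun ξ hξ => (hn.2 ξ (hballsub hξ)).1)
        (fun ξ hξ => (hn.2 ξ (hballsub hξ)).2) hz
    have key := iB2 (s := fun ξ => -dfun r K (g n ξ)) (c := ξ0) (r := ε0) (R := R) (m := m)
      hε0pos (by linarith) (fun z hz => (hV z hz).1) (fun z hz => (hV z hz).2)
      (fun z hz => by
        have := dfun_neg K (hn.2 z (hballsub hz)).2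
        linarith) hmpos.le
      (fun z hz => by
        have hz1 : z ∈ closedBall (0 : ℂ) r0 := by
          apply hballsub
          rw [mem_ball, hz]; linarith
        have h1 : dist (g' z) (g' ξ0) < η / 2 := hε1s (by rw [hz]; exact hε0a)
        have h2 := hn2 z hz1
        have h3 : g n z ∈ ball (g' ξ0) η := by
          rw [mem_ball]
          calc dist (g n z) (g' ξ0) ≤ dist (g n z) (g' z) + dist (g' z) (g' ξ0) :=
                dist_triangle _ _ _
            _ < η := by rw [dist_eq_norm (g n z)]; linarith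
        exact (hηs _ h3).le)
    have := key 0 (by rw [dist_zero_left]; exact hε0b.le) (by rw [dist_zero_left]; exact hRξ)
    exact this
  have hlim0 : Tendsto (fun n => -dfun r K (g n 0)) atTop (𝓝 0) := by
    have h1 : Tendsto (fun n => -dfun r K (g n 0)) atTop (𝓝 (-dfun r K 0)) :=
      (hdc.neg.tendsto _).comp h0
    have h2 : dfun r K 0 = 0 := by
      simp [dfun, hNF.r0]
    rwa [h2, neg_zero] at h1
  have : L ≤ 0 := ge_of_tendsto hlim0 hlow
  linarith

/-- **Localisation.** -/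
theorem localization (hNF : NormalForm Φ D r U N) (S : SqSeq D b F G) {ρ κ : ℝ} (hρ : ρ < 1)
    (hκ : 0 < κ) : ∀ᶠ n in atTop, ∀ y, ‖y‖ ≤ ρ → ‖G n y‖ < κ := by
  by_contra hcon
  rw [Filter.not_eventually] at hcon
  have hbsmall : ∀ᶠ n in atTop, ‖b n‖ < κ := by
    have := S.b0.norm
    rw [norm_zero] at this
    exact this.eventually (gt_mem_nhds hκ)
  have hfreq := hcon.and_eventually hbsmall
  obtain ⟨φ, hφ, hP⟩ := Filter.extraction_of_frequently_atTop hfreq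
  have hy : ∀ n, ∃ y, ‖y‖ ≤ ρ ∧ κ ≤ ‖G (φ n) y‖ := by
    intro n
    have := (hP n).1
    push Not at this
    exact this
  choose y hyρ hyκ using hy
  have hy0 : ∀ n, y n ≠ 0 := by
    intro n h
    have h1 := hyκ n
    rw [h, S.G_zero] at h1
    have h2 := (hP n).2
    linarith
  set ρn : ℕ → ℝ := fun n => 1 - 1 / ((φ n : ℝ) + 1) with hρn
  have hρlim : Tendsto ρn atTop (𝓝 1) := by
    have h1 : Tendsto (fun n : ℕ => 1 - 1 / ((n : ℝ) + 1)) atTop (𝓝 (1 - 0)) :=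
      tendsto_const_nhds.sub tendsto_one_div_add_atTop_nhds_zero_nat
    rw [sub_zero] at h1
    exact h1.comp hφ.tendsto_atTop
  set u : ℕ → E := fun n => ((‖y n‖ : ℂ)⁻¹) • y n with hu
  have hun : ∀ n, ‖u n‖ = 1 := by
    intro n
    simp only [hu, norm_smul, norm_inv, Complex.norm_real, norm_norm]
    exact inv_mul_cancel₀ (norm_ne_zero_iff.2 (hy0 n))
  have hline : ∀ n, ∀ ξ ∈ ball (0 : ℂ) (ρn n), ξ • u n ∈ F (φ n) '' D := by
    intro n ξ hξ
    apply S.surj (φ n)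
    rw [mem_ball, dist_zero_right, norm_smul, hun n, mul_one]
    rw [mem_ball, dist_zero_right] at hξ
    exact hξ
  set g : ℕ → ℂ → E := fun n ξ => G (φ n) (ξ • u n) with hgdef
  have hg : ∀ n, DifferentiableOn ℂ (g n) (ball 0 (ρn n)) := by
    intro n
    have h1 : DifferentiableOn ℂ (fun ξ : ℂ => ξ • u n) (ball 0 (ρn n)) :=
      (differentiable_id.smul_const (u n)).differentiableOn
    exact (S.hG (φ n)).comp h1 (fun ξ hξ => hline n ξ hξ)
  have hgD : ∀ n, ∀ z ∈ ball (0 : ℂ) (ρn n), g n z ∈ D := by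
    intro n z hz
    exact (S.G_mem (hline n z hz)).1
  obtain ⟨M, hM⟩ := hNF.bddD.exists_norm_le
  obtain ⟨ψ, g', hψ, hg', hlim⟩ := iB3 g ρn hρlim hg (M := M) (fun n z hz => hM _ (hgD n z hz))
  have hg0 : ∀ n, g n 0 = b (φ n) := by
    intro n
    simp only [hgdef, zero_smul, S.G_zero]
  obtain ⟨h1, h2⟩ := limit_disc_boundary hNF (fun n => g (ψ n)) (fun n => ρn (ψ n))
    (hρlim.comp hψ.tendsto_atTop) (fun n => hg _) (fun n => hgD _)
    (by
      have : (fun n => g (ψ n) 0) = b ∘ φ ∘ ψ := by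
        funext n; simp only [hg0, Function.comp]
      rw [this]
      exact S.b0.comp (hφ.tendsto_atTop.comp hψ.tendsto_atTop)) g' hg' hlim
  have h0mem : (0 : ℂ) ∈ ball (0 : ℂ) 1 := mem_ball_self one_pos
  have han : AnalyticOnNhd ℂ g' (ball 0 1) := hg'.analyticOnNhd isOpen_ball
  have h3 := hNF.nodisc g' (han 0 h0mem) h1 h2
  have h4 : EqOn g' 0 (ball 0 1) :=
    han.eqOn_zero_of_preconnected_of_eventuallyEq_zero (convex_ball 0 1).isPreconnected h0mem h3
  -- contradiction by uniform convergence on `closedBall 0 ρ`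
  have h5 := (tendstoLocallyUniformlyOn_iff_forall_isCompact isOpen_ball).1 hlim (closedBall 0 ρ)
    (closedBall_subset_ball hρ) (isCompact_closedBall 0 ρ)
  have h6 := Metric.tendstoUniformlyOn_iff.1 h5 κ hκ
  obtain ⟨n, hn⟩ := h6.exists
  have h7 : ((‖y (ψ n)‖ : ℝ) : ℂ) ∈ closedBall (0 : ℂ) ρ := by
    rw [mem_closedBall, dist_zero_right, Complex.norm_real, norm_norm]
    exact hyρ _
  have h8 := hn _ h7
  rw [h4 (closedBall_subset_ball hρ h7), Pi.zero_apply, dist_zero_left] at h8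
  have h9 : g (ψ n) ((‖y (ψ n)‖ : ℝ) : ℂ) = G (φ (ψ n)) (y (ψ n)) := by
    simp only [hgdef, hu, smul_smul]
    rw [mul_inv_cancel₀, one_smul]
    exact_mod_cast norm_ne_zero_iff.2 (hy0 _)
  rw [h9] at h8
  have := hyκ (ψ n)
  linarith

end

end Pool.Agent.Sqz
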