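import Pool.Agent.Work.MP_0e9e72_an.SCVA

/-!
# MP_0e9e72_an, block A: injective holomorphic maps between spaces of the same dimension
are biholomorphic onto their image (Osgood).
-/

set_option autoImplicit false

open Complex Metric Set Filter Topology

namespace Pool.Agent.Sqz

universe u v

section A
variable {E : Type*} [NormedAddCommGroup E] [NormedSpace ℂ E] [FiniteDimensional ℂ E]
variable {F : Type*} [NormedAddCommGroup F] [NormedSpace ℂ F] [CompleteSpace F]

theorem iA1 {f : E → F} {Ω : Set E} (hΩ : IsOpen Ω) (hf : DifferentiableOn ℂ f Ω) (n : ℕ∞) :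
    ContDiffOn ℂ n f Ω := SCV.contDiffOn_of_differentiableOn hΩ hf

/-- Straightening of a holomorphic function `g` with `Dg(a) v ≠ 0`. -/
theorem exists_straighten {Ω : Set E} (hΩ : IsOpen Ω) {g : E → ℂ} (hg : DifferentiableOn ℂ g Ω)
    {a : E} (ha : a ∈ Ω) {v : E} (hv : fderiv ℂ g a v ≠ 0) :
    ∃ ψ : E → E, ψ 0 = a ∧ HasFDerivAt ψ (ContinuousLinearMap.id ℂ E) 0 ∧ ∃ ρ > 0,
      DifferentiableOn ℂ ψ (ball 0 ρ) ∧ InjOn ψ (ball 0 ρ) ∧ MapsTo ψ (ball 0 ρ) Ω ∧
      ∀ y ∈ ball 0 ρ, g (ψ y) = g a + fderiv ℂ g a y := by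
  have : CompleteSpace E := FiniteDimensional.complete ℂ E
  set L : E →L[ℂ] ℂ := fderiv ℂ g a with hL
  set Φ : E → E := fun z => (z - a) + ((g z - g a - L (z - a)) / L v) • v with hΦ
  have hgd : HasFDerivAt g L a := (hg.differentiableAt (hΩ.mem_nhds ha)).hasFDerivAt
  have hΦd : HasFDerivAt Φ ((ContinuousLinearEquiv.refl ℂ E : E ≃L[ℂ] E) : E →L[ℂ] E) a := by
    have h1 : HasFDerivAt (fun z => z - a) (ContinuousLinearMap.id ℂ E) a :=
      (hasFDerivAt_id a).sub_const a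
    have h2 : HasFDerivAt (fun z => g z - g a - L (z - a)) (L - L) a := by
      exact (hgd.sub_const (g a)).sub (L.hasFDerivAt.comp a h1)
    have h3 : HasFDerivAt (fun z => ((g z - g a - L (z - a)) / L v) • v)
        (0 : E →L[ℂ] E) a := by
      have := (h2.mul_const ((L v)⁻¹)).smul_const v
      rw [sub_self] at this
      have h4 : (((L v)⁻¹ • (0 : E →L[ℂ] ℂ)).smulRight v) = (0 : E →L[ℂ] E) := by
        ext; simp
      simp only [div_eq_mul_inv]
      rw [h4] at this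
      exact this
    have := h1.add h3
    rw [add_zero] at this
    exact this
  have hΦc : ContDiffAt ℂ 1 Φ a := by
    have hgc : ContDiffAt ℂ 1 g a := SCV.contDiffAt_of_differentiableOn hΩ hg ha (n := 1)
    exact (contDiffAt_id.sub contDiffAt_const).add
      ((((hgc.sub contDiffAt_const).sub (L.contDiff.contDiffAt.comp a
        (contDiffAt_id.sub contDiffAt_const))).div_const _).smul contDiffAt_const)
  have hΦa : Φ a = 0 := by simp [hΦ]
  set e := hΦc.toOpenPartialHomeomorph Φ hΦd one_ne_zero with he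
  have he1 : (e : E → E) = Φ := rfl
  have hsrc : a ∈ e.source := hΦc.mem_toOpenPartialHomeomorph_source hΦd one_ne_zero
  have htgt : (0 : E) ∈ e.target := by
    rw [← hΦa]; exact hΦc.image_mem_toOpenPartialHomeomorph_target hΦd one_ne_zero
  set ψ : E → E := fun y => e.symm y with hψ
  have hψ0 : ψ 0 = a := by
    have := e.left_inv hsrc
    rw [he1, hΦa] at this
    exact this
  have hψc : ContDiffAt ℂ 1 ψ 0 := by
    have := hΦc.to_localInverse hΦd one_ne_zero
    rw [hΦa] at this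
    exact this
  have hψd : HasFDerivAt ψ (ContinuousLinearMap.id ℂ E) 0 := by
    have := (hΦc.hasStrictFDerivAt' hΦd one_ne_zero).to_localInverse
    rw [hΦa] at this
    exact this.hasFDerivAt
  refine ⟨ψ, hψ0, hψd, ?_⟩
  have hev : ∀ᶠ y in 𝓝 (0 : E), DifferentiableAt ℂ ψ y ∧ y ∈ e.target ∧ ψ y ∈ Ω := by
    have h1 : ∀ᶠ y in 𝓝 (0 : E), ContDiffAt ℂ 1 ψ y := hψc.eventually (by simp)
    have h2 : ∀ᶠ y in 𝓝 (0 : E), y ∈ e.target := e.open_target.mem_nhds htgt
    have h3 : ∀ᶠ y in 𝓝 (0 : E), ψ y ∈ Ω := by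
      apply hψc.continuousAt.eventually_mem
      rw [hψ0]; exact hΩ.mem_nhds ha
    filter_upwards [h1, h2, h3] with y hy1 hy2 hy3
    exact ⟨hy1.differentiableAt one_ne_zero, hy2, hy3⟩
  obtain ⟨ρ, hρ, hball⟩ := Metric.eventually_nhds_iff_ball.mp hev
  refine ⟨ρ, hρ, fun y hy => (hball y hy).1.differentiableWithinAt, ?_,
    fun y hy => (hball y hy).2.2, ?_⟩
  · intro y hy y' hy' h
    exact e.symm.injOn (hball y hy).2.1 (hball y' hy').2.1 h
  · intro y hy
    have h1 : Φ (ψ y) = y := e.right_inv (hball y hy).2.1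
    have h2 : L (Φ (ψ y)) = g (ψ y) - g a := by
      simp only [hΦ, map_add, map_smul, smul_eq_mul]
      field_simp
      ring
    rw [h1] at h2
    rw [h2]; ring

end A

/-! ### Dimension one -/

theorem deriv_ne_zero_of_injOn {f : ℂ → ℂ} {ρ : ℝ} (hρ : 0 < ρ)
    (hf : DifferentiableOn ℂ f (ball 0 ρ)) (hinj : InjOn f (ball 0 ρ)) : deriv f 0 ≠ 0 := by
  intro hd0
  have h0mem : (0 : ℂ) ∈ ball (0 : ℂ) ρ := mem_ball_self hρ
  set ε : ℝ := ρ / 2 with hε
  have hεpos : 0 < ε := by positivity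
  have hερ : ε < ρ := by rw [hε]; linarith
  have hcl : closedBall (0 : ℂ) ε ⊆ ball 0 ρ := closedBall_subset_ball hερ
  have hsph : ∀ ζ ∈ sphere (0 : ℂ) ε, ζ ∈ ball (0 : ℂ) ρ := fun ζ hζ =>
    hcl (sphere_subset_closedBall hζ)
  obtain ⟨c, hc, hcb⟩ : ∃ c > 0, ∀ ζ ∈ sphere (0 : ℂ) ε, c ≤ ‖f ζ - f 0‖ := by
    have hne : (sphere (0 : ℂ) ε).Nonempty := NormedSpace.sphere_nonempty.mpr hεpos.le
    have hcont : ContinuousOn (fun ζ => ‖f ζ - f 0‖) (sphere (0 : ℂ) ε) :=
      ((hf.continuousOn.mono hsph).sub continuousOn_const).norm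
    obtain ⟨ζ0, hζ0, hmin⟩ := (isCompact_sphere (0 : ℂ) ε).exists_isMinOn hne hcont
    refine ⟨‖f ζ0 - f 0‖, ?_, fun ζ hζ => hmin hζ⟩
    refine norm_pos_iff.mpr (sub_ne_zero.mpr ?_)
    intro h
    have := hinj (hsph ζ0 hζ0) h0mem h
    rw [this] at hζ0
    simp [hεpos.ne] at hζ0
  have hdf : DifferentiableOn ℂ (deriv f) (ball 0 ρ) := hf.deriv isOpen_ball
  have hev : ∀ᶠ ζ in 𝓝 (0 : ℂ), ‖f ζ - f 0‖ < c / 2 ∧ ‖deriv f ζ‖ < c / (4 * ε) ∧
      ζ ∈ ball (0 : ℂ) ε := by
    have hnb : ball (0 : ℂ) ρ ∈ 𝓝 (0 : ℂ) := isOpen_ball.mem_nhds h0mem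
    have h1 : ∀ᶠ ζ in 𝓝 (0 : ℂ), ‖f ζ - f 0‖ < c / 2 := by
      have hcont : ContinuousAt (fun ζ => ‖f ζ - f 0‖) 0 :=
        ((hf.differentiableAt hnb).continuousAt.sub continuousAt_const).norm
      have : ‖f 0 - f 0‖ < c / 2 := by simpa using hc
      exact hcont.eventually_lt continuousAt_const this
    have h2 : ∀ᶠ ζ in 𝓝 (0 : ℂ), ‖deriv f ζ‖ < c / (4 * ε) := by
      have hcont : ContinuousAt (fun ζ => ‖deriv f ζ‖) 0 :=
        (hdf.differentiableAt hnb).continuousAt.norm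
      have : ‖deriv f 0‖ < c / (4 * ε) := by rw [hd0, norm_zero]; positivity
      exact hcont.eventually_lt continuousAt_const this
    filter_upwards [h1, h2, isOpen_ball.mem_nhds (mem_ball_self hεpos)] with ζ a b d
    exact ⟨a, b, d⟩
  obtain ⟨δ, hδ, hball⟩ := Metric.eventually_nhds_iff_ball.mp hev
  -- a point with nonvanishing derivative
  obtain ⟨ζ1, hζ1, hζ1d⟩ : ∃ ζ1 ∈ ball (0 : ℂ) δ, deriv f ζ1 ≠ 0 := by
    by_contra hcon
    push Not at hcon
    have hsub : ball (0 : ℂ) δ ⊆ ball 0 ρ := fun ζ hζ => hcl (ball_subset_closedBall (hball ζ hζ).2.2)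
    have hconst : ∀ {x y : ℂ}, x ∈ ball (0 : ℂ) δ → y ∈ ball (0 : ℂ) δ → f x = f y :=
      fun {x y} hx hy => isOpen_ball.is_const_of_deriv_eq_zero (convex_ball (0 : ℂ) δ).isPreconnected
        (hf.mono hsub) (fun x hx => hcon x hx) hx hy
    have hx1 : ((δ / 2 : ℝ) : ℂ) ∈ ball (0 : ℂ) δ := by
      rw [mem_ball_zero_iff, Complex.norm_real, Real.norm_eq_abs, abs_of_pos (by positivity)]
      linarith
    have h0' : (0 : ℂ) ∈ ball (0 : ℂ) δ := mem_ball_self hδ
    have := hinj (hsub hx1) (hsub h0') (hconst hx1 h0')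
    have h2 : (δ / 2 : ℝ) = 0 := by exact_mod_cast this
    linarith
  obtain ⟨hz1, hz2, hz3⟩ := hball ζ1 hζ1
  have hζ1ρ : ζ1 ∈ ball (0 : ℂ) ρ := hcl (ball_subset_closedBall hz3)
  set H : ℂ → ℂ := dslope f ζ1 with hH
  have hHd : DifferentiableOn ℂ H (ball 0 ρ) :=
    (differentiableOn_dslope (isOpen_ball.mem_nhds hζ1ρ)).mpr hf
  have hHne : ∀ ζ ∈ ball (0 : ℂ) ρ, H ζ ≠ 0 := by
    intro ζ hζ
    by_cases h : ζ = ζ1
    · rw [h, hH, dslope_same]; exact hζ1d
    · rw [hH, dslope_of_ne _ h, slope_def_field]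
      refine div_ne_zero ?_ (sub_ne_zero.mpr h)
      rw [sub_ne_zero]
      exact fun h' => h (hinj hζ hζ1ρ h')
  have hGd : DiffContOnCl ℂ (fun ζ => (H ζ)⁻¹) (ball (0 : ℂ) ε) := by
    have : DifferentiableOn ℂ (fun ζ => (H ζ)⁻¹) (ball (0 : ℂ) ρ) := hHd.inv hHne
    exact (this.mono (by rw [closure_ball _ hεpos.ne']; exact hcl)).diffContOnCl
  have hbd : ∀ ζ ∈ frontier (ball (0 : ℂ) ε), ‖(fun ζ => (H ζ)⁻¹) ζ‖ ≤ 4 * ε / c := by
    intro ζ hζ
    rw [frontier_ball _ hεpos.ne'] at hζ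
    have hne : ζ ≠ ζ1 := by
      rintro rfl
      rw [mem_sphere_zero_iff_norm] at hζ
      rw [mem_ball_zero_iff] at hz3
      linarith
    have h1 : H ζ = (f ζ - f ζ1) / (ζ - ζ1) := by
      rw [hH, dslope_of_ne _ hne, slope_def_field]
    have h2 : c / 2 ≤ ‖f ζ - f ζ1‖ := by
      have := hcb ζ hζ
      have h3 : ‖f ζ - f 0‖ ≤ ‖f ζ - f ζ1‖ + ‖f ζ1 - f 0‖ := by
        have := norm_add_le (f ζ - f ζ1) (f ζ1 - f 0)
        simpa using this
      linarith
    have h4 : ‖ζ - ζ1‖ ≤ 2 * ε := by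
      have := norm_sub_le ζ ζ1
      rw [mem_sphere_zero_iff_norm] at hζ
      rw [mem_ball_zero_iff] at hz3
      linarith
    simp only [h1, norm_inv, norm_div, inv_div]
    calc ‖ζ - ζ1‖ / ‖f ζ - f ζ1‖ ≤ (2 * ε) / (c / 2) := by gcongr
      _ = 4 * ε / c := by field_simp; ring
  have hfin := Complex.norm_le_of_forall_mem_frontier_norm_le isBounded_ball hGd hbd
    (subset_closure hz3)
  simp only [hH, dslope_same, norm_inv] at hfin
  have hpos : 0 < ‖deriv f ζ1‖ := norm_pos_iff.mpr hζ1d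
  have : c / (4 * ε) ≤ ‖deriv f ζ1‖ := by
    rw [inv_le_comm₀ hpos (by positivity)] at hfin
    rwa [inv_div] at hfin
  linarith

/-! ### The induction -/

/-- The statement of Osgood's theorem in dimension `n`. -/
def OsgoodP (n : ℕ) : Prop :=
  ∀ (E : Type u) [NormedAddCommGroup E] [NormedSpace ℂ E] [FiniteDimensional ℂ E]
    (E' : Type v) [NormedAddCommGroup E'] [NormedSpace ℂ E'] [FiniteDimensional ℂ E'],
    Module.finrank ℂ E = n → Module.finrank ℂ E' = n → ∀ (f : E → E') (Ω : Set E), IsOpen Ω →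
    DifferentiableOn ℂ f Ω → InjOn f Ω → ∀ a ∈ Ω, Function.Injective (fderiv ℂ f a)

section step
variable {E : Type u} [NormedAddCommGroup E] [NormedSpace ℂ E] [FiniteDimensional ℂ E]
variable {E' : Type v} [NormedAddCommGroup E'] [NormedSpace ℂ E'] [FiniteDimensional ℂ E']

theorem osgood_one (hE : Module.finrank ℂ E = 1) (hE' : Module.finrank ℂ E' = 1) {f : E → E'}
    {Ω : Set E} (hΩ : IsOpen Ω) (hf : DifferentiableOn ℂ f Ω) (hinj : InjOn f Ω) {a : E}
    (ha : a ∈ Ω) : fderiv ℂ f a ≠ 0 := by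
  intro h0
  have e : ℂ ≃L[ℂ] E := ContinuousLinearEquiv.ofFinrankEq (by rw [hE]; simp)
  have e' : E' ≃L[ℂ] ℂ := ContinuousLinearEquiv.ofFinrankEq (by rw [hE']; simp)
  set F : ℂ → ℂ := fun ζ => e' (f (a + e ζ)) with hF
  have hcont : Continuous (fun ζ : ℂ => a + e ζ) := by fun_prop
  have hpre : (fun ζ : ℂ => a + e ζ) ⁻¹' Ω ∈ 𝓝 (0 : ℂ) := by
    apply (hΩ.preimage hcont).mem_nhds
    simpa using ha
  obtain ⟨ρ, hρ, hball⟩ := Metric.mem_nhds_iff.mp hpre
  have hFd : DifferentiableOn ℂ F (ball 0 ρ) := by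
    intro ζ hζ
    have h1 : DifferentiableAt ℂ f (a + e ζ) := hf.differentiableAt (hΩ.mem_nhds (hball hζ))
    have h2 : DifferentiableAt ℂ (fun ζ : ℂ => a + e ζ) ζ := by fun_prop
    exact (e'.differentiableAt.comp ζ (h1.comp ζ h2)).differentiableWithinAt
  have hFi : InjOn F (ball 0 ρ) := by
    intro x hx y hy hxy
    have := hinj (hball hx) (hball hy) (e'.injective hxy)
    exact e.injective (add_left_cancel this)
  refine deriv_ne_zero_of_injOn hρ hFd hFi ?_
  have h1 : HasFDerivAt f (0 : E →L[ℂ] E') (a + e 0) := by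
    have := (hf.differentiableAt (hΩ.mem_nhds ha)).hasFDerivAt
    rw [h0] at this
    simpa using this
  have h2 : HasFDerivAt (fun ζ : ℂ => a + e ζ) ((e : ℂ →L[ℂ] E)) 0 := by
    have := e.hasFDerivAt (x := (0 : ℂ))
    exact this.const_add a
  have h3 : HasFDerivAt F ((e' : E' →L[ℂ] ℂ).comp ((0 : E →L[ℂ] E').comp (e : ℂ →L[ℂ] E))) 0 :=
    e'.hasFDerivAt.comp 0 (h1.comp 0 h2)
  rw [ContinuousLinearMap.zero_comp, ContinuousLinearMap.comp_zero] at h3
  have := h3.hasDerivAt.deriv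
  simpa using this

theorem osgood_partA {m : ℕ} (ih : OsgoodP.{u, v} m) (hE : Module.finrank ℂ E = m + 1)
    (hE' : Module.finrank ℂ E' = m + 1) {f : E → E'} {Ω : Set E} (hΩ : IsOpen Ω)
    (hf : DifferentiableOn ℂ f Ω) (hinj : InjOn f Ω) {a : E} (ha : a ∈ Ω)
    (hne : fderiv ℂ f a ≠ 0) : Function.Injective (fderiv ℂ f a) := by
  obtain ⟨v0, hv0⟩ : ∃ v0, fderiv ℂ f a v0 ≠ 0 := by
    by_contra hcon
    push Not at hcon
    exact hne (ContinuousLinearMap.ext hcon)
  obtain ⟨ℓ, hℓ⟩ := SeparatingDual.exists_ne_zero (R := ℂ) hv0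
  have hfa : DifferentiableAt ℂ f a := hf.differentiableAt (hΩ.mem_nhds ha)
  set g : E → ℂ := fun z => ℓ (f z) with hg
  have hgd : DifferentiableOn ℂ g Ω := ℓ.differentiable.comp_differentiableOn hf
  have hgL : ∀ v, fderiv ℂ g a v = ℓ (fderiv ℂ f a v) := by
    intro v
    have : fderiv ℂ g a = ℓ.comp (fderiv ℂ f a) := (ℓ.hasFDerivAt.comp a hfa.hasFDerivAt).fderiv
    rw [this]; rfl
  obtain ⟨ψ, hψ0, hψd, ρ, hρ, hψdiff, hψinj, hψmaps, hψg⟩ :=
    exists_straighten hΩ hgd ha (v := v0) (by rw [hgL]; exact hℓ)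
  set L := fderiv ℂ g a with hL
  set K : Submodule ℂ E := LinearMap.ker (L : E →ₗ[ℂ] ℂ) with hK
  set K' : Submodule ℂ E' := LinearMap.ker (ℓ : E' →ₗ[ℂ] ℂ) with hK'
  have hKr : Module.finrank ℂ K = m := by
    have h1 : (L : E →ₗ[ℂ] ℂ) ≠ 0 := by
      intro h
      apply hℓ
      rw [← hgL]
      exact LinearMap.congr_fun h v0
    have := Module.Dual.finrank_ker_add_one_of_ne_zero h1
    rw [hE] at this
    exact Nat.succ_injective this
  have hKr' : Module.finrank ℂ K' = m := by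
    have h1 : (ℓ : E' →ₗ[ℂ] ℂ) ≠ 0 := by
      intro h
      exact hℓ (LinearMap.congr_fun h _)
    have := Module.Dual.finrank_ker_add_one_of_ne_zero h1
    rw [hE'] at this
    exact Nat.succ_injective this
  obtain ⟨P0, hP0⟩ := K'.subtype.exists_leftInverse_of_injective (LinearMap.ker_eq_bot.mpr
    K'.injective_subtype)
  set P : E' →L[ℂ] K' := LinearMap.toContinuousLinearMap P0 with hP
  have hPapp : ∀ u : K', P (u : E') = u := fun u => LinearMap.congr_fun hP0 u
  set g₁ : K → K' := fun y => P (f (ψ y) - f a) with hg₁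
  have hmem : ∀ y ∈ ball (0 : K) ρ, f (ψ y) - f a ∈ K' := by
    intro y hy
    have h1 := hψg (y : E) (by simpa using hy)
    have h2 : L (y : E) = 0 := y.2
    rw [h2, add_zero] at h1
    simp only [hK', LinearMap.mem_ker]
    change ℓ (f (ψ y) - f a) = 0
    rw [map_sub, sub_eq_zero]
    exact h1
  have hg₁d : DifferentiableOn ℂ g₁ (ball 0 ρ) := by
    intro y hy
    have hy' : (y : E) ∈ ball (0 : E) ρ := by simpa using hy
    have h1 : DifferentiableAt ℂ ψ (y : E) := hψdiff.differentiableAt (isOpen_ball.mem_nhds hy')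
    have h2 : DifferentiableAt ℂ f (ψ y) := hf.differentiableAt (hΩ.mem_nhds (hψmaps hy'))
    have h3 : DifferentiableAt ℂ (fun y : K => f (ψ y)) y :=
      h2.comp y (h1.comp y K.subtypeL.differentiableAt)
    exact (P.differentiableAt.comp y (h3.sub_const _)).differentiableWithinAt
  have hg₁i : InjOn g₁ (ball 0 ρ) := by
    intro y hy y' hy' h
    have h1 : f (ψ y) - f a = f (ψ y') - f a := by
      have e1 := hPapp ⟨_, hmem y hy⟩
      have e2 := hPapp ⟨_, hmem y' hy'⟩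
      simp only at e1 e2
      have : (⟨_, hmem y hy⟩ : K') = ⟨_, hmem y' hy'⟩ := by
        rw [← e1, ← e2]; exact h
      exact congrArg Subtype.val this
    have hyE : (y : E) ∈ ball (0 : E) ρ := by simpa using hy
    have hyE' : (y' : E) ∈ ball (0 : E) ρ := by simpa using hy'
    have h2 := hinj (hψmaps hyE) (hψmaps hyE') (sub_left_injective h1)
    exact Subtype.ext (hψinj hyE hyE' h2)
  have hinj0 := ih K K' hKr hKr' g₁ (ball 0 ρ) isOpen_ball hg₁d hg₁i 0 (mem_ball_self hρ)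
  have hg₁' : fderiv ℂ g₁ 0 = P.comp ((fderiv ℂ f a).comp ((ContinuousLinearMap.id ℂ E).comp
      K.subtypeL)) := by
    have h1 : HasFDerivAt (fun y : K => ψ y) ((ContinuousLinearMap.id ℂ E).comp K.subtypeL) 0 :=
      HasFDerivAt.comp (0 : K) (g := ψ) (f := fun y : K => (y : E)) (by simpa using hψd)
        K.subtypeL.hasFDerivAt
    have h2 : HasFDerivAt (fun y : K => f (ψ y)) ((fderiv ℂ f a).comp
        ((ContinuousLinearMap.id ℂ E).comp K.subtypeL)) 0 := by
      refine HasFDerivAt.comp (0 : K) (g := f) (f := fun y : K => ψ y) ?_ h1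
      have : ψ ((0 : K) : E) = a := by simpa using hψ0
      rw [this]
      exact hfa.hasFDerivAt
    exact (P.hasFDerivAt.comp (0 : K) (h2.sub_const _)).fderiv
  rw [injective_iff_map_eq_zero]
  intro w hw
  have hwK : w ∈ K := by
    simp only [hK, LinearMap.mem_ker]
    change L w = 0
    rw [hgL, hw, map_zero]
  have h1 : fderiv ℂ g₁ 0 ⟨w, hwK⟩ = 0 := by
    rw [hg₁']
    simp [hw]
  have h2 := (injective_iff_map_eq_zero _).mp hinj0 _ h1
  exact congrArg Subtype.val h2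

/-- If `Df` vanishes somewhere (but `f` is injective), some holomorphic function vanishes on
`{Df = 0}` and has nonzero derivative at some point of this set. -/
theorem osgood_exists_g [Nontrivial E] {f : E → E'} {Ω : Set E} (hΩ : IsOpen Ω)
    (hf : DifferentiableOn ℂ f Ω) (hinj : InjOn f Ω) {a : E} (ha : a ∈ Ω)
    (hfa : fderiv ℂ f a = 0) :
    ∃ g : E → ℂ, DifferentiableOn ℂ g Ω ∧ (∀ z ∈ Ω, fderiv ℂ f z = 0 → g z = 0) ∧
      ∃ z0 ∈ Ω, fderiv ℂ f z0 = 0 ∧ fderiv ℂ g z0 ≠ 0 := by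
  have : ProperSpace E := FiniteDimensional.proper ℂ E
  have : CompleteSpace E' := FiniteDimensional.complete ℂ E'
  by_contra hcon
  push Not at hcon
  obtain ⟨ρ, hρ, hball⟩ := Metric.isOpen_iff.mp hΩ a ha
  -- all functions vanishing on `Z` vanish near `a`
  have key : ∀ g : E → ℂ, DifferentiableOn ℂ g Ω → (∀ z ∈ Ω, fderiv ℂ f z = 0 → g z = 0) →
      ∀ z ∈ ball a ρ, g z = 0 := by
    intro g hg hgZ z hz
    by_cases hza : z = a
    · rw [hza]; exact hgZ a ha hfa
    set v : E := z - a with hv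
    have hvpos : 0 < ‖v‖ := norm_pos_iff.mpr (sub_ne_zero.mpr hza)
    set R : ℝ := ρ / ‖v‖ with hR
    have hRpos : 0 < R := by positivity
    have hline : ∀ t ∈ ball (0 : ℂ) R, a + t • v ∈ Ω := by
      intro t ht
      apply hball
      rw [mem_ball_iff_norm, add_sub_cancel_left, norm_smul]
      rw [mem_ball_zero_iff, hR, lt_div_iff₀ hvpos] at ht
      exact ht
    have hder : ∀ k : ℕ, ∀ G : E → ℂ, DifferentiableOn ℂ G Ω →
        (∀ z ∈ Ω, fderiv ℂ f z = 0 → G z = 0) →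
        iteratedDeriv k (fun t : ℂ => G (a + t • v)) 0 = 0 := by
      intro k
      induction k with
      | zero =>
        intro G hG hGZ
        simpa using hGZ a ha hfa
      | succ k ihk =>
        intro G hG hGZ
        rw [iteratedDeriv_succ']
        have heq : deriv (fun t : ℂ => G (a + t • v)) =ᶠ[𝓝 0]
            fun t : ℂ => fderiv ℂ G (a + t • v) v := by
          filter_upwards [isOpen_ball.mem_nhds (mem_ball_self hRpos)] with t ht
          have h1 : HasFDerivAt G (fderiv ℂ G (a + t • v)) (a + t • v) :=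
            (hG.differentiableAt (hΩ.mem_nhds (hline t ht))).hasFDerivAt
          have h2 : HasDerivAt (fun t : ℂ => a + t • v) v t := by
            simpa using ((hasDerivAt_id t).smul_const v).const_add a
          exact (h1.comp_hasDerivAt t h2).deriv
        rw [heq.iteratedDeriv_eq k]
        refine ihk (fun z => fderiv ℂ G z v) (SCV.differentiableOn_fderiv_apply hΩ hG v) ?_
        intro z hz hzf
        rw [hcon G hG hGZ z hz hzf]
        rfl
    have hdiff : DifferentiableOn ℂ (fun t : ℂ => g (a + t • v)) (ball 0 R) := by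
      intro t ht
      have h1 : DifferentiableAt ℂ g (a + t • v) :=
        hg.differentiableAt (hΩ.mem_nhds (hline t ht))
      have h2 : DifferentiableAt ℂ (fun t : ℂ => a + t • v) t := by fun_prop
      exact (h1.comp t h2).differentiableWithinAt
    have h1mem : (1 : ℂ) ∈ ball (0 : ℂ) R := by
      rw [mem_ball_zero_iff, norm_one, hR, one_lt_div hvpos]
      simpa [hv, dist_eq_norm] using hz
    have htay := Complex.taylorSeries_eq_on_ball hdiff h1mem
    simp only [hder _ g hg hgZ, smul_zero, tsum_zero, one_smul] at htay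
    rw [hv] at htay
    simpa using htay.symm
  have hzero : ∀ z ∈ ball a ρ, fderiv ℂ f z = 0 := by
    intro z hz
    ext u
    apply SeparatingDual.eq_zero_of_forall_dual_eq_zero (R := ℂ)
    intro ℓ
    refine key (fun z => ℓ (fderiv ℂ f z u)) ?_ ?_ z hz
    · exact ℓ.differentiable.comp_differentiableOn (SCV.differentiableOn_fderiv_apply hΩ hf u)
    · intro z _ hzf
      simp [hzf]
  obtain ⟨u, hu⟩ := exists_ne (0 : E)
  have hupos : 0 < ‖u‖ := norm_pos_iff.mpr hu
  set w : E := a + ((ρ / (2 * ‖u‖) : ℝ) : ℂ) • u with hw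
  have hwb : w ∈ ball a ρ := by
    rw [mem_ball_iff_norm, hw, add_sub_cancel_left, norm_smul, Complex.norm_real,
      Real.norm_eq_abs, abs_of_pos (by positivity)]
    have : ρ / (2 * ‖u‖) * ‖u‖ = ρ / 2 := by field_simp
    rw [this]; linarith
  have hab : a ∈ ball a ρ := mem_ball_self hρ
  have hconst : f w = f a := isOpen_ball.is_const_of_fderiv_eq_zero
    (convex_ball a ρ).isPreconnected (hf.mono hball) (fun z hz => hzero z hz) hwb hab
  have hwa := hinj (hball hwb) (hball hab) hconst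
  rw [hw] at hwa
  have : ((ρ / (2 * ‖u‖) : ℝ) : ℂ) • u = 0 := by simpa using hwa
  rcases smul_eq_zero.mp this with h | h
  · have : ρ / (2 * ‖u‖) = 0 := by exact_mod_cast h
    have h2 : 0 < ρ / (2 * ‖u‖) := by positivity
    linarith
  · exact hu h

theorem osgood_partB {m : ℕ} (hm : 1 ≤ m) (hE : Module.finrank ℂ E = m + 1)
    (hE' : Module.finrank ℂ E' = m + 1) {f : E → E'} {Ω : Set E} (hΩ : IsOpen Ω)
    (hf : DifferentiableOn ℂ f Ω) (hinj : InjOn f Ω)
    (hA : ∀ z ∈ Ω, fderiv ℂ f z ≠ 0 → Function.Injective (fderiv ℂ f z)) {a : E}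
    (ha : a ∈ Ω) : fderiv ℂ f a ≠ 0 := by
  intro hfa
  have : ProperSpace E := FiniteDimensional.proper ℂ E
  have : CompleteSpace E := FiniteDimensional.complete ℂ E
  have : CompleteSpace E' := FiniteDimensional.complete ℂ E'
  have hnt : Nontrivial E := Module.nontrivial_of_finrank_pos (R := ℂ) (by rw [hE]; omega)
  obtain ⟨g, hg, hgZ, z0, hz0, hfz0, hgz0⟩ := osgood_exists_g hΩ hf hinj ha hfa
  -- invertibility
  have hinv : ∀ z ∈ Ω, fderiv ℂ f z ≠ 0 → (fderiv ℂ f z).IsInvertible := by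
    intro z hz hne
    have hi := hA z hz hne
    let e := LinearEquiv.ofInjectiveOfFinrankEq (fderiv ℂ f z : E →ₗ[ℂ] E') hi
      (by rw [hE, hE'])
    refine ⟨e.toContinuousLinearEquiv, ?_⟩
    ext x
    rfl
  obtain ⟨v, hv⟩ : ∃ v, fderiv ℂ g z0 v ≠ 0 := by
    by_contra hcon
    push Not at hcon
    exact hgz0 (ContinuousLinearMap.ext hcon)
  obtain ⟨ψ, hψ0, hψd, ρ, hρ, hψdiff, hψinj, hψmaps, hψg⟩ := exists_straighten hΩ hg hz0 hv
  set L := fderiv ℂ g z0 with hL
  have hg0 : g z0 = 0 := hgZ z0 hz0 hfz0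
  have hvpos : 0 < ‖v‖ := norm_pos_iff.mpr (fun h => hv (by rw [h, map_zero]))
  have hLvpos : 0 < ‖L v‖ := norm_pos_iff.mpr hv
  -- strict differentiability of `g`
  have hstrict : HasStrictFDerivAt g L z0 :=
    (SCV.contDiffAt_of_differentiableOn hΩ hg hz0 (n := 1)).hasStrictFDerivAt one_ne_zero
  have hstr : ∀ᶠ p : E × E in 𝓝 (z0, z0),
      ‖g p.1 - g p.2 - L (p.1 - p.2)‖ ≤ (‖L v‖ / (2 * ‖v‖)) * ‖p.1 - p.2‖ :=
    hstrict.isLittleO.def (by positivity)
  obtain ⟨r1, hr1, hr1b⟩ := Metric.eventually_nhds_iff_ball.mp hstr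
  obtain ⟨r2, hr2, hr2b⟩ := Metric.isOpen_iff.mp hΩ z0 hz0
  set r : ℝ := min r1 r2 with hr
  have hrpos : 0 < r := lt_min hr1 hr2
  set ε : ℝ := r / (4 * ‖v‖) with hε
  have hεpos : 0 < ε := by positivity
  have hεv : ε * ‖v‖ = r / 4 := by rw [hε]; field_simp
  have hshift : ∀ z ∈ ball z0 (r / 2), ∀ t : ℂ, ‖t‖ ≤ ε → z + t • v ∈ ball z0 r := by
    intro z hz t ht
    rw [mem_ball_iff_norm] at hz ⊢
    have h1 : ‖t • v‖ ≤ r / 4 := by
      rw [norm_smul, ← hεv]; gcongr
    have h2 : z + t • v - z0 = (z - z0) + t • v := by abel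
    rw [h2]
    have := norm_add_le (z - z0) (t • v)
    linarith
  have hΩr : ball z0 r ⊆ Ω := fun z hz => hr2b (ball_subset_ball (min_le_right _ _) hz)
  have hginj : ∀ z ∈ ball z0 (r / 2), ∀ t : ℂ, ‖t‖ ≤ ε → g (z + t • v) = g z → t = 0 := by
    intro z hz t ht hgt
    by_contra htne
    have htpos : 0 < ‖t‖ := norm_pos_iff.mpr htne
    have hp : ((z + t • v, z) : E × E) ∈ ball ((z0, z0) : E × E) r1 := by
      rw [← ball_prod_same]
      refine ⟨ball_subset_ball (min_le_left _ _) (hshift z hz t ht),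
        ball_subset_ball ?_ hz⟩
      have : r ≤ r1 := min_le_left _ _
      linarith
    have h1 := hr1b _ hp
    simp only [hgt, sub_self, zero_sub, norm_neg, add_sub_cancel_left] at h1
    rw [map_smul, norm_smul, norm_smul] at h1
    have h2 : ‖L v‖ / (2 * ‖v‖) * (‖t‖ * ‖v‖) = ‖t‖ * ‖L v‖ / 2 := by field_simp
    rw [h2] at h1
    have : 0 < ‖t‖ * ‖L v‖ := by positivity
    linarith
  -- bounds of the inverse on the circle
  have hcontf : ContinuousOn (fderiv ℂ f) Ω :=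
    (SCV.contDiffOn_of_differentiableOn hΩ hf (n := 1)).continuousOn_fderiv_of_isOpen hΩ le_rfl
  have hdf : DifferentiableOn ℂ (fderiv ℂ f) Ω := by
    have := (SCV.contDiffOn_of_differentiableOn hΩ hf (n := 2))
    exact ((contDiffOn_succ_iff_fderiv_of_isOpen (n := 1) hΩ).mp this).2.2.differentiableOn
      one_ne_zero
  have hcirc : ∀ t ∈ sphere (0 : ℂ) ε, ContinuousAt (fun p : E × ℂ =>
      (fderiv ℂ f (p.1 + p.2 • v)).inverse) (z0, t) := by
    intro t ht
    rw [mem_sphere_zero_iff_norm] at ht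
    have hmem : z0 + t • v ∈ Ω := hΩr (hshift z0 (mem_ball_self (by positivity)) t ht.le)
    have hne : fderiv ℂ f (z0 + t • v) ≠ 0 := by
      intro h
      have h1 := hgZ _ hmem h
      have := hginj z0 (mem_ball_self (by positivity)) t ht.le (by rw [h1, hg0])
      rw [this, norm_zero] at ht
      exact hεpos.ne ht
    have h1 : ContinuousAt (fun p : E × ℂ => fderiv ℂ f (p.1 + p.2 • v)) (z0, t) := by
      refine ContinuousAt.comp (g := fderiv ℂ f) (f := fun p : E × ℂ => p.1 + p.2 • v) ?_ ?_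
      · exact (hcontf _ hmem).continuousAt (hΩ.mem_nhds hmem)
      · fun_prop
    have h2 : ContinuousAt ContinuousLinearMap.inverse (fderiv ℂ f (z0 + t • v)) :=
      ((hinv _ hmem hne).contDiffAt_map_inverse (n := 1)).continuousAt
    exact ContinuousAt.comp (g := ContinuousLinearMap.inverse)
      (f := fun p : E × ℂ => fderiv ℂ f (p.1 + p.2 • v)) h2 h1
  obtain ⟨C, hC⟩ : ∃ C : ℝ, ∀ t ∈ sphere (0 : ℂ) ε, ‖(fderiv ℂ f (z0 + t • v)).inverse‖ ≤ C := by
    apply (isCompact_sphere (0 : ℂ) ε).exists_bound_of_continuousOn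
    intro t ht
    have h1 := hcirc t ht
    have h2 : ContinuousAt (fun t : ℂ => ((z0, t) : E × ℂ)) t := by fun_prop
    exact (ContinuousAt.comp (g := fun p : E × ℂ => (fderiv ℂ f (p.1 + p.2 • v)).inverse)
      (f := fun t : ℂ => ((z0, t) : E × ℂ)) h1 h2).continuousWithinAt
  have hev : ∀ᶠ z in 𝓝 z0, ∀ t ∈ sphere (0 : ℂ) ε,
      ‖(fderiv ℂ f (z + t • v)).inverse‖ < C + 1 := by
    apply (isCompact_sphere (0 : ℂ) ε).eventually_forall_of_forall_eventually
    intro t ht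
    have h1 := (hcirc t ht).norm
    exact h1.eventually_lt continuousAt_const (lt_of_le_of_lt (hC t ht) (by linarith))
  have hC0 : 0 ≤ C := by
    obtain ⟨t, ht⟩ : (sphere (0 : ℂ) ε).Nonempty := NormedSpace.sphere_nonempty.mpr hεpos.le
    exact (norm_nonneg _).trans (hC t ht)
  have hev2 : ∀ᶠ z in 𝓝 z0, ‖fderiv ℂ f z‖ < 1 / (C + 1) := by
    have h1 : ContinuousAt (fun z => ‖fderiv ℂ f z‖) z0 :=
      ((hcontf _ hz0).continuousAt (hΩ.mem_nhds hz0)).norm
    refine h1.eventually_lt continuousAt_const ?_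
    rw [hfz0, norm_zero]; positivity
  have hev3 : ∀ᶠ z in 𝓝 z0, z ∈ ball z0 (r / 2) := isOpen_ball.mem_nhds (mem_ball_self (by positivity))
  -- zeros of `g` near `z0` are zeros of `Df`
  have hzero : ∀ᶠ z in 𝓝 z0, g z = 0 → fderiv ℂ f z = 0 := by
    filter_upwards [hev, hev2, hev3] with z hz1 hz2 hz3 hgz
    by_contra hne
    have hall : ∀ t : ℂ, ‖t‖ ≤ ε → z + t • v ∈ Ω ∧ (fderiv ℂ f (z + t • v)).IsInvertible := by
      intro t ht
      have hmem := hΩr (hshift z hz3 t ht)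
      refine ⟨hmem, hinv _ hmem ?_⟩
      intro h0
      have h1 := hgZ _ hmem h0
      have h2 := hginj z hz3 t ht (by rw [h1, hgz])
      rw [h2, zero_smul, add_zero] at h0
      exact hne h0
    have hd : DiffContOnCl ℂ (fun t : ℂ => (fderiv ℂ f (z + t • v)).inverse) (ball (0 : ℂ) ε) := by
      apply DifferentiableOn.diffContOnCl
      rw [closure_ball _ hεpos.ne']
      intro t ht
      rw [mem_closedBall_zero_iff] at ht
      obtain ⟨hmem, hiv⟩ := hall t ht
      have h1 : DifferentiableAt ℂ (fderiv ℂ f) (z + t • v) :=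
        hdf.differentiableAt (hΩ.mem_nhds hmem)
      have h2 : DifferentiableAt ℂ (fun t : ℂ => z + t • v) t := by fun_prop
      have h3 : DifferentiableAt ℂ ContinuousLinearMap.inverse (fderiv ℂ f (z + t • v)) :=
        (hiv.contDiffAt_map_inverse (n := 1)).differentiableAt one_ne_zero
      exact (DifferentiableAt.comp t (g := ContinuousLinearMap.inverse) h3
        (h1.comp t h2)).differentiableWithinAt
    have hbd : ∀ t ∈ frontier (ball (0 : ℂ) ε),
        ‖(fun t : ℂ => (fderiv ℂ f (z + t • v)).inverse) t‖ ≤ C + 1 := by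
      intro t ht
      rw [frontier_ball _ hεpos.ne'] at ht
      exact (hz1 t ht).le
    have h0 := Complex.norm_le_of_forall_mem_frontier_norm_le isBounded_ball hd hbd
      (subset_closure (mem_ball_self hεpos))
    simp only [zero_smul, add_zero] at h0
    have hiv : (fderiv ℂ f z).IsInvertible := by
      have := (hall 0 (by rw [norm_zero]; exact hεpos.le)).2
      rwa [zero_smul, add_zero] at this
    have h1 : (1 : ℝ) ≤ ‖(fderiv ℂ f z).inverse‖ * ‖fderiv ℂ f z‖ := by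
      have h2 := hiv.inverse_comp_self
      calc (1 : ℝ) = ‖ContinuousLinearMap.id ℂ E‖ := (ContinuousLinearMap.norm_id).symm
        _ = ‖(fderiv ℂ f z).inverse.comp (fderiv ℂ f z)‖ := by rw [← h2]
        _ ≤ _ := ContinuousLinearMap.opNorm_comp_le _ _
    have h3 : ‖(fderiv ℂ f z).inverse‖ * ‖fderiv ℂ f z‖ ≤ (C + 1) * ‖fderiv ℂ f z‖ := by
      gcongr
    have h4 : (C + 1) * ‖fderiv ℂ f z‖ < (C + 1) * (1 / (C + 1)) := by
      apply mul_lt_mul_of_pos_left hz2 (by positivity)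
    rw [mul_one_div_cancel (by positivity)] at h4
    linarith
  -- conclusion on the graph
  set K : Submodule ℂ E := LinearMap.ker (L : E →ₗ[ℂ] ℂ) with hK
  have hKr : Module.finrank ℂ K = m := by
    have h1 : (L : E →ₗ[ℂ] ℂ) ≠ 0 := by
      intro h
      exact hv (LinearMap.congr_fun h v)
    have := Module.Dual.finrank_ker_add_one_of_ne_zero h1
    rw [hE] at this
    exact Nat.succ_injective this
  have hKnt : Nontrivial K := Module.nontrivial_of_finrank_pos (R := ℂ) (by rw [hKr]; omega)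
  have hev4 : ∀ᶠ y in 𝓝 (0 : E), g (ψ y) = 0 → fderiv ℂ f (ψ y) = 0 := by
    have hc : Tendsto ψ (𝓝 0) (𝓝 z0) := by
      have := hψd.continuousAt.tendsto
      rwa [hψ0] at this
    exact hc.eventually hzero
  obtain ⟨ρ1, hρ1, hρ1b⟩ := Metric.eventually_nhds_iff_ball.mp hev4
  set ρ2 : ℝ := min ρ ρ1 with hρ2
  have hρ2pos : 0 < ρ2 := lt_min hρ hρ1
  have hK1 : ∀ y ∈ ball (0 : K) ρ2, (y : E) ∈ ball (0 : E) ρ ∧ fderiv ℂ f (ψ y) = 0 := by
    intro y hy
    have hy1 : (y : E) ∈ ball (0 : E) ρ2 := by simpa using hy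
    have hy2 : (y : E) ∈ ball (0 : E) ρ := ball_subset_ball (min_le_left _ _) hy1
    refine ⟨hy2, hρ1b _ (ball_subset_ball (min_le_right _ _) hy1) ?_⟩
    have h1 := hψg _ hy2
    have h2 : L (y : E) = 0 := y.2
    rw [h1, hg0, h2, add_zero]
  have hder : ∀ y ∈ ball (0 : K) ρ2, HasFDerivAt (fun y : K => f (ψ y)) (0 : K →L[ℂ] E') y := by
    intro y hy
    obtain ⟨hy1, hy2⟩ := hK1 y hy
    have h1 : HasFDerivAt ψ (fderiv ℂ ψ y) (y : E) :=
      (hψdiff.differentiableAt (isOpen_ball.mem_nhds hy1)).hasFDerivAt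
    have h2 : HasFDerivAt (fun y : K => ψ y) ((fderiv ℂ ψ y).comp K.subtypeL) y :=
      HasFDerivAt.comp y (g := ψ) (f := fun y : K => (y : E)) h1 K.subtypeL.hasFDerivAt
    have h3 : HasFDerivAt f (0 : E →L[ℂ] E') (ψ y) := by
      rw [← hy2]
      exact (hf.differentiableAt (hΩ.mem_nhds (hψmaps hy1))).hasFDerivAt
    have := HasFDerivAt.comp y (g := f) (f := fun y : K => ψ y) h3 h2
    rw [ContinuousLinearMap.zero_comp] at this
    exact this
  obtain ⟨u, hu⟩ := exists_ne (0 : K)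
  have hupos : 0 < ‖u‖ := norm_pos_iff.mpr hu
  set w : K := ((ρ2 / (2 * ‖u‖) : ℝ) : ℂ) • u with hw
  have hwb : w ∈ ball (0 : K) ρ2 := by
    rw [mem_ball_zero_iff, hw, norm_smul, Complex.norm_real,
      Real.norm_eq_abs, abs_of_pos (by positivity)]
    have : ρ2 / (2 * ‖u‖) * ‖u‖ = ρ2 / 2 := by field_simp
    rw [this]; linarith
  have hab : (0 : K) ∈ ball (0 : K) ρ2 := mem_ball_self hρ2pos
  have hconst : f (ψ w) = f (ψ ((0 : K) : E)) := isOpen_ball.is_const_of_fderiv_eq_zero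
    (convex_ball (0 : K) ρ2).isPreconnected (f := fun y : K => f (ψ y))
    (fun y hy => (hder y hy).differentiableAt.differentiableWithinAt)
    (fun y hy => (hder y hy).fderiv) hwb hab
  have h1 := hinj (hψmaps (hK1 w hwb).1) (hψmaps (hK1 0 hab).1) hconst
  have h2 := hψinj (hK1 w hwb).1 (hK1 0 hab).1 h1
  have hw0 : w = 0 := Subtype.ext h2
  rw [hw] at hw0
  rcases smul_eq_zero.mp hw0 with h | h
  · have : ρ2 / (2 * ‖u‖) = 0 := by exact_mod_cast h
    have h2 : 0 < ρ2 / (2 * ‖u‖) := by positivity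
    linarith
  · exact hu h

end step

theorem osgoodP (n : ℕ) : OsgoodP.{u, v} n := by
  induction n with
  | zero =>
    intro E _ _ _ E' _ _ _ hE hE' f Ω hΩ hf hinj a ha
    have : Subsingleton E := Module.finrank_zero_iff.mp hE
    exact Function.injective_of_subsingleton _
  | succ m ih =>
    intro E _ _ _ E' _ _ _ hE hE' f Ω hΩ hf hinj a ha
    have hA : ∀ z ∈ Ω, fderiv ℂ f z ≠ 0 → Function.Injective (fderiv ℂ f z) := fun z hz hne =>
      osgood_partA ih hE hE' hΩ hf hinj hz hne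
    refine hA a ha ?_
    rcases Nat.eq_zero_or_pos m with hm | hm
    · subst hm
      exact osgood_one hE hE' hΩ hf hinj ha
    · exact osgood_partB hm hE hE' hΩ hf hinj hA ha

section final
variable {E : Type*} [NormedAddCommGroup E] [NormedSpace ℂ E] [FiniteDimensional ℂ E]

/-- Osgood: an injective holomorphic map between equidimensional spaces is locally biholomorphic. -/
theorem iA2 {f : E → E} {Ω : Set E} (hΩ : IsOpen Ω) (hf : DifferentiableOn ℂ f Ω)
    (hinj : InjOn f Ω) {a : E} (ha : a ∈ Ω) : Function.Bijective (fderiv ℂ f a) := by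
  have hi : Function.Injective (fderiv ℂ f a) :=
    osgoodP (Module.finrank ℂ E) E E rfl rfl f Ω hΩ hf hinj a ha
  exact ⟨hi, (LinearMap.injective_iff_surjective (f := (fderiv ℂ f a : E →ₗ[ℂ] E))).mp hi⟩

theorem iA3 {f : E → E} {Ω : Set E} (hΩ : IsOpen Ω) (hf : DifferentiableOn ℂ f Ω)
    (hinj : InjOn f Ω) :
    ∃ g : E → E, IsOpen (f '' Ω) ∧ DifferentiableOn ℂ g (f '' Ω) ∧ ∀ z ∈ Ω, g (f z) = z := by
  have : CompleteSpace E := FiniteDimensional.complete ℂ E
  have hne : Nonempty E := ⟨0⟩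
  -- strict derivative given by an equivalence at each point
  have hstrict : ∀ a ∈ Ω, ∃ e : E ≃L[ℂ] E, HasStrictFDerivAt f (e : E →L[ℂ] E) a := by
    intro a ha
    obtain ⟨hi, hs⟩ := iA2 hΩ hf hinj ha
    let e0 := LinearEquiv.ofBijective (fderiv ℂ f a : E →ₗ[ℂ] E) ⟨hi, hs⟩
    refine ⟨e0.toContinuousLinearEquiv, ?_⟩
    have h1 : ((e0.toContinuousLinearEquiv : E ≃L[ℂ] E) : E →L[ℂ] E) = fderiv ℂ f a := by
      ext x; rfl
    rw [h1]
    exact (SCV.contDiffAt_of_differentiableOn hΩ hf ha (n := 1)).hasStrictFDerivAt one_ne_zero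
  have hmap : ∀ a ∈ Ω, map f (𝓝 a) = 𝓝 (f a) := by
    intro a ha
    obtain ⟨e, he⟩ := hstrict a ha
    exact he.map_nhds_eq_of_equiv
  set g : E → E := Function.invFunOn f Ω with hg
  have hgf : ∀ z ∈ Ω, g (f z) = z := fun z hz => hinj.leftInvOn_invFunOn hz
  have hopen : IsOpen (f '' Ω) := by
    rw [isOpen_iff_mem_nhds]
    rintro _ ⟨a, ha, rfl⟩
    rw [← hmap a ha]
    exact image_mem_map (hΩ.mem_nhds ha)
  refine ⟨g, hopen, ?_, hgf⟩
  rintro _ ⟨a, ha, rfl⟩
  obtain ⟨e, he⟩ := hstrict a ha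
  have hcont : ContinuousAt g (f a) := by
    rw [ContinuousAt, hgf a ha, ← hmap a ha, tendsto_map'_iff]
    refine Tendsto.congr' (f₁ := id) ?_ tendsto_id
    filter_upwards [hΩ.mem_nhds ha] with z hz
    exact (hgf z hz).symm
  have h1 : HasFDerivAt f (e : E →L[ℂ] E) (g (f a)) := by
    rw [hgf a ha]; exact he.hasFDerivAt
  have h2 : ∀ᶠ y in 𝓝 (f a), f (g y) = y := by
    filter_upwards [hopen.mem_nhds (mem_image_of_mem f ha)] with y hy
    obtain ⟨z, hz, rfl⟩ := hy
    rw [hgf z hz]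
  exact (HasFDerivAt.of_local_left_inverse hcont h1 h2).differentiableAt.differentiableWithinAt

end final

end Pool.Agent.Sqz
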