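import Pool.Agent.Work.MP_0e9e72_an.Defs

/-!
Potential theory basics: additivity and chain rule for `Lev`, second derivative test,
weak maximum principle in the plane, harmonicity of `log ‖z - c‖`.
-/

set_option autoImplicit false

open Complex Metric Set Filter Topology

namespace Pool.Agent.Sqz

section calculus
variable {E : Type*} [NormedAddCommGroup E] [NormedSpace ℂ E]
variable {E' : Type*} [NormedAddCommGroup E'] [NormedSpace ℂ E']

theorem differentiableAt_fderiv_of_contDiffAt' {F : Type*} [NormedAddCommGroup F] [NormedSpace ℝ F]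
    {r : F → ℝ} {z : F} (hr : ContDiffAt ℝ 2 r z) : DifferentiableAt ℝ (fderiv ℝ r) z :=
  (hr.fderiv_right (m := 1) (by norm_num)).differentiableAt (by norm_num)

theorem differentiableAt_fderiv_of_contDiffAt {r : E → ℝ} {z : E} (hr : ContDiffAt ℝ 2 r z) :
    DifferentiableAt ℝ (fderiv ℝ r) z :=
  (hr.fderiv_right (m := 1) (by norm_num)).differentiableAt (by norm_num)

theorem eventually_differentiableAt_of_contDiffAt {r : E → ℝ} {z : E} (hr : ContDiffAt ℝ 2 r z) :
    ∀ᶠ y in 𝓝 z, DifferentiableAt ℝ r y := by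
  have h := (hr.eventually (by simp))
  filter_upwards [h] with y hy
  exact hy.differentiableAt (by norm_num)

theorem Lev_add {r s : E → ℝ} {z : E} (hr : ContDiffAt ℝ 2 r z) (hs : ContDiffAt ℝ 2 s z) (v : E) :
    Lev (fun y => r y + s y) z v = Lev r z v + Lev s z v := by
  have h : fderiv ℝ (fun y => r y + s y) =ᶠ[𝓝 z] fun y => fderiv ℝ r y + fderiv ℝ s y := by
    filter_upwards [eventually_differentiableAt_of_contDiffAt hr,
      eventually_differentiableAt_of_contDiffAt hs] with y h1 h2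
    exact fderiv_fun_add h1 h2
  simp only [Lev]
  rw [h.fderiv_eq, fderiv_fun_add (differentiableAt_fderiv_of_contDiffAt hr)
    (differentiableAt_fderiv_of_contDiffAt hs)]
  simp only [_root_.add_apply]
  ring

theorem Lev_const_mul {r : E → ℝ} {z : E} (c : ℝ) (v : E) (hr : ContDiffAt ℝ 2 r z) :
    Lev (fun y => c * r y) z v = c * Lev r z v := by
  have h : fderiv ℝ (fun y => c * r y) =ᶠ[𝓝 z] fun y => c • fderiv ℝ r y := by
    filter_upwards [eventually_differentiableAt_of_contDiffAt hr] with y h1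
    exact fderiv_const_mul h1 c
  simp only [Lev]
  rw [h.fderiv_eq, fderiv_fun_const_smul (differentiableAt_fderiv_of_contDiffAt hr)]
  simp only [_root_.smul_apply, smul_eq_mul]
  ring

theorem Lev_neg {r : E → ℝ} {z : E} (v : E) (hr : ContDiffAt ℝ 2 r z) :
    Lev (fun y => - r y) z v = - Lev r z v := by
  have := Lev_const_mul (-1) v hr
  simpa using this

theorem Lev_sub {r s : E → ℝ} {z : E} (hr : ContDiffAt ℝ 2 r z) (hs : ContDiffAt ℝ 2 s z) (v : E) :
    Lev (fun y => r y - s y) z v = Lev r z v - Lev s z v := by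
  have h : Lev (fun y => r y + -s y) z v = Lev r z v + Lev (fun y => -s y) z v :=
    Lev_add hr hs.neg v
  rw [Lev_neg v hs] at h
  simpa [sub_eq_add_neg] using h

theorem Lev_congr {r s : E → ℝ} {z : E} (h : r =ᶠ[𝓝 z] s) (v : E) : Lev r z v = Lev s z v := by
  have h1 : fderiv ℝ r =ᶠ[𝓝 z] fderiv ℝ s := h.fderiv
  simp only [Lev]
  rw [h1.fderiv_eq]

theorem Lev_const (c : ℝ) (z v : E) : Lev (fun _ : E => c) z v = 0 := by
  simp [Lev]

/-- chain rule for the Levi form under holomorphic maps -/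
theorem Lev_comp {r : E → ℝ} {g : E' → E} {z v : E'} (hr : ContDiffAt ℝ 2 r (g z))
    (hg : ContDiffAt ℂ 2 g z) :
    Lev (fun y => r (g y)) z v = Lev r (g z) (fderiv ℂ g z v) := by
  have hgd : ∀ᶠ y in 𝓝 z, DifferentiableAt ℂ g y := by
    filter_upwards [hg.eventually (by simp)] with y hy
    exact hy.differentiableAt (by norm_num)
  have hgz : DifferentiableAt ℂ g z := hgd.self_of_nhds
  have hrd : ∀ᶠ y in 𝓝 z, DifferentiableAt ℝ r (g y) :=
    hgz.continuousAt.eventually (eventually_differentiableAt_of_contDiffAt hr)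
  have hfd : fderiv ℝ (fun y => r (g y)) =ᶠ[𝓝 z]
      fun y => (fderiv ℝ r (g y)).comp ((fderiv ℂ g y).restrictScalars ℝ) := by
    filter_upwards [hgd, hrd] with y h1 h2
    exact (h2.hasFDerivAt.comp y (h1.hasFDerivAt.restrictScalars ℝ)).fderiv
  -- derivative of `y ↦ fderiv ℂ g y`
  have hg2 : HasFDerivAt (fderiv ℂ g) (fderiv ℂ (fderiv ℂ g) z) z :=
    ((hg.fderiv_right (m := 1) (by norm_num)).differentiableAt (by norm_num)).hasFDerivAt
  have hg3 : HasFDerivAt (fun y => (fderiv ℂ g y).restrictScalars ℝ)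
      ((ContinuousLinearMap.restrictScalarsL ℂ E' E ℝ ℝ).comp
        ((fderiv ℂ (fderiv ℂ g) z).restrictScalars ℝ)) z :=
    (ContinuousLinearMap.restrictScalarsL ℂ E' E ℝ ℝ).hasFDerivAt.comp z
      (hg2.restrictScalars ℝ)
  have hr2 : HasFDerivAt (fun y => fderiv ℝ r (g y))
      ((fderiv ℝ (fderiv ℝ r) (g z)).comp ((fderiv ℂ g z).restrictScalars ℝ)) z :=
    (differentiableAt_fderiv_of_contDiffAt hr).hasFDerivAt.comp z
      (hgz.hasFDerivAt.restrictScalars ℝ)
  have key : ∀ w : E', fderiv ℝ (fderiv ℝ (fun y => r (g y))) z w w =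
      fderiv ℝ (fderiv ℝ r) (g z) (fderiv ℂ g z w) (fderiv ℂ g z w) +
        fderiv ℝ r (g z) (fderiv ℂ (fderiv ℂ g) z w w) := by
    intro w
    rw [hfd.fderiv_eq, (hr2.clm_comp hg3).fderiv]
    simp
    ring
  simp only [Lev]
  rw [key v, key (I • v)]
  have h1 : fderiv ℂ (fderiv ℂ g) z (I • v) (I • v) = - fderiv ℂ (fderiv ℂ g) z v v := by
    simp only [map_smul, _root_.smul_apply, smul_smul, Complex.I_mul_I, neg_smul,
      one_smul]
  rw [h1, map_neg, map_smul]
  ring

/-- second derivative along a line -/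
theorem deriv_deriv_line {f : E → ℝ} {z : E} (hf : ContDiffAt ℝ 2 f z) (v : E) :
    deriv (deriv fun t : ℝ => f (z + t • v)) 0 = fderiv ℝ (fderiv ℝ f) z v v ∧
      deriv (fun t : ℝ => f (z + t • v)) 0 = fderiv ℝ f z v := by
  have hl : ∀ t : ℝ, HasDerivAt (fun t : ℝ => z + t • v) v t := by
    intro t
    simpa using ((hasDerivAt_id t).smul_const v).const_add z
  have hcont : Tendsto (fun t : ℝ => z + t • v) (𝓝 0) (𝓝 z) := by
    have := (hl 0).continuousAt.tendsto
    simpa using this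
  have hev : deriv (fun t : ℝ => f (z + t • v)) =ᶠ[𝓝 0] fun t => fderiv ℝ f (z + t • v) v := by
    filter_upwards [hcont.eventually (eventually_differentiableAt_of_contDiffAt hf)] with t ht
    exact (ht.hasFDerivAt.comp_hasDerivAt t (hl t)).deriv
  constructor
  · rw [hev.deriv_eq]
    have h1 : HasFDerivAt (fderiv ℝ f) (fderiv ℝ (fderiv ℝ f) z) (z + (0 : ℝ) • v) := by
      simpa using (differentiableAt_fderiv_of_contDiffAt hf).hasFDerivAt
    have h2 := (h1.comp_hasDerivAt (0 : ℝ) (hl 0)).clm_apply (hasDerivAt_const (0 : ℝ) v)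
    simpa using h2.deriv
  · rw [hev.self_of_nhds]
    simp

/-- second derivative test at a local maximum -/
theorem snd_deriv_nonpos_of_isLocalMax {f : E → ℝ} {z : E} (hf : ContDiffAt ℝ 2 f z)
    (hm : IsLocalMax f z) (v : E) : fderiv ℝ (fderiv ℝ f) z v v ≤ 0 := by
  by_contra hcon
  push Not at hcon
  obtain ⟨h2, h1⟩ := deriv_deriv_line hf v
  set φ : ℝ → ℝ := fun t => f (z + t • v) with hφ
  have hcont : Tendsto (fun t : ℝ => z + t • v) (𝓝 0) (𝓝 z) := by
    have : Continuous (fun t : ℝ => z + t • v) := by fun_prop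
    simpa using this.tendsto 0
  have hmax : IsLocalMax φ 0 := by
    have := hcont.eventually hm
    filter_upwards [this] with t ht
    simpa [hφ] using ht
  have hd0 : deriv φ 0 = 0 := hmax.deriv_eq_zero
  have hc : ContinuousAt φ 0 := by
    have h3 : ContinuousAt f (z + (0 : ℝ) • v) := by
      simpa using hf.continuousAt
    exact ContinuousAt.comp (f := fun t : ℝ => z + t • v) h3
      (by fun_prop)
  have hmin : IsLocalMin φ 0 := isLocalMin_of_deriv_deriv_pos (by rw [h2]; exact hcon) hd0 hc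
  have hconst : φ =ᶠ[𝓝 0] fun _ => φ 0 := by
    filter_upwards [hmax, hmin] with t ht1 ht2
    exact le_antisymm ht1 ht2
  have : deriv (deriv φ) 0 = 0 := by
    have h4 : deriv φ =ᶠ[𝓝 0] deriv (fun _ : ℝ => φ 0) := hconst.deriv
    rw [h4.deriv_eq]
    simp
  rw [h2] at this
  linarith

end calculus

/-! ### the plane -/

theorem Lev_one_eq_laplacian (s : ℂ → ℝ) (z : ℂ) : Lev s z 1 = Laplacian.laplacian s z := by
  rw [InnerProductSpace.laplacian_eq_iteratedFDeriv_complexPlane]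
  simp [Lev, iteratedFDeriv_two_apply]

theorem Lev_normSq (c z : ℂ) : ContDiffAt ℝ 2 (fun w : ℂ => ‖w - c‖ ^ 2) z ∧
    Lev (fun w : ℂ => ‖w - c‖ ^ 2) z 1 = 4 := by
  have hcd : ∀ z, ContDiffAt ℝ 2 (fun w : ℂ => ‖w - c‖ ^ 2) z := by
    intro z
    exact ((contDiff_id.sub contDiff_const).norm_sq ℝ).contDiffAt
  refine ⟨hcd z, ?_⟩
  have h1 := (deriv_deriv_line (hcd z) (1 : ℂ)).1
  have h2 := (deriv_deriv_line (hcd z) (I : ℂ)).1
  have e : ∀ v : ℂ, ‖v‖ = 1 → deriv (deriv fun t : ℝ => ‖z + t • v - c‖ ^ 2) 0 = 2 := by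
    intro v hv
    have hform : (fun t : ℝ => ‖z + t • v - c‖ ^ 2) =
        fun t : ℝ => ‖z - c‖ ^ 2 + t * (2 * ((z - c) * (starRingEnd ℂ) v).re) + t ^ 2 := by
      funext t
      have hv2 : v.re * v.re + v.im * v.im = 1 := by
        have := Complex.sq_norm v
        rw [hv, Complex.normSq_apply] at this
        linarith
      rw [Complex.sq_norm, Complex.sq_norm, Complex.normSq_apply, Complex.normSq_apply]
      simp only [Complex.sub_re, Complex.add_re, Complex.real_smul, Complex.mul_re,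
        Complex.ofReal_re, Complex.ofReal_im, Complex.sub_im, Complex.add_im, Complex.mul_im,
        Complex.conj_re, Complex.conj_im]
      linear_combination t ^ 2 * hv2
    rw [hform]
    have hd : deriv (fun t : ℝ => ‖z - c‖ ^ 2 + t * (2 * ((z - c) * (starRingEnd ℂ) v).re) + t ^ 2)
        = fun t => (2 * ((z - c) * (starRingEnd ℂ) v).re) + 2 * t := by
      funext t
      have : HasDerivAt (fun t : ℝ => ‖z - c‖ ^ 2 +
          t * (2 * ((z - c) * (starRingEnd ℂ) v).re) + t ^ 2)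
          ((2 * ((z - c) * (starRingEnd ℂ) v).re) + 2 * t) t := by
        have h := (((hasDerivAt_id t).mul_const (2 * ((z - c) * (starRingEnd ℂ) v).re)).const_add
          (‖z - c‖ ^ 2)).fun_add (hasDerivAt_pow 2 t)
        simpa using h
      exact this.deriv
    rw [hd]
    have : HasDerivAt (fun t : ℝ => (2 * ((z - c) * (starRingEnd ℂ) v).re) + 2 * t) 2 0 := by
      simpa using ((hasDerivAt_id (0 : ℝ)).const_mul 2).const_add
        (2 * ((z - c) * (starRingEnd ℂ) v).re)
    exact this.deriv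
  rw [e 1 (by simp)] at h1
  rw [e I (by simp)] at h2
  simp only [Lev, smul_eq_mul, mul_one]
  rw [← h1, ← h2]
  norm_num

theorem Lev_log_norm {c z : ℂ} (h : z ≠ c) :
    ContDiffAt ℝ 2 (fun w : ℂ => Real.log ‖w - c‖) z ∧
      Lev (fun w : ℂ => Real.log ‖w - c‖) z 1 = 0 := by
  have ha : AnalyticAt ℂ (fun w : ℂ => w - c) z := by fun_prop
  have hh : InnerProductSpace.HarmonicAt (fun w : ℂ => Real.log ‖w - c‖) z :=
    ha.harmonicAt_log_norm (sub_ne_zero.2 h)
  refine ⟨hh.1, ?_⟩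
  rw [Lev_one_eq_laplacian]
  exact hh.2.self_of_nhds

/-- weak maximum principle for `C²` subharmonic functions on a compact set of the plane -/
theorem max_principle {K : Set ℂ} (hK : IsCompact K) {u : ℂ → ℝ} (hc : ContinuousOn u K)
    (h2 : ∀ z ∈ interior K, ContDiffAt ℝ 2 u z) (hL : ∀ z ∈ interior K, 0 ≤ Lev u z 1) {M : ℝ}
    (hb : ∀ z ∈ K, z ∉ interior K → u z ≤ M) : ∀ z ∈ K, u z ≤ M := by
  intro z₀ hz₀
  obtain ⟨B, hB⟩ : ∃ B : ℝ, 0 < B ∧ ∀ z ∈ K, ‖z - 0‖ ^ 2 ≤ B := by
    obtain ⟨R, hR⟩ := hK.isBounded.exists_norm_le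
    refine ⟨R ^ 2 + 1, by positivity, fun z hz => ?_⟩
    have := hR z hz
    have h0 := norm_nonneg z
    rw [sub_zero]
    nlinarith
  refine le_of_forall_pos_le_add fun ε hε => ?_
  set δ : ℝ := ε / B with hδ
  have hδ0 : 0 < δ := div_pos hε hB.1
  set w : ℂ → ℝ := fun z => u z + δ * ‖z - 0‖ ^ 2 with hw
  have hwc : ContinuousOn w K := by
    refine hc.add (Continuous.continuousOn ?_)
    fun_prop
  obtain ⟨x, hxK, hx⟩ := hK.exists_isMaxOn ⟨z₀, hz₀⟩ hwc
  have hxb : x ∉ interior K := by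
    intro hxi
    have hcd := h2 x hxi
    obtain ⟨hn1, hn2⟩ := Lev_normSq 0 x
    have hcd2 : ContDiffAt ℝ 2 (fun z : ℂ => δ * ‖z - 0‖ ^ 2) x := contDiffAt_const.mul hn1
    have hlm : IsLocalMax w x := hx.isLocalMax (mem_interior_iff_mem_nhds.1 hxi)
    have hwcd : ContDiffAt ℝ 2 w x := hcd.add hcd2
    have h3 := snd_deriv_nonpos_of_isLocalMax hwcd hlm 1
    have h4 := snd_deriv_nonpos_of_isLocalMax hwcd hlm (I • (1 : ℂ))
    have h5 : Lev w x 1 ≤ 0 := by
      simp only [Lev]; linarith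
    have h6 : Lev w x 1 = Lev u x 1 + δ * 4 := by
      rw [hw, Lev_add hcd hcd2, Lev_const_mul _ _ hn1, hn2]
    have := hL x hxi
    linarith
  have h7 : w z₀ ≤ w x := hx hz₀
  have h8 : u x ≤ M := hb x hxK hxb
  have h9 : δ * ‖x - 0‖ ^ 2 ≤ ε := by
    calc δ * ‖x - 0‖ ^ 2 ≤ δ * B := by
          gcongr
          exact hB.2 x hxK
      _ = ε := by rw [hδ]; field_simp [hB.1.ne']
  have h10 : 0 ≤ δ * ‖z₀ - 0‖ ^ 2 := by positivity
  simp only [hw] at h7
  linarith

end Pool.Agent.Sqz
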