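/-
SCV basics, part B: Osgood's theorem. An injective holomorphic map between open sets of complex
vector spaces of the same finite dimension has invertible derivative everywhere.
-/
import Mathlib
import Pool.Agent.Work.MP_0e9e72_an.SCVA

set_option autoImplicit false

open Set Metric Filter Topology

namespace SCV

/-- Implicit function in the last (scalar) variable. -/
theorem graph_lemma {K : Type*} [NormedAddCommGroup K] [NormedSpace ℂ K] [CompleteSpace K]
    {p : K × ℂ → ℂ} (hp : ContDiffAt ℂ 1 p (0, 0)) (hd : fderiv ℂ p (0, 0) (0, 1) ≠ 0) :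
    ∃ φ : K → ℂ, ContDiffAt ℂ 1 φ 0 ∧ φ 0 = 0 ∧ (∀ᶠ k in 𝓝 (0 : K), p (k, φ k) = p (0, 0)) ∧
      (∀ᶠ q in 𝓝 ((0, 0) : K × ℂ), p q = p (0, 0) → φ q.1 = q.2) ∧
      (∀ k, fderiv ℂ p (0, 0) (k, 0) = 0 → fderiv ℂ φ 0 k = 0) := by
  have hinv : (fderiv ℂ p (0, 0) ∘L .inr ℂ K ℂ).IsInvertible := by
    set c := fderiv ℂ p (0, 0) (0, 1) with hc
    refine ⟨ContinuousLinearEquiv.unitsEquivAut ℂ (Units.mk0 c hd), ?_⟩
    ext
    simp [hc]
  have h1 := hp.implicitFunction_apply_self (one_ne_zero) hinv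
  have h2 := hp.eventually_apply_implicitFunction (one_ne_zero) hinv
  have h3 := hp.eventually_apply_eq_iff_implicitFunction (one_ne_zero) hinv
  have h4 := hp.contDiffAt_implicitFunction (one_ne_zero) hinv
  have h5 := hp.hasStrictFDerivAt_implicitFunction (one_ne_zero) hinv
  refine ⟨hp.implicitFunction one_ne_zero hinv, h4, h1, h2, ?_, ?_⟩
  · filter_upwards [h3] with q hq h using hq.mp h
  · intro k hk
    have : fderiv ℂ (hp.implicitFunction one_ne_zero hinv) 0
        = -(fderiv ℂ p (0, 0) ∘L .inr ℂ K ℂ).inverse ∘L (fderiv ℂ p (0, 0) ∘L .inl ℂ K ℂ) :=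
      h5.hasFDerivAt.fderiv
    rw [this]
    simp [hk]

/-- One variable: an injective holomorphic function has nonvanishing derivative. -/
theorem deriv_ne_zero_of_injOn {U : Set ℂ} (hU : IsOpen U) {f : ℂ → ℂ}
    (hf : DifferentiableOn ℂ f U) (hinj : InjOn f U) {a : ℂ} (ha : a ∈ U) : deriv f a ≠ 0 := by
  have han : ∀ z ∈ U, AnalyticAt ℂ f z := fun z hz => hf.analyticAt (hU.mem_nhds hz)
  have hnc : ∀ z ∈ U, ¬ ∀ᶠ w in 𝓝 z, f w = f z := by
    intro z hz h
    have h1 : ∀ᶠ w in 𝓝[≠] z, f w = f z := h.filter_mono nhdsWithin_le_nhds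
    have h2 : ∀ᶠ w in 𝓝[≠] z, w ∈ U := (hU.mem_nhds hz |> fun h => mem_nhdsWithin_of_mem_nhds h)
    obtain ⟨w, ⟨hw1, hw2⟩, hw3⟩ := ((h1.and h2).and eventually_mem_nhdsWithin).exists
    exact hw3 (hinj hw2 hz hw1)
  have hopen : ∀ z ∈ U, 𝓝 (f z) ≤ map f (𝓝 z) := fun z hz =>
    ((han z hz).eventually_constant_or_nhds_le_map_nhds).resolve_left (hnc z hz)
  set g := Function.invFunOn f U with hg
  have hgf : ∀ z ∈ U, g (f z) = z := fun z hz => hinj.leftInvOn_invFunOn hz
  -- `g` is continuous at `f z`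
  have hgc : ∀ z ∈ U, Tendsto g (𝓝 (f z)) (𝓝 z) := by
    intro z hz
    refine (Tendsto.mono_left ?_ (hopen z hz))
    rw [tendsto_map'_iff]
    refine tendsto_id.congr' ?_
    filter_upwards [hU.mem_nhds hz] with w hw using (hgf w hw).symm
  have himg : ∀ z ∈ U, ∀ᶠ b in 𝓝 (f z), ∃ w ∈ U, f w = b := by
    intro z hz
    have : f '' U ∈ 𝓝 (f z) := hopen z hz (image_mem_map (hU.mem_nhds hz))
    filter_upwards [this] with b hb
    obtain ⟨w, hw, rfl⟩ := hb
    exact ⟨w, hw, rfl⟩
  -- derivative is nonzero in a punctured neighbourhood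
  have hne : ∀ᶠ w in 𝓝[≠] a, deriv f w ≠ 0 := by
    rcases (han a ha).deriv.eventually_eq_zero_or_eventually_ne_zero with h | h
    · exfalso
      apply hnc a ha
      obtain ⟨r, hr, hrU⟩ := Metric.isOpen_iff.mp hU a ha
      obtain ⟨s, hs, hsz⟩ := Metric.eventually_nhds_iff_ball.mp h
      have hm : 0 < min r s := lt_min hr hs
      filter_upwards [ball_mem_nhds a hm] with w hw
      have hd : DifferentiableOn ℂ f (ball a (min r s)) :=
        hf.mono ((ball_subset_ball (min_le_left _ _)).trans hrU)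
      refine (convex_ball a (min r s)).is_const_of_fderivWithin_eq_zero hd ?_ hw (mem_ball_self hm)
      intro x hx
      rw [fderivWithin_of_isOpen isOpen_ball hx]
      have := hsz x (ball_subset_ball (min_le_right _ _) hx)
      ext
      simpa using this
    · exact h
  -- `g` is differentiable in a punctured neighbourhood of `f a`
  have hgd : ∀ᶠ b in 𝓝[≠] (f a), DifferentiableAt ℂ g b := by
    have hgt : Tendsto g (𝓝[≠] (f a)) (𝓝[≠] a) := by
      refine tendsto_nhdsWithin_iff.mpr ⟨(hgc a ha).mono_left nhdsWithin_le_nhds, ?_⟩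
      filter_upwards [(himg a ha).filter_mono nhdsWithin_le_nhds, eventually_mem_nhdsWithin]
        with b ⟨w, hw, hwb⟩ hb hba
      apply hb
      rw [mem_singleton_iff, ← hwb, hgf w hw] at hba
      rw [← hwb, hba]; rfl
    filter_upwards [hgt.eventually hne, (himg a ha).filter_mono nhdsWithin_le_nhds]
      with b hb ⟨w, hw, hwb⟩
    rw [← hwb, hgf w hw] at hb
    have h1 : HasDerivAt f (deriv f w) w :=
      (hf.differentiableAt (hU.mem_nhds hw)).hasDerivAt
    rw [← hwb]
    refine (HasDerivAt.of_local_left_inverse (f := f) (g := g) (f' := deriv f w) (a := f w)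
      ?_ ?_ hb ?_).differentiableAt
    · have := hgc w hw
      rw [ContinuousAt, hgf w hw]; exact this
    · rw [hgf w hw]; exact h1
    · filter_upwards [himg w hw] with b ⟨x, hx, hxb⟩
      rw [← hxb, hgf x hx]
  have hga : AnalyticAt ℂ g (f a) :=
    Complex.analyticAt_of_differentiable_on_punctured_nhds_of_continuousAt hgd
      (by rw [ContinuousAt, hgf a ha]; exact hgc a ha)
  have hcomp : HasDerivAt (g ∘ f) (deriv g (f a) * deriv f a) a :=
    (hga.differentiableAt.hasDerivAt).comp a ((hf.differentiableAt (hU.mem_nhds ha)).hasDerivAt)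
  have hid : HasDerivAt (g ∘ f) 1 a := by
    refine (hasDerivAt_id a).congr_of_eventuallyEq ?_
    filter_upwards [hU.mem_nhds ha] with w hw
    simp [hgf w hw]
  have := hcomp.unique hid
  intro h0
  rw [h0, mul_zero] at this
  exact zero_ne_one this

universe u

/-- The induction step when the derivative does not vanish. -/
theorem osgood_stepA {n : ℕ}
    (IH : ∀ (V W : Type u) [NormedAddCommGroup V] [NormedSpace ℂ V] [FiniteDimensional ℂ V]
      [NormedAddCommGroup W] [NormedSpace ℂ W] [FiniteDimensional ℂ W] (U : Set V) (f : V → W),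
      Module.finrank ℂ V = n → Module.finrank ℂ W = n → IsOpen U → DifferentiableOn ℂ f U →
      InjOn f U → ∀ z ∈ U, Function.Injective (fderiv ℂ f z))
    (V W : Type u) [NormedAddCommGroup V] [NormedSpace ℂ V] [FiniteDimensional ℂ V]
    [NormedAddCommGroup W] [NormedSpace ℂ W] [FiniteDimensional ℂ W] (U : Set V) (f : V → W)
    (hV : Module.finrank ℂ V = n + 1) (hW : Module.finrank ℂ W = n + 1) (hU : IsOpen U)
    (hf : DifferentiableOn ℂ f U) (hinj : InjOn f U) (z : V) (hz : z ∈ U)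
    (hne : fderiv ℂ f z ≠ 0) : Function.Injective (fderiv ℂ f z) := by
  have hcV : CompleteSpace V := FiniteDimensional.complete ℂ V
  have hcW : CompleteSpace W := FiniteDimensional.complete ℂ W
  obtain ⟨v, hv⟩ : ∃ v, fderiv ℂ f z v ≠ 0 := by
    by_contra h
    push Not at h
    exact hne (ContinuousLinearMap.ext h)
  obtain ⟨l, -, hl⟩ := exists_dual_vector ℂ _ (norm_ne_zero_iff.mpr hv)
  have hlv : l (fderiv ℂ f z v) ≠ 0 := by
    rw [hl]; simpa using hv
  set A : V →L[ℂ] ℂ := l ∘L fderiv ℂ f z with hA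
  have hAv : A v ≠ 0 := hlv
  set K : Submodule ℂ V := LinearMap.ker (A : V →ₗ[ℂ] ℂ) with hK
  set K' : Submodule ℂ W := LinearMap.ker (l : W →ₗ[ℂ] ℂ) with hK'
  have hcK : CompleteSpace K := FiniteDimensional.complete ℂ K
  have hKdim : Module.finrank ℂ K = n := by
    have h1 := LinearMap.finrank_range_add_finrank_ker (A : V →ₗ[ℂ] ℂ)
    have h2 : LinearMap.range (A : V →ₗ[ℂ] ℂ) = ⊤ :=
      LinearMap.range_eq_top.mpr (LinearMap.surjective fun h => hAv (by
        have := LinearMap.congr_fun h v; simpa using this))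
    rw [h2, finrank_top, Module.finrank_self, hV] at h1
    have : Module.finrank ℂ K = Module.finrank ℂ (LinearMap.ker (A : V →ₗ[ℂ] ℂ)) := rfl
    omega
  have hKdim' : Module.finrank ℂ K' = n := by
    have h1 := LinearMap.finrank_range_add_finrank_ker (l : W →ₗ[ℂ] ℂ)
    have h2 : LinearMap.range (l : W →ₗ[ℂ] ℂ) = ⊤ :=
      LinearMap.range_eq_top.mpr (LinearMap.surjective fun h => hlv (by
        have := LinearMap.congr_fun h (fderiv ℂ f z v); simpa using this))
    rw [h2, finrank_top, Module.finrank_self, hW] at h1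
    have : Module.finrank ℂ K' = Module.finrank ℂ (LinearMap.ker (l : W →ₗ[ℂ] ℂ)) := rfl
    omega
  -- the parametrised family and the scalar equation
  set θ : K × ℂ → V := fun q => z + (q.1 : V) + q.2 • v with hθ
  set θ' : K × ℂ →L[ℂ] V :=
    K.subtypeL ∘L ContinuousLinearMap.fst ℂ K ℂ +
      (ContinuousLinearMap.snd ℂ K ℂ).smulRight v with hθ'
  have hθeq : ∀ q, θ q = z + θ' q := by
    intro q; simp [hθ, hθ', add_assoc]
  have hθd : ∀ q, HasFDerivAt θ θ' q := by
    intro q
    have h := (θ'.hasFDerivAt (x := q)).const_add z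
    exact h.congr_of_eventuallyEq (Eventually.of_forall hθeq)
  have hθ0 : θ (0, 0) = z := by simp [hθ]
  have hθc : ContDiff ℂ 1 θ := by
    have : θ = fun q => z + θ' q := funext hθeq
    rw [this]; exact contDiff_const.add θ'.contDiff
  set p : K × ℂ → ℂ := fun q => l (f (θ q)) with hp
  have hfc : ContDiffAt ℂ 1 f z := by
    have := contDiffAt_of_differentiableOn (n := 1) hU hf hz
    simpa using this
  have hpc : ContDiffAt ℂ 1 p (0, 0) := by
    have h1 : ContDiffAt ℂ 1 f (θ (0, 0)) := by rw [hθ0]; exact hfc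
    exact l.contDiff.contDiffAt.comp _ (h1.comp _ hθc.contDiffAt)
  have hfz : HasFDerivAt f (fderiv ℂ f z) z :=
    (hf.differentiableAt (hU.mem_nhds hz)).hasFDerivAt
  have hpd : HasFDerivAt p (A ∘L θ') (0, 0) := by
    have h1 : HasFDerivAt f (fderiv ℂ f z) (θ (0, 0)) := by rw [hθ0]; exact hfz
    exact (l.hasFDerivAt).comp _ (h1.comp _ (hθd (0, 0)))
  obtain ⟨φ, hφc, hφ0, hφ1, -, hφ3⟩ := graph_lemma hpc (by
    rw [hpd.fderiv]; simpa [hθ'] using hAv)
  have hφd : fderiv ℂ φ 0 = 0 := by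
    ext k
    refine hφ3 k ?_
    rw [hpd.fderiv]
    have : A (k : V) = 0 := k.2
    simp [hθ', this]
  -- the curve in the level set
  set γ : K → V := fun k => θ (k, φ k) with hγ
  have hγ0 : γ 0 = z := by simp [hγ, hφ0, hθ]
  have hφD : HasFDerivAt φ (0 : K →L[ℂ] ℂ) 0 := by
    have := (hφc.differentiableAt one_ne_zero).hasFDerivAt
    rwa [hφd] at this
  have hγd : HasFDerivAt γ K.subtypeL 0 := by
    have h1 : HasFDerivAt (fun k : K => (k, φ k))
        ((ContinuousLinearMap.id ℂ K).prod (0 : K →L[ℂ] ℂ)) 0 := (hasFDerivAt_id 0).prodMk hφD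
    have h2 : HasFDerivAt θ θ' ((fun k : K => (k, φ k)) 0) := hθd _
    have h3 := h2.comp (0 : K) h1
    have h4 : θ' ∘L ((ContinuousLinearMap.id ℂ K).prod (0 : K →L[ℂ] ℂ)) = K.subtypeL := by
      ext k; simp [hθ']
    rw [h4] at h3
    exact h3
  -- a good neighbourhood of `0` in `K`
  obtain ⟨P, hP⟩ : ∃ P : W →L[ℂ] K', ∀ x : K', P x = x := by
    obtain ⟨P, hP⟩ := Submodule.ClosedComplemented.of_finiteDimensional (𝕜 := ℂ) K'
    exact ⟨P, hP⟩
  have hφev : ∀ᶠ k in 𝓝 (0 : K), ContDiffAt ℂ 1 φ k := hφc.eventually (by simp)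
  have hγU : ∀ᶠ k in 𝓝 (0 : K), γ k ∈ U := by
    have hγc : ContinuousAt γ 0 := hγd.continuousAt
    exact hγc.eventually (by rw [hγ0]; exact hU.mem_nhds hz)
  obtain ⟨r, hr, hrg⟩ := Metric.eventually_nhds_iff_ball.mp ((hφev.and hγU).and hφ1)
  set F : K → K' := fun k => P (f (γ k) - f z) with hF
  have hmem : ∀ k ∈ ball (0 : K) r, f (γ k) - f z ∈ K' := by
    intro k hk
    have h1 := (hrg k hk).2
    rw [hK', LinearMap.mem_ker]
    have h2 : p (k, φ k) = l (f (γ k)) := rfl
    have h3 : p (0, 0) = l (f z) := by simp only [hp]; rw [hθ0]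
    rw [h2, h3] at h1
    simp [h1]
  have hPF : ∀ k ∈ ball (0 : K) r, ((F k : K') : W) = f (γ k) - f z := by
    intro k hk
    have := hP ⟨f (γ k) - f z, hmem k hk⟩
    simp only [hF]
    rw [this]
  have hγdiff : ∀ k ∈ ball (0 : K) r, DifferentiableAt ℂ γ k := by
    intro k hk
    have h1 : DifferentiableAt ℂ φ k := ((hrg k hk).1.1).differentiableAt one_ne_zero
    exact ((hθd _).differentiableAt).comp k (differentiableAt_id.prodMk h1)
  have hFd : DifferentiableOn ℂ F (ball 0 r) := by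
    intro k hk
    have h1 : DifferentiableAt ℂ f (γ k) := hf.differentiableAt (hU.mem_nhds (hrg k hk).1.2)
    exact (P.differentiableAt.comp k ((h1.comp k (hγdiff k hk)).sub_const _)).differentiableWithinAt
  have hγinj : ∀ k₁ k₂ : K, γ k₁ = γ k₂ → k₁ = k₂ := by
    intro k₁ k₂ h
    have h1 : (k₁ : V) + φ k₁ • v = k₂ + φ k₂ • v := by
      have : z + (k₁ : V) + φ k₁ • v = z + (k₂ : V) + φ k₂ • v := h
      rw [add_assoc, add_assoc] at this
      exact add_left_cancel this
    have h2 := congrArg A h1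
    have hk1 : A (k₁ : V) = 0 := k₁.2
    have hk2 : A (k₂ : V) = 0 := k₂.2
    rw [map_add, map_add, hk1, hk2, map_smul, map_smul, zero_add, zero_add, smul_eq_mul,
      smul_eq_mul] at h2
    have h3 : φ k₁ = φ k₂ := mul_right_cancel₀ hAv h2
    rw [h3] at h1
    exact Subtype.ext (add_right_cancel h1)
  have hFinj : InjOn F (ball 0 r) := by
    intro k₁ hk₁ k₂ hk₂ h
    have h1 : ((F k₁ : K') : W) = F k₂ := congrArg _ h
    rw [hPF k₁ hk₁, hPF k₂ hk₂] at h1
    have h2 : f (γ k₁) = f (γ k₂) := sub_left_injective h1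
    exact hγinj _ _ (hinj (hrg k₁ hk₁).1.2 (hrg k₂ hk₂).1.2 h2)
  have hFi := IH K K' (ball 0 r) F hKdim hKdim' isOpen_ball hFd hFinj 0 (mem_ball_self hr)
  have hFD : HasFDerivAt F (P ∘L (fderiv ℂ f z ∘L K.subtypeL)) 0 := by
    have h1 : HasFDerivAt f (fderiv ℂ f z) (γ 0) := by rw [hγ0]; exact hfz
    exact P.hasFDerivAt.comp _ ((h1.comp _ hγd).sub_const (f z))
  rw [hFD.fderiv] at hFi
  rw [injective_iff_map_eq_zero]
  intro x hx
  have hxK : x ∈ K := by
    rw [hK, LinearMap.mem_ker]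
    have : A x = l (fderiv ℂ f z x) := rfl
    simp [this, hx]
  have h1 : (P ∘L (fderiv ℂ f z ∘L K.subtypeL)) ⟨x, hxK⟩ = 0 := by
    simp [hx]
  have h2 := hFi (h1.trans (map_zero _).symm)
  exact congrArg Subtype.val h2

end SCV
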